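import Mathlib

/-!
Bounds for determinants from bounds of the form `|X i j| ≤ C * z i * z j`, archimedean and p-adic.
-/

open Finset

namespace Pool.Agent.Z3D

/-- archimedean bound: entries at most `C * (z i * z j)` -/
theorem norm_det_le {M : ℕ} (X : Matrix (Fin M) (Fin M) ℂ) (C : ℝ) (z : Fin M → ℝ)
    (h : ∀ i j, ‖X i j‖ ≤ C * (z i * z j)) :
    ‖X.det‖ ≤ (M.factorial : ℝ) * (C ^ M * ∏ i, z i ^ 2) := by
  rw [Matrix.det_apply]
  refine (norm_sum_le _ _).trans ?_
  have h1 : ∀ σ ∈ (univ : Finset (Equiv.Perm (Fin M))),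
      ‖Equiv.Perm.sign σ • ∏ i, X (σ i) i‖ ≤ C ^ M * ∏ i, z i ^ 2 := by
    intro σ _
    have h2 : ‖Equiv.Perm.sign σ • ∏ i, X (σ i) i‖ = ∏ i, ‖X (σ i) i‖ := by
      rcases Int.units_eq_one_or (Equiv.Perm.sign σ) with h3 | h3
      · rw [h3, one_smul, norm_prod]
      · rw [h3, Units.neg_smul, one_smul, norm_neg, norm_prod]
    rw [h2]
    calc ∏ i, ‖X (σ i) i‖ ≤ ∏ i, C * (z (σ i) * z i) :=
          prod_le_prod (fun i _ => norm_nonneg _) (fun i _ => h _ _)
      _ = C ^ M * ∏ i, z i ^ 2 := by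
          rw [prod_mul_distrib, prod_mul_distrib, prod_const, card_univ, Fintype.card_fin,
            Equiv.prod_comp σ z, prod_pow, sq]
  refine (sum_le_card_nsmul _ _ _ h1).trans (le_of_eq ?_)
  rw [card_univ, Fintype.card_perm, Fintype.card_fin, nsmul_eq_mul]

/-- p-adic bound: squares of the norms of the entries at most `p ^ (o i + o j)` -/
theorem padicNorm_det_le {M : ℕ} (p : ℕ) [Fact p.Prime] (X : Matrix (Fin M) (Fin M) ℚ)
    (o : Fin M → ℤ) (h : ∀ i j, padicNorm p (X i j) ^ 2 ≤ (p : ℚ) ^ (o i + o j)) :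
    padicNorm p X.det ≤ (p : ℚ) ^ (∑ i, o i) := by
  have hp0 : (0 : ℚ) < p := by exact_mod_cast (Fact.out : p.Prime).pos
  rw [Matrix.det_apply]
  refine padicNorm.sum_le' (fun σ _ => ?_) (zpow_pos hp0 _).le
  have h2 : padicNorm p (Equiv.Perm.sign σ • ∏ i, X (σ i) i) = ∏ i, padicNorm p (X (σ i) i) := by
    have h4 : padicNorm p (∏ i, X (σ i) i) = ∏ i, padicNorm p (X (σ i) i) := by
      have : ∀ s : Finset (Fin M), padicNorm p (∏ i ∈ s, X (σ i) i) = ∏ i ∈ s, padicNorm p (X (σ i) i) := by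
        intro s
        induction s using Finset.induction_on with
        | empty => simp
        | insert a s ha ih => rw [prod_insert ha, prod_insert ha, padicNorm.mul, ih]
      exact this _
    rcases Int.units_eq_one_or (Equiv.Perm.sign σ) with h3 | h3
    · rw [h3, one_smul, h4]
    · rw [h3, Units.neg_smul, one_smul, padicNorm.neg, h4]
  rw [h2]
  have h5 : (∏ i, padicNorm p (X (σ i) i)) ^ 2 ≤ ((p : ℚ) ^ (∑ i, o i)) ^ 2 := by
    rw [← prod_pow]
    calc ∏ i, padicNorm p (X (σ i) i) ^ 2 ≤ ∏ i, (p : ℚ) ^ (o (σ i) + o i) :=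
          prod_le_prod (fun i _ => sq_nonneg _) (fun i _ => h _ _)
      _ = ((p : ℚ) ^ (∑ i, o i)) ^ 2 := by
          have h6 : ∀ s : Finset (Fin M), ∀ f : Fin M → ℤ, ∏ i ∈ s, (p : ℚ) ^ (f i) = (p : ℚ) ^ (∑ i ∈ s, f i) := by
            intro s f
            induction s using Finset.induction_on with
            | empty => simp
            | insert a s ha ih => rw [prod_insert ha, sum_insert ha, ih, zpow_add₀ hp0.ne']
          rw [h6, sum_add_distrib, Equiv.sum_comp σ o, ← two_mul, mul_comm, zpow_mul, zpow_ofNat]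
  exact le_of_sq_le_sq h5 (zpow_pos hp0 _).le
where
  le_of_sq_le_sq {a b : ℚ} (h : a ^ 2 ≤ b ^ 2) (hb : 0 ≤ b) : a ≤ b := by
    exact le_of_abs_le (by rw [← abs_of_nonneg hb]; exact sq_le_sq.mp h)

end Pool.Agent.Z3D
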