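import Mathlib

/-!
Hankel determinants of a linear functional on polynomials that satisfies a discrete Pearson
equation: if `K` consecutive ones vanish then the functional vanishes on all polynomials of small
degree, provided the roots of the two coefficients are far apart.
-/

open Finset Polynomial

namespace Pool.Agent.Z3D

section Field
variable {F : Type*} [Field F]

/-- nondegeneracy of the bilinear form `Λ (Q * U)` on polynomials of degree `< r` -/
def ND (Λ : F[X] →ₗ[F] F) (r : ℕ) : Prop :=
  ∀ Q : F[X], Q.degree < r → (∀ U : F[X], U.degree < r → Λ (Q * U) = 0) → Q = 0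

theorem ND_zero (Λ : F[X] →ₗ[F] F) : ND Λ 0 := by
  intro Q hQ _
  have hQ2 := (Polynomial.degree_lt_iff_coeff_zero _ 0).mp hQ
  ext m
  rw [hQ2 m (Nat.zero_le m), coeff_zero]

theorem eq_sum_of_degree_lt {U : F[X]} {M : ℕ} (hU : U.degree < M) :
    U = ∑ k : Fin M, C (U.coeff k) * X ^ (k : ℕ) := by
  by_cases h0 : U = 0
  · subst h0
    simp
  · conv_lhs => rw [U.as_sum_range' M ((natDegree_lt_iff_degree_lt h0).mpr hU)]
    rw [Finset.sum_range]
    refine sum_congr rfl (fun k _ => ?_)
    rw [C_mul_X_pow_eq_monomial]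

/-- the Gram matrix of a family of polynomials -/
noncomputable def gram (Λ : F[X] →ₗ[F] F) (P : ℕ → F[X]) (M : ℕ) : Matrix (Fin M) (Fin M) F :=
  Matrix.of fun i j => Λ (P i * P j)

/-- the Gram matrix of monic polynomials of degrees `0, 1, ...` is related to the Hankel matrix
by a unitriangular change of basis -/
theorem gram_eq (Λ : F[X] →ₗ[F] F) (P : ℕ → F[X]) (hP : ∀ i, (P i).natDegree = i) (M : ℕ) :
    gram Λ P M = (Matrix.of fun i j : Fin M => (P i).coeff j) * gram Λ (fun i => X ^ i) M *
      (Matrix.of fun i j : Fin M => (P i).coeff j).transpose := by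
  ext i j
  have hexp : ∀ i : Fin M, P i = ∑ k : Fin M, C ((P i).coeff k) * X ^ (k : ℕ) := by
    intro i
    conv_lhs => rw [(P i).as_sum_range' M (by rw [hP]; exact i.2)]
    rw [Finset.sum_range]
    refine sum_congr rfl (fun k _ => ?_)
    rw [C_mul_X_pow_eq_monomial]
  rw [Matrix.mul_apply]
  simp only [gram, Matrix.of_apply, Matrix.mul_apply, Matrix.transpose_apply]
  conv_lhs => rw [hexp i, hexp j]
  rw [Finset.sum_mul_sum, map_sum]
  simp only [map_sum]
  rw [Finset.sum_comm]
  refine sum_congr rfl (fun k _ => ?_)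
  rw [Finset.sum_mul]
  refine sum_congr rfl (fun l _ => ?_)
  have : C ((P i).coeff l) * X ^ (l : ℕ) * (C ((P j).coeff k) * X ^ (k : ℕ)) =
      ((P i).coeff l * (P j).coeff k) • (X ^ (l : ℕ) * X ^ (k : ℕ)) := by
    rw [smul_eq_C_mul, C_mul]
    ring
  rw [this, map_smul, smul_eq_mul]
  ring

theorem det_gram (Λ : F[X] →ₗ[F] F) (P : ℕ → F[X]) (hm : ∀ i, (P i).Monic)
    (hP : ∀ i, (P i).natDegree = i) (M : ℕ) :
    (gram Λ P M).det = (gram Λ (fun i => X ^ i) M).det := by
  have h1 : (Matrix.of fun i j : Fin M => (P i).coeff j).det = 1 := by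
    rw [Matrix.det_of_isLowerTriangular]
    · refine prod_eq_one (fun i _ => ?_)
      rw [Matrix.of_apply]
      have := hm i
      unfold Polynomial.Monic Polynomial.leadingCoeff at this
      rwa [hP] at this
    · intro i j hij
      rw [Matrix.of_apply]
      exact coeff_eq_zero_of_natDegree_lt (by rw [hP]; exact hij)
  rw [gram_eq Λ P hP, Matrix.det_mul, Matrix.det_mul, Matrix.det_transpose, h1, one_mul, mul_one]

/-- nondegeneracy gives nonzero Hankel determinants -/
theorem det_ne_zero_of_ND (Λ : F[X] →ₗ[F] F) {M : ℕ} (h : ND Λ M) :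
    (gram Λ (fun i => X ^ i) M).det ≠ 0 := by
  intro h0
  obtain ⟨v, hv, hv0⟩ := Matrix.exists_mulVec_eq_zero_iff.mpr h0
  apply hv
  have hQ0 : (∑ k : Fin M, C (v k) * X ^ (k : ℕ) : F[X]) = 0 := by
    refine h _ ?_ ?_
    · refine (degree_sum_le _ _).trans_lt ?_
      rw [Finset.sup_lt_iff (by exact WithBot.bot_lt_coe M)]
      intro k _
      exact (degree_C_mul_X_pow_le _ _).trans_lt (by exact_mod_cast k.2)
    · intro U hU
      have hU2 := eq_sum_of_degree_lt hU
      rw [hU2, Finset.sum_mul_sum, Finset.sum_comm, map_sum]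
      refine sum_eq_zero (fun i _ => ?_)
      have h2 := congrFun hv0 i
      simp only [Matrix.mulVec, dotProduct, gram, Matrix.of_apply, Pi.zero_apply] at h2
      rw [map_sum]
      have h3 : ∀ k : Fin M, Λ (C (v k) * X ^ (k : ℕ) * (C (U.coeff i) * X ^ (i : ℕ))) =
          U.coeff i * (Λ (X ^ (i : ℕ) * X ^ (k : ℕ)) * v k) := by
        intro k
        have : C (v k) * X ^ (k : ℕ) * (C (U.coeff i) * X ^ (i : ℕ)) =
            (U.coeff i * v k) • (X ^ (i : ℕ) * X ^ (k : ℕ)) := by
          rw [smul_eq_C_mul, C_mul]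
          ring
        rw [this, map_smul, smul_eq_mul]
        ring
      rw [sum_congr rfl (fun k _ => h3 k), ← mul_sum, h2, mul_zero]
  ext k
  have := congrArg (fun q : F[X] => q.coeff k) hQ0
  simp only [finsetSum_coeff, coeff_C_mul, coeff_X_pow, coeff_zero] at this
  rw [Finset.sum_eq_single k] at this
  · simpa using this
  · intro b _ hb
    rw [if_neg (fun hh => hb (Fin.ext hh.symm)), mul_zero]
  · intro hk
    exact absurd (mem_univ k) hk
/-- orthogonality to powers gives orthogonality to polynomials -/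
theorem ortho_of_pow (Λ : F[X] →ₗ[F] F) (P : F[X]) (e : ℕ) (h : ∀ i < e, Λ (P * X ^ i) = 0)
    (U : F[X]) (hU : U.degree < e) : Λ (P * U) = 0 := by
  rw [eq_sum_of_degree_lt hU, mul_sum, map_sum]
  refine sum_eq_zero (fun k _ => ?_)
  have : P * (C (U.coeff k) * X ^ (k : ℕ)) = (U.coeff k) • (P * X ^ (k : ℕ)) := by
    rw [smul_eq_C_mul]; ring
  rw [this, map_smul, h k k.2, smul_zero]

/-- the orthogonal polynomial of degree `r` -/
theorem exists_monic (Λ : F[X] →ₗ[F] F) {r : ℕ} (h : ND Λ r) :
    ∃ P : F[X], P.Monic ∧ P.natDegree = r ∧ ∀ i < r, Λ (P * X ^ i) = 0 := by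
  have hdet := det_ne_zero_of_ND Λ h
  set A := gram Λ (fun i => X ^ i) r with hA
  set v : Fin r → F := A⁻¹.mulVec (fun i => - Λ (X ^ (i : ℕ) * X ^ r)) with hv
  have h1 : A.mulVec v = fun i : Fin r => - Λ (X ^ (i : ℕ) * X ^ r) := by
    rw [hv, Matrix.mulVec_mulVec, Matrix.mul_nonsing_inv _ (Ne.isUnit hdet), Matrix.one_mulVec]
  have hlow : (∑ k : Fin r, C (v k) * X ^ (k : ℕ) : F[X]).degree < r := by
    refine (degree_sum_le _ _).trans_lt ?_
    rw [Finset.sup_lt_iff (by exact WithBot.bot_lt_coe r)]
    intro k _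
    exact (degree_C_mul_X_pow_le _ _).trans_lt (by exact_mod_cast k.2)
  have hmon := monic_X_pow_add hlow
  refine ⟨X ^ r + ∑ k : Fin r, C (v k) * X ^ (k : ℕ), hmon, ?_, ?_⟩
  · have h2 : (X ^ r + ∑ k : Fin r, C (v k) * X ^ (k : ℕ) : F[X]).degree = (r : ℕ) := by
      rw [degree_add_eq_left_of_degree_lt (by rw [degree_X_pow]; exact hlow), degree_X_pow]
    exact natDegree_eq_of_degree_eq_some h2
  · intro i hi
    have h3 := congrFun h1 ⟨i, hi⟩
    simp only [Matrix.mulVec, dotProduct, hA, gram, Matrix.of_apply] at h3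
    rw [add_mul, map_add, Finset.sum_mul, map_sum]
    have h4 : ∀ k : Fin r, Λ (C (v k) * X ^ (k : ℕ) * X ^ i) =
        Λ (X ^ i * X ^ (k : ℕ)) * v k := by
      intro k
      have : C (v k) * X ^ (k : ℕ) * X ^ i = (v k) • (X ^ i * X ^ (k : ℕ)) := by
        rw [smul_eq_C_mul]; ring
      rw [this, map_smul, smul_eq_mul, mul_comm]
    rw [sum_congr rfl (fun k _ => h4 k), h3, mul_comm (X ^ r) (X ^ i), add_neg_cancel]

/-- long orthogonality: if the form is degenerate in all sizes from `r + 1` to `M` then the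
orthogonal polynomial of degree `r` is orthogonal to all powers below `M` -/
theorem long_ortho (Λ : F[X] →ₗ[F] F) {r M : ℕ} (h : ND Λ r)
    (hM : ∀ j, r < j → j ≤ M → ¬ ND Λ j) :
    ∃ P : F[X], P.Monic ∧ P.natDegree = r ∧ ∀ i, i < max r M → Λ (P * X ^ i) = 0 := by
  obtain ⟨P, hP, hd, ho⟩ := exists_monic Λ h
  refine ⟨P, hP, hd, ?_⟩
  intro e
  induction e using Nat.strong_induction_on with
  | _ e ih =>
    intro he
    by_cases her : e < r
    · exact ho e her
    push Not at her
    have heM : e < M := by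
      rcases lt_max_iff.mp he with h1 | h1
      · omega
      · exact h1
    by_contra hne
    have ho2 : ∀ U : F[X], U.degree < e → Λ (P * U) = 0 :=
      ortho_of_pow Λ P e (fun i hi => ih i hi (by omega))
    refine hM (e + 1) (by omega) (by omega) ?_
    intro Q hQ hQU
    have hdP : P.degree = (r : ℕ) := by rw [degree_eq_natDegree hP.ne_zero, hd]
    have hdiv := modByMonic_add_div Q P
    have hQe : Q.natDegree ≤ e := by
      by_cases hQ0 : Q = 0
      · rw [hQ0, natDegree_zero]; exact Nat.zero_le _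
      · have := (natDegree_lt_iff_degree_lt hQ0).mpr hQ
        omega
    have hV : (Q /ₘ P).natDegree ≤ e - r := by
      rw [natDegree_divByMonic Q hP, hd]
      omega
    have hW : (Q %ₘ P).degree < r := by
      rw [← hdP]
      exact degree_modByMonic_lt Q hP
    have hW0 : Q %ₘ P = 0 := by
      refine h _ hW (fun U hU => ?_)
      have h1 : Λ (Q * U) = 0 := by
        refine hQU U (hU.trans_le ?_)
        exact_mod_cast (by omega : r ≤ e + 1)
      have h2 : Λ (P * ((Q /ₘ P) * U)) = 0 := by
        by_cases hU0 : U = 0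
        · rw [hU0, mul_zero, mul_zero, map_zero]
        · refine ho2 _ ((degree_le_natDegree).trans_lt ?_)
          have h3 : ((Q /ₘ P) * U).natDegree ≤ (Q /ₘ P).natDegree + U.natDegree := natDegree_mul_le
          have h4 := (natDegree_lt_iff_degree_lt hU0).mpr hU
          exact_mod_cast (by omega : ((Q /ₘ P) * U).natDegree < e)
      have h3 : (Q %ₘ P) * U = Q * U - P * ((Q /ₘ P) * U) := by
        have : Q * U = (Q %ₘ P + P * (Q /ₘ P)) * U := by rw [hdiv]
        rw [this]
        ring
      rw [h3, map_sub, h1, h2, sub_zero]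
    rw [hW0, zero_add] at hdiv
    by_cases hV0 : Q /ₘ P = 0
    · rw [← hdiv, hV0, mul_zero]
    exfalso
    set V := Q /ₘ P with hVdef
    have h5 : Λ (Q * X ^ (e - V.natDegree)) = 0 := by
      refine hQU _ ?_
      rw [degree_X_pow]
      exact_mod_cast (by omega : e - V.natDegree < e + 1)
    have h6 : V * X ^ (e - V.natDegree) =
        C V.leadingCoeff * X ^ e + V.eraseLead * X ^ (e - V.natDegree) := by
      have hs : V.eraseLead + C V.leadingCoeff * X ^ V.natDegree = V :=
        V.eraseLead_add_C_mul_X_pow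
      have hx : X ^ e = (X ^ V.natDegree * X ^ (e - V.natDegree) : F[X]) := by
        rw [← pow_add]
        congr 1
        omega
      calc V * X ^ (e - V.natDegree)
          = (V.eraseLead + C V.leadingCoeff * X ^ V.natDegree) * X ^ (e - V.natDegree) := by
            rw [hs]
        _ = C V.leadingCoeff * X ^ e + V.eraseLead * X ^ (e - V.natDegree) := by
            rw [hx]; ring
    have h7 : (V.eraseLead * X ^ (e - V.natDegree)).degree < (e : WithBot ℕ) := by
      by_cases hE : V.eraseLead = 0
      · rw [hE, zero_mul, degree_zero]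
        exact WithBot.bot_lt_coe e
      · rw [degree_mul, degree_X_pow]
        have h8 : V.eraseLead.degree < V.degree := degree_eraseLead_lt hV0
        rw [degree_eq_natDegree hE, degree_eq_natDegree hV0] at h8
        rw [degree_eq_natDegree hE]
        have h9 : V.eraseLead.natDegree < V.natDegree := by exact_mod_cast h8
        exact_mod_cast (by omega : V.eraseLead.natDegree + (e - V.natDegree) < e)
    rw [← hdiv, mul_assoc, h6, mul_add, map_add, ho2 _ h7, add_zero] at h5
    have h8 : P * (C V.leadingCoeff * X ^ e) = V.leadingCoeff • (P * X ^ e) := by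
      rw [smul_eq_C_mul]; ring
    rw [h8, map_smul, smul_eq_mul] at h5
    rcases mul_eq_zero.mp h5 with h9 | h9
    · exact hV0 (leadingCoeff_eq_zero.mp h9)
    · exact hne h9

/-- **Consequence of the Pearson equation.** -/
theorem pearson_dvd (Λ : F[X] →ₗ[F] F) (A B : F[X]) (K M : ℕ) (hA : A.natDegree ≤ K)
    (hB : B.natDegree ≤ K)
    (hpe : ∀ S : F[X], Λ (S.comp (X + 1) * A) = Λ (S * B))
    (hM : ∀ j, M < j + K → j ≤ M → ¬ ND Λ j) :
    ∃ r, r + K ≤ M ∧ ∃ P : F[X], P.Monic ∧ P.natDegree = r ∧ P ∣ P.comp (X + 1) * A ∧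
      P ∣ P.comp (X - 1) * B ∧ ∀ U : F[X], U.degree < M → Λ (P * U) = 0 := by
  classical
  set r := Nat.findGreatest (ND Λ) M with hr
  have hND : ND Λ r := Nat.findGreatest_spec (P := ND Λ) (Nat.zero_le M) (ND_zero Λ)
  have hrM : r ≤ M := Nat.findGreatest_le M
  have hrK : r + K ≤ M := by
    by_contra hcon
    exact hM r (by omega) hrM hND
  obtain ⟨P, hP, hd, ho⟩ := long_ortho Λ hND
    (fun j h1 h2 => Nat.findGreatest_is_greatest h1 h2)
  rw [max_eq_right hrM] at ho
  have ho2 : ∀ U : F[X], U.degree < M → Λ (P * U) = 0 := ortho_of_pow Λ P M ho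
  have ho3 : ∀ U : F[X], U.natDegree < M → Λ (P * U) = 0 := fun U hU =>
    ho2 U (degree_le_natDegree.trans_lt (by exact_mod_cast hU))
  have hdP : P.degree = (r : ℕ) := by rw [degree_eq_natDegree hP.ne_zero, hd]
  have main : ∀ T : F[X], T.natDegree ≤ r + K → (∀ U : F[X], U.degree < r → Λ (T * U) = 0) →
      P ∣ T := by
    intro T hT hTU
    have hdiv := modByMonic_add_div T P
    have hV : (T /ₘ P).natDegree ≤ K := by
      rw [natDegree_divByMonic T hP, hd]
      omega
    have hW : (T %ₘ P).degree < r := by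
      rw [← hdP]
      exact degree_modByMonic_lt T hP
    have hW0 : T %ₘ P = 0 := by
      refine hND _ hW (fun U hU => ?_)
      have h2 : Λ (P * ((T /ₘ P) * U)) = 0 := by
        by_cases hU0 : U = 0
        · rw [hU0, mul_zero, mul_zero, map_zero]
        · refine ho3 _ ?_
          have h3 : ((T /ₘ P) * U).natDegree ≤ (T /ₘ P).natDegree + U.natDegree := natDegree_mul_le
          have h4 := (natDegree_lt_iff_degree_lt hU0).mpr hU
          omega
      have h3 : (T %ₘ P) * U = T * U - P * ((T /ₘ P) * U) := by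
        have : T * U = (T %ₘ P + P * (T /ₘ P)) * U := by rw [hdiv]
        rw [this]
        ring
      rw [h3, map_sub, hTU U hU, h2, sub_zero]
    rw [hW0, zero_add] at hdiv
    exact ⟨_, hdiv.symm⟩
  have hX1 : (X + 1 : F[X]).natDegree = 1 := by
    rw [← C_1]; exact natDegree_X_add_C 1
  have hX2 : (X - 1 : F[X]).natDegree = 1 := by
    rw [← C_1]; exact natDegree_X_sub_C 1
  have hcc : ∀ U : F[X], (U.comp (X - 1)).comp (X + 1) = U := by
    intro U
    rw [comp_assoc]
    simp
  have hcc2 : ∀ U : F[X], (U.comp (X + 1)).comp (X - 1) = U := by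
    intro U
    rw [comp_assoc]
    simp
  refine ⟨r, hrK, P, hP, hd, main _ ?_ ?_, main _ ?_ ?_, ho2⟩
  · refine natDegree_mul_le.trans ?_
    rw [natDegree_comp, hX1, hd]
    omega
  · intro U hU
    have h1 := hpe (P * U.comp (X - 1))
    rw [mul_comp, hcc] at h1
    have h2 : P.comp (X + 1) * A * U = P.comp (X + 1) * U * A := by ring
    rw [h2, h1, mul_assoc]
    by_cases hU0 : U = 0
    · rw [hU0, zero_comp, zero_mul, mul_zero, map_zero]
    · refine ho3 _ ?_
      have h3 : (U.comp (X - 1) * B).natDegree ≤ (U.comp (X - 1)).natDegree + B.natDegree :=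
        natDegree_mul_le
      rw [natDegree_comp, hX2] at h3
      have h4 := (natDegree_lt_iff_degree_lt hU0).mpr hU
      omega
  · refine natDegree_mul_le.trans ?_
    rw [natDegree_comp, hX2, hd]
    omega
  · intro U hU
    have h1 := hpe (P.comp (X - 1) * U)
    rw [mul_comp, hcc] at h1
    have h2 : P.comp (X - 1) * B * U = P.comp (X - 1) * U * B := by ring
    rw [h2, ← h1, mul_assoc]
    by_cases hU0 : U = 0
    · rw [hU0, zero_comp, zero_mul, mul_zero, map_zero]
    · refine ho3 _ ?_
      have h3 : (U.comp (X + 1) * A).natDegree ≤ (U.comp (X + 1)).natDegree + A.natDegree :=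
        natDegree_mul_le
      rw [natDegree_comp, hX1] at h3
      have h4 := (natDegree_lt_iff_degree_lt hU0).mpr hU
      omega

end Field

/-- a polynomial `P` with `P ∣ P(X+1) A` and `P ∣ P(X-1) B` of positive degree contains a chain of
roots from a root of `B` up to a root of `A` -/
theorem chain (A B P : ℂ[X]) (hP : P.Monic) (hA : P ∣ P.comp (X + 1) * A)
    (hB : P ∣ P.comp (X - 1) * B) (hd : 0 < P.natDegree) :
    ∃ (β : ℂ) (d : ℕ), B.IsRoot β ∧ A.IsRoot (β + d) ∧ d < P.natDegree := by
  have hP0 := hP.ne_zero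
  obtain ⟨ρ, hρ⟩ := Complex.exists_root (f := P) (by
    rw [degree_eq_natDegree hP0]; exact_mod_cast hd)
  have hstepA : ∀ z : ℂ, P.IsRoot z → ¬ A.IsRoot z → P.IsRoot (z + 1) := by
    intro z hz hAz
    obtain ⟨Q, hQ⟩ := hA
    have h1 := congrArg (fun R : ℂ[X] => R.eval z) hQ
    simp only [eval_mul, eval_comp, eval_add, eval_X, eval_one] at h1
    rw [hz.eq_zero, zero_mul] at h1
    rcases mul_eq_zero.mp h1 with h2 | h2
    · exact h2
    · exact absurd h2 hAz
  have hstepB : ∀ z : ℂ, P.IsRoot z → ¬ B.IsRoot z → P.IsRoot (z - 1) := by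
    intro z hz hBz
    obtain ⟨Q, hQ⟩ := hB
    have h1 := congrArg (fun R : ℂ[X] => R.eval z) hQ
    simp only [eval_mul, eval_comp, eval_sub, eval_X, eval_one] at h1
    rw [hz.eq_zero, zero_mul] at h1
    rcases mul_eq_zero.mp h1 with h2 | h2
    · exact h2
    · exact absurd h2 hBz
  have hfin : ∀ f : ℕ → ℂ, Function.Injective f → ∃ j, ¬ P.IsRoot (f j) := by
    intro f hf
    by_contra hcon
    push Not at hcon
    have h1 : Set.Finite {z | P.IsRoot z} := by
      refine (P.roots.toFinset.finite_toSet).subset (fun z hz => ?_)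
      simp only [Finset.mem_coe, Multiset.mem_toFinset]
      exact (mem_roots hP0).mpr hz
    exact Set.infinite_range_of_injective hf (h1.subset (by
      rintro _ ⟨j, rfl⟩
      exact hcon j))
  have hup : ∃ j : ℕ, A.IsRoot (ρ + j) ∧ ∀ i ≤ j, P.IsRoot (ρ + i) := by
    by_contra hcon
    push Not at hcon
    have hall : ∀ j : ℕ, (∀ i ≤ j, P.IsRoot (ρ + i)) := by
      intro j
      induction j with
      | zero =>
        intro i hi
        have : i = 0 := by omega
        subst this
        simpa using hρ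
      | succ j ih =>
        intro i hi
        rcases Nat.lt_or_ge i (j + 1) with h1 | h1
        · exact ih i (by omega)
        · have : i = j + 1 := by omega
          subst this
          have h2 : ¬ A.IsRoot (ρ + j) := by
            intro h3
            obtain ⟨i, hi, h4⟩ := hcon j h3
            exact h4 (ih i hi)
          have h3 := hstepA _ (ih j le_rfl) h2
          push_cast
          rwa [← add_assoc]
    obtain ⟨j, hj⟩ := hfin (fun j : ℕ => ρ + j) (fun a b hab => by
      have := add_left_cancel hab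
      exact_mod_cast this)
    exact hj (hall j j le_rfl)
  have hdown : ∃ j : ℕ, B.IsRoot (ρ - j) ∧ ∀ i ≤ j, P.IsRoot (ρ - i) := by
    by_contra hcon
    push Not at hcon
    have hall : ∀ j : ℕ, (∀ i ≤ j, P.IsRoot (ρ - i)) := by
      intro j
      induction j with
      | zero =>
        intro i hi
        have : i = 0 := by omega
        subst this
        simpa using hρ
      | succ j ih =>
        intro i hi
        rcases Nat.lt_or_ge i (j + 1) with h1 | h1
        · exact ih i (by omega)
        · have : i = j + 1 := by omega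
          subst this
          have h2 : ¬ B.IsRoot (ρ - j) := by
            intro h3
            obtain ⟨i, hi, h4⟩ := hcon j h3
            exact h4 (ih i hi)
          have h3 := hstepB _ (ih j le_rfl) h2
          push_cast
          rwa [← sub_sub]
    obtain ⟨j, hj⟩ := hfin (fun j : ℕ => ρ - j) (fun a b hab => by
      have := sub_right_injective hab
      exact_mod_cast this)
    exact hj (hall j j le_rfl)
  obtain ⟨j1, h1, h2⟩ := hup
  obtain ⟨j2, h3, h4⟩ := hdown
  refine ⟨ρ - j2, j1 + j2, h3, ?_, ?_⟩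
  · have : ρ - (j2 : ℂ) + ((j1 + j2 : ℕ) : ℂ) = ρ + j1 := by push_cast; ring
    rw [this]
    exact h1
  · -- the `j1 + j2 + 1` roots are distinct
    have h5 : (Finset.range (j1 + j2 + 1)).card ≤ P.roots.toFinset.card := by
      refine Finset.card_le_card_of_injOn (fun i => ρ - j2 + i) ?_ ?_
      · intro i hi
        simp only [Finset.coe_range, Set.mem_Iio] at hi
        simp only [Finset.mem_coe, Multiset.mem_toFinset]
        refine (mem_roots hP0).mpr ?_
        rcases Nat.lt_or_ge i j2 with h6 | h6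
        · have h7 := h4 (j2 - i) (by omega)
          have : ρ - (j2 : ℂ) + i = ρ - ((j2 - i : ℕ) : ℂ) := by
            rw [Nat.cast_sub h6.le]; ring
          rw [this]
          exact h7
        · have h7 := h2 (i - j2) (by omega)
          have : ρ - (j2 : ℂ) + i = ρ + ((i - j2 : ℕ) : ℂ) := by
            rw [Nat.cast_sub h6]; ring
          rw [this]
          exact h7
      · intro a _ b _ hab
        have := add_left_cancel hab
        exact_mod_cast this
    rw [Finset.card_range] at h5
    have h6 := (Multiset.toFinset_card_le P.roots).trans (card_roots' P)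
    omega

/-- **Nonvanishing of one of `K` consecutive Hankel determinants.** -/
theorem nonvanish_generic (Λ : ℂ[X] →ₗ[ℂ] ℂ) (A B : ℂ[X]) (K M : ℕ) (hA : A.natDegree ≤ K)
    (hB : B.natDegree ≤ K)
    (hpe : ∀ S : ℂ[X], Λ (S.comp (X + 1) * A) = Λ (S * B))
    (hroots : ∀ (β : ℂ) (d : ℕ), B.IsRoot β → A.IsRoot (β + d) → M ≤ d)
    (hne : ∃ U : ℂ[X], U.degree < M ∧ Λ U ≠ 0) :
    ∃ j, M < j + K ∧ j ≤ M ∧ (gram Λ (fun i => X ^ i) j).det ≠ 0 := by
  by_contra hcon
  push Not at hcon
  have hM : ∀ j, M < j + K → j ≤ M → ¬ ND Λ j := fun j h1 h2 h3 =>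
    det_ne_zero_of_ND Λ h3 (hcon j h1 h2)
  obtain ⟨r, hr, P, hP, hd, hPA, hPB, ho⟩ := pearson_dvd Λ A B K M hA hB hpe hM
  rcases Nat.eq_zero_or_pos r with h0 | h0
  · have hP1 : P = 1 := hP.natDegree_eq_zero.mp (by omega)
    obtain ⟨U, hU, hU2⟩ := hne
    have := ho U hU
    rw [hP1, one_mul] at this
    exact hU2 this
  · obtain ⟨β, d, h1, h2, h3⟩ := chain A B P hP hPA hPB (by omega)
    have := hroots β d h1 h2
    omega

end Pool.Agent.Z3D
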