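import Mathlib

/-!
The greedy choice of the Newton nodes: at every step a class with the largest offer
`w t - 2 * (number of earlier uses of t)` is chosen.
-/

open Finset

namespace Pool.Agent.Z3D

/-- number of earlier uses of the class `t` -/
def uses (s : ℕ → ℕ) (t i : ℕ) : ℕ := ((range i).filter (fun j => s j = t)).card

theorem uses_zero (s : ℕ → ℕ) (t : ℕ) : uses s t 0 = 0 := by
  unfold uses; simp

theorem uses_succ (s : ℕ → ℕ) (t i : ℕ) :
    uses s t (i + 1) = uses s t i + if s i = t then 1 else 0 := by
  unfold uses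
  rw [range_add_one, filter_insert]
  split_ifs with h
  · rw [card_insert_of_notMem (by simp)]
  · simp

theorem uses_congr {s s' : ℕ → ℕ} {i : ℕ} (h : ∀ j < i, s j = s' j) (t : ℕ) :
    uses s t i = uses s' t i := by
  unfold uses
  congr 1
  refine filter_congr (fun j hj => ?_)
  rw [h j (mem_range.mp hj)]

/-- the states of the greedy procedure -/
noncomputable def gstate (S : Finset ℕ) (hS : S.Nonempty) (w : ℕ → ℤ) : ℕ → (ℕ → ℕ)
  | 0 => fun _ => 0
  | i + 1 => fun t => gstate S hS w i t +
      if Classical.choose (S.exists_max_image (fun t => w t - 2 * (gstate S hS w i t : ℤ)) hS) = t then 1 else 0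

/-- the greedy sequence of classes -/
noncomputable def gseq (S : Finset ℕ) (hS : S.Nonempty) (w : ℕ → ℤ) (i : ℕ) : ℕ :=
  Classical.choose (S.exists_max_image (fun t => w t - 2 * (gstate S hS w i t : ℤ)) hS)

theorem gstate_eq (S : Finset ℕ) (hS : S.Nonempty) (w : ℕ → ℤ) (i t : ℕ) :
    gstate S hS w i t = uses (gseq S hS w) t i := by
  induction i with
  | zero => rw [uses_zero]; rfl
  | succ i ih =>
    rw [uses_succ, ← ih]
    rfl

theorem gseq_mem (S : Finset ℕ) (hS : S.Nonempty) (w : ℕ → ℤ) (i : ℕ) : gseq S hS w i ∈ S :=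
  (Classical.choose_spec (S.exists_max_image (fun t => w t - 2 * (gstate S hS w i t : ℤ)) hS)).1

/-- the offer taken at step `i` -/
noncomputable def offer (S : Finset ℕ) (hS : S.Nonempty) (w : ℕ → ℤ) (i : ℕ) : ℤ :=
  w (gseq S hS w i) - 2 * (uses (gseq S hS w) (gseq S hS w i) i : ℤ)

theorem le_offer (S : Finset ℕ) (hS : S.Nonempty) (w : ℕ → ℤ) (i : ℕ) {t : ℕ} (ht : t ∈ S) :
    w t - 2 * (uses (gseq S hS w) t i : ℤ) ≤ offer S hS w i := by
  have h := (Classical.choose_spec
    (S.exists_max_image (fun t => w t - 2 * (gstate S hS w i t : ℤ)) hS)).2 t ht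
  rw [gstate_eq, gstate_eq] at h
  exact h

/-- total of the offers above the level `0` of a class of weight `v`: `v + (v-2) + ...` -/
def cost (v : ℤ) (m : ℕ) : ℤ := ∑ u ∈ range m, max (v - 2 * (u : ℤ)) 0

theorem cost_zero (v : ℤ) : cost v 0 = 0 := by unfold cost; simp

theorem cost_succ (v : ℤ) (m : ℕ) : cost v (m + 1) = cost v m + max (v - 2 * (m : ℤ)) 0 := by
  unfold cost
  rw [sum_range_succ]

/-- closed form of the total cost -/
def ccost (v : ℤ) : ℤ := if v ≤ 0 then 0 else ((v + 1) ^ 2) / 4

theorem cost_le (v : ℤ) (m : ℕ) : cost v m ≤ ccost v := by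
  -- `cost v m` is `v m - m (m - 1) <= (v + 1) ^ 2 / 4` as long as the terms are nonnegative
  have key : ∀ m : ℕ, cost v m ≤ ccost v := by
    by_cases hv : v ≤ 0
    · intro m
      have : cost v m = 0 := by
        unfold cost
        refine sum_eq_zero (fun u _ => max_eq_right ?_)
        have : (0 : ℤ) ≤ (u : ℤ) := Int.natCast_nonneg u
        omega
      rw [this]
      unfold ccost
      rw [if_pos hv]
    · push Not at hv
      have h1 : ∀ m : ℕ, 2 * (m : ℤ) ≤ v + 1 → cost v m = v * m - m * (m - 1) := by
        intro m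
        induction m with
        | zero => intro _; rw [cost_zero]; simp
        | succ m ih =>
          intro h
          push_cast at h
          rw [cost_succ, ih (by linarith), max_eq_left (by linarith)]
          push_cast
          ring
      have h2 : ∀ m : ℕ, 2 * (m : ℤ) ≤ v + 1 → cost v m ≤ ccost v := by
        intro m hm
        rw [h1 m hm]
        unfold ccost
        rw [if_neg (not_le.mpr hv), Int.le_ediv_iff_mul_le (by norm_num)]
        nlinarith [sq_nonneg (v + 1 - 2 * (m : ℤ))]
      intro m
      by_cases hm : 2 * (m : ℤ) ≤ v + 1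
      · exact h2 m hm
      · push Not at hm
        have h3 : ∀ k : ℕ, v + 1 < 2 * (k : ℤ) → ∃ m0 : ℕ, 2 * (m0 : ℤ) ≤ v + 1 ∧ cost v k = cost v m0 := by
          intro k
          induction k with
          | zero => intro h; exfalso; push_cast at h; linarith
          | succ k ih =>
            intro h
            push_cast at h
            rw [cost_succ, max_eq_right (by linarith), add_zero]
            by_cases hk : 2 * (k : ℤ) ≤ v + 1
            · exact ⟨k, hk, rfl⟩
            · exact ih (not_le.mp hk)
        obtain ⟨m0, h4, h5⟩ := h3 m hm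
        rw [h5]
        exact h2 m0 h4
  exact key m

/-- **The sum of the offers taken in `M` steps**, bounded with a threshold `lam`. -/
theorem sum_offer_le (S : Finset ℕ) (hS : S.Nonempty) (w : ℕ → ℤ) (lam : ℤ) (M : ℕ) :
    ∑ i ∈ range M, offer S hS w i ≤ lam * M + ∑ t ∈ S, ccost (w t - lam) := by
  have h1 : ∀ M : ℕ, ∑ i ∈ range M, offer S hS w i ≤
      lam * M + ∑ t ∈ S, cost (w t - lam) (uses (gseq S hS w) t M) := by
    intro M
    induction M with
    | zero => simp [uses_zero, cost_zero]
    | succ M ih =>
      rw [sum_range_succ]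
      have h2 : ∑ t ∈ S, cost (w t - lam) (uses (gseq S hS w) t (M + 1)) =
          ∑ t ∈ S, cost (w t - lam) (uses (gseq S hS w) t M) +
            max (w (gseq S hS w M) - lam - 2 * (uses (gseq S hS w) (gseq S hS w M) M : ℤ)) 0 := by
        have h3 : ∀ t ∈ S, cost (w t - lam) (uses (gseq S hS w) t (M + 1)) =
            cost (w t - lam) (uses (gseq S hS w) t M) +
              if gseq S hS w M = t then
                max (w (gseq S hS w M) - lam - 2 * (uses (gseq S hS w) (gseq S hS w M) M : ℤ)) 0
              else 0 := by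
          intro t _
          rw [uses_succ]
          split_ifs with h
          · rw [cost_succ, h]
          · rw [Nat.add_zero, add_zero]
        rw [sum_congr rfl h3, sum_add_distrib, sum_ite_eq, if_pos (gseq_mem S hS w M)]
      rw [h2]
      have h4 : offer S hS w M - lam ≤
          max (w (gseq S hS w M) - lam - 2 * (uses (gseq S hS w) (gseq S hS w M) M : ℤ)) 0 := by
        refine le_trans (le_of_eq ?_) (le_max_left _ _)
        unfold offer
        ring
      push_cast
      linarith
  refine (h1 M).trans ?_
  have := sum_le_sum (fun t (_ : t ∈ S) => cost_le (w t - lam) (uses (gseq S hS w) t M))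
  linarith

end Pool.Agent.Z3D
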