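import Pool.Agent.Z3D.Dbl
import Pool.Agent.Z23.ABound

/-!
The coefficients at the double poles of
`κ (t)_{7n} (t+n)_{5n} / ((t+8n)_{12n} (t+9n)_{10n})`, `κ = (12n)! (10n)! / ((7n)! (5n)!)`:
they are `120 n^2` times a product of four binomial coefficients; bounds with free parameters.
-/

open Finset Polynomial
open scoped BigOperators

namespace Pool.Agent.Z3D

open Pool.Agent.Z23 (cA dK below_choose erase_choose choose_log)
open Pool.Agent.D23 (numP)

/-- the product of the four binomial coefficients -/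
def WB (n k : ℕ) : ℕ :=
  (12 * n - 1).choose (k - 8 * n) * (10 * n - 1).choose (k - 9 * n) * k.choose (7 * n) *
    (k - n).choose (5 * n)

theorem WB_pos (n k : ℕ) (h1 : 9 * n ≤ k) (h2 : k < 19 * n) : 0 < WB n k := by
  unfold WB
  have a1 := Nat.choose_pos (show k - 8 * n ≤ 12 * n - 1 by omega)
  have a2 := Nat.choose_pos (show k - 9 * n ≤ 10 * n - 1 by omega)
  have a3 := Nat.choose_pos (show 7 * n ≤ k by omega)
  have a4 := Nat.choose_pos (show 5 * n ≤ k - n by omega)
  positivity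

/-- the coefficients at the double poles -/
theorem cA_abs (n k : ℕ) (h1 : 9 * n ≤ k) (h2 : k < 19 * n) (κ : ℚ)
    (hκ : κ = (((12 * n).factorial : ℚ) * (10 * n).factorial) /
      (((7 * n).factorial : ℚ) * (5 * n).factorial)) (N : ℚ[X])
    (hN : N.eval (-(k : ℚ)) =
      (∏ i ∈ Ico 0 (7 * n), ((i : ℚ) - k)) * ∏ i ∈ Ico n (6 * n), ((i : ℚ) - k)) :
    |cA (C κ * N) (Ico (8 * n) (20 * n)) (Ico (9 * n) (19 * n)) k| =
      120 * (n : ℚ) ^ 2 * (WB n k : ℚ) := by
  have hk : k ∈ Ico (9 * n) (19 * n) := mem_Ico.mpr ⟨h1, h2⟩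
  have hn : 1 ≤ n := by omega
  unfold cA
  rw [if_pos hk, eval_mul, eval_C, hN]
  have e1 := below_choose 0 (7 * n) k (by omega) (by omega)
  have e2 := below_choose n (6 * n) k (by omega) (by omega)
  have e3 := erase_choose (8 * n) (12 * n - 1) k (by omega) (by omega)
  have e4 := erase_choose (9 * n) (10 * n - 1) k (by omega) (by omega)
  have s1 : 7 * n - 0 = 7 * n := by omega
  have s2 : 6 * n - n = 5 * n := by omega
  have s3 : 8 * n + (12 * n - 1) + 1 = 20 * n := by omega
  have s4 : 9 * n + (10 * n - 1) + 1 = 19 * n := by omega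
  rw [s1, Nat.sub_zero] at e1
  rw [s2] at e2
  rw [s3] at e3
  rw [s4] at e4
  have c1 : (0 : ℚ) < ((12 * n - 1).choose (k - 8 * n) : ℚ) := by
    exact_mod_cast Nat.choose_pos (by omega)
  have c2 : (0 : ℚ) < ((10 * n - 1).choose (k - 9 * n) : ℚ) := by
    exact_mod_cast Nat.choose_pos (by omega)
  have d1 : |dK (Ico (8 * n) (20 * n)) k| =
      ((12 * n - 1).factorial : ℚ) / ((12 * n - 1).choose (k - 8 * n) : ℚ) := by
    rw [eq_div_iff c1.ne']
    exact e3
  have d2 : |dK (Ico (9 * n) (19 * n)) k| =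
      ((10 * n - 1).factorial : ℚ) / ((10 * n - 1).choose (k - 9 * n) : ℚ) := by
    rw [eq_div_iff c2.ne']
    exact e4
  have f1 : ((12 * n).factorial : ℚ) = 12 * n * ((12 * n - 1).factorial : ℚ) := by
    rw [← Nat.mul_factorial_pred (by omega : 12 * n ≠ 0)]
    push_cast
    ring
  have f2 : ((10 * n).factorial : ℚ) = 10 * n * ((10 * n - 1).factorial : ℚ) := by
    rw [← Nat.mul_factorial_pred (by omega : 10 * n ≠ 0)]
    push_cast
    ring
  have g1 : ((7 * n).factorial : ℚ) ≠ 0 := by positivity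
  have g2 : ((5 * n).factorial : ℚ) ≠ 0 := by positivity
  have g3 : ((12 * n - 1).factorial : ℚ) ≠ 0 := by positivity
  have g4 : ((10 * n - 1).factorial : ℚ) ≠ 0 := by positivity
  rw [abs_div, abs_mul, abs_mul, abs_mul, e1, e2, d1, d2, hκ, abs_of_nonneg (by positivity), f1, f2]
  unfold WB
  push_cast
  field_simp
  ring

/-- bound with four free parameters -/
theorem WB_log (n k : ℕ) (h1 : 9 * n ≤ k) (h2 : k < 19 * n) (x1 x2 x3 x4 : ℝ) (p1 : 0 < x1)
    (p2 : 0 < x2) (p3 : 0 < x3) (p4 : 0 < x4) :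
    Real.log (WB n k : ℝ) ≤
      n * (12 * Real.log (1 + x1) + 8 * Real.log x1 + 10 * Real.log (1 + x2) + 9 * Real.log x2 -
        7 * Real.log x3 - Real.log (1 + x4) - 5 * Real.log x4) +
      k * (Real.log (1 + x3) + Real.log (1 + x4) - Real.log x1 - Real.log x2) := by
  have hn : 1 ≤ n := by omega
  have b1 := choose_log (12 * n - 1) (k - 8 * n) (by omega) x1 p1
  have b2 := choose_log (10 * n - 1) (k - 9 * n) (by omega) x2 p2
  have b3 := choose_log k (7 * n) (by omega) x3 p3
  have b4 := choose_log (k - n) (5 * n) (by omega) x4 p4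
  have c1 : (0 : ℝ) < ((12 * n - 1).choose (k - 8 * n) : ℝ) := by
    exact_mod_cast Nat.choose_pos (by omega)
  have c2 : (0 : ℝ) < ((10 * n - 1).choose (k - 9 * n) : ℝ) := by
    exact_mod_cast Nat.choose_pos (by omega)
  have c3 : (0 : ℝ) < (k.choose (7 * n) : ℝ) := by exact_mod_cast Nat.choose_pos (by omega)
  have c4 : (0 : ℝ) < ((k - n).choose (5 * n) : ℝ) := by exact_mod_cast Nat.choose_pos (by omega)
  have u1 : ((12 * n - 1 : ℕ) : ℝ) = 12 * n - 1 := by
    rw [Nat.cast_sub (by omega)]; push_cast; ring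
  have u2 : ((10 * n - 1 : ℕ) : ℝ) = 10 * n - 1 := by
    rw [Nat.cast_sub (by omega)]; push_cast; ring
  have u3 : ((k - 8 * n : ℕ) : ℝ) = k - 8 * n := by
    rw [Nat.cast_sub (by omega)]; push_cast; ring
  have u4 : ((k - 9 * n : ℕ) : ℝ) = k - 9 * n := by
    rw [Nat.cast_sub (by omega)]; push_cast; ring
  have u5 : ((k - n : ℕ) : ℝ) = k - n := by
    rw [Nat.cast_sub (by omega)]
  rw [u1, u3] at b1
  rw [u2, u4] at b2
  rw [u5] at b4
  push_cast at b3 b4
  have l1 : 0 ≤ Real.log (1 + x1) := Real.log_nonneg (by linarith)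
  have l2 : 0 ≤ Real.log (1 + x2) := Real.log_nonneg (by linarith)
  unfold WB
  push_cast
  rw [Real.log_mul (by positivity) (by positivity), Real.log_mul (by positivity) (by positivity),
    Real.log_mul (by positivity) (by positivity)]
  linarith

end Pool.Agent.Z3D
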