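import Pool.Agent.Z3D.ACoef

/-!
Upper bound of one term of the sum over the double poles, with a node of multiplicity `R = ρ n` at
`16 n`, by an exponential; the logarithm of the bound is linear in the pole `k`, so only the ends of
the two intervals `[9 n, 16 n]`, `[16 n, 19 n]` have to be checked.
-/

open Finset Polynomial
open scoped BigOperators

namespace Pool.Agent.Z3D

/-- the constant part of the tangent bound of the binomial coefficients -/
noncomputable def tC (x1 x2 x3 x4 : ℝ) : ℝ :=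
  12 * Real.log (1 + x1) + 8 * Real.log x1 + 10 * Real.log (1 + x2) + 9 * Real.log x2 -
    7 * Real.log x3 - Real.log (1 + x4) - 5 * Real.log x4

/-- the slope -/
noncomputable def tS (x1 x2 x3 x4 : ℝ) : ℝ :=
  Real.log (1 + x3) + Real.log (1 + x4) - Real.log x1 - Real.log x2

theorem lin_le (a b lo hi k K : ℝ) (h1 : lo ≤ k) (h2 : k ≤ hi) (h3 : a + lo * b ≤ K)
    (h4 : a + hi * b ≤ K) : a + k * b ≤ K := by
  rcases le_total 0 b with hb | hb
  · nlinarith
  · nlinarith

/-- `log y ≤ log c + y / c - 1` in the form needed for the node -/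
theorem node_log (n : ℕ) (hn : 1 ≤ n) (ρ z c : ℝ) (hρ : 0 ≤ ρ) (hz : 0 < z) (hc : 0 < c) :
    2 * (ρ * n) * Real.log z ≤ 2 * (ρ * n) * Real.log n +
      n * (2 * ρ * (Real.log c - 1)) + (2 * ρ / c) * z := by
  have hn' : (0 : ℝ) < n := by exact_mod_cast hn
  have h1 := Real.log_le_sub_one_of_pos (show 0 < z / (n * c) by positivity)
  rw [Real.log_div hz.ne' (by positivity), Real.log_mul hn'.ne' hc.ne'] at h1
  have h2 : Real.log z ≤ Real.log n + Real.log c + z / (n * c) - 1 := by linarith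
  have h3 : (0 : ℝ) ≤ 2 * (ρ * n) := by positivity
  have h4 := mul_le_mul_of_nonneg_left h2 h3
  refine h4.trans (le_of_eq ?_)
  field_simp
  ring

/-- the conditions at the two ends `lo n`, `hi n` on the left of the node -/
def EndL (s K ρ x1 x2 x3 x4 c lo : ℝ) : Prop :=
  tC x1 x2 x3 x4 - 16 * Real.log (1 + 2 * s) + 2 * ρ * (Real.log c - 1) + 16 * (2 * ρ / c) +
      lo * (tS x1 x2 x3 x4 + 4 * Real.log (1 + 2 * s) - 2 * ρ / c) ≤ K

/-- the conditions at the two ends on the right of the node -/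
def EndR (s K ρ x1 x2 x3 x4 c lo : ℝ) : Prop :=
  tC x1 x2 x3 x4 - 16 * Real.log (1 + 2 * s) + 2 * ρ * (Real.log c - 1) - 16 * (2 * ρ / c) +
      lo * (tS x1 x2 x3 x4 + 4 * Real.log (1 + 2 * s) + 2 * ρ / c) ≤ K

/-- **One term of the sum.** -/
theorem node_term (n R k : ℕ) (hn : 1 ≤ n) (hk1 : 9 * n ≤ k) (hk2 : k < 19 * n)
    (s K ρ : ℝ) (hs : 0 < s) (hρ : 0 ≤ ρ) (hR : (R : ℝ) = ρ * n)
    (x1 x2 x3 x4 c : ℝ) (p1 : 0 < x1) (p2 : 0 < x2) (p3 : 0 < x3) (p4 : 0 < x4) (pc : 0 < c)
    (y1 y2 y3 y4 d : ℝ) (q1 : 0 < y1) (q2 : 0 < y2) (q3 : 0 < y3) (q4 : 0 < y4) (qd : 0 < d)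
    (l1 : EndL s K ρ x1 x2 x3 x4 c 9) (l2 : EndL s K ρ x1 x2 x3 x4 c 16)
    (r1 : EndR s K ρ y1 y2 y3 y4 d 16) (r2 : EndR s K ρ y1 y2 y3 y4 d 19) :
    (WB n k : ℝ) * (1 + 2 * s) ^ (4 * k - 16 * n) *
      |(16 * n : ℝ) - k| ^ (2 * R) ≤ (n : ℝ) ^ (2 * R) * Real.exp (K * n) := by
  have hn' : (1 : ℝ) ≤ n := by exact_mod_cast hn
  have hn0 : (0 : ℝ) < n := by linarith
  have hW : (0 : ℝ) < (WB n k : ℝ) := by
    exact_mod_cast WB_pos n k (by omega) (by omega)
  have hk1' : (9 : ℝ) * n ≤ k := by exact_mod_cast hk1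
  have hk2' : (k : ℝ) ≤ 19 * n := by exact_mod_cast hk2.le
  have hs1 : 0 < 1 + 2 * s := by linarith
  have he : ((4 * k - 16 * n : ℕ) : ℝ) = 4 * k - 16 * n := by
    rw [Nat.cast_sub (by omega)]
    push_cast
    ring
  unfold EndL at l1 l2
  unfold EndR at r1 r2
  -- the case of the node itself
  by_cases hz : (16 * n : ℝ) - k = 0
  · rcases Nat.eq_zero_or_pos R with hR0 | hR0
    · have hρ0 : ρ = 0 := by
        rw [hR0, Nat.cast_zero] at hR
        rcases mul_eq_zero.mp hR.symm with h | h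
        · exact h
        · exact absurd h hn0.ne'
      subst hR0
      subst hρ0
      rw [mul_zero, pow_zero, pow_zero, mul_one, one_mul]
      rw [← Real.log_le_log_iff (by positivity) (by positivity), Real.log_exp,
        Real.log_mul hW.ne' (by positivity), Real.log_pow, he]
      have h1 := WB_log n k (by omega) (by omega) x1 x2 x3 x4 p1 p2 p3 p4
      unfold tC tS at l2
      have hk : (k : ℝ) = 16 * n := by linarith
      rw [hk] at h1 ⊢
      have h2 := mul_le_mul_of_nonneg_right l2 hn0.le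
      simp only [mul_zero, zero_mul, zero_div, add_zero, sub_zero] at h2
      nlinarith
    · rw [hz, abs_zero, zero_pow (by positivity), mul_zero]
      positivity
  · have hz' : 0 < |(16 * n : ℝ) - k| := abs_pos.mpr hz
    rw [← Real.log_le_log_iff (by positivity) (by positivity),
      Real.log_mul (by positivity) (by positivity), Real.log_mul hW.ne' (by positivity), Real.log_pow,
      Real.log_pow, Real.log_mul (by positivity) (by positivity), Real.log_exp, Real.log_pow, he]
    push_cast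
    rw [hR]
    rcases le_total ((k : ℝ)) (16 * n) with hk | hk
    · have h1 := WB_log n k (by omega) (by omega) x1 x2 x3 x4 p1 p2 p3 p4
      have h2 := node_log n hn ρ _ c hρ hz' pc
      rw [abs_of_nonneg (by linarith : (0 : ℝ) ≤ 16 * n - k)] at h2 ⊢
      have h3 := lin_le
        (n * (tC x1 x2 x3 x4 - 16 * Real.log (1 + 2 * s) + 2 * ρ * (Real.log c - 1) +
          16 * (2 * ρ / c)))
        (tS x1 x2 x3 x4 + 4 * Real.log (1 + 2 * s) - 2 * ρ / c) (9 * n) (16 * n) k (K * n)
        hk1' hk (by nlinarith) (by nlinarith)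
      unfold tC tS at h3
      nlinarith
    · have h1 := WB_log n k (by omega) (by omega) y1 y2 y3 y4 q1 q2 q3 q4
      have h2 := node_log n hn ρ _ d hρ hz' qd
      rw [abs_of_nonpos (by linarith : (16 * n : ℝ) - k ≤ 0)] at h2 ⊢
      have h3 := lin_le
        (n * (tC y1 y2 y3 y4 - 16 * Real.log (1 + 2 * s) + 2 * ρ * (Real.log d - 1) -
          16 * (2 * ρ / d)))
        (tS y1 y2 y3 y4 + 4 * Real.log (1 + 2 * s) + 2 * ρ / d) (16 * n) (19 * n) k (K * n)
        hk hk2' (by nlinarith) (by nlinarith)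
      unfold tC tS at h3
      nlinarith

end Pool.Agent.Z3D
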