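import Pool.Agent.Z3D.ANode

/-!
The end-point inequalities for the three groups of rows (`ρ = 0, 3/10, 6/10`), `s = 1/12`.
-/

open Finset

namespace Pool.Agent.Z3D

open Pool.Agent.Z23 (log_list_ge)

theorem log_frac (a b : ℕ) (x : ℝ) (ha : 0 < a) (hb : 0 < b) (h : x = (a : ℝ) / b) :
    Real.log x = Real.log a - Real.log b := by
  rw [h, Real.log_div (by exact_mod_cast ha.ne') (by exact_mod_cast hb.ne')]

theorem end0L9 : EndL (1 / 12) (42.95 - 16 * Real.log (13 / 12)) 0 2 (2401 / 972) (7 / 9) (1 / 2) 1 9 := by
  have h := log_list_ge [(3, 400), (7, 260), (13, 320), (16, 180), (3373, 200)]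
    [(2, 80), (6, 400), (9, 40), (12, 320), (972, 200)] (by decide) (by decide) 859 (by decide +kernel)
  simp only [List.map_cons, List.map_nil, List.sum_cons, List.sum_nil] at h
  have e0 : Real.log (1 + 2) = Real.log 3 := by norm_num
  have e2 : Real.log (1 + (2401 / 972)) = Real.log 3373 - Real.log 972 := by
    rw [log_frac 3373 972 (1 + (2401 / 972)) (by norm_num) (by norm_num) (by norm_num)]
    push_cast
    ring
  have e3 : Real.log (2401 / 972) = Real.log 2401 - Real.log 972 := by
    rw [log_frac 2401 972 (2401 / 972) (by norm_num) (by norm_num) (by norm_num)]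
    push_cast
    ring
  have e4 : Real.log (1 + (7 / 9)) = Real.log 16 - Real.log 9 := by
    rw [log_frac 16 9 (1 + (7 / 9)) (by norm_num) (by norm_num) (by norm_num)]
    push_cast
    ring
  have e5 : Real.log (7 / 9) = Real.log 7 - Real.log 9 := by
    rw [log_frac 7 9 (7 / 9) (by norm_num) (by norm_num) (by norm_num)]
    push_cast
    ring
  have e6 : Real.log (1 + (1 / 2)) = Real.log 3 - Real.log 2 := by
    rw [log_frac 3 2 (1 + (1 / 2)) (by norm_num) (by norm_num) (by norm_num)]
    push_cast
    ring
  have e7 : Real.log (1 / 2) = 0 - Real.log 2 := by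
    rw [log_frac 1 2 (1 / 2) (by norm_num) (by norm_num) (by norm_num)]
    norm_num
  have e8 : Real.log (1 + 2 * (1 / 12)) = Real.log 7 - Real.log 6 := by
    rw [log_frac 7 6 (1 + 2 * (1 / 12)) (by norm_num) (by norm_num) (by norm_num)]
    push_cast
    ring
  have e9 : Real.log (13 / 12) = Real.log 13 - Real.log 12 := by
    rw [log_frac 13 12 (13 / 12) (by norm_num) (by norm_num) (by norm_num)]
    push_cast
    ring
  have e10 : Real.log 1 = 0 := by norm_num
  push_cast at h
  unfold EndL tC tS
  rw [e0, e2, e3, e4, e5, e6, e7, e8, e9, e10]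
  linarith

theorem end0L16 : EndL (1 / 12) (42.95 - 16 * Real.log (13 / 12)) 0 2 (2401 / 972) (7 / 9) (1 / 2) 1 16 := by
  have h := log_list_ge [(3, 540), (7, 820), (13, 320), (16, 320), (3373, 200)]
    [(2, 360), (6, 960), (9, 180), (12, 320), (972, 60), (2401, 140)] (by decide) (by decide) 859 (by decide +kernel)
  simp only [List.map_cons, List.map_nil, List.sum_cons, List.sum_nil] at h
  have e0 : Real.log (1 + 2) = Real.log 3 := by norm_num
  have e2 : Real.log (1 + (2401 / 972)) = Real.log 3373 - Real.log 972 := by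
    rw [log_frac 3373 972 (1 + (2401 / 972)) (by norm_num) (by norm_num) (by norm_num)]
    push_cast
    ring
  have e3 : Real.log (2401 / 972) = Real.log 2401 - Real.log 972 := by
    rw [log_frac 2401 972 (2401 / 972) (by norm_num) (by norm_num) (by norm_num)]
    push_cast
    ring
  have e4 : Real.log (1 + (7 / 9)) = Real.log 16 - Real.log 9 := by
    rw [log_frac 16 9 (1 + (7 / 9)) (by norm_num) (by norm_num) (by norm_num)]
    push_cast
    ring
  have e5 : Real.log (7 / 9) = Real.log 7 - Real.log 9 := by
    rw [log_frac 7 9 (7 / 9) (by norm_num) (by norm_num) (by norm_num)]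
    push_cast
    ring
  have e6 : Real.log (1 + (1 / 2)) = Real.log 3 - Real.log 2 := by
    rw [log_frac 3 2 (1 + (1 / 2)) (by norm_num) (by norm_num) (by norm_num)]
    push_cast
    ring
  have e7 : Real.log (1 / 2) = 0 - Real.log 2 := by
    rw [log_frac 1 2 (1 / 2) (by norm_num) (by norm_num) (by norm_num)]
    norm_num
  have e8 : Real.log (1 + 2 * (1 / 12)) = Real.log 7 - Real.log 6 := by
    rw [log_frac 7 6 (1 + 2 * (1 / 12)) (by norm_num) (by norm_num) (by norm_num)]
    push_cast
    ring
  have e9 : Real.log (13 / 12) = Real.log 13 - Real.log 12 := by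
    rw [log_frac 13 12 (13 / 12) (by norm_num) (by norm_num) (by norm_num)]
    push_cast
    ring
  have e10 : Real.log 1 = 0 := by norm_num
  push_cast at h
  unfold EndL tC tS
  rw [e0, e2, e3, e4, e5, e6, e7, e8, e9, e10]
  linarith

theorem end0R16 : EndR (1 / 12) (42.95 - 16 * Real.log (13 / 12)) 0 2 (2401 / 972) (7 / 9) (1 / 2) 1 16 := by
  have h := log_list_ge [(3, 540), (7, 820), (13, 320), (16, 320), (3373, 200)]
    [(2, 360), (6, 960), (9, 180), (12, 320), (972, 60), (2401, 140)] (by decide) (by decide) 859 (by decide +kernel)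
  simp only [List.map_cons, List.map_nil, List.sum_cons, List.sum_nil] at h
  have e0 : Real.log (1 + 2) = Real.log 3 := by norm_num
  have e2 : Real.log (1 + (2401 / 972)) = Real.log 3373 - Real.log 972 := by
    rw [log_frac 3373 972 (1 + (2401 / 972)) (by norm_num) (by norm_num) (by norm_num)]
    push_cast
    ring
  have e3 : Real.log (2401 / 972) = Real.log 2401 - Real.log 972 := by
    rw [log_frac 2401 972 (2401 / 972) (by norm_num) (by norm_num) (by norm_num)]
    push_cast
    ring
  have e4 : Real.log (1 + (7 / 9)) = Real.log 16 - Real.log 9 := by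
    rw [log_frac 16 9 (1 + (7 / 9)) (by norm_num) (by norm_num) (by norm_num)]
    push_cast
    ring
  have e5 : Real.log (7 / 9) = Real.log 7 - Real.log 9 := by
    rw [log_frac 7 9 (7 / 9) (by norm_num) (by norm_num) (by norm_num)]
    push_cast
    ring
  have e6 : Real.log (1 + (1 / 2)) = Real.log 3 - Real.log 2 := by
    rw [log_frac 3 2 (1 + (1 / 2)) (by norm_num) (by norm_num) (by norm_num)]
    push_cast
    ring
  have e7 : Real.log (1 / 2) = 0 - Real.log 2 := by
    rw [log_frac 1 2 (1 / 2) (by norm_num) (by norm_num) (by norm_num)]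
    norm_num
  have e8 : Real.log (1 + 2 * (1 / 12)) = Real.log 7 - Real.log 6 := by
    rw [log_frac 7 6 (1 + 2 * (1 / 12)) (by norm_num) (by norm_num) (by norm_num)]
    push_cast
    ring
  have e9 : Real.log (13 / 12) = Real.log 13 - Real.log 12 := by
    rw [log_frac 13 12 (13 / 12) (by norm_num) (by norm_num) (by norm_num)]
    push_cast
    ring
  have e10 : Real.log 1 = 0 := by norm_num
  push_cast at h
  unfold EndR tC tS
  rw [e0, e2, e3, e4, e5, e6, e7, e8, e9, e10]
  linarith

theorem end0R19 : EndR (1 / 12) (42.95 - 16 * Real.log (13 / 12)) 0 2 (2401 / 972) (7 / 9) (1 / 2) 1 19 := by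
  have h := log_list_ge [(3, 600), (7, 1060), (13, 320), (16, 380), (3373, 200)]
    [(2, 480), (6, 1200), (9, 240), (12, 320), (2401, 200)] (by decide) (by decide) 859 (by decide +kernel)
  simp only [List.map_cons, List.map_nil, List.sum_cons, List.sum_nil] at h
  have e0 : Real.log (1 + 2) = Real.log 3 := by norm_num
  have e2 : Real.log (1 + (2401 / 972)) = Real.log 3373 - Real.log 972 := by
    rw [log_frac 3373 972 (1 + (2401 / 972)) (by norm_num) (by norm_num) (by norm_num)]
    push_cast
    ring
  have e3 : Real.log (2401 / 972) = Real.log 2401 - Real.log 972 := by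
    rw [log_frac 2401 972 (2401 / 972) (by norm_num) (by norm_num) (by norm_num)]
    push_cast
    ring
  have e4 : Real.log (1 + (7 / 9)) = Real.log 16 - Real.log 9 := by
    rw [log_frac 16 9 (1 + (7 / 9)) (by norm_num) (by norm_num) (by norm_num)]
    push_cast
    ring
  have e5 : Real.log (7 / 9) = Real.log 7 - Real.log 9 := by
    rw [log_frac 7 9 (7 / 9) (by norm_num) (by norm_num) (by norm_num)]
    push_cast
    ring
  have e6 : Real.log (1 + (1 / 2)) = Real.log 3 - Real.log 2 := by
    rw [log_frac 3 2 (1 + (1 / 2)) (by norm_num) (by norm_num) (by norm_num)]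
    push_cast
    ring
  have e7 : Real.log (1 / 2) = 0 - Real.log 2 := by
    rw [log_frac 1 2 (1 / 2) (by norm_num) (by norm_num) (by norm_num)]
    norm_num
  have e8 : Real.log (1 + 2 * (1 / 12)) = Real.log 7 - Real.log 6 := by
    rw [log_frac 7 6 (1 + 2 * (1 / 12)) (by norm_num) (by norm_num) (by norm_num)]
    push_cast
    ring
  have e9 : Real.log (13 / 12) = Real.log 13 - Real.log 12 := by
    rw [log_frac 13 12 (13 / 12) (by norm_num) (by norm_num) (by norm_num)]
    push_cast
    ring
  have e10 : Real.log 1 = 0 := by norm_num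
  push_cast at h
  unfold EndR tC tS
  rw [e0, e2, e3, e4, e5, e6, e7, e8, e9, e10]
  linarith

theorem end3L9 : EndL (1 / 12) (42.545 - 16 * Real.log (13 / 12)) (3 / 10) (3 / 2) (5 / 3) (5 / 6) (4 / 7) (4 / 5) 9 := by
  have h := log_list_ge [(5, 88), (7, 340), (8, 200), (11, 340), (13, 320)]
    [(2, 220), (3, 220), (4, 88), (6, 440), (12, 320)] (by decide) (by decide) 757 (by decide +kernel)
  simp only [List.map_cons, List.map_nil, List.sum_cons, List.sum_nil] at h
  have e0 : Real.log (1 + (3 / 2)) = Real.log 5 - Real.log 2 := by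
    rw [log_frac 5 2 (1 + (3 / 2)) (by norm_num) (by norm_num) (by norm_num)]
    push_cast
    ring
  have e1 : Real.log (3 / 2) = Real.log 3 - Real.log 2 := by
    rw [log_frac 3 2 (3 / 2) (by norm_num) (by norm_num) (by norm_num)]
    push_cast
    ring
  have e2 : Real.log (1 + (5 / 3)) = Real.log 8 - Real.log 3 := by
    rw [log_frac 8 3 (1 + (5 / 3)) (by norm_num) (by norm_num) (by norm_num)]
    push_cast
    ring
  have e3 : Real.log (5 / 3) = Real.log 5 - Real.log 3 := by
    rw [log_frac 5 3 (5 / 3) (by norm_num) (by norm_num) (by norm_num)]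
    push_cast
    ring
  have e4 : Real.log (1 + (5 / 6)) = Real.log 11 - Real.log 6 := by
    rw [log_frac 11 6 (1 + (5 / 6)) (by norm_num) (by norm_num) (by norm_num)]
    push_cast
    ring
  have e5 : Real.log (5 / 6) = Real.log 5 - Real.log 6 := by
    rw [log_frac 5 6 (5 / 6) (by norm_num) (by norm_num) (by norm_num)]
    push_cast
    ring
  have e6 : Real.log (1 + (4 / 7)) = Real.log 11 - Real.log 7 := by
    rw [log_frac 11 7 (1 + (4 / 7)) (by norm_num) (by norm_num) (by norm_num)]
    push_cast
    ring
  have e7 : Real.log (4 / 7) = Real.log 4 - Real.log 7 := by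
    rw [log_frac 4 7 (4 / 7) (by norm_num) (by norm_num) (by norm_num)]
    push_cast
    ring
  have e8 : Real.log (1 + 2 * (1 / 12)) = Real.log 7 - Real.log 6 := by
    rw [log_frac 7 6 (1 + 2 * (1 / 12)) (by norm_num) (by norm_num) (by norm_num)]
    push_cast
    ring
  have e9 : Real.log (13 / 12) = Real.log 13 - Real.log 12 := by
    rw [log_frac 13 12 (13 / 12) (by norm_num) (by norm_num) (by norm_num)]
    push_cast
    ring
  have e10 : Real.log (4 / 5) = Real.log 4 - Real.log 5 := by
    rw [log_frac 4 5 (4 / 5) (by norm_num) (by norm_num) (by norm_num)]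
    push_cast
    ring
  push_cast at h
  unfold EndL tC tS
  rw [e0, e1, e2, e3, e4, e5, e6, e7, e8, e9, e10]
  linarith

theorem end3L16 : EndL (1 / 12) (42.545 - 16 * Real.log (13 / 12)) (3 / 10) (3 / 2) (5 / 3) (5 / 6) (4 / 7) (4 / 5) 16 := by
  have h := log_list_ge [(7, 760), (8, 200), (11, 620), (13, 320)]
    [(2, 80), (3, 220), (4, 88), (5, 52), (6, 1140), (12, 320)] (by decide) (by decide) 862 (by decide +kernel)
  simp only [List.map_cons, List.map_nil, List.sum_cons, List.sum_nil] at h
  have e0 : Real.log (1 + (3 / 2)) = Real.log 5 - Real.log 2 := by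
    rw [log_frac 5 2 (1 + (3 / 2)) (by norm_num) (by norm_num) (by norm_num)]
    push_cast
    ring
  have e1 : Real.log (3 / 2) = Real.log 3 - Real.log 2 := by
    rw [log_frac 3 2 (3 / 2) (by norm_num) (by norm_num) (by norm_num)]
    push_cast
    ring
  have e2 : Real.log (1 + (5 / 3)) = Real.log 8 - Real.log 3 := by
    rw [log_frac 8 3 (1 + (5 / 3)) (by norm_num) (by norm_num) (by norm_num)]
    push_cast
    ring
  have e3 : Real.log (5 / 3) = Real.log 5 - Real.log 3 := by
    rw [log_frac 5 3 (5 / 3) (by norm_num) (by norm_num) (by norm_num)]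
    push_cast
    ring
  have e4 : Real.log (1 + (5 / 6)) = Real.log 11 - Real.log 6 := by
    rw [log_frac 11 6 (1 + (5 / 6)) (by norm_num) (by norm_num) (by norm_num)]
    push_cast
    ring
  have e5 : Real.log (5 / 6) = Real.log 5 - Real.log 6 := by
    rw [log_frac 5 6 (5 / 6) (by norm_num) (by norm_num) (by norm_num)]
    push_cast
    ring
  have e6 : Real.log (1 + (4 / 7)) = Real.log 11 - Real.log 7 := by
    rw [log_frac 11 7 (1 + (4 / 7)) (by norm_num) (by norm_num) (by norm_num)]
    push_cast
    ring
  have e7 : Real.log (4 / 7) = Real.log 4 - Real.log 7 := by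
    rw [log_frac 4 7 (4 / 7) (by norm_num) (by norm_num) (by norm_num)]
    push_cast
    ring
  have e8 : Real.log (1 + 2 * (1 / 12)) = Real.log 7 - Real.log 6 := by
    rw [log_frac 7 6 (1 + 2 * (1 / 12)) (by norm_num) (by norm_num) (by norm_num)]
    push_cast
    ring
  have e9 : Real.log (13 / 12) = Real.log 13 - Real.log 12 := by
    rw [log_frac 13 12 (13 / 12) (by norm_num) (by norm_num) (by norm_num)]
    push_cast
    ring
  have e10 : Real.log (4 / 5) = Real.log 4 - Real.log 5 := by
    rw [log_frac 4 5 (4 / 5) (by norm_num) (by norm_num) (by norm_num)]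
    push_cast
    ring
  push_cast at h
  unfold EndL tC tS
  rw [e0, e1, e2, e3, e4, e5, e6, e7, e8, e9, e10]
  linarith

theorem end3R16 : EndR (1 / 12) (42.545 - 16 * Real.log (13 / 12)) (3 / 10) (14 / 5) (7 / 2) (5 / 7) (5 / 11) (4 / 5) 16 := by
  have h := log_list_ge [(4, 120), (7, 6400), (9, 2000), (13, 3200), (16, 3000), (19, 2400)]
    [(2, 600), (5, 3320), (6, 9600), (11, 2000), (14, 1600)] (by decide) (by decide) 8629 (by decide +kernel)
  simp only [List.map_cons, List.map_nil, List.sum_cons, List.sum_nil] at h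
  have e0 : Real.log (1 + (14 / 5)) = Real.log 19 - Real.log 5 := by
    rw [log_frac 19 5 (1 + (14 / 5)) (by norm_num) (by norm_num) (by norm_num)]
    push_cast
    ring
  have e1 : Real.log (14 / 5) = Real.log 14 - Real.log 5 := by
    rw [log_frac 14 5 (14 / 5) (by norm_num) (by norm_num) (by norm_num)]
    push_cast
    ring
  have e2 : Real.log (1 + (7 / 2)) = Real.log 9 - Real.log 2 := by
    rw [log_frac 9 2 (1 + (7 / 2)) (by norm_num) (by norm_num) (by norm_num)]
    push_cast
    ring
  have e3 : Real.log (7 / 2) = Real.log 7 - Real.log 2 := by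
    rw [log_frac 7 2 (7 / 2) (by norm_num) (by norm_num) (by norm_num)]
    push_cast
    ring
  have e4 : Real.log (1 + (5 / 7)) = Real.log 12 - Real.log 7 := by
    rw [log_frac 12 7 (1 + (5 / 7)) (by norm_num) (by norm_num) (by norm_num)]
    push_cast
    ring
  have e5 : Real.log (5 / 7) = Real.log 5 - Real.log 7 := by
    rw [log_frac 5 7 (5 / 7) (by norm_num) (by norm_num) (by norm_num)]
    push_cast
    ring
  have e6 : Real.log (1 + (5 / 11)) = Real.log 16 - Real.log 11 := by
    rw [log_frac 16 11 (1 + (5 / 11)) (by norm_num) (by norm_num) (by norm_num)]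
    push_cast
    ring
  have e7 : Real.log (5 / 11) = Real.log 5 - Real.log 11 := by
    rw [log_frac 5 11 (5 / 11) (by norm_num) (by norm_num) (by norm_num)]
    push_cast
    ring
  have e8 : Real.log (1 + 2 * (1 / 12)) = Real.log 7 - Real.log 6 := by
    rw [log_frac 7 6 (1 + 2 * (1 / 12)) (by norm_num) (by norm_num) (by norm_num)]
    push_cast
    ring
  have e9 : Real.log (13 / 12) = Real.log 13 - Real.log 12 := by
    rw [log_frac 13 12 (13 / 12) (by norm_num) (by norm_num) (by norm_num)]
    push_cast
    ring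
  have e10 : Real.log (4 / 5) = Real.log 4 - Real.log 5 := by
    rw [log_frac 4 5 (4 / 5) (by norm_num) (by norm_num) (by norm_num)]
    push_cast
    ring
  push_cast at h
  unfold EndR tC tS
  rw [e0, e1, e2, e3, e4, e5, e6, e7, e8, e9, e10]
  linarith

theorem end3R19 : EndR (1 / 12) (42.545 - 16 * Real.log (13 / 12)) (3 / 10) (14 / 5) (7 / 2) (5 / 7) (5 / 11) (4 / 5) 19 := by
  have h := log_list_ge [(4, 120), (7, 7600), (9, 2000), (12, 600), (13, 3200), (16, 3600), (19, 2400)]
    [(5, 2720), (6, 12000), (11, 2600), (14, 2200)] (by decide) (by decide) 8179 (by decide +kernel)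
  simp only [List.map_cons, List.map_nil, List.sum_cons, List.sum_nil] at h
  have e0 : Real.log (1 + (14 / 5)) = Real.log 19 - Real.log 5 := by
    rw [log_frac 19 5 (1 + (14 / 5)) (by norm_num) (by norm_num) (by norm_num)]
    push_cast
    ring
  have e1 : Real.log (14 / 5) = Real.log 14 - Real.log 5 := by
    rw [log_frac 14 5 (14 / 5) (by norm_num) (by norm_num) (by norm_num)]
    push_cast
    ring
  have e2 : Real.log (1 + (7 / 2)) = Real.log 9 - Real.log 2 := by
    rw [log_frac 9 2 (1 + (7 / 2)) (by norm_num) (by norm_num) (by norm_num)]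
    push_cast
    ring
  have e3 : Real.log (7 / 2) = Real.log 7 - Real.log 2 := by
    rw [log_frac 7 2 (7 / 2) (by norm_num) (by norm_num) (by norm_num)]
    push_cast
    ring
  have e4 : Real.log (1 + (5 / 7)) = Real.log 12 - Real.log 7 := by
    rw [log_frac 12 7 (1 + (5 / 7)) (by norm_num) (by norm_num) (by norm_num)]
    push_cast
    ring
  have e5 : Real.log (5 / 7) = Real.log 5 - Real.log 7 := by
    rw [log_frac 5 7 (5 / 7) (by norm_num) (by norm_num) (by norm_num)]
    push_cast
    ring
  have e6 : Real.log (1 + (5 / 11)) = Real.log 16 - Real.log 11 := by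
    rw [log_frac 16 11 (1 + (5 / 11)) (by norm_num) (by norm_num) (by norm_num)]
    push_cast
    ring
  have e7 : Real.log (5 / 11) = Real.log 5 - Real.log 11 := by
    rw [log_frac 5 11 (5 / 11) (by norm_num) (by norm_num) (by norm_num)]
    push_cast
    ring
  have e8 : Real.log (1 + 2 * (1 / 12)) = Real.log 7 - Real.log 6 := by
    rw [log_frac 7 6 (1 + 2 * (1 / 12)) (by norm_num) (by norm_num) (by norm_num)]
    push_cast
    ring
  have e9 : Real.log (13 / 12) = Real.log 13 - Real.log 12 := by
    rw [log_frac 13 12 (13 / 12) (by norm_num) (by norm_num) (by norm_num)]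
    push_cast
    ring
  have e10 : Real.log (4 / 5) = Real.log 4 - Real.log 5 := by
    rw [log_frac 4 5 (4 / 5) (by norm_num) (by norm_num) (by norm_num)]
    push_cast
    ring
  push_cast at h
  unfold EndR tC tS
  rw [e0, e1, e2, e3, e4, e5, e6, e7, e8, e9, e10]
  linarith

theorem end6L9 : EndL (1 / 12) (42.52 - 16 * Real.log (13 / 12)) (3 / 5) (4 / 3) (10 / 7) (7 / 8) (5 / 9) (6 / 5) 9 := by
  have h := log_list_ge [(7, 750), (13, 800), (14, 400), (15, 450), (17, 500)]
    [(3, 550), (4, 50), (5, 310), (6, 940), (8, 100), (9, 150), (12, 800)] (by decide) (by decide) 1836 (by decide +kernel)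
  simp only [List.map_cons, List.map_nil, List.sum_cons, List.sum_nil] at h
  have e0 : Real.log (1 + (4 / 3)) = Real.log 7 - Real.log 3 := by
    rw [log_frac 7 3 (1 + (4 / 3)) (by norm_num) (by norm_num) (by norm_num)]
    push_cast
    ring
  have e1 : Real.log (4 / 3) = Real.log 4 - Real.log 3 := by
    rw [log_frac 4 3 (4 / 3) (by norm_num) (by norm_num) (by norm_num)]
    push_cast
    ring
  have e2 : Real.log (1 + (10 / 7)) = Real.log 17 - Real.log 7 := by
    rw [log_frac 17 7 (1 + (10 / 7)) (by norm_num) (by norm_num) (by norm_num)]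
    push_cast
    ring
  have e3 : Real.log (10 / 7) = Real.log 10 - Real.log 7 := by
    rw [log_frac 10 7 (10 / 7) (by norm_num) (by norm_num) (by norm_num)]
    push_cast
    ring
  have e4 : Real.log (1 + (7 / 8)) = Real.log 15 - Real.log 8 := by
    rw [log_frac 15 8 (1 + (7 / 8)) (by norm_num) (by norm_num) (by norm_num)]
    push_cast
    ring
  have e5 : Real.log (7 / 8) = Real.log 7 - Real.log 8 := by
    rw [log_frac 7 8 (7 / 8) (by norm_num) (by norm_num) (by norm_num)]
    push_cast
    ring
  have e6 : Real.log (1 + (5 / 9)) = Real.log 14 - Real.log 9 := by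
    rw [log_frac 14 9 (1 + (5 / 9)) (by norm_num) (by norm_num) (by norm_num)]
    push_cast
    ring
  have e7 : Real.log (5 / 9) = Real.log 5 - Real.log 9 := by
    rw [log_frac 5 9 (5 / 9) (by norm_num) (by norm_num) (by norm_num)]
    push_cast
    ring
  have e8 : Real.log (1 + 2 * (1 / 12)) = Real.log 7 - Real.log 6 := by
    rw [log_frac 7 6 (1 + 2 * (1 / 12)) (by norm_num) (by norm_num) (by norm_num)]
    push_cast
    ring
  have e9 : Real.log (13 / 12) = Real.log 13 - Real.log 12 := by
    rw [log_frac 13 12 (13 / 12) (by norm_num) (by norm_num) (by norm_num)]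
    push_cast
    ring
  have e10 : Real.log (6 / 5) = Real.log 6 - Real.log 5 := by
    rw [log_frac 6 5 (6 / 5) (by norm_num) (by norm_num) (by norm_num)]
    push_cast
    ring
  push_cast at h
  unfold EndL tC tS
  rw [e0, e1, e2, e3, e4, e5, e6, e7, e8, e9, e10]
  linarith

theorem end6L16 : EndL (1 / 12) (42.52 - 16 * Real.log (13 / 12)) (3 / 5) (4 / 3) (10 / 7) (7 / 8) (5 / 9) (6 / 5) 16 := by
  have h := log_list_ge [(7, 2500), (13, 800), (14, 750), (15, 800), (17, 500)]
    [(3, 200), (4, 400), (5, 310), (6, 2340), (8, 450), (9, 500), (10, 350), (12, 800)] (by decide) (by decide) 2186 (by decide +kernel)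
  simp only [List.map_cons, List.map_nil, List.sum_cons, List.sum_nil] at h
  have e0 : Real.log (1 + (4 / 3)) = Real.log 7 - Real.log 3 := by
    rw [log_frac 7 3 (1 + (4 / 3)) (by norm_num) (by norm_num) (by norm_num)]
    push_cast
    ring
  have e1 : Real.log (4 / 3) = Real.log 4 - Real.log 3 := by
    rw [log_frac 4 3 (4 / 3) (by norm_num) (by norm_num) (by norm_num)]
    push_cast
    ring
  have e2 : Real.log (1 + (10 / 7)) = Real.log 17 - Real.log 7 := by
    rw [log_frac 17 7 (1 + (10 / 7)) (by norm_num) (by norm_num) (by norm_num)]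
    push_cast
    ring
  have e3 : Real.log (10 / 7) = Real.log 10 - Real.log 7 := by
    rw [log_frac 10 7 (10 / 7) (by norm_num) (by norm_num) (by norm_num)]
    push_cast
    ring
  have e4 : Real.log (1 + (7 / 8)) = Real.log 15 - Real.log 8 := by
    rw [log_frac 15 8 (1 + (7 / 8)) (by norm_num) (by norm_num) (by norm_num)]
    push_cast
    ring
  have e5 : Real.log (7 / 8) = Real.log 7 - Real.log 8 := by
    rw [log_frac 7 8 (7 / 8) (by norm_num) (by norm_num) (by norm_num)]
    push_cast
    ring
  have e6 : Real.log (1 + (5 / 9)) = Real.log 14 - Real.log 9 := by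
    rw [log_frac 14 9 (1 + (5 / 9)) (by norm_num) (by norm_num) (by norm_num)]
    push_cast
    ring
  have e7 : Real.log (5 / 9) = Real.log 5 - Real.log 9 := by
    rw [log_frac 5 9 (5 / 9) (by norm_num) (by norm_num) (by norm_num)]
    push_cast
    ring
  have e8 : Real.log (1 + 2 * (1 / 12)) = Real.log 7 - Real.log 6 := by
    rw [log_frac 7 6 (1 + 2 * (1 / 12)) (by norm_num) (by norm_num) (by norm_num)]
    push_cast
    ring
  have e9 : Real.log (13 / 12) = Real.log 13 - Real.log 12 := by
    rw [log_frac 13 12 (13 / 12) (by norm_num) (by norm_num) (by norm_num)]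
    push_cast
    ring
  have e10 : Real.log (6 / 5) = Real.log 6 - Real.log 5 := by
    rw [log_frac 6 5 (6 / 5) (by norm_num) (by norm_num) (by norm_num)]
    push_cast
    ring
  push_cast at h
  unfold EndL tC tS
  rw [e0, e1, e2, e3, e4, e5, e6, e7, e8, e9, e10]
  linarith

theorem end6R16 : EndR (1 / 12) (42.52 - 16 * Real.log (13 / 12)) (3 / 5) (16 / 5) (17 / 4) (9 / 13) (4 / 9) (12 / 11) 16 := by
  have h := log_list_ge [(7, 2400), (13, 1100), (21, 1100), (22, 800)]
    [(4, 400), (5, 200), (6, 2400), (9, 850), (11, 60), (12, 740), (16, 400), (17, 350)] (by decide) (by decide) 2186 (by decide +kernel)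
  simp only [List.map_cons, List.map_nil, List.sum_cons, List.sum_nil] at h
  have e0 : Real.log (1 + (16 / 5)) = Real.log 21 - Real.log 5 := by
    rw [log_frac 21 5 (1 + (16 / 5)) (by norm_num) (by norm_num) (by norm_num)]
    push_cast
    ring
  have e1 : Real.log (16 / 5) = Real.log 16 - Real.log 5 := by
    rw [log_frac 16 5 (16 / 5) (by norm_num) (by norm_num) (by norm_num)]
    push_cast
    ring
  have e2 : Real.log (1 + (17 / 4)) = Real.log 21 - Real.log 4 := by
    rw [log_frac 21 4 (1 + (17 / 4)) (by norm_num) (by norm_num) (by norm_num)]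
    push_cast
    ring
  have e3 : Real.log (17 / 4) = Real.log 17 - Real.log 4 := by
    rw [log_frac 17 4 (17 / 4) (by norm_num) (by norm_num) (by norm_num)]
    push_cast
    ring
  have e4 : Real.log (1 + (9 / 13)) = Real.log 22 - Real.log 13 := by
    rw [log_frac 22 13 (1 + (9 / 13)) (by norm_num) (by norm_num) (by norm_num)]
    push_cast
    ring
  have e5 : Real.log (9 / 13) = Real.log 9 - Real.log 13 := by
    rw [log_frac 9 13 (9 / 13) (by norm_num) (by norm_num) (by norm_num)]
    push_cast
    ring
  have e6 : Real.log (1 + (4 / 9)) = Real.log 13 - Real.log 9 := by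
    rw [log_frac 13 9 (1 + (4 / 9)) (by norm_num) (by norm_num) (by norm_num)]
    push_cast
    ring
  have e7 : Real.log (4 / 9) = Real.log 4 - Real.log 9 := by
    rw [log_frac 4 9 (4 / 9) (by norm_num) (by norm_num) (by norm_num)]
    push_cast
    ring
  have e8 : Real.log (1 + 2 * (1 / 12)) = Real.log 7 - Real.log 6 := by
    rw [log_frac 7 6 (1 + 2 * (1 / 12)) (by norm_num) (by norm_num) (by norm_num)]
    push_cast
    ring
  have e9 : Real.log (13 / 12) = Real.log 13 - Real.log 12 := by
    rw [log_frac 13 12 (13 / 12) (by norm_num) (by norm_num) (by norm_num)]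
    push_cast
    ring
  have e10 : Real.log (12 / 11) = Real.log 12 - Real.log 11 := by
    rw [log_frac 12 11 (12 / 11) (by norm_num) (by norm_num) (by norm_num)]
    push_cast
    ring
  push_cast at h
  unfold EndR tC tS
  rw [e0, e1, e2, e3, e4, e5, e6, e7, e8, e9, e10]
  linarith

theorem end6R19 : EndR (1 / 12) (42.52 - 16 * Real.log (13 / 12)) (3 / 5) (16 / 5) (17 / 4) (9 / 13) (4 / 9) (12 / 11) 19 := by
  have h := log_list_ge [(7, 3000), (13, 1100), (21, 1100), (22, 950)]
    [(4, 250), (5, 50), (6, 3000), (9, 1000), (11, 60), (12, 740), (16, 550), (17, 500)] (by decide) (by decide) 2021 (by decide +kernel)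
  simp only [List.map_cons, List.map_nil, List.sum_cons, List.sum_nil] at h
  have e0 : Real.log (1 + (16 / 5)) = Real.log 21 - Real.log 5 := by
    rw [log_frac 21 5 (1 + (16 / 5)) (by norm_num) (by norm_num) (by norm_num)]
    push_cast
    ring
  have e1 : Real.log (16 / 5) = Real.log 16 - Real.log 5 := by
    rw [log_frac 16 5 (16 / 5) (by norm_num) (by norm_num) (by norm_num)]
    push_cast
    ring
  have e2 : Real.log (1 + (17 / 4)) = Real.log 21 - Real.log 4 := by
    rw [log_frac 21 4 (1 + (17 / 4)) (by norm_num) (by norm_num) (by norm_num)]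
    push_cast
    ring
  have e3 : Real.log (17 / 4) = Real.log 17 - Real.log 4 := by
    rw [log_frac 17 4 (17 / 4) (by norm_num) (by norm_num) (by norm_num)]
    push_cast
    ring
  have e4 : Real.log (1 + (9 / 13)) = Real.log 22 - Real.log 13 := by
    rw [log_frac 22 13 (1 + (9 / 13)) (by norm_num) (by norm_num) (by norm_num)]
    push_cast
    ring
  have e5 : Real.log (9 / 13) = Real.log 9 - Real.log 13 := by
    rw [log_frac 9 13 (9 / 13) (by norm_num) (by norm_num) (by norm_num)]
    push_cast
    ring
  have e6 : Real.log (1 + (4 / 9)) = Real.log 13 - Real.log 9 := by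
    rw [log_frac 13 9 (1 + (4 / 9)) (by norm_num) (by norm_num) (by norm_num)]
    push_cast
    ring
  have e7 : Real.log (4 / 9) = Real.log 4 - Real.log 9 := by
    rw [log_frac 4 9 (4 / 9) (by norm_num) (by norm_num) (by norm_num)]
    push_cast
    ring
  have e8 : Real.log (1 + 2 * (1 / 12)) = Real.log 7 - Real.log 6 := by
    rw [log_frac 7 6 (1 + 2 * (1 / 12)) (by norm_num) (by norm_num) (by norm_num)]
    push_cast
    ring
  have e9 : Real.log (13 / 12) = Real.log 13 - Real.log 12 := by
    rw [log_frac 13 12 (13 / 12) (by norm_num) (by norm_num) (by norm_num)]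
    push_cast
    ring
  have e10 : Real.log (12 / 11) = Real.log 12 - Real.log 11 := by
    rw [log_frac 12 11 (12 / 11) (by norm_num) (by norm_num) (by norm_num)]
    push_cast
    ring
  push_cast at h
  unfold EndR tC tS
  rw [e0, e1, e2, e3, e4, e5, e6, e7, e8, e9, e10]
  linarith

end Pool.Agent.Z3D
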