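import Pool.Agent.Z3D.ANum

/-!
The end-point inequalities for the seven groups of rows (`n = 20 N`, `ρ = R / 20`,
`R = 0, 2, 5, 7, 10, 13, 15`), `s = 1/12`.
-/

open Finset

namespace Pool.Agent.Z3D

open Pool.Agent.Z23 (log_list_ge)

theorem b0L9 : EndL (1 / 12) (42.942 - 16 * Real.log (13 / 12)) 0 (33 / 16) (103 / 43) (7 / 9) (1 / 2) 1 9 := by
  have h := log_list_ge [(3, 4000), (7, 6500), (13, 8000), (49, 6000), (146, 5000)]
    [(2, 1500), (6, 10000), (9, 1000), (12, 8000), (16, 1000), (33, 500), (43, 5000)] (by decide) (by decide) 21471 (by decide +kernel)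
  simp only [List.map_cons, List.map_nil, List.sum_cons, List.sum_nil] at h
  have e0 : Real.log (1 + (33 / 16)) = Real.log 49 - Real.log 16 := by
    rw [log_frac 49 16 (1 + (33 / 16)) (by norm_num) (by norm_num) (by norm_num)]
    push_cast
    ring
  have e1 : Real.log (33 / 16) = Real.log 33 - Real.log 16 := by
    rw [log_frac 33 16 (33 / 16) (by norm_num) (by norm_num) (by norm_num)]
    push_cast
    ring
  have e2 : Real.log (1 + (103 / 43)) = Real.log 146 - Real.log 43 := by
    rw [log_frac 146 43 (1 + (103 / 43)) (by norm_num) (by norm_num) (by norm_num)]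
    push_cast
    ring
  have e3 : Real.log (103 / 43) = Real.log 103 - Real.log 43 := by
    rw [log_frac 103 43 (103 / 43) (by norm_num) (by norm_num) (by norm_num)]
    push_cast
    ring
  have e4 : Real.log (1 + (7 / 9)) = Real.log 16 - Real.log 9 := by
    rw [log_frac 16 9 (1 + (7 / 9)) (by norm_num) (by norm_num) (by norm_num)]
    push_cast
    ring
  have e5 : Real.log (7 / 9) = Real.log 7 - Real.log 9 := by
    rw [log_frac 7 9 (7 / 9) (by norm_num) (by norm_num) (by norm_num)]
    push_cast
    ring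
  have e6 : Real.log (1 + (1 / 2)) = Real.log 3 - Real.log 2 := by
    rw [log_frac 3 2 (1 + (1 / 2)) (by norm_num) (by norm_num) (by norm_num)]
    push_cast
    ring
  have e7 : Real.log (1 / 2) = 0 - Real.log 2 := by
    rw [log_frac 1 2 (1 / 2) (by norm_num) (by norm_num) (by norm_num)]
    norm_num
  have e8 : Real.log (1 + 2 * (1 / 12)) = Real.log 7 - Real.log 6 := by
    rw [log_frac 7 6 (1 + 2 * (1 / 12)) (by norm_num) (by norm_num) (by norm_num)]
    push_cast
    ring
  have e9 : Real.log (13 / 12) = Real.log 13 - Real.log 12 := by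
    rw [log_frac 13 12 (13 / 12) (by norm_num) (by norm_num) (by norm_num)]
    push_cast
    ring
  have e10 : Real.log 1 = 0 := by norm_num
  push_cast at h
  unfold EndL tC tS
  rw [e0, e1, e2, e3, e4, e5, e6, e7, e8, e9, e10]
  linarith

theorem b0L16 : EndL (1 / 12) (42.942 - 16 * Real.log (13 / 12)) 0 (33 / 16) (103 / 43) (7 / 9) (1 / 2) 1 16 := by
  have h := log_list_ge [(3, 7500), (7, 20500), (13, 8000), (16, 6000), (49, 6000), (146, 5000)]
    [(2, 5000), (6, 24000), (9, 4500), (12, 8000), (33, 4000), (43, 1500), (103, 3500)] (by decide) (by decide) 21471 (by decide +kernel)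
  simp only [List.map_cons, List.map_nil, List.sum_cons, List.sum_nil] at h
  have e0 : Real.log (1 + (33 / 16)) = Real.log 49 - Real.log 16 := by
    rw [log_frac 49 16 (1 + (33 / 16)) (by norm_num) (by norm_num) (by norm_num)]
    push_cast
    ring
  have e1 : Real.log (33 / 16) = Real.log 33 - Real.log 16 := by
    rw [log_frac 33 16 (33 / 16) (by norm_num) (by norm_num) (by norm_num)]
    push_cast
    ring
  have e2 : Real.log (1 + (103 / 43)) = Real.log 146 - Real.log 43 := by
    rw [log_frac 146 43 (1 + (103 / 43)) (by norm_num) (by norm_num) (by norm_num)]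
    push_cast
    ring
  have e3 : Real.log (103 / 43) = Real.log 103 - Real.log 43 := by
    rw [log_frac 103 43 (103 / 43) (by norm_num) (by norm_num) (by norm_num)]
    push_cast
    ring
  have e4 : Real.log (1 + (7 / 9)) = Real.log 16 - Real.log 9 := by
    rw [log_frac 16 9 (1 + (7 / 9)) (by norm_num) (by norm_num) (by norm_num)]
    push_cast
    ring
  have e5 : Real.log (7 / 9) = Real.log 7 - Real.log 9 := by
    rw [log_frac 7 9 (7 / 9) (by norm_num) (by norm_num) (by norm_num)]
    push_cast
    ring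
  have e6 : Real.log (1 + (1 / 2)) = Real.log 3 - Real.log 2 := by
    rw [log_frac 3 2 (1 + (1 / 2)) (by norm_num) (by norm_num) (by norm_num)]
    push_cast
    ring
  have e7 : Real.log (1 / 2) = 0 - Real.log 2 := by
    rw [log_frac 1 2 (1 / 2) (by norm_num) (by norm_num) (by norm_num)]
    norm_num
  have e8 : Real.log (1 + 2 * (1 / 12)) = Real.log 7 - Real.log 6 := by
    rw [log_frac 7 6 (1 + 2 * (1 / 12)) (by norm_num) (by norm_num) (by norm_num)]
    push_cast
    ring
  have e9 : Real.log (13 / 12) = Real.log 13 - Real.log 12 := by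
    rw [log_frac 13 12 (13 / 12) (by norm_num) (by norm_num) (by norm_num)]
    push_cast
    ring
  have e10 : Real.log 1 = 0 := by norm_num
  push_cast at h
  unfold EndL tC tS
  rw [e0, e1, e2, e3, e4, e5, e6, e7, e8, e9, e10]
  linarith

theorem b0R16 : EndR (1 / 12) (42.942 - 16 * Real.log (13 / 12)) 0 (31 / 15) (69 / 29) (10 / 13) (1 / 2) 1 16 := by
  have h := log_list_ge [(3, 7500), (7, 24000), (13, 3500), (23, 8000), (46, 6000), (98, 5000)]
    [(2, 5000), (6, 24000), (10, 3500), (12, 8000), (15, 2000), (29, 1500), (31, 4000), (69, 3500)] (by decide) (by decide) 21471 (by decide +kernel)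
  simp only [List.map_cons, List.map_nil, List.sum_cons, List.sum_nil] at h
  have e0 : Real.log (1 + (31 / 15)) = Real.log 46 - Real.log 15 := by
    rw [log_frac 46 15 (1 + (31 / 15)) (by norm_num) (by norm_num) (by norm_num)]
    push_cast
    ring
  have e1 : Real.log (31 / 15) = Real.log 31 - Real.log 15 := by
    rw [log_frac 31 15 (31 / 15) (by norm_num) (by norm_num) (by norm_num)]
    push_cast
    ring
  have e2 : Real.log (1 + (69 / 29)) = Real.log 98 - Real.log 29 := by
    rw [log_frac 98 29 (1 + (69 / 29)) (by norm_num) (by norm_num) (by norm_num)]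
    push_cast
    ring
  have e3 : Real.log (69 / 29) = Real.log 69 - Real.log 29 := by
    rw [log_frac 69 29 (69 / 29) (by norm_num) (by norm_num) (by norm_num)]
    push_cast
    ring
  have e4 : Real.log (1 + (10 / 13)) = Real.log 23 - Real.log 13 := by
    rw [log_frac 23 13 (1 + (10 / 13)) (by norm_num) (by norm_num) (by norm_num)]
    push_cast
    ring
  have e5 : Real.log (10 / 13) = Real.log 10 - Real.log 13 := by
    rw [log_frac 10 13 (10 / 13) (by norm_num) (by norm_num) (by norm_num)]
    push_cast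
    ring
  have e6 : Real.log (1 + (1 / 2)) = Real.log 3 - Real.log 2 := by
    rw [log_frac 3 2 (1 + (1 / 2)) (by norm_num) (by norm_num) (by norm_num)]
    push_cast
    ring
  have e7 : Real.log (1 / 2) = 0 - Real.log 2 := by
    rw [log_frac 1 2 (1 / 2) (by norm_num) (by norm_num) (by norm_num)]
    norm_num
  have e8 : Real.log (1 + 2 * (1 / 12)) = Real.log 7 - Real.log 6 := by
    rw [log_frac 7 6 (1 + 2 * (1 / 12)) (by norm_num) (by norm_num) (by norm_num)]
    push_cast
    ring
  have e9 : Real.log (13 / 12) = Real.log 13 - Real.log 12 := by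
    rw [log_frac 13 12 (13 / 12) (by norm_num) (by norm_num) (by norm_num)]
    push_cast
    ring
  have e10 : Real.log 1 = 0 := by norm_num
  push_cast at h
  unfold EndR tC tS
  rw [e0, e1, e2, e3, e4, e5, e6, e7, e8, e9, e10]
  linarith

theorem b0R19 : EndR (1 / 12) (42.942 - 16 * Real.log (13 / 12)) 0 (31 / 15) (69 / 29) (10 / 13) (1 / 2) 1 19 := by
  have h := log_list_ge [(3, 9000), (7, 30000), (13, 2000), (23, 9500), (46, 6000), (98, 5000)]
    [(2, 6500), (6, 30000), (10, 3500), (12, 8000), (15, 500), (31, 5500), (69, 5000)] (by decide) (by decide) 21471 (by decide +kernel)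
  simp only [List.map_cons, List.map_nil, List.sum_cons, List.sum_nil] at h
  have e0 : Real.log (1 + (31 / 15)) = Real.log 46 - Real.log 15 := by
    rw [log_frac 46 15 (1 + (31 / 15)) (by norm_num) (by norm_num) (by norm_num)]
    push_cast
    ring
  have e1 : Real.log (31 / 15) = Real.log 31 - Real.log 15 := by
    rw [log_frac 31 15 (31 / 15) (by norm_num) (by norm_num) (by norm_num)]
    push_cast
    ring
  have e2 : Real.log (1 + (69 / 29)) = Real.log 98 - Real.log 29 := by
    rw [log_frac 98 29 (1 + (69 / 29)) (by norm_num) (by norm_num) (by norm_num)]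
    push_cast
    ring
  have e3 : Real.log (69 / 29) = Real.log 69 - Real.log 29 := by
    rw [log_frac 69 29 (69 / 29) (by norm_num) (by norm_num) (by norm_num)]
    push_cast
    ring
  have e4 : Real.log (1 + (10 / 13)) = Real.log 23 - Real.log 13 := by
    rw [log_frac 23 13 (1 + (10 / 13)) (by norm_num) (by norm_num) (by norm_num)]
    push_cast
    ring
  have e5 : Real.log (10 / 13) = Real.log 10 - Real.log 13 := by
    rw [log_frac 10 13 (10 / 13) (by norm_num) (by norm_num) (by norm_num)]
    push_cast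
    ring
  have e6 : Real.log (1 + (1 / 2)) = Real.log 3 - Real.log 2 := by
    rw [log_frac 3 2 (1 + (1 / 2)) (by norm_num) (by norm_num) (by norm_num)]
    push_cast
    ring
  have e7 : Real.log (1 / 2) = 0 - Real.log 2 := by
    rw [log_frac 1 2 (1 / 2) (by norm_num) (by norm_num) (by norm_num)]
    norm_num
  have e8 : Real.log (1 + 2 * (1 / 12)) = Real.log 7 - Real.log 6 := by
    rw [log_frac 7 6 (1 + 2 * (1 / 12)) (by norm_num) (by norm_num) (by norm_num)]
    push_cast
    ring
  have e9 : Real.log (13 / 12) = Real.log 13 - Real.log 12 := by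
    rw [log_frac 13 12 (13 / 12) (by norm_num) (by norm_num) (by norm_num)]
    push_cast
    ring
  have e10 : Real.log 1 = 0 := by norm_num
  push_cast at h
  unfold EndR tC tS
  rw [e0, e1, e2, e3, e4, e5, e6, e7, e8, e9, e10]
  linarith

theorem b2L9 : EndL (1 / 12) (42.711 - 16 * Real.log (13 / 12)) (1 / 10) (13 / 8) 2 (5 / 6) (1 / 2) (4 / 9) 9 := by
  have h := log_list_ge [(3, 360), (4, 4), (7, 400), (11, 180), (13, 300), (21, 240)]
    [(2, 60), (5, 140), (6, 440), (8, 220), (9, 4), (12, 320)] (by decide) (by decide) 795 (by decide +kernel)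
  simp only [List.map_cons, List.map_nil, List.sum_cons, List.sum_nil] at h
  have e0 : Real.log (1 + (13 / 8)) = Real.log 21 - Real.log 8 := by
    rw [log_frac 21 8 (1 + (13 / 8)) (by norm_num) (by norm_num) (by norm_num)]
    push_cast
    ring
  have e1 : Real.log (13 / 8) = Real.log 13 - Real.log 8 := by
    rw [log_frac 13 8 (13 / 8) (by norm_num) (by norm_num) (by norm_num)]
    push_cast
    ring
  have e2 : Real.log (1 + 2) = Real.log 3 := by norm_num
  have e4 : Real.log (1 + (5 / 6)) = Real.log 11 - Real.log 6 := by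
    rw [log_frac 11 6 (1 + (5 / 6)) (by norm_num) (by norm_num) (by norm_num)]
    push_cast
    ring
  have e5 : Real.log (5 / 6) = Real.log 5 - Real.log 6 := by
    rw [log_frac 5 6 (5 / 6) (by norm_num) (by norm_num) (by norm_num)]
    push_cast
    ring
  have e6 : Real.log (1 + (1 / 2)) = Real.log 3 - Real.log 2 := by
    rw [log_frac 3 2 (1 + (1 / 2)) (by norm_num) (by norm_num) (by norm_num)]
    push_cast
    ring
  have e7 : Real.log (1 / 2) = 0 - Real.log 2 := by
    rw [log_frac 1 2 (1 / 2) (by norm_num) (by norm_num) (by norm_num)]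
    norm_num
  have e8 : Real.log (1 + 2 * (1 / 12)) = Real.log 7 - Real.log 6 := by
    rw [log_frac 7 6 (1 + 2 * (1 / 12)) (by norm_num) (by norm_num) (by norm_num)]
    push_cast
    ring
  have e9 : Real.log (13 / 12) = Real.log 13 - Real.log 12 := by
    rw [log_frac 13 12 (13 / 12) (by norm_num) (by norm_num) (by norm_num)]
    push_cast
    ring
  have e10 : Real.log (4 / 9) = Real.log 4 - Real.log 9 := by
    rw [log_frac 4 9 (4 / 9) (by norm_num) (by norm_num) (by norm_num)]
    push_cast
    ring
  push_cast at h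
  unfold EndL tC tS
  rw [e0, e1, e2, e4, e5, e6, e7, e8, e9, e10]
  linarith

theorem b2L16 : EndL (1 / 12) (42.711 - 16 * Real.log (13 / 12)) (1 / 10) (13 / 8) 2 (5 / 6) (1 / 2) (4 / 9) 16 := by
  have h := log_list_ge [(3, 250), (4, 2), (7, 480), (11, 160), (13, 80), (21, 120)]
    [(2, 170), (5, 70), (6, 570), (8, 40), (9, 2), (12, 160)] (by decide) (by decide) 429 (by decide +kernel)
  simp only [List.map_cons, List.map_nil, List.sum_cons, List.sum_nil] at h
  have e0 : Real.log (1 + (13 / 8)) = Real.log 21 - Real.log 8 := by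
    rw [log_frac 21 8 (1 + (13 / 8)) (by norm_num) (by norm_num) (by norm_num)]
    push_cast
    ring
  have e1 : Real.log (13 / 8) = Real.log 13 - Real.log 8 := by
    rw [log_frac 13 8 (13 / 8) (by norm_num) (by norm_num) (by norm_num)]
    push_cast
    ring
  have e2 : Real.log (1 + 2) = Real.log 3 := by norm_num
  have e4 : Real.log (1 + (5 / 6)) = Real.log 11 - Real.log 6 := by
    rw [log_frac 11 6 (1 + (5 / 6)) (by norm_num) (by norm_num) (by norm_num)]
    push_cast
    ring
  have e5 : Real.log (5 / 6) = Real.log 5 - Real.log 6 := by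
    rw [log_frac 5 6 (5 / 6) (by norm_num) (by norm_num) (by norm_num)]
    push_cast
    ring
  have e6 : Real.log (1 + (1 / 2)) = Real.log 3 - Real.log 2 := by
    rw [log_frac 3 2 (1 + (1 / 2)) (by norm_num) (by norm_num) (by norm_num)]
    push_cast
    ring
  have e7 : Real.log (1 / 2) = 0 - Real.log 2 := by
    rw [log_frac 1 2 (1 / 2) (by norm_num) (by norm_num) (by norm_num)]
    norm_num
  have e8 : Real.log (1 + 2 * (1 / 12)) = Real.log 7 - Real.log 6 := by
    rw [log_frac 7 6 (1 + 2 * (1 / 12)) (by norm_num) (by norm_num) (by norm_num)]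
    push_cast
    ring
  have e9 : Real.log (13 / 12) = Real.log 13 - Real.log 12 := by
    rw [log_frac 13 12 (13 / 12) (by norm_num) (by norm_num) (by norm_num)]
    push_cast
    ring
  have e10 : Real.log (4 / 9) = Real.log 4 - Real.log 9 := by
    rw [log_frac 4 9 (4 / 9) (by norm_num) (by norm_num) (by norm_num)]
    push_cast
    ring
  push_cast at h
  unfold EndL tC tS
  rw [e0, e1, e2, e4, e5, e6, e7, e8, e9, e10]
  linarith

theorem b2R16 : EndR (1 / 12) (42.711 - 16 * Real.log (13 / 12)) (1 / 10) (12 / 5) 3 (8 / 11) (11 / 23) (10 / 21) 16 := by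
  have h := log_list_ge [(4, 10000), (7, 48000), (10, 200), (13, 16000), (17, 12000), (19, 16000), (34, 15000)]
    [(3, 7000), (5, 4000), (6, 48000), (8, 7000), (11, 14000), (12, 24000), (21, 200), (23, 10000)] (by decide) (by decide) 42911 (by decide +kernel)
  simp only [List.map_cons, List.map_nil, List.sum_cons, List.sum_nil] at h
  have e0 : Real.log (1 + (12 / 5)) = Real.log 17 - Real.log 5 := by
    rw [log_frac 17 5 (1 + (12 / 5)) (by norm_num) (by norm_num) (by norm_num)]
    push_cast
    ring
  have e1 : Real.log (12 / 5) = Real.log 12 - Real.log 5 := by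
    rw [log_frac 12 5 (12 / 5) (by norm_num) (by norm_num) (by norm_num)]
    push_cast
    ring
  have e2 : Real.log (1 + 3) = Real.log 4 := by norm_num
  have e4 : Real.log (1 + (8 / 11)) = Real.log 19 - Real.log 11 := by
    rw [log_frac 19 11 (1 + (8 / 11)) (by norm_num) (by norm_num) (by norm_num)]
    push_cast
    ring
  have e5 : Real.log (8 / 11) = Real.log 8 - Real.log 11 := by
    rw [log_frac 8 11 (8 / 11) (by norm_num) (by norm_num) (by norm_num)]
    push_cast
    ring
  have e6 : Real.log (1 + (11 / 23)) = Real.log 34 - Real.log 23 := by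
    rw [log_frac 34 23 (1 + (11 / 23)) (by norm_num) (by norm_num) (by norm_num)]
    push_cast
    ring
  have e7 : Real.log (11 / 23) = Real.log 11 - Real.log 23 := by
    rw [log_frac 11 23 (11 / 23) (by norm_num) (by norm_num) (by norm_num)]
    push_cast
    ring
  have e8 : Real.log (1 + 2 * (1 / 12)) = Real.log 7 - Real.log 6 := by
    rw [log_frac 7 6 (1 + 2 * (1 / 12)) (by norm_num) (by norm_num) (by norm_num)]
    push_cast
    ring
  have e9 : Real.log (13 / 12) = Real.log 13 - Real.log 12 := by
    rw [log_frac 13 12 (13 / 12) (by norm_num) (by norm_num) (by norm_num)]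
    push_cast
    ring
  have e10 : Real.log (10 / 21) = Real.log 10 - Real.log 21 := by
    rw [log_frac 10 21 (10 / 21) (by norm_num) (by norm_num) (by norm_num)]
    push_cast
    ring
  push_cast at h
  unfold EndR tC tS
  rw [e0, e1, e2, e4, e5, e6, e7, e8, e9, e10]
  linarith

theorem b2R19 : EndR (1 / 12) (42.711 - 16 * Real.log (13 / 12)) (1 / 10) (12 / 5) 3 (8 / 11) (11 / 23) (10 / 21) 19 := by
  have h := log_list_ge [(4, 10000), (7, 60000), (10, 200), (13, 16000), (17, 12000), (19, 19000), (34, 18000)]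
    [(3, 10000), (5, 1000), (6, 60000), (8, 7000), (11, 17000), (12, 27000), (21, 200), (23, 13000)] (by decide) (by decide) 41651 (by decide +kernel)
  simp only [List.map_cons, List.map_nil, List.sum_cons, List.sum_nil] at h
  have e0 : Real.log (1 + (12 / 5)) = Real.log 17 - Real.log 5 := by
    rw [log_frac 17 5 (1 + (12 / 5)) (by norm_num) (by norm_num) (by norm_num)]
    push_cast
    ring
  have e1 : Real.log (12 / 5) = Real.log 12 - Real.log 5 := by
    rw [log_frac 12 5 (12 / 5) (by norm_num) (by norm_num) (by norm_num)]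
    push_cast
    ring
  have e2 : Real.log (1 + 3) = Real.log 4 := by norm_num
  have e4 : Real.log (1 + (8 / 11)) = Real.log 19 - Real.log 11 := by
    rw [log_frac 19 11 (1 + (8 / 11)) (by norm_num) (by norm_num) (by norm_num)]
    push_cast
    ring
  have e5 : Real.log (8 / 11) = Real.log 8 - Real.log 11 := by
    rw [log_frac 8 11 (8 / 11) (by norm_num) (by norm_num) (by norm_num)]
    push_cast
    ring
  have e6 : Real.log (1 + (11 / 23)) = Real.log 34 - Real.log 23 := by
    rw [log_frac 34 23 (1 + (11 / 23)) (by norm_num) (by norm_num) (by norm_num)]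
    push_cast
    ring
  have e7 : Real.log (11 / 23) = Real.log 11 - Real.log 23 := by
    rw [log_frac 11 23 (11 / 23) (by norm_num) (by norm_num) (by norm_num)]
    push_cast
    ring
  have e8 : Real.log (1 + 2 * (1 / 12)) = Real.log 7 - Real.log 6 := by
    rw [log_frac 7 6 (1 + 2 * (1 / 12)) (by norm_num) (by norm_num) (by norm_num)]
    push_cast
    ring
  have e9 : Real.log (13 / 12) = Real.log 13 - Real.log 12 := by
    rw [log_frac 13 12 (13 / 12) (by norm_num) (by norm_num) (by norm_num)]
    push_cast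
    ring
  have e10 : Real.log (10 / 21) = Real.log 10 - Real.log 21 := by
    rw [log_frac 10 21 (10 / 21) (by norm_num) (by norm_num) (by norm_num)]
    push_cast
    ring
  push_cast at h
  unfold EndR tC tS
  rw [e0, e1, e2, e4, e5, e6, e7, e8, e9, e10]
  linarith

theorem b5L9 : EndL (1 / 12) (42.567 - 16 * Real.log (13 / 12)) (1 / 4) (3 / 2) (7 / 4) (5 / 6) (5 / 9) (5 / 7) 9 := by
  have h := log_list_ge [(5, 10), (7, 390), (11, 380), (13, 320), (14, 160)]
    [(2, 220), (3, 20), (4, 200), (6, 440), (9, 60), (12, 320)] (by decide) (by decide) 763 (by decide +kernel)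
  simp only [List.map_cons, List.map_nil, List.sum_cons, List.sum_nil] at h
  have e0 : Real.log (1 + (3 / 2)) = Real.log 5 - Real.log 2 := by
    rw [log_frac 5 2 (1 + (3 / 2)) (by norm_num) (by norm_num) (by norm_num)]
    push_cast
    ring
  have e1 : Real.log (3 / 2) = Real.log 3 - Real.log 2 := by
    rw [log_frac 3 2 (3 / 2) (by norm_num) (by norm_num) (by norm_num)]
    push_cast
    ring
  have e2 : Real.log (1 + (7 / 4)) = Real.log 11 - Real.log 4 := by
    rw [log_frac 11 4 (1 + (7 / 4)) (by norm_num) (by norm_num) (by norm_num)]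
    push_cast
    ring
  have e3 : Real.log (7 / 4) = Real.log 7 - Real.log 4 := by
    rw [log_frac 7 4 (7 / 4) (by norm_num) (by norm_num) (by norm_num)]
    push_cast
    ring
  have e4 : Real.log (1 + (5 / 6)) = Real.log 11 - Real.log 6 := by
    rw [log_frac 11 6 (1 + (5 / 6)) (by norm_num) (by norm_num) (by norm_num)]
    push_cast
    ring
  have e5 : Real.log (5 / 6) = Real.log 5 - Real.log 6 := by
    rw [log_frac 5 6 (5 / 6) (by norm_num) (by norm_num) (by norm_num)]
    push_cast
    ring
  have e6 : Real.log (1 + (5 / 9)) = Real.log 14 - Real.log 9 := by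
    rw [log_frac 14 9 (1 + (5 / 9)) (by norm_num) (by norm_num) (by norm_num)]
    push_cast
    ring
  have e7 : Real.log (5 / 9) = Real.log 5 - Real.log 9 := by
    rw [log_frac 5 9 (5 / 9) (by norm_num) (by norm_num) (by norm_num)]
    push_cast
    ring
  have e8 : Real.log (1 + 2 * (1 / 12)) = Real.log 7 - Real.log 6 := by
    rw [log_frac 7 6 (1 + 2 * (1 / 12)) (by norm_num) (by norm_num) (by norm_num)]
    push_cast
    ring
  have e9 : Real.log (13 / 12) = Real.log 13 - Real.log 12 := by
    rw [log_frac 13 12 (13 / 12) (by norm_num) (by norm_num) (by norm_num)]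
    push_cast
    ring
  have e10 : Real.log (5 / 7) = Real.log 5 - Real.log 7 := by
    rw [log_frac 5 7 (5 / 7) (by norm_num) (by norm_num) (by norm_num)]
    push_cast
    ring
  push_cast at h
  unfold EndL tC tS
  rw [e0, e1, e2, e3, e4, e5, e6, e7, e8, e9, e10]
  linarith

theorem b5L16 : EndL (1 / 12) (42.567 - 16 * Real.log (13 / 12)) (1 / 4) (3 / 2) (7 / 4) (5 / 6) (5 / 9) (5 / 7) 16 := by
  have h := log_list_ge [(5, 10), (7, 810), (11, 520), (13, 320), (14, 300)]
    [(2, 80), (3, 160), (4, 60), (6, 1140), (9, 200), (12, 320)] (by decide) (by decide) 861 (by decide +kernel)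
  simp only [List.map_cons, List.map_nil, List.sum_cons, List.sum_nil] at h
  have e0 : Real.log (1 + (3 / 2)) = Real.log 5 - Real.log 2 := by
    rw [log_frac 5 2 (1 + (3 / 2)) (by norm_num) (by norm_num) (by norm_num)]
    push_cast
    ring
  have e1 : Real.log (3 / 2) = Real.log 3 - Real.log 2 := by
    rw [log_frac 3 2 (3 / 2) (by norm_num) (by norm_num) (by norm_num)]
    push_cast
    ring
  have e2 : Real.log (1 + (7 / 4)) = Real.log 11 - Real.log 4 := by
    rw [log_frac 11 4 (1 + (7 / 4)) (by norm_num) (by norm_num) (by norm_num)]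
    push_cast
    ring
  have e3 : Real.log (7 / 4) = Real.log 7 - Real.log 4 := by
    rw [log_frac 7 4 (7 / 4) (by norm_num) (by norm_num) (by norm_num)]
    push_cast
    ring
  have e4 : Real.log (1 + (5 / 6)) = Real.log 11 - Real.log 6 := by
    rw [log_frac 11 6 (1 + (5 / 6)) (by norm_num) (by norm_num) (by norm_num)]
    push_cast
    ring
  have e5 : Real.log (5 / 6) = Real.log 5 - Real.log 6 := by
    rw [log_frac 5 6 (5 / 6) (by norm_num) (by norm_num) (by norm_num)]
    push_cast
    ring
  have e6 : Real.log (1 + (5 / 9)) = Real.log 14 - Real.log 9 := by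
    rw [log_frac 14 9 (1 + (5 / 9)) (by norm_num) (by norm_num) (by norm_num)]
    push_cast
    ring
  have e7 : Real.log (5 / 9) = Real.log 5 - Real.log 9 := by
    rw [log_frac 5 9 (5 / 9) (by norm_num) (by norm_num) (by norm_num)]
    push_cast
    ring
  have e8 : Real.log (1 + 2 * (1 / 12)) = Real.log 7 - Real.log 6 := by
    rw [log_frac 7 6 (1 + 2 * (1 / 12)) (by norm_num) (by norm_num) (by norm_num)]
    push_cast
    ring
  have e9 : Real.log (13 / 12) = Real.log 13 - Real.log 12 := by
    rw [log_frac 13 12 (13 / 12) (by norm_num) (by norm_num) (by norm_num)]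
    push_cast
    ring
  have e10 : Real.log (5 / 7) = Real.log 5 - Real.log 7 := by
    rw [log_frac 5 7 (5 / 7) (by norm_num) (by norm_num) (by norm_num)]
    push_cast
    ring
  push_cast at h
  unfold EndL tC tS
  rw [e0, e1, e2, e3, e4, e5, e6, e7, e8, e9, e10]
  linarith

theorem b5R16 : EndR (1 / 12) (42.567 - 16 * Real.log (13 / 12)) (1 / 4) (19 / 7) (27 / 8) (5 / 7) (6 / 13) (25 / 34) 16 := by
  have h := log_list_ge [(7, 35000), (13, 6000), (19, 7000), (25, 500), (26, 12000), (35, 10000)]
    [(5, 7000), (6, 53000), (8, 3000), (27, 7000), (34, 500)] (by decide) (by decide) 43067 (by decide +kernel)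
  simp only [List.map_cons, List.map_nil, List.sum_cons, List.sum_nil] at h
  have e0 : Real.log (1 + (19 / 7)) = Real.log 26 - Real.log 7 := by
    rw [log_frac 26 7 (1 + (19 / 7)) (by norm_num) (by norm_num) (by norm_num)]
    push_cast
    ring
  have e1 : Real.log (19 / 7) = Real.log 19 - Real.log 7 := by
    rw [log_frac 19 7 (19 / 7) (by norm_num) (by norm_num) (by norm_num)]
    push_cast
    ring
  have e2 : Real.log (1 + (27 / 8)) = Real.log 35 - Real.log 8 := by
    rw [log_frac 35 8 (1 + (27 / 8)) (by norm_num) (by norm_num) (by norm_num)]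
    push_cast
    ring
  have e3 : Real.log (27 / 8) = Real.log 27 - Real.log 8 := by
    rw [log_frac 27 8 (27 / 8) (by norm_num) (by norm_num) (by norm_num)]
    push_cast
    ring
  have e4 : Real.log (1 + (5 / 7)) = Real.log 12 - Real.log 7 := by
    rw [log_frac 12 7 (1 + (5 / 7)) (by norm_num) (by norm_num) (by norm_num)]
    push_cast
    ring
  have e5 : Real.log (5 / 7) = Real.log 5 - Real.log 7 := by
    rw [log_frac 5 7 (5 / 7) (by norm_num) (by norm_num) (by norm_num)]
    push_cast
    ring
  have e6 : Real.log (1 + (6 / 13)) = Real.log 19 - Real.log 13 := by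
    rw [log_frac 19 13 (1 + (6 / 13)) (by norm_num) (by norm_num) (by norm_num)]
    push_cast
    ring
  have e7 : Real.log (6 / 13) = Real.log 6 - Real.log 13 := by
    rw [log_frac 6 13 (6 / 13) (by norm_num) (by norm_num) (by norm_num)]
    push_cast
    ring
  have e8 : Real.log (1 + 2 * (1 / 12)) = Real.log 7 - Real.log 6 := by
    rw [log_frac 7 6 (1 + 2 * (1 / 12)) (by norm_num) (by norm_num) (by norm_num)]
    push_cast
    ring
  have e9 : Real.log (13 / 12) = Real.log 13 - Real.log 12 := by
    rw [log_frac 13 12 (13 / 12) (by norm_num) (by norm_num) (by norm_num)]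
    push_cast
    ring
  have e10 : Real.log (25 / 34) = Real.log 25 - Real.log 34 := by
    rw [log_frac 25 34 (25 / 34) (by norm_num) (by norm_num) (by norm_num)]
    push_cast
    ring
  push_cast at h
  unfold EndR tC tS
  rw [e0, e1, e2, e3, e4, e5, e6, e7, e8, e9, e10]
  linarith

theorem b5R19 : EndR (1 / 12) (42.567 - 16 * Real.log (13 / 12)) (1 / 4) (19 / 7) (27 / 8) (5 / 7) (6 / 13) (25 / 34) 19 := by
  have h := log_list_ge [(7, 47000), (12, 3000), (13, 3000), (19, 7000), (25, 500), (26, 12000), (35, 10000)]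
    [(5, 7000), (6, 65000), (27, 10000), (34, 500)] (by decide) (by decide) 41027 (by decide +kernel)
  simp only [List.map_cons, List.map_nil, List.sum_cons, List.sum_nil] at h
  have e0 : Real.log (1 + (19 / 7)) = Real.log 26 - Real.log 7 := by
    rw [log_frac 26 7 (1 + (19 / 7)) (by norm_num) (by norm_num) (by norm_num)]
    push_cast
    ring
  have e1 : Real.log (19 / 7) = Real.log 19 - Real.log 7 := by
    rw [log_frac 19 7 (19 / 7) (by norm_num) (by norm_num) (by norm_num)]
    push_cast
    ring
  have e2 : Real.log (1 + (27 / 8)) = Real.log 35 - Real.log 8 := by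
    rw [log_frac 35 8 (1 + (27 / 8)) (by norm_num) (by norm_num) (by norm_num)]
    push_cast
    ring
  have e3 : Real.log (27 / 8) = Real.log 27 - Real.log 8 := by
    rw [log_frac 27 8 (27 / 8) (by norm_num) (by norm_num) (by norm_num)]
    push_cast
    ring
  have e4 : Real.log (1 + (5 / 7)) = Real.log 12 - Real.log 7 := by
    rw [log_frac 12 7 (1 + (5 / 7)) (by norm_num) (by norm_num) (by norm_num)]
    push_cast
    ring
  have e5 : Real.log (5 / 7) = Real.log 5 - Real.log 7 := by
    rw [log_frac 5 7 (5 / 7) (by norm_num) (by norm_num) (by norm_num)]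
    push_cast
    ring
  have e6 : Real.log (1 + (6 / 13)) = Real.log 19 - Real.log 13 := by
    rw [log_frac 19 13 (1 + (6 / 13)) (by norm_num) (by norm_num) (by norm_num)]
    push_cast
    ring
  have e7 : Real.log (6 / 13) = Real.log 6 - Real.log 13 := by
    rw [log_frac 6 13 (6 / 13) (by norm_num) (by norm_num) (by norm_num)]
    push_cast
    ring
  have e8 : Real.log (1 + 2 * (1 / 12)) = Real.log 7 - Real.log 6 := by
    rw [log_frac 7 6 (1 + 2 * (1 / 12)) (by norm_num) (by norm_num) (by norm_num)]
    push_cast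
    ring
  have e9 : Real.log (13 / 12) = Real.log 13 - Real.log 12 := by
    rw [log_frac 13 12 (13 / 12) (by norm_num) (by norm_num) (by norm_num)]
    push_cast
    ring
  have e10 : Real.log (25 / 34) = Real.log 25 - Real.log 34 := by
    rw [log_frac 25 34 (25 / 34) (by norm_num) (by norm_num) (by norm_num)]
    push_cast
    ring
  push_cast at h
  unfold EndR tC tS
  rw [e0, e1, e2, e3, e4, e5, e6, e7, e8, e9, e10]
  linarith

theorem b7L9 : EndL (1 / 12) (42.523 - 16 * Real.log (13 / 12)) (7 / 20) (3 / 2) (8 / 5) (5 / 6) (4 / 7) (7 / 8) 9 := by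
  have h := log_list_ge [(7, 177), (11, 170), (13, 260)]
    [(2, 110), (3, 10), (4, 50), (5, 50), (6, 220), (8, 7), (12, 160)] (by decide) (by decide) 376 (by decide +kernel)
  simp only [List.map_cons, List.map_nil, List.sum_cons, List.sum_nil] at h
  have e0 : Real.log (1 + (3 / 2)) = Real.log 5 - Real.log 2 := by
    rw [log_frac 5 2 (1 + (3 / 2)) (by norm_num) (by norm_num) (by norm_num)]
    push_cast
    ring
  have e1 : Real.log (3 / 2) = Real.log 3 - Real.log 2 := by
    rw [log_frac 3 2 (3 / 2) (by norm_num) (by norm_num) (by norm_num)]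
    push_cast
    ring
  have e2 : Real.log (1 + (8 / 5)) = Real.log 13 - Real.log 5 := by
    rw [log_frac 13 5 (1 + (8 / 5)) (by norm_num) (by norm_num) (by norm_num)]
    push_cast
    ring
  have e3 : Real.log (8 / 5) = Real.log 8 - Real.log 5 := by
    rw [log_frac 8 5 (8 / 5) (by norm_num) (by norm_num) (by norm_num)]
    push_cast
    ring
  have e4 : Real.log (1 + (5 / 6)) = Real.log 11 - Real.log 6 := by
    rw [log_frac 11 6 (1 + (5 / 6)) (by norm_num) (by norm_num) (by norm_num)]
    push_cast
    ring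
  have e5 : Real.log (5 / 6) = Real.log 5 - Real.log 6 := by
    rw [log_frac 5 6 (5 / 6) (by norm_num) (by norm_num) (by norm_num)]
    push_cast
    ring
  have e6 : Real.log (1 + (4 / 7)) = Real.log 11 - Real.log 7 := by
    rw [log_frac 11 7 (1 + (4 / 7)) (by norm_num) (by norm_num) (by norm_num)]
    push_cast
    ring
  have e7 : Real.log (4 / 7) = Real.log 4 - Real.log 7 := by
    rw [log_frac 4 7 (4 / 7) (by norm_num) (by norm_num) (by norm_num)]
    push_cast
    ring
  have e8 : Real.log (1 + 2 * (1 / 12)) = Real.log 7 - Real.log 6 := by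
    rw [log_frac 7 6 (1 + 2 * (1 / 12)) (by norm_num) (by norm_num) (by norm_num)]
    push_cast
    ring
  have e9 : Real.log (13 / 12) = Real.log 13 - Real.log 12 := by
    rw [log_frac 13 12 (13 / 12) (by norm_num) (by norm_num) (by norm_num)]
    push_cast
    ring
  have e10 : Real.log (7 / 8) = Real.log 7 - Real.log 8 := by
    rw [log_frac 7 8 (7 / 8) (by norm_num) (by norm_num) (by norm_num)]
    push_cast
    ring
  push_cast at h
  unfold EndL tC tS
  rw [e0, e1, e2, e3, e4, e5, e6, e7, e8, e9, e10]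
  linarith

theorem b7L16 : EndL (1 / 12) (42.523 - 16 * Real.log (13 / 12)) (7 / 20) (3 / 2) (8 / 5) (5 / 6) (4 / 7) (7 / 8) 16 := by
  have h := log_list_ge [(5, 20), (7, 387), (11, 310), (13, 260)]
    [(2, 40), (3, 80), (4, 50), (6, 570), (8, 77), (12, 160)] (by decide) (by decide) 432 (by decide +kernel)
  simp only [List.map_cons, List.map_nil, List.sum_cons, List.sum_nil] at h
  have e0 : Real.log (1 + (3 / 2)) = Real.log 5 - Real.log 2 := by
    rw [log_frac 5 2 (1 + (3 / 2)) (by norm_num) (by norm_num) (by norm_num)]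
    push_cast
    ring
  have e1 : Real.log (3 / 2) = Real.log 3 - Real.log 2 := by
    rw [log_frac 3 2 (3 / 2) (by norm_num) (by norm_num) (by norm_num)]
    push_cast
    ring
  have e2 : Real.log (1 + (8 / 5)) = Real.log 13 - Real.log 5 := by
    rw [log_frac 13 5 (1 + (8 / 5)) (by norm_num) (by norm_num) (by norm_num)]
    push_cast
    ring
  have e3 : Real.log (8 / 5) = Real.log 8 - Real.log 5 := by
    rw [log_frac 8 5 (8 / 5) (by norm_num) (by norm_num) (by norm_num)]
    push_cast
    ring
  have e4 : Real.log (1 + (5 / 6)) = Real.log 11 - Real.log 6 := by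
    rw [log_frac 11 6 (1 + (5 / 6)) (by norm_num) (by norm_num) (by norm_num)]
    push_cast
    ring
  have e5 : Real.log (5 / 6) = Real.log 5 - Real.log 6 := by
    rw [log_frac 5 6 (5 / 6) (by norm_num) (by norm_num) (by norm_num)]
    push_cast
    ring
  have e6 : Real.log (1 + (4 / 7)) = Real.log 11 - Real.log 7 := by
    rw [log_frac 11 7 (1 + (4 / 7)) (by norm_num) (by norm_num) (by norm_num)]
    push_cast
    ring
  have e7 : Real.log (4 / 7) = Real.log 4 - Real.log 7 := by
    rw [log_frac 4 7 (4 / 7) (by norm_num) (by norm_num) (by norm_num)]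
    push_cast
    ring
  have e8 : Real.log (1 + 2 * (1 / 12)) = Real.log 7 - Real.log 6 := by
    rw [log_frac 7 6 (1 + 2 * (1 / 12)) (by norm_num) (by norm_num) (by norm_num)]
    push_cast
    ring
  have e9 : Real.log (13 / 12) = Real.log 13 - Real.log 12 := by
    rw [log_frac 13 12 (13 / 12) (by norm_num) (by norm_num) (by norm_num)]
    push_cast
    ring
  have e10 : Real.log (7 / 8) = Real.log 7 - Real.log 8 := by
    rw [log_frac 7 8 (7 / 8) (by norm_num) (by norm_num) (by norm_num)]
    push_cast
    ring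
  push_cast at h
  unfold EndL tC tS
  rw [e0, e1, e2, e3, e4, e5, e6, e7, e8, e9, e10]
  linarith

theorem b7R16 : EndR (1 / 12) (42.523 - 16 * Real.log (13 / 12)) (7 / 20) (31 / 11) (11 / 3) (5 / 7) (6 / 13) (7 / 8) 16 := by
  have h := log_list_ge [(7, 39700), (13, 6000), (14, 10000), (19, 15000), (42, 12000)]
    [(3, 3000), (5, 7000), (6, 53000), (8, 700), (11, 11000), (31, 8000)] (by decide) (by decide) 43223 (by decide +kernel)
  simp only [List.map_cons, List.map_nil, List.sum_cons, List.sum_nil] at h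
  have e0 : Real.log (1 + (31 / 11)) = Real.log 42 - Real.log 11 := by
    rw [log_frac 42 11 (1 + (31 / 11)) (by norm_num) (by norm_num) (by norm_num)]
    push_cast
    ring
  have e1 : Real.log (31 / 11) = Real.log 31 - Real.log 11 := by
    rw [log_frac 31 11 (31 / 11) (by norm_num) (by norm_num) (by norm_num)]
    push_cast
    ring
  have e2 : Real.log (1 + (11 / 3)) = Real.log 14 - Real.log 3 := by
    rw [log_frac 14 3 (1 + (11 / 3)) (by norm_num) (by norm_num) (by norm_num)]
    push_cast
    ring
  have e3 : Real.log (11 / 3) = Real.log 11 - Real.log 3 := by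
    rw [log_frac 11 3 (11 / 3) (by norm_num) (by norm_num) (by norm_num)]
    push_cast
    ring
  have e4 : Real.log (1 + (5 / 7)) = Real.log 12 - Real.log 7 := by
    rw [log_frac 12 7 (1 + (5 / 7)) (by norm_num) (by norm_num) (by norm_num)]
    push_cast
    ring
  have e5 : Real.log (5 / 7) = Real.log 5 - Real.log 7 := by
    rw [log_frac 5 7 (5 / 7) (by norm_num) (by norm_num) (by norm_num)]
    push_cast
    ring
  have e6 : Real.log (1 + (6 / 13)) = Real.log 19 - Real.log 13 := by
    rw [log_frac 19 13 (1 + (6 / 13)) (by norm_num) (by norm_num) (by norm_num)]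
    push_cast
    ring
  have e7 : Real.log (6 / 13) = Real.log 6 - Real.log 13 := by
    rw [log_frac 6 13 (6 / 13) (by norm_num) (by norm_num) (by norm_num)]
    push_cast
    ring
  have e8 : Real.log (1 + 2 * (1 / 12)) = Real.log 7 - Real.log 6 := by
    rw [log_frac 7 6 (1 + 2 * (1 / 12)) (by norm_num) (by norm_num) (by norm_num)]
    push_cast
    ring
  have e9 : Real.log (13 / 12) = Real.log 13 - Real.log 12 := by
    rw [log_frac 13 12 (13 / 12) (by norm_num) (by norm_num) (by norm_num)]
    push_cast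
    ring
  have e10 : Real.log (7 / 8) = Real.log 7 - Real.log 8 := by
    rw [log_frac 7 8 (7 / 8) (by norm_num) (by norm_num) (by norm_num)]
    push_cast
    ring
  push_cast at h
  unfold EndR tC tS
  rw [e0, e1, e2, e3, e4, e5, e6, e7, e8, e9, e10]
  linarith

theorem b7R19 : EndR (1 / 12) (42.523 - 16 * Real.log (13 / 12)) (7 / 20) (31 / 11) (11 / 3) (5 / 7) (6 / 13) (7 / 8) 19 := by
  have h := log_list_ge [(7, 24350), (12, 1500), (13, 1500), (14, 5000), (19, 9000), (42, 6000)]
    [(5, 3500), (6, 32500), (8, 350), (11, 5500), (31, 5500)] (by decide) (by decide) 20411 (by decide +kernel)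
  simp only [List.map_cons, List.map_nil, List.sum_cons, List.sum_nil] at h
  have e0 : Real.log (1 + (31 / 11)) = Real.log 42 - Real.log 11 := by
    rw [log_frac 42 11 (1 + (31 / 11)) (by norm_num) (by norm_num) (by norm_num)]
    push_cast
    ring
  have e1 : Real.log (31 / 11) = Real.log 31 - Real.log 11 := by
    rw [log_frac 31 11 (31 / 11) (by norm_num) (by norm_num) (by norm_num)]
    push_cast
    ring
  have e2 : Real.log (1 + (11 / 3)) = Real.log 14 - Real.log 3 := by
    rw [log_frac 14 3 (1 + (11 / 3)) (by norm_num) (by norm_num) (by norm_num)]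
    push_cast
    ring
  have e3 : Real.log (11 / 3) = Real.log 11 - Real.log 3 := by
    rw [log_frac 11 3 (11 / 3) (by norm_num) (by norm_num) (by norm_num)]
    push_cast
    ring
  have e4 : Real.log (1 + (5 / 7)) = Real.log 12 - Real.log 7 := by
    rw [log_frac 12 7 (1 + (5 / 7)) (by norm_num) (by norm_num) (by norm_num)]
    push_cast
    ring
  have e5 : Real.log (5 / 7) = Real.log 5 - Real.log 7 := by
    rw [log_frac 5 7 (5 / 7) (by norm_num) (by norm_num) (by norm_num)]
    push_cast
    ring
  have e6 : Real.log (1 + (6 / 13)) = Real.log 19 - Real.log 13 := by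
    rw [log_frac 19 13 (1 + (6 / 13)) (by norm_num) (by norm_num) (by norm_num)]
    push_cast
    ring
  have e7 : Real.log (6 / 13) = Real.log 6 - Real.log 13 := by
    rw [log_frac 6 13 (6 / 13) (by norm_num) (by norm_num) (by norm_num)]
    push_cast
    ring
  have e8 : Real.log (1 + 2 * (1 / 12)) = Real.log 7 - Real.log 6 := by
    rw [log_frac 7 6 (1 + 2 * (1 / 12)) (by norm_num) (by norm_num) (by norm_num)]
    push_cast
    ring
  have e9 : Real.log (13 / 12) = Real.log 13 - Real.log 12 := by
    rw [log_frac 13 12 (13 / 12) (by norm_num) (by norm_num) (by norm_num)]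
    push_cast
    ring
  have e10 : Real.log (7 / 8) = Real.log 7 - Real.log 8 := by
    rw [log_frac 7 8 (7 / 8) (by norm_num) (by norm_num) (by norm_num)]
    push_cast
    ring
  push_cast at h
  unfold EndR tC tS
  rw [e0, e1, e2, e3, e4, e5, e6, e7, e8, e9, e10]
  linarith

theorem b10L9 : EndL (1 / 12) (42.505 - 16 * Real.log (13 / 12)) (1 / 2) (7 / 5) (3 / 2) (6 / 7) (4 / 7) (20 / 19) 9 := by
  have h := log_list_ge [(7, 280), (11, 160), (13, 500), (20, 20)]
    [(2, 200), (4, 100), (5, 20), (6, 540), (12, 80), (19, 20)] (by decide) (by decide) 737 (by decide +kernel)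
  simp only [List.map_cons, List.map_nil, List.sum_cons, List.sum_nil] at h
  have e0 : Real.log (1 + (7 / 5)) = Real.log 12 - Real.log 5 := by
    rw [log_frac 12 5 (1 + (7 / 5)) (by norm_num) (by norm_num) (by norm_num)]
    push_cast
    ring
  have e1 : Real.log (7 / 5) = Real.log 7 - Real.log 5 := by
    rw [log_frac 7 5 (7 / 5) (by norm_num) (by norm_num) (by norm_num)]
    push_cast
    ring
  have e2 : Real.log (1 + (3 / 2)) = Real.log 5 - Real.log 2 := by
    rw [log_frac 5 2 (1 + (3 / 2)) (by norm_num) (by norm_num) (by norm_num)]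
    push_cast
    ring
  have e3 : Real.log (3 / 2) = Real.log 3 - Real.log 2 := by
    rw [log_frac 3 2 (3 / 2) (by norm_num) (by norm_num) (by norm_num)]
    push_cast
    ring
  have e4 : Real.log (1 + (6 / 7)) = Real.log 13 - Real.log 7 := by
    rw [log_frac 13 7 (1 + (6 / 7)) (by norm_num) (by norm_num) (by norm_num)]
    push_cast
    ring
  have e5 : Real.log (6 / 7) = Real.log 6 - Real.log 7 := by
    rw [log_frac 6 7 (6 / 7) (by norm_num) (by norm_num) (by norm_num)]
    push_cast
    ring
  have e6 : Real.log (1 + (4 / 7)) = Real.log 11 - Real.log 7 := by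
    rw [log_frac 11 7 (1 + (4 / 7)) (by norm_num) (by norm_num) (by norm_num)]
    push_cast
    ring
  have e7 : Real.log (4 / 7) = Real.log 4 - Real.log 7 := by
    rw [log_frac 4 7 (4 / 7) (by norm_num) (by norm_num) (by norm_num)]
    push_cast
    ring
  have e8 : Real.log (1 + 2 * (1 / 12)) = Real.log 7 - Real.log 6 := by
    rw [log_frac 7 6 (1 + 2 * (1 / 12)) (by norm_num) (by norm_num) (by norm_num)]
    push_cast
    ring
  have e9 : Real.log (13 / 12) = Real.log 13 - Real.log 12 := by
    rw [log_frac 13 12 (13 / 12) (by norm_num) (by norm_num) (by norm_num)]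
    push_cast
    ring
  have e10 : Real.log (20 / 19) = Real.log 20 - Real.log 19 := by
    rw [log_frac 20 19 (20 / 19) (by norm_num) (by norm_num) (by norm_num)]
    push_cast
    ring
  push_cast at h
  unfold EndL tC tS
  rw [e0, e1, e2, e3, e4, e5, e6, e7, e8, e9, e10]
  linarith

theorem b10L16 : EndL (1 / 12) (42.505 - 16 * Real.log (13 / 12)) (1 / 2) (7 / 5) (3 / 2) (6 / 7) (4 / 7) (20 / 19) 16 := by
  have h := log_list_ge [(5, 60), (7, 210), (11, 150), (13, 320), (20, 10)]
    [(2, 30), (3, 70), (4, 50), (6, 550), (12, 40), (19, 10)] (by decide) (by decide) 435 (by decide +kernel)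
  simp only [List.map_cons, List.map_nil, List.sum_cons, List.sum_nil] at h
  have e0 : Real.log (1 + (7 / 5)) = Real.log 12 - Real.log 5 := by
    rw [log_frac 12 5 (1 + (7 / 5)) (by norm_num) (by norm_num) (by norm_num)]
    push_cast
    ring
  have e1 : Real.log (7 / 5) = Real.log 7 - Real.log 5 := by
    rw [log_frac 7 5 (7 / 5) (by norm_num) (by norm_num) (by norm_num)]
    push_cast
    ring
  have e2 : Real.log (1 + (3 / 2)) = Real.log 5 - Real.log 2 := by
    rw [log_frac 5 2 (1 + (3 / 2)) (by norm_num) (by norm_num) (by norm_num)]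
    push_cast
    ring
  have e3 : Real.log (3 / 2) = Real.log 3 - Real.log 2 := by
    rw [log_frac 3 2 (3 / 2) (by norm_num) (by norm_num) (by norm_num)]
    push_cast
    ring
  have e4 : Real.log (1 + (6 / 7)) = Real.log 13 - Real.log 7 := by
    rw [log_frac 13 7 (1 + (6 / 7)) (by norm_num) (by norm_num) (by norm_num)]
    push_cast
    ring
  have e5 : Real.log (6 / 7) = Real.log 6 - Real.log 7 := by
    rw [log_frac 6 7 (6 / 7) (by norm_num) (by norm_num) (by norm_num)]
    push_cast
    ring
  have e6 : Real.log (1 + (4 / 7)) = Real.log 11 - Real.log 7 := by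
    rw [log_frac 11 7 (1 + (4 / 7)) (by norm_num) (by norm_num) (by norm_num)]
    push_cast
    ring
  have e7 : Real.log (4 / 7) = Real.log 4 - Real.log 7 := by
    rw [log_frac 4 7 (4 / 7) (by norm_num) (by norm_num) (by norm_num)]
    push_cast
    ring
  have e8 : Real.log (1 + 2 * (1 / 12)) = Real.log 7 - Real.log 6 := by
    rw [log_frac 7 6 (1 + 2 * (1 / 12)) (by norm_num) (by norm_num) (by norm_num)]
    push_cast
    ring
  have e9 : Real.log (13 / 12) = Real.log 13 - Real.log 12 := by
    rw [log_frac 13 12 (13 / 12) (by norm_num) (by norm_num) (by norm_num)]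
    push_cast
    ring
  have e10 : Real.log (20 / 19) = Real.log 20 - Real.log 19 := by
    rw [log_frac 20 19 (20 / 19) (by norm_num) (by norm_num) (by norm_num)]
    push_cast
    ring
  push_cast at h
  unfold EndL tC tS
  rw [e0, e1, e2, e3, e4, e5, e6, e7, e8, e9, e10]
  linarith

theorem b10R16 : EndR (1 / 12) (42.505 - 16 * Real.log (13 / 12)) (1 / 2) 3 (83 / 20) (7 / 10) (5 / 11) 1 16 := by
  have h := log_list_ge [(4, 2400), (7, 8200), (13, 3200), (16, 3000), (17, 3200), (103, 2000)]
    [(3, 1600), (5, 1000), (6, 9600), (10, 1800), (11, 2000), (12, 3200), (20, 600), (83, 1400)] (by decide) (by decide) 8701 (by decide +kernel)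
  simp only [List.map_cons, List.map_nil, List.sum_cons, List.sum_nil] at h
  have e0 : Real.log (1 + 3) = Real.log 4 := by norm_num
  have e2 : Real.log (1 + (83 / 20)) = Real.log 103 - Real.log 20 := by
    rw [log_frac 103 20 (1 + (83 / 20)) (by norm_num) (by norm_num) (by norm_num)]
    push_cast
    ring
  have e3 : Real.log (83 / 20) = Real.log 83 - Real.log 20 := by
    rw [log_frac 83 20 (83 / 20) (by norm_num) (by norm_num) (by norm_num)]
    push_cast
    ring
  have e4 : Real.log (1 + (7 / 10)) = Real.log 17 - Real.log 10 := by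
    rw [log_frac 17 10 (1 + (7 / 10)) (by norm_num) (by norm_num) (by norm_num)]
    push_cast
    ring
  have e5 : Real.log (7 / 10) = Real.log 7 - Real.log 10 := by
    rw [log_frac 7 10 (7 / 10) (by norm_num) (by norm_num) (by norm_num)]
    push_cast
    ring
  have e6 : Real.log (1 + (5 / 11)) = Real.log 16 - Real.log 11 := by
    rw [log_frac 16 11 (1 + (5 / 11)) (by norm_num) (by norm_num) (by norm_num)]
    push_cast
    ring
  have e7 : Real.log (5 / 11) = Real.log 5 - Real.log 11 := by
    rw [log_frac 5 11 (5 / 11) (by norm_num) (by norm_num) (by norm_num)]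
    push_cast
    ring
  have e8 : Real.log (1 + 2 * (1 / 12)) = Real.log 7 - Real.log 6 := by
    rw [log_frac 7 6 (1 + 2 * (1 / 12)) (by norm_num) (by norm_num) (by norm_num)]
    push_cast
    ring
  have e9 : Real.log (13 / 12) = Real.log 13 - Real.log 12 := by
    rw [log_frac 13 12 (13 / 12) (by norm_num) (by norm_num) (by norm_num)]
    push_cast
    ring
  have e10 : Real.log 1 = 0 := by norm_num
  push_cast at h
  unfold EndR tC tS
  rw [e0, e2, e3, e4, e5, e6, e7, e8, e9, e10]
  linarith

theorem b10R19 : EndR (1 / 12) (42.505 - 16 * Real.log (13 / 12)) (1 / 2) 3 (83 / 20) (7 / 10) (5 / 11) 1 19 := by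
  have h := log_list_ge [(4, 2400), (7, 10600), (13, 3200), (16, 3600), (17, 3800), (103, 2000)]
    [(3, 2200), (5, 1000), (6, 12000), (10, 2400), (11, 2600), (12, 3200), (83, 2000)] (by decide) (by decide) 8101 (by decide +kernel)
  simp only [List.map_cons, List.map_nil, List.sum_cons, List.sum_nil] at h
  have e0 : Real.log (1 + 3) = Real.log 4 := by norm_num
  have e2 : Real.log (1 + (83 / 20)) = Real.log 103 - Real.log 20 := by
    rw [log_frac 103 20 (1 + (83 / 20)) (by norm_num) (by norm_num) (by norm_num)]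
    push_cast
    ring
  have e3 : Real.log (83 / 20) = Real.log 83 - Real.log 20 := by
    rw [log_frac 83 20 (83 / 20) (by norm_num) (by norm_num) (by norm_num)]
    push_cast
    ring
  have e4 : Real.log (1 + (7 / 10)) = Real.log 17 - Real.log 10 := by
    rw [log_frac 17 10 (1 + (7 / 10)) (by norm_num) (by norm_num) (by norm_num)]
    push_cast
    ring
  have e5 : Real.log (7 / 10) = Real.log 7 - Real.log 10 := by
    rw [log_frac 7 10 (7 / 10) (by norm_num) (by norm_num) (by norm_num)]
    push_cast
    ring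
  have e6 : Real.log (1 + (5 / 11)) = Real.log 16 - Real.log 11 := by
    rw [log_frac 16 11 (1 + (5 / 11)) (by norm_num) (by norm_num) (by norm_num)]
    push_cast
    ring
  have e7 : Real.log (5 / 11) = Real.log 5 - Real.log 11 := by
    rw [log_frac 5 11 (5 / 11) (by norm_num) (by norm_num) (by norm_num)]
    push_cast
    ring
  have e8 : Real.log (1 + 2 * (1 / 12)) = Real.log 7 - Real.log 6 := by
    rw [log_frac 7 6 (1 + 2 * (1 / 12)) (by norm_num) (by norm_num) (by norm_num)]
    push_cast
    ring
  have e9 : Real.log (13 / 12) = Real.log 13 - Real.log 12 := by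
    rw [log_frac 13 12 (13 / 12) (by norm_num) (by norm_num) (by norm_num)]
    push_cast
    ring
  have e10 : Real.log 1 = 0 := by norm_num
  push_cast at h
  unfold EndR tC tS
  rw [e0, e2, e3, e4, e5, e6, e7, e8, e9, e10]
  linarith

theorem b13L9 : EndL (1 / 12) (42.529 - 16 * Real.log (13 / 12)) (13 / 20) (4 / 3) (4 / 3) (6 / 7) (4 / 7) (13 / 11) 9 := by
  have h := log_list_ge [(7, 370), (11, 67), (13, 263)]
    [(3, 210), (4, 60), (6, 270), (12, 160)] (by decide) (by decide) 361 (by decide +kernel)
  simp only [List.map_cons, List.map_nil, List.sum_cons, List.sum_nil] at h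
  have e0 : Real.log (1 + (4 / 3)) = Real.log 7 - Real.log 3 := by
    rw [log_frac 7 3 (1 + (4 / 3)) (by norm_num) (by norm_num) (by norm_num)]
    push_cast
    ring
  have e1 : Real.log (4 / 3) = Real.log 4 - Real.log 3 := by
    rw [log_frac 4 3 (4 / 3) (by norm_num) (by norm_num) (by norm_num)]
    push_cast
    ring
  have e4 : Real.log (1 + (6 / 7)) = Real.log 13 - Real.log 7 := by
    rw [log_frac 13 7 (1 + (6 / 7)) (by norm_num) (by norm_num) (by norm_num)]
    push_cast
    ring
  have e5 : Real.log (6 / 7) = Real.log 6 - Real.log 7 := by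
    rw [log_frac 6 7 (6 / 7) (by norm_num) (by norm_num) (by norm_num)]
    push_cast
    ring
  have e6 : Real.log (1 + (4 / 7)) = Real.log 11 - Real.log 7 := by
    rw [log_frac 11 7 (1 + (4 / 7)) (by norm_num) (by norm_num) (by norm_num)]
    push_cast
    ring
  have e7 : Real.log (4 / 7) = Real.log 4 - Real.log 7 := by
    rw [log_frac 4 7 (4 / 7) (by norm_num) (by norm_num) (by norm_num)]
    push_cast
    ring
  have e8 : Real.log (1 + 2 * (1 / 12)) = Real.log 7 - Real.log 6 := by
    rw [log_frac 7 6 (1 + 2 * (1 / 12)) (by norm_num) (by norm_num) (by norm_num)]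
    push_cast
    ring
  have e9 : Real.log (13 / 12) = Real.log 13 - Real.log 12 := by
    rw [log_frac 13 12 (13 / 12) (by norm_num) (by norm_num) (by norm_num)]
    push_cast
    ring
  have e10 : Real.log (13 / 11) = Real.log 13 - Real.log 11 := by
    rw [log_frac 13 11 (13 / 11) (by norm_num) (by norm_num) (by norm_num)]
    push_cast
    ring
  push_cast at h
  unfold EndL tC tS
  rw [e0, e1, e4, e5, e6, e7, e8, e9, e10]
  linarith

theorem b13L16 : EndL (1 / 12) (42.529 - 16 * Real.log (13 / 12)) (13 / 20) (4 / 3) (4 / 3) (6 / 7) (4 / 7) (13 / 11) 16 := by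
  have h := log_list_ge [(7, 510), (11, 137), (13, 333)]
    [(3, 70), (4, 200), (6, 550), (12, 160)] (by decide) (by decide) 438 (by decide +kernel)
  simp only [List.map_cons, List.map_nil, List.sum_cons, List.sum_nil] at h
  have e0 : Real.log (1 + (4 / 3)) = Real.log 7 - Real.log 3 := by
    rw [log_frac 7 3 (1 + (4 / 3)) (by norm_num) (by norm_num) (by norm_num)]
    push_cast
    ring
  have e1 : Real.log (4 / 3) = Real.log 4 - Real.log 3 := by
    rw [log_frac 4 3 (4 / 3) (by norm_num) (by norm_num) (by norm_num)]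
    push_cast
    ring
  have e4 : Real.log (1 + (6 / 7)) = Real.log 13 - Real.log 7 := by
    rw [log_frac 13 7 (1 + (6 / 7)) (by norm_num) (by norm_num) (by norm_num)]
    push_cast
    ring
  have e5 : Real.log (6 / 7) = Real.log 6 - Real.log 7 := by
    rw [log_frac 6 7 (6 / 7) (by norm_num) (by norm_num) (by norm_num)]
    push_cast
    ring
  have e6 : Real.log (1 + (4 / 7)) = Real.log 11 - Real.log 7 := by
    rw [log_frac 11 7 (1 + (4 / 7)) (by norm_num) (by norm_num) (by norm_num)]
    push_cast
    ring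
  have e7 : Real.log (4 / 7) = Real.log 4 - Real.log 7 := by
    rw [log_frac 4 7 (4 / 7) (by norm_num) (by norm_num) (by norm_num)]
    push_cast
    ring
  have e8 : Real.log (1 + 2 * (1 / 12)) = Real.log 7 - Real.log 6 := by
    rw [log_frac 7 6 (1 + 2 * (1 / 12)) (by norm_num) (by norm_num) (by norm_num)]
    push_cast
    ring
  have e9 : Real.log (13 / 12) = Real.log 13 - Real.log 12 := by
    rw [log_frac 13 12 (13 / 12) (by norm_num) (by norm_num) (by norm_num)]
    push_cast
    ring
  have e10 : Real.log (13 / 11) = Real.log 13 - Real.log 11 := by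
    rw [log_frac 13 11 (13 / 11) (by norm_num) (by norm_num) (by norm_num)]
    push_cast
    ring
  push_cast at h
  unfold EndL tC tS
  rw [e0, e1, e4, e5, e6, e7, e8, e9, e10]
  linarith

theorem b13R16 : EndR (1 / 12) (42.529 - 16 * Real.log (13 / 12)) (13 / 20) (16 / 5) (9 / 2) (9 / 13) (5 / 11) (26 / 23) 16 := by
  have h := log_list_ge [(7, 48000), (13, 7000), (16, 7000), (21, 12000), (22, 16000), (26, 1300)]
    [(2, 3000), (5, 9000), (6, 48000), (9, 14000), (12, 16000), (23, 1300)] (by decide) (by decide) 43829 (by decide +kernel)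
  simp only [List.map_cons, List.map_nil, List.sum_cons, List.sum_nil] at h
  have e0 : Real.log (1 + (16 / 5)) = Real.log 21 - Real.log 5 := by
    rw [log_frac 21 5 (1 + (16 / 5)) (by norm_num) (by norm_num) (by norm_num)]
    push_cast
    ring
  have e1 : Real.log (16 / 5) = Real.log 16 - Real.log 5 := by
    rw [log_frac 16 5 (16 / 5) (by norm_num) (by norm_num) (by norm_num)]
    push_cast
    ring
  have e2 : Real.log (1 + (9 / 2)) = Real.log 11 - Real.log 2 := by
    rw [log_frac 11 2 (1 + (9 / 2)) (by norm_num) (by norm_num) (by norm_num)]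
    push_cast
    ring
  have e3 : Real.log (9 / 2) = Real.log 9 - Real.log 2 := by
    rw [log_frac 9 2 (9 / 2) (by norm_num) (by norm_num) (by norm_num)]
    push_cast
    ring
  have e4 : Real.log (1 + (9 / 13)) = Real.log 22 - Real.log 13 := by
    rw [log_frac 22 13 (1 + (9 / 13)) (by norm_num) (by norm_num) (by norm_num)]
    push_cast
    ring
  have e5 : Real.log (9 / 13) = Real.log 9 - Real.log 13 := by
    rw [log_frac 9 13 (9 / 13) (by norm_num) (by norm_num) (by norm_num)]
    push_cast
    ring
  have e6 : Real.log (1 + (5 / 11)) = Real.log 16 - Real.log 11 := by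
    rw [log_frac 16 11 (1 + (5 / 11)) (by norm_num) (by norm_num) (by norm_num)]
    push_cast
    ring
  have e7 : Real.log (5 / 11) = Real.log 5 - Real.log 11 := by
    rw [log_frac 5 11 (5 / 11) (by norm_num) (by norm_num) (by norm_num)]
    push_cast
    ring
  have e8 : Real.log (1 + 2 * (1 / 12)) = Real.log 7 - Real.log 6 := by
    rw [log_frac 7 6 (1 + 2 * (1 / 12)) (by norm_num) (by norm_num) (by norm_num)]
    push_cast
    ring
  have e9 : Real.log (13 / 12) = Real.log 13 - Real.log 12 := by
    rw [log_frac 13 12 (13 / 12) (by norm_num) (by norm_num) (by norm_num)]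
    push_cast
    ring
  have e10 : Real.log (26 / 23) = Real.log 26 - Real.log 23 := by
    rw [log_frac 26 23 (26 / 23) (by norm_num) (by norm_num) (by norm_num)]
    push_cast
    ring
  push_cast at h
  unfold EndR tC tS
  rw [e0, e1, e2, e3, e4, e5, e6, e7, e8, e9, e10]
  linarith

theorem b13R19 : EndR (1 / 12) (42.529 - 16 * Real.log (13 / 12)) (13 / 20) (16 / 5) (9 / 2) (9 / 13) (5 / 11) (26 / 23) 19 := by
  have h := log_list_ge [(7, 60000), (13, 4000), (16, 7000), (21, 12000), (22, 19000), (26, 1300)]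
    [(5, 6000), (6, 60000), (9, 17000), (11, 3000), (12, 16000), (23, 1300)] (by decide) (by decide) 40379 (by decide +kernel)
  simp only [List.map_cons, List.map_nil, List.sum_cons, List.sum_nil] at h
  have e0 : Real.log (1 + (16 / 5)) = Real.log 21 - Real.log 5 := by
    rw [log_frac 21 5 (1 + (16 / 5)) (by norm_num) (by norm_num) (by norm_num)]
    push_cast
    ring
  have e1 : Real.log (16 / 5) = Real.log 16 - Real.log 5 := by
    rw [log_frac 16 5 (16 / 5) (by norm_num) (by norm_num) (by norm_num)]
    push_cast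
    ring
  have e2 : Real.log (1 + (9 / 2)) = Real.log 11 - Real.log 2 := by
    rw [log_frac 11 2 (1 + (9 / 2)) (by norm_num) (by norm_num) (by norm_num)]
    push_cast
    ring
  have e3 : Real.log (9 / 2) = Real.log 9 - Real.log 2 := by
    rw [log_frac 9 2 (9 / 2) (by norm_num) (by norm_num) (by norm_num)]
    push_cast
    ring
  have e4 : Real.log (1 + (9 / 13)) = Real.log 22 - Real.log 13 := by
    rw [log_frac 22 13 (1 + (9 / 13)) (by norm_num) (by norm_num) (by norm_num)]
    push_cast
    ring
  have e5 : Real.log (9 / 13) = Real.log 9 - Real.log 13 := by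
    rw [log_frac 9 13 (9 / 13) (by norm_num) (by norm_num) (by norm_num)]
    push_cast
    ring
  have e6 : Real.log (1 + (5 / 11)) = Real.log 16 - Real.log 11 := by
    rw [log_frac 16 11 (1 + (5 / 11)) (by norm_num) (by norm_num) (by norm_num)]
    push_cast
    ring
  have e7 : Real.log (5 / 11) = Real.log 5 - Real.log 11 := by
    rw [log_frac 5 11 (5 / 11) (by norm_num) (by norm_num) (by norm_num)]
    push_cast
    ring
  have e8 : Real.log (1 + 2 * (1 / 12)) = Real.log 7 - Real.log 6 := by
    rw [log_frac 7 6 (1 + 2 * (1 / 12)) (by norm_num) (by norm_num) (by norm_num)]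
    push_cast
    ring
  have e9 : Real.log (13 / 12) = Real.log 13 - Real.log 12 := by
    rw [log_frac 13 12 (13 / 12) (by norm_num) (by norm_num) (by norm_num)]
    push_cast
    ring
  have e10 : Real.log (26 / 23) = Real.log 26 - Real.log 23 := by
    rw [log_frac 26 23 (26 / 23) (by norm_num) (by norm_num) (by norm_num)]
    push_cast
    ring
  push_cast at h
  unfold EndR tC tS
  rw [e0, e1, e2, e3, e4, e5, e6, e7, e8, e9, e10]
  linarith

theorem b15L9 : EndL (1 / 12) (42.563 - 16 * Real.log (13 / 12)) (3 / 4) (4 / 3) (5 / 4) (7 / 8) (3 / 5) (5 / 4) 9 := by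
  have h := log_list_ge [(7, 250), (8, 60), (9, 100), (13, 160), (15, 90)]
    [(3, 160), (4, 125), (5, 15), (6, 200), (12, 160)] (by decide) (by decide) 356 (by decide +kernel)
  simp only [List.map_cons, List.map_nil, List.sum_cons, List.sum_nil] at h
  have e0 : Real.log (1 + (4 / 3)) = Real.log 7 - Real.log 3 := by
    rw [log_frac 7 3 (1 + (4 / 3)) (by norm_num) (by norm_num) (by norm_num)]
    push_cast
    ring
  have e1 : Real.log (4 / 3) = Real.log 4 - Real.log 3 := by
    rw [log_frac 4 3 (4 / 3) (by norm_num) (by norm_num) (by norm_num)]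
    push_cast
    ring
  have e2 : Real.log (1 + (5 / 4)) = Real.log 9 - Real.log 4 := by
    rw [log_frac 9 4 (1 + (5 / 4)) (by norm_num) (by norm_num) (by norm_num)]
    push_cast
    ring
  have e3 : Real.log (5 / 4) = Real.log 5 - Real.log 4 := by
    rw [log_frac 5 4 (5 / 4) (by norm_num) (by norm_num) (by norm_num)]
    push_cast
    ring
  have e4 : Real.log (1 + (7 / 8)) = Real.log 15 - Real.log 8 := by
    rw [log_frac 15 8 (1 + (7 / 8)) (by norm_num) (by norm_num) (by norm_num)]
    push_cast
    ring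
  have e5 : Real.log (7 / 8) = Real.log 7 - Real.log 8 := by
    rw [log_frac 7 8 (7 / 8) (by norm_num) (by norm_num) (by norm_num)]
    push_cast
    ring
  have e6 : Real.log (1 + (3 / 5)) = Real.log 8 - Real.log 5 := by
    rw [log_frac 8 5 (1 + (3 / 5)) (by norm_num) (by norm_num) (by norm_num)]
    push_cast
    ring
  have e7 : Real.log (3 / 5) = Real.log 3 - Real.log 5 := by
    rw [log_frac 3 5 (3 / 5) (by norm_num) (by norm_num) (by norm_num)]
    push_cast
    ring
  have e8 : Real.log (1 + 2 * (1 / 12)) = Real.log 7 - Real.log 6 := by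
    rw [log_frac 7 6 (1 + 2 * (1 / 12)) (by norm_num) (by norm_num) (by norm_num)]
    push_cast
    ring
  have e9 : Real.log (13 / 12) = Real.log 13 - Real.log 12 := by
    rw [log_frac 13 12 (13 / 12) (by norm_num) (by norm_num) (by norm_num)]
    push_cast
    ring
  push_cast at h
  unfold EndL tC tS
  rw [e0, e1, e2, e3, e4, e5, e6, e7, e8, e9]
  linarith

theorem b15L16 : EndL (1 / 12) (42.563 - 16 * Real.log (13 / 12)) (3 / 4) (4 / 3) (5 / 4) (7 / 8) (3 / 5) (5 / 4) 16 := by
  have h := log_list_ge [(7, 1060), (8, 120), (9, 200), (13, 320), (15, 320)]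
    [(3, 180), (4, 250), (5, 310), (6, 960), (12, 320)] (by decide) (by decide) 881 (by decide +kernel)
  simp only [List.map_cons, List.map_nil, List.sum_cons, List.sum_nil] at h
  have e0 : Real.log (1 + (4 / 3)) = Real.log 7 - Real.log 3 := by
    rw [log_frac 7 3 (1 + (4 / 3)) (by norm_num) (by norm_num) (by norm_num)]
    push_cast
    ring
  have e1 : Real.log (4 / 3) = Real.log 4 - Real.log 3 := by
    rw [log_frac 4 3 (4 / 3) (by norm_num) (by norm_num) (by norm_num)]
    push_cast
    ring
  have e2 : Real.log (1 + (5 / 4)) = Real.log 9 - Real.log 4 := by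
    rw [log_frac 9 4 (1 + (5 / 4)) (by norm_num) (by norm_num) (by norm_num)]
    push_cast
    ring
  have e3 : Real.log (5 / 4) = Real.log 5 - Real.log 4 := by
    rw [log_frac 5 4 (5 / 4) (by norm_num) (by norm_num) (by norm_num)]
    push_cast
    ring
  have e4 : Real.log (1 + (7 / 8)) = Real.log 15 - Real.log 8 := by
    rw [log_frac 15 8 (1 + (7 / 8)) (by norm_num) (by norm_num) (by norm_num)]
    push_cast
    ring
  have e5 : Real.log (7 / 8) = Real.log 7 - Real.log 8 := by
    rw [log_frac 7 8 (7 / 8) (by norm_num) (by norm_num) (by norm_num)]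
    push_cast
    ring
  have e6 : Real.log (1 + (3 / 5)) = Real.log 8 - Real.log 5 := by
    rw [log_frac 8 5 (1 + (3 / 5)) (by norm_num) (by norm_num) (by norm_num)]
    push_cast
    ring
  have e7 : Real.log (3 / 5) = Real.log 3 - Real.log 5 := by
    rw [log_frac 3 5 (3 / 5) (by norm_num) (by norm_num) (by norm_num)]
    push_cast
    ring
  have e8 : Real.log (1 + 2 * (1 / 12)) = Real.log 7 - Real.log 6 := by
    rw [log_frac 7 6 (1 + 2 * (1 / 12)) (by norm_num) (by norm_num) (by norm_num)]
    push_cast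
    ring
  have e9 : Real.log (13 / 12) = Real.log 13 - Real.log 12 := by
    rw [log_frac 13 12 (13 / 12) (by norm_num) (by norm_num) (by norm_num)]
    push_cast
    ring
  push_cast at h
  unfold EndL tC tS
  rw [e0, e1, e2, e3, e4, e5, e6, e7, e8, e9]
  linarith

theorem b15R16 : EndR (1 / 12) (42.563 - 16 * Real.log (13 / 12)) (3 / 4) (33 / 10) (41 / 9) (9 / 13) (4 / 9) (5 / 4) 16 := by
  have h := log_list_ge [(5, 1500), (7, 48000), (13, 22000), (22, 16000), (43, 12000), (50, 10000)]
    [(4, 6500), (6, 48000), (9, 20000), (10, 4000), (12, 16000), (33, 8000), (41, 7000)] (by decide) (by decide) 44063 (by decide +kernel)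
  simp only [List.map_cons, List.map_nil, List.sum_cons, List.sum_nil] at h
  have e0 : Real.log (1 + (33 / 10)) = Real.log 43 - Real.log 10 := by
    rw [log_frac 43 10 (1 + (33 / 10)) (by norm_num) (by norm_num) (by norm_num)]
    push_cast
    ring
  have e1 : Real.log (33 / 10) = Real.log 33 - Real.log 10 := by
    rw [log_frac 33 10 (33 / 10) (by norm_num) (by norm_num) (by norm_num)]
    push_cast
    ring
  have e2 : Real.log (1 + (41 / 9)) = Real.log 50 - Real.log 9 := by
    rw [log_frac 50 9 (1 + (41 / 9)) (by norm_num) (by norm_num) (by norm_num)]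
    push_cast
    ring
  have e3 : Real.log (41 / 9) = Real.log 41 - Real.log 9 := by
    rw [log_frac 41 9 (41 / 9) (by norm_num) (by norm_num) (by norm_num)]
    push_cast
    ring
  have e4 : Real.log (1 + (9 / 13)) = Real.log 22 - Real.log 13 := by
    rw [log_frac 22 13 (1 + (9 / 13)) (by norm_num) (by norm_num) (by norm_num)]
    push_cast
    ring
  have e5 : Real.log (9 / 13) = Real.log 9 - Real.log 13 := by
    rw [log_frac 9 13 (9 / 13) (by norm_num) (by norm_num) (by norm_num)]
    push_cast
    ring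
  have e6 : Real.log (1 + (4 / 9)) = Real.log 13 - Real.log 9 := by
    rw [log_frac 13 9 (1 + (4 / 9)) (by norm_num) (by norm_num) (by norm_num)]
    push_cast
    ring
  have e7 : Real.log (4 / 9) = Real.log 4 - Real.log 9 := by
    rw [log_frac 4 9 (4 / 9) (by norm_num) (by norm_num) (by norm_num)]
    push_cast
    ring
  have e8 : Real.log (1 + 2 * (1 / 12)) = Real.log 7 - Real.log 6 := by
    rw [log_frac 7 6 (1 + 2 * (1 / 12)) (by norm_num) (by norm_num) (by norm_num)]
    push_cast
    ring
  have e9 : Real.log (13 / 12) = Real.log 13 - Real.log 12 := by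
    rw [log_frac 13 12 (13 / 12) (by norm_num) (by norm_num) (by norm_num)]
    push_cast
    ring
  have e10 : Real.log (5 / 4) = Real.log 5 - Real.log 4 := by
    rw [log_frac 5 4 (5 / 4) (by norm_num) (by norm_num) (by norm_num)]
    push_cast
    ring
  push_cast at h
  unfold EndR tC tS
  rw [e0, e1, e2, e3, e4, e5, e6, e7, e8, e9, e10]
  linarith

theorem b15R19 : EndR (1 / 12) (42.563 - 16 * Real.log (13 / 12)) (3 / 4) (33 / 10) (41 / 9) (9 / 13) (4 / 9) (5 / 4) 19 := by
  have h := log_list_ge [(5, 1500), (7, 60000), (13, 22000), (22, 19000), (43, 12000), (50, 10000)]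
    [(4, 6500), (6, 60000), (9, 20000), (10, 1000), (12, 16000), (33, 11000), (41, 10000)] (by decide) (by decide) 40463 (by decide +kernel)
  simp only [List.map_cons, List.map_nil, List.sum_cons, List.sum_nil] at h
  have e0 : Real.log (1 + (33 / 10)) = Real.log 43 - Real.log 10 := by
    rw [log_frac 43 10 (1 + (33 / 10)) (by norm_num) (by norm_num) (by norm_num)]
    push_cast
    ring
  have e1 : Real.log (33 / 10) = Real.log 33 - Real.log 10 := by
    rw [log_frac 33 10 (33 / 10) (by norm_num) (by norm_num) (by norm_num)]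
    push_cast
    ring
  have e2 : Real.log (1 + (41 / 9)) = Real.log 50 - Real.log 9 := by
    rw [log_frac 50 9 (1 + (41 / 9)) (by norm_num) (by norm_num) (by norm_num)]
    push_cast
    ring
  have e3 : Real.log (41 / 9) = Real.log 41 - Real.log 9 := by
    rw [log_frac 41 9 (41 / 9) (by norm_num) (by norm_num) (by norm_num)]
    push_cast
    ring
  have e4 : Real.log (1 + (9 / 13)) = Real.log 22 - Real.log 13 := by
    rw [log_frac 22 13 (1 + (9 / 13)) (by norm_num) (by norm_num) (by norm_num)]
    push_cast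
    ring
  have e5 : Real.log (9 / 13) = Real.log 9 - Real.log 13 := by
    rw [log_frac 9 13 (9 / 13) (by norm_num) (by norm_num) (by norm_num)]
    push_cast
    ring
  have e6 : Real.log (1 + (4 / 9)) = Real.log 13 - Real.log 9 := by
    rw [log_frac 13 9 (1 + (4 / 9)) (by norm_num) (by norm_num) (by norm_num)]
    push_cast
    ring
  have e7 : Real.log (4 / 9) = Real.log 4 - Real.log 9 := by
    rw [log_frac 4 9 (4 / 9) (by norm_num) (by norm_num) (by norm_num)]
    push_cast
    ring
  have e8 : Real.log (1 + 2 * (1 / 12)) = Real.log 7 - Real.log 6 := by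
    rw [log_frac 7 6 (1 + 2 * (1 / 12)) (by norm_num) (by norm_num) (by norm_num)]
    push_cast
    ring
  have e9 : Real.log (13 / 12) = Real.log 13 - Real.log 12 := by
    rw [log_frac 13 12 (13 / 12) (by norm_num) (by norm_num) (by norm_num)]
    push_cast
    ring
  have e10 : Real.log (5 / 4) = Real.log 5 - Real.log 4 := by
    rw [log_frac 5 4 (5 / 4) (by norm_num) (by norm_num) (by norm_num)]
    push_cast
    ring
  push_cast at h
  unfold EndR tC tS
  rw [e0, e1, e2, e3, e4, e5, e6, e7, e8, e9, e10]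
  linarith
theorem termB0 (N k : ℕ) (hN : 1 ≤ N) (h1 : 9 * (20 * N) ≤ k) (h2 : k < 19 * (20 * N)) :
    (WB (20 * N) k : ℝ) * (1 + 2 * (1 / 12 : ℝ)) ^ (4 * k - 16 * (20 * N)) *
        |(16 * ((20 * N : ℕ) : ℝ)) - k| ^ (2 * (0 * N)) ≤
      ((20 * N : ℕ) : ℝ) ^ (2 * (0 * N)) *
        Real.exp ((42.942 - 16 * Real.log (13 / 12)) * ((20 * N : ℕ) : ℝ)) :=
  node_term (20 * N) (0 * N) k (by omega) h1 h2 (1 / 12) (42.942 - 16 * Real.log (13 / 12))
    0 (by norm_num) (by norm_num) (by push_cast; ring)
    (33 / 16) (103 / 43) (7 / 9) (1 / 2) 1 (by norm_num) (by norm_num) (by norm_num)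
    (by norm_num) (by norm_num)
    (31 / 15) (69 / 29) (10 / 13) (1 / 2) 1 (by norm_num) (by norm_num) (by norm_num)
    (by norm_num) (by norm_num) b0L9 b0L16 b0R16 b0R19

theorem termB2 (N k : ℕ) (hN : 1 ≤ N) (h1 : 9 * (20 * N) ≤ k) (h2 : k < 19 * (20 * N)) :
    (WB (20 * N) k : ℝ) * (1 + 2 * (1 / 12 : ℝ)) ^ (4 * k - 16 * (20 * N)) *
        |(16 * ((20 * N : ℕ) : ℝ)) - k| ^ (2 * (2 * N)) ≤
      ((20 * N : ℕ) : ℝ) ^ (2 * (2 * N)) *
        Real.exp ((42.711 - 16 * Real.log (13 / 12)) * ((20 * N : ℕ) : ℝ)) :=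
  node_term (20 * N) (2 * N) k (by omega) h1 h2 (1 / 12) (42.711 - 16 * Real.log (13 / 12))
    (1 / 10) (by norm_num) (by norm_num) (by push_cast; ring)
    (13 / 8) 2 (5 / 6) (1 / 2) (4 / 9) (by norm_num) (by norm_num) (by norm_num)
    (by norm_num) (by norm_num)
    (12 / 5) 3 (8 / 11) (11 / 23) (10 / 21) (by norm_num) (by norm_num) (by norm_num)
    (by norm_num) (by norm_num) b2L9 b2L16 b2R16 b2R19

theorem termB5 (N k : ℕ) (hN : 1 ≤ N) (h1 : 9 * (20 * N) ≤ k) (h2 : k < 19 * (20 * N)) :
    (WB (20 * N) k : ℝ) * (1 + 2 * (1 / 12 : ℝ)) ^ (4 * k - 16 * (20 * N)) *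
        |(16 * ((20 * N : ℕ) : ℝ)) - k| ^ (2 * (5 * N)) ≤
      ((20 * N : ℕ) : ℝ) ^ (2 * (5 * N)) *
        Real.exp ((42.567 - 16 * Real.log (13 / 12)) * ((20 * N : ℕ) : ℝ)) :=
  node_term (20 * N) (5 * N) k (by omega) h1 h2 (1 / 12) (42.567 - 16 * Real.log (13 / 12))
    (1 / 4) (by norm_num) (by norm_num) (by push_cast; ring)
    (3 / 2) (7 / 4) (5 / 6) (5 / 9) (5 / 7) (by norm_num) (by norm_num) (by norm_num)
    (by norm_num) (by norm_num)
    (19 / 7) (27 / 8) (5 / 7) (6 / 13) (25 / 34) (by norm_num) (by norm_num) (by norm_num)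
    (by norm_num) (by norm_num) b5L9 b5L16 b5R16 b5R19

theorem termB7 (N k : ℕ) (hN : 1 ≤ N) (h1 : 9 * (20 * N) ≤ k) (h2 : k < 19 * (20 * N)) :
    (WB (20 * N) k : ℝ) * (1 + 2 * (1 / 12 : ℝ)) ^ (4 * k - 16 * (20 * N)) *
        |(16 * ((20 * N : ℕ) : ℝ)) - k| ^ (2 * (7 * N)) ≤
      ((20 * N : ℕ) : ℝ) ^ (2 * (7 * N)) *
        Real.exp ((42.523 - 16 * Real.log (13 / 12)) * ((20 * N : ℕ) : ℝ)) :=
  node_term (20 * N) (7 * N) k (by omega) h1 h2 (1 / 12) (42.523 - 16 * Real.log (13 / 12))
    (7 / 20) (by norm_num) (by norm_num) (by push_cast; ring)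
    (3 / 2) (8 / 5) (5 / 6) (4 / 7) (7 / 8) (by norm_num) (by norm_num) (by norm_num)
    (by norm_num) (by norm_num)
    (31 / 11) (11 / 3) (5 / 7) (6 / 13) (7 / 8) (by norm_num) (by norm_num) (by norm_num)
    (by norm_num) (by norm_num) b7L9 b7L16 b7R16 b7R19

theorem termB10 (N k : ℕ) (hN : 1 ≤ N) (h1 : 9 * (20 * N) ≤ k) (h2 : k < 19 * (20 * N)) :
    (WB (20 * N) k : ℝ) * (1 + 2 * (1 / 12 : ℝ)) ^ (4 * k - 16 * (20 * N)) *
        |(16 * ((20 * N : ℕ) : ℝ)) - k| ^ (2 * (10 * N)) ≤
      ((20 * N : ℕ) : ℝ) ^ (2 * (10 * N)) *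
        Real.exp ((42.505 - 16 * Real.log (13 / 12)) * ((20 * N : ℕ) : ℝ)) :=
  node_term (20 * N) (10 * N) k (by omega) h1 h2 (1 / 12) (42.505 - 16 * Real.log (13 / 12))
    (1 / 2) (by norm_num) (by norm_num) (by push_cast; ring)
    (7 / 5) (3 / 2) (6 / 7) (4 / 7) (20 / 19) (by norm_num) (by norm_num) (by norm_num)
    (by norm_num) (by norm_num)
    3 (83 / 20) (7 / 10) (5 / 11) 1 (by norm_num) (by norm_num) (by norm_num)
    (by norm_num) (by norm_num) b10L9 b10L16 b10R16 b10R19

theorem termB13 (N k : ℕ) (hN : 1 ≤ N) (h1 : 9 * (20 * N) ≤ k) (h2 : k < 19 * (20 * N)) :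
    (WB (20 * N) k : ℝ) * (1 + 2 * (1 / 12 : ℝ)) ^ (4 * k - 16 * (20 * N)) *
        |(16 * ((20 * N : ℕ) : ℝ)) - k| ^ (2 * (13 * N)) ≤
      ((20 * N : ℕ) : ℝ) ^ (2 * (13 * N)) *
        Real.exp ((42.529 - 16 * Real.log (13 / 12)) * ((20 * N : ℕ) : ℝ)) :=
  node_term (20 * N) (13 * N) k (by omega) h1 h2 (1 / 12) (42.529 - 16 * Real.log (13 / 12))
    (13 / 20) (by norm_num) (by norm_num) (by push_cast; ring)
    (4 / 3) (4 / 3) (6 / 7) (4 / 7) (13 / 11) (by norm_num) (by norm_num) (by norm_num)
    (by norm_num) (by norm_num)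
    (16 / 5) (9 / 2) (9 / 13) (5 / 11) (26 / 23) (by norm_num) (by norm_num) (by norm_num)
    (by norm_num) (by norm_num) b13L9 b13L16 b13R16 b13R19

theorem termB15 (N k : ℕ) (hN : 1 ≤ N) (h1 : 9 * (20 * N) ≤ k) (h2 : k < 19 * (20 * N)) :
    (WB (20 * N) k : ℝ) * (1 + 2 * (1 / 12 : ℝ)) ^ (4 * k - 16 * (20 * N)) *
        |(16 * ((20 * N : ℕ) : ℝ)) - k| ^ (2 * (15 * N)) ≤
      ((20 * N : ℕ) : ℝ) ^ (2 * (15 * N)) *
        Real.exp ((42.563 - 16 * Real.log (13 / 12)) * ((20 * N : ℕ) : ℝ)) :=
  node_term (20 * N) (15 * N) k (by omega) h1 h2 (1 / 12) (42.563 - 16 * Real.log (13 / 12))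
    (3 / 4) (by norm_num) (by norm_num) (by push_cast; ring)
    (4 / 3) (5 / 4) (7 / 8) (3 / 5) (5 / 4) (by norm_num) (by norm_num) (by norm_num)
    (by norm_num) (by norm_num)
    (33 / 10) (41 / 9) (9 / 13) (4 / 9) (5 / 4) (by norm_num) (by norm_num) (by norm_num)
    (by norm_num) (by norm_num) b15L9 b15L16 b15R16 b15R19

end Pool.Agent.Z3D
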