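import Pool.Agent.Z23.PFGen
import Pool.Agent.Z23.JForm
import Pool.Agent.D23.LinkG
import Pool.Agent.D23.DetCost

/-!
# The arithmetic layer for rational functions with double poles

`qL P = 2 sum cA`, `pL P = sum (2 cA H3 + cB H2)`; the integral of `P R` against the kernel is
`qL P zeta(3) - pL P`; p-adic bounds of `a qL P - b pL P` and of its determinants.
-/

open Finset Filter Topology Complex MeasureTheory Polynomial
open scoped BigOperators

namespace Pool.Agent.Z3D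

open Pool.Agent.Z3 (H Iint zeta3 Ker)
open Pool.Agent.Z3.TermAux
open Pool.Agent.Z23 (cA cB dK lK)
open Pool.Agent.D23 (HG HG_poly HG_inv cls cls_neg cls_lt numP ppos pone norm_int_le nod)

/-! ### linear maps -/

theorem cA_add (K1 K2 : Finset ℕ) (P Q : ℚ[X]) (k : ℕ) :
    cA (P + Q) K1 K2 k = cA P K1 K2 k + cA Q K1 K2 k := by
  unfold cA
  split_ifs
  · rw [eval_add]
    ring
  · ring

theorem cA_smul (K1 K2 : Finset ℕ) (c : ℚ) (P : ℚ[X]) (k : ℕ) :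
    cA (c • P) K1 K2 k = c * cA P K1 K2 k := by
  unfold cA
  split_ifs
  · rw [eval_smul, smul_eq_mul]
    ring
  · ring

theorem cB_add (K1 K2 : Finset ℕ) (P Q : ℚ[X]) (k : ℕ) :
    cB (P + Q) K1 K2 k = cB P K1 K2 k + cB Q K1 K2 k := by
  unfold cB
  split_ifs
  · rw [eval_add, derivative_add, eval_add]
    ring
  · rw [eval_add]
    ring

theorem cB_smul (K1 K2 : Finset ℕ) (c : ℚ) (P : ℚ[X]) (k : ℕ) :
    cB (c • P) K1 K2 k = c * cB P K1 K2 k := by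
  unfold cB
  split_ifs
  · rw [eval_smul, derivative_smul, eval_smul, smul_eq_mul, smul_eq_mul]
    ring
  · rw [eval_smul, smul_eq_mul]
    ring

/-- coefficient of zeta(3); `N` is the fixed part of the numerator -/
noncomputable def qL (K1 K2 : Finset ℕ) (N : ℚ[X]) : ℚ[X] →ₗ[ℚ] ℚ where
  toFun P := 2 * ∑ k ∈ K1, cA (P * N) K1 K2 k
  map_add' P Q := by
    rw [add_mul, ← mul_add, ← sum_add_distrib]
    congr 1
    exact sum_congr rfl (fun k _ => cA_add K1 K2 _ _ k)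
  map_smul' c P := by
    rw [smul_mul_assoc, RingHom.id_apply, smul_eq_mul, mul_left_comm, mul_sum _ _ c]
    congr 1
    exact sum_congr rfl (fun k _ => cA_smul K1 K2 c _ k)

/-- rational part, line Re t = 1/2 - v -/
noncomputable def pL (K1 K2 : Finset ℕ) (v : ℕ) (N : ℚ[X]) : ℚ[X] →ₗ[ℚ] ℚ where
  toFun P := ∑ k ∈ K1, (2 * cA (P * N) K1 K2 k * H 3 (k - v) + cB (P * N) K1 K2 k * H 2 (k - v))
  map_add' P Q := by
    rw [add_mul, ← sum_add_distrib]
    refine sum_congr rfl (fun k _ => ?_)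
    rw [cA_add, cB_add]
    ring
  map_smul' c P := by
    rw [smul_mul_assoc, RingHom.id_apply, smul_eq_mul, mul_sum]
    refine sum_congr rfl (fun k _ => ?_)
    rw [cA_smul, cB_smul]
    ring

theorem qL_apply (K1 K2 : Finset ℕ) (N P : ℚ[X]) :
    qL K1 K2 N P = 2 * ∑ k ∈ K1, cA (P * N) K1 K2 k := rfl

theorem pL_apply (K1 K2 : Finset ℕ) (v : ℕ) (N P : ℚ[X]) :
    pL K1 K2 v N P =
      ∑ k ∈ K1, (2 * cA (P * N) K1 K2 k * H 3 (k - v) + cB (P * N) K1 K2 k * H 2 (k - v)) := rfl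

/-! ### the form -/

/-- the rational function with numerator `S` -/
noncomputable def R2 (K1 K2 : Finset ℕ) (S : ℚ[X]) (t : ℂ) : ℂ :=
  aeval t S / ((∏ i ∈ K1, (t + (i : ℂ))) * ∏ i ∈ K2, (t + (i : ℂ)))

theorem R2_mul (K1 K2 : Finset ℕ) (P N : ℚ[X]) (t : ℂ) :
    R2 K1 K2 (P * N) t = aeval t P * R2 K1 K2 N t := by
  unfold R2
  rw [map_mul, mul_div_assoc]

/-- the integral over the line Re t = 1/2 - v -/
theorem form2 (K1 K2 : Finset ℕ) (hK : K2 ⊆ K1) (v : ℕ) (hv : ∀ k ∈ K1, v ≤ k) (N P : ℚ[X])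
    (hd : (P * N).natDegree + 2 ≤ K1.card + K2.card) :
    Iint (1 - (v : ℤ)) (R2 K1 K2 (P * N)) =
      ((qL K1 K2 N P : ℚ) : ℂ) * (zeta3 : ℂ) - ((pL K1 K2 v N P : ℚ) : ℂ) := by
  have h := Z23.Iint_form (R2 K1 K2 (P * N)) K1 (cA (P * N) K1 K2) (cB (P * N) K1 K2) v hv
    (fun t ht => by
      have h1 := Z23.pf (F := ℂ) (P * N) K1 K2 hK (by omega) t ht
      unfold R2 Z23.pfun
      rw [aeval_def, ← h1]
      rfl) (Z23.sum_cB (P * N) K1 K2 hK hd)
  rw [show (1 - (v : ℤ)) = -(v : ℤ) + 1 by ring, h, qL_apply, pL_apply]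

theorem HG_aeval (x0 : ℝ) (S : ℚ[X]) : HG x0 (fun t => aeval t S) := by
  refine (HG_poly x0 (S.map (algebraMap ℚ ℂ))).congr (fun t _ => ?_)
  rw [aeval_def, eval_map]

theorem HG_R2 (K1 K2 : Finset ℕ) (S : ℚ[X]) (a : ℕ) (ha1 : ∀ k ∈ K1, a ≤ k)
    (ha2 : ∀ k ∈ K2, a ≤ k) (x0 : ℝ) (hx : -(a : ℝ) < x0) : HG x0 (R2 K1 K2 S) := by
  have h1 : ∀ K : Finset ℕ, (∀ k ∈ K, a ≤ k) →
      HG x0 (fun t : ℂ => ∏ i ∈ K, (1 / (t + (((i : ℕ) : ℝ) : ℂ)))) := fun K hK =>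
    HG.prod K (fun i t => 1 / (t + (((i : ℕ) : ℝ) : ℂ))) (fun k hk => by
      have h2 : (a : ℝ) ≤ k := by exact_mod_cast hK k hk
      exact HG_inv (k : ℝ) (by linarith))
  refine ((HG_aeval x0 S).mul ((h1 K1 ha1).mul (h1 K2 ha2))).congr (fun t _ => ?_)
  unfold R2
  simp only [prod_div_distrib, prod_const_one, Complex.ofReal_natCast]
  rw [div_eq_mul_inv, mul_inv]
  simp only [one_div]

/-- moving the line across double zeros -/
theorem Iint_move2 (K1 K2 : Finset ℕ) (S : ℚ[X]) (a : ℕ) (ha1 : ∀ k ∈ K1, a ≤ k)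
    (ha2 : ∀ k ∈ K2, a ≤ k) (u v : ℕ) (huv : u ≤ v) (hv : v ≤ a)
    (h2 : ∀ i, u ≤ i → i < v → (X + C (i : ℚ)) ^ 2 ∣ S) :
    Iint (1 - (u : ℤ)) (R2 K1 K2 S) = Iint (1 - (v : ℤ)) (R2 K1 K2 S) := by
  induction v with
  | zero =>
    have : u = 0 := by omega
    subst this
    rfl
  | succ v ih =>
    rcases Nat.lt_or_ge v u with h | h
    · have : u = v + 1 := by omega
      subst this
      rfl
    · rw [ih h (by omega) (fun i h1 h3 => h2 i h1 (by omega))]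
      have hva : (v : ℝ) + 1 ≤ a := by exact_mod_cast hv
      obtain ⟨Q, hQ⟩ := h2 v h (by omega)
      have hHG := HG_R2 K1 K2 S a ha1 ha2 (-(a : ℝ) + 1 / 4) (by linarith)
      have hHQ := HG_R2 K1 K2 Q a ha1 ha2 (-(a : ℝ) + 1 / 4) (by linarith)
      have hm : -(a : ℝ) + 1 / 4 < ((-(v : ℤ) : ℤ) : ℝ) - 1 / 2 := by
        push_cast
        linarith
      have h4 := hHG.shift (-(v : ℤ)) hm
      have h5 : iteratedDeriv 1 (R2 K1 K2 S) (((-(v : ℤ) : ℤ)) : ℂ) = 0 := by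
        refine D23.iteratedDeriv_zero_of_factor (D23.isOpen_half (-(a : ℝ) + 1 / 4)) ?_ 1 2
          (R2 K1 K2 Q) _ (by norm_num) hHQ.1 (fun t _ => ?_)
        · change -(a : ℝ) + 1 / 4 < (((-(v : ℤ) : ℤ)) : ℂ).re
          rw [Complex.intCast_re]
          linarith
        · rw [hQ, R2_mul]
          simp
      rw [iteratedDeriv_one] at h5
      rw [h5, neg_zero, sub_eq_zero] at h4
      have e1 : (1 - (v : ℤ)) = -(v : ℤ) + 1 := by ring
      have e2 : (1 - ((v + 1 : ℕ) : ℤ)) = -(v : ℤ) := by push_cast; ring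
      rw [e1, e2, h4]

/-- the form on the analytic line Re t = 1/2 - u -/
theorem form2_line (K1 K2 : Finset ℕ) (hK : K2 ⊆ K1) (u v : ℕ) (huv : u ≤ v)
    (hv : ∀ k ∈ K1, v ≤ k) (N P : ℚ[X]) (hd : (P * N).natDegree + 2 ≤ K1.card + K2.card)
    (h2 : ∀ i, u ≤ i → i < v → (X + C (i : ℚ)) ^ 2 ∣ N) :
    ((qL K1 K2 N P : ℚ) : ℂ) * (zeta3 : ℂ) - ((pL K1 K2 v N P : ℚ) : ℂ) =
      ∫ y : ℝ, aeval (D23.ln (1 - (u : ℤ)) y) P *
        (R2 K1 K2 N (D23.ln (1 - (u : ℤ)) y) * (Ker y : ℂ)) := by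
  rw [← form2 K1 K2 hK v hv N P hd, ← Iint_move2 K1 K2 (P * N) v hv (fun k hk => hv k (hK hk))
    u v huv le_rfl (fun i h1 h3 => Dvd.dvd.mul_left (h2 i h1 h3) P), D23.Iint_eq]
  congr 1
  funext y
  rw [R2_mul]
  ring

/-! ### p-adic bounds -/

section
variable {p : ℕ} [hp : Fact p.Prime]

/-- control of the values and of the values of the derivative at integers by the class -/
def Ctl (p : ℕ) (F : ℚ[X]) (g : ℕ → ℤ) : Prop :=
  ∀ x : ℤ, padicNorm p (F.eval (x : ℚ)) ≤ (p : ℚ) ^ (-g (cls p x)) ∧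
    padicNorm p (F.derivative.eval (x : ℚ)) ≤ (p : ℚ) ^ (1 - g (cls p x))

theorem Ctl.mul {F G : ℚ[X]} {f g : ℕ → ℤ} (hF : Ctl p F f) (hG : Ctl p G g) :
    Ctl p (F * G) (fun s => f s + g s) := by
  have hp0 := ppos (p := p)
  intro x
  obtain ⟨h1, h2⟩ := hF x
  obtain ⟨h3, h4⟩ := hG x
  constructor
  · rw [eval_mul, padicNorm.mul]
    refine (mul_le_mul h1 h3 (padicNorm.nonneg _) (by positivity)).trans (le_of_eq ?_)
    rw [← zpow_add₀ hp0.ne']
    congr 1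
    ring
  · rw [derivative_mul, eval_add, eval_mul, eval_mul]
    refine padicNorm.nonarchimedean.trans (max_le ?_ ?_)
    · rw [padicNorm.mul]
      refine (mul_le_mul h2 h3 (padicNorm.nonneg _) (by positivity)).trans (le_of_eq ?_)
      rw [← zpow_add₀ hp0.ne']
      congr 1
      ring
    · rw [padicNorm.mul]
      refine (mul_le_mul h1 h4 (padicNorm.nonneg _) (by positivity)).trans (le_of_eq ?_)
      rw [← zpow_add₀ hp0.ne']
      congr 1
      ring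

theorem Ctl_C {κ : ℚ} {e0 : ℤ} (hκ : padicNorm p κ ≤ (p : ℚ) ^ (-e0)) :
    Ctl p (C κ) (fun _ => e0) := by
  have hp0 := ppos (p := p)
  intro x
  rw [eval_C, derivative_C, eval_zero, padicNorm.zero]
  exact ⟨hκ, by positivity⟩

theorem Ctl_one : Ctl p 1 (fun _ => 0) := by
  have h := Ctl_C (p := p) (κ := 1) (e0 := 0) (by simp)
  simpa using h

theorem Ctl_lin (i : ℕ) : Ctl p (X + C (i : ℚ)) (fun s => if i % p = s then 1 else 0) := by
  have hp0 := ppos (p := p)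
  have hp1 := pone (p := p)
  intro x
  constructor
  · rw [eval_add, eval_X, eval_C]
    refine (norm_int_le x i).trans (le_of_eq ?_)
    beta_reduce
    split_ifs
    · rw [zpow_neg, zpow_one]
    · rw [neg_zero, zpow_zero]
  · rw [derivative_add, derivative_X, derivative_C, add_zero, eval_one, padicNorm.one]
    apply one_le_zpow₀ hp1.le
    beta_reduce
    split_ifs <;> norm_num

theorem Ctl_prod {ι : Type*} (S : Finset ι) (F : ι → ℚ[X]) (g : ι → ℕ → ℤ)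
    (h : ∀ i ∈ S, Ctl p (F i) (g i)) : Ctl p (∏ i ∈ S, F i) (fun s => ∑ i ∈ S, g i s) := by
  classical
  induction S using Finset.induction_on with
  | empty => simpa using Ctl_one (p := p)
  | insert a S ha ih =>
    have h1 := (h a (mem_insert_self a S)).mul (ih (fun i hi => h i (mem_insert_of_mem hi)))
    rw [prod_insert ha]
    refine (congrArg (Ctl p (F a * ∏ i ∈ S, F i)) ?_).mp h1
    funext s
    rw [sum_insert ha]

theorem Ctl_block (S : Finset ℕ) : Ctl p (∏ i ∈ S, (X + C (i : ℚ))) (fun s => (cnt S p s : ℤ)) := by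
  have h := Ctl_prod (p := p) S (fun i : ℕ => (X + C (i : ℚ))) _ (fun i _ => Ctl_lin i)
  refine (congrArg (Ctl p _) ?_).mp h
  funext s
  unfold cnt
  rw [sum_ite, sum_const_zero, add_zero, sum_const, nsmul_eq_mul, mul_one]

theorem Ctl_numP {r : ℕ} (Zb : Fin r → Finset ℕ) :
    Ctl p (numP Zb) (fun s => ∑ b, (cnt (Zb b) p s : ℤ)) :=
  Ctl_prod univ _ _ (fun b _ => Ctl_block (Zb b))

theorem Ctl_nod (s : ℕ → ℕ) (hs : ∀ j, s j < p) (i : ℕ) :
    Ctl p (nod s i) (fun t => (uses s t i : ℤ)) := by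
  have h := Ctl_prod (p := p) (range i) (fun j : ℕ => (X + C (s j : ℚ))) _ (fun j _ => Ctl_lin (s j))
  refine (congrArg (Ctl p _) ?_).mp h
  funext t
  unfold uses
  rw [sum_ite, sum_const_zero, add_zero, sum_const, nsmul_eq_mul, mul_one]
  congr 2
  refine filter_congr (fun j _ => ?_)
  rw [Nat.mod_eq_of_lt (hs j)]

/-- zeros minus poles in a class, poles with multiplicity -/
def phi2 {r : ℕ} (Zb : Fin r → Finset ℕ) (K1 K2 : Finset ℕ) (p s : ℕ) : ℤ :=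
  ∑ b, (cnt (Zb b) p s : ℤ) - (cnt K1 p s : ℤ) - (cnt K2 p s : ℤ)

theorem dK_norm_mem (K : Finset ℕ) (k : ℕ) (hk : k ∈ K) (h2 : ∀ i ∈ K, i < p ^ 2) :
    padicNorm p (dK K k) = (p : ℚ) ^ (-((cnt K p (k % p) : ℤ) - 1)) :=
  D23.den_erase_norm K k hk h2

theorem dK_norm_not (K : Finset ℕ) (k : ℕ) (hk : k ∉ K) (hk2 : k < p ^ 2)
    (h2 : ∀ i ∈ K, i < p ^ 2) :
    padicNorm p (dK K k) = (p : ℚ) ^ (-(cnt K p (k % p) : ℤ)) := by
  unfold dK
  rw [erase_eq_of_notMem hk]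
  exact norm_prod p hp.out K k h2 hk2 hk

theorem lK_norm (K : Finset ℕ) (k : ℕ) (hk2 : k < p ^ 2) (h2 : ∀ i ∈ K, i < p ^ 2) :
    padicNorm p (lK K k) ≤ p := by
  unfold lK
  exact padicNorm.sum_le' (fun i hi => norm_sub_inv_le p i k hp.out
    (h2 i (mem_of_mem_erase hi)) hk2) (ppos (p := p)).le

variable (K1 K2 : Finset ℕ) (S : ℚ[X]) (f : ℕ → ℤ)

/-- double coefficient -/
theorem cA_norm (hK : K2 ⊆ K1) (hS : Ctl p S f) (h2 : ∀ i ∈ K1, i < p ^ 2) (k : ℕ) :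
    padicNorm p (cA S K1 K2 k) ≤
      (p : ℚ) ^ (-(f (k % p) - cnt K1 p (k % p) - cnt K2 p (k % p) + 2)) := by
  have hp0 := ppos (p := p)
  unfold cA
  split_ifs with hk
  · have h3 := (hS (-(k : ℤ))).1
    rw [cls_neg] at h3
    push_cast at h3
    rw [padicNorm.div, padicNorm.mul, dK_norm_mem K1 k (hK hk) h2,
      dK_norm_mem K2 k hk (fun i hi => h2 i (hK hi)), div_le_iff₀ (by positivity)]
    refine h3.trans (le_of_eq ?_)
    rw [← zpow_add₀ hp0.ne', ← zpow_add₀ hp0.ne']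
    congr 1
    ring
  · rw [padicNorm.zero]
    positivity

/-- simple coefficient -/
theorem cB_norm (hK : K2 ⊆ K1) (hS : Ctl p S f) (h2 : ∀ i ∈ K1, i < p ^ 2) (k : ℕ) (hk1 : k ∈ K1) :
    padicNorm p (cB S K1 K2 k) ≤
      (p : ℚ) ^ (-(f (k % p) - cnt K1 p (k % p) - cnt K2 p (k % p) + 1)) := by
  have hp0 := ppos (p := p)
  have h3 := hS (-(k : ℤ))
  rw [cls_neg] at h3
  push_cast at h3
  have h2' : ∀ i ∈ K2, i < p ^ 2 := fun i hi => h2 i (hK hi)
  unfold cB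
  split_ifs with hk
  · rw [padicNorm.div, padicNorm.mul, dK_norm_mem K1 k hk1 h2, dK_norm_mem K2 k hk h2',
      div_le_iff₀ (by positivity)]
    have h4 : padicNorm p (S.derivative.eval (-(k : ℚ)) - S.eval (-(k : ℚ)) * (lK K1 k + lK K2 k)) ≤
        (p : ℚ) ^ (1 - f (k % p)) := by
      refine padicNorm.sub.trans (max_le h3.2 ?_)
      rw [padicNorm.mul]
      have h5 : padicNorm p (lK K1 k + lK K2 k) ≤ p :=
        padicNorm.nonarchimedean.trans (max_le (lK_norm K1 k (h2 k hk1) h2)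
          (lK_norm K2 k (h2 k hk1) h2'))
      refine (mul_le_mul h3.1 h5 (padicNorm.nonneg _) (by positivity)).trans (le_of_eq ?_)
      rw [← zpow_add_one₀ hp0.ne']
      congr 1
      ring
    refine h4.trans (le_of_eq ?_)
    rw [← zpow_add₀ hp0.ne', ← zpow_add₀ hp0.ne']
    congr 1
    ring
  · rw [padicNorm.div, padicNorm.mul, dK_norm_mem K1 k hk1 h2,
      dK_norm_not K2 k hk (h2 k hk1) h2', div_le_iff₀ (by positivity)]
    refine h3.1.trans (le_of_eq ?_)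
    rw [← zpow_add₀ hp0.ne', ← zpow_add₀ hp0.ne']
    congr 1
    ring

/-- **Entry bound.** `W` is the weight of a class, `g` the control of the polynomial `G`. -/
theorem entry2 {r : ℕ} (Zb : Fin r → Finset ℕ) (κ : ℚ) (e0 : ℤ)
    (hκ : padicNorm p κ ≤ (p : ℚ) ^ (-e0)) (hK : K2 ⊆ K1) (h2 : ∀ i ∈ K1, i < p ^ 2)
    (G : ℚ[X]) (g : ℕ → ℤ) (hG : Ctl p G g) (v : ℕ) (T : Finset ℕ) (hT : ∀ k ∈ K1, k % p ∈ T)
    (W : ℕ → ℤ)
    (hW : ∀ k ∈ K1, -1 - e0 - phi2 Zb K1 K2 p (k % p) ≤ W (k % p) ∧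
      (p ≤ k - v → 1 - e0 - phi2 Zb K1 K2 p (k % p) ≤ W (k % p)))
    (B : ℤ) (hB : ∀ t ∈ T, W t - g t ≤ B) (a b : ℤ) :
    padicNorm p ((a : ℚ) * qL K1 K2 (C κ * numP Zb) G - (b : ℚ) * pL K1 K2 v (C κ * numP Zb) G) ≤
      (p : ℚ) ^ B := by
  have hp0 := ppos (p := p)
  have hp1 := pone (p := p)
  have hBn : (0 : ℚ) ≤ (p : ℚ) ^ B := by positivity
  have hS : Ctl p (G * (C κ * numP Zb)) (fun s => g s + (e0 + ∑ b, (cnt (Zb b) p s : ℤ))) :=
    hG.mul ((Ctl_C hκ).mul (Ctl_numP Zb))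
  have hA : ∀ k ∈ K1, padicNorm p (cA (G * (C κ * numP Zb)) K1 K2 k) ≤
      (p : ℚ) ^ (-(e0 + g (k % p) + phi2 Zb K1 K2 p (k % p) + 2)) := by
    intro k _
    refine (cA_norm K1 K2 _ _ hK hS h2 k).trans (le_of_eq ?_)
    congr 1
    unfold phi2
    ring
  have hBc : ∀ k ∈ K1, padicNorm p (cB (G * (C κ * numP Zb)) K1 K2 k) ≤
      (p : ℚ) ^ (-(e0 + g (k % p) + phi2 Zb K1 K2 p (k % p) + 1)) := by
    intro k hk
    refine (cB_norm K1 K2 _ _ hK hS h2 k hk).trans (le_of_eq ?_)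
    congr 1
    unfold phi2
    ring
  have hlt : ∀ k ∈ K1, k - v < p ^ 2 := fun k hk => (Nat.sub_le k v).trans_lt (h2 k hk)
  have two : padicNorm p 2 ≤ 1 := padicNorm_two_le p hp.out
  -- the two kinds of terms
  have tA : ∀ k ∈ K1, padicNorm p (2 * cA (G * (C κ * numP Zb)) K1 K2 k * H 3 (k - v)) ≤
      (p : ℚ) ^ B := by
    intro k hk
    rw [padicNorm.mul, padicNorm.mul]
    have hb := hB _ (hT k hk)
    obtain ⟨w1, w2⟩ := hW k hk
    have h1 : padicNorm p 2 * padicNorm p (cA (G * (C κ * numP Zb)) K1 K2 k) ≤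
        (p : ℚ) ^ (-(e0 + g (k % p) + phi2 Zb K1 K2 p (k % p) + 2)) := by
      refine (mul_le_mul two (hA k hk) (padicNorm.nonneg _) (by norm_num)).trans (le_of_eq ?_)
      rw [one_mul]
    rcases Nat.lt_or_ge (k - v) p with h | h
    · refine (mul_le_mul h1 (norm_H_small p 3 _ hp.out h) (padicNorm.nonneg _)
        (by positivity)).trans ?_
      rw [mul_one]
      exact zpow_le_zpow_right₀ hp1.le (by omega)
    · refine (mul_le_mul h1 (norm_H_le p 3 _ hp.out (hlt k hk)) (padicNorm.nonneg _)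
        (by positivity)).trans ?_
      rw [← zpow_natCast, ← zpow_add₀ hp0.ne']
      have := w2 h
      exact zpow_le_zpow_right₀ hp1.le (by push_cast; omega)
  have tB : ∀ k ∈ K1, padicNorm p (cB (G * (C κ * numP Zb)) K1 K2 k * H 2 (k - v)) ≤
      (p : ℚ) ^ B := by
    intro k hk
    rw [padicNorm.mul]
    have hb := hB _ (hT k hk)
    obtain ⟨w1, w2⟩ := hW k hk
    rcases Nat.lt_or_ge (k - v) p with h | h
    · refine (mul_le_mul (hBc k hk) (norm_H_small p 2 _ hp.out h) (padicNorm.nonneg _)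
        (by positivity)).trans ?_
      rw [mul_one]
      exact zpow_le_zpow_right₀ hp1.le (by omega)
    · refine (mul_le_mul (hBc k hk) (norm_H_le p 2 _ hp.out (hlt k hk)) (padicNorm.nonneg _)
        (by positivity)).trans ?_
      rw [← zpow_natCast, ← zpow_add₀ hp0.ne']
      have := w2 h
      exact zpow_le_zpow_right₀ hp1.le (by push_cast; omega)
  refine padicNorm.sub.trans (max_le ?_ ?_)
  · rw [qL_apply]
    apply D23.norm_intmul
    rw [padicNorm.mul]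
    have h1 : padicNorm p (∑ k ∈ K1, cA (G * (C κ * numP Zb)) K1 K2 k) ≤ (p : ℚ) ^ B := by
      refine padicNorm.sum_le' (fun k hk => (hA k hk).trans ?_) hBn
      have hb := hB _ (hT k hk)
      have w1 := (hW k hk).1
      exact zpow_le_zpow_right₀ hp1.le (by omega)
    refine (mul_le_mul two h1 (padicNorm.nonneg _) (by norm_num)).trans (le_of_eq ?_)
    rw [one_mul]
  · rw [pL_apply]
    apply D23.norm_intmul
    refine padicNorm.sum_le' (fun k hk => ?_) hBn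
    exact padicNorm.nonarchimedean.trans (max_le (tA k hk) (tB k hk))

/-- the rational functional with integers `a`, `b` -/
noncomputable def Lab (K1 K2 : Finset ℕ) (v : ℕ) (N : ℚ[X]) (a b : ℤ) : ℚ[X] →ₗ[ℚ] ℚ :=
  (a : ℚ) • qL K1 K2 N - (b : ℚ) • pL K1 K2 v N

theorem Lab_apply (v : ℕ) (N : ℚ[X]) (a b : ℤ) (P : ℚ[X]) :
    Lab K1 K2 v N a b P = (a : ℚ) * qL K1 K2 N P - (b : ℚ) * pL K1 K2 v N P := rfl

/-- **Determinant bound.** -/
theorem det2 {r : ℕ} (Zb : Fin r → Finset ℕ) (κ : ℚ) (e0 : ℤ)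
    (hκ : padicNorm p κ ≤ (p : ℚ) ^ (-e0)) (hK : K2 ⊆ K1) (h2 : ∀ i ∈ K1, i < p ^ 2)
    (v : ℕ) (T : Finset ℕ) (hTp : ∀ t ∈ T, t < p) (hT : ∀ k ∈ K1, k % p ∈ T) (W : ℕ → ℤ)
    (hW : ∀ k ∈ K1, -1 - e0 - phi2 Zb K1 K2 p (k % p) ≤ W (k % p) ∧
      (p ≤ k - v → 1 - e0 - phi2 Zb K1 K2 p (k % p) ≤ W (k % p)))
    (a b : ℤ) (M : ℕ) (lam : ℤ) :
    padicNorm p (gram (Lab K1 K2 v (C κ * numP Zb) a b) (fun i => X ^ i) M).det ≤
      (p : ℚ) ^ (lam * M + ∑ t ∈ T, ccost (W t - lam)) := by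
  refine D23.det_cap p _ W T hTp lam M ?_
  intro s hs i j _ _ B _ hB
  rw [Lab_apply]
  exact entry2 K1 K2 Zb κ e0 hκ hK h2 (nod s i * nod s j)
    (fun t => (uses s t i : ℤ) + uses s t j) ((Ctl_nod s hs i).mul (Ctl_nod s hs j)) v T hT W hW B
    (fun t ht => by have := hB t ht; omega) a b

end

end Pool.Agent.Z3D
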