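import Mathlib
import Pool.Agent.D23.Arch4
import Pool.Agent.D23.ArchPPG
import Pool.Agent.Z3D.ArchPoly
import Pool.Agent.Z3D.Dbl

/-!
# Pointwise domination for the family of the determinants for `ζ(3)`

zeros `[0,7n)`, `[n,6n)`, poles `[8n,20n)`, `[9n,19n)`, `n = 2N`, line `Re t = 1/2 - 2n`, weight
`|Γ(4n+1+2iy)|^2`, with an extra factor `|t + 16 n|^(2r)`, `r ≤ n`.
-/

open Finset Polynomial

namespace Pool.Agent.Z3D

open Pool.Agent.D23 (PP PP_pos PP_mul PP_upperG PP_lowerG line_zero line_shift ln wt wt_ge ln_re ln_im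
  prod_refl_half prod_shift_half prod_line_sq numP)
open Pool.Agent.Z3 (Ker)

/-! ### the inequality for one block -/

lemma exp_two_lt : Real.exp 2 < 7.3890561 := by
  have h1 := Real.exp_one_lt_d9
  have h2 : Real.exp 2 = (Real.exp 1) ^ 2 := by
    rw [← Real.exp_nat_mul]
    norm_num
  have h3 := Real.exp_pos 1
  rw [h2]
  nlinarith

lemma exp_two_gt : 7.38905 < Real.exp 2 := by
  have h1 := Real.exp_one_gt_d9
  have h2 : Real.exp 2 = (Real.exp 1) ^ 2 := by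
    rw [← Real.exp_nat_mul]
    norm_num
  rw [h2]
  nlinarith

/-- the numerator -/
noncomputable def numz (N z : ℝ) : ℝ :=
  (61 / 3 * N ^ 2 + z) ^ 2 * (91 / 3 * N ^ 2 + z) ^ 2 * (127 / 3 * N ^ 2 + z) ^ 2 *
    (169 / 3 * N ^ 2 + z) ^ 2 * (244 / 3 * N ^ 2 + z) ^ 2

/-- the denominator -/
noncomputable def denz (w z : ℝ) : ℝ :=
  (64 * w + z) ^ 2 * (1246.28 * w + z) ^ 2 * (2113.17 * w + z) ^ 12 * (3886.59 * w + z) ^ 12 *
    (6610.64 * w + z) ^ 16 * (9049.13 * w + z) ^ 2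

lemma fac_num (N z w x A A' : ℝ) (hw : w = N ^ 2 * Real.exp (-2)) (hx : z = w / 100 * x)
    (hA : 100 * A * 7.3890561 ≤ A') (hA0 : 0 ≤ A) : A * N ^ 2 + z ≤ w / 100 * (A' + x) := by
  have h1 : N ^ 2 = w * Real.exp 2 := by
    rw [hw, mul_assoc, ← Real.exp_add]
    norm_num
  have hw0 : 0 ≤ w := by rw [hw]; positivity
  have h2 : A * Real.exp 2 ≤ A' / 100 := by
    have := exp_two_lt
    nlinarith
  have h3 : w * (A * Real.exp 2) ≤ w * (A' / 100) := mul_le_mul_of_nonneg_left h2 hw0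
  rw [h1, hx]
  nlinarith

lemma numz_le (N z w x : ℝ) (hz : 0 ≤ z) (hw : w = N ^ 2 * Real.exp (-2)) (hx : z = w / 100 * x) :
    numz N z ≤ (w / 100) ^ 10 * ((15025 + x) ^ 2 * (22414 + x) ^ 2 * (31281 + x) ^ 2 * (41626 + x) ^ 2 *
      (60098 + x) ^ 2) := by
  have h1 := fac_num N z w x (61 / 3) 15025 hw hx (by norm_num) (by norm_num)
  have h2 := fac_num N z w x (91 / 3) 22414 hw hx (by norm_num) (by norm_num)
  have h3 := fac_num N z w x (127 / 3) 31281 hw hx (by norm_num) (by norm_num)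
  have h4 := fac_num N z w x (169 / 3) 41626 hw hx (by norm_num) (by norm_num)
  have h5 := fac_num N z w x (244 / 3) 60098 hw hx (by norm_num) (by norm_num)
  unfold numz
  calc (61 / 3 * N ^ 2 + z) ^ 2 * (91 / 3 * N ^ 2 + z) ^ 2 * (127 / 3 * N ^ 2 + z) ^ 2 *
    (169 / 3 * N ^ 2 + z) ^ 2 * (244 / 3 * N ^ 2 + z) ^ 2
      ≤ (w / 100 * (15025 + x)) ^ 2 * (w / 100 * (22414 + x)) ^ 2 * (w / 100 * (31281 + x)) ^ 2 *
        (w / 100 * (41626 + x)) ^ 2 * (w / 100 * (60098 + x)) ^ 2 := by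
        gcongr
    _ = _ := by ring

lemma denz_eq (z w x : ℝ) (hx : z = w / 100 * x) :
    denz w z = (w / 100) ^ 46 * ((6400 + x) ^ 2 * (124628 + x) ^ 2 * (211317 + x) ^ 12 *
      (388659 + x) ^ 12 * (661064 + x) ^ 16 * (904913 + x) ^ 2) := by
  have e : ∀ g g' : ℝ, g = g' / 100 → g * w + z = w / 100 * (g' + x) := by
    intro g g' h
    rw [h, hx]
    ring
  unfold denz
  rw [e 64 6400 (by norm_num), e 1246.28 124628 (by norm_num), e 2113.17 211317 (by norm_num),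
    e 3886.59 388659 (by norm_num), e 6610.64 661064 (by norm_num), e 9049.13 904913 (by norm_num)]
  ring

/-- the root of the constant -/
def kk : ℕ := 2 ^ 13 * 3 ^ 24 * 5 ^ 76

lemma base_a (N z w : ℝ) (hN : 0 < N) (hz : 0 ≤ z) (hw : w = N ^ 2 * Real.exp (-2)) :
    ((kk : ℝ) ^ 2 * w ^ 36) * numz N z ≤ denz w z := by
  have hw0 : 0 < w := by rw [hw]; positivity
  set x : ℝ := z / (w / 100) with hxd
  have hx : z = w / 100 * x := by
    rw [hxd]
    field_simp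
  have hx0 : 0 ≤ x := by positivity
  have h1 := numz_le N z w x hz hw hx
  rw [denz_eq z w x hx]
  have h2 := poly_a (x / 23500) (by positivity)
  have e : (23500 : ℝ) * (x / 23500) = x := by field_simp
  rw [e] at h2
  calc ((kk : ℝ) ^ 2 * w ^ 36) * numz N z
      ≤ ((kk : ℝ) ^ 2 * w ^ 36) * ((w / 100) ^ 10 * ((15025 + x) ^ 2 * (22414 + x) ^ 2 *
        (31281 + x) ^ 2 * (41626 + x) ^ 2 * (60098 + x) ^ 2)) :=
        mul_le_mul_of_nonneg_left h1 (by positivity)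
    _ = (w / 100) ^ 46 * (((kk : ℝ) ^ 2 * 100 ^ 36) * ((15025 + x) ^ 2 * (22414 + x) ^ 2 *
        (31281 + x) ^ 2 * (41626 + x) ^ 2 * (60098 + x) ^ 2)) := by ring
    _ ≤ _ := by
        apply mul_le_mul_of_nonneg_left _ (by positivity)
        refine le_trans (le_of_eq ?_) h2
        have ek : ((kk : ℝ) ^ 2 * 100 ^ 36) = 93765003222051200711911700855550874535361211851385702303592339686285576233482075281244760844856500625610351562500000000000000000000000000000000000000000000000000000000000000000000000000000000000000000000000000 := by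
          unfold kk
          norm_num
        rw [ek]

/-- the node factor -/
noncomputable def XX (N z : ℝ) : ℝ := (1 + z / (784 * N ^ 2)) / 1.046

lemma base_b (N z w : ℝ) (hN : 0 < N) (hz : 0 ≤ z) (hw : w = N ^ 2 * Real.exp (-2)) :
    ((kk : ℝ) ^ 2 * w ^ 36) * numz N z * XX N z ^ 4 ≤ denz w z := by
  have hw0 : 0 < w := by rw [hw]; positivity
  set x : ℝ := z / (w / 100) with hxd
  have hx : z = w / 100 * x := by
    rw [hxd]
    field_simp
  have hx0 : 0 ≤ x := by positivity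
  have h1 := numz_le N z w x hz hw hx
  rw [denz_eq z w x hx]
  have h2 := poly_b (x / 30000) (by positivity)
  have e : (30000 : ℝ) * (x / 30000) = x := by field_simp
  rw [e] at h2
  have hX0 : 0 ≤ XX N z := by
    unfold XX
    positivity
  have hX : XX N z ≤ (579300 + x) / (579300 * 1.046) := by
    unfold XX
    have h3 : z / (784 * N ^ 2) ≤ x / 579300 := by
      have h4 : N ^ 2 = w * Real.exp 2 := by
        rw [hw, mul_assoc, ← Real.exp_add]
        norm_num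
      rw [h4, div_le_div_iff₀ (by positivity) (by norm_num), hx]
      have h5 := exp_two_gt
      have h6 : (0 : ℝ) ≤ w * x := by positivity
      nlinarith
    rw [div_le_div_iff₀ (by norm_num) (by norm_num)]
    nlinarith
  have hnum0 : 0 ≤ numz N z := by
    unfold numz
    positivity
  have h4 : XX N z ^ 4 ≤ ((579300 + x) / (579300 * 1.046)) ^ 4 := pow_le_pow_left₀ hX0 hX 4
  have ek : ((kk : ℝ) ^ 2 * 100 ^ 36) = 93765003222051200711911700855550874535361211851385702303592339686285576233482075281244760844856500625610351562500000000000000000000000000000000000000000000000000000000000000000000000000000000000000000000000000 := by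
    unfold kk
    norm_num
  have h5 : ((kk : ℝ) ^ 2 * 100 ^ 36) * ((15025 + x) ^ 2 * (22414 + x) ^ 2 * (31281 + x) ^ 2 *
      (41626 + x) ^ 2 * (60098 + x) ^ 2) * ((579300 + x) / (579300 * 1.046)) ^ 4 ≤
      (6400 + x) ^ 2 * (124628 + x) ^ 2 * (211317 + x) ^ 12 * (388659 + x) ^ 12 *
      (661064 + x) ^ 16 * (904913 + x) ^ 2 := by
    rw [div_pow, ← mul_div_assoc, div_le_iff₀ (by norm_num), ek]
    refine le_of_mul_le_mul_right ?_ (show (0 : ℝ) < 500 ^ 4 by norm_num)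
    refine le_trans (le_of_eq ?_) (h2.trans (le_of_eq ?_))
    · ring
    · ring
  calc ((kk : ℝ) ^ 2 * w ^ 36) * numz N z * XX N z ^ 4
      ≤ ((kk : ℝ) ^ 2 * w ^ 36) * ((w / 100) ^ 10 * ((15025 + x) ^ 2 * (22414 + x) ^ 2 *
        (31281 + x) ^ 2 * (41626 + x) ^ 2 * (60098 + x) ^ 2)) *
        ((579300 + x) / (579300 * 1.046)) ^ 4 := by
        apply mul_le_mul (mul_le_mul_of_nonneg_left h1 (by positivity)) h4 (by positivity) (by positivity)
    _ = (w / 100) ^ 46 * (((kk : ℝ) ^ 2 * 100 ^ 36) * ((15025 + x) ^ 2 * (22414 + x) ^ 2 *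
        (31281 + x) ^ 2 * (41626 + x) ^ 2 * (60098 + x) ^ 2) *
        ((579300 + x) / (579300 * 1.046)) ^ 4) := by ring
    _ ≤ _ := mul_le_mul_of_nonneg_left h5 (by positivity)

/-! ### powers -/

/-- the remaining numerator blocks -/
noncomputable def PS (N : ℕ) (z : ℝ) : ℝ := PP (4 * N) (8 * N) z ^ 2 * PP (8 * N) (10 * N) z

/-- the remaining denominator blocks -/
noncomputable def PT (N : ℕ) (z : ℝ) : ℝ :=
  PP (2 * N) (4 * N) z * PP (12 * N) (14 * N) z * PP (14 * N) (34 * N) z ^ 2 * PP (34 * N) (36 * N) z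

lemma PS_le (N : ℕ) (hN : 1 ≤ N) (z : ℝ) (hz : 0 ≤ z) : PS N z ≤ numz N z ^ N := by
  have h1 := PP_upperG 4 5 N (by norm_num) hN z hz (61 / 3) (by norm_num)
  have h2 := PP_upperG 5 6 N (by norm_num) hN z hz (91 / 3) (by norm_num)
  have h3 := PP_upperG 6 7 N (by norm_num) hN z hz (127 / 3) (by norm_num)
  have h4 := PP_upperG 7 8 N (by norm_num) hN z hz (169 / 3) (by norm_num)
  have h5 := PP_upperG 8 10 N (by norm_num) hN z hz (244 / 3) (by norm_num)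
  have p1 := PP_pos (4 * N) (5 * N) hz
  have p2 := PP_pos (5 * N) (6 * N) hz
  have p3 := PP_pos (6 * N) (7 * N) hz
  have p4 := PP_pos (7 * N) (8 * N) hz
  have p5 := PP_pos (8 * N) (10 * N) hz
  have e : PP (4 * N) (8 * N) z = PP (4 * N) (5 * N) z * PP (5 * N) (6 * N) z * PP (6 * N) (7 * N) z *
      PP (7 * N) (8 * N) z := by
    rw [PP_mul (by omega) (by omega), PP_mul (by omega) (by omega), PP_mul (by omega) (by omega)]
  norm_num at h1 h2 h3 h4 h5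
  unfold PS numz
  rw [e]
  calc (PP (4 * N) (5 * N) z * PP (5 * N) (6 * N) z * PP (6 * N) (7 * N) z *
      PP (7 * N) (8 * N) z) ^ 2 * PP (8 * N) (10 * N) z
      ≤ ((61 / 3 * (N : ℝ) ^ 2 + z) ^ N * (91 / 3 * (N : ℝ) ^ 2 + z) ^ N *
        (127 / 3 * (N : ℝ) ^ 2 + z) ^ N * (169 / 3 * (N : ℝ) ^ 2 + z) ^ N) ^ 2 *
        (244 / 3 * (N : ℝ) ^ 2 + z) ^ (2 * N) := by
        gcongr
    _ = _ := by
        rw [pow_mul (244 / 3 * (N : ℝ) ^ 2 + z) 2 N, ← mul_pow, ← mul_pow, ← mul_pow, pow_right_comm,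
          ← mul_pow]
        ring

lemma PT_ge (N : ℕ) (hN : 1 ≤ N) (z w : ℝ) (hz : 0 ≤ z) (hw : w = (N : ℝ) ^ 2 * Real.exp (-2)) :
    denz w z ^ N ≤ 15 * PT N z := by
  have hN' : (0 : ℝ) < N := by exact_mod_cast hN
  have hw0 : 0 < w := by rw [hw]; positivity
  have h1 := PP_lowerG 2 4 N (by norm_num) (by norm_num) hN z hz 64 (by norm_num) (by norm_num)
  have h2 := PP_lowerG 12 14 N (by norm_num) (by norm_num) hN z hz 1246.28 (by norm_num) (by norm_num)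
  have h3 := PP_lowerG 14 20 N (by norm_num) (by norm_num) hN z hz 2113.17 (by norm_num) (by norm_num)
  have h4 := PP_lowerG 20 26 N (by norm_num) (by norm_num) hN z hz 3886.59 (by norm_num) (by norm_num)
  have h5 := PP_lowerG 26 34 N (by norm_num) (by norm_num) hN z hz 6610.64 (by norm_num) (by norm_num)
  have h6 := PP_lowerG 34 36 N (by norm_num) (by norm_num) hN z hz 9049.13 (by norm_num) (by norm_num)
  rw [← hw] at h1 h2 h3 h4 h5 h6
  have p1 := PP_pos (2 * N) (4 * N) hz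
  have p2 := PP_pos (12 * N) (14 * N) hz
  have p3 := PP_pos (14 * N) (20 * N) hz
  have p4 := PP_pos (20 * N) (26 * N) hz
  have p5 := PP_pos (26 * N) (34 * N) hz
  have p6 := PP_pos (34 * N) (36 * N) hz
  have e : PP (14 * N) (34 * N) z = PP (14 * N) (20 * N) z * PP (20 * N) (26 * N) z *
      PP (26 * N) (34 * N) z := by
    rw [PP_mul (by omega) (by omega), PP_mul (by omega) (by omega)]
  norm_num at h1 h2 h3 h4 h5 h6
  have q1 : (64 * w + z) ^ (2 * N) ≤ 2 * PP (2 * N) (4 * N) z := by linarith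
  have q2 : (31157 / 25 * w + z) ^ (2 * N) ≤ 7 / 6 * PP (12 * N) (14 * N) z := by linarith
  have q3 : (211317 / 100 * w + z) ^ (6 * N) ≤ 10 / 7 * PP (14 * N) (20 * N) z := by linarith
  have q4 : (388659 / 100 * w + z) ^ (6 * N) ≤ 13 / 10 * PP (20 * N) (26 * N) z := by linarith
  have q5 : (165266 / 25 * w + z) ^ (8 * N) ≤ 17 / 13 * PP (26 * N) (34 * N) z := by linarith
  have q6 : (904913 / 100 * w + z) ^ (2 * N) ≤ 18 / 17 * PP (34 * N) (36 * N) z := by linarith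
  have e2 : denz w z ^ N = (64 * w + z) ^ (2 * N) * (31157 / 25 * w + z) ^ (2 * N) *
      ((211317 / 100 * w + z) ^ (6 * N)) ^ 2 * ((388659 / 100 * w + z) ^ (6 * N)) ^ 2 *
      ((165266 / 25 * w + z) ^ (8 * N)) ^ 2 * (904913 / 100 * w + z) ^ (2 * N) := by
    unfold denz
    norm_num
    rw [mul_pow, mul_pow, mul_pow, mul_pow, mul_pow, ← pow_mul, ← pow_mul, ← pow_mul, ← pow_mul,
      ← pow_mul, ← pow_mul, ← pow_mul, ← pow_mul, ← pow_mul]
    ring
  rw [e2]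
  unfold PT
  rw [e]
  calc (64 * w + z) ^ (2 * N) * (31157 / 25 * w + z) ^ (2 * N) *
      ((211317 / 100 * w + z) ^ (6 * N)) ^ 2 * ((388659 / 100 * w + z) ^ (6 * N)) ^ 2 *
      ((165266 / 25 * w + z) ^ (8 * N)) ^ 2 * (904913 / 100 * w + z) ^ (2 * N)
      ≤ (2 * PP (2 * N) (4 * N) z) * (7 / 6 * PP (12 * N) (14 * N) z) *
        (10 / 7 * PP (14 * N) (20 * N) z) ^ 2 * (13 / 10 * PP (20 * N) (26 * N) z) ^ 2 *
        (17 / 13 * PP (26 * N) (34 * N) z) ^ 2 * (18 / 17 * PP (34 * N) (36 * N) z) := by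
        gcongr
    _ = (2 * (7 / 6) * (10 / 7) ^ 2 * (13 / 10) ^ 2 * (17 / 13) ^ 2 * (18 / 17)) *
        (PP (2 * N) (4 * N) z * PP (12 * N) (14 * N) z * (PP (14 * N) (20 * N) z *
        PP (20 * N) (26 * N) z * PP (26 * N) (34 * N) z) ^ 2 * PP (34 * N) (36 * N) z) := by ring
    _ ≤ _ := by
        apply mul_le_mul_of_nonneg_right _ (by positivity)
        norm_num

lemma XX_pos (N z : ℝ) (hz : 0 ≤ z) : 0 < XX N z := by
  unfold XX
  positivity

/-- the inequality for the products with the node factor -/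
lemma PS_PT (N : ℕ) (hN : 1 ≤ N) (r : ℕ) (hr : r ≤ 2 * N) (z w : ℝ) (hz : 0 ≤ z)
    (hw : w = (N : ℝ) ^ 2 * Real.exp (-2)) :
    ((kk : ℝ) ^ 2 * w ^ 36) ^ N * PS N z * XX N z ^ (2 * r) ≤ 15 * PT N z := by
  have hN' : (0 : ℝ) < N := by exact_mod_cast hN
  have hw0 : 0 < w := by rw [hw]; positivity
  have h1 := PS_le N hN z hz
  have h2 := PT_ge N hN z w hz hw
  have ha := base_a (N : ℝ) z w hN' hz hw
  have hb := base_b (N : ℝ) z w hN' hz hw
  have hX := XX_pos (N : ℝ) z hz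
  have hnum0 : 0 ≤ numz N z := by
    unfold numz
    positivity
  refine le_trans ?_ h2
  have h3 : ((kk : ℝ) ^ 2 * w ^ 36) ^ N * PS N z * XX N z ^ (2 * r) ≤
      (((kk : ℝ) ^ 2 * w ^ 36) * numz N z) ^ N * XX N z ^ (2 * r) := by
    rw [mul_pow (((kk : ℝ) ^ 2 * w ^ 36))]
    gcongr
  refine h3.trans ?_
  rcases le_total (XX N z) 1 with h | h
  · calc (((kk : ℝ) ^ 2 * w ^ 36) * numz N z) ^ N * XX N z ^ (2 * r)
        ≤ (((kk : ℝ) ^ 2 * w ^ 36) * numz N z) ^ N * 1 :=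
          mul_le_mul_of_nonneg_left (pow_le_one₀ hX.le h) (by positivity)
      _ ≤ denz w z ^ N := by
          rw [mul_one]
          exact pow_le_pow_left₀ (by positivity) ha N
  · calc (((kk : ℝ) ^ 2 * w ^ 36) * numz N z) ^ N * XX N z ^ (2 * r)
        ≤ (((kk : ℝ) ^ 2 * w ^ 36) * numz N z) ^ N * XX N z ^ (4 * N) :=
          mul_le_mul_of_nonneg_left (pow_le_pow_right₀ h (by omega)) (by positivity)
      _ = (((kk : ℝ) ^ 2 * w ^ 36) * numz N z * XX N z ^ 4) ^ N := by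
          rw [pow_mul, ← mul_pow]
      _ ≤ denz w z ^ N := pow_le_pow_left₀ (by positivity) hb N

/-! ### the line -/

lemma prod_left (n a : ℕ) (ha : a ≤ n) (z : ℝ) :
    ∏ i ∈ Ico (n - a) n, (((i : ℝ) + 1 / 2 - n) ^ 2 + z) = PP 0 a z := by
  rw [← prod_refl_half a z, ← range_eq_Ico, prod_Ico_eq_prod_range]
  have e : n - (n - a) = a := by omega
  rw [e]
  apply prod_congr rfl
  intro k _
  push_cast [Nat.cast_sub ha]
  ring

lemma line_left (n a b : ℕ) (ha : a ≤ n) (y : ℝ) :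
    ‖∏ i ∈ Ico (n - a) (n + b), (ln (1 - n) y + (i : ℂ))‖ ^ 2 = PP 0 a (y ^ 2) * PP 0 b (y ^ 2) := by
  rw [prod_line_sq, ← prod_Ico_consecutive _ (Nat.sub_le n a) (Nat.le_add_right n b), prod_left n a ha,
    ← prod_shift_half n 0 b, add_zero]

/-- squared modulus of the rational function on the line -/
lemma R2_line_sq (N : ℕ) (kap : ℚ) (y : ℝ) :
    ‖R2 (Ico (8 * (2 * N)) (20 * (2 * N))) (Ico (9 * (2 * N)) (19 * (2 * N)))
      (C kap * numP ![range (7 * (2 * N)), Ico (2 * N) (6 * (2 * N))])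
      (ln (1 - ((2 * (2 * N) : ℕ) : ℤ)) y)‖ ^ 2 * PT N (y ^ 2) =
      (kap : ℝ) ^ 2 * PP 0 (4 * N) (y ^ 2) ^ 4 * PS N (y ^ 2) := by
  set z : ℝ := y ^ 2 with hz
  have hz0 : 0 ≤ z := sq_nonneg y
  have e0 : 2 * (2 * N) = 4 * N := by ring
  have h1 : ∀ i : ℕ, aeval (ln (1 - ((4 * N : ℕ) : ℤ)) y) (X + C (i : ℚ) : ℚ[X]) =
      ln (1 - ((4 * N : ℕ) : ℤ)) y + (i : ℂ) := by
    intro i
    rw [map_add, aeval_X, aeval_C]
    simp
  have hnum : aeval (ln (1 - ((4 * N : ℕ) : ℤ)) y)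
      (C kap * numP ![range (7 * (2 * N)), Ico (2 * N) (6 * (2 * N))] : ℚ[X]) =
      (kap : ℂ) * ((∏ i ∈ Ico 0 (14 * N), (ln (1 - ((4 * N : ℕ) : ℤ)) y + (i : ℂ))) *
        ∏ i ∈ Ico (2 * N) (12 * N), (ln (1 - ((4 * N : ℕ) : ℤ)) y + (i : ℂ))) := by
    unfold numP
    rw [Fin.prod_univ_two]
    simp only [Matrix.cons_val_zero, Matrix.cons_val_one, map_mul, map_prod, h1]
    rw [aeval_C, ← range_eq_Ico, show 7 * (2 * N) = 14 * N by ring, show 6 * (2 * N) = 12 * N by ring]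
    rfl
  unfold R2
  rw [e0, hnum, show 8 * (2 * N) = 16 * N by ring, show 20 * (2 * N) = 40 * N by ring,
    show 9 * (2 * N) = 18 * N by ring, show 19 * (2 * N) = 38 * N by ring]
  have n1 : ‖∏ i ∈ Ico 0 (14 * N), (ln (1 - ((4 * N : ℕ) : ℤ)) y + (i : ℂ))‖ ^ 2 =
      PP 0 (4 * N) z * PP 0 (10 * N) z := by
    have h := line_zero (4 * N) (10 * N) y
    rwa [show 4 * N + 10 * N = 14 * N by ring] at h
  have n2 : ‖∏ i ∈ Ico (2 * N) (12 * N), (ln (1 - ((4 * N : ℕ) : ℤ)) y + (i : ℂ))‖ ^ 2 =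
      PP 0 (2 * N) z * PP 0 (8 * N) z := by
    have h := line_left (4 * N) (2 * N) (8 * N) (by omega) y
    rwa [show 4 * N + 8 * N = 12 * N by ring, show 4 * N - 2 * N = 2 * N by omega] at h
  have n3 : ‖∏ i ∈ Ico (16 * N) (40 * N), (ln (1 - ((4 * N : ℕ) : ℤ)) y + (i : ℂ))‖ ^ 2 =
      PP (12 * N) (36 * N) z := by
    have h := line_shift (4 * N) (12 * N) (36 * N) y
    rwa [show 4 * N + 12 * N = 16 * N by ring, show 4 * N + 36 * N = 40 * N by ring] at h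
  have n4 : ‖∏ i ∈ Ico (18 * N) (38 * N), (ln (1 - ((4 * N : ℕ) : ℤ)) y + (i : ℂ))‖ ^ 2 =
      PP (14 * N) (34 * N) z := by
    have h := line_shift (4 * N) (14 * N) (34 * N) y
    rwa [show 4 * N + 14 * N = 18 * N by ring, show 4 * N + 34 * N = 38 * N by ring] at h
  have hk : ‖(kap : ℂ)‖ ^ 2 = (kap : ℝ) ^ 2 := by
    have : (kap : ℂ) = ((kap : ℝ) : ℂ) := by push_cast; rfl
    rw [this, Complex.norm_real, Real.norm_eq_abs, sq_abs]
  rw [norm_div, norm_mul, norm_mul, norm_mul, div_pow, mul_pow, mul_pow, mul_pow, n1, n2, n3, n4, hk]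
  have q1 : PP 0 (10 * N) z = PP 0 (4 * N) z * PP (4 * N) (8 * N) z * PP (8 * N) (10 * N) z := by
    rw [PP_mul (by omega) (by omega), PP_mul (by omega) (by omega)]
  have q2 : PP 0 (8 * N) z = PP 0 (4 * N) z * PP (4 * N) (8 * N) z := by
    rw [PP_mul (by omega) (by omega)]
  have q3 : PP 0 (4 * N) z = PP 0 (2 * N) z * PP (2 * N) (4 * N) z := by
    rw [PP_mul (by omega) (by omega)]
  have q4 : PP (12 * N) (36 * N) z = PP (12 * N) (14 * N) z * PP (14 * N) (34 * N) z *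
      PP (34 * N) (36 * N) z := by
    rw [PP_mul (by omega) (by omega), PP_mul (by omega) (by omega)]
  have p1 := PP_pos (12 * N) (14 * N) hz0
  have p2 := PP_pos (14 * N) (34 * N) hz0
  have p3 := PP_pos (34 * N) (36 * N) hz0
  rw [q1, q2, q4, q3]
  unfold PT PS
  field_simp

/-- the constant -/
noncomputable def BN (kap : ℝ) (N : ℕ) : ℝ :=
  kap / ((kk : ℝ) ^ N * ((N : ℝ) ^ 2 * Real.exp (-2)) ^ (18 * N) * 4 ^ (8 * N))

lemma node_norm (N : ℕ) (y : ℝ) :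
    ‖ln (1 - ((2 * (2 * N) : ℕ) : ℤ)) y + 16 * ((2 * N : ℕ) : ℂ)‖ ^ 2 = (28 * N + 1 / 2) ^ 2 + y ^ 2 := by
  rw [← Complex.normSq_eq_norm_sq, Complex.normSq_apply]
  have h1 : (ln (1 - ((2 * (2 * N) : ℕ) : ℤ)) y + 16 * ((2 * N : ℕ) : ℂ)).re = 28 * N + 1 / 2 := by
    rw [Complex.add_re, ln_re]
    simp
    ring
  have h2 : (ln (1 - ((2 * (2 * N) : ℕ) : ℤ)) y + 16 * ((2 * N : ℕ) : ℂ)).im = y := by
    rw [Complex.add_im, ln_im]
    simp
  rw [h1, h2]
  ring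

lemma node_le (N : ℕ) (hN : 1 ≤ N) (z : ℝ) (hz : 0 ≤ z) :
    (28 * (N : ℝ) + 1 / 2) ^ 2 + z ≤ (1 + 1 / (56 * (N : ℝ))) ^ 2 * (784 * (N : ℝ) ^ 2 * 1.046) * XX N z := by
  have hN' : (1 : ℝ) ≤ N := by exact_mod_cast hN
  unfold XX
  have e : (1 + 1 / (56 * (N : ℝ))) ^ 2 * (784 * (N : ℝ) ^ 2 * 1.046) * ((1 + z / (784 * (N : ℝ) ^ 2)) / 1.046) =
      (28 * (N : ℝ) + 1 / 2) ^ 2 + (1 + 1 / (56 * (N : ℝ))) ^ 2 * z := by
    field_simp
    ring
  rw [e]
  have h1 : 1 ≤ (1 + 1 / (56 * (N : ℝ))) ^ 2 := by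
    have : 0 ≤ 1 / (56 * (N : ℝ)) := by positivity
    nlinarith
  nlinarith

/-- domination -/
theorem dom3 (N r : ℕ) (hN : 1 ≤ N) (hr : r ≤ 2 * N) (kap : ℚ) (hk : 0 < kap) (y : ℝ) :
    ‖R2 (Ico (8 * (2 * N)) (20 * (2 * N))) (Ico (9 * (2 * N)) (19 * (2 * N)))
      (C kap * numP ![range (7 * (2 * N)), Ico (2 * N) (6 * (2 * N))])
      (ln (1 - ((2 * (2 * N) : ℕ) : ℤ)) y)‖ * Ker y *
      ‖ln (1 - ((2 * (2 * N) : ℕ) : ℤ)) y + 16 * ((2 * N : ℕ) : ℂ)‖ ^ (2 * r) ≤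
      10 * BN kap N * (784 * (N : ℝ) ^ 2 * 1.046) ^ r * wt (4 * (2 * N)) y := by
  have hN' : (1 : ℝ) ≤ N := by exact_mod_cast hN
  have hk' : (0 : ℝ) < (kap : ℝ) := by exact_mod_cast hk
  set V : ℝ := ‖R2 (Ico (8 * (2 * N)) (20 * (2 * N))) (Ico (9 * (2 * N)) (19 * (2 * N)))
      (C kap * numP ![range (7 * (2 * N)), Ico (2 * N) (6 * (2 * N))])
      (ln (1 - ((2 * (2 * N) : ℕ) : ℤ)) y)‖ with hV
  have hV0 : 0 ≤ V := norm_nonneg _
  set z : ℝ := y ^ 2 with hz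
  have hz0 : 0 ≤ z := sq_nonneg y
  have hsq := R2_line_sq N kap y
  rw [← hV, ← hz] at hsq
  have hnode := node_norm N y
  rw [← hz] at hnode
  have hnl := node_le N hN z hz0
  set w : ℝ := (N : ℝ) ^ 2 * Real.exp (-2) with hw
  have hw0 : 0 < w := by positivity
  have hPP := PS_PT N hN r hr z w hz0 hw
  set a : ℝ := PP 0 (4 * N) z with ha
  have ha0 : 0 < a := PP_pos _ _ hz0
  have hT0 : 0 < PT N z := by
    unfold PT
    have p1 := PP_pos (2 * N) (4 * N) hz0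
    have p2 := PP_pos (12 * N) (14 * N) hz0
    have p3 := PP_pos (14 * N) (34 * N) hz0
    have p4 := PP_pos (34 * N) (36 * N) hz0
    positivity
  have hS0 : 0 < PS N z := by
    unfold PS
    have p1 := PP_pos (4 * N) (8 * N) hz0
    have p2 := PP_pos (8 * N) (10 * N) hz0
    positivity
  have hX := XX_pos (N : ℝ) z hz0
  set Y : ℝ := (28 * (N : ℝ) + 1 / 2) ^ 2 + z with hY
  have hY0 : 0 < Y := by positivity
  have hkk : (0 : ℝ) < (kk : ℝ) := by
    unfold kk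
    positivity
  set K : ℝ := ((kk : ℝ) ^ 2 * w ^ 36) ^ N with hK
  have hK0 : 0 < K := by positivity
  set W : ℝ := 784 * (N : ℝ) ^ 2 * 1.046 with hW
  have hW0 : 0 < W := by positivity
  have hone : ((1 + 1 / (56 * (N : ℝ))) ^ 2) ^ (2 * r) ≤ 2 := by
    have h1 : (1 + 1 / (56 * (N : ℝ))) ≤ Real.exp (1 / (56 * (N : ℝ))) := by
      have := Real.add_one_le_exp (1 / (56 * (N : ℝ)))
      linarith
    have h2 : 1 ≤ (1 + 1 / (56 * (N : ℝ))) := by
      have : 0 ≤ 1 / (56 * (N : ℝ)) := by positivity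
      linarith
    calc ((1 + 1 / (56 * (N : ℝ))) ^ 2) ^ (2 * r) = (1 + 1 / (56 * (N : ℝ))) ^ (2 * (2 * r)) := by
          rw [← pow_mul]
      _ ≤ (1 + 1 / (56 * (N : ℝ))) ^ (8 * N) := pow_le_pow_right₀ h2 (by omega)
      _ ≤ (Real.exp (1 / (56 * (N : ℝ)))) ^ (8 * N) := pow_le_pow_left₀ (by positivity) h1 _
      _ = Real.exp (1 / 7) := by
          rw [← Real.exp_nat_mul]
          congr 1
          push_cast
          field_simp
          norm_num
      _ ≤ 2 := by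
          have h3 := Real.exp_one_lt_d9
          have h4 : Real.exp (1 / 7) ^ 7 ≤ 2 ^ 7 := by
            rw [← Real.exp_nat_mul]
            norm_num
            linarith
          exact (pow_le_pow_iff_left₀ (Real.exp_pos _).le (by norm_num) (by norm_num)).mp h4
  have hsquare : (V * Y ^ r) ^ 2 * K ≤ (6 * (kap : ℝ) * a ^ 2 * W ^ r) ^ 2 := by
    refine le_of_mul_le_mul_right ?_ hT0
    have h1 : Y ^ (2 * r) ≤ 2 * W ^ (2 * r) * XX N z ^ (2 * r) := by
      calc Y ^ (2 * r) ≤ ((1 + 1 / (56 * (N : ℝ))) ^ 2 * W * XX N z) ^ (2 * r) :=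
            pow_le_pow_left₀ hY0.le hnl _
        _ = ((1 + 1 / (56 * (N : ℝ))) ^ 2) ^ (2 * r) * W ^ (2 * r) * XX N z ^ (2 * r) := by
            rw [mul_pow, mul_pow]
        _ ≤ 2 * W ^ (2 * r) * XX N z ^ (2 * r) := by
            gcongr
    calc (V * Y ^ r) ^ 2 * K * PT N z = (V ^ 2 * PT N z) * K * Y ^ (2 * r) := by ring
      _ = ((kap : ℝ) ^ 2 * a ^ 4 * PS N z) * K * Y ^ (2 * r) := by rw [hsq]
      _ ≤ ((kap : ℝ) ^ 2 * a ^ 4 * PS N z) * K * (2 * W ^ (2 * r) * XX N z ^ (2 * r)) :=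
          mul_le_mul_of_nonneg_left h1 (by positivity)
      _ = 2 * (kap : ℝ) ^ 2 * a ^ 4 * W ^ (2 * r) * (K * PS N z * XX N z ^ (2 * r)) := by ring
      _ ≤ 2 * (kap : ℝ) ^ 2 * a ^ 4 * W ^ (2 * r) * (15 * PT N z) :=
          mul_le_mul_of_nonneg_left hPP (by positivity)
      _ = 30 * ((kap : ℝ) ^ 2 * a ^ 4 * W ^ (2 * r)) * PT N z := by ring
      _ ≤ 36 * ((kap : ℝ) ^ 2 * a ^ 4 * W ^ (2 * r)) * PT N z := by
          gcongr
          norm_num
      _ = (6 * (kap : ℝ) * a ^ 2 * W ^ r) ^ 2 * PT N z := by ring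
  have hKs : K = ((kk : ℝ) ^ N * w ^ (18 * N)) ^ 2 := by
    have e7 : ∀ A B : ℝ, (A ^ 2 * B ^ 36) ^ N = (A ^ N * B ^ (18 * N)) ^ 2 := by
      intro A B
      rw [mul_pow, mul_pow, ← pow_mul, ← pow_mul, ← pow_mul, ← pow_mul]
      congr 2 <;> ring
    rw [hK, e7]
  set k2 : ℝ := (kk : ℝ) ^ N * w ^ (18 * N) with hk2
  have hk20 : 0 < k2 := by positivity
  have hmain : V * Y ^ r * k2 ≤ 6 * (kap : ℝ) * a ^ 2 * W ^ r := by
    refine (pow_le_pow_iff_left₀ (by positivity) (by positivity) two_ne_zero).mp ?_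
    rw [mul_pow, ← hKs]
    exact hsquare
  have hwt := wt_ge (4 * N) y
  rw [← hz, ← ha, show 2 * (4 * N) = 8 * N by ring] at hwt
  have hc : 0 < Real.cosh (Real.pi * y) ^ 2 := by positivity
  have hYr : ‖ln (1 - ((2 * (2 * N) : ℕ) : ℤ)) y + 16 * ((2 * N : ℕ) : ℂ)‖ ^ (2 * r) = Y ^ r := by
    rw [pow_mul, hnode]
  rw [hYr, show 4 * (2 * N) = 8 * N by ring]
  have hpi : Real.pi ≤ 3.15 := Real.pi_lt_d2.le
  have hpi0 := Real.pi_pos
  have h5 : V * Y ^ r ≤ 6 * (kap : ℝ) * a ^ 2 * W ^ r / k2 := by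
    rw [le_div_iff₀ hk20]
    exact hmain
  calc V * Ker y * Y ^ r = (V * Y ^ r) * (Real.pi / (2 * Real.cosh (Real.pi * y) ^ 2)) := by
        unfold Ker
        ring
    _ ≤ (6 * (kap : ℝ) * a ^ 2 * W ^ r / k2) * (Real.pi / (2 * Real.cosh (Real.pi * y) ^ 2)) := by
        gcongr
    _ = (3 * Real.pi) * ((kap : ℝ) / (k2 * 4 ^ (8 * N))) * W ^ r *
        (4 ^ (8 * N) * a ^ 2 / Real.cosh (Real.pi * y) ^ 2) := by
        field_simp
        ring
    _ ≤ 10 * ((kap : ℝ) / (k2 * 4 ^ (8 * N))) * W ^ r *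
        (4 ^ (8 * N) * a ^ 2 / Real.cosh (Real.pi * y) ^ 2) := by
        gcongr
        linarith
    _ ≤ 10 * ((kap : ℝ) / (k2 * 4 ^ (8 * N))) * W ^ r * wt (8 * N) y :=
        mul_le_mul_of_nonneg_left hwt (by positivity)
    _ = 10 * BN kap N * W ^ r * wt (8 * N) y := by
        unfold BN
        rw [hk2]

end Pool.Agent.Z3D
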