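import Pool.Agent.D23.CellList

/-!
# Checked cells for families with double poles

The cost of a class `s` at the level `lam` is `0` if the class contains no pole, or if it contains
a single pole, which is not far, and `-e0 ≤ lam`; otherwise `ccost (w - lam)` with the weight
`w = 1 - e0 - phi` if the class contains a far pole and `w = -1 - e0 - phi` if not.
-/

set_option autoImplicit false

open Finset

namespace Pool.Agent.Z3D.DCell

open Pool.Agent.D23 (ival)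
open Pool.Agent.D23.Cell

/-- parameters: zero blocks, pole blocks (all of them, with multiplicity), the block `ub` that
contains all the poles, the block `tb` of the far poles, `κ = ∏ (kn n)! / ∏ (kd n)!`, `M` near
`th n` -/
structure Par where
  zb : List ((ℕ × ℕ) × (ℕ × ℕ))
  pb : List ((ℕ × ℕ) × (ℕ × ℕ))
  ub : (ℕ × ℕ) × (ℕ × ℕ)
  tb : (ℕ × ℕ) × (ℕ × ℕ)
  kn : List ℕ
  kd : List ℕ
  th : ℤ

/-- zeros minus poles in the class `s` -/
def Par.phi (Q : Par) (n p s : ℕ) : ℤ :=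
  (Q.zb.map (bc n p s)).sum - (Q.pb.map (bc n p s)).sum

/-- the valuation of `κ` -/
def Par.e0 (Q : Par) (n p : ℕ) : ℤ :=
  (Q.kn.map (fun k => ((k * n / p : ℕ) : ℤ))).sum - (Q.kd.map (fun k => ((k * n / p : ℕ) : ℤ))).sum

/-- the cost of the class `s` at the level `lam` -/
def Par.cst (Q : Par) (n p : ℕ) (lam : ℤ) (s : ℕ) : ℤ :=
  if bc n p s Q.ub = 0 then 0
  else if bc n p s Q.tb = 0 then
    (if bc n p s Q.ub = 1 ∧ -Q.e0 n p ≤ lam then 0
      else ccost (-1 - Q.e0 n p - Q.phi n p s - lam))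
  else ccost (1 - Q.e0 n p - Q.phi n p s - lam)

/-- an arc of classes with certificates: `t0`: no pole, `t1`: at most one pole, `tp`: no far pole -/
structure Arc where
  u : ℤ
  v : ℤ
  zc : List (ℤ × ℤ)
  pc : List (ℤ × ℤ)
  t0 : Option ℤ
  t1 : Option ℤ
  tp : Option ℤ

/-- optional certificate -/
def ochk (c : Box) (l1 l2 u v : ℤ) (b : (ℕ × ℕ) × (ℕ × ℕ)) (k : ℤ) : Option ℤ → Bool
  | none => true
  | some m => pchk c l1 l2 u v b (m, k)

/-- check of the arcs from the lower end `(l1, l2)` on -/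
def chk (Q : Par) (c : Box) : ℤ → ℤ → List Arc → Bool
  | l1, l2, [] => decide (l1 = 0) && decide (l2 = 1)
  | l1, l2, a :: l => c.nn (a.u - l1) (a.v - l2) &&
      allchk (zchk c l1 l2 a.u a.v) Q.zb a.zc && allchk (pchk c l1 l2 a.u a.v) Q.pb a.pc &&
      ochk c l1 l2 a.u a.v Q.ub 0 a.t0 && ochk c l1 l2 a.u a.v Q.ub 1 a.t1 &&
      ochk c l1 l2 a.u a.v Q.tb 0 a.tp && chk Q c a.u a.v l

/-- lower bound for `phi` on the arc -/
def Arc.low (a : Arc) : ℤ := (a.zc.map Prod.snd).sum - (a.pc.map Prod.snd).sum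

/-- coefficient of `n` of the total -/
def totn (g : Arc → ℤ) : ℤ → List Arc → ℤ
  | _, [] => 0
  | l1, a :: l => (a.u - l1) * g a + totn g a.u l

/-- coefficient of `p` of the total -/
def totp (g : Arc → ℤ) : ℤ → List Arc → ℤ
  | _, [] => 0
  | l2, a :: l => (a.v - l2) * g a + totp g a.v l

/-- the cost of an arc -/
def Arc.g (e lam : ℤ) (a : Arc) : ℤ :=
  if a.t0.isSome then 0
  else if a.tp.isSome then
    (if a.t1.isSome ∧ -e ≤ lam then 0 else ccost (-1 - e - a.low - lam))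
  else ccost (1 - e - a.low - lam)

section
variable {Q : Par} {c : Box} {n p : ℕ}

theorem bc_nonneg (n p s : ℕ) (b : (ℕ × ℕ) × (ℕ × ℕ)) : 0 ≤ bc n p s b := Int.natCast_nonneg _

theorem ochk_sound (h : c.In n p) (hp : 0 < p) {l1 l2 u v : ℤ} {s : ℕ} (hs : s < p)
    (hlo : l1 * n + l2 * p ≤ s) (hup : (s : ℤ) < u * n + v * p) {b : (ℕ × ℕ) × (ℕ × ℕ)} {k : ℤ}
    {o : Option ℤ} (ho : o.isSome) (hc : ochk c l1 l2 u v b k o = true) : bc n p s b ≤ k := by
  obtain ⟨m, rfl⟩ := Option.isSome_iff_exists.1 ho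
  simp only [ochk, pchk, Bool.and_eq_true, decide_eq_true_eq] at hc
  have h1 := Box.nn_sound h hc.1.2
  have h2 := Box.nn_sound h hc.2
  refine icnt_le _ _ hp hs m k hc.1.1 ?_ ?_
  · rw [nf_cast]
    linarith
  · rw [nf_cast]
    linarith

theorem chk_le (h : c.In n p) : ∀ (l : List Arc) (l1 l2 : ℤ), chk Q c l1 l2 l = true →
    l1 * n + l2 * p ≤ p
  | [], l1, l2, hc => by
    simp only [chk, Bool.and_eq_true, decide_eq_true_eq] at hc
    rw [hc.1, hc.2]
    simp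
  | a :: l, l1, l2, hc => by
    simp only [chk, Bool.and_eq_true] at hc
    have h1 := Box.nn_sound h hc.1.1.1.1.1.1
    have h2 := chk_le h l a.u a.v hc.2
    linarith

theorem cst_le {lam e : ℤ} (he : e ≤ Q.e0 n p) (a : Arc) (s : ℕ) (h1 : a.low ≤ Q.phi n p s)
    (h2 : a.t0.isSome → bc n p s Q.ub = 0) (h3 : a.t1.isSome → bc n p s Q.ub ≤ 1)
    (h4 : a.tp.isSome → bc n p s Q.tb = 0) : Q.cst n p lam s ≤ a.g e lam := by
  have hnn := bc_nonneg n p s Q.ub
  unfold Par.cst Arc.g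
  by_cases h5 : a.t0.isSome
  · rw [if_pos (h2 h5), if_pos h5]
  rw [if_neg h5]
  by_cases h6 : bc n p s Q.ub = 0
  · rw [if_pos h6]
    split_ifs
    · exact le_rfl
    · exact ccost_nonneg _
    · exact ccost_nonneg _
  rw [if_neg h6]
  by_cases h7 : a.tp.isSome
  · rw [if_pos (h4 h7), if_pos h7]
    by_cases h8 : (a.t1.isSome : Prop) ∧ -e ≤ lam
    · rw [if_pos h8, if_pos]
      have h9 := h3 h8.1
      exact ⟨by omega, by linarith [h8.2]⟩
    · rw [if_neg h8]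
      split_ifs
      · exact ccost_nonneg _
      · exact ccost_mono (by linarith)
  · rw [if_neg h7]
    split_ifs
    · exact ccost_nonneg _
    · exact ccost_mono (by linarith)
    · exact ccost_mono (by linarith)

/-- **Sum over all classes.** -/
theorem sum_le_tot (h : c.In n p) (hp : 0 < p) {lam e : ℤ} (he : e ≤ Q.e0 n p) :
    ∀ (l : List Arc) (l1 l2 : ℤ), chk Q c l1 l2 l = true → 0 ≤ l1 * n + l2 * p →
      ∑ s ∈ Ico (l1 * n + l2 * p).toNat p, Q.cst n p lam s ≤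
        totn (Arc.g e lam) l1 l * n + totp (Arc.g e lam) l2 l * p
  | [], l1, l2, hc, _ => by
    simp only [chk, Bool.and_eq_true, decide_eq_true_eq] at hc
    rw [hc.1, hc.2]
    simp [totn, totp]
  | a :: l, l1, l2, hc, hnn => by
    simp only [chk, Bool.and_eq_true] at hc
    obtain ⟨⟨⟨⟨⟨⟨hc1, hc2⟩, hc3⟩, hc4⟩, hc5⟩, hc6⟩, hc7⟩ := hc
    have h1 := Box.nn_sound h hc1
    have hup : 0 ≤ a.u * (n : ℤ) + a.v * p := by linarith
    have hle := chk_le h l a.u a.v hc7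
    have ih := sum_le_tot (lam := lam) h hp he l a.u a.v hc7 hup
    set x := (l1 * (n : ℤ) + l2 * p).toNat with hx
    set y := (a.u * (n : ℤ) + a.v * p).toNat with hy
    have hxz : (x : ℤ) = l1 * (n : ℤ) + l2 * p := Int.toNat_of_nonneg hnn
    have hyz : (y : ℤ) = a.u * (n : ℤ) + a.v * p := Int.toNat_of_nonneg hup
    have hxy : x ≤ y := by
      have : (x : ℤ) ≤ y := by rw [hxz, hyz]; linarith
      exact_mod_cast this
    have hyp : y ≤ p := by
      have : (y : ℤ) ≤ p := by rw [hyz]; exact hle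
      exact_mod_cast this
    rw [← sum_Ico_consecutive _ hxy hyp]
    have h2 : ∑ s ∈ Ico x y, Q.cst n p lam s ≤ ∑ _s ∈ Ico x y, a.g e lam := by
      refine sum_le_sum fun s hs => ?_
      rw [mem_Ico] at hs
      have hs1 : l1 * (n : ℤ) + l2 * p ≤ s := by
        rw [← hxz]
        exact_mod_cast hs.1
      have hs2 : (s : ℤ) < a.u * (n : ℤ) + a.v * p := by
        rw [← hyz]
        exact_mod_cast hs.2
      have hsp : s < p := by omega
      have h3 := zall_sound h hp hsp hs1 hs2 Q.zb a.zc hc2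
      have h4 := pall_sound h hp hsp hs1 hs2 Q.pb a.pc hc3
      refine cst_le he a s (by unfold Arc.low Par.phi; linarith) (fun h5 => ?_) (fun h5 => ?_)
        (fun h5 => ?_)
      · exact le_antisymm (ochk_sound h hp hsp hs1 hs2 h5 hc4) (bc_nonneg n p s Q.ub)
      · exact ochk_sound h hp hsp hs1 hs2 h5 hc5
      · exact le_antisymm (ochk_sound h hp hsp hs1 hs2 h5 hc6) (bc_nonneg n p s Q.tb)
    rw [sum_const, Nat.card_Ico, nsmul_eq_mul, Nat.cast_sub hxy, hxz, hyz] at h2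
    simp only [totn, totp]
    linarith

end

/-- check of `f ≤ ⌊k n / p⌋` -/
def lchk (c : Box) : List ℕ → List ℤ → Bool
  | [], [] => true
  | k :: ks, f :: fs => c.nn k (-f) && lchk c ks fs
  | _, _ => false

theorem lchk_sound {c : Box} {n p : ℕ} (h : c.In n p) (hp : 0 < p) :
    ∀ (ks : List ℕ) (fs : List ℤ), lchk c ks fs = true →
      fs.sum ≤ (ks.map (fun k => ((k * n / p : ℕ) : ℤ))).sum
  | [], [], _ => by simp
  | [], _ :: _, hc => by simp [lchk] at hc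
  | _ :: _, [], hc => by simp [lchk] at hc
  | k :: ks, f :: fs, hc => by
    simp only [lchk, Bool.and_eq_true] at hc
    have h1 := Box.nn_sound h hc.1
    have ih := lchk_sound h hp ks fs hc.2
    simp only [List.map_cons, List.sum_cons]
    refine add_le_add ?_ ih
    have hp' : (0 : ℤ) < p := by exact_mod_cast hp
    have h4 : (k : ℤ) * n < (((k * n / p : ℕ) : ℤ) + 1) * p := by
      have h9 : k * n < (k * n / p + 1) * p := by
        have := Nat.lt_mul_div_succ (k * n) hp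
        rwa [mul_comm p] at this
      exact_mod_cast h9
    by_contra hcon
    push Not at hcon
    have h5 : (((k * n / p : ℕ) : ℤ) + 1) * p ≤ f * p :=
      mul_le_mul_of_nonneg_right (by omega) hp'.le
    linarith

/-- a cell with its data -/
structure Rec where
  c : Box
  lam : ℤ
  J : ℤ
  e0 : ℤ
  en : List ℤ
  ed : List ℤ
  arcs : List Arc
  al : ℤ
  be : ℤ

/-- **Check of a cell**; `|M - th n| ≤ d`, `G` is the allowed constant. -/
def Rec.chk (Q : Par) (d G : ℤ) (r : Rec) : Bool :=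
  decide (0 < r.c.a2 * r.c.b1 - r.c.a1 * r.c.b2) && decide (0 < r.c.a1) && decide (0 < r.c.b1) &&
  decide (0 < r.c.a2) && decide (0 < r.c.b2) && r.c.nn r.al r.be &&
  r.c.nn Q.th (-r.J) && r.c.po (-Q.th) (r.J + 1) &&
  lchk r.c Q.kn r.en && fchk r.c Q.kd r.ed && decide (r.e0 ≤ r.en.sum - r.ed.sum) &&
  DCell.chk Q r.c 0 0 r.arcs &&
  r.c.nn (r.al - ((r.lam + 2 * r.J) * Q.th + totn (Arc.g r.e0 r.lam) 0 r.arcs))
    (r.be - (totp (Arc.g r.e0 r.lam) 0 r.arcs - r.J * (r.J + 1))) &&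
  decide (|r.lam + 2 * r.J| * d + 2 * d ≤ G)

/-- `Ok T`: the cost of the prime `p` is at most `T` -/
structure Costs (Q : Par) (n p M : ℕ) (Ok : ℤ → Prop) : Prop where
  mono : ∀ S T : ℤ, S ≤ T → Ok S → Ok T
  lin : ∀ lam : ℤ, Ok (lam * M + ∑ s ∈ range p, Q.cst n p lam s + nrm M p)

theorem Rec.sound {Q : Par} {d G : ℤ} {r : Rec} (hr : r.chk Q d G = true) {n p M : ℕ}
    {Ok : ℤ → Prop} (hT : Costs Q n p M Ok) (hd : 0 ≤ d) (hdp : d < p)
    (hM1 : (M : ℤ) ≤ Q.th * n + d) (hM2 : Q.th * n ≤ M + d)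
    (h1 : r.c.a1 * p ≤ r.c.b1 * n) (h2 : r.c.b2 * n < r.c.a2 * p) :
    Ok (r.al * n + r.be * p + G) ∧ 0 ≤ r.al * n + r.be * p + G := by
  have hp0 : 0 < p := by
    have : (0 : ℤ) < p := by linarith
    exact_mod_cast this
  simp only [Rec.chk, Bool.and_eq_true, decide_eq_true_eq] at hr
  obtain ⟨⟨⟨⟨⟨⟨⟨⟨⟨⟨⟨⟨⟨hD, ha1⟩, hb1⟩, ha2⟩, hb2⟩, hnn⟩, hJ1⟩, hJ2⟩, hen⟩, hed⟩, he⟩, hc⟩, hab⟩,
    hG⟩ := hr
  have hin : r.c.In n p := ⟨hD, h1, h2⟩
  have hnn' := Box.nn_sound hin hnn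
  have hab' := Box.nn_sound hin hab
  have he0 : r.e0 ≤ Q.e0 n p := by
    have h3 := lchk_sound hin hp0 Q.kn r.en hen
    have h4 := fchk_sound hin hp0 Q.kd r.ed hed
    unfold Par.e0
    linarith
  have h5 := sum_le_tot (lam := r.lam) hin hp0 he0 r.arcs 0 0 hc (by simp)
  have h6 : ∑ s ∈ range p, Q.cst n p r.lam s ≤ totn (Arc.g r.e0 r.lam) 0 r.arcs * n +
      totp (Arc.g r.e0 r.lam) 0 r.arcs * p := by simpa using h5
  have h7 := Box.nn_sound hin hJ1
  have h8 := Box.po_sound hin hJ2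
  have h9 : nrm M p ≤ 2 * r.J * M - r.J * (r.J + 1) * p + 2 * d :=
    nrm_le (by linarith) (by linarith) hd hdp
  have h10 := mul_near (k := r.lam + 2 * r.J) hM1 hM2
  have h11 : 0 ≤ |r.lam + 2 * r.J| * d := mul_nonneg (abs_nonneg _) hd
  exact ⟨hT.mono _ _ (by linarith) (hT.lin r.lam), by linarith⟩

/-- the item of a cell for the sum over primes -/
noncomputable def Rec.item (r : Rec) : ℝ × ℝ × ℝ × ℝ :=
  (r.al, r.be, (r.c.b2 : ℝ) / r.c.a2, (r.c.b1 : ℝ) / r.c.a1)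

/-- the value of the item as a rational number -/
def Rec.qval (r : Rec) : ℚ :=
  r.al * ((r.c.b1 : ℚ) / r.c.a1 - (r.c.b2 : ℚ) / r.c.a2) +
    r.be * (((r.c.b1 : ℚ) / r.c.a1) ^ 2 - ((r.c.b2 : ℚ) / r.c.a2) ^ 2) / 2

theorem Rec.ival_item (r : Rec) : ival r.item = (r.qval : ℝ) := by
  unfold ival Rec.item Rec.qval
  push_cast
  ring

theorem sum_ival (l : List Rec) : ((l.map Rec.item).map ival).sum = ((l.map Rec.qval).sum : ℚ) := by
  induction l with
  | nil => simp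
  | cons r l ih =>
    simp only [List.map_cons, List.sum_cons]
    rw [ih, Rec.ival_item]
    push_cast
    ring

/-- the conditions of `psum` for the item of a checked cell -/
theorem Rec.item_ok {Q : Par} {d G : ℤ} {r : Rec} (hr : r.chk Q d G = true) :
    0 ≤ r.item.2.2.1 ∧ r.item.2.2.1 ≤ r.item.2.2.2 ∧ 0 ≤ r.item.1 + r.item.2.1 * r.item.2.2.1 ∧
      0 ≤ r.item.1 + r.item.2.1 * r.item.2.2.2 := by
  simp only [Rec.chk, Bool.and_eq_true, decide_eq_true_eq] at hr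
  obtain ⟨⟨⟨⟨⟨⟨⟨⟨⟨⟨⟨⟨⟨hD, ha1⟩, hb1⟩, ha2⟩, hb2⟩, hnn⟩, hJ1⟩, hJ2⟩, hen⟩, hed⟩, he⟩, hc⟩, hab⟩,
    hG⟩ := hr
  simp only [Box.nn, Bool.and_eq_true, decide_eq_true_eq] at hnn
  have ha1' : (0 : ℝ) < r.c.a1 := by exact_mod_cast ha1
  have hb1' : (0 : ℝ) < r.c.b1 := by exact_mod_cast hb1
  have ha2' : (0 : ℝ) < r.c.a2 := by exact_mod_cast ha2
  have hb2' : (0 : ℝ) < r.c.b2 := by exact_mod_cast hb2
  have hD' : (0 : ℝ) < r.c.a2 * r.c.b1 - r.c.a1 * r.c.b2 := by exact_mod_cast hD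
  have h1 : (0 : ℝ) ≤ r.al * r.c.a1 + r.be * r.c.b1 := by exact_mod_cast hnn.1
  have h2 : (0 : ℝ) ≤ r.al * r.c.a2 + r.be * r.c.b2 := by exact_mod_cast hnn.2
  simp only [Rec.item]
  refine ⟨by positivity, ?_, ?_, ?_⟩
  · rw [div_le_div_iff₀ ha2' ha1']
    linarith
  · have e : (r.al : ℝ) + r.be * ((r.c.b2 : ℝ) / r.c.a2) =
      (r.al * r.c.a2 + r.be * r.c.b2) / r.c.a2 := by field_simp
    rw [e]
    positivity
  · have e : (r.al : ℝ) + r.be * ((r.c.b1 : ℝ) / r.c.a1) =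
      (r.al * r.c.a1 + r.be * r.c.b1) / r.c.a1 := by field_simp
    rw [e]
    positivity

theorem Rec.pos_of_chk {Q : Par} {d G : ℤ} {r : Rec} (hr : r.chk Q d G = true) :
    0 < r.c.a1 ∧ 0 < r.c.a2 := by
  simp only [Rec.chk, Bool.and_eq_true, decide_eq_true_eq] at hr
  exact ⟨hr.1.1.1.1.1.1.1.1.1.1.1.1.2, hr.1.1.1.1.1.1.1.1.1.1.2⟩

/-- consecutive cells: the upper end of each is the lower end of the next one -/
def link : ℤ → ℤ → List Rec → Bool
  | _, _, [] => true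
  | a, b, r :: l => decide (a * r.c.b1 = r.c.a1 * b) && decide (0 < r.c.b1) &&
      decide (0 < r.c.b2) && link r.c.a2 r.c.b2 l

/-- the upper end of the last cell -/
def lastEnd : ℤ → ℤ → List Rec → ℤ × ℤ
  | a, b, [] => (a, b)
  | _, _, r :: l => lastEnd r.c.a2 r.c.b2 l

/-- every `n / p` between the ends lies in one of the cells -/
theorem link_cover {n p : ℕ} : ∀ (l : List Rec) (a b : ℤ), 0 < b → link a b l = true →
    a * p ≤ b * n → (lastEnd a b l).2 * n < (lastEnd a b l).1 * p →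
    ∃ r ∈ l, r.c.a1 * p ≤ r.c.b1 * n ∧ r.c.b2 * n < r.c.a2 * p
  | [], a, b, _, _, h1, h2 => by
    simp only [lastEnd] at h2
    linarith
  | r :: l, a, b, hb, hc, h1, h2 => by
    simp only [link, Bool.and_eq_true, decide_eq_true_eq] at hc
    obtain ⟨⟨⟨h3, h4⟩, h5⟩, h6⟩ := hc
    have h7 : r.c.a1 * p ≤ r.c.b1 * n := by
      have h8 : (r.c.a1 * b) * (p : ℤ) ≤ (r.c.b1 * b) * n := by
        rw [← h3]
        nlinarith
      have h9 : b * (r.c.a1 * p) ≤ b * (r.c.b1 * n) := by linarith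
      exact le_of_mul_le_mul_left h9 hb
    by_cases h10 : r.c.b2 * n < r.c.a2 * (p : ℤ)
    · exact ⟨r, List.mem_cons_self, h7, h10⟩
    · push Not at h10
      obtain ⟨r', hr', h11⟩ := link_cover l r.c.a2 r.c.b2 h5 h6 h10 (by simpa [lastEnd] using h2)
      exact ⟨r', List.mem_cons_of_mem _ hr', h11⟩

/-- from a list of checked cells to an item -/
theorem cover_item {Q : Par} {d G a b : ℤ} {l : List Rec} (hchk : l.all (fun r => r.chk Q d G))
    (hlink : link a b l = true) (hb : 0 < b) {n p M : ℕ} {Ok : ℤ → Prop} (hT : Costs Q n p M Ok)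
    (hd : 0 ≤ d) (hdp : d < p) (hM1 : (M : ℤ) ≤ Q.th * n + d) (hM2 : Q.th * n ≤ M + d)
    (h1 : a * p ≤ b * n) (h2 : (lastEnd a b l).2 * n < (lastEnd a b l).1 * p) :
    ∃ r ∈ l, ∃ e : ℕ, Ok e ∧ (e : ℝ) ≤ r.item.1 * n + r.item.2.1 * p + G ∧
      r.item.2.2.1 * n < (p : ℝ) ∧ (p : ℝ) ≤ r.item.2.2.2 * n := by
  obtain ⟨r, hr, h7, h8⟩ := link_cover l a b hb hlink h1 h2
  have hrc : r.chk Q d G = true := List.all_eq_true.1 hchk r hr
  obtain ⟨h10, h11⟩ := r.sound hrc hT hd hdp hM1 hM2 h7 h8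
  have hpos := r.pos_of_chk hrc
  have h12 : ((r.al * n + r.be * p + G).toNat : ℤ) = r.al * n + r.be * p + G :=
    Int.toNat_of_nonneg h11
  refine ⟨r, hr, (r.al * n + r.be * p + G).toNat, ?_, ?_, ?_, ?_⟩
  · rw [h12]
    exact h10
  · have h13 : (((r.al * n + r.be * p + G).toNat : ℕ) : ℝ) =
        (r.al : ℝ) * n + r.be * p + G := by exact_mod_cast h12
    rw [h13]
    exact le_rfl
  · have ha : (0 : ℝ) < r.c.a2 := by exact_mod_cast hpos.2
    have h8' : (r.c.b2 : ℝ) * n < r.c.a2 * p := by exact_mod_cast h8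
    simp only [Rec.item]
    rw [div_mul_eq_mul_div, div_lt_iff₀ ha]
    linarith
  · have ha : (0 : ℝ) < r.c.a1 := by exact_mod_cast hpos.1
    have h7' : (r.c.a1 : ℝ) * p ≤ r.c.b1 * n := by exact_mod_cast h7
    simp only [Rec.item]
    rw [div_mul_eq_mul_div, le_div_iff₀ ha]
    linarith

/-- the cost at any level is at most the cost with the weights `1 - e0 - phi` -/
theorem Par.cst_le_ccost (Q : Par) (n p : ℕ) (lam : ℤ) (s : ℕ) :
    Q.cst n p lam s ≤ ccost (1 - Q.e0 n p - Q.phi n p s - lam) := by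
  unfold Par.cst
  split_ifs
  · exact ccost_nonneg _
  · exact ccost_nonneg _
  · exact ccost_mono (by linarith)
  · exact le_rfl

end Pool.Agent.Z3D.DCell
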