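import Pool.Agent.Z3D.Dbl
import Pool.Agent.D23.Cap

/-!
# Lone poles

A class that contains exactly one point of `K1` contributes at most `p ^ (-e0)` if the harmonic
numbers are integral there, for every integer polynomial. Hence such classes may be left out of
the set of weighted classes as soon as the base is at least `-e0`.
-/

open Finset Polynomial
open scoped BigOperators

namespace Pool.Agent.Z3D

open Pool.Agent.Z3 (H)
open Pool.Agent.Z3.TermAux
open Pool.Agent.Z23 (cA cB dK lK)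
open Pool.Agent.D23 (cls cls_neg cls_lt numP ppos pone norm_int_le nod numZ numZ_map nodZ nodZ_map
  norm_evalZ)

section
variable {p : ℕ} [hp : Fact p.Prime]

/-- a lone pole: no other point of `K` in the class -/
theorem lK_norm_lone (K : Finset ℕ) (k : ℕ) (h : ∀ i ∈ K, i % p = k % p → i = k) :
    padicNorm p (lK K k) ≤ 1 := by
  unfold lK
  refine padicNorm.sum_le' (fun i hi => ?_) zero_le_one
  obtain ⟨h1, h2⟩ := mem_erase.mp hi
  have h3 : i % p ≠ k % p := fun h4 => h1 (h i h2 h4)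
  rw [padicNorm.div, norm_sub_ne p i k hp.out h3]
  simp

omit hp in
theorem cnt_one_iff (K : Finset ℕ) (k : ℕ) (hk : k ∈ K) (h : cnt K p (k % p) = 1) :
    ∀ i ∈ K, i % p = k % p → i = k := by
  intro i hi h2
  unfold cnt at h
  obtain ⟨a, ha⟩ := card_eq_one.mp h
  have h3 : i ∈ K.filter (fun i => i % p = k % p) := mem_filter.mpr ⟨hi, h2⟩
  have h4 : k ∈ K.filter (fun i => i % p = k % p) := mem_filter.mpr ⟨hk, rfl⟩
  rw [ha, mem_singleton] at h3 h4
  rw [h3, h4]

theorem norm_evalZ' (GZ : ℤ[X]) (k : ℕ) :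
    padicNorm p ((GZ.map (Int.castRingHom ℚ)).eval (-(k : ℚ))) ≤ 1 := by
  have h := norm_evalZ (p := p) GZ (-(k : ℤ))
  rw [neg_zero, zpow_zero] at h
  push_cast at h
  exact h

variable (K1 K2 : Finset ℕ)

theorem dK_norm_lone2 (hK : K2 ⊆ K1) (h2 : ∀ i ∈ K1, i < p ^ 2) (k : ℕ) (hk : k ∈ K1)
    (hc : cnt K1 p (k % p) = 1) : padicNorm p (dK K1 k * dK K2 k) = 1 := by
  have h1 := cnt_one_iff K1 k hk hc
  have h2' : ∀ i ∈ K2, i < p ^ 2 := fun i hi => h2 i (hK hi)
  rw [padicNorm.mul, dK_norm_mem K1 k hk h2, hc]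
  by_cases hk2 : k ∈ K2
  · have h3 : cnt K2 p (k % p) = 1 := by
      unfold cnt
      rw [card_eq_one]
      refine ⟨k, ?_⟩
      ext i
      rw [mem_filter, mem_singleton]
      constructor
      · rintro ⟨h4, h5⟩
        exact h1 i (hK h4) h5
      · rintro rfl
        exact ⟨hk2, rfl⟩
    rw [dK_norm_mem K2 k hk2 h2', h3]
    norm_num
  · have h3 : cnt K2 p (k % p) = 0 := by
      unfold cnt
      rw [card_eq_zero, filter_eq_empty_iff]
      intro i hi h5
      exact hk2 (h1 i (hK hi) h5 ▸ hi)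
    rw [dK_norm_not K2 k hk2 (h2 k hk) h2', h3]
    norm_num

/-- the two coefficients at a lone pole -/
theorem lone_norm (SZ : ℤ[X]) (κ : ℚ) (e0 : ℤ) (hκ : padicNorm p κ ≤ (p : ℚ) ^ (-e0))
    (hK : K2 ⊆ K1) (h2 : ∀ i ∈ K1, i < p ^ 2) (k : ℕ) (hk : k ∈ K1)
    (hc : cnt K1 p (k % p) = 1) :
    padicNorm p (cA (C κ * SZ.map (Int.castRingHom ℚ)) K1 K2 k) ≤ (p : ℚ) ^ (-e0) ∧
      padicNorm p (cB (C κ * SZ.map (Int.castRingHom ℚ)) K1 K2 k) ≤ (p : ℚ) ^ (-e0) := by
  have hp0 := ppos (p := p)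
  have hd := dK_norm_lone2 K1 K2 hK h2 k hk hc
  have h1 := cnt_one_iff K1 k hk hc
  have hval : padicNorm p ((C κ * SZ.map (Int.castRingHom ℚ)).eval (-(k : ℚ))) ≤
      (p : ℚ) ^ (-e0) := by
    rw [eval_mul, eval_C, padicNorm.mul]
    refine (mul_le_mul hκ (norm_evalZ' SZ k) (padicNorm.nonneg _) (by positivity)).trans
      (le_of_eq (mul_one _))
  have hder : padicNorm p ((C κ * SZ.map (Int.castRingHom ℚ)).derivative.eval (-(k : ℚ))) ≤
      (p : ℚ) ^ (-e0) := by
    rw [derivative_C_mul, derivative_map, eval_mul, eval_C, padicNorm.mul]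
    refine (mul_le_mul hκ (norm_evalZ' (derivative SZ) k) (padicNorm.nonneg _)
      (by positivity)).trans (le_of_eq (mul_one _))
  constructor
  · unfold cA
    split_ifs
    · rw [padicNorm.div, hd, div_one]
      exact hval
    · rw [padicNorm.zero]
      positivity
  · unfold cB
    split_ifs with hk2
    · rw [padicNorm.div, hd, div_one]
      refine padicNorm.sub.trans (max_le hder ?_)
      rw [padicNorm.mul]
      have h3 : padicNorm p (lK K1 k + lK K2 k) ≤ 1 :=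
        padicNorm.nonarchimedean.trans (max_le (lK_norm_lone K1 k h1)
          (lK_norm_lone K2 k (fun i hi h4 => h1 i (hK hi) h4)))
      exact (mul_le_mul hval h3 (padicNorm.nonneg _) (by positivity)).trans (le_of_eq (mul_one _))
    · rw [padicNorm.div, hd, div_one]
      exact hval

/-- **Entry bound with a base.** Classes outside `T` contain a single point of `K1`. -/
theorem entry2s {r : ℕ} (Zb : Fin r → Finset ℕ) (κ : ℚ) (e0 : ℤ)
    (hκ : padicNorm p κ ≤ (p : ℚ) ^ (-e0)) (hK : K2 ⊆ K1) (h2 : ∀ i ∈ K1, i < p ^ 2)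
    (GZ : ℤ[X]) (g : ℕ → ℤ) (hG : Ctl p (GZ.map (Int.castRingHom ℚ)) g) (v : ℕ) (T : Finset ℕ)
    (W : ℕ → ℤ) (lam : ℤ)
    (hS : ∀ k ∈ K1, k % p ∉ T → k - v < p ∧ cnt K1 p (k % p) = 1 ∧ -e0 ≤ lam)
    (hW : ∀ k ∈ K1, k % p ∈ T → -1 - e0 - phi2 Zb K1 K2 p (k % p) ≤ W (k % p) ∧
      (p ≤ k - v → 1 - e0 - phi2 Zb K1 K2 p (k % p) ≤ W (k % p)))
    (B : ℤ) (hlB : lam ≤ B) (hB : ∀ t ∈ T, W t - g t ≤ B) (a b : ℤ) :
    padicNorm p ((a : ℚ) * qL K1 K2 (C κ * numP Zb) (GZ.map (Int.castRingHom ℚ)) -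
      (b : ℚ) * pL K1 K2 v (C κ * numP Zb) (GZ.map (Int.castRingHom ℚ))) ≤ (p : ℚ) ^ B := by
  have hp0 := ppos (p := p)
  have hp1 := pone (p := p)
  have hBn : (0 : ℚ) ≤ (p : ℚ) ^ B := by positivity
  set G : ℚ[X] := GZ.map (Int.castRingHom ℚ) with hGdef
  have hS1 : Ctl p (G * (C κ * numP Zb)) (fun s => g s + (e0 + ∑ b, (cnt (Zb b) p s : ℤ))) :=
    hG.mul ((Ctl_C hκ).mul (Ctl_numP Zb))
  have hSZ : G * (C κ * numP Zb) = C κ * (GZ * numZ Zb).map (Int.castRingHom ℚ) := by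
    rw [Polynomial.map_mul, numZ_map]
    ring
  have hlt : ∀ k ∈ K1, k - v < p ^ 2 := fun k hk => (Nat.sub_le k v).trans_lt (h2 k hk)
  have two : padicNorm p 2 ≤ 1 := padicNorm_two_le p hp.out
  -- values of the coefficients
  have hA : ∀ k ∈ K1, padicNorm p (cA (G * (C κ * numP Zb)) K1 K2 k) ≤
      (p : ℚ) ^ (-(e0 + g (k % p) + phi2 Zb K1 K2 p (k % p) + 2)) := by
    intro k _
    refine (cA_norm K1 K2 _ _ hK hS1 h2 k).trans (le_of_eq ?_)
    congr 1
    unfold phi2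
    ring
  have hBc : ∀ k ∈ K1, padicNorm p (cB (G * (C κ * numP Zb)) K1 K2 k) ≤
      (p : ℚ) ^ (-(e0 + g (k % p) + phi2 Zb K1 K2 p (k % p) + 1)) := by
    intro k hk
    refine (cB_norm K1 K2 _ _ hK hS1 h2 k hk).trans (le_of_eq ?_)
    congr 1
    unfold phi2
    ring
  have hlone : ∀ k ∈ K1, k % p ∉ T → padicNorm p (cA (G * (C κ * numP Zb)) K1 K2 k) ≤
      (p : ℚ) ^ B ∧ padicNorm p (cB (G * (C κ * numP Zb)) K1 K2 k) ≤ (p : ℚ) ^ B := by
    intro k hk hkT
    obtain ⟨_, hc, hl⟩ := hS k hk hkT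
    have h3 := lone_norm K1 K2 (GZ * numZ Zb) κ e0 hκ hK h2 k hk hc
    rw [← hSZ] at h3
    have h4 : (p : ℚ) ^ (-e0) ≤ (p : ℚ) ^ B := zpow_le_zpow_right₀ hp1.le (by omega)
    exact ⟨h3.1.trans h4, h3.2.trans h4⟩
  -- the three kinds of terms
  have t0 : ∀ k ∈ K1, padicNorm p (cA (G * (C κ * numP Zb)) K1 K2 k) ≤ (p : ℚ) ^ B := by
    intro k hk
    by_cases hkT : k % p ∈ T
    · have hb := hB _ hkT
      have w1 := (hW k hk hkT).1
      exact (hA k hk).trans (zpow_le_zpow_right₀ hp1.le (by omega))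
    · exact (hlone k hk hkT).1
  have tA : ∀ k ∈ K1, padicNorm p (2 * cA (G * (C κ * numP Zb)) K1 K2 k * H 3 (k - v)) ≤
      (p : ℚ) ^ B := by
    intro k hk
    rw [padicNorm.mul, padicNorm.mul]
    by_cases hkT : k % p ∈ T
    · have hb := hB _ hkT
      obtain ⟨w1, w2⟩ := hW k hk hkT
      have h1 : padicNorm p 2 * padicNorm p (cA (G * (C κ * numP Zb)) K1 K2 k) ≤
          (p : ℚ) ^ (-(e0 + g (k % p) + phi2 Zb K1 K2 p (k % p) + 2)) := by
        refine (mul_le_mul two (hA k hk) (padicNorm.nonneg _) (by norm_num)).trans (le_of_eq ?_)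
        rw [one_mul]
      rcases Nat.lt_or_ge (k - v) p with h | h
      · refine (mul_le_mul h1 (norm_H_small p 3 _ hp.out h) (padicNorm.nonneg _)
          (by positivity)).trans ?_
        rw [mul_one]
        exact zpow_le_zpow_right₀ hp1.le (by omega)
      · refine (mul_le_mul h1 (norm_H_le p 3 _ hp.out (hlt k hk)) (padicNorm.nonneg _)
          (by positivity)).trans ?_
        rw [← zpow_natCast, ← zpow_add₀ hp0.ne']
        have := w2 h
        exact zpow_le_zpow_right₀ hp1.le (by push_cast; omega)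
    · have h := (hS k hk hkT).1
      have h1 : padicNorm p 2 * padicNorm p (cA (G * (C κ * numP Zb)) K1 K2 k) ≤ (p : ℚ) ^ B := by
        refine (mul_le_mul two (hlone k hk hkT).1 (padicNorm.nonneg _) (by norm_num)).trans
          (le_of_eq ?_)
        rw [one_mul]
      exact (mul_le_mul h1 (norm_H_small p 3 _ hp.out h) (padicNorm.nonneg _) hBn).trans
        (le_of_eq (mul_one _))
  have tB : ∀ k ∈ K1, padicNorm p (cB (G * (C κ * numP Zb)) K1 K2 k * H 2 (k - v)) ≤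
      (p : ℚ) ^ B := by
    intro k hk
    rw [padicNorm.mul]
    by_cases hkT : k % p ∈ T
    · have hb := hB _ hkT
      obtain ⟨w1, w2⟩ := hW k hk hkT
      rcases Nat.lt_or_ge (k - v) p with h | h
      · refine (mul_le_mul (hBc k hk) (norm_H_small p 2 _ hp.out h) (padicNorm.nonneg _)
          (by positivity)).trans ?_
        rw [mul_one]
        exact zpow_le_zpow_right₀ hp1.le (by omega)
      · refine (mul_le_mul (hBc k hk) (norm_H_le p 2 _ hp.out (hlt k hk)) (padicNorm.nonneg _)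
          (by positivity)).trans ?_
        rw [← zpow_natCast, ← zpow_add₀ hp0.ne']
        have := w2 h
        exact zpow_le_zpow_right₀ hp1.le (by push_cast; omega)
    · have h := (hS k hk hkT).1
      exact (mul_le_mul (hlone k hk hkT).2 (norm_H_small p 2 _ hp.out h) (padicNorm.nonneg _)
        hBn).trans (le_of_eq (mul_one _))
  refine padicNorm.sub.trans (max_le ?_ ?_)
  · rw [qL_apply]
    apply D23.norm_intmul
    rw [padicNorm.mul]
    refine (mul_le_mul two (padicNorm.sum_le' t0 hBn) (padicNorm.nonneg _)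
      (by norm_num)).trans (le_of_eq ?_)
    rw [one_mul]
  · rw [pL_apply]
    apply D23.norm_intmul
    refine padicNorm.sum_le' (fun k hk => ?_) hBn
    exact padicNorm.nonarchimedean.trans (max_le (tA k hk) (tB k hk))

/-- **Determinant bound with a base.** As `det2`, but the classes outside `T` only have to contain
a single point of `K1` with `k - v < p`, provided `-e0 ≤ lam`. -/
theorem det2s {r : ℕ} (Zb : Fin r → Finset ℕ) (κ : ℚ) (e0 : ℤ)
    (hκ : padicNorm p κ ≤ (p : ℚ) ^ (-e0)) (hK : K2 ⊆ K1) (h2 : ∀ i ∈ K1, i < p ^ 2)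
    (v : ℕ) (T : Finset ℕ) (hTp : ∀ t ∈ T, t < p) (W : ℕ → ℤ) (lam : ℤ)
    (hS : ∀ k ∈ K1, k % p ∉ T → k - v < p ∧ cnt K1 p (k % p) = 1 ∧ -e0 ≤ lam)
    (hW : ∀ k ∈ K1, k % p ∈ T → -1 - e0 - phi2 Zb K1 K2 p (k % p) ≤ W (k % p) ∧
      (p ≤ k - v → 1 - e0 - phi2 Zb K1 K2 p (k % p) ≤ W (k % p)))
    (a b : ℤ) (M : ℕ) :
    padicNorm p (gram (Lab K1 K2 v (C κ * numP Zb) a b) (fun i => X ^ i) M).det ≤
      (p : ℚ) ^ (lam * M + ∑ t ∈ T, ccost (W t - lam)) := by
  refine D23.det_cap p _ W T hTp lam M ?_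
  intro s hs i j _ _ B hlB hB
  have hnod : nod s i * nod s j = (nodZ s i * nodZ s j).map (Int.castRingHom ℚ) := by
    rw [Polynomial.map_mul, nodZ_map, nodZ_map]
  have hC : Ctl p ((nodZ s i * nodZ s j).map (Int.castRingHom ℚ))
      (fun t => (uses s t i : ℤ) + uses s t j) := by
    rw [← hnod]
    exact (Ctl_nod s hs i).mul (Ctl_nod s hs j)
  rw [Lab_apply, hnod]
  exact entry2s K1 K2 Zb κ e0 hκ hK h2 (nodZ s i * nodZ s j)
    (fun t => (uses s t i : ℤ) + uses s t j) hC v T W lam hS hW B hlB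
    (fun t ht => by have := hB t ht; omega) a b

end

end Pool.Agent.Z3D
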