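import Pool.Agent.Z3D.Fam
import Pool.Agent.D23.Cls
import Pool.Agent.D23.CellBridge

/-!
# Valuation of the normalising constant and class counts of the family
-/

open Finset Polynomial

namespace Pool.Agent.Z3D

theorem norm_kap {p : ℕ} [hp : Fact p.Prime] (n : ℕ) (h : 12 * n < p ^ 2) :
    padicNorm p (kap n) = (p : ℚ) ^ (-ee n p) := by
  have hp0 : (p : ℚ) ≠ 0 := by exact_mod_cast hp.out.ne_zero
  unfold kap ee
  rw [padicNorm.div, padicNorm.mul, padicNorm.mul,
    D23.padicNorm_factorial p (by omega : 12 * n < p ^ 2),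
    D23.padicNorm_factorial p (by omega : 10 * n < p ^ 2),
    D23.padicNorm_factorial p (by omega : 7 * n < p ^ 2),
    D23.padicNorm_factorial p (by omega : 5 * n < p ^ 2), ← zpow_add₀ hp0, ← zpow_add₀ hp0,
    ← zpow_sub₀ hp0]
  congr 1
  ring

/-- a block of length `L` has `L / p` or `L / p + 1` elements in a class -/
theorem icnt_block (A L B p s : ℕ) (hB : B = A + L) (hs : s < p) :
    ((L / p : ℕ) : ℤ) ≤ (D23.Cell.icnt A B p s : ℤ) ∧
      (D23.Cell.icnt A B p s : ℤ) ≤ ((L / p : ℕ) : ℤ) + 1 := by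
  have h1 := D23.cN_block A L p s hs
  have h2 := D23.icnt_eq_cN A B p s (by omega)
  rw [h2, hB]
  constructor <;> omega

theorem ph_ee_bounds (n p s : ℕ) (hs : s < p) :
    -2 ≤ ph n p s + ee n p ∧ ph n p s + ee n p ≤ 2 := by
  have h1 := icnt_block 0 (7 * n) (7 * n) p s (by ring) hs
  have h2 := icnt_block n (5 * n) (6 * n) p s (by ring) hs
  have h3 := icnt_block (8 * n) (12 * n) (20 * n) p s (by ring) hs
  have h4 := icnt_block (9 * n) (10 * n) (19 * n) p s (by ring) hs
  unfold ph ee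
  constructor <;> omega

/-- the classes partition a block -/
theorem sum_icnt (A B p : ℕ) (hp : 0 < p) (h : A ≤ B) :
    ∑ s ∈ range p, (D23.Cell.icnt A B p s : ℤ) = (B : ℤ) - A := by
  have h1 : (Ico A B).card = ∑ s ∈ range p, ((Ico A B).filter (fun i => i % p = s)).card :=
    card_eq_sum_card_fiberwise (fun i _ => by
      simp only [coe_range, Set.mem_Iio]
      exact Nat.mod_lt i hp)
  rw [Nat.card_Ico] at h1
  have h2 : ∑ s ∈ range p, (D23.Cell.icnt A B p s : ℤ) = ((B - A : ℕ) : ℤ) := by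
    rw [h1]
    push_cast
    rfl
  rw [h2]
  omega

theorem sum_ph (n p : ℕ) (hp : 0 < p) : ∑ s ∈ range p, ph n p s = -(10 * n : ℤ) := by
  unfold ph
  rw [sum_sub_distrib, sum_sub_distrib, sum_add_distrib, sum_icnt 0 (7 * n) p hp (by omega),
    sum_icnt n (6 * n) p hp (by omega), sum_icnt (8 * n) (20 * n) p hp (by omega),
    sum_icnt (9 * n) (19 * n) p hp (by omega)]
  push_cast
  ring

theorem ee_zero (n p : ℕ) (h : 12 * n < p) : ee n p = 0 := by
  unfold ee
  rw [Nat.div_eq_of_lt h, Nat.div_eq_of_lt (by omega : 10 * n < p),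
    Nat.div_eq_of_lt (by omega : 7 * n < p), Nat.div_eq_of_lt (by omega : 5 * n < p)]
  norm_num

/-- the valuation of `kap` is `10 n / p` or `10 n / p + 1` -/
theorem ee_bounds (n p : ℕ) (hp : 0 < p) :
    ((10 * n / p : ℕ) : ℤ) ≤ ee n p ∧ ee n p ≤ ((10 * n / p : ℕ) : ℤ) + 1 := by
  have h1 := Nat.add_div (a := 7 * n) (b := 5 * n) hp
  have h3 : 7 * n + 5 * n = 12 * n := by ring
  rw [h3] at h1
  unfold ee
  rw [h1]
  split_ifs <;> constructor <;> omega

theorem ee_nonneg (n p : ℕ) (hp : 0 < p) : 0 ≤ ee n p :=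
  le_trans (Int.natCast_nonneg _) (ee_bounds n p hp).1

/-- no far class for a prime above `14 n` -/
theorem not_far (n p s : ℕ) (h : 14 * n ≤ p) : ¬ far n p s := by
  unfold far D23.Cell.icnt
  rw [Ico_eq_empty_of_le (by omega)]
  simp

end Pool.Agent.Z3D
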