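import Pool.Agent.Z3D.Fam
import Pool.Agent.Z3D.Kap
import Pool.Agent.Z3D.DblS
import Pool.Agent.Z3D.DCell
import Pool.Agent.D23.Tail

/-!
# The p-adic bounds of the normalised determinant of the family of `Fam.lean`
-/

open Finset Polynomial

namespace Pool.Agent.Z3D

open Pool.Agent.Z3.TermAux
open Pool.Agent.D23 (ppos pone Tcost)
open Pool.Agent.D23.Cell (icnt bc nrm ccost_nonneg ccost_mono)

/-- the parameters `Q` describe the family at `n`, `p` -/
structure IsPar (Q : DCell.Par) (n p : ℕ) : Prop where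
  phi : ∀ s, Q.phi n p s = ph n p s
  e0 : Q.e0 n p = ee n p
  ub : ∀ s, bc n p s Q.ub = (icnt (8 * n) (20 * n) p s : ℤ)
  tb : ∀ s, bc n p s Q.tb = (icnt (6 * n + p) (20 * n) p s : ℤ)

/-- the cost of a class in terms of the family -/
def cst (n p : ℕ) (lam : ℤ) (s : ℕ) : ℤ :=
  if icnt (8 * n) (20 * n) p s = 0 then 0
  else if icnt (6 * n + p) (20 * n) p s = 0 then
    (if icnt (8 * n) (20 * n) p s = 1 ∧ -ee n p ≤ lam then 0
      else ccost (-1 - ee n p - ph n p s - lam))
  else ccost (1 - ee n p - ph n p s - lam)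

theorem IsPar.cst {Q : DCell.Par} {n p : ℕ} (h : IsPar Q n p) (lam : ℤ) (s : ℕ) :
    Q.cst n p lam s = cst n p lam s := by
  unfold DCell.Par.cst Z3D.cst
  rw [h.ub, h.tb, h.e0, h.phi]
  norm_cast

theorem cst_le (n p : ℕ) (lam : ℤ) (s : ℕ) :
    cst n p lam s ≤ ccost (1 - ee n p - ph n p s - lam) := by
  unfold cst
  split_ifs
  · exact ccost_nonneg _
  · exact ccost_nonneg _
  · exact ccost_mono (by linarith)
  · exact le_rfl

section
variable {p : ℕ} [hp : Fact p.Prime]

theorem dlt_lin (n M : ℕ) (hpn : 20 * n < p ^ 2) (hM : M ≤ 5 * n) (a b lam : ℤ) :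
    padicNorm p (Dlt n a b M) ≤
      (p : ℚ) ^ (lam * M + ∑ s ∈ range p, cst n p lam s + nrm M p) := by
  classical
  set T : Finset ℕ := (range p).filter (fun s => ¬ (icnt (8 * n) (20 * n) p s = 0) ∧
    ¬ (icnt (6 * n + p) (20 * n) p s = 0 ∧ icnt (8 * n) (20 * n) p s = 1 ∧ -ee n p ≤ lam))
    with hT
  set W : ℕ → ℤ := fun s => if icnt (6 * n + p) (20 * n) p s = 0 then -1 - ee n p - ph n p s
    else 1 - ee n p - ph n p s with hW
  have hcls : ∀ k ∈ K1 n, icnt (8 * n) (20 * n) p (k % p) ≠ 0 := by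
    intro k hk h0
    have h1 := mem_K1.mp hk
    unfold D23.Cell.icnt at h0
    rw [card_eq_zero, filter_eq_empty_iff] at h0
    exact h0 (mem_Ico.mpr h1) rfl
  have hfar : ∀ k ∈ K1 n, icnt (6 * n + p) (20 * n) p (k % p) = 0 → k < 6 * n + p := by
    intro k hk h0
    by_contra h2
    have h1 := mem_K1.mp hk
    unfold D23.Cell.icnt at h0
    rw [card_eq_zero, filter_eq_empty_iff] at h0
    exact h0 (mem_Ico.mpr ⟨by omega, h1.2⟩) rfl
  have h1 := det2s (p := p) (K1 n) (K2 n) (ZZ n) (kap n) (ee n p) (norm_kap n (by omega)).le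
    (K2_sub n) (fun i hi => by have := mem_K1.mp hi; omega) (6 * n) T
    (fun t ht => mem_range.mp (mem_filter.mp ht).1) W lam
    (fun k hk hkT => by
      have h2 := hcls k hk
      have h3 : icnt (6 * n + p) (20 * n) p (k % p) = 0 ∧
          icnt (8 * n) (20 * n) p (k % p) = 1 ∧ -ee n p ≤ lam := by
        by_contra h4
        exact hkT (mem_filter.mpr ⟨mem_range.mpr (Nat.mod_lt _ hp.out.pos), h2, h4⟩)
      have h5 := hfar k hk h3.1
      have h6 := mem_K1.mp hk
      refine ⟨by have := hp.out.pos; omega, ?_, h3.2.2⟩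
      exact h3.2.1)
    (fun k hk _ => by
      rw [phi2_eq]
      simp only [hW]
      have h6 := mem_K1.mp hk
      by_cases h0 : icnt (6 * n + p) (20 * n) p (k % p) = 0
      · have h5 := hfar k hk h0
        rw [if_pos h0]
        exact ⟨le_rfl, fun h7 => by omega⟩
      · rw [if_neg h0]
        exact ⟨by linarith, fun _ => le_rfl⟩)
    a b M
  have h8 : ∑ t ∈ T, ccost (W t - lam) = ∑ s ∈ range p, cst n p lam s := by
    rw [hT, sum_filter]
    refine sum_congr rfl (fun s _ => ?_)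
    unfold cst
    simp only [hW]
    by_cases c1 : icnt (8 * n) (20 * n) p s = 0
    · rw [if_pos c1, if_neg (by tauto)]
    · rw [if_neg c1]
      by_cases c2 : icnt (6 * n + p) (20 * n) p s = 0
      · rw [if_pos c2, if_pos c2]
        by_cases c3 : icnt (8 * n) (20 * n) p s = 1 ∧ -ee n p ≤ lam
        · rw [if_pos c3, if_neg (by tauto)]
        · rw [if_neg c3, if_pos (by tauto)]
      · rw [if_neg c2, if_neg c2, if_pos (by tauto)]
  rw [h8] at h1
  refine (D23.padicNorm_norm_le p _ M (by omega) _ h1).trans (le_of_eq ?_)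
  congr 1
  unfold D23.Cell.nrm
  ring

/-- rule ALL -/
theorem det_all (n M : ℕ) (_hn : 1 ≤ n) (hpn : 20 * n < p ^ 2) (hM : M ≤ 5 * n) (a b lam : ℤ) :
    padicNorm p (Dlt n a b M) ≤ (p : ℚ) ^ (lam * M +
      ∑ s ∈ range p, ccost (1 - ph n p s - ee n p - lam) + nrm M p) := by
  refine (dlt_lin n M hpn hM a b lam).trans (zpow_le_zpow_right₀ (pone (p := p)).le ?_)
  have h2 : ∑ s ∈ range p, cst n p lam s ≤ ∑ s ∈ range p, ccost (1 - ph n p s - ee n p - lam) :=
    sum_le_sum (fun s _ => (cst_le n p lam s).trans (ccost_mono (by linarith)))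
  linarith

/-- **The rule in the form of the cell checker.** -/
theorem costs_gen {Q : DCell.Par} (n M : ℕ) (hQ : IsPar Q n p)
    (hpn : 20 * n < p ^ 2) (hM : M ≤ 5 * n) (a b : ℤ) :
    DCell.Costs Q n p M (fun T => padicNorm p (Dlt n a b M) ≤ (p : ℚ) ^ T) where
  mono S T hST h := h.trans (zpow_le_zpow_right₀ (pone (p := p)).le hST)
  lin lam := by
    have h := dlt_lin n M hpn hM a b lam
    simp only [hQ.cst]
    exact h

/-- the trivial tail -/
theorem det_tail (n M : ℕ) (_hn : 1 ≤ n) (hpn : 20 * n < p ^ 2) (hM : M ≤ 5 * n) (a b : ℤ) :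
    padicNorm p (Dlt n a b M) ≤ (p : ℚ) ^ (3 * (M : ℤ)) := by
  refine (dlt_lin n M hpn hM a b (3 - 2 * ((M / p : ℕ) : ℤ))).trans ?_
  refine zpow_le_zpow_right₀ (pone (p := p)).le ?_
  have h1 := D23.Tcost_triv p M (fun s => 1 - ee n p - ph n p s) 3 (fun t ht => by
    have := (ph_ee_bounds n p t ht).1
    linarith)
  refine le_trans ?_ h1
  unfold D23.Tcost D23.Cell.nrm
  have h2 : ∑ s ∈ range p, cst n p (3 - 2 * ((M / p : ℕ) : ℤ)) s ≤
      ∑ t ∈ range p, ccost (1 - ee n p - ph n p t - (3 - 2 * ((M / p : ℕ) : ℤ))) :=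
    sum_le_sum (fun s _ => cst_le n p _ s)
  linarith

/-- no cost above `14 n` -/
theorem det_huge (n M : ℕ) (hn : 1 ≤ n) (hpn : 20 * n < p ^ 2) (hM : M ≤ 5 * n)
    (h14 : 14 * n ≤ p) (a b : ℤ) : padicNorm p (Dlt n a b M) ≤ 1 := by
  refine (dlt_lin n M hpn hM a b 0).trans (le_of_eq ?_)
  have h0 : ee n p = 0 := ee_zero n p (by omega)
  have h1 : ∀ s ∈ range p, cst n p 0 s = 0 := by
    intro s hs
    have hs' := mem_range.mp hs
    have h2 := (icnt_block (8 * n) (12 * n) (20 * n) p s (by ring) hs').2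
    rw [Nat.div_eq_of_lt (by omega : 12 * n < p)] at h2
    have h3 : icnt (6 * n + p) (20 * n) p s = 0 := by
      unfold D23.Cell.icnt
      rw [Ico_eq_empty_of_le (by omega)]
      simp
    unfold cst
    rw [if_pos h3, h0]
    split_ifs with c1 c2
    · rfl
    · rfl
    · exact absurd ⟨by push_cast at h2; omega, by norm_num⟩ c2
  rw [sum_eq_zero h1]
  have h4 : M / p = 0 := Nat.div_eq_of_lt (by omega)
  unfold D23.Cell.nrm
  rw [h4]
  simp

end

end Pool.Agent.Z3D
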