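import Pool.Agent.Z3D.Fam
import Pool.Agent.D23.Small

/-!
# Crude p-adic bounds for double poles, valid for every prime

The numerator is `r1! * r2! * g` with `g` integer valued on the integers, the poles are
`p1 ≤ k < p1 + r1` and `q1 ≤ k < q1 + r2` (nested blocks).
-/

open Finset Polynomial
open scoped Nat

namespace Pool.Agent.Z3D

open Pool.Agent.Z3 (H)
open Pool.Agent.Z23 (cA cB dK lK)
open Pool.Agent.D23 (IV numP bin IV_bin IV_binz binz nc newton padicNorm_nc_le pn_int pn_inv_le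
  pn_inv_nat_le pn_mul_le pn_sum_le pn_add_le pn_sub_le pn_H pn_ratio den)

/-! ### the derivative of an integer valued polynomial -/

theorem bin_succ (j : ℕ) : bin (j + 1) = C (((j : ℚ) + 1)⁻¹) * (bin j * (X - C (j : ℚ))) := by
  unfold bin
  rw [descPochhammer_succ_right, Nat.factorial_succ]
  have h1 : ((((j + 1) * j.factorial : ℕ)) : ℚ)⁻¹ = ((j : ℚ) + 1)⁻¹ * ((j.factorial : ℚ))⁻¹ := by
    push_cast
    rw [mul_inv]
  rw [h1, C_mul]
  have h2 : ((j : ℚ[X])) = C (j : ℚ) := by simp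
  rw [h2]
  ring

theorem bin_zero' : bin 0 = 1 := by
  unfold bin
  simp

theorem bin_eval_zero (j : ℕ) (hj : 1 ≤ j) : (bin j).eval 0 = 0 := by
  obtain ⟨i, rfl⟩ := Nat.exists_eq_add_of_le' hj
  have h := D23.bin_eval_nat (i + 1) 0
  simpa using h

theorem bin_deriv_zero (j : ℕ) :
    (derivative (bin (j + 1))).eval 0 = (-1) ^ j * (((j + 1 : ℕ) : ℚ))⁻¹ := by
  induction j with
  | zero =>
    rw [bin_succ, bin_zero']
    simp
  | succ j ih =>
    rw [bin_succ (j + 1), derivative_mul, derivative_C, zero_mul, zero_add, derivative_mul,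
      eval_mul, eval_add, eval_mul, eval_mul, ih, bin_eval_zero (j + 1) (by omega)]
    simp only [eval_C, eval_sub, eval_X, derivative_sub, derivative_X, derivative_C, sub_zero,
      eval_one, mul_one, zero_sub, add_zero]
    have h1 : ((j : ℚ) + 1) ≠ 0 := by positivity
    have h2 : ((j : ℚ) + 1 + 1) ≠ 0 := by positivity
    push_cast
    field_simp
    ring

section
variable (p : ℕ) [hp : Fact p.Prime]

theorem pn_deriv_zero (g : ℚ[X]) (hg : IV g) (D B : ℕ) (hD : g.natDegree < D) (hB : D ≤ B) :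
    padicNorm p ((derivative g).eval 0) ≤ B := by
  rw [newton g D hD, derivative_sum, eval_finsetSum]
  refine pn_sum_le p _ _ _ (by positivity) (fun j hj => ?_)
  have hj' := mem_range.mp hj
  rw [derivative_C_mul, eval_mul, eval_C]
  rcases Nat.eq_zero_or_pos j with h0 | h0
  · subst h0
    rw [bin_zero']
    simp
  · obtain ⟨i, rfl⟩ := Nat.exists_eq_add_of_le' h0
    rw [bin_deriv_zero]
    have h1 : padicNorm p (nc g (i + 1)) ≤ 1 :=
      padicNorm_nc_le p g 1 zero_le_one _ (fun t _ => by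
        obtain ⟨w, hw⟩ := hg t
        have : g.eval ((t : ℕ) : ℚ) = w := by exact_mod_cast hw
        rw [this]
        exact pn_int p w)
    have h2 : padicNorm p ((-1 : ℚ) ^ i) ≤ 1 := (D23.padicNorm_neg_one_pow p i).le
    have h3 := pn_mul_le p h1 (pn_mul_le p h2 (pn_inv_nat_le p (i + 1) B (by omega) (by omega)))
    rwa [one_mul, one_mul] at h3

theorem pn_deriv (g : ℚ[X]) (hg : IV g) (D B : ℕ) (hD : g.natDegree < D) (hB : D ≤ B) (z : ℤ) :
    padicNorm p ((derivative g).eval (z : ℚ)) ≤ B := by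
  have h1 := pn_deriv_zero p (g.comp (X + C (z : ℚ))) (hg.comp_add z) D B (by
    rw [natDegree_comp, natDegree_X_add_C, mul_one]
    exact hD) hB
  rw [derivative_comp, eval_mul, eval_comp] at h1
  simpa using h1

theorem pn_inv_int_le (w : ℤ) (B : ℕ) (hw : w ≠ 0) (h : w.natAbs ≤ B) :
    padicNorm p ((w : ℚ)⁻¹) ≤ B := by
  have h1 := pn_inv_nat_le p w.natAbs B (Int.natAbs_ne_zero.2 hw) h
  rcases Int.natAbs_eq w with h2 | h2
  · rw [h2]
    simpa using h1
  · have e : ((w : ℚ)⁻¹) = -(((w.natAbs : ℕ) : ℚ)⁻¹) := by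
      rw [← inv_neg]
      congr 1
      exact_mod_cast h2
    rw [e, padicNorm.neg]
    exact h1

theorem pn_lK (K : Finset ℕ) (k B : ℕ) (h : ∀ i ∈ K, ((i : ℤ) - k).natAbs ≤ B) :
    padicNorm p (lK K k) ≤ B := by
  unfold lK
  refine pn_sum_le p _ _ _ (by positivity) (fun i hi => ?_)
  obtain ⟨h1, h2⟩ := mem_erase.mp hi
  have h3 := pn_inv_int_le p ((i : ℤ) - k) B (by omega) (h i h2)
  rw [one_div]
  exact_mod_cast h3

omit hp in
/-- inside the block the quotient is an integer -/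
theorem fac_dK_mem (p1 r k : ℕ) (hk : k ∈ Ico p1 (p1 + r)) :
    ∃ w : ℤ, (r.factorial : ℚ) / dK (Ico p1 (p1 + r)) k = w := by
  obtain ⟨w, hw⟩ := D23.res_int p1 r 1 (fun z => ⟨1, by simp⟩) k hk
  refine ⟨w, ?_⟩
  rw [← hw]
  unfold D23.res dK
  rw [mul_one, eval_C, div_eq_mul_inv, mul_comm]

omit hp in
theorem dK_not (K : Finset ℕ) (k : ℕ) (hk : k ∉ K) : dK K k = ∏ i ∈ K, ((i : ℚ) - k) := by
  unfold dK
  rw [erase_eq_of_notMem hk]

/-- outside the block -/
theorem fac_dK_not (p1 r k B : ℕ) (hk : k ∉ Ico p1 (p1 + r)) (h1 : k < p1 → p1 + r ≤ B + k)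
    (h2 : p1 + r ≤ k → k ≤ B + p1) (hB : 1 ≤ B) :
    padicNorm p ((r.factorial : ℚ) / dK (Ico p1 (p1 + r)) k) ≤ B := by
  rw [dK_not _ _ hk]
  rcases Nat.lt_or_ge k p1 with h | h
  · have h3 := pn_ratio p p1 r (p1 - k) 1 (-(k : ℤ)) 1 (by simp) (by omega) (by omega)
    have e1 : (C (r.factorial : ℚ) * 1 : ℚ[X]).eval ((-(k : ℤ) : ℤ) : ℚ) = (r.factorial : ℚ) := by
      simp
    have e2 : (den (Ico p1 (p1 + r)) : ℚ[X]).eval ((-(k : ℤ) : ℤ) : ℚ) =
        ∏ i ∈ Ico p1 (p1 + r), ((i : ℚ) - k) := by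
      unfold den
      rw [eval_prod]
      refine prod_congr rfl (fun i _ => ?_)
      simp only [eval_add, eval_X, eval_C]
      push_cast
      ring
    rw [e1, e2] at h3
    refine h3.trans ?_
    have : p1 - k + r ≤ B := by
      have := h1 h
      omega
    exact_mod_cast this
  · have h4 : p1 + r ≤ k := by
      by_contra h5
      exact hk (mem_Ico.mpr ⟨h, by omega⟩)
    have e : ∏ i ∈ Ico p1 (p1 + r), ((i : ℚ) - k) =
        (-1) ^ r * ((r.factorial : ℚ) * (((k - p1).choose r : ℕ) : ℚ)) := by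
      rw [prod_Ico_eq_prod_range, Nat.add_sub_cancel_left]
      have h5 : ∀ i ∈ range r, ((((p1 + i : ℕ)) : ℚ) - k) = -((k - p1 - i : ℕ) : ℚ) := by
        intro i hi
        have := mem_range.mp hi
        rw [Nat.cast_sub (by omega), Nat.cast_sub (by omega)]
        push_cast
        ring
      rw [prod_congr rfl h5, prod_neg, card_range, ← Nat.cast_prod, ← Nat.descFactorial_eq_prod_range,
        Nat.descFactorial_eq_factorial_mul_choose]
      push_cast
      ring
    have h5 : (r.factorial : ℚ) ≠ 0 := by exact_mod_cast r.factorial_ne_zero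
    have h6 : (k - p1).choose r ≠ 0 := (Nat.choose_pos (by omega)).ne'
    have h7 : (((k - p1).choose r : ℕ) : ℚ) ≠ 0 := by exact_mod_cast h6
    have e3 : (r.factorial : ℚ) / ∏ i ∈ Ico p1 (p1 + r), ((i : ℚ) - k) =
        (-1) ^ r * ((((k - p1).choose r : ℕ) : ℚ))⁻¹ := by
      rw [e]
      have h8 : ((-1 : ℚ) ^ r) * (-1) ^ r = 1 := by
        rw [← mul_pow]
        norm_num
      have h9 : ((-1 : ℚ) ^ r) ≠ 0 := pow_ne_zero _ (by norm_num)
      rw [div_eq_iff (mul_ne_zero h9 (mul_ne_zero h5 h7))]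
      field_simp
      linear_combination (-1 : ℚ) * h8
    rw [e3]
    have h8 : p ^ ((k - p1).choose r).factorization p ≤ B := by
      rcases Nat.eq_zero_or_pos (k - p1) with h0 | h0
      · have hr : r = 0 := by omega
        subst hr
        simpa using hB
      · have h9 : p ^ ((k - p1).choose r).factorization p ≤ k - p1 :=
          Nat.pow_factorization_choose_le h0
        have := h2 h4
        omega
    have h9 := pn_mul_le p (D23.padicNorm_neg_one_pow p r).le (pn_inv_le p _ _ h6 h8)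
    rwa [one_mul] at h9

/-- **Crude bound of the entries** for double poles, for every prime. -/
theorem small_entry2 (p1 r1 q1 r2 v D B : ℕ) (h1 : p1 ≤ q1) (h2 : q1 + r2 ≤ p1 + r1)
    (hr : r1 ≤ B) (hv : p1 + r1 ≤ B + v) (g : ℚ[X]) (hg : IV g) (hD : g.natDegree < D)
    (hB : D ≤ B) (a b : ℤ) :
    padicNorm p ((a : ℚ) * (2 * ∑ k ∈ Ico p1 (p1 + r1),
        cA (C ((r1.factorial : ℚ) * (r2.factorial : ℚ)) * g) (Ico p1 (p1 + r1)) (Ico q1 (q1 + r2)) k) -
      b * ∑ k ∈ Ico p1 (p1 + r1), (2 * cA (C ((r1.factorial : ℚ) * (r2.factorial : ℚ)) * g)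
          (Ico p1 (p1 + r1)) (Ico q1 (q1 + r2)) k * H 3 (k - v) +
        cB (C ((r1.factorial : ℚ) * (r2.factorial : ℚ)) * g) (Ico p1 (p1 + r1))
          (Ico q1 (q1 + r2)) k * H 2 (k - v))) ≤ (B : ℚ) ^ 3 := by
  have hB1 : 1 ≤ B := by omega
  have hBq : (1 : ℚ) ≤ B := by exact_mod_cast hB1
  have hB3 : (1 : ℚ) ≤ (B : ℚ) ^ 3 := one_le_pow₀ hBq
  have hB0 : (0 : ℚ) ≤ B := by positivity
  set K1 := Ico p1 (p1 + r1) with hK1
  set K2 := Ico q1 (q1 + r2) with hK2
  set S : ℚ[X] := C ((r1.factorial : ℚ) * (r2.factorial : ℚ)) * g with hS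
  -- values
  have hSv : ∀ z : ℤ, ∃ w : ℤ, S.eval (z : ℚ) = (r1.factorial : ℚ) * (r2.factorial : ℚ) * w := by
    intro z
    obtain ⟨w, hw⟩ := hg z
    exact ⟨w, by rw [hS, eval_mul, eval_C, hw]⟩
  have hneg : ∀ k : ℕ, (-(k : ℚ)) = ((-(k : ℤ) : ℤ) : ℚ) := by
    intro k
    push_cast
    rfl
  have hlK1 : ∀ k ∈ K1, padicNorm p (lK K1 k) ≤ B := fun k hk => pn_lK p K1 k B (fun i hi => by
    have := mem_Ico.mp hk
    have := mem_Ico.mp hi
    omega)
  have hlK2 : ∀ k ∈ K1, padicNorm p (lK K2 k) ≤ B := fun k hk => pn_lK p K2 k B (fun i hi => by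
    have := mem_Ico.mp hk
    have := mem_Ico.mp hi
    omega)
  have hA : ∀ k ∈ K1, padicNorm p (cA S K1 K2 k) ≤ 1 := by
    intro k hk
    unfold cA
    split_ifs with hk2
    · obtain ⟨w, hw⟩ := hSv (-(k : ℤ))
      obtain ⟨w1, hw1⟩ := fac_dK_mem p1 r1 k hk
      obtain ⟨w2, hw2⟩ := fac_dK_mem q1 r2 k hk2
      have e : S.eval (-(k : ℚ)) / (dK K1 k * dK K2 k) = ((w1 * w2 * w : ℤ) : ℚ) := by
        rw [hneg, hw]
        push_cast
        rw [← hw1, ← hw2]
        ring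
      rw [e]
      exact pn_int p _
    · simp
  have hBk : ∀ k ∈ K1, padicNorm p (cB S K1 K2 k) ≤ B := by
    intro k hk
    obtain ⟨w, hw⟩ := hg (-(k : ℤ))
    obtain ⟨w1, hw1⟩ := fac_dK_mem p1 r1 k hk
    unfold cB
    split_ifs with hk2
    · obtain ⟨w2, hw2⟩ := fac_dK_mem q1 r2 k hk2
      have e : ((derivative S).eval (-(k : ℚ)) - S.eval (-(k : ℚ)) * (lK K1 k + lK K2 k)) /
          (dK K1 k * dK K2 k) = (w1 : ℚ) * ((w2 : ℚ) *
            ((derivative g).eval ((-(k : ℤ) : ℤ) : ℚ) - (w : ℚ) * (lK K1 k + lK K2 k))) := by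
        rw [hS, derivative_C_mul, eval_mul, eval_mul, eval_C, hneg, hw, ← hw1, ← hw2]
        ring
      rw [e]
      have h5 := pn_deriv p g hg D B hD hB (-(k : ℤ))
      have h6 := pn_mul_le p (pn_int p w) (pn_add_le p (hlK1 k hk) (hlK2 k hk))
      rw [one_mul] at h6
      have h7 := pn_mul_le p (pn_int p w1) (pn_mul_le p (pn_int p w2) (pn_sub_le p h5 h6))
      rwa [one_mul, one_mul] at h7
    · have h3 := fac_dK_not p q1 r2 k B hk2 (fun _ => by
        have := mem_Ico.mp hk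
        omega) (fun _ => by
        have := mem_Ico.mp hk
        omega) hB1
      have e : S.eval (-(k : ℚ)) / (dK K1 k * dK K2 k) =
          ((w1 * w : ℤ) : ℚ) * ((r2.factorial : ℚ) / dK K2 k) := by
        rw [hS, eval_mul, eval_C, hneg, hw]
        push_cast
        rw [← hw1]
        ring
      rw [e]
      have h7 := pn_mul_le p (pn_int p (w1 * w)) h3
      rwa [one_mul] at h7
  have hH : ∀ s : ℕ, ∀ k ∈ K1, padicNorm p (H s (k - v)) ≤ (B : ℚ) ^ s := fun s k hk =>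
    pn_H p s (k - v) B hB1 (by
      have := mem_Ico.mp hk
      omega)
  have h20 : padicNorm p (2 : ℚ) ≤ 1 := by exact_mod_cast pn_int p 2
  have hq : padicNorm p ((a : ℚ) * (2 * ∑ k ∈ K1, cA S K1 K2 k)) ≤ (B : ℚ) ^ 3 := by
    have h5 := pn_mul_le p (pn_int p a) (pn_mul_le p h20 (pn_sum_le p K1 _ 1 zero_le_one hA))
    rw [one_mul, one_mul] at h5
    exact h5.trans hB3
  have hp' : padicNorm p ((b : ℚ) * ∑ k ∈ K1, (2 * cA S K1 K2 k * H 3 (k - v) +
      cB S K1 K2 k * H 2 (k - v))) ≤ (B : ℚ) ^ 3 := by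
    have h5 : padicNorm p (∑ k ∈ K1, (2 * cA S K1 K2 k * H 3 (k - v) +
        cB S K1 K2 k * H 2 (k - v))) ≤ (B : ℚ) ^ 3 := by
      refine pn_sum_le p _ _ _ (by positivity) (fun k hk => pn_add_le p ?_ ?_)
      · have h6 := pn_mul_le p (pn_mul_le p h20 (hA k hk)) (hH 3 k hk)
        rwa [one_mul, one_mul] at h6
      · have h6 := pn_mul_le p (hBk k hk) (hH 2 k hk)
        refine h6.trans (le_of_eq ?_)
        ring
    have h6 := pn_mul_le p (pn_int p b) h5
    rwa [one_mul] at h6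
  exact pn_sub_le p hq hp'

/-- crude bound of the normalised determinant, one parameter `B` -/
theorem det_small_gen (p1 r1 q1 r2 v D B : ℕ) (h1 : p1 ≤ q1) (h2 : q1 + r2 ≤ p1 + r1)
    (hr : r1 ≤ B) (hv : p1 + r1 ≤ B + v) (g : ℚ[X]) (hg : IV g) (M : ℕ)
    (hD : 2 * M + g.natDegree < D) (hB : D ≤ B) (a b : ℤ) :
    padicNorm p ((gram (Lab (Ico p1 (p1 + r1)) (Ico q1 (q1 + r2)) v
      (C ((r1.factorial : ℚ) * (r2.factorial : ℚ)) * g) a b) (fun i => X ^ i) M).det /
        ∏ i ∈ range M, (i.factorial : ℚ) ^ 2) ≤ (B : ℚ) ^ (3 * M) := by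
  rw [pow_mul]
  refine D23.det_small p _ M ((B : ℚ) ^ 3) (by positivity) (fun i hi j hj => ?_)
  rw [Lab_apply, qL_apply, pL_apply]
  have e : bin i * bin j * (C ((r1.factorial : ℚ) * (r2.factorial : ℚ)) * g) =
      C ((r1.factorial : ℚ) * (r2.factorial : ℚ)) * (bin i * bin j * g) := by ring
  rw [e]
  refine small_entry2 p p1 r1 q1 r2 v D B h1 h2 hr hv _
    (((IV_bin i).mul (IV_bin j)).mul hg) ?_ hB a b
  have e1 := natDegree_mul_le (p := bin i * bin j) (q := g)
  have e2 := natDegree_mul_le (p := bin i) (q := bin j)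
  rw [D23.natDegree_bin, D23.natDegree_bin] at e2
  omega

/-- **Crude bound of the determinants of the family**, for every prime. -/
theorem det_small23 (n : ℕ) (a b : ℤ) (M : ℕ) (hM : M ≤ 5 * n) :
    padicNorm p (DD n a b M) ≤ ((23 * n + 1 : ℕ) : ℚ) ^ (3 * M) := by
  have e1 : ((5 * n).factorial : ℚ) ≠ 0 := by exact_mod_cast Nat.factorial_ne_zero _
  have e2 : ((7 * n).factorial : ℚ) ≠ 0 := by exact_mod_cast Nat.factorial_ne_zero _
  have hN : Nf n = C (((12 * n).factorial : ℚ) * ((10 * n).factorial : ℚ)) *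
      (binz 0 (7 * n) * binz n (6 * n)) := by
    unfold Nf numP Zf kf
    rw [Fin.prod_univ_two]
    simp only [Matrix.cons_val_zero, Matrix.cons_val_one]
    rw [range_eq_Ico, D23.prod_block 0 (7 * n) (by omega), D23.prod_block n (6 * n) (by omega)]
    have h3 : 6 * n - n = 5 * n := by omega
    rw [h3, Nat.sub_zero]
    have e : C (((12 * n).factorial : ℚ) * ((10 * n).factorial : ℚ)) =
        C (((12 * n).factorial : ℚ) * ((10 * n).factorial : ℚ) /
          (((7 * n).factorial : ℚ) * ((5 * n).factorial : ℚ))) *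
        (C (((7 * n).factorial : ℕ) : ℚ) * C (((5 * n).factorial : ℕ) : ℚ)) := by
      rw [← C_mul, ← C_mul]
      congr 1
      field_simp
    rw [e]
    unfold binz
    rw [h3, Nat.sub_zero]
    ring
  have hKa : Ka n = Ico (8 * n) (8 * n + 12 * n) := by
    unfold Ka
    congr 1
    omega
  have hKb : Kb n = Ico (9 * n) (9 * n + 10 * n) := by
    unfold Kb
    congr 1
    omega
  unfold DD LL
  rw [hN, hKa, hKb]
  refine det_small_gen p (8 * n) (12 * n) (9 * n) (10 * n) (6 * n) (23 * n + 1) (23 * n + 1)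
    (by omega) (by omega) (by omega) (by omega) _ ((IV_binz _ _).mul (IV_binz _ _)) M ?_ le_rfl a b
  have e3 := natDegree_mul_le (p := binz 0 (7 * n)) (q := binz n (6 * n))
  rw [D23.natDegree_binz, D23.natDegree_binz] at e3
  omega

/-- the same with the constants of the skeleton -/
theorem det_small (n : ℕ) (hn : 1 ≤ n) (a b : ℤ) (M : ℕ) (hM : M ≤ 5 * n) :
    padicNorm p (DD n a b M) ≤ ((20 * n : ℕ) : ℚ) ^ (12 * M) := by
  refine (det_small23 p n a b M hM).trans ?_
  have h1 : ((20 * n : ℕ) : ℚ) ^ (12 * M) = (((20 * n : ℕ) : ℚ) ^ 4) ^ (3 * M) := by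
    rw [← pow_mul]
    congr 1
    ring
  rw [h1]
  refine pow_le_pow_left₀ (by positivity) ?_ _
  have h2 : 23 * n + 1 ≤ (20 * n) ^ 4 := by
    have h3 : (20 * n) ^ 1 ≤ (20 * n) ^ 3 := Nat.pow_le_pow_right (by omega) (by omega)
    calc 23 * n + 1 ≤ 20 * n * (20 * n) := by nlinarith
      _ ≤ (20 * n) ^ 3 * (20 * n) := Nat.mul_le_mul_right _ (by simpa using h3)
      _ = (20 * n) ^ 4 := by ring
  exact_mod_cast h2

end

end Pool.Agent.Z3D
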