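import Pool.Agent.Z3D.Table
import Pool.Agent.Z3D.Inst
import Pool.Agent.Z3D.Small
import Pool.Agent.D23.Arith
import Pool.Agent.PNT.Main

/-!
# Lower bound of the nonzero normalised determinants
-/

open Finset Polynomial Filter Topology

namespace Pool.Agent.Z3D

/-- **Arithmetic lower bound.** -/
theorem arith_sum {e : ℝ} (he : 0 < e) : ∀ᶠ n : ℕ in atTop, ∀ M : ℕ, 5 * n ≤ M + 3 → M ≤ 5 * n →
    ∀ a b : ℤ, Dlt n a b M ≠ 0 →
      Real.exp (-((items.map D23.ival).sum + e) * (n : ℝ) ^ 2) ≤ |(Dlt n a b M : ℝ)| := by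
  have h := D23.arith_gen (PNT.theta_asymp) (ι := ℕ × ℤ × ℤ)
    (fun n i => Dlt n i.2.1 i.2.2 i.1) (fun n i => 5 * n ≤ i.1 + 3 ∧ i.1 ≤ 5 * n) items items_ok
    1000 (by norm_num) 20 60 (by norm_num) ?_ ?_ ?_ he
  · filter_upwards [h] with n hn M h1 h2 a b h3
    exact hn (M, a, b) ⟨h1, h2⟩ h3
  · rintro n hn ⟨M, a, b⟩ ⟨h1, h2⟩ p hp h3
    have : Fact p.Prime := ⟨hp⟩
    have hn' : (1 : ℚ) ≤ n := by exact_mod_cast hn
    simp only at h1 h2 ⊢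
    refine (show padicNorm p (Dlt n a b M) ≤ _ from det_small p n hn a b M h2).trans ?_
    calc ((20 * n : ℕ) : ℚ) ^ (12 * M) ≤ ((20 * n : ℕ) : ℚ) ^ (60 * n) := by
          refine pow_le_pow_right₀ ?_ (by omega)
          exact_mod_cast (by omega : 1 ≤ 20 * n)
      _ ≤ ((60 * n : ℕ) : ℚ) ^ (60 * n) := by
          refine pow_le_pow_left₀ (by positivity) ?_ _
          exact_mod_cast (by omega : 20 * n ≤ 60 * n)
  · rintro n hn ⟨M, a, b⟩ ⟨h1, h2⟩ p hp h3 h4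
    have : Fact p.Prime := ⟨hp⟩
    exact table n p M hn h3 h1 h2 a b h4
  · rintro n hn ⟨M, a, b⟩ ⟨h1, h2⟩ p hp h3 h4
    have : Fact p.Prime := ⟨hp⟩
    exact det_huge n M hn h3 h2 (by omega) a b

theorem arith {e : ℝ} (he : 0 < e) : ∀ᶠ n : ℕ in atTop, ∀ M : ℕ, 5 * n ≤ M + 3 → M ≤ 5 * n →
    ∀ a b : ℤ, Dlt n a b M ≠ 0 →
      Real.exp (-(6753 / 100 + e) * (n : ℝ) ^ 2) ≤ |(Dlt n a b M : ℝ)| := by
  filter_upwards [arith_sum he] with n hn M h1 h2 a b h3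
  refine le_trans (Real.exp_le_exp.mpr ?_) (hn M h1 h2 a b h3)
  have h4 := items_sum
  nlinarith [sq_nonneg (n : ℝ)]

end Pool.Agent.Z3D
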