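import Pool.Agent.Z3D.Dbl
import Pool.Agent.D23.CellList

/-!
The frozen family of the determinants for the irrationality exponent of zeta(3):
zeros `[0,7n)`, `[n,6n)`, poles `[8n,20n)`, `[9n,19n)` (double poles on `[9n,19n)`), degree
`-10 n`; lines `Re t = 1/2 - 2n` (analytic) and `Re t = 1/2 - 6n` (arithmetic), determinants of
size at most `5n`.

Every object has two names (the two halves of the project): `K1 = Ka`, `K2 = Kb`, `ZZ = Zf`,
`kap = kf`, `NN = Nf`, `Dlt = DD`.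
-/

open Finset Polynomial
open scoped Nat

namespace Pool.Agent.Z3D

open Pool.Agent.D23 (numP)

/-- the poles are the points `-k` -/
def K1 (n : ℕ) : Finset ℕ := Ico (8 * n) (20 * n)

/-- the double poles -/
def K2 (n : ℕ) : Finset ℕ := Ico (9 * n) (19 * n)

/-- the zero blocks -/
def ZZ (n : ℕ) : Fin 2 → Finset ℕ := ![range (7 * n), Ico n (6 * n)]

/-- the normalising constant -/
def kap (n : ℕ) : ℚ :=
  ((12 * n).factorial * (10 * n).factorial : ℚ) / ((7 * n).factorial * (5 * n).factorial)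

/-- the fixed part of the numerator -/
noncomputable def NN (n : ℕ) : ℚ[X] := C (kap n) * D23.numP (ZZ n)

/-- zero blocks -/
def Zf (n : ℕ) : Fin 2 → Finset ℕ := ![range (7 * n), Ico n (6 * n)]

/-- long pole block -/
def Ka (n : ℕ) : Finset ℕ := Ico (8 * n) (20 * n)

/-- short pole block -/
def Kb (n : ℕ) : Finset ℕ := Ico (9 * n) (19 * n)

/-- normalising constant -/
def kf (n : ℕ) : ℚ :=
  (((12 * n)! : ℕ) : ℚ) * (((10 * n)! : ℕ) : ℚ) / ((((7 * n)! : ℕ) : ℚ) * (((5 * n)! : ℕ) : ℚ))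

/-- the fixed numerator -/
noncomputable def Nf (n : ℕ) : ℚ[X] := C (kf n) * numP (Zf n)

/-- the rational functional `a q - b p`, rational part taken on the line `Re t = 1/2 - 6 n` -/
noncomputable def LL (n : ℕ) (a b : ℤ) : ℚ[X] →ₗ[ℚ] ℚ := Lab (Ka n) (Kb n) (6 * n) (Nf n) a b

/-- the normalised determinant -/
noncomputable def DD (n : ℕ) (a b : ℤ) (M : ℕ) : ℚ :=
  (gram (LL n a b) (fun i => (X : ℚ[X]) ^ i) M).det / ∏ j ∈ range M, ((j ! : ℕ) : ℚ) ^ 2

/-- the normalised determinant -/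
noncomputable def Dlt (n : ℕ) (a b : ℤ) (M : ℕ) : ℚ :=
  (gram (LL n a b) (fun i => (X : ℚ[X]) ^ i) M).det / ∏ j ∈ range M, (j.factorial : ℚ) ^ 2

theorem Ka_eq (n : ℕ) : Ka n = K1 n := rfl

theorem Kb_eq (n : ℕ) : Kb n = K2 n := rfl

theorem Zf_eq (n : ℕ) : Zf n = ZZ n := rfl

theorem kf_eq (n : ℕ) : kf n = kap n := rfl

theorem Nf_eq (n : ℕ) : Nf n = NN n := rfl

theorem LL_eq (n : ℕ) (a b : ℤ) : LL n a b = Lab (K1 n) (K2 n) (6 * n) (NN n) a b := rfl

theorem DD_eq (n : ℕ) (a b : ℤ) (M : ℕ) : DD n a b M = Dlt n a b M := rfl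

/-- the valuation of `kap` for `12 n < p ^ 2` -/
def ee (n p : ℕ) : ℤ := ((12 * n / p : ℕ) : ℤ) + ((10 * n / p : ℕ) : ℤ) -
  ((7 * n / p : ℕ) : ℤ) - ((5 * n / p : ℕ) : ℤ)

/-- zeros minus poles (with multiplicity) in the class `s` -/
def ph (n p s : ℕ) : ℤ := (D23.Cell.icnt 0 (7 * n) p s : ℤ) + (D23.Cell.icnt n (6 * n) p s : ℤ) -
  (D23.Cell.icnt (8 * n) (20 * n) p s : ℤ) - (D23.Cell.icnt (9 * n) (19 * n) p s : ℤ)

/-- the class `s` may contain a pole `-k` with `6 n + p ≤ k` -/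
def far (n p s : ℕ) : Prop := 0 < D23.Cell.icnt (6 * n + p) (20 * n) p s

instance (n p : ℕ) : DecidablePred (far n p) := fun s => by unfold far; infer_instance

theorem LL_apply (n : ℕ) (a b : ℤ) (P : ℚ[X]) : LL n a b P =
    (a : ℚ) * qL (K1 n) (K2 n) (NN n) P - (b : ℚ) * pL (K1 n) (K2 n) (6 * n) (NN n) P := rfl

theorem mem_K1 {n k : ℕ} : k ∈ K1 n ↔ 8 * n ≤ k ∧ k < 20 * n := by
  unfold K1
  exact mem_Ico

theorem mem_K2 {n k : ℕ} : k ∈ K2 n ↔ 9 * n ≤ k ∧ k < 19 * n := by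
  unfold K2
  exact mem_Ico

theorem K2_sub (n : ℕ) : K2 n ⊆ K1 n := by
  intro k hk
  rw [mem_K2] at hk
  rw [mem_K1]
  omega

theorem Kb_sub (n : ℕ) : Kb n ⊆ Ka n := by
  intro k hk
  simp only [Ka, Kb, mem_Ico] at hk ⊢
  omega

theorem K1_card (n : ℕ) : (K1 n).card = 12 * n := by
  unfold K1
  rw [Nat.card_Ico]
  omega

theorem K2_card (n : ℕ) : (K2 n).card = 10 * n := by
  unfold K2
  rw [Nat.card_Ico]
  omega

theorem kap_pos (n : ℕ) : 0 < kap n := by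
  unfold kap
  positivity

theorem kap_ne (n : ℕ) : kap n ≠ 0 := (kap_pos n).ne'

theorem numP_ZZ (n : ℕ) : D23.numP (ZZ n) =
    (∏ i ∈ range (7 * n), (X + C (i : ℚ))) * ∏ i ∈ Ico n (6 * n), (X + C (i : ℚ)) := by
  unfold D23.numP ZZ
  rw [Fin.prod_univ_two]
  rfl

theorem natDegree_NN (n : ℕ) : (NN n).natDegree = 12 * n := by
  unfold NN
  rw [natDegree_C_mul (kap_ne n), numP_ZZ,
    natDegree_mul (prod_ne_zero_iff.mpr fun i _ => X_add_C_ne_zero _)
      (prod_ne_zero_iff.mpr fun i _ => X_add_C_ne_zero _),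
    natDegree_prod _ _ (fun i _ => X_add_C_ne_zero _),
    natDegree_prod _ _ (fun i _ => X_add_C_ne_zero _)]
  simp only [natDegree_X_add_C, sum_const, card_range, Nat.card_Ico, smul_eq_mul, mul_one]
  omega

theorem phi2_eq (n p s : ℕ) : phi2 (ZZ n) (K1 n) (K2 n) p s = ph n p s := by
  unfold phi2 ph ZZ K1 K2
  rw [Fin.sum_univ_two, range_eq_Ico]
  rfl

end Pool.Agent.Z3D
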