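import Pool.Agent.Z3D.ANum
import Pool.Agent.Z3D.Fam
import Pool.Agent.D23.PmVal

/-!
The values of the rows at the poles, weighted with the coefficients of the double poles:
groups of rows with a node of multiplicity `g N` at `160 N`, `g = 0, 3, 6`, family parameter `10 N`.
-/

open Finset Polynomial
open scoped BigOperators Nat

namespace Pool.Agent.Z3D

open Pool.Agent.Z23 (cA)
open Pool.Agent.D23 (Pm pv Pm_val_norm pv_le pv_nonneg numP)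

theorem cA_NN (n k : ℕ) (h1 : 9 * n ≤ k) (h2 : k < 19 * n) :
    |cA (NN n) (K1 n) (K2 n) k| = 120 * (n : ℚ) ^ 2 * (WB n k : ℚ) := by
  unfold NN K1 K2
  refine cA_abs n k h1 h2 (kap n) rfl _ ?_
  rw [numP_ZZ, eval_mul, eval_prod, eval_prod, range_eq_Ico]
  congr 1
  · refine prod_congr rfl fun i _ => ?_
    simp
    ring
  · refine prod_congr rfl fun i _ => ?_
    simp
    ring

/-- the value of `Pm` at a pole -/
theorem Pm_pole (n i k : ℕ) (hk : 8 * n ≤ k) :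
    ‖(Pm (4 * n) (1 / 2 - ((2 * n : ℕ) : ℝ)) i).eval (-(k : ℂ))‖ ^ 2 ≤
      ((i ! : ℝ) / 4 ^ i) ^ 2 * (13 / 12) ^ (16 * n + 2) * 13 ^ (2 * i) *
        (1 + 2 * (1 / 12 : ℝ)) ^ (4 * k - 16 * n) := by
  have h1 := Pm_val_norm (4 * n) (1 / 2 - ((2 * n : ℕ) : ℝ)) i (2 * k + 1 - 4 * n) (by omega)
  have e1 : (((1 / 2 - ((2 * n : ℕ) : ℝ)) - ((2 * k + 1 - 4 * n : ℕ) : ℝ) / 2 : ℝ) : ℂ) =
      -(k : ℂ) := by
    rw [Nat.cast_sub (by omega)]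
    push_cast
    ring
  have e2 : 2 * k + 1 - 4 * n - 4 * n - 1 = 2 * k - 8 * n := by omega
  have e3 : 2 * (4 * n) + 1 = 8 * n + 1 := by ring
  rw [e1, e2, e3] at h1
  have h2 := pv_le (8 * n + 1) (2 * k - 8 * n) i (1 / 12) (by norm_num)
  have h0 := pv_nonneg (8 * n + 1) (2 * k - 8 * n) i
  have h3 : pv (8 * n + 1) (2 * k - 8 * n) i ≤
      (13 / 12) ^ (8 * n + 1) * 13 ^ i * (1 + 2 * (1 / 12 : ℝ)) ^ (2 * k - 8 * n) := by
    have h4 : (1 + (1 / 12 : ℝ)) ^ (8 * n + 1 + i) = (13 / 12) ^ (8 * n + 1) * 13 ^ i * (1 / 12) ^ i := by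
      rw [pow_add, mul_assoc, ← mul_pow]
      norm_num
    rw [h4] at h2
    have h5 : (0 : ℝ) < (1 / 12) ^ i := by positivity
    refine le_of_mul_le_mul_right (h2.trans (le_of_eq ?_)) h5
    ring
  rw [h1]
  calc ((i ! : ℝ) / 4 ^ i * pv (8 * n + 1) (2 * k - 8 * n) i) ^ 2
      ≤ ((i ! : ℝ) / 4 ^ i * ((13 / 12) ^ (8 * n + 1) * 13 ^ i *
          (1 + 2 * (1 / 12 : ℝ)) ^ (2 * k - 8 * n))) ^ 2 := by gcongr
    _ = _ := by
      have e4 : 4 * k - 16 * n = 2 * (2 * k - 8 * n) := by omega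
      have e5 : 16 * n + 2 = 2 * (8 * n + 1) := by ring
      rw [e4, e5, pow_mul (13 / 12 : ℝ) 2, pow_mul (13 : ℝ) 2, pow_mul (1 + 2 * (1 / 12 : ℝ)) 2]
      rw [← pow_mul, ← pow_mul, ← pow_mul]
      ring

/-- the sum over the poles, one row -/
theorem sum_poles (n R i : ℕ) (ψ : ℝ)
    (hterm : ∀ k : ℕ, 9 * n ≤ k → k < 19 * n →
      (WB n k : ℝ) * (1 + 2 * (1 / 12 : ℝ)) ^ (4 * k - 16 * n) *
        |(16 * n : ℝ) - k| ^ (2 * R) ≤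
        (n : ℝ) ^ (2 * R) * Real.exp ((ψ - 16 * Real.log (13 / 12)) * n)) :
    ∑ k ∈ K1 n, |((2 * cA (NN n) (K1 n) (K2 n) k : ℚ) : ℝ)| *
        ‖(Pm (4 * n) (1 / 2 - ((2 * n : ℕ) : ℝ)) i *
          (X + C (((16 * n : ℕ) : ℂ))) ^ R).eval (-(k : ℂ))‖ ^ 2 ≤
      2400 * (13 / 12) ^ 2 * (n : ℝ) ^ 3 * Real.exp (ψ * n) * (n : ℝ) ^ (2 * R) *
        ((i ! : ℝ) / 4 ^ i) ^ 2 * 13 ^ (2 * i) := by
  set Z : ℝ := ((i ! : ℝ) / 4 ^ i) ^ 2 * (13 / 12) ^ (16 * n + 2) * 13 ^ (2 * i) with hZ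
  have hone : ∀ k ∈ K2 n, |((2 * cA (NN n) (K1 n) (K2 n) k : ℚ) : ℝ)| *
        ‖(Pm (4 * n) (1 / 2 - ((2 * n : ℕ) : ℝ)) i *
          (X + C (((16 * n : ℕ) : ℂ))) ^ R).eval (-(k : ℂ))‖ ^ 2 ≤
      240 * (n : ℝ) ^ 2 * Z *
        ((n : ℝ) ^ (2 * R) * Real.exp ((ψ - 16 * Real.log (13 / 12)) * n)) := by
    intro k hk
    obtain ⟨hk1, hk2⟩ := mem_K2.mp hk
    have h2 : |((2 * cA (NN n) (K1 n) (K2 n) k : ℚ) : ℝ)| = 240 * (n : ℝ) ^ 2 * (WB n k : ℝ) := by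
      have h3 : |(2 * cA (NN n) (K1 n) (K2 n) k : ℚ)| = 240 * (n : ℚ) ^ 2 * (WB n k : ℚ) := by
        rw [abs_mul, cA_NN n k hk1 hk2, abs_of_nonneg (by norm_num : (0 : ℚ) ≤ 2)]
        ring
      rw [← Rat.cast_abs, h3]
      push_cast
      ring
    have h4 := Pm_pole n i k (by omega)
    have e3 : ‖((X : ℂ[X]) + C (((16 * n : ℕ) : ℂ))).eval (-(k : ℂ))‖ = |(16 * n : ℝ) - k| := by
      rw [eval_add, eval_X, eval_C]
      have : (-(k : ℂ) + ((16 * n : ℕ) : ℂ)) = (((16 * n : ℝ) - k : ℝ) : ℂ) := by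
        push_cast
        ring
      rw [this, Complex.norm_real, Real.norm_eq_abs]
    rw [h2, eval_mul, eval_pow, norm_mul, norm_pow, e3, mul_pow, ← pow_mul, mul_comm R 2]
    have h5 := hterm k hk1 hk2
    calc 240 * (n : ℝ) ^ 2 * (WB n k : ℝ) *
          (‖(Pm (4 * n) (1 / 2 - ((2 * n : ℕ) : ℝ)) i).eval (-(k : ℂ))‖ ^ 2 *
            |(16 * n : ℝ) - k| ^ (2 * R))
        ≤ 240 * (n : ℝ) ^ 2 * (WB n k : ℝ) *
          ((Z * (1 + 2 * (1 / 12 : ℝ)) ^ (4 * k - 16 * n)) * |(16 * n : ℝ) - k| ^ (2 * R)) := by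
          gcongr
      _ = 240 * (n : ℝ) ^ 2 * Z * ((WB n k : ℝ) *
          (1 + 2 * (1 / 12 : ℝ)) ^ (4 * k - 16 * n) * |(16 * n : ℝ) - k| ^ (2 * R)) := by ring
      _ ≤ _ := by gcongr
  rw [← sum_subset (K2_sub n) (fun k _ hk => by
    have : cA (NN n) (K1 n) (K2 n) k = 0 := by
      unfold cA
      rw [if_neg hk]
    rw [this]
    simp)]
  refine (sum_le_sum hone).trans ?_
  rw [sum_const, nsmul_eq_mul, K2_card]
  have e6 : (13 / 12 : ℝ) ^ (16 * n) * Real.exp ((ψ - 16 * Real.log (13 / 12)) * n) =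
      Real.exp (ψ * n) := by
    have h1 : (13 / 12 : ℝ) ^ (16 * n) = Real.exp (16 * Real.log (13 / 12) * n) := by
      rw [← Real.exp_log (by positivity : (0 : ℝ) < (13 / 12) ^ (16 * n)), Real.log_pow]
      congr 1
      push_cast
      ring
    rw [h1, ← Real.exp_add]
    congr 1
    ring
  rw [← e6, hZ, pow_add]
  push_cast
  exact le_of_eq (by ring)

theorem term0 (N k : ℕ) (hN : 1 ≤ N) (h1 : 9 * (10 * N) ≤ k) (h2 : k < 19 * (10 * N)) :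
    (WB (10 * N) k : ℝ) * (1 + 2 * (1 / 12 : ℝ)) ^ (4 * k - 16 * (10 * N)) *
        |(16 * ((10 * N : ℕ) : ℝ)) - k| ^ (2 * (0 * N)) ≤
      ((10 * N : ℕ) : ℝ) ^ (2 * (0 * N)) *
        Real.exp ((42.95 - 16 * Real.log (13 / 12)) * ((10 * N : ℕ) : ℝ)) :=
  node_term (10 * N) (0 * N) k (by omega) h1 h2 (1 / 12) (42.95 - 16 * Real.log (13 / 12)) 0
    (by norm_num) le_rfl (by simp) 2 (2401 / 972) (7 / 9) (1 / 2) 1 (by norm_num) (by norm_num)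
    (by norm_num) (by norm_num) (by norm_num) 2 (2401 / 972) (7 / 9) (1 / 2) 1 (by norm_num)
    (by norm_num) (by norm_num) (by norm_num) (by norm_num) end0L9 end0L16 end0R16 end0R19

theorem term3 (N k : ℕ) (hN : 1 ≤ N) (h1 : 9 * (10 * N) ≤ k) (h2 : k < 19 * (10 * N)) :
    (WB (10 * N) k : ℝ) * (1 + 2 * (1 / 12 : ℝ)) ^ (4 * k - 16 * (10 * N)) *
        |(16 * ((10 * N : ℕ) : ℝ)) - k| ^ (2 * (3 * N)) ≤
      ((10 * N : ℕ) : ℝ) ^ (2 * (3 * N)) *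
        Real.exp ((42.545 - 16 * Real.log (13 / 12)) * ((10 * N : ℕ) : ℝ)) :=
  node_term (10 * N) (3 * N) k (by omega) h1 h2 (1 / 12) (42.545 - 16 * Real.log (13 / 12)) (3 / 10)
    (by norm_num) (by norm_num) (by push_cast; ring) (3 / 2) (5 / 3) (5 / 6) (4 / 7) (4 / 5)
    (by norm_num) (by norm_num)
    (by norm_num) (by norm_num) (by norm_num) (14 / 5) (7 / 2) (5 / 7) (5 / 11) (4 / 5) (by norm_num)
    (by norm_num) (by norm_num) (by norm_num) (by norm_num) end3L9 end3L16 end3R16 end3R19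

theorem term6 (N k : ℕ) (hN : 1 ≤ N) (h1 : 9 * (10 * N) ≤ k) (h2 : k < 19 * (10 * N)) :
    (WB (10 * N) k : ℝ) * (1 + 2 * (1 / 12 : ℝ)) ^ (4 * k - 16 * (10 * N)) *
        |(16 * ((10 * N : ℕ) : ℝ)) - k| ^ (2 * (6 * N)) ≤
      ((10 * N : ℕ) : ℝ) ^ (2 * (6 * N)) *
        Real.exp ((42.52 - 16 * Real.log (13 / 12)) * ((10 * N : ℕ) : ℝ)) :=
  node_term (10 * N) (6 * N) k (by omega) h1 h2 (1 / 12) (42.52 - 16 * Real.log (13 / 12)) (3 / 5)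
    (by norm_num) (by norm_num) (by push_cast; ring) (4 / 3) (10 / 7) (7 / 8) (5 / 9) (6 / 5)
    (by norm_num) (by norm_num)
    (by norm_num) (by norm_num) (by norm_num) (16 / 5) (17 / 4) (9 / 13) (4 / 9) (12 / 11)
    (by norm_num)
    (by norm_num) (by norm_num) (by norm_num) (by norm_num) end6L9 end6L16 end6R16 end6R19

/-- exponents of the three groups of rows -/
noncomputable def phA (g : ℕ) : ℝ := if g = 0 then 42.95 else if g = 3 then 42.545 else 42.52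

/-- **Values at the poles**, node written as `16 (10 N)`. -/
theorem aside_n (g : ℕ) (hg : g ∈ ({0, 3, 6} : Finset ℕ)) (N j : ℕ) (hN : 1 ≤ N) :
    ∑ k ∈ K1 (10 * N), |((2 * cA (NN (10 * N)) (K1 (10 * N)) (K2 (10 * N)) k : ℚ) : ℝ)| *
      ‖(Pm (4 * (10 * N)) (1 / 2 - ((2 * (10 * N) : ℕ) : ℝ)) (j - g * N) *
        (X + C (((16 * (10 * N) : ℕ) : ℂ))) ^ (g * N)).eval (-(k : ℂ))‖ ^ 2 ≤
      2816667 * (N : ℝ) ^ 3 * Real.exp (phA g * (10 * N)) * (10 * N) ^ (2 * (g * N)) *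
        (((j - g * N)! : ℝ) / 4 ^ (j - g * N)) ^ 2 * 13 ^ (2 * (j - g * N)) := by
  have key : ∑ k ∈ K1 (10 * N), |((2 * cA (NN (10 * N)) (K1 (10 * N)) (K2 (10 * N)) k : ℚ) : ℝ)| *
        ‖(Pm (4 * (10 * N)) (1 / 2 - ((2 * (10 * N) : ℕ) : ℝ)) (j - g * N) *
          (X + C (((16 * (10 * N) : ℕ) : ℂ))) ^ (g * N)).eval (-(k : ℂ))‖ ^ 2 ≤
      2400 * (13 / 12) ^ 2 * (((10 * N : ℕ) : ℝ)) ^ 3 * Real.exp (phA g * ((10 * N : ℕ) : ℝ)) *
        (((10 * N : ℕ) : ℝ)) ^ (2 * (g * N)) *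
        (((j - g * N)! : ℝ) / 4 ^ (j - g * N)) ^ 2 * 13 ^ (2 * (j - g * N)) := by
    simp only [mem_insert, mem_singleton] at hg
    rcases hg with rfl | rfl | rfl
    · have e : phA 0 = 42.95 := by unfold phA; norm_num
      rw [e]
      exact sum_poles (10 * N) (0 * N) (j - 0 * N) 42.95 (fun k h1 h2 => term0 N k hN h1 h2)
    · have e : phA 3 = 42.545 := by unfold phA; norm_num
      rw [e]
      exact sum_poles (10 * N) (3 * N) (j - 3 * N) 42.545 (fun k h1 h2 => term3 N k hN h1 h2)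
    · have e : phA 6 = 42.52 := by unfold phA; norm_num
      rw [e]
      exact sum_poles (10 * N) (6 * N) (j - 6 * N) 42.52 (fun k h1 h2 => term6 N k hN h1 h2)
  refine key.trans ?_
  push_cast
  have h1 : (0 : ℝ) ≤ (N : ℝ) ^ 3 * Real.exp (phA g * (10 * N)) * (10 * N) ^ (2 * (g * N)) *
        (((j - g * N)! : ℝ) / 4 ^ (j - g * N)) ^ 2 * 13 ^ (2 * (j - g * N)) := by positivity
  calc 2400 * (13 / 12) ^ 2 * (10 * (N : ℝ)) ^ 3 * Real.exp (phA g * (10 * N)) *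
        (10 * (N : ℝ)) ^ (2 * (g * N)) * (((j - g * N)! : ℝ) / 4 ^ (j - g * N)) ^ 2 *
        13 ^ (2 * (j - g * N)) = (2400 * (13 / 12) ^ 2 * 1000) * ((N : ℝ) ^ 3 *
        Real.exp (phA g * (10 * N)) * (10 * N) ^ (2 * (g * N)) *
        (((j - g * N)! : ℝ) / 4 ^ (j - g * N)) ^ 2 * 13 ^ (2 * (j - g * N))) := by ring
    _ ≤ 2816667 * ((N : ℝ) ^ 3 *
        Real.exp (phA g * (10 * N)) * (10 * N) ^ (2 * (g * N)) *
        (((j - g * N)! : ℝ) / 4 ^ (j - g * N)) ^ 2 * 13 ^ (2 * (j - g * N))) := by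
        apply mul_le_mul_of_nonneg_right _ h1
        norm_num
    _ = _ := by ring

/-- **Values at the poles.** -/
theorem aside' (g : ℕ) (hg : g ∈ ({0, 3, 6} : Finset ℕ)) (N j : ℕ) (hN : 1 ≤ N) :
    ∑ k ∈ K1 (10 * N), |((2 * cA (NN (10 * N)) (K1 (10 * N)) (K2 (10 * N)) k : ℚ) : ℝ)| *
      ‖(Pm (4 * (10 * N)) (1 / 2 - ((2 * (10 * N) : ℕ) : ℝ)) (j - g * N) *
        (X + C ((160 * N : ℕ) : ℂ)) ^ (g * N)).eval (-(k : ℂ))‖ ^ 2 ≤
      2816667 * (N : ℝ) ^ 3 * Real.exp (phA g * (10 * N)) * (10 * N) ^ (2 * (g * N)) *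
        (((j - g * N)! : ℝ) / 4 ^ (j - g * N)) ^ 2 * 13 ^ (2 * (j - g * N)) := by
  have e1 : 160 * N = 16 * (10 * N) := by ring
  rw [e1]
  exact aside_n g hg N j hN

end Pool.Agent.Z3D
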