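import Pool.Agent.Z3D.ANumB
import Pool.Agent.Z3D.Aside

/-!
The values of the rows at the poles, seven groups of rows with a node of multiplicity `R N` at
`320 N`, `R = 0, 2, 5, 7, 10, 13, 15`, family parameter `20 N`.
-/

open Finset Polynomial
open scoped BigOperators Nat

namespace Pool.Agent.Z3D

open Pool.Agent.Z23 (cA)
open Pool.Agent.D23 (Pm)

/-- exponents of the seven groups of rows -/
noncomputable def phB (R : ℕ) : ℝ :=
  if R = 0 then 42.942 else if R = 2 then 42.711 else if R = 5 then 42.567 else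
  if R = 7 then 42.523 else if R = 10 then 42.505 else if R = 13 then 42.529 else 42.563

/-- **Values at the poles**, `n = 20 N`. -/
theorem aside20 (R : ℕ) (hR : R ∈ ({0, 2, 5, 7, 10, 13, 15} : Finset ℕ)) (N j : ℕ) (hN : 1 ≤ N) :
    ∑ k ∈ K1 (20 * N), |((2 * cA (NN (20 * N)) (K1 (20 * N)) (K2 (20 * N)) k : ℚ) : ℝ)| *
      ‖(Pm (4 * (20 * N)) (1 / 2 - ((2 * (20 * N) : ℕ) : ℝ)) (j - R * N) *
        (X + C (((16 * (20 * N) : ℕ) : ℂ))) ^ (R * N)).eval (-(k : ℂ))‖ ^ 2 ≤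
      22533334 * (N : ℝ) ^ 3 * Real.exp (phB R * (20 * N)) * (20 * N) ^ (2 * (R * N)) *
        (169 / 16) ^ (j - R * N) * ((j - R * N)! : ℝ) ^ 2 := by
  have key : ∑ k ∈ K1 (20 * N), |((2 * cA (NN (20 * N)) (K1 (20 * N)) (K2 (20 * N)) k : ℚ) : ℝ)| *
        ‖(Pm (4 * (20 * N)) (1 / 2 - ((2 * (20 * N) : ℕ) : ℝ)) (j - R * N) *
          (X + C (((16 * (20 * N) : ℕ) : ℂ))) ^ (R * N)).eval (-(k : ℂ))‖ ^ 2 ≤
      2400 * (13 / 12) ^ 2 * (((20 * N : ℕ) : ℝ)) ^ 3 * Real.exp (phB R * ((20 * N : ℕ) : ℝ)) *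
        (((20 * N : ℕ) : ℝ)) ^ (2 * (R * N)) *
        (((j - R * N)! : ℝ) / 4 ^ (j - R * N)) ^ 2 * 13 ^ (2 * (j - R * N)) := by
    simp only [mem_insert, mem_singleton] at hR
    rcases hR with rfl | rfl | rfl | rfl | rfl | rfl | rfl
    · have e : phB 0 = 42.942 := by unfold phB; norm_num
      rw [e]
      exact sum_poles (20 * N) (0 * N) (j - 0 * N) 42.942 (fun k h1 h2 => termB0 N k hN h1 h2)
    · have e : phB 2 = 42.711 := by unfold phB; norm_num
      rw [e]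
      exact sum_poles (20 * N) (2 * N) (j - 2 * N) 42.711 (fun k h1 h2 => termB2 N k hN h1 h2)
    · have e : phB 5 = 42.567 := by unfold phB; norm_num
      rw [e]
      exact sum_poles (20 * N) (5 * N) (j - 5 * N) 42.567 (fun k h1 h2 => termB5 N k hN h1 h2)
    · have e : phB 7 = 42.523 := by unfold phB; norm_num
      rw [e]
      exact sum_poles (20 * N) (7 * N) (j - 7 * N) 42.523 (fun k h1 h2 => termB7 N k hN h1 h2)
    · have e : phB 10 = 42.505 := by unfold phB; norm_num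
      rw [e]
      exact sum_poles (20 * N) (10 * N) (j - 10 * N) 42.505 (fun k h1 h2 => termB10 N k hN h1 h2)
    · have e : phB 13 = 42.529 := by unfold phB; norm_num
      rw [e]
      exact sum_poles (20 * N) (13 * N) (j - 13 * N) 42.529 (fun k h1 h2 => termB13 N k hN h1 h2)
    · have e : phB 15 = 42.563 := by unfold phB; norm_num
      rw [e]
      exact sum_poles (20 * N) (15 * N) (j - 15 * N) 42.563 (fun k h1 h2 => termB15 N k hN h1 h2)
  refine key.trans ?_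
  push_cast
  have e1 : (((j - R * N)! : ℝ) / 4 ^ (j - R * N)) ^ 2 * 13 ^ (2 * (j - R * N)) =
      (169 / 16) ^ (j - R * N) * ((j - R * N)! : ℝ) ^ 2 := by
    rw [div_pow, ← pow_mul, mul_comm (j - R * N) 2, pow_mul, pow_mul, div_pow]
    norm_num
    ring
  have h1 : (0 : ℝ) ≤ (N : ℝ) ^ 3 * Real.exp (phB R * (20 * N)) * (20 * N) ^ (2 * (R * N)) *
        ((169 / 16) ^ (j - R * N) * ((j - R * N)! : ℝ) ^ 2) := by positivity
  calc 2400 * (13 / 12) ^ 2 * (20 * (N : ℝ)) ^ 3 * Real.exp (phB R * (20 * N)) *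
        (20 * (N : ℝ)) ^ (2 * (R * N)) * (((j - R * N)! : ℝ) / 4 ^ (j - R * N)) ^ 2 *
        13 ^ (2 * (j - R * N)) = 2400 * (13 / 12) ^ 2 * (20 * (N : ℝ)) ^ 3 *
        Real.exp (phB R * (20 * N)) * (20 * (N : ℝ)) ^ (2 * (R * N)) *
        ((((j - R * N)! : ℝ) / 4 ^ (j - R * N)) ^ 2 * 13 ^ (2 * (j - R * N))) := by ring
    _ = (2400 * (13 / 12) ^ 2 * 8000) * ((N : ℝ) ^ 3 *
        Real.exp (phB R * (20 * N)) * (20 * N) ^ (2 * (R * N)) *
        ((169 / 16) ^ (j - R * N) * ((j - R * N)! : ℝ) ^ 2)) := by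
        rw [e1]
        ring
    _ ≤ 22533334 * ((N : ℝ) ^ 3 *
        Real.exp (phB R * (20 * N)) * (20 * N) ^ (2 * (R * N)) *
        ((169 / 16) ^ (j - R * N) * ((j - R * N)! : ℝ) ^ 2)) := by
        apply mul_le_mul_of_nonneg_right _ h1
        norm_num
    _ = _ := by ring

end Pool.Agent.Z3D
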