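import Pool.Agent.Z3D.Greedy

/-!
# The greedy choice of nodes with general offers

`o t u` is the offer of the class `t` after `u` uses.
-/

open Finset

namespace Pool.Agent.Z3D

/-- the states of the greedy procedure -/
noncomputable def ostate (S : Finset ℕ) (hS : S.Nonempty) (o : ℕ → ℕ → ℤ) : ℕ → (ℕ → ℕ)
  | 0 => fun _ => 0
  | i + 1 => fun t => ostate S hS o i t +
      if Classical.choose (S.exists_max_image (fun t => o t (ostate S hS o i t)) hS) = t then 1
      else 0

/-- the class chosen at step `i` -/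
noncomputable def oseq (S : Finset ℕ) (hS : S.Nonempty) (o : ℕ → ℕ → ℤ) (i : ℕ) : ℕ :=
  Classical.choose (S.exists_max_image (fun t => o t (ostate S hS o i t)) hS)

theorem ostate_zero (S : Finset ℕ) (hS : S.Nonempty) (o : ℕ → ℕ → ℤ) (t : ℕ) :
    ostate S hS o 0 t = 0 := rfl

theorem ostate_succ (S : Finset ℕ) (hS : S.Nonempty) (o : ℕ → ℕ → ℤ) (i t : ℕ) :
    ostate S hS o (i + 1) t = ostate S hS o i t + if oseq S hS o i = t then 1 else 0 := rfl

theorem oseq_mem (S : Finset ℕ) (hS : S.Nonempty) (o : ℕ → ℕ → ℤ) (i : ℕ) : oseq S hS o i ∈ S :=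
  (Classical.choose_spec (S.exists_max_image (fun t => o t (ostate S hS o i t)) hS)).1

/-- the offer taken at step `i` -/
noncomputable def otop (S : Finset ℕ) (hS : S.Nonempty) (o : ℕ → ℕ → ℤ) (i : ℕ) : ℤ :=
  o (oseq S hS o i) (ostate S hS o i (oseq S hS o i))

theorem le_otop (S : Finset ℕ) (hS : S.Nonempty) (o : ℕ → ℕ → ℤ) (i : ℕ) {t : ℕ} (ht : t ∈ S) :
    o t (ostate S hS o i t) ≤ otop S hS o i :=
  (Classical.choose_spec (S.exists_max_image (fun t => o t (ostate S hS o i t)) hS)).2 t ht

/-- **The sum of the offers taken in `M` steps**, cut at `lam` from below. -/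
theorem sum_otop_le (S : Finset ℕ) (hS : S.Nonempty) (o : ℕ → ℕ → ℤ) (lam : ℤ) (D : ℕ → ℤ)
    (hD : ∀ t ∈ S, ∀ U : ℕ, ∑ u ∈ range U, max (o t u - lam) 0 ≤ D t) (M : ℕ) :
    ∑ i ∈ range M, max (otop S hS o i) lam ≤ lam * M + ∑ t ∈ S, D t := by
  have h1 : ∀ M : ℕ, ∑ i ∈ range M, max (otop S hS o i) lam = lam * M +
      ∑ t ∈ S, ∑ u ∈ range (ostate S hS o M t), max (o t u - lam) 0 := by
    intro M
    induction M with
    | zero => simp [ostate_zero]
    | succ M ih =>
      rw [sum_range_succ, ih]
      have h3 : ∀ t ∈ S, ∑ u ∈ range (ostate S hS o (M + 1) t), max (o t u - lam) 0 =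
          ∑ u ∈ range (ostate S hS o M t), max (o t u - lam) 0 +
            if oseq S hS o M = t then max (otop S hS o M - lam) 0 else 0 := by
        intro t _
        rw [ostate_succ]
        split_ifs with h
        · rw [sum_range_succ, ← h]
          rfl
        · rw [Nat.add_zero, add_zero]
      rw [sum_congr rfl h3, sum_add_distrib, sum_ite_eq, if_pos (oseq_mem S hS o M)]
      have h4 : max (otop S hS o M) lam = lam + max (otop S hS o M - lam) 0 := by
        rcases le_total (otop S hS o M) lam with h | h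
        · rw [max_eq_right h, max_eq_right (by linarith)]
          ring
        · rw [max_eq_left h, max_eq_left (by linarith)]
          ring
      rw [h4]
      push_cast
      ring
  rw [h1 M]
  have := sum_le_sum (fun t ht => hD t ht (ostate S hS o M t))
  linarith

/-- offers `w - 2 u` for `u < rho`, then `w - 2 - 2 u` -/
def off (w : ℤ) (ρ u : ℕ) : ℤ := if u < ρ then w - 2 * u else w - 2 - 2 * u

/-- the total of the offers above the level `lam` -/
theorem sum_off_le (w lam : ℤ) (ρ U : ℕ) :
    ∑ u ∈ range U, max (off w ρ u - lam) 0 ≤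
      ccost (w - lam) - max (w - lam - 2 * ρ) 0 := by
  set v : ℤ := w - lam with hv
  have hc : ∀ m : ℕ, cost v m ≤ ccost v := cost_le v
  -- the offers are those of `cost` without the one with index `rho`
  have h1 : ∀ U : ℕ, U ≤ ρ → ∑ u ∈ range U, max (off w ρ u - lam) 0 = cost v U := by
    intro U hU
    unfold cost
    refine sum_congr rfl (fun u hu => ?_)
    have := mem_range.mp hu
    unfold off
    rw [if_pos (by omega), hv]
    congr 1
    ring
  have h2 : ∀ k : ℕ, ∑ u ∈ range (ρ + k), max (off w ρ u - lam) 0 + max (v - 2 * ρ) 0 =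
      cost v (ρ + k + 1) := by
    intro k
    induction k with
    | zero =>
      rw [Nat.add_zero, h1 ρ le_rfl, cost_succ]
    | succ k ih =>
      rw [← Nat.add_assoc, sum_range_succ, cost_succ, ← ih]
      have h3 : max (off w ρ (ρ + k) - lam) 0 = max (v - 2 * ((ρ + k + 1 : ℕ) : ℤ)) 0 := by
        unfold off
        rw [if_neg (by omega), hv]
        congr 1
        push_cast
        ring
      rw [h3]
      ring
  rcases Nat.le_total U ρ with h | h
  · rw [h1 U h]
    have h3 := hc (ρ + 1)
    have h4 : cost v U + max (v - 2 * ρ) 0 ≤ cost v (ρ + 1) := by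
      rw [cost_succ]
      have h5 : cost v U ≤ cost v ρ := by
        unfold cost
        exact sum_le_sum_of_subset_of_nonneg (range_subset_range.mpr h)
          (fun u _ _ => le_max_right _ _)
      linarith
    linarith
  · obtain ⟨k, rfl⟩ := Nat.exists_eq_add_of_le h
    have h3 := h2 k
    have h4 := hc (ρ + k + 1)
    linarith

end Pool.Agent.Z3D
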