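import Pool.Agent.Z3D.DblS
import Pool.Agent.Z3D.GreedyG

/-!
# Exact nodes at the far poles

A class with far poles (`k - v ≥ p`) uses them as its first nodes (double poles twice). Afterwards
the polar part of the class is killed, and the later offers of the class drop by two.
-/

open Finset Polynomial
open scoped BigOperators

namespace Pool.Agent.Z3D

open Pool.Agent.Z3 (H)
open Pool.Agent.Z3.TermAux
open Pool.Agent.Z23 (cA cB dK lK)
open Pool.Agent.D23 (cls cls_neg cls_lt numP ppos pone norm_int_le nod numZ numZ_map nodZ nodZ_map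
  norm_evalZ)

section
variable {p : ℕ} [hp : Fact p.Prime]
variable (K1 K2 : Finset ℕ)

/-- a pole at which `G` vanishes to the order of the pole contributes nothing -/
theorem coeff_zero (G S : ℚ[X]) (k : ℕ) (h : (X + C (k : ℚ)) ^ (if k ∈ K2 then 2 else 1) ∣ G) :
    cA (G * S) K1 K2 k = 0 ∧ cB (G * S) K1 K2 k = 0 := by
  by_cases hk : k ∈ K2
  · rw [if_pos hk] at h
    obtain ⟨Q, rfl⟩ := h
    have e1 : ((X + C (k : ℚ)) ^ 2 * Q * S).eval (-(k : ℚ)) = 0 := by
      simp [eval_mul]
    have e2 : ((X + C (k : ℚ)) ^ 2 * Q * S).derivative.eval (-(k : ℚ)) = 0 := by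
      rw [mul_assoc, derivative_mul, eval_add, eval_mul, eval_mul]
      have h1 : ((X + C (k : ℚ)) ^ 2).derivative.eval (-(k : ℚ)) = 0 := by
        rw [derivative_pow]
        simp
      rw [h1]
      simp
    constructor
    · unfold cA
      rw [if_pos hk, e1, zero_div]
    · unfold cB
      rw [if_pos hk, e1, e2]
      simp
  · rw [if_neg hk, pow_one] at h
    obtain ⟨Q, rfl⟩ := h
    have e1 : ((X + C (k : ℚ)) * Q * S).eval (-(k : ℚ)) = 0 := by
      simp [eval_mul]
    constructor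
    · unfold cA
      rw [if_neg hk]
    · unfold cB
      rw [if_neg hk, e1, zero_div]

/-- **Entry bound.** `V` is the weight of a class without its polar part. -/
theorem entry3 {r : ℕ} (Zb : Fin r → Finset ℕ) (κ : ℚ) (e0 : ℤ)
    (hκ : padicNorm p κ ≤ (p : ℚ) ^ (-e0)) (hK : K2 ⊆ K1) (h2 : ∀ i ∈ K1, i < p ^ 2)
    (GZ : ℤ[X]) (g : ℕ → ℤ) (hG : Ctl p (GZ.map (Int.castRingHom ℚ)) g) (v : ℕ) (T : Finset ℕ)
    (V : ℕ → ℤ) (lam : ℤ)
    (hS : ∀ k ∈ K1, k % p ∉ T → k - v < p ∧ cnt K1 p (k % p) = 1 ∧ -e0 ≤ lam)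
    (hV : ∀ k ∈ K1, k % p ∈ T → -1 - e0 - phi2 Zb K1 K2 p (k % p) ≤ V (k % p))
    (B : ℤ) (hlB : lam ≤ B) (hB : ∀ t ∈ T, V t - g t ≤ B)
    (hP : ∀ k ∈ K1, k % p ∈ T → p ≤ k - v → V (k % p) + 2 - g (k % p) ≤ B ∨
      (X + C (k : ℤ)) ^ (if k ∈ K2 then 2 else 1) ∣ GZ) (a b : ℤ) :
    padicNorm p ((a : ℚ) * qL K1 K2 (C κ * numP Zb) (GZ.map (Int.castRingHom ℚ)) -
      (b : ℚ) * pL K1 K2 v (C κ * numP Zb) (GZ.map (Int.castRingHom ℚ))) ≤ (p : ℚ) ^ B := by
  have hp0 := ppos (p := p)
  have hp1 := pone (p := p)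
  have hBn : (0 : ℚ) ≤ (p : ℚ) ^ B := by positivity
  set G : ℚ[X] := GZ.map (Int.castRingHom ℚ) with hGdef
  have hS1 : Ctl p (G * (C κ * numP Zb)) (fun s => g s + (e0 + ∑ b, (cnt (Zb b) p s : ℤ))) :=
    hG.mul ((Ctl_C hκ).mul (Ctl_numP Zb))
  have hSZ : G * (C κ * numP Zb) = C κ * (GZ * numZ Zb).map (Int.castRingHom ℚ) := by
    rw [Polynomial.map_mul, numZ_map]
    ring
  have hlt : ∀ k ∈ K1, k - v < p ^ 2 := fun k hk => (Nat.sub_le k v).trans_lt (h2 k hk)
  have two : padicNorm p 2 ≤ 1 := padicNorm_two_le p hp.out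
  -- values of the coefficients
  have hA : ∀ k ∈ K1, padicNorm p (cA (G * (C κ * numP Zb)) K1 K2 k) ≤
      (p : ℚ) ^ (-(e0 + g (k % p) + phi2 Zb K1 K2 p (k % p) + 2)) := by
    intro k _
    refine (cA_norm K1 K2 _ _ hK hS1 h2 k).trans (le_of_eq ?_)
    congr 1
    unfold phi2
    ring
  have hBc : ∀ k ∈ K1, padicNorm p (cB (G * (C κ * numP Zb)) K1 K2 k) ≤
      (p : ℚ) ^ (-(e0 + g (k % p) + phi2 Zb K1 K2 p (k % p) + 1)) := by
    intro k hk
    refine (cB_norm K1 K2 _ _ hK hS1 h2 k hk).trans (le_of_eq ?_)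
    congr 1
    unfold phi2
    ring
  have hlone : ∀ k ∈ K1, k % p ∉ T → padicNorm p (cA (G * (C κ * numP Zb)) K1 K2 k) ≤
      (p : ℚ) ^ B ∧ padicNorm p (cB (G * (C κ * numP Zb)) K1 K2 k) ≤ (p : ℚ) ^ B := by
    intro k hk hkT
    obtain ⟨_, hc, hl⟩ := hS k hk hkT
    have h3 := lone_norm K1 K2 (GZ * numZ Zb) κ e0 hκ hK h2 k hk hc
    rw [← hSZ] at h3
    have h4 : (p : ℚ) ^ (-e0) ≤ (p : ℚ) ^ B := zpow_le_zpow_right₀ hp1.le (by omega)
    exact ⟨h3.1.trans h4, h3.2.trans h4⟩
  have hkill : ∀ k : ℕ, (X + C (k : ℤ)) ^ (if k ∈ K2 then 2 else 1) ∣ GZ →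
      cA (G * (C κ * numP Zb)) K1 K2 k = 0 ∧ cB (G * (C κ * numP Zb)) K1 K2 k = 0 := by
    intro k hk
    refine coeff_zero K1 K2 G (C κ * numP Zb) k ?_
    have h3 := Polynomial.map_dvd (Int.castRingHom ℚ) hk
    rw [Polynomial.map_pow, Polynomial.map_add, map_X, map_C] at h3
    simpa using h3
  -- the three kinds of terms
  have t0 : ∀ k ∈ K1, padicNorm p (cA (G * (C κ * numP Zb)) K1 K2 k) ≤ (p : ℚ) ^ B := by
    intro k hk
    by_cases hkT : k % p ∈ T
    · have hb := hB _ hkT
      have w1 := hV k hk hkT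
      exact (hA k hk).trans (zpow_le_zpow_right₀ hp1.le (by omega))
    · exact (hlone k hk hkT).1
  have tA : ∀ k ∈ K1, padicNorm p (2 * cA (G * (C κ * numP Zb)) K1 K2 k * H 3 (k - v)) ≤
      (p : ℚ) ^ B := by
    intro k hk
    rw [padicNorm.mul, padicNorm.mul]
    by_cases hkT : k % p ∈ T
    · have hb := hB _ hkT
      have w1 := hV k hk hkT
      have h1 : padicNorm p 2 * padicNorm p (cA (G * (C κ * numP Zb)) K1 K2 k) ≤
          (p : ℚ) ^ (-(e0 + g (k % p) + phi2 Zb K1 K2 p (k % p) + 2)) := by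
        refine (mul_le_mul two (hA k hk) (padicNorm.nonneg _) (by norm_num)).trans (le_of_eq ?_)
        rw [one_mul]
      rcases Nat.lt_or_ge (k - v) p with h | h
      · refine (mul_le_mul h1 (norm_H_small p 3 _ hp.out h) (padicNorm.nonneg _)
          (by positivity)).trans ?_
        rw [mul_one]
        exact zpow_le_zpow_right₀ hp1.le (by omega)
      · rcases hP k hk hkT h with w2 | hdvd
        · refine (mul_le_mul h1 (norm_H_le p 3 _ hp.out (hlt k hk)) (padicNorm.nonneg _)
            (by positivity)).trans ?_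
          rw [← zpow_natCast, ← zpow_add₀ hp0.ne']
          exact zpow_le_zpow_right₀ hp1.le (by push_cast; omega)
        · rw [(hkill k hdvd).1, padicNorm.zero, mul_zero, zero_mul]
          exact hBn
    · have h := (hS k hk hkT).1
      have h1 : padicNorm p 2 * padicNorm p (cA (G * (C κ * numP Zb)) K1 K2 k) ≤ (p : ℚ) ^ B := by
        refine (mul_le_mul two (hlone k hk hkT).1 (padicNorm.nonneg _) (by norm_num)).trans
          (le_of_eq ?_)
        rw [one_mul]
      exact (mul_le_mul h1 (norm_H_small p 3 _ hp.out h) (padicNorm.nonneg _) hBn).trans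
        (le_of_eq (mul_one _))
  have tB : ∀ k ∈ K1, padicNorm p (cB (G * (C κ * numP Zb)) K1 K2 k * H 2 (k - v)) ≤
      (p : ℚ) ^ B := by
    intro k hk
    rw [padicNorm.mul]
    by_cases hkT : k % p ∈ T
    · have hb := hB _ hkT
      have w1 := hV k hk hkT
      rcases Nat.lt_or_ge (k - v) p with h | h
      · refine (mul_le_mul (hBc k hk) (norm_H_small p 2 _ hp.out h) (padicNorm.nonneg _)
          (by positivity)).trans ?_
        rw [mul_one]
        exact zpow_le_zpow_right₀ hp1.le (by omega)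
      · rcases hP k hk hkT h with w2 | hdvd
        · refine (mul_le_mul (hBc k hk) (norm_H_le p 2 _ hp.out (hlt k hk)) (padicNorm.nonneg _)
            (by positivity)).trans ?_
          rw [← zpow_natCast, ← zpow_add₀ hp0.ne']
          exact zpow_le_zpow_right₀ hp1.le (by push_cast; omega)
        · rw [(hkill k hdvd).2, padicNorm.zero, zero_mul]
          exact hBn
    · have h := (hS k hk hkT).1
      exact (mul_le_mul (hlone k hk hkT).2 (norm_H_small p 2 _ hp.out h) (padicNorm.nonneg _)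
        hBn).trans (le_of_eq (mul_one _))
  refine padicNorm.sub.trans (max_le ?_ ?_)
  · rw [qL_apply]
    apply D23.norm_intmul
    rw [padicNorm.mul]
    refine (mul_le_mul two (padicNorm.sum_le' t0 hBn) (padicNorm.nonneg _)
      (by norm_num)).trans (le_of_eq ?_)
    rw [one_mul]
  · rw [pL_apply]
    apply D23.norm_intmul
    refine padicNorm.sum_le' (fun k hk => ?_) hBn
    exact padicNorm.nonarchimedean.trans (max_le (tA k hk) (tB k hk))

/-! ### the nodes -/

/-- control of a product of nodes by the number of nodes in a class -/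
theorem Ctl_nod' (s : ℕ → ℕ) (i : ℕ) :
    Ctl p (nod s i) (fun t => ∑ j ∈ range i, if s j % p = t then (1 : ℤ) else 0) :=
  Ctl_prod (range i) (fun j : ℕ => (X + C (s j : ℚ))) _ (fun j _ => Ctl_lin (s j))

variable (T : Finset ℕ) (hT : T.Nonempty) (o : ℕ → ℕ → ℤ) (x : ℕ → ℕ → ℕ)

/-- the node chosen at step `i` -/
noncomputable def xseq (i : ℕ) : ℕ := x (oseq T hT o i) (ostate T hT o i (oseq T hT o i))

omit hp in
theorem sum_xseq (hx : ∀ t ∈ T, ∀ u, x t u % p = t) (i t : ℕ) :
    ∑ j ∈ range i, (if xseq T hT o x j % p = t then (1 : ℤ) else 0) = ostate T hT o i t := by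
  induction i with
  | zero => simp [ostate_zero]
  | succ i ih =>
    rw [sum_range_succ, ih, ostate_succ]
    have h1 : xseq T hT o x i % p = oseq T hT o i := hx _ (oseq_mem T hT o i) _
    rw [h1]
    push_cast
    rfl

theorem dvd_nodZ (t i : ℕ) :
    (∏ u ∈ range (ostate T hT o i t), (X + C (x t u : ℤ))) ∣ nodZ (xseq T hT o x) i := by
  induction i with
  | zero => simp [ostate_zero]
  | succ i ih =>
    have h1 : nodZ (xseq T hT o x) (i + 1) =
        nodZ (xseq T hT o x) i * (X + C (xseq T hT o x i : ℤ)) := by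
      unfold nodZ
      rw [prod_range_succ]
    rw [h1, ostate_succ]
    split_ifs with h
    · rw [prod_range_succ]
      refine mul_dvd_mul ih ?_
      unfold xseq
      rw [h]
    · rw [Nat.add_zero]
      exact Dvd.dvd.mul_right ih _

/-- **Determinant bound with exact far nodes.** `x t` lists nodes of the class `t`, the first
`ρ t` of which are the far poles of the class with multiplicity. -/
theorem det3_gen {r : ℕ} (Zb : Fin r → Finset ℕ) (κ : ℚ) (e0 : ℤ)
    (hκ : padicNorm p κ ≤ (p : ℚ) ^ (-e0)) (hK : K2 ⊆ K1) (h2 : ∀ i ∈ K1, i < p ^ 2)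
    (v : ℕ) (T : Finset ℕ) (V : ℕ → ℤ) (lam : ℤ)
    (hS : ∀ k ∈ K1, k % p ∉ T → k - v < p ∧ cnt K1 p (k % p) = 1 ∧ -e0 ≤ lam)
    (hV : ∀ k ∈ K1, k % p ∈ T → -1 - e0 - phi2 Zb K1 K2 p (k % p) ≤ V (k % p))
    (ρ : ℕ → ℕ) (x : ℕ → ℕ → ℕ) (hx : ∀ t ∈ T, ∀ u, x t u % p = t)
    (hx2 : ∀ k ∈ K1, k % p ∈ T → p ≤ k - v → (X + C (k : ℤ)) ^ (if k ∈ K2 then 2 else 1) ∣
      ∏ u ∈ range (ρ (k % p)), (X + C (x (k % p) u : ℤ)))
    (a b : ℤ) (M : ℕ) :
    padicNorm p (gram (Lab K1 K2 v (C κ * numP Zb) a b) (fun i => X ^ i) M).det ≤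
      (p : ℚ) ^ (lam * M + ∑ t ∈ T,
        (ccost (V t + 2 - lam) - max (V t + 2 - lam - 2 * ρ t) 0)) := by
  have hp0 := ppos (p := p)
  have hp1 := pone (p := p)
  by_cases hT : T.Nonempty
  · obtain ⟨o, ho⟩ : ∃ o : ℕ → ℕ → ℤ, ∀ t u, o t u = off (V t + 2) (ρ t) u := ⟨_, fun _ _ => rfl⟩
    set s : ℕ → ℕ := xseq T hT o x with hs
    rw [D23.det_nod (Lab K1 K2 v (C κ * numP Zb) a b) s M]
    have hb := padicNorm_det_le p (gram (Lab K1 K2 v (C κ * numP Zb) a b) (nod s) M)
      (fun i => max (otop T hT o i) lam) ?_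
    · refine hb.trans (zpow_le_zpow_right₀ hp1.le ?_)
      rw [Fin.sum_univ_eq_sum_range (fun i => max (otop T hT o i) lam) M]
      exact sum_otop_le T hT o lam
        (fun t => ccost (V t + 2 - lam) - max (V t + 2 - lam - 2 * ρ t) 0)
        (fun t _ U => by
          simp only [ho]
          exact sum_off_le (V t + 2) lam (ρ t) U) M
    · intro i j
      have hodd : ∀ t ∈ T, o t (ostate T hT o i t) + o t (ostate T hT o j t) ≤
          max (otop T hT o i) lam + max (otop T hT o j) lam := fun t ht =>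
        add_le_add ((le_otop T hT o i ht).trans (le_max_left _ _))
          ((le_otop T hT o j ht).trans (le_max_left _ _))
      set c : ℤ := max (otop T hT o i) lam + max (otop T hT o j) lam with hc
      refine D23.sq_le_of_half p (padicNorm.nonneg _) (B := c / 2) ?_ (by omega)
      have hnod : nod s i * nod s j = (nodZ s i * nodZ s j).map (Int.castRingHom ℚ) := by
        rw [Polynomial.map_mul, nodZ_map, nodZ_map]
      have hC : Ctl p ((nodZ s i * nodZ s j).map (Int.castRingHom ℚ))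
          (fun t => (ostate T hT o i t : ℤ) + ostate T hT o j t) := by
        rw [← hnod]
        have h3 := (Ctl_nod' (p := p) s i).mul (Ctl_nod' (p := p) s j)
        refine (congrArg (Ctl p (nod s i * nod s j)) ?_).mp h3
        funext t
        rw [hs, sum_xseq T hT o x hx, sum_xseq T hT o x hx]
      change padicNorm p ((Lab K1 K2 v (C κ * numP Zb) a b) (nod s i * nod s j)) ≤ (p : ℚ) ^ (c / 2)
      rw [Lab_apply, hnod]
      refine entry3 K1 K2 Zb κ e0 hκ hK h2 (nodZ s i * nodZ s j)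
        (fun t => (ostate T hT o i t : ℤ) + ostate T hT o j t) hC v T V lam hS hV (c / 2) ?_ ?_ ?_ a b
      · have h4 := le_max_right (otop T hT o i) lam
        have h5 := le_max_right (otop T hT o j) lam
        omega
      · intro t ht
        have h4 := hodd t ht
        rw [ho, ho] at h4
        unfold off at h4
        split_ifs at h4 <;> omega
      · intro k hk hkT hfar
        have h4 := hodd (k % p) hkT
        by_cases hi : ρ (k % p) ≤ ostate T hT o i (k % p)
        · right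
          refine Dvd.dvd.mul_right ?_ _
          refine (hx2 k hk hkT hfar).trans (Dvd.dvd.trans ?_ (dvd_nodZ T hT o x (k % p) i))
          exact prod_dvd_prod_of_subset _ _ _ (range_subset_range.mpr hi)
        · by_cases hj : ρ (k % p) ≤ ostate T hT o j (k % p)
          · right
            refine Dvd.dvd.mul_left ?_ _
            refine (hx2 k hk hkT hfar).trans (Dvd.dvd.trans ?_ (dvd_nodZ T hT o x (k % p) j))
            exact prod_dvd_prod_of_subset _ _ _ (range_subset_range.mpr hj)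
          · left
            push Not at hi hj
            rw [ho, ho] at h4
            unfold off at h4
            rw [if_pos hi, if_pos hj] at h4
            omega
  · rw [not_nonempty_iff_eq_empty] at hT
    subst hT
    rw [D23.det_nod (Lab K1 K2 v (C κ * numP Zb) a b) (fun _ => 0) M]
    have hb := padicNorm_det_le p (gram (Lab K1 K2 v (C κ * numP Zb) a b) (nod (fun _ => 0)) M)
      (fun _ => lam) ?_
    · refine hb.trans (zpow_le_zpow_right₀ hp1.le ?_)
      simp [mul_comm]
    · intro i j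
      refine D23.sq_le_of_half p (padicNorm.nonneg _) (B := lam) ?_ (by omega)
      have hnod : nod (fun _ => 0) i * nod (fun _ => 0) j =
          (nodZ (fun _ => 0) i * nodZ (fun _ => 0) j).map (Int.castRingHom ℚ) := by
        rw [Polynomial.map_mul, nodZ_map, nodZ_map]
      have hC := (Ctl_nod' (p := p) (fun _ => 0) i).mul (Ctl_nod' (p := p) (fun _ => 0) j)
      rw [hnod] at hC
      change padicNorm p ((Lab K1 K2 v (C κ * numP Zb) a b)
        (nod (fun _ => 0) i * nod (fun _ => 0) j)) ≤ (p : ℚ) ^ lam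
      rw [Lab_apply, hnod]
      exact entry3 K1 K2 Zb κ e0 hκ hK h2 _ _ hC v ∅ V lam hS hV lam le_rfl (by simp)
        (fun k _ hk => by simp at hk) a b

/-! ### the list of the far poles of a class -/

/-- the far points of `K` -/
def farS (K : Finset ℕ) (p v : ℕ) : Finset ℕ := K.filter (fun k => p ≤ k - v)

/-- the far poles of the class `t`, double poles twice -/
def farL (p v t : ℕ) : List ℕ :=
  ((farS K1 p v).filter (fun k => k % p = t)).sort (· ≤ ·) ++
    ((farS K2 p v).filter (fun k => k % p = t)).sort (· ≤ ·)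

/-- the number of far poles, with multiplicity -/
def farN (p v t : ℕ) : ℕ := cnt (farS K1 p v) p t + cnt (farS K2 p v) p t

omit hp in
theorem farL_length (v t : ℕ) : (farL K1 K2 p v t).length = farN K1 K2 p v t := by
  unfold farL farN cnt
  rw [List.length_append, Finset.length_sort, Finset.length_sort]

theorem prod_getD {α : Type*} [CommMonoid α] (f : ℕ → α) (d : ℕ) (l : List ℕ) :
    ∏ u ∈ range l.length, f (l.getD u d) = (l.map f).prod := by
  induction l with
  | nil => simp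
  | cons a l ih =>
    rw [List.length_cons, prod_range_succ', List.map_cons, List.prod_cons, ← ih, mul_comm]
    rfl

theorem prod_sort {α : Type*} [CommMonoid α] (f : ℕ → α) (S : Finset ℕ) :
    ((S.sort (· ≤ ·)).map f).prod = ∏ k ∈ S, f k := by
  rw [← Multiset.prod_coe, ← Multiset.map_coe, Finset.sort_eq]
  rfl

/-- **Determinant bound.** Lone classes outside `T`, exact far nodes inside. -/
theorem det3 {r : ℕ} (Zb : Fin r → Finset ℕ) (κ : ℚ) (e0 : ℤ)
    (hκ : padicNorm p κ ≤ (p : ℚ) ^ (-e0)) (hK : K2 ⊆ K1) (h2 : ∀ i ∈ K1, i < p ^ 2)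
    (v : ℕ) (T : Finset ℕ) (hTp : ∀ t ∈ T, t < p) (V : ℕ → ℤ) (lam : ℤ)
    (hS : ∀ k ∈ K1, k % p ∉ T → k - v < p ∧ cnt K1 p (k % p) = 1 ∧ -e0 ≤ lam)
    (hV : ∀ k ∈ K1, k % p ∈ T → -1 - e0 - phi2 Zb K1 K2 p (k % p) ≤ V (k % p))
    (a b : ℤ) (M : ℕ) :
    padicNorm p (gram (Lab K1 K2 v (C κ * numP Zb) a b) (fun i => X ^ i) M).det ≤
      (p : ℚ) ^ (lam * M + ∑ t ∈ T, (ccost (V t + 2 - lam) -
        max (V t + 2 - lam - 2 * farN K1 K2 p v t) 0)) := by
  refine det3_gen K1 K2 Zb κ e0 hκ hK h2 v T V lam hS hV (farN K1 K2 p v)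
    (fun t u => (farL K1 K2 p v t).getD u t) ?_ ?_ a b M
  · intro t ht u
    by_cases hu : u < (farL K1 K2 p v t).length
    · rw [List.getD_eq_getElem _ _ hu]
      have hm : (farL K1 K2 p v t)[u] ∈ farL K1 K2 p v t := List.getElem_mem hu
      unfold farL at hm
      rw [List.mem_append, Finset.mem_sort, Finset.mem_sort, mem_filter, mem_filter] at hm
      rcases hm with h | h
      · exact h.2
      · exact h.2
    · rw [List.getD_eq_default _ _ (not_lt.mp hu)]
      exact Nat.mod_eq_of_lt (hTp t ht)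
  · intro k hk hkT hfar
    rw [← farL_length, prod_getD (fun n : ℕ => (X + C (n : ℤ) : ℤ[X]))]
    unfold farL
    rw [List.map_append, List.prod_append, prod_sort, prod_sort]
    have h1 : k ∈ (farS K1 p v).filter (fun i => i % p = k % p) := by
      rw [mem_filter]
      exact ⟨mem_filter.mpr ⟨hk, hfar⟩, rfl⟩
    by_cases hk2 : k ∈ K2
    · have h3 : k ∈ (farS K2 p v).filter (fun i => i % p = k % p) := by
        rw [mem_filter]
        exact ⟨mem_filter.mpr ⟨hk2, hfar⟩, rfl⟩
      rw [if_pos hk2, pow_two]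
      exact mul_dvd_mul (dvd_prod_of_mem (fun n : ℕ => (X + C (n : ℤ) : ℤ[X])) h1)
        (dvd_prod_of_mem (fun n : ℕ => (X + C (n : ℤ) : ℤ[X])) h3)
    · rw [if_neg hk2, pow_one]
      exact Dvd.dvd.mul_right (dvd_prod_of_mem (fun n : ℕ => (X + C (n : ℤ) : ℤ[X])) h1) _

end

end Pool.Agent.Z3D
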