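import Mathlib
import Pool.Agent.Z3D.Arch3
import Pool.Agent.Z3D.Fam

/-!
# Domination on the analytic line with explicit exponential constants
-/

open Finset Polynomial
open scoped Nat

namespace Pool.Agent.Z3D

open Pool.Agent.D23 (ln wt log_fact_upper log_fact_lower numP)
open Pool.Agent.Z3 (Ker)

set_option exponentiation.threshold 5000 in
lemma log_num3 : 192.55 * Real.log 2 ≤ 66 * Real.log 5 + 14 * Real.log 7 := by
  have h : (2 : ℝ) ^ 3851 ≤ 5 ^ 1320 * 7 ^ 280 := by norm_num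
  have h2 := Real.log_le_log (by positivity) h
  rw [Real.log_mul (by positivity) (by positivity), Real.log_pow, Real.log_pow, Real.log_pow] at h2
  push_cast at h2
  linarith

lemma log_kk : Real.log (kk : ℝ) = 13 * Real.log 2 + 24 * Real.log 3 + 76 * Real.log 5 := by
  have h : (kk : ℝ) = 2 ^ 13 * 3 ^ 24 * 5 ^ 76 := by
    unfold kk
    norm_num
  rw [h, Real.log_mul (by positivity) (by positivity), Real.log_mul (by positivity) (by positivity),
    Real.log_pow, Real.log_pow, Real.log_pow]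
  push_cast
  ring

/-- the constant with the factorial -/
theorem BN_fact (N : ℕ) (hN : 1 ≤ N) :
    BN (kf (2 * N)) N * (((16 * N + 1)! : ℕ) : ℝ) ≤
      3000000 * (N : ℝ) ^ 4 * Real.exp (-59.298 * N) * 4 ^ (8 * N) := by
  have hN' : (1 : ℝ) ≤ N := by exact_mod_cast hN
  have hN0 : (0 : ℝ) < N := by linarith
  have f24 : (0 : ℝ) < ((24 * N)! : ℕ) := by exact_mod_cast Nat.factorial_pos _
  have f20 : (0 : ℝ) < ((20 * N)! : ℕ) := by exact_mod_cast Nat.factorial_pos _
  have f14 : (0 : ℝ) < ((14 * N)! : ℕ) := by exact_mod_cast Nat.factorial_pos _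
  have f10 : (0 : ℝ) < ((10 * N)! : ℕ) := by exact_mod_cast Nat.factorial_pos _
  have f16 : (0 : ℝ) < ((16 * N)! : ℕ) := by exact_mod_cast Nat.factorial_pos _
  have f17 : (0 : ℝ) < ((16 * N + 1)! : ℕ) := by exact_mod_cast Nat.factorial_pos _
  have hkk : (0 : ℝ) < (kk : ℝ) := by
    unfold kk
    positivity
  have ek : ((kf (2 * N) : ℚ) : ℝ) = (((24 * N)! : ℕ) : ℝ) * (((20 * N)! : ℕ) : ℝ) /
      ((((14 * N)! : ℕ) : ℝ) * (((10 * N)! : ℕ) : ℝ)) := by
    unfold kf
    push_cast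
    rw [show 12 * (2 * N) = 24 * N by ring, show 10 * (2 * N) = 20 * N by ring,
      show 7 * (2 * N) = 14 * N by ring, show 5 * (2 * N) = 10 * N by ring]
  have hk0 : (0 : ℝ) < ((kf (2 * N) : ℚ) : ℝ) := by
    rw [ek]
    positivity
  have hB0 : 0 < BN (kf (2 * N)) N := by
    unfold BN
    positivity
  rw [← Real.log_le_log_iff (by positivity) (by positivity)]
  have l24 := log_fact_upper (24 * N) (by omega)
  have l20 := log_fact_upper (20 * N) (by omega)
  have l16 := log_fact_upper (16 * N) (by omega)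
  have l14 := log_fact_lower (14 * N)
  have l10 := log_fact_lower (10 * N)
  have e17 : Real.log (((16 * N + 1)! : ℕ) : ℝ) = Real.log (16 * N + 1) +
      Real.log (((16 * N)! : ℕ) : ℝ) := by
    rw [Nat.factorial_succ]
    push_cast
    rw [Real.log_mul (by positivity) f16.ne']
  have eB : Real.log (BN (kf (2 * N)) N) = Real.log ((kf (2 * N) : ℚ) : ℝ) -
      (N * Real.log (kk : ℝ) + 18 * N * (2 * Real.log N - 2) + 8 * N * (2 * Real.log 2)) := by
    unfold BN
    have e4 : Real.log 4 = 2 * Real.log 2 := by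
      have : (4 : ℝ) = 2 ^ 2 := by norm_num
      rw [this, Real.log_pow]
      norm_num
    rw [Real.log_div hk0.ne' (by positivity), Real.log_mul (by positivity) (by positivity),
      Real.log_mul (by positivity) (by positivity), Real.log_pow, Real.log_pow, Real.log_pow,
      Real.log_mul (by positivity) (by positivity), Real.log_pow, Real.log_exp, e4]
    push_cast
    ring
  have ekl : Real.log ((kf (2 * N) : ℚ) : ℝ) = Real.log (((24 * N)! : ℕ) : ℝ) +
      Real.log (((20 * N)! : ℕ) : ℝ) - (Real.log (((14 * N)! : ℕ) : ℝ) +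
      Real.log (((10 * N)! : ℕ) : ℝ)) := by
    rw [ek, Real.log_div (by positivity) (by positivity), Real.log_mul f24.ne' f20.ne',
      Real.log_mul f14.ne' f10.ne']
  rw [Real.log_mul hB0.ne' f17.ne', eB, ekl, e17, log_kk]
  have er : Real.log (3000000 * (N : ℝ) ^ 4 * Real.exp (-59.298 * N) * 4 ^ (8 * N)) =
      Real.log 3000000 + 4 * Real.log N + -59.298 * N + 16 * N * Real.log 2 := by
    have e4 : Real.log 4 = 2 * Real.log 2 := by
      have : (4 : ℝ) = 2 ^ 2 := by norm_num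
      rw [this, Real.log_pow]
      norm_num
    rw [Real.log_mul (by positivity) (by positivity), Real.log_mul (by positivity) (by positivity),
      Real.log_mul (by positivity) (by positivity), Real.log_pow, Real.log_pow, Real.log_exp, e4]
    push_cast
    ring
  rw [er]
  push_cast at l24 l20 l16 l14 l10
  have m24 : Real.log (24 * (N : ℝ)) = 3 * Real.log 2 + Real.log 3 + Real.log N := by
    rw [Real.log_mul (by norm_num) hN0.ne', show (24 : ℝ) = 2 ^ 3 * 3 by norm_num,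
      Real.log_mul (by norm_num) (by norm_num), Real.log_pow]
    norm_num
  have m20 : Real.log (20 * (N : ℝ)) = 2 * Real.log 2 + Real.log 5 + Real.log N := by
    rw [Real.log_mul (by norm_num) hN0.ne', show (20 : ℝ) = 2 ^ 2 * 5 by norm_num,
      Real.log_mul (by norm_num) (by norm_num), Real.log_pow]
    norm_num
  have m16 : Real.log (16 * (N : ℝ)) = 4 * Real.log 2 + Real.log N := by
    rw [Real.log_mul (by norm_num) hN0.ne', show (16 : ℝ) = 2 ^ 4 by norm_num, Real.log_pow]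
    norm_num
  have m14 : Real.log (14 * (N : ℝ)) = Real.log 2 + Real.log 7 + Real.log N := by
    rw [Real.log_mul (by norm_num) hN0.ne', show (14 : ℝ) = 2 * 7 by norm_num,
      Real.log_mul (by norm_num) (by norm_num)]
  have m10 : Real.log (10 * (N : ℝ)) = Real.log 2 + Real.log 5 + Real.log N := by
    rw [Real.log_mul (by norm_num) hN0.ne', show (10 : ℝ) = 2 * 5 by norm_num,
      Real.log_mul (by norm_num) (by norm_num)]
  have m17 : Real.log (16 * (N : ℝ) + 1) ≤ Real.log 17 + Real.log N := by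
    rw [← Real.log_mul (by norm_num) hN0.ne']
    exact Real.log_le_log (by positivity) (by linarith)
  have hbig : Real.log 24 + Real.log 20 + Real.log 16 + Real.log 17 + 3 ≤ Real.log 3000000 := by
    have e1 := Real.exp_one_lt_d9
    have e2 : Real.exp 3 ≤ 20.0856 := by
      have : Real.exp 3 = (Real.exp 1) ^ 3 := by
        rw [← Real.exp_nat_mul]
        norm_num
      rw [this]
      have h3 : (Real.exp 1) ^ 3 ≤ (2.7182818286 : ℝ) ^ 3 :=
        pow_le_pow_left₀ (Real.exp_pos 1).le e1.le 3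
      refine h3.trans ?_
      norm_num
    have e3 : Real.log 24 + Real.log 20 + Real.log 16 + Real.log 17 + 3 =
        Real.log (24 * 20 * 16 * 17 * Real.exp 3) := by
      rw [Real.log_mul (by norm_num) (by positivity), Real.log_mul (by norm_num) (by norm_num),
        Real.log_mul (by norm_num) (by norm_num), Real.log_mul (by norm_num) (by norm_num), Real.log_exp]
    rw [e3]
    apply Real.log_le_log (by positivity)
    linarith
  have c24 : Real.log (24 : ℝ) = 3 * Real.log 2 + Real.log 3 := by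
    rw [show (24 : ℝ) = 2 ^ 3 * 3 by norm_num, Real.log_mul (by norm_num) (by norm_num), Real.log_pow]
    norm_num
  have c20 : Real.log (20 : ℝ) = 2 * Real.log 2 + Real.log 5 := by
    rw [show (20 : ℝ) = 2 ^ 2 * 5 by norm_num, Real.log_mul (by norm_num) (by norm_num), Real.log_pow]
    norm_num
  have c16 : Real.log (16 : ℝ) = 4 * Real.log 2 := by
    rw [show (16 : ℝ) = 2 ^ 4 by norm_num, Real.log_pow]
    norm_num
  rw [m24] at l24
  rw [m20] at l20
  rw [m16] at l16
  rw [m14] at l14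
  rw [m10] at l10
  rw [c24, c20, c16] at hbig
  have hl2 := Real.log_two_gt_d9
  have hn3 := log_num3
  have hlin : (N : ℝ) * (107 * Real.log 2 - 66 * Real.log 5 - 14 * Real.log 7) ≤ N * (-59.298) := by
    apply mul_le_mul_of_nonneg_left _ hN0.le
    linarith
  nlinarith

/-- DOMINATION for even `n`, weight `wt (4 n)`, node `-16 n` of multiplicity `r ≤ n` -/
theorem dom_even (n r : ℕ) (hn : 1 ≤ n) (he : Even n) (hr : r ≤ n) (y : ℝ) :
    ‖R2 (Ka n) (Kb n) (Nf n) (ln (1 - ((2 * n : ℕ) : ℤ)) y)‖ * Ker y *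
      ‖ln (1 - ((2 * n : ℕ) : ℤ)) y + 16 * (n : ℂ)‖ ^ (2 * r) ≤
      30000000 * (n : ℝ) ^ 4 * Real.exp (-29.649 * n) * (14.32 * n) ^ (2 * r) *
        (4 ^ (4 * n) / (((8 * n + 1)! : ℕ) : ℝ)) * wt (4 * n) y := by
  obtain ⟨N, hN2⟩ := he
  have hn2 : n = 2 * N := by omega
  clear hN2
  subst hn2
  have hN : 1 ≤ N := by omega
  have hN' : (1 : ℝ) ≤ N := by exact_mod_cast hN
  have hN0 : (0 : ℝ) < N := by linarith
  have hk : 0 < kf (2 * N) := by
    unfold kf
    positivity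
  have h := dom3 N r hN hr (kf (2 * N)) hk y
  have hf := BN_fact N hN
  have f17 : (0 : ℝ) < ((16 * N + 1)! : ℕ) := by exact_mod_cast Nat.factorial_pos _
  have hw : 0 ≤ wt (4 * (2 * N)) y := by
    unfold wt
    positivity
  have hBN : BN (kf (2 * N)) N ≤ 3000000 * (N : ℝ) ^ 4 * Real.exp (-59.298 * N) * 4 ^ (8 * N) /
      (((16 * N + 1)! : ℕ) : ℝ) := by
    rw [le_div_iff₀ f17]
    exact hf
  have hpow : (784 * (N : ℝ) ^ 2 * 1.046) ^ r ≤ (14.32 * ((2 * N : ℕ) : ℝ)) ^ (2 * r) := by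
    rw [pow_mul]
    apply pow_le_pow_left₀ (by positivity)
    push_cast
    nlinarith [sq_nonneg (N : ℝ)]
  have hx : Real.exp (-29.649 * ((2 * N : ℕ) : ℝ)) = Real.exp (-59.298 * N) := by
    congr 1
    push_cast
    ring
  have e : R2 (Ka (2 * N)) (Kb (2 * N)) (Nf (2 * N)) (ln (1 - ((2 * (2 * N) : ℕ) : ℤ)) y) =
      R2 (Ico (8 * (2 * N)) (20 * (2 * N))) (Ico (9 * (2 * N)) (19 * (2 * N)))
      (C (kf (2 * N)) * numP ![range (7 * (2 * N)), Ico (2 * N) (6 * (2 * N))])
      (ln (1 - ((2 * (2 * N) : ℕ) : ℤ)) y) := rfl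
  rw [e, hx]
  refine h.trans ?_
  calc 10 * BN (kf (2 * N)) N * (784 * (N : ℝ) ^ 2 * 1.046) ^ r * wt (4 * (2 * N)) y
      ≤ 10 * (3000000 * (N : ℝ) ^ 4 * Real.exp (-59.298 * N) * 4 ^ (8 * N) /
        (((16 * N + 1)! : ℕ) : ℝ)) * (14.32 * ((2 * N : ℕ) : ℝ)) ^ (2 * r) * wt (4 * (2 * N)) y := by
        gcongr
    _ = 30000000 * (N : ℝ) ^ 4 * Real.exp (-59.298 * N) * (14.32 * ((2 * N : ℕ) : ℝ)) ^ (2 * r) *
        (4 ^ (8 * N) / (((16 * N + 1)! : ℕ) : ℝ)) * wt (4 * (2 * N)) y := by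
        ring
    _ ≤ 30000000 * ((2 * N : ℕ) : ℝ) ^ 4 * Real.exp (-59.298 * N) *
        (14.32 * ((2 * N : ℕ) : ℝ)) ^ (2 * r) *
        (4 ^ (8 * N) / (((16 * N + 1)! : ℕ) : ℝ)) * wt (4 * (2 * N)) y := by
        gcongr
        linarith
    _ = _ := by
        rw [show 4 * (2 * N) = 8 * N by ring, show 8 * (2 * N) = 16 * N by ring]

/-- the constant of the domination, `n` even -/
noncomputable def betaZ (n : ℕ) : ℝ := 10 * BN (kf n) (n / 2)

theorem betaZ_pos (n : ℕ) (hn : 1 ≤ n) (he : Even n) : 0 < betaZ n := by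
  obtain ⟨N, hN2⟩ := he
  have hN : 1 ≤ N := by omega
  have hN0 : (0 : ℝ) < N := by exact_mod_cast hN
  have h2 : n / 2 = N := by omega
  have hk : 0 < kf n := by
    unfold kf
    positivity
  have hk' : (0 : ℝ) < ((kf n : ℚ) : ℝ) := by exact_mod_cast hk
  have hkk : (0 : ℝ) < (kk : ℝ) := by
    unfold kk
    positivity
  unfold betaZ BN
  rw [h2]
  positivity

theorem betaZ_fact (n : ℕ) (hn : 1 ≤ n) (he : Even n) :
    betaZ n * (((8 * n + 1)! : ℕ) : ℝ) ≤ 30000000 * (n : ℝ) ^ 4 * Real.exp (-29.649 * n) * 4 ^ (4 * n) := by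
  obtain ⟨N, hN2⟩ := he
  have hn2 : n = 2 * N := by omega
  clear hN2
  subst hn2
  have hN : 1 ≤ N := by omega
  have hN0 : (0 : ℝ) < N := by exact_mod_cast hN
  have h2 : 2 * N / 2 = N := by omega
  have hf := BN_fact N hN
  have hx : Real.exp (-29.649 * ((2 * N : ℕ) : ℝ)) = Real.exp (-59.298 * N) := by
    congr 1
    push_cast
    ring
  unfold betaZ
  rw [h2, hx, show 8 * (2 * N) = 16 * N by ring, show 4 * (2 * N) = 8 * N by ring]
  have h3 : (N : ℝ) ^ 4 ≤ ((2 * N : ℕ) : ℝ) ^ 4 := by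
    apply pow_le_pow_left₀ hN0.le
    push_cast
    linarith
  calc 10 * BN (kf (2 * N)) N * (((16 * N + 1)! : ℕ) : ℝ)
      = 10 * (BN (kf (2 * N)) N * (((16 * N + 1)! : ℕ) : ℝ)) := by ring
    _ ≤ 10 * (3000000 * (N : ℝ) ^ 4 * Real.exp (-59.298 * N) * 4 ^ (8 * N)) := by linarith
    _ = 30000000 * (N : ℝ) ^ 4 * (Real.exp (-59.298 * N) * 4 ^ (8 * N)) := by ring
    _ ≤ 30000000 * ((2 * N : ℕ) : ℝ) ^ 4 * (Real.exp (-59.298 * N) * 4 ^ (8 * N)) := by
        gcongr
    _ = _ := by ring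

/-- DOMINATION in the form used by `rows_link`: `β = betaZ n`, `R = 196 n^2 · 1.046` -/
theorem dom_link (n : ℕ) (hn : 1 ≤ n) (he : Even n) : ∀ s ≤ n, ∀ y : ℝ,
    ‖R2 (K1 n) (K2 n) (NN n) (ln (1 - ((2 * n : ℕ) : ℤ)) y)‖ * Ker y *
      ‖ln (1 - ((2 * n : ℕ) : ℤ)) y + ((16 * n : ℕ) : ℂ)‖ ^ (2 * s) ≤
      betaZ n * (196 * (n : ℝ) ^ 2 * 1.046) ^ s * wt (4 * n) y := by
  obtain ⟨N, hN2⟩ := he
  have hn2 : n = 2 * N := by omega
  clear hN2
  subst hn2
  intro s hs y
  have hN : 1 ≤ N := by omega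
  have h2 : 2 * N / 2 = N := by omega
  have hk : 0 < kf (2 * N) := by
    unfold kf
    positivity
  have h := dom3 N s hN hs (kf (2 * N)) hk y
  unfold betaZ
  rw [h2]
  have e1 : (((16 * (2 * N) : ℕ)) : ℂ) = 16 * ((2 * N : ℕ) : ℂ) := by push_cast; ring
  have e2 : 196 * ((2 * N : ℕ) : ℝ) ^ 2 * 1.046 = 784 * (N : ℝ) ^ 2 * 1.046 := by
    push_cast
    ring
  rw [e1, e2]
  exact h

end Pool.Agent.Z3D
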