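import Pool.Agent.Z3D.Nonvan

/-!
# From a lower bound for the denominators to the irrationality exponent
-/

open Filter Topology

namespace Pool.Agent.Z3D

/-- **End of the proof.** If every good approximation `|a / b - z| ≤ exp (-T N)` has
`|b| ≥ exp (h N)`, then the irrationality exponent of `z` is at most `T / h`. -/
theorem exponent_end {T h μ z : ℝ} (hT : 0 < T) (hh : 0 < h) (hμ : T < h * μ)
    (H : ∀ᶠ N : ℕ in atTop, ∀ a b : ℤ, b ≠ 0 → |(a : ℝ) / b - z| ≤ Real.exp (-(T * N)) →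
      Real.exp (h * N) ≤ |(b : ℝ)|) :
    ∀ᶠ q : ℕ in atTop, ∀ a : ℤ, 1 / (q : ℝ) ^ μ < |z - (a : ℝ) / (q : ℝ)| := by
  have hμ0 : 0 < μ := by
    by_contra hneg
    push Not at hneg
    nlinarith
  obtain ⟨N0, hN0⟩ := eventually_atTop.mp H
  have hlog : Tendsto (fun q : ℕ => Real.log (q : ℝ)) atTop atTop :=
    Real.tendsto_log_atTop.comp tendsto_natCast_atTop_atTop
  have e1 := hlog.eventually_ge_atTop ((N0 + 1) * T / μ)
  have e2 := hlog.eventually_gt_atTop (h * T / (h * μ - T))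
  filter_upwards [e1, e2, eventually_ge_atTop 1] with q hq1 hq2 hq a
  by_contra hneg
  push Not at hneg
  have hq0 : (0 : ℝ) < q := by exact_mod_cast hq
  set L := Real.log (q : ℝ) with hL
  have hL0 : 0 ≤ L := Real.log_nonneg (by exact_mod_cast hq)
  set N := ⌊μ * L / T⌋₊ with hN
  have hNle : (N : ℝ) ≤ μ * L / T := Nat.floor_le (by positivity)
  have hNlt : μ * L / T < N + 1 := Nat.lt_floor_add_one _
  have hNN : N0 ≤ N := by
    rw [hN]
    apply Nat.le_floor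
    rw [le_div_iff₀ hT]
    rw [div_le_iff₀ hμ0] at hq1
    nlinarith
  have h1 : |(a : ℝ) / ((q : ℤ) : ℝ) - z| ≤ Real.exp (-(T * N)) := by
    have h2 : (((q : ℤ)) : ℝ) = (q : ℝ) := by push_cast; rfl
    rw [h2, abs_sub_comm]
    refine hneg.trans ?_
    rw [one_div, ← Real.rpow_neg hq0.le, Real.rpow_def_of_pos hq0]
    apply Real.exp_le_exp.mpr
    rw [le_div_iff₀ hT] at hNle
    nlinarith
  have h3 := hN0 N hNN a (q : ℤ) (by exact_mod_cast (by omega : q ≠ 0)) h1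
  have h4 : |((q : ℤ) : ℝ)| = (q : ℝ) := by
    push_cast
    exact abs_of_pos hq0
  rw [h4] at h3
  have h5 := Real.log_le_log (Real.exp_pos _) h3
  rw [Real.log_exp, ← hL] at h5
  -- h N ≤ L < ...
  have h6 : μ * L / T - 1 < N := by linarith
  have h7 : h * (μ * L / T - 1) < L := lt_of_lt_of_le (by nlinarith) h5
  have h8 : h * T / (h * μ - T) < L := hq2
  have h9 : 0 < h * μ - T := by linarith
  rw [div_lt_iff₀ h9] at h8
  have h10 : h * (μ * L / T - 1) * T < L * T := mul_lt_mul_of_pos_right h7 hT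
  have h11 : h * (μ * L / T - 1) * T = h * μ * L - h * T := by
    field_simp
  rw [h11] at h10
  nlinarith

/-- **Final assembly.** Parameter `n = s N` of the family. `D` is the arithmetic constant (per
`n ^ 2`), `G` the archimedean one (per `N ^ 2`) for approximations better than `exp (-T N)`. -/
theorem final_of {T D G μ : ℝ} (hT : 0 < T) (s : ℕ) (hs : 1 ≤ s)
    (harith : ∀ e : ℝ, 0 < e → ∀ᶠ n : ℕ in atTop, ∀ M : ℕ, 5 * n ≤ M + 3 → M ≤ 5 * n →
      ∀ a b : ℤ, Dlt n a b M ≠ 0 → Real.exp (-(D + e) * (n : ℝ) ^ 2) ≤ |(Dlt n a b M : ℝ)|)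
    (hup : ∀ e : ℝ, 0 < e → ∀ᶠ N : ℕ in atTop, ∀ M : ℕ, 5 * (s * N) ≤ M + 3 → M ≤ 5 * (s * N) →
      ∀ a b : ℤ, b ≠ 0 → |(a : ℝ) / b - Z3.zeta3| ≤ Real.exp (-(T * N)) →
      |(Dlt (s * N) a b M : ℝ)| ≤ |(b : ℝ)| ^ M * Real.exp (-(G - e) * (N : ℝ) ^ 2))
    (hG : 0 < G - D * s ^ 2) (hμ : 5 * s * T < (G - D * s ^ 2) * μ) :
    ∀ᶠ q : ℕ in atTop, ∀ a : ℤ, 1 / (q : ℝ) ^ μ < |Z3.zeta3 - (a : ℝ) / (q : ℝ)| := by
  have hs' : (1 : ℝ) ≤ s := by exact_mod_cast hs
  have hμ0 : 0 < μ := by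
    by_contra hneg
    push Not at hneg
    have : 0 < 5 * s * T := by positivity
    nlinarith
  -- choose the loss
  set W : ℝ := (G - D * s ^ 2) - 5 * s * T / μ with hW
  have hW0 : 0 < W := by
    rw [hW, sub_pos, div_lt_iff₀ hμ0]
    exact hμ
  set e : ℝ := min (W / (2 * (s ^ 2 + 1))) ((G - D * s ^ 2) / (2 * (s ^ 2 + 1))) with he
  have he0 : 0 < e := by
    rw [he]
    exact lt_min (by positivity) (by positivity)
  have he1 : e * (s ^ 2 + 1) ≤ W / 2 := by
    have h1 : e ≤ W / (2 * (s ^ 2 + 1)) := min_le_left _ _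
    rw [le_div_iff₀ (by positivity)] at h1
    linarith
  have he2 : e * (s ^ 2 + 1) ≤ (G - D * s ^ 2) / 2 := by
    have h1 : e ≤ (G - D * s ^ 2) / (2 * (s ^ 2 + 1)) := min_le_right _ _
    rw [le_div_iff₀ (by positivity)] at h1
    linarith
  set h : ℝ := ((G - D * s ^ 2) - e * (s ^ 2 + 1)) / (5 * s) with hh
  have hh0 : 0 < h := by
    rw [hh]
    apply div_pos _ (by positivity)
    linarith
  have hhμ : T < h * μ := by
    have h1 : 5 * s * T / μ < (G - D * s ^ 2) - e * (s ^ 2 + 1) := by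
      have : 5 * s * T / μ = (G - D * s ^ 2) - W := by rw [hW]; ring
      rw [this]
      linarith
    rw [div_lt_iff₀ hμ0] at h1
    rw [hh, div_mul_eq_mul_div, lt_div_iff₀ (by positivity)]
    linarith
  refine exponent_end hT hh0 hhμ ?_
  have hsN : Tendsto (fun N : ℕ => s * N) atTop atTop :=
    tendsto_id.const_mul_atTop' (by omega)
  filter_upwards [hsN.eventually (harith e he0), hup e he0, eventually_ge_atTop 1] with N hA hU hN
    a b hb hab
  obtain ⟨M, hM1, hM2, hM3⟩ := nonvan_all (s * N) (Nat.mul_pos hs hN) a b hb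
  have h1 := hA M (by omega) hM2 a b hM3
  have h2 := hU M (by omega) hM2 a b hb hab
  have hN' : (1 : ℝ) ≤ N := by exact_mod_cast hN
  have hb1 : (1 : ℝ) ≤ |(b : ℝ)| := by
    have : (1 : ℤ) ≤ |b| := Int.one_le_abs hb
    exact_mod_cast this
  have h3 : |(b : ℝ)| ^ M ≤ |(b : ℝ)| ^ (5 * (s * N)) := pow_le_pow_right₀ hb1 hM2
  have h4 : Real.exp (-(D + e) * ((s * N : ℕ) : ℝ) ^ 2) ≤
      |(b : ℝ)| ^ (5 * (s * N)) * Real.exp (-(G - e) * (N : ℝ) ^ 2) :=
    (h1.trans h2).trans (mul_le_mul_of_nonneg_right h3 (Real.exp_pos _).le)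
  have hb0 : (0 : ℝ) < |(b : ℝ)| := by linarith
  have h5 := Real.log_le_log (Real.exp_pos _) h4
  rw [Real.log_exp, Real.log_mul (by positivity) (Real.exp_pos _).ne', Real.log_pow,
    Real.log_exp] at h5
  push_cast at h5
  rw [← Real.le_log_iff_exp_le hb0]
  have h6 : (N : ℝ) * (h * (5 * s) * N) ≤ N * (5 * s * Real.log |(b : ℝ)|) := by
    have h7 : h * (5 * s) = (G - D * s ^ 2) - e * (s ^ 2 + 1) := by
      rw [hh]
      field_simp
    rw [h7]
    nlinarith
  have h8 := le_of_mul_le_mul_left h6 (by linarith)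
  have h9 : (5 * s) * (h * N) ≤ (5 * s) * Real.log |(b : ℝ)| := by linarith
  exact le_of_mul_le_mul_left h9 (by positivity)

end Pool.Agent.Z3D
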