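import Mathlib
import Pool.Agent.D23.ArchOf

/-!
Logarithm of the product of the rows in one group: the rows have the form
`exp(ξ N) (ρ N²)^(RN) C(AN+1+x, x) / 16^x + exp(η N) (σ N²)^(RN) τ^x`, `x = j - R N`,
relative to `(x! / j!)^2`.  Everything is expressed by superfactorials.
-/

open Finset
open scoped Nat

namespace Pool.Agent.Z3D

open Pool.Agent.D23 (log_fact_upper log_factorial_ge gch)

/-- `∑_{i<m} log i!` -/
noncomputable def Gf (m : ℕ) : ℝ := ∑ i ∈ range m, Real.log (i ! : ℝ)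

/-- the main term of `Gf` -/
noncomputable def hh (c : ℝ) : ℝ := c ^ 2 / 2 * Real.log c - 3 / 4 * c ^ 2

theorem Gf_succ (m : ℕ) : Gf (m + 1) = Gf m + Real.log (m ! : ℝ) := by
  unfold Gf
  rw [sum_range_succ]

theorem hh_hasDeriv (x : ℝ) (hx : 0 < x) : HasDerivAt hh (x * Real.log x - x) x := by
  have h6 : HasDerivAt (fun x : ℝ => x ^ 2 / 2) x x := by
    have := ((hasDerivAt_id x).pow 2).div_const 2
    refine this.congr_deriv ?_
    simp
  have h7 : HasDerivAt (fun x : ℝ => Real.log x) (1 / x) x := by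
    simpa using Real.hasDerivAt_log hx.ne'
  have h8 := h6.mul h7
  have h9 : HasDerivAt (fun x : ℝ => 3 / 4 * x ^ 2) (3 / 4 * (2 * x)) x := by
    have := ((hasDerivAt_id x).pow 2).const_mul (3 / 4 : ℝ)
    refine this.congr_deriv ?_
    simp
  have h10 := h8.sub h9
  refine h10.congr_deriv ?_
  field_simp
  ring

theorem continuous_hh : Continuous hh := by
  unfold hh
  have h1 : Continuous (fun x : ℝ => x * Real.log x) := Real.continuous_mul_log
  have h4 : Continuous (fun x : ℝ => x ^ 2 / 2 * Real.log x) := by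
    have : (fun x : ℝ => x ^ 2 / 2 * Real.log x) = fun x => x / 2 * (x * Real.log x) := by
      ext; ring
    rw [this]
    exact Continuous.mul (by fun_prop) h1
  exact h4.sub (by fun_prop)

theorem hh_mvt (a b : ℝ) (ha : 0 ≤ a) (hab : a < b) :
    ∃ z, a < z ∧ z < b ∧ hh b - hh a = (b - a) * (z * Real.log z - z) := by
  obtain ⟨z, hz, hze⟩ := exists_hasDerivAt_eq_slope hh (fun x => x * Real.log x - x) hab
    continuous_hh.continuousOn (fun z hz => hh_hasDeriv z (by linarith only [ha, hz, hz.1]))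
  refine ⟨z, hz.1, hz.2, ?_⟩
  have h : 0 < b - a := by linarith only [hab]
  rw [hze]
  field_simp

theorem phi_mono (a b : ℝ) (ha : 1 ≤ a) (hab : a ≤ b) :
    a * Real.log a - a ≤ b * Real.log b - b := by
  have ha0 : 0 < a := by linarith only [ha]
  have hb0 : 0 < b := by linarith only [ha, hab]
  have h1 : 1 - (b / a)⁻¹ ≤ Real.log (b / a) := Real.one_sub_inv_le_log_of_pos (by positivity)
  rw [Real.log_div hb0.ne' ha0.ne', inv_div] at h1
  have h2 : 1 - b⁻¹ ≤ Real.log b := Real.one_sub_inv_le_log_of_pos hb0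
  have h3 : a * (1 - a / b) ≤ a * (Real.log b - Real.log a) := mul_le_mul_of_nonneg_left h1 ha0.le
  have h4 : (b - a) * (1 - b⁻¹) ≤ (b - a) * Real.log b := mul_le_mul_of_nonneg_left h2 (by linarith only [hab])
  have h5 : 0 ≤ a * (1 - a / b) + (b - a) * (1 - b⁻¹) - (b - a) := by
    have e : a * (1 - a / b) + (b - a) * (1 - b⁻¹) - (b - a) = (b - a) * (a - 1) / b := by
      field_simp
      ring
    rw [e]
    exact div_nonneg (mul_nonneg (by linarith only [hab]) (by linarith only [ha])) hb0.le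
  linarith only [h3, h4, h5]

theorem phi_diff (a b : ℝ) (ha : 1 ≤ a) (hab : a ≤ b) :
    (b * Real.log b - b) - (a * Real.log a - a) ≤ (b - a) * Real.log b := by
  have ha0 : 0 < a := by linarith only [ha]
  have hb0 : 0 < b := by linarith only [ha, hab]
  have h1 : Real.log (b / a) ≤ b / a - 1 := Real.log_le_sub_one_of_pos (by positivity)
  rw [Real.log_div hb0.ne' ha0.ne'] at h1
  have h2 := mul_le_mul_of_nonneg_left h1 ha0.le
  have e : a * (b / a - 1) = b - a := by field_simp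
  rw [e] at h2
  linarith only [h2]

theorem phi_abs (z X : ℝ) (hz : 0 < z) (hzX : z ≤ X) (hX : 1 ≤ X) :
    |z * Real.log z - z| ≤ X * Real.log X + X + 1 := by
  have hXl : 0 ≤ X * Real.log X := mul_nonneg (by linarith only [hz, hzX]) (Real.log_nonneg hX)
  have h1 : |z * Real.log z| ≤ X * Real.log X + 1 := by
    rcases le_total z 1 with h | h
    · have := Real.abs_log_mul_self_lt z hz h
      rw [mul_comm] at this
      linarith only [hXl, this]
    · have h2 : 0 ≤ Real.log z := Real.log_nonneg h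
      have h3 : Real.log z ≤ Real.log X := Real.log_le_log hz hzX
      rw [abs_of_nonneg (mul_nonneg hz.le h2)]
      have : z * Real.log z ≤ X * Real.log X := mul_le_mul hzX h3 h2 (by linarith only [hz, hzX])
      linarith only [this]
  calc |z * Real.log z - z| ≤ |z * Real.log z| + |z| := abs_sub _ _
    _ ≤ _ := by
      rw [abs_of_pos hz]
      linarith only [hzX, h1]

theorem hh_diff (a b X : ℝ) (ha : 0 ≤ a) (haX : a ≤ X) (hb : 0 ≤ b) (hbX : b ≤ X) (hX : 1 ≤ X) :
    |hh b - hh a| ≤ |b - a| * (X * Real.log X + X + 1) := by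
  have key : ∀ a b : ℝ, 0 ≤ a → a < b → b ≤ X →
      |hh b - hh a| ≤ |b - a| * (X * Real.log X + X + 1) := by
    intro a b ha hab hbX
    obtain ⟨z, hz1, hz2, hz⟩ := hh_mvt a b ha hab
    rw [hz, abs_mul]
    exact mul_le_mul_of_nonneg_left (phi_abs z X (by linarith only [ha, hz1]) (by linarith only [hbX, hz2]) hX) (abs_nonneg _)
  rcases lt_trichotomy a b with h | h | h
  · exact key a b ha h hbX
  · subst h
    simp
  · rw [abs_sub_comm, abs_sub_comm b a]
    exact key b a hb h haX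

/-- `|Gf m - hh m| ≤ m (log (m+1) + 1)` -/
theorem Gf_bound (m : ℕ) : |Gf m - hh m| ≤ m * (Real.log (m + 1) + 1) := by
  induction m with
  | zero => simp [Gf, hh]
  | succ m ih =>
    rcases Nat.eq_zero_or_pos m with rfl | hm
    · have h1 : Gf (0 + 1) = 0 := by simp [Gf]
      have e : ((0 + 1 : ℕ) : ℝ) = 1 := by norm_num
      have h2 : hh 1 = -(3 / 4) := by unfold hh; norm_num
      rw [h1, e, h2]
      have h3 : 0 ≤ Real.log ((1 : ℝ) + 1) := Real.log_nonneg (by norm_num)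
      rw [abs_of_nonneg (by norm_num)]
      generalize Real.log ((1 : ℝ) + 1) = t at h3 ⊢
      linarith only [h3]
    · have hm' : (1 : ℝ) ≤ m := by exact_mod_cast hm
      have hm0 : (0 : ℝ) < m := by linarith only [hm']
      have h1 := log_factorial_ge m hm
      have h2 := log_fact_upper m hm
      obtain ⟨z, hz1, hz2, hz⟩ := hh_mvt (m : ℝ) ((m : ℝ) + 1) hm0.le (by linarith)
      have h3 := phi_mono (m : ℝ) z hm' hz1.le
      have h4 := phi_mono z ((m : ℝ) + 1) (by linarith only [hm', hz1]) hz2.le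
      have h5 := phi_diff (m : ℝ) ((m : ℝ) + 1) hm' (by linarith only [hz1, hz2])
      have e1 : (m : ℝ) + 1 - m = 1 := by ring
      rw [e1, one_mul] at hz h5
      have h6 : Real.log m ≤ Real.log ((m : ℝ) + 1) := Real.log_le_log hm0 (by linarith only [hz1, hz2])
      have h7 : Real.log ((m : ℝ) + 1) ≤ Real.log ((m : ℝ) + 1 + 1) :=
        Real.log_le_log (by linarith only [hm', hz1, hz2]) (by linarith only [hz1, hz2])
      rw [Gf_succ]
      have h8 : |Real.log (m ! : ℝ) - (hh ((m : ℝ) + 1) - hh m)| ≤ Real.log ((m : ℝ) + 1) + 1 := by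
        rw [abs_le, hz]
        constructor <;> linarith only [h1, hz1, hz2, h4, h5, h2, h3, h6]
      have h9 : |Gf m - hh m + (Real.log (m ! : ℝ) - (hh ((m : ℝ) + 1) - hh m))| ≤
          m * (Real.log (m + 1) + 1) + (Real.log ((m : ℝ) + 1) + 1) :=
        (abs_add_le _ _).trans (add_le_add ih h8)
      have e2 : Gf m + Real.log (m ! : ℝ) - hh ((m + 1 : ℕ) : ℝ) =
          Gf m - hh m + (Real.log (m ! : ℝ) - (hh ((m : ℝ) + 1) - hh m)) := by
        push_cast
        ring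
      rw [e2]
      refine h9.trans ?_
      push_cast
      nlinarith only [h7]

theorem log_half_le (N : ℕ) (hN : 1 ≤ N) : 1 / 2 ≤ Real.log ((N : ℝ) + 1) := by
  have hN' : (1 : ℝ) ≤ N := by exact_mod_cast hN
  have h1 : Real.log 2 ≤ Real.log ((N : ℝ) + 1) := Real.log_le_log (by norm_num) (by linarith only [hN'])
  have := Real.log_two_gt_d9
  linarith only [h1, this]

/-- `log (X N) ≤ log X + log (N+1)` in a form with a constant -/
theorem log_mul_le (X : ℝ) (hX : 1 ≤ X) (N : ℕ) (hN : 1 ≤ N) :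
    Real.log (X * N) ≤ (2 * Real.log X + 1) * Real.log ((N : ℝ) + 1) := by
  have hN' : (1 : ℝ) ≤ N := by exact_mod_cast hN
  have h1 : Real.log (X * N) = Real.log X + Real.log N :=
    Real.log_mul (by linarith only [hX]) (by linarith only [hN'])
  have h2 : Real.log (N : ℝ) ≤ Real.log ((N : ℝ) + 1) := Real.log_le_log (by linarith only [hN']) (by linarith)
  have h3 : 0 ≤ Real.log X := Real.log_nonneg hX
  have h4 := log_half_le N hN
  rw [h1]
  nlinarith only [h2, h3, h4]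

theorem hh_scale (c : ℝ) (hc : 0 ≤ c) (N : ℕ) (hN : 1 ≤ N) :
    hh (c * N) = hh c * (N : ℝ) ^ 2 + c ^ 2 / 2 * ((N : ℝ) ^ 2 * Real.log N) := by
  have hN' : (1 : ℝ) ≤ N := by exact_mod_cast hN
  rcases eq_or_lt_of_le hc with h | h
  · rw [← h]
    simp [hh]
  · unfold hh
    rw [Real.log_mul h.ne' (by linarith only [hN'])]
    ring

/-- asymptotics of the superfactorial near `c N` -/
theorem Gf_near (c K : ℝ) (hc : 0 ≤ c) (hK : 0 ≤ K) : ∃ C : ℝ, 0 ≤ C ∧ ∀ N b : ℕ, 1 ≤ N →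
    |(b : ℝ) - c * N| ≤ K →
    |Gf b - (hh c * (N : ℝ) ^ 2 + c ^ 2 / 2 * ((N : ℝ) ^ 2 * Real.log N))| ≤
      C * (N * Real.log ((N : ℝ) + 1)) := by
  set X : ℝ := c + K + 1 with hX
  have hX1 : 1 ≤ X := by linarith only [hc, hK]
  set l : ℝ := 2 * Real.log X + 1 with hl
  have hl1 : 1 ≤ l := by
    have := Real.log_nonneg hX1
    linarith only [this]
  refine ⟨X * (l + 3) + K * (X * l + 2 * X + 2), by positivity, fun N b hN hb => ?_⟩
  have hN' : (1 : ℝ) ≤ N := by exact_mod_cast hN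
  have hL := log_half_le N hN
  set L : ℝ := Real.log ((N : ℝ) + 1) with hLdef
  have hL0 : 0 ≤ L := by linarith only [hL]
  rw [← hh_scale c hc N hN]
  have hbX : (b : ℝ) + 1 ≤ X * (N + 1) := by
    have h1 := (abs_le.mp hb).2
    have : c * N + K + 1 ≤ X * N := by
      rw [hX]
      nlinarith only [hK, hN']
    linarith only [hc, hK, h1, this]
  have hbX' : (b : ℝ) ≤ X * N := by
    have h1 := (abs_le.mp hb).2
    rw [hX]
    nlinarith only [hK, hN', h1]
  have hb0 : (0 : ℝ) ≤ b := Nat.cast_nonneg b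
  have hXN : 1 ≤ X * N := by nlinarith only [hc, hK, hN']
  -- first part
  have h1 : |Gf b - hh b| ≤ X * (l + 3) * (N * L) := by
    refine (Gf_bound b).trans ?_
    have h2 : Real.log ((b : ℝ) + 1) ≤ Real.log X + L := by
      rw [hLdef, ← Real.log_mul (by linarith only [hc, hK]) (by linarith only [hN'])]
      exact Real.log_le_log (by linarith) hbX
    have h3 : Real.log X ≤ l * L := by
      have : 0 ≤ Real.log X := Real.log_nonneg hX1
      rw [hl]
      nlinarith only [hl1, hL]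
    have h4 : Real.log ((b : ℝ) + 1) + 1 ≤ (l + 3) * L := by linarith only [hL, h2, h3]
    have h5 : 0 ≤ Real.log ((b : ℝ) + 1) + 1 := by
      have := Real.log_nonneg (show (1 : ℝ) ≤ b + 1 by linarith)
      linarith only [this]
    calc (b : ℝ) * (Real.log (b + 1) + 1) ≤ (X * N) * ((l + 3) * L) :=
          mul_le_mul hbX' h4 h5 (by positivity)
      _ = _ := by ring
  -- second part
  have h6 : |hh b - hh (c * N)| ≤ K * (X * l + 2 * X + 2) * (N * L) := by
    have h7 := hh_diff (c * N) b (X * N) (by positivity)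
      (by rw [hX]; nlinarith only [hK, hN']) hb0 hbX' hXN
    have h8 := log_mul_le X hX1 N hN
    rw [← hLdef, ← hl] at h8
    have h9 : X * N * Real.log (X * N) + X * N + 1 ≤ (X * l + 2 * X + 2) * (N * L) := by
      have h10 : X * N * Real.log (X * N) ≤ X * N * (l * L) := by gcongr
      have h11 : X * N ≤ 2 * X * (N * L) := by
        have : X * N * 1 ≤ X * N * (2 * L) := by gcongr; linarith only [hL]
        linarith only [this]
      have h12 : 1 ≤ 2 * (N * L) := by nlinarith only [hN', hL]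
      linarith only [h10, h11, h12]
    have h13 : 0 ≤ X * N * Real.log (X * N) + X * N + 1 := by
      have := Real.log_nonneg hXN
      positivity
    calc |hh b - hh (c * N)| ≤ |(b : ℝ) - c * N| * (X * N * Real.log (X * N) + X * N + 1) := h7
      _ ≤ K * ((X * l + 2 * X + 2) * (N * L)) := mul_le_mul hb h9 h13 hK
      _ = _ := by ring
  calc |Gf b - hh (c * N)| = |(Gf b - hh b) + (hh b - hh (c * N))| := by congr 1; ring
    _ ≤ |Gf b - hh b| + |hh b - hh (c * N)| := abs_add_le _ _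
    _ ≤ _ := by
      rw [add_mul]
      linarith only [h1, h6]

/-- asymptotics of the factorial near `c N` -/
theorem fact_near (c K : ℝ) (hc : 1 ≤ c) (hK : 0 ≤ K) : ∃ C : ℝ, 0 ≤ C ∧ ∀ N b : ℕ, 1 ≤ N →
    c * N ≤ b → (b : ℝ) ≤ c * N + K →
    |Real.log (b ! : ℝ) - ((c * Real.log c - c) * N + c * (N * Real.log N))| ≤
      C * Real.log ((N : ℝ) + 1) := by
  set X : ℝ := c + K with hX
  have hX1 : 1 ≤ X := by linarith only [hc, hK]
  set l : ℝ := 2 * Real.log X + 1 with hl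
  have hl1 : 1 ≤ l := by
    have := Real.log_nonneg hX1
    linarith only [this]
  refine ⟨K * l + l + 2, by positivity, fun N b hN hb1 hb2 => ?_⟩
  have hN' : (1 : ℝ) ≤ N := by exact_mod_cast hN
  have hL := log_half_le N hN
  set L : ℝ := Real.log ((N : ℝ) + 1) with hLdef
  have hL0 : 0 ≤ L := by linarith only [hL]
  have hcN : 1 ≤ c * N := by nlinarith only [hc, hN']
  have hb : 1 ≤ (b : ℝ) := by linarith only [hb1, hcN]
  have hbn : 1 ≤ b := by exact_mod_cast hb
  have hbX : (b : ℝ) ≤ X * N := by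
    rw [hX]
    nlinarith only [hK, hb2, hN']
  have h1 := log_factorial_ge b hbn
  have h2 := log_fact_upper b hbn
  have h3 := phi_mono (c * N) b hcN hb1
  have h4 := phi_diff (c * N) b hcN hb1
  have h5 : Real.log (b : ℝ) ≤ l * L :=
    (Real.log_le_log (by linarith only [hb1, hcN]) hbX).trans (log_mul_le X hX1 N hN)
  have h6 : (b - c * N) * Real.log (b : ℝ) ≤ K * (l * L) := by
    apply mul_le_mul (by linarith only [hb2]) h5 (Real.log_nonneg hb) hK
  have e : (c * Real.log c - c) * N + c * (N * Real.log N) =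
      c * N * Real.log (c * N) - c * N := by
    rw [Real.log_mul (by linarith only [hc]) (by linarith only [hN'])]
    ring
  rw [e, abs_le]
  constructor
  · have : 0 ≤ (K * l + l + 2) * L := by positivity
    linarith only [hL, h1, h2, h3, h4, h5, h6]
  · have : (K * l + l + 2) * L = K * (l * L) + l * L + 2 * L := by ring
    rw [this]
    linarith only [hL, h2, h4, h5, h6]

/-- `f = α N² + γ N² log N + O(N log (N+1))` on the pairs `(N, b)` with `P N b` -/
def Asy (P : ℕ → ℕ → Prop) (f : ℕ → ℕ → ℝ) (α γ : ℝ) : Prop :=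
  ∃ C : ℝ, 0 ≤ C ∧ ∀ N b : ℕ, P N b →
    |f N b - (α * (N : ℝ) ^ 2 + γ * ((N : ℝ) ^ 2 * Real.log N))| ≤
      C * (N * Real.log ((N : ℝ) + 1))

theorem Asy.add {P : ℕ → ℕ → Prop} {f g : ℕ → ℕ → ℝ} {α γ α' γ' : ℝ} (h : Asy P f α γ)
    (h' : Asy P g α' γ') : Asy P (fun N b => f N b + g N b) (α + α') (γ + γ') := by
  obtain ⟨C, hC, h⟩ := h
  obtain ⟨C', hC', h'⟩ := h'
  refine ⟨C + C', by positivity, fun N b hb => ?_⟩
  have h1 := abs_le.mp (h N b hb)
  have h2 := abs_le.mp (h' N b hb)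
  rw [abs_le]
  constructor <;> linarith only [h1, h2, h1.1, h1.2, h2.1, h2.2]

theorem Asy.sub {P : ℕ → ℕ → Prop} {f g : ℕ → ℕ → ℝ} {α γ α' γ' : ℝ} (h : Asy P f α γ)
    (h' : Asy P g α' γ') : Asy P (fun N b => f N b - g N b) (α - α') (γ - γ') := by
  obtain ⟨C, hC, h⟩ := h
  obtain ⟨C', hC', h'⟩ := h'
  refine ⟨C + C', by positivity, fun N b hb => ?_⟩
  have h1 := abs_le.mp (h N b hb)
  have h2 := abs_le.mp (h' N b hb)
  rw [abs_le]
  constructor <;> linarith only [h1, h2, h1.1, h1.2, h2.1, h2.2]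

theorem Asy.cmul {P : ℕ → ℕ → Prop} {f : ℕ → ℕ → ℝ} {α γ : ℝ} (k : ℝ) (h : Asy P f α γ) :
    Asy P (fun N b => k * f N b) (k * α) (k * γ) := by
  obtain ⟨C, hC, h⟩ := h
  refine ⟨|k| * C, by positivity, fun N b hb => ?_⟩
  have h1 := mul_le_mul_of_nonneg_left (h N b hb) (abs_nonneg k)
  rw [← abs_mul] at h1
  have e : k * f N b - (k * α * (N : ℝ) ^ 2 + k * γ * ((N : ℝ) ^ 2 * Real.log N)) =
      k * (f N b - (α * (N : ℝ) ^ 2 + γ * ((N : ℝ) ^ 2 * Real.log N))) := by ring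
  rw [e]
  linarith only [h1]

theorem Asy.congr {P : ℕ → ℕ → Prop} {f g : ℕ → ℕ → ℝ} {α γ α' γ' : ℝ} (h : Asy P f α γ)
    (hfg : ∀ N b, P N b → g N b = f N b) (hα : α' = α) (hγ : γ' = γ) : Asy P g α' γ' := by
  obtain ⟨C, hC, h⟩ := h
  refine ⟨C, hC, fun N b hb => ?_⟩
  rw [hfg N b hb, hα, hγ]
  exact h N b hb

/-- `b` is within `K` of `c N` and at least `R N` -/
def Nr (R : ℕ) (c K : ℝ) (N b : ℕ) : Prop := 1 ≤ N ∧ R * N ≤ b ∧ |(b : ℝ) - c * N| ≤ K

theorem cast_shift {R : ℕ} {c K : ℝ} {N b : ℕ} (h : Nr R c K N b) :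
    ((b - R * N : ℕ) : ℝ) = b - R * N := by
  rw [Nat.cast_sub h.2.1]
  push_cast
  ring

theorem near_shift {R : ℕ} {c K : ℝ} {N b : ℕ} (h : Nr R c K N b) :
    |((b - R * N : ℕ) : ℝ) - (c - R) * N| ≤ K := by
  rw [cast_shift h]
  have e : (b : ℝ) - R * N - (c - R) * N = b - c * N := by ring
  rw [e]
  exact h.2.2

/-- the superfactorial along any sequence near `c' N` -/
theorem asy_Gf (P : ℕ → ℕ → Prop) (y : ℕ → ℕ → ℕ) (c K : ℝ) (hc : 0 ≤ c) (hK : 0 ≤ K)
    (hP : ∀ N b, P N b → 1 ≤ N ∧ |((y N b : ℕ) : ℝ) - c * N| ≤ K) :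
    Asy P (fun N b => Gf (y N b)) (hh c) (c ^ 2 / 2) := by
  obtain ⟨C, hC, h⟩ := Gf_near c K hc hK
  exact ⟨C, hC, fun N b hb => h N (y N b) (hP N b hb).1 (hP N b hb).2⟩

theorem asy_lin (R : ℕ) (c K : ℝ) (hK : 0 ≤ K) :
    Asy (Nr R c K) (fun N b => (b : ℝ) * N) c 0 := by
  refine ⟨2 * K, by positivity, fun N b hb => ?_⟩
  have hN' : (1 : ℝ) ≤ N := by exact_mod_cast hb.1
  have hL := log_half_le N hb.1
  have e : (b : ℝ) * N - (c * (N : ℝ) ^ 2 + 0 * ((N : ℝ) ^ 2 * Real.log N)) =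
      (b - c * N) * N := by ring
  rw [e, abs_mul, abs_of_nonneg (by linarith only [hN'] : (0 : ℝ) ≤ N)]
  have h1 : |(b : ℝ) - c * N| * N ≤ K * N := mul_le_mul_of_nonneg_right hb.2.2 (by linarith only [hN'])
  have h2 : K * N * 1 ≤ K * N * (2 * Real.log ((N : ℝ) + 1)) :=
    mul_le_mul_of_nonneg_left (by linarith only [hL]) (by positivity)
  linarith only [h1, h2]

theorem asy_linlog (R : ℕ) (c K : ℝ) (hK : 0 ≤ K) :
    Asy (Nr R c K) (fun N b => (b : ℝ) * (N * Real.log N)) 0 c := by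
  refine ⟨K, by positivity, fun N b hb => ?_⟩
  have hN' : (1 : ℝ) ≤ N := by exact_mod_cast hb.1
  have hl : 0 ≤ Real.log (N : ℝ) := Real.log_nonneg hN'
  have hl2 : Real.log (N : ℝ) ≤ Real.log ((N : ℝ) + 1) :=
    Real.log_le_log (by linarith only [hN']) (by linarith)
  have e : (b : ℝ) * (N * Real.log N) - (0 * (N : ℝ) ^ 2 + c * ((N : ℝ) ^ 2 * Real.log N)) =
      (b - c * N) * (N * Real.log N) := by ring
  rw [e, abs_mul, abs_of_nonneg (mul_nonneg (by linarith only [hN']) hl)]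
  exact mul_le_mul hb.2.2 (mul_le_mul_of_nonneg_left hl2 (by linarith only [hN']))
    (mul_nonneg (by linarith only [hN']) hl) hK

theorem asy_linfact (A R : ℕ) (hA : 1 ≤ A) (c K : ℝ) (hc : 0 ≤ c) (hK : 0 ≤ K) :
    Asy (Nr R c K) (fun N b => (b : ℝ) * Real.log ((A * N + 1)! : ℝ))
      (c * (A * Real.log A - A)) (c * A) := by
  have hA' : (1 : ℝ) ≤ A := by exact_mod_cast hA
  obtain ⟨C, hC, h⟩ := fact_near A 1 hA' zero_le_one
  obtain ⟨C1, hC1, h1⟩ := (asy_lin R c K hK).cmul (A * Real.log A - A)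
  obtain ⟨C2, hC2, h2⟩ := (asy_linlog R c K hK).cmul (A : ℝ)
  refine ⟨C1 + C2 + (c + K) * C, by positivity, fun N b hb => ?_⟩
  have hN' : (1 : ℝ) ≤ N := by exact_mod_cast hb.1
  have hL := log_half_le N hb.1
  have h3 := h N (A * N + 1) hb.1 (by push_cast; linarith) (by push_cast; linarith)
  have hb0 : (0 : ℝ) ≤ b := Nat.cast_nonneg b
  have hb1 : (b : ℝ) ≤ (c + K) * N := by
    have := (abs_le.mp hb.2.2).2
    nlinarith only [hK, hN', this]
  have h4 := mul_le_mul_of_nonneg_left h3 hb0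
  rw [← abs_of_nonneg hb0, ← abs_mul, abs_of_nonneg hb0] at h4
  have h5 : (b : ℝ) * (C * Real.log ((N : ℝ) + 1)) ≤ (c + K) * C * (N * Real.log ((N : ℝ) + 1)) := by
    have : 0 ≤ C * Real.log ((N : ℝ) + 1) := by
      apply mul_nonneg hC; linarith only [hL]
    calc (b : ℝ) * (C * Real.log ((N : ℝ) + 1)) ≤ (c + K) * N * (C * Real.log ((N : ℝ) + 1)) :=
          mul_le_mul_of_nonneg_right hb1 this
      _ = _ := by ring
  have h6 := abs_le.mp (h1 N b hb)
  have h7 := abs_le.mp (h2 N b hb)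
  have h8 := abs_le.mp (h4.trans h5)
  rw [abs_le]
  constructor <;> linarith only [h6, h7, h8, h6.1, h6.2, h7.1, h7.2, h8.1, h8.2]

theorem asy_sq (R : ℕ) (c K : ℝ) (hc : (R : ℝ) ≤ c) (hK : 0 ≤ K) :
    Asy (Nr R c K) (fun N b => (((b - R * N : ℕ) : ℝ) ^ 2 - ((b - R * N : ℕ) : ℝ)) / 2)
      ((c - R) ^ 2 / 2) 0 := by
  set d : ℝ := c - R with hd
  have hd0 : 0 ≤ d := by linarith only [hc]
  refine ⟨K * (2 * d + K) + d + K, by positivity, fun N b hb => ?_⟩
  have hN' : (1 : ℝ) ≤ N := by exact_mod_cast hb.1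
  have hL := log_half_le N hb.1
  have h1 := near_shift hb
  rw [← hd] at h1
  set x : ℝ := ((b - R * N : ℕ) : ℝ) with hx
  have hx0 : 0 ≤ x := Nat.cast_nonneg _
  have hdN : 0 ≤ d * N := by positivity
  have h2 := abs_le.mp h1
  have h3 : x ≤ d * N + K := by linarith only [h2]
  have e : (x ^ 2 - x) / 2 - (d ^ 2 / 2 * (N : ℝ) ^ 2 + 0 * ((N : ℝ) ^ 2 * Real.log N)) =
      ((x - d * N) * (x + d * N) - x) / 2 := by ring
  rw [e]
  have h4 : |(x - d * N) * (x + d * N)| ≤ K * ((2 * d + K) * N) := by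
    rw [abs_mul]
    refine mul_le_mul h1 ?_ (abs_nonneg _) hK
    rw [abs_of_nonneg (by positivity)]
    nlinarith only [hK, hN', h2]
  have h5 : x ≤ (d + K) * N := by nlinarith only [hK, hN', h2]
  have h6 : |((x - d * N) * (x + d * N) - x) / 2| ≤ (K * (2 * d + K) + d + K) * N / 2 := by
    rw [abs_div, abs_of_pos (by norm_num : (0 : ℝ) < 2)]
    refine div_le_div_of_nonneg_right ?_ (by norm_num)
    refine (abs_sub _ _).trans ?_
    rw [abs_of_nonneg hx0]
    linarith only [h4, h5]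
  refine h6.trans ?_
  have h7 : 0 ≤ (K * (2 * d + K) + d + K) * N := by positivity
  nlinarith only [hL, h7]

/-- potential of the line part of the rows -/
noncomputable def FX (A R : ℕ) (ξ ρ : ℝ) (N j : ℕ) : ℝ :=
  j * (ξ * N + R * N * (Real.log ρ + 2 * Real.log N)) +
    (Gf (A * N + 1 + (j - R * N)) - j * Real.log ((A * N + 1)! : ℝ) - Gf (j - R * N)) -
    Real.log 16 * ((((j - R * N : ℕ) : ℝ) ^ 2 - ((j - R * N : ℕ) : ℝ)) / 2) +
    2 * Gf (j - R * N) - 2 * Gf j

/-- potential of the pole part of the rows -/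
noncomputable def FY (R : ℕ) (η σ τ : ℝ) (N j : ℕ) : ℝ :=
  j * (η * N + R * N * (Real.log σ + 2 * Real.log N)) +
    Real.log τ * ((((j - R * N : ℕ) : ℝ) ^ 2 - ((j - R * N : ℕ) : ℝ)) / 2) +
    2 * Gf (j - R * N) - 2 * Gf j

/-- the limit of `FX` -/
noncomputable def aX (A R : ℕ) (ξ ρ c : ℝ) : ℝ :=
  c * (ξ + R * Real.log ρ) + hh (A + (c - R)) - c * (A * Real.log A - A) + hh (c - R) -
    Real.log 16 * ((c - R) ^ 2 / 2) - 2 * hh c

/-- the limit of `FY` -/
noncomputable def aY (R : ℕ) (η σ τ c : ℝ) : ℝ :=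
  c * (η + R * Real.log σ) + Real.log τ * ((c - R) ^ 2 / 2) + 2 * hh (c - R) - 2 * hh c

theorem asy_FX (A R : ℕ) (hA : 1 ≤ A) (ξ ρ c K : ℝ) (hc : (R : ℝ) ≤ c) (hK : 0 ≤ K) :
    Asy (Nr R c K) (FX A R ξ ρ) (aX A R ξ ρ c) ((A : ℝ) ^ 2 / 2 - A * R + (R : ℝ) ^ 2) := by
  have hR0 : (0 : ℝ) ≤ R := Nat.cast_nonneg R
  have hA0 : (0 : ℝ) ≤ A := Nat.cast_nonneg A
  have g1 := asy_Gf (Nr R c K) (fun N b => A * N + 1 + (b - R * N)) (A + (c - R)) (K + 1)
    (by linarith only [hc]) (by linarith only [hK]) (fun N b hb => ⟨hb.1, by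
      have h := abs_le.mp (near_shift hb)
      push_cast
      rw [abs_le]
      constructor <;> linarith only [h, h.1, h.2]⟩)
  have g2 := asy_Gf (Nr R c K) (fun N b => b - R * N) (c - R) K (by linarith only [hc]) hK
    (fun N b hb => ⟨hb.1, near_shift hb⟩)
  have g3 := asy_Gf (Nr R c K) (fun _ b => b) c K (by linarith only [hc]) hK
    (fun N b hb => ⟨hb.1, hb.2.2⟩)
  have g4 := asy_linfact A R hA c K (by linarith only [hc]) hK
  have g5 := (asy_lin R c K hK).cmul (ξ + R * Real.log ρ)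
  have g6 := (asy_linlog R c K hK).cmul (2 * R : ℝ)
  have g7 := (asy_sq R c K hc hK).cmul (Real.log 16)
  refine ((((((g5.add g6).add g1).sub g4).add g2).sub g7).sub (g3.cmul 2)).congr
    (fun N b _ => ?_) ?_ ?_
  · unfold FX
    ring
  · unfold aX
    ring
  · ring

theorem asy_FY (R : ℕ) (η σ τ c K : ℝ) (hc : (R : ℝ) ≤ c) (hK : 0 ≤ K) :
    Asy (Nr R c K) (FY R η σ τ) (aY R η σ τ c) ((R : ℝ) ^ 2) := by
  have hR0 : (0 : ℝ) ≤ R := Nat.cast_nonneg R
  have g2 := asy_Gf (Nr R c K) (fun N b => b - R * N) (c - R) K (by linarith only [hc]) hK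
    (fun N b hb => ⟨hb.1, near_shift hb⟩)
  have g3 := asy_Gf (Nr R c K) (fun _ b => b) c K (by linarith only [hc]) hK
    (fun N b hb => ⟨hb.1, hb.2.2⟩)
  have g5 := (asy_lin R c K hK).cmul (η + R * Real.log σ)
  have g6 := (asy_linlog R c K hK).cmul (2 * R : ℝ)
  have g7 := (asy_sq R c K hc hK).cmul (Real.log τ)
  refine ((((g5.add g6).add g7).add (g2.cmul 2)).sub (g3.cmul 2)).congr
    (fun N b _ => ?_) ?_ ?_
  · unfold FY
    ring
  · unfold aY
    ring
  · ring

/-- increments of `FX` -/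
theorem FX_step (A R : ℕ) (ξ ρ : ℝ) (N j : ℕ) (hj : R * N ≤ j) :
    FX A R ξ ρ N (j + 1) - FX A R ξ ρ N j =
      ξ * N + R * N * (Real.log ρ + 2 * Real.log N) +
        (Real.log ((A * N + 1 + (j - R * N))! : ℝ) - Real.log ((A * N + 1)! : ℝ) -
          Real.log ((j - R * N)! : ℝ)) - Real.log 16 * ((j - R * N : ℕ) : ℝ) +
        2 * Real.log ((j - R * N)! : ℝ) - 2 * Real.log (j ! : ℝ) := by
  have e1 : j + 1 - R * N = (j - R * N) + 1 := by omega
  have e2 : A * N + 1 + ((j - R * N) + 1) = (A * N + 1 + (j - R * N)) + 1 := by omega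
  unfold FX
  rw [e1, e2, Gf_succ, Gf_succ, Gf_succ]
  push_cast
  ring

theorem FY_step (R : ℕ) (η σ τ : ℝ) (N j : ℕ) (hj : R * N ≤ j) :
    FY R η σ τ N (j + 1) - FY R η σ τ N j =
      η * N + R * N * (Real.log σ + 2 * Real.log N) + Real.log τ * ((j - R * N : ℕ) : ℝ) +
        2 * Real.log ((j - R * N)! : ℝ) - 2 * Real.log (j ! : ℝ) := by
  have e1 : j + 1 - R * N = (j - R * N) + 1 := by omega
  unfold FY
  rw [e1, Gf_succ, Gf_succ]
  push_cast
  ring

theorem log_choose_eq (n x : ℕ) : Real.log ((n + x).choose x : ℝ) =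
    Real.log ((n + x)! : ℝ) - Real.log (n ! : ℝ) - Real.log (x ! : ℝ) := by
  have h := Nat.add_choose_mul_factorial_mul_factorial n x
  have h1 : (((n + x).choose x : ℕ) : ℝ) * (n ! : ℝ) * (x ! : ℝ) = ((n + x)! : ℝ) := by
    exact_mod_cast h
  have hc : (0 : ℝ) < ((n + x).choose x : ℝ) := by
    exact_mod_cast Nat.choose_pos (Nat.le_add_left x n)
  have hn : (0 : ℝ) < (n ! : ℝ) := by exact_mod_cast Nat.factorial_pos n
  have hx : (0 : ℝ) < (x ! : ℝ) := by exact_mod_cast Nat.factorial_pos x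
  rw [← h1, Real.log_mul (by positivity) hx.ne', Real.log_mul hc.ne' hn.ne']
  ring

/-- logarithm of the ratio of the two parts, variable part -/
noncomputable def Hx (A : ℕ) (τ : ℝ) (N x : ℕ) : ℝ :=
  x * Real.log (16 * τ) - Real.log ((A * N + 1 + x).choose x : ℝ)

theorem Hx_step (A : ℕ) (τ w : ℝ) (hτ : 2 ≤ 16 * τ) (hw : A ≤ (16 * τ - 1) * w) (N x : ℕ)
    (hx : w * N ≤ x) : Hx A τ N x ≤ Hx A τ N (x + 1) := by
  have h := Nat.add_one_mul_choose_eq (A * N + 1 + x) x
  have hc : (0 : ℝ) < ((A * N + 1 + x).choose x : ℝ) := by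
    exact_mod_cast Nat.choose_pos (Nat.le_add_left x _)
  have hc' : (0 : ℝ) < ((A * N + 1 + (x + 1)).choose (x + 1) : ℝ) := by
    exact_mod_cast Nat.choose_pos (Nat.le_add_left (x + 1) _)
  have hx0 : (0 : ℝ) ≤ x := Nat.cast_nonneg x
  have hN0 : (0 : ℝ) ≤ N := Nat.cast_nonneg N
  have hA0 : (0 : ℝ) ≤ A := Nat.cast_nonneg A
  have h1 : ((A * N + 1 + x + 1 : ℕ) : ℝ) * ((A * N + 1 + x).choose x : ℝ) =
      ((A * N + 1 + (x + 1)).choose (x + 1) : ℝ) * ((x : ℝ) + 1) := by
    exact_mod_cast h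
  have h2 : Real.log ((A * N + 1 + (x + 1)).choose (x + 1) : ℝ) + Real.log ((x : ℝ) + 1) =
      Real.log ((A * N + 1 + x + 1 : ℕ) : ℝ) + Real.log ((A * N + 1 + x).choose x : ℝ) := by
    rw [← Real.log_mul hc'.ne' (by positivity), ← Real.log_mul (by positivity) hc.ne', h1]
  have h3 : Real.log ((A * N + 1 + x + 1 : ℕ) : ℝ) ≤ Real.log (16 * τ) + Real.log ((x : ℝ) + 1) := by
    rw [← Real.log_mul (by linarith only [hτ]) (by positivity)]
    refine Real.log_le_log (by positivity) ?_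
    push_cast
    have h4 : (A : ℝ) * N ≤ (16 * τ - 1) * w * N := mul_le_mul_of_nonneg_right hw hN0
    have h5 : (16 * τ - 1) * (w * N) ≤ (16 * τ - 1) * x :=
      mul_le_mul_of_nonneg_left hx (by linarith only [hτ])
    linarith only [hτ, h4, h5]
  unfold Hx
  push_cast at h3 ⊢
  push_cast at h2
  linarith only [h3, h2]

theorem Hx_mono (A : ℕ) (τ w : ℝ) (hτ : 2 ≤ 16 * τ) (hw : A ≤ (16 * τ - 1) * w) (N x y : ℕ)
    (hx : w * N ≤ x) (hxy : x ≤ y) : Hx A τ N x ≤ Hx A τ N y := by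
  induction y, hxy using Nat.le_induction with
  | base => exact le_rfl
  | succ y hxy ih =>
    have : (x : ℝ) ≤ y := by exact_mod_cast hxy
    exact ih.trans (Hx_step A τ w hτ hw N y (by linarith only [hx, this]))

theorem Hx_small (A : ℕ) (τ w : ℝ) (hτ : 2 ≤ 16 * τ) (N x : ℕ) (hx : (x : ℝ) ≤ w * N) :
    Hx A τ N x ≤ w * Real.log (16 * τ) * N := by
  have hc : (1 : ℝ) ≤ ((A * N + 1 + x).choose x : ℝ) := by
    exact_mod_cast Nat.choose_pos (Nat.le_add_left x _)
  have h1 : 0 ≤ Real.log ((A * N + 1 + x).choose x : ℝ) := Real.log_nonneg hc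
  have h2 : 0 ≤ Real.log (16 * τ) := Real.log_nonneg (by linarith only [hτ])
  unfold Hx
  nlinarith only [hx, h1, h2]

theorem Hx_near (A : ℕ) (hA : 1 ≤ A) (τ t : ℝ) (ht : 1 ≤ t) : ∃ C : ℝ, 0 ≤ C ∧
    ∀ N x : ℕ, 1 ≤ N → t * N ≤ x → (x : ℝ) ≤ t * N + 1 →
    |Hx A τ N x - (t * Real.log (16 * τ) - gch A t) * N| ≤ C * Real.log ((N : ℝ) + 1) := by
  have hA' : (1 : ℝ) ≤ A := by exact_mod_cast hA
  obtain ⟨C1, hC1, h1⟩ := fact_near (A + t) 2 (by linarith only [ht, hA']) (by norm_num)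
  obtain ⟨C2, hC2, h2⟩ := fact_near A 1 hA' (by norm_num)
  obtain ⟨C3, hC3, h3⟩ := fact_near t 1 ht (by norm_num)
  refine ⟨C1 + C2 + C3 + 2 * |Real.log (16 * τ)|, by positivity, fun N x hN hx1 hx2 => ?_⟩
  have hL := log_half_le N hN
  have g1 := abs_le.mp (h1 N (A * N + 1 + x) hN (by push_cast; linarith only [hx1]) (by push_cast; linarith only [hx2]))
  have g2 := abs_le.mp (h2 N (A * N + 1) hN (by push_cast; linarith) (by push_cast; linarith))
  have g3 := abs_le.mp (h3 N x hN hx1 hx2)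
  have g4 : |(x - t * N) * Real.log (16 * τ)| ≤ 2 * |Real.log (16 * τ)| *
      Real.log ((N : ℝ) + 1) := by
    rw [abs_mul, abs_of_nonneg (by linarith only [hx1] : (0 : ℝ) ≤ x - t * N)]
    have h5 : 0 ≤ |Real.log (16 * τ)| := abs_nonneg _
    nlinarith only [hx2, hL, h5]
  have g5 := abs_le.mp g4
  unfold Hx gch
  rw [log_choose_eq, abs_le]
  constructor <;> linarith only [g1, g2, g3, g5, g1.1, g1.2, g2.1, g2.2, g3.1, g3.2, g5.1, g5.2]

/-- telescoping sum over an interval -/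
theorem sum_Ico_tele (F E : ℕ → ℝ) (p q : ℕ) (hpq : p ≤ q)
    (h : ∀ j, p ≤ j → j < q → E j = F (j + 1) - F j) : ∑ j ∈ Ico p q, E j = F q - F p := by
  induction q, hpq using Nat.le_induction with
  | base => simp
  | succ q hpq ih =>
    rw [Finset.sum_Ico_succ_top hpq, ih (fun j h1 h2 => h j h1 (by omega)), h q hpq (by omega)]
    ring

/-- the value of a row -/
noncomputable def rowval (A R : ℕ) (ξ ρ η σ τ : ℝ) (N x : ℕ) : ℝ :=
  Real.exp (ξ * N) * (ρ * (N : ℝ) ^ 2) ^ (R * N) * (((A * N + 1 + x).choose x : ℝ) / 16 ^ x) +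
    Real.exp (η * N) * (σ * (N : ℝ) ^ 2) ^ (R * N) * τ ^ x

theorem rowval_x (A R : ℕ) (ξ ρ η σ τ : ℝ) (hρ : 0 < ρ) (hσ : 0 < σ) (hτ : 0 < τ) (N x : ℕ)
    (hN : 1 ≤ N) (d : ℝ) (hd : 0 ≤ d)
    (h : (η - ξ) * N + R * N * (Real.log σ - Real.log ρ) + Hx A τ N x ≤ d) :
    rowval A R ξ ρ η σ τ N x ≤ Real.exp (Real.log 2 + d + (ξ * N +
      R * N * (Real.log ρ + 2 * Real.log N) + Real.log ((A * N + 1 + x).choose x : ℝ) -
      Real.log 16 * x)) := by
  have hN0 : (0 : ℝ) < N := by exact_mod_cast hN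
  have hc : (0 : ℝ) < ((A * N + 1 + x).choose x : ℝ) := by
    exact_mod_cast Nat.choose_pos (Nat.le_add_left x _)
  set LC := Real.log ((A * N + 1 + x).choose x : ℝ) with hLC
  have e1 : Real.exp (ξ * N) * (ρ * (N : ℝ) ^ 2) ^ (R * N) *
      (((A * N + 1 + x).choose x : ℝ) / 16 ^ x) = Real.exp (ξ * N +
      R * N * (Real.log ρ + 2 * Real.log N) + LC - Real.log 16 * x) := by
    rw [Real.exp_sub, Real.exp_add, Real.exp_add, hLC, Real.exp_log hc]
    have h1 : Real.exp (R * N * (Real.log ρ + 2 * Real.log N)) = (ρ * (N : ℝ) ^ 2) ^ (R * N) := by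
      rw [← Real.exp_log (show (0 : ℝ) < ρ * (N : ℝ) ^ 2 by positivity), ← Real.exp_nat_mul,
        Real.log_mul hρ.ne' (by positivity), Real.log_pow]
      push_cast
      ring_nf
    have h2 : Real.exp (Real.log 16 * x) = 16 ^ x := by
      rw [mul_comm, Real.exp_nat_mul, Real.exp_log (by norm_num)]
    rw [h1, h2]
    ring
  have e2 : Real.exp (η * N) * (σ * (N : ℝ) ^ 2) ^ (R * N) * τ ^ x = Real.exp (η * N +
      R * N * (Real.log σ + 2 * Real.log N) + Real.log τ * x) := by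
    rw [Real.exp_add, Real.exp_add]
    have h1 : Real.exp (R * N * (Real.log σ + 2 * Real.log N)) = (σ * (N : ℝ) ^ 2) ^ (R * N) := by
      rw [← Real.exp_log (show (0 : ℝ) < σ * (N : ℝ) ^ 2 by positivity), ← Real.exp_nat_mul,
        Real.log_mul hσ.ne' (by positivity), Real.log_pow]
      push_cast
      ring_nf
    have h2 : Real.exp (Real.log τ * x) = τ ^ x := by
      rw [mul_comm, Real.exp_nat_mul, Real.exp_log hτ]
    rw [h1, h2]
  have e3 : Real.log (16 * τ) = Real.log 16 + Real.log τ := Real.log_mul (by norm_num) hτ.ne'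
  unfold Hx at h
  rw [← hLC, e3] at h
  set Z : ℝ := ξ * N + R * N * (Real.log ρ + 2 * Real.log N) + LC - Real.log 16 * x with hZ
  unfold rowval
  rw [e1, e2]
  have h3 : Real.exp Z ≤ Real.exp (d + Z) := Real.exp_le_exp.mpr (by linarith only [hd])
  have h4 : Real.exp (η * N + R * N * (Real.log σ + 2 * Real.log N) + Real.log τ * x) ≤
      Real.exp (d + Z) := by
    refine Real.exp_le_exp.mpr ?_
    rw [hZ]
    linarith only [h]
  have h5 : Real.exp (Real.log 2 + d + Z) = 2 * Real.exp (d + Z) := by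
    rw [add_assoc, Real.exp_add, Real.exp_log (by norm_num)]
  rw [h5]
  linarith only [h3, h4]

theorem rowval_y (A R : ℕ) (ξ ρ η σ τ : ℝ) (hρ : 0 < ρ) (hσ : 0 < σ) (hτ : 0 < τ) (N x : ℕ)
    (hN : 1 ≤ N) (d : ℝ) (hd : 0 ≤ d)
    (h : -d ≤ (η - ξ) * N + R * N * (Real.log σ - Real.log ρ) + Hx A τ N x) :
    rowval A R ξ ρ η σ τ N x ≤ Real.exp (Real.log 2 + d + (η * N +
      R * N * (Real.log σ + 2 * Real.log N) + Real.log τ * x)) := by
  have hN0 : (0 : ℝ) < N := by exact_mod_cast hN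
  have hc : (0 : ℝ) < ((A * N + 1 + x).choose x : ℝ) := by
    exact_mod_cast Nat.choose_pos (Nat.le_add_left x _)
  set LC := Real.log ((A * N + 1 + x).choose x : ℝ) with hLC
  have e1 : Real.exp (ξ * N) * (ρ * (N : ℝ) ^ 2) ^ (R * N) *
      (((A * N + 1 + x).choose x : ℝ) / 16 ^ x) = Real.exp (ξ * N +
      R * N * (Real.log ρ + 2 * Real.log N) + LC - Real.log 16 * x) := by
    rw [Real.exp_sub, Real.exp_add, Real.exp_add, hLC, Real.exp_log hc]
    have h1 : Real.exp (R * N * (Real.log ρ + 2 * Real.log N)) = (ρ * (N : ℝ) ^ 2) ^ (R * N) := by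
      rw [← Real.exp_log (show (0 : ℝ) < ρ * (N : ℝ) ^ 2 by positivity), ← Real.exp_nat_mul,
        Real.log_mul hρ.ne' (by positivity), Real.log_pow]
      push_cast
      ring_nf
    have h2 : Real.exp (Real.log 16 * x) = 16 ^ x := by
      rw [mul_comm, Real.exp_nat_mul, Real.exp_log (by norm_num)]
    rw [h1, h2]
    ring
  have e2 : Real.exp (η * N) * (σ * (N : ℝ) ^ 2) ^ (R * N) * τ ^ x = Real.exp (η * N +
      R * N * (Real.log σ + 2 * Real.log N) + Real.log τ * x) := by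
    rw [Real.exp_add, Real.exp_add]
    have h1 : Real.exp (R * N * (Real.log σ + 2 * Real.log N)) = (σ * (N : ℝ) ^ 2) ^ (R * N) := by
      rw [← Real.exp_log (show (0 : ℝ) < σ * (N : ℝ) ^ 2 by positivity), ← Real.exp_nat_mul,
        Real.log_mul hσ.ne' (by positivity), Real.log_pow]
      push_cast
      ring_nf
    have h2 : Real.exp (Real.log τ * x) = τ ^ x := by
      rw [mul_comm, Real.exp_nat_mul, Real.exp_log hτ]
    rw [h1, h2]
  have e3 : Real.log (16 * τ) = Real.log 16 + Real.log τ := Real.log_mul (by norm_num) hτ.ne'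
  unfold Hx at h
  rw [← hLC, e3] at h
  set Z : ℝ := η * N + R * N * (Real.log σ + 2 * Real.log N) + Real.log τ * x with hZ
  unfold rowval
  rw [e1, e2]
  have h3 : Real.exp Z ≤ Real.exp (d + Z) := Real.exp_le_exp.mpr (by linarith only [hd])
  have h4 : Real.exp (ξ * N + R * N * (Real.log ρ + 2 * Real.log N) + LC - Real.log 16 * x) ≤
      Real.exp (d + Z) := by
    refine Real.exp_le_exp.mpr ?_
    rw [hZ]
    linarith only [h]
  have h5 : Real.exp (Real.log 2 + d + Z) = 2 * Real.exp (d + Z) := by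
    rw [add_assoc, Real.exp_add, Real.exp_log (by norm_num)]
  rw [h5]
  linarith only [h3, h4]

/-- the exponent of one group of rows -/
noncomputable def pieceVal (A U U' R : ℕ) (ξ ρ η σ τ T δ : ℝ) : ℝ :=
  (aX A R ξ ρ T - aX A R ξ ρ U) + δ * (T - U) + (aY R η σ τ U' - aY R η σ τ T)

theorem prod_fact_exp (s : Finset ℕ) (f E : ℕ → ℝ) (h0 : ∀ j ∈ s, 0 ≤ f j)
    (h : ∀ j ∈ s, f j ≤ (j ! : ℝ) ^ 2 * Real.exp (E j)) :
    ∏ j ∈ s, f j ≤ (∏ j ∈ s, (j ! : ℝ) ^ 2) * Real.exp (∑ j ∈ s, E j) := by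
  rw [Real.exp_sum, ← prod_mul_distrib]
  exact prod_le_prod h0 h

set_option maxHeartbeats 4000000 in
theorem piece (A U U' R K : ℕ) (hA : 1 ≤ A) (hRU : R ≤ U) (hUU : U < U')
    (ξ ρ η σ τ T δ w : ℝ) (hρ : 0 < ρ) (hσ : 0 < σ) (hτ : 2 ≤ 16 * τ)
    (hw : A ≤ (16 * τ - 1) * w) (hT1 : U ≤ T) (hT2 : T ≤ U') (hT3 : R + 1 ≤ T) (hT4 : w ≤ T - R)
    (hδ : 0 ≤ δ)
    (hlo : T < U' → 0 ≤ (η - ξ) + R * (Real.log σ - Real.log ρ) + (T - R) * Real.log (16 * τ) -
      gch A (T - R))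
    (hup : U < T → (η - ξ) + R * (Real.log σ - Real.log ρ) + (T - R) * Real.log (16 * τ) -
      gch A (T - R) ≤ δ)
    (hw2 : U < T → (η - ξ) + R * (Real.log σ - Real.log ρ) + w * Real.log (16 * τ) ≤ δ)
    (K0 : ℝ) (hK0 : 0 < K0) (D : ℕ) :
    ∃ C : ℝ, 0 ≤ C ∧ ∀ N e : ℕ, 1 ≤ N → e ≤ U' * N → U' * N ≤ e + K → ∀ f : ℕ → ℝ,
      (∀ j, U * N ≤ j → j < e → 0 ≤ f j) →
      (∀ j, U * N ≤ j → j < e → f j ≤ K0 * (N : ℝ) ^ D *
        (rowval A R ξ ρ η σ τ N (j - R * N) * ((j - R * N)! : ℝ) ^ 2)) →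
      ∏ j ∈ Ico (U * N) e, f j ≤ (∏ j ∈ Ico (U * N) e, (j ! : ℝ) ^ 2) *
        Real.exp (pieceVal A U U' R ξ ρ η σ τ T δ * (N : ℝ) ^ 2 +
          C * (N * Real.log ((N : ℝ) + 1))) := by
  have hRU' : (R : ℝ) ≤ U := by exact_mod_cast hRU
  have hR0 : (0 : ℝ) ≤ R := Nat.cast_nonneg R
  have hU0 : (0 : ℝ) ≤ U := Nat.cast_nonneg U
  have hK : (0 : ℝ) ≤ K := Nat.cast_nonneg K
  have hUU' : (U : ℝ) < U' := by exact_mod_cast hUU
  have hτ0 : 0 < τ := by linarith only [hτ]
  obtain ⟨C1, hC1, h1⟩ := asy_FX A R hA ξ ρ T (K + 1) (by linarith only [hT3]) (by linarith)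
  obtain ⟨C2, hC2, h2⟩ := asy_FX A R hA ξ ρ U 0 hRU' le_rfl
  obtain ⟨C3, hC3, h3⟩ := asy_FY R η σ τ T (K + 1) (by linarith only [hT3]) (by linarith)
  obtain ⟨C4, hC4, h4⟩ := asy_FY R η σ τ U' K (by linarith only [hT2, hT3]) hK
  obtain ⟨C5, hC5, h5⟩ := Hx_near A hA τ (T - R) (by linarith only [hT3])
  set Ψ := pieceVal A U U' R ξ ρ η σ τ T δ with hΨ
  set c6 : ℝ := 2 * |Real.log K0| + D + 1 + C5 with hc6
  have hc60 : 0 ≤ c6 := by positivity
  refine ⟨C1 + C2 + C3 + C4 + 2 * δ + U' * c6 + 2 * K * |Ψ|, by positivity, ?_⟩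
  intro N e hN he1 he2 f hf0 hf
  have hN' : (1 : ℝ) ≤ N := by exact_mod_cast hN
  have hN0 : (0 : ℝ) < N := by linarith only [hN']
  have hL := log_half_le N hN
  have hL2 : Real.log 2 ≤ Real.log ((N : ℝ) + 1) := Real.log_le_log (by norm_num) (by linarith only [hN'])
  have hlogN : Real.log (N : ℝ) ≤ Real.log ((N : ℝ) + 1) := Real.log_le_log hN0 (by linarith)
  set L : ℝ := Real.log ((N : ℝ) + 1) with hLdef
  have hL0 : 0 ≤ L := by linarith only [hL]
  have he1' : (e : ℝ) ≤ U' * N := by exact_mod_cast he1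
  have he2' : (U' : ℝ) * N ≤ e + K := by exact_mod_cast he2
  rcases Nat.lt_or_ge e (U * N) with hlt | hge
  · -- degenerate case
    rw [Ico_eq_empty (by omega), prod_empty, prod_empty, one_mul]
    have hlt' : (e : ℝ) < U * N := by exact_mod_cast hlt
    have hNK : (N : ℝ) ≤ K := by
      have h6 : (1 : ℝ) ≤ U' - U := by
        have : (U : ℝ) + 1 ≤ U' := by exact_mod_cast hUU
        linarith only [this]
      nlinarith only [he2', hlt', h6]
    have h7 : -(|Ψ|) ≤ Ψ := neg_abs_le _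
    have h8 : 0 ≤ |Ψ| := abs_nonneg _
    have h9 : |Ψ| * (N : ℝ) ^ 2 ≤ 2 * K * |Ψ| * (N * L) := by
      have : |Ψ| * (N : ℝ) ^ 2 = |Ψ| * N * N * 1 := by ring
      rw [this]
      have h10 : |Ψ| * N * N * 1 ≤ |Ψ| * N * K * (2 * L) := by
        refine mul_le_mul ?_ (by linarith only [hL]) zero_le_one (by positivity)
        exact mul_le_mul_of_nonneg_left hNK (by positivity)
      linarith only [h10]
    have h11 : 0 ≤ (C1 + C2 + C3 + C4 + 2 * δ + U' * c6) * (N * L) := by positivity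
    rw [← Real.exp_zero]
    refine Real.exp_le_exp.mpr ?_
    have h12 : -(|Ψ| * (N : ℝ) ^ 2) ≤ Ψ * (N : ℝ) ^ 2 := by nlinarith only [h7, sq_nonneg (N : ℝ)]
    have h13 : (C1 + C2 + C3 + C4 + 2 * δ + U' * c6 + 2 * K * |Ψ|) * (N * L) =
      (C1 + C2 + C3 + C4 + 2 * δ + U' * c6) * (N * L) + 2 * K * |Ψ| * (N * L) := by ring
    rw [h13]
    linarith only [h9, h11, h12]
  · have hge' : (U : ℝ) * N ≤ e := by exact_mod_cast hge
    set b0 : ℕ := ⌈T * N⌉₊ with hb0
    have hTN : 0 ≤ T * N := by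
      have : 0 ≤ T := by linarith only [hT3]
      positivity
    have hb1 : T * N ≤ b0 := Nat.le_ceil _
    have hb2 : (b0 : ℝ) < T * N + 1 := Nat.ceil_lt_add_one hTN
    have hRb0 : R * N ≤ b0 := by
      have : (R : ℝ) * N ≤ b0 := by nlinarith only [hT3, hN', hb1]
      exact_mod_cast this
    have hUb0 : U * N ≤ b0 := by
      have : (U : ℝ) * N ≤ b0 := by nlinarith only [hT1, hb1]
      exact_mod_cast this
    have hRe : R * N ≤ U * N := Nat.mul_le_mul_right N hRU
    set b : ℕ := min b0 e with hb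
    have hbb0 : b ≤ b0 := min_le_left _ _
    have hbe : b ≤ e := min_le_right _ _
    have hUb : U * N ≤ b := le_min hUb0 hge
    have hbb0' : (b : ℝ) ≤ b0 := by exact_mod_cast hbb0
    have hbT : |(b : ℝ) - T * N| ≤ K + 1 := by
      rw [abs_le]
      constructor
      · rcases min_choice b0 e with h | h
        · rw [← hb] at h
          rw [h]
          linarith only [hb1]
        · rw [← hb] at h
          rw [h]
          nlinarith only [hT2, he2']
      · linarith only [hb2, hbb0']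
    have nrT : Nr R T (K + 1) N b := ⟨hN, by omega, hbT⟩
    have nrU : Nr R U 0 N (U * N) := ⟨hN, hRe, by push_cast; simp⟩
    have nrE : Nr R U' K N e := ⟨hN, by omega, by
      rw [abs_le]
      constructor <;> linarith only [he2', he1']⟩
    -- crossing
    set x0 : ℕ := b0 - R * N with hx0
    have hx0c : (x0 : ℝ) = b0 - R * N := by
      rw [hx0, Nat.cast_sub hRb0]
      push_cast
      ring
    have hx1 : (T - R) * N ≤ x0 := by
      rw [hx0c]
      linarith only [hb1]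
    have hx2 : (x0 : ℝ) ≤ (T - R) * N + 1 := by
      rw [hx0c]
      linarith only [hb2]
    have hHx := abs_le.mp (h5 N x0 hN hx1 hx2)
    rw [← hLdef] at hHx
    have hC5L : 0 ≤ C5 * L := by positivity
    -- constant in front
    have hpre : K0 * (N : ℝ) ^ D ≤ Real.exp ((2 * |Real.log K0| + D) * L) := by
      have e1 : K0 * (N : ℝ) ^ D = Real.exp (Real.log K0 + D * Real.log N) := by
        rw [Real.exp_add, Real.exp_log hK0, Real.exp_nat_mul, Real.exp_log hN0]
      rw [e1]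
      refine Real.exp_le_exp.mpr ?_
      have h6 : Real.log K0 ≤ |Real.log K0| := le_abs_self _
      have h7 : 0 ≤ |Real.log K0| := abs_nonneg _
      have h8 : (0 : ℝ) ≤ D := Nat.cast_nonneg D
      nlinarith only [hL, hlogN, h6, h7]
    have hfac : ∀ j x : ℕ, (x ! : ℝ) ^ 2 = (j ! : ℝ) ^ 2 *
        Real.exp (2 * Real.log (x ! : ℝ) - 2 * Real.log (j ! : ℝ)) := by
      intro j x
      have hj : (0 : ℝ) < (j ! : ℝ) := by exact_mod_cast Nat.factorial_pos j
      have hx : (0 : ℝ) < (x ! : ℝ) := by exact_mod_cast Nat.factorial_pos x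
      rw [Real.exp_sub, mul_comm 2, mul_comm 2, Real.exp_mul, Real.exp_mul, Real.exp_log hx,
        Real.exp_log hj]
      rw [show ((2 : ℝ)) = ((2 : ℕ) : ℝ) by norm_num, Real.rpow_natCast, Real.rpow_natCast]
      field_simp
    -- the rows on the left
    have hleft : ∀ j ∈ Ico (U * N) b, f j ≤ (j ! : ℝ) ^ 2 * Real.exp
        ((c6 * L + δ * N) + (FX A R ξ ρ N (j + 1) - FX A R ξ ρ N j)) := by
      intro j hj
      rw [mem_Ico] at hj
      have hje : j < e := lt_of_lt_of_le hj.2 hbe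
      have hjb : j < b0 := lt_of_lt_of_le hj.2 hbb0
      have hRj : R * N ≤ j := hRe.trans hj.1
      set x : ℕ := j - R * N with hx
      have hxx0 : x ≤ x0 := by omega
      have hUT : (U : ℝ) < T := by
        by_contra hcon
        have hTU : T = U := le_antisymm (not_lt.mp hcon) hT1
        have : b0 = U * N := by
          rw [hb0, hTU]
          have : (U : ℝ) * N = ((U * N : ℕ) : ℝ) := by push_cast; ring
          rw [this, Nat.ceil_natCast]
        omega
      have hd : (η - ξ) * N + R * N * (Real.log σ - Real.log ρ) + Hx A τ N x ≤ δ * N + C5 * L := by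
        rcases le_total (w * N) (x : ℝ) with h | h
        · have h6 := Hx_mono A τ w hτ hw N x x0 h hxx0
          have h7 := mul_le_mul_of_nonneg_right (hup hUT) hN0.le
          linarith only [hHx, h6, h7, hHx.2]
        · have h6 := Hx_small A τ w hτ N x h
          have h7 := mul_le_mul_of_nonneg_right (hw2 hUT) hN0.le
          linarith only [hHx, h6, h7]
      have h6 := rowval_x A R ξ ρ η σ τ hρ hσ hτ0 N x hN (δ * N + C5 * L) (by positivity) hd
      refine (hf j hj.1 hje).trans ?_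
      rw [← hx, hfac j x]
      have h7 : K0 * (N : ℝ) ^ D * (rowval A R ξ ρ η σ τ N x * ((j ! : ℝ) ^ 2 *
          Real.exp (2 * Real.log (x ! : ℝ) - 2 * Real.log (j ! : ℝ)))) ≤
          Real.exp ((2 * |Real.log K0| + D) * L) * (Real.exp (Real.log 2 + (δ * N + C5 * L) +
          (ξ * N + R * N * (Real.log ρ + 2 * Real.log N) +
          Real.log ((A * N + 1 + x).choose x : ℝ) - Real.log 16 * x)) * ((j ! : ℝ) ^ 2 *
          Real.exp (2 * Real.log (x ! : ℝ) - 2 * Real.log (j ! : ℝ)))) := by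
        refine mul_le_mul hpre (mul_le_mul_of_nonneg_right h6 (by positivity)) ?_ (by positivity)
        unfold rowval
        positivity
      refine h7.trans ?_
      rw [FX_step A R ξ ρ N j hRj, ← hx, log_choose_eq]
      have e2 : ∀ p q r s : ℝ, Real.exp p * (Real.exp q * (s * Real.exp r)) =
          s * Real.exp (p + q + r) := by
        intro p q r s
        rw [Real.exp_add, Real.exp_add]
        ring
      rw [e2]
      refine mul_le_mul_of_nonneg_left (Real.exp_le_exp.mpr ?_) (by positivity)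
      rw [hc6]
      linarith only [hL2]
    have hright : ∀ j ∈ Ico b e, f j ≤ (j ! : ℝ) ^ 2 * Real.exp
        (c6 * L + (FY R η σ τ N (j + 1) - FY R η σ τ N j)) := by
      intro j hj
      rw [mem_Ico] at hj
      have hjU : U * N ≤ j := hUb.trans hj.1
      have hbe' : b < e := lt_of_le_of_lt hj.1 hj.2
      have hbeq : b = b0 := by
        rcases min_choice b0 e with h | h
        · rw [hb]; exact h
        · rw [← hb] at h; omega
      have hRj : R * N ≤ j := hRe.trans hjU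
      set x : ℕ := j - R * N with hx
      have hxx0 : x0 ≤ x := by omega
      have hTU' : T < U' := by
        have h6 : (b0 : ℝ) < e := by
          have : b0 < e := by omega
          exact_mod_cast this
        have h7 : T * N < U' * N := by linarith only [he1', hb1, h6]
        exact lt_of_mul_lt_mul_right h7 hN0.le
      have hww : w * N ≤ x0 := (mul_le_mul_of_nonneg_right hT4 hN0.le).trans hx1
      have hd : -(C5 * L) ≤ (η - ξ) * N + R * N * (Real.log σ - Real.log ρ) + Hx A τ N x := by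
        have h7 := mul_le_mul_of_nonneg_right (hlo hTU') hN0.le
        have h6 := Hx_mono A τ w hτ hw N x0 x hww hxx0
        linarith only [hHx, h7, h6, hHx.1]
      have h6 := rowval_y A R ξ ρ η σ τ hρ hσ hτ0 N x hN (C5 * L) hC5L hd
      refine (hf j hjU hj.2).trans ?_
      rw [← hx, hfac j x]
      have h7 : K0 * (N : ℝ) ^ D * (rowval A R ξ ρ η σ τ N x * ((j ! : ℝ) ^ 2 *
          Real.exp (2 * Real.log (x ! : ℝ) - 2 * Real.log (j ! : ℝ)))) ≤
          Real.exp ((2 * |Real.log K0| + D) * L) * (Real.exp (Real.log 2 + C5 * L +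
          (η * N + R * N * (Real.log σ + 2 * Real.log N) + Real.log τ * x)) * ((j ! : ℝ) ^ 2 *
          Real.exp (2 * Real.log (x ! : ℝ) - 2 * Real.log (j ! : ℝ)))) := by
        refine mul_le_mul hpre (mul_le_mul_of_nonneg_right h6 (by positivity)) ?_ (by positivity)
        unfold rowval
        positivity
      refine h7.trans ?_
      rw [FY_step R η σ τ N j hRj, ← hx]
      have e2 : ∀ p q r s : ℝ, Real.exp p * (Real.exp q * (s * Real.exp r)) =
          s * Real.exp (p + q + r) := by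
        intro p q r s
        rw [Real.exp_add, Real.exp_add]
        ring
      rw [e2]
      refine mul_le_mul_of_nonneg_left (Real.exp_le_exp.mpr ?_) (by positivity)
      rw [hc6]
      linarith only [hL2]
    -- products
    have hp1 := prod_fact_exp (Ico (U * N) b) f _ (fun j hj => by
      rw [mem_Ico] at hj
      exact hf0 j hj.1 (lt_of_lt_of_le hj.2 hbe)) hleft
    have hp2 := prod_fact_exp (Ico b e) f _ (fun j hj => by
      rw [mem_Ico] at hj
      exact hf0 j (hUb.trans hj.1) hj.2) hright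
    rw [sum_add_distrib, sum_const, Nat.card_Ico, nsmul_eq_mul,
      sum_Ico_tele (FX A R ξ ρ N) _ _ _ hUb (fun j _ _ => rfl)] at hp1
    rw [sum_add_distrib, sum_const, Nat.card_Ico, nsmul_eq_mul,
      sum_Ico_tele (FY R η σ τ N) _ _ _ hbe (fun j _ _ => rfl)] at hp2
    rw [← prod_Ico_consecutive f hUb hbe, ← prod_Ico_consecutive (fun j => (j ! : ℝ) ^ 2) hUb hbe]
    have hp2pos : 0 ≤ ∏ j ∈ Ico b e, f j := prod_nonneg (fun j hj => by
      rw [mem_Ico] at hj
      exact hf0 j (hUb.trans hj.1) hj.2)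
    refine (mul_le_mul hp1 hp2 hp2pos (by positivity)).trans ?_
    have e3 : ∀ p q r s : ℝ, p * Real.exp q * (r * Real.exp s) = p * r * Real.exp (q + s) := by
      intro p q r s
      rw [Real.exp_add]
      ring
    rw [e3]
    refine mul_le_mul_of_nonneg_left (Real.exp_le_exp.mpr ?_) (by positivity)
    have g1 := abs_le.mp (h1 N b nrT)
    have g2 := abs_le.mp (h2 N (U * N) nrU)
    have g3 := abs_le.mp (h3 N b nrT)
    have g4 := abs_le.mp (h4 N e nrE)
    rw [← hLdef] at g1 g2 g3 g4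
    have c1 : ((b - U * N : ℕ) : ℝ) = b - U * N := by
      rw [Nat.cast_sub hUb]
      push_cast
      ring
    have c2 : ((e - b : ℕ) : ℝ) = e - b := Nat.cast_sub hbe
    rw [c1, c2]
    have g5 : ((b : ℝ) - U * N) * (δ * N) ≤ δ * (T - U) * (N : ℝ) ^ 2 + 2 * δ * (N * L) := by
      have h6 : (b : ℝ) - U * N ≤ (T - U) * N + 1 := by linarith only [hb2, hbb0']
      have h7 : ((b : ℝ) - U * N) * (δ * N) ≤ ((T - U) * N + 1) * (δ * N) :=
        mul_le_mul_of_nonneg_right h6 (by positivity)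
      have h8 : δ * N * 1 ≤ δ * N * (2 * L) :=
        mul_le_mul_of_nonneg_left (by linarith only [hL]) (by positivity)
      linarith only [h7, h8]
    have g6 : ((e : ℝ) - U * N) * (c6 * L) ≤ U' * c6 * (N * L) := by
      have h6 : (e : ℝ) - U * N ≤ U' * N := by nlinarith only [he1']
      have h7 : ((e : ℝ) - U * N) * (c6 * L) ≤ (U' * N) * (c6 * L) :=
        mul_le_mul_of_nonneg_right h6 (by positivity)
      linarith only [h7]
    have g7 : 0 ≤ 2 * K * |Ψ| * (N * L) := by positivity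
    have e4 : Ψ * (N : ℝ) ^ 2 = (aX A R ξ ρ T - aX A R ξ ρ U) * (N : ℝ) ^ 2 +
        δ * (T - U) * (N : ℝ) ^ 2 + (aY R η σ τ U' - aY R η σ τ T) * (N : ℝ) ^ 2 := by
      rw [hΨ]
      unfold pieceVal
      ring
    rw [e4]
    linarith only [g1, g2, g3, g4, g5, g6, g7, g1.1, g1.2, g2.1, g2.2, g3.1, g3.2, g4.1, g4.2]

end Pool.Agent.Z3D
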