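import Mathlib
import Pool.Agent.Z3D.LogPiece

/-! Numerical logarithms and the values of the seven groups (generated). -/

open Finset
open scoped Nat

namespace Pool.Agent.Z3D

open Pool.Agent.D23 (gch)

/-- enclosure of a logarithm by the area hyperbolic tangent series -/
theorem log_enc (k : ℕ) (q lo hi : ℝ) (h1 : (2 : ℝ) ^ k ≤ q)
    (hlo : lo ≤ k * 0.6931471803 +
      2 * ∑ i ∈ range 10, ((q - 2 ^ k) / (q + 2 ^ k)) ^ (2 * i + 1) / (2 * (i : ℝ) + 1))
    (hhi : k * 0.6931471808 +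
      2 * ((∑ i ∈ range 10, ((q - 2 ^ k) / (q + 2 ^ k)) ^ (2 * i + 1) / (2 * (i : ℝ) + 1)) +
        ((q - 2 ^ k) / (q + 2 ^ k)) ^ (2 * 10 + 1) / (1 - ((q - 2 ^ k) / (q + 2 ^ k)) ^ 2)) ≤ hi) :
    lo ≤ Real.log q ∧ Real.log q ≤ hi := by
  set m : ℝ := (2 : ℝ) ^ k with hm
  have hm0 : 0 < m := by positivity
  have hs : 0 < q + m := by linarith
  have h0 : 0 ≤ (q - m) / (q + m) := div_nonneg (by linarith) hs.le
  have h2 : (q - m) / (q + m) < 1 := by
    rw [div_lt_one hs]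
    linarith
  have e : (1 + (q - m) / (q + m)) / (1 - (q - m) / (q + m)) = q / m := by
    have e1 : 1 + (q - m) / (q + m) = 2 * q / (q + m) := by field_simp; ring
    have e2 : 1 - (q - m) / (q + m) = 2 * m / (q + m) := by field_simp; ring
    rw [e1, e2]
    field_simp
  have h3 := Real.log_div_le_sum_range_add h0 h2 10
  have h4 := Real.sum_range_le_log_div h0 h2 10
  rw [e, Real.log_div (by linarith) hm0.ne'] at h3 h4
  have h5 : Real.log m = k * Real.log 2 := by
    rw [hm, Real.log_pow]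
  have h6 := Real.log_two_gt_d9
  have h7 := Real.log_two_lt_d9
  have hk : (0 : ℝ) ≤ k := Nat.cast_nonneg k
  constructor <;> nlinarith

theorem lg_169o16 : 2.35730998 ≤ Real.log (169 / 16) ∧ Real.log (169 / 16) ≤ 2.35731001 :=
  log_enc 3 (169 / 16) 2.35730998 2.35731001 (by norm_num) (by norm_num [sum_range_succ])
    (by norm_num [sum_range_succ])

theorem lg_16 : 2.77258871 ≤ Real.log 16 ∧ Real.log 16 ≤ 2.77258874 :=
  log_enc 4 16 2.77258871 2.77258874 (by norm_num) (by norm_num [sum_range_succ])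
    (by norm_num [sum_range_succ])

theorem lg_59_817 : 4.09128989 ≤ Real.log 59.817 ∧ Real.log 59.817 ≤ 4.09128992 :=
  log_enc 5 59.817 4.09128989 4.09128992 (by norm_num) (by norm_num [sum_range_succ])
    (by norm_num [sum_range_succ])

theorem lg_61 : 4.11087385 ≤ Real.log 61 ∧ Real.log 61 ≤ 4.11087388 :=
  log_enc 5 61 4.11087385 4.11087388 (by norm_num) (by norm_num [sum_range_succ])
    (by norm_num [sum_range_succ])

theorem lg_63 : 4.14313471 ≤ Real.log 63 ∧ Real.log 63 ≤ 4.14313474 :=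
  log_enc 5 63 4.14313471 4.14313474 (by norm_num) (by norm_num [sum_range_succ])
    (by norm_num [sum_range_succ])

theorem lg_63_78 : 4.15543965 ≤ Real.log 63.78 ∧ Real.log 63.78 ≤ 4.15543968 :=
  log_enc 5 63.78 4.15543965 4.15543968 (by norm_num) (by norm_num [sum_range_succ])
    (by norm_num [sum_range_succ])

theorem lg_64 : 4.15888307 ≤ Real.log 64 ∧ Real.log 64 ≤ 4.15888310 :=
  log_enc 6 64 4.15888307 4.15888310 (by norm_num) (by norm_num [sum_range_succ])
    (by norm_num [sum_range_succ])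

theorem lg_65_78 : 4.18631583 ≤ Real.log 65.78 ∧ Real.log 65.78 ≤ 4.18631586 :=
  log_enc 6 65.78 4.18631583 4.18631586 (by norm_num) (by norm_num [sum_range_succ])
    (by norm_num [sum_range_succ])

theorem lg_67 : 4.20469260 ≤ Real.log 67 ∧ Real.log 67 ≤ 4.20469263 :=
  log_enc 6 67 4.20469260 4.20469263 (by norm_num) (by norm_num [sum_range_succ])
    (by norm_num [sum_range_succ])

theorem lg_68_612 : 4.22846743 ≤ Real.log 68.612 ∧ Real.log 68.612 ≤ 4.22846746 :=
  log_enc 6 68.612 4.22846743 4.22846746 (by norm_num) (by norm_num [sum_range_succ])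
    (by norm_num [sum_range_succ])

theorem lg_69 : 4.23410649 ≤ Real.log 69 ∧ Real.log 69 ≤ 4.23410652 :=
  log_enc 6 69 4.23410649 4.23410652 (by norm_num) (by norm_num [sum_range_succ])
    (by norm_num [sum_range_succ])

theorem lg_71 : 4.26267986 ≤ Real.log 71 ∧ Real.log 71 ≤ 4.26267989 :=
  log_enc 6 71 4.26267986 4.26267989 (by norm_num) (by norm_num [sum_range_succ])
    (by norm_num [sum_range_succ])

theorem lg_71_537 : 4.27021478 ≤ Real.log 71.537 ∧ Real.log 71.537 ≤ 4.27021481 :=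
  log_enc 6 71.537 4.27021478 4.27021481 (by norm_num) (by norm_num [sum_range_succ])
    (by norm_num [sum_range_succ])

theorem lg_72 : 4.27666610 ≤ Real.log 72 ∧ Real.log 72 ≤ 4.27666613 :=
  log_enc 6 72 4.27666610 4.27666613 (by norm_num) (by norm_num [sum_range_succ])
    (by norm_num [sum_range_succ])

theorem lg_73_612 : 4.29880804 ≤ Real.log 73.612 ∧ Real.log 73.612 ≤ 4.29880807 :=
  log_enc 6 73.612 4.29880804 4.29880807 (by norm_num) (by norm_num [sum_range_succ])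
    (by norm_num [sum_range_succ])

theorem lg_75 : 4.31748810 ≤ Real.log 75 ∧ Real.log 75 ≤ 4.31748813 :=
  log_enc 6 75 4.31748810 4.31748813 (by norm_num) (by norm_num [sum_range_succ])
    (by norm_num [sum_range_succ])

theorem lg_75_645 : 4.32605133 ≤ Real.log 75.645 ∧ Real.log 75.645 ≤ 4.32605136 :=
  log_enc 6 75.645 4.32605133 4.32605136 (by norm_num) (by norm_num [sum_range_succ])
    (by norm_num [sum_range_succ])

theorem lg_76 : 4.33073333 ≤ Real.log 76 ∧ Real.log 76 ≤ 4.33073336 :=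
  log_enc 6 76 4.33073333 4.33073336 (by norm_num) (by norm_num [sum_range_succ])
    (by norm_num [sum_range_succ])

theorem lg_78 : 4.35670881 ≤ Real.log 78 ∧ Real.log 78 ≤ 4.35670884 :=
  log_enc 6 78 4.35670881 4.35670884 (by norm_num) (by norm_num [sum_range_succ])
    (by norm_num [sum_range_succ])

theorem lg_78_537 : 4.36356984 ≤ Real.log 78.537 ∧ Real.log 78.537 ≤ 4.36356987 :=
  log_enc 6 78.537 4.36356984 4.36356987 (by norm_num) (by norm_num [sum_range_succ])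
    (by norm_num [sum_range_succ])

theorem lg_79 : 4.36944784 ≤ Real.log 79 ∧ Real.log 79 ≤ 4.36944787 :=
  log_enc 6 79 4.36944784 4.36944787 (by norm_num) (by norm_num [sum_range_succ])
    (by norm_num [sum_range_succ])

theorem lg_79_507 : 4.37584505 ≤ Real.log 79.507 ∧ Real.log 79.507 ≤ 4.37584508 :=
  log_enc 6 79.507 4.37584505 4.37584508 (by norm_num) (by norm_num [sum_range_succ])
    (by norm_num [sum_range_succ])

theorem lg_81 : 4.39444914 ≤ Real.log 81 ∧ Real.log 81 ≤ 4.39444917 :=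
  log_enc 6 81 4.39444914 4.39444917 (by norm_num) (by norm_num [sum_range_succ])
    (by norm_num [sum_range_succ])

theorem lg_81_976 : 4.40642651 ≤ Real.log 81.976 ∧ Real.log 81.976 ≤ 4.40642654 :=
  log_enc 6 81.976 4.40642651 4.40642654 (by norm_num) (by norm_num [sum_range_succ])
    (by norm_num [sum_range_succ])

theorem lg_82 : 4.40671923 ≤ Real.log 82 ∧ Real.log 82 ≤ 4.40671926 :=
  log_enc 6 82 4.40671923 4.40671926 (by norm_num) (by norm_num [sum_range_succ])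
    (by norm_num [sum_range_succ])

theorem lg_85 : 4.44265124 ≤ Real.log 85 ∧ Real.log 85 ≤ 4.44265127 :=
  log_enc 6 85 4.44265124 4.44265127 (by norm_num) (by norm_num [sum_range_succ])
    (by norm_num [sum_range_succ])

theorem lg_85_645 : 4.45021083 ≤ Real.log 85.645 ∧ Real.log 85.645 ≤ 4.45021086 :=
  log_enc 6 85.645 4.45021083 4.45021086 (by norm_num) (by norm_num [sum_range_succ])
    (by norm_num [sum_range_succ])

theorem lg_88 : 4.47733680 ≤ Real.log 88 ∧ Real.log 88 ≤ 4.47733683 :=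
  log_enc 6 88 4.47733680 4.47733683 (by norm_num) (by norm_num [sum_range_succ])
    (by norm_num [sum_range_succ])

theorem lg_92_507 : 4.52728430 ≤ Real.log 92.507 ∧ Real.log 92.507 ≤ 4.52728433 :=
  log_enc 6 92.507 4.52728430 4.52728433 (by norm_num) (by norm_num [sum_range_succ])
    (by norm_num [sum_range_succ])

theorem lg_94 : 4.54329477 ≤ Real.log 94 ∧ Real.log 94 ≤ 4.54329480 :=
  log_enc 6 94 4.54329477 4.54329480 (by norm_num) (by norm_num [sum_range_succ])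
    (by norm_num [sum_range_succ])

theorem lg_96_976 : 4.57446351 ≤ Real.log 96.976 ∧ Real.log 96.976 ≤ 4.57446354 :=
  log_enc 6 96.976 4.57446351 4.57446354 (by norm_num) (by norm_num [sum_range_succ])
    (by norm_num [sum_range_succ])

theorem lg_100 : 4.60517017 ≤ Real.log 100 ∧ Real.log 100 ≤ 4.60517020 :=
  log_enc 6 100 4.60517017 4.60517020 (by norm_num) (by norm_num [sum_range_succ])
    (by norm_num [sum_range_succ])

theorem lg_160 : 5.07517380 ≤ Real.log 160 ∧ Real.log 160 ≤ 5.07517383 :=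
  log_enc 7 160 5.07517380 5.07517383 (by norm_num) (by norm_num [sum_range_succ])
    (by norm_num [sum_range_succ])

theorem lg_169 : 5.12989870 ≤ Real.log 169 ∧ Real.log 169 ≤ 5.12989873 :=
  log_enc 7 169 5.12989870 5.12989873 (by norm_num) (by norm_num [sum_range_succ])
    (by norm_num [sum_range_succ])

theorem lg_219_817 : 5.39279537 ≤ Real.log 219.817 ∧ Real.log 219.817 ≤ 5.39279540 :=
  log_enc 7 219.817 5.39279537 5.39279540 (by norm_num) (by norm_num [sum_range_succ])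
    (by norm_num [sum_range_succ])

theorem lg_221 : 5.39816269 ≤ Real.log 221 ∧ Real.log 221 ≤ 5.39816272 :=
  log_enc 7 221 5.39816269 5.39816272 (by norm_num) (by norm_num [sum_range_succ])
    (by norm_num [sum_range_succ])

theorem lg_223_78 : 5.41066341 ≤ Real.log 223.78 ∧ Real.log 223.78 ≤ 5.41066344 :=
  log_enc 7 223.78 5.41066341 5.41066344 (by norm_num) (by norm_num [sum_range_succ])
    (by norm_num [sum_range_succ])

theorem lg_224 : 5.41164604 ≤ Real.log 224 ∧ Real.log 224 ≤ 5.41164607 :=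
  log_enc 7 224 5.41164604 5.41164607 (by norm_num) (by norm_num [sum_range_succ])
    (by norm_num [sum_range_succ])

theorem lg_228_612 : 5.43202623 ≤ Real.log 228.612 ∧ Real.log 228.612 ≤ 5.43202626 :=
  log_enc 7 228.612 5.43202623 5.43202626 (by norm_num) (by norm_num [sum_range_succ])
    (by norm_num [sum_range_succ])

theorem lg_229 : 5.43372199 ≤ Real.log 229 ∧ Real.log 229 ≤ 5.43372202 :=
  log_enc 7 229 5.43372199 5.43372202 (by norm_num) (by norm_num [sum_range_succ])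
    (by norm_num [sum_range_succ])

theorem lg_231_537 : 5.44473967 ≤ Real.log 231.537 ∧ Real.log 231.537 ≤ 5.44473970 :=
  log_enc 7 231.537 5.44473967 5.44473970 (by norm_num) (by norm_num [sum_range_succ])
    (by norm_num [sum_range_succ])

theorem lg_232 : 5.44673736 ≤ Real.log 232 ∧ Real.log 232 ≤ 5.44673739 :=
  log_enc 7 232 5.44673736 5.44673739 (by norm_num) (by norm_num [sum_range_succ])
    (by norm_num [sum_range_succ])

theorem lg_235 : 5.45958550 ≤ Real.log 235 ∧ Real.log 235 ≤ 5.45958553 :=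
  log_enc 7 235 5.45958550 5.45958553 (by norm_num) (by norm_num [sum_range_succ])
    (by norm_num [sum_range_succ])

theorem lg_235_645 : 5.46232642 ≤ Real.log 235.645 ∧ Real.log 235.645 ≤ 5.46232645 :=
  log_enc 7 235.645 5.46232642 5.46232645 (by norm_num) (by norm_num [sum_range_succ])
    (by norm_num [sum_range_succ])

theorem lg_239 : 5.47646354 ≤ Real.log 239 ∧ Real.log 239 ≤ 5.47646357 :=
  log_enc 7 239 5.47646354 5.47646357 (by norm_num) (by norm_num [sum_range_succ])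
    (by norm_num [sum_range_succ])

theorem lg_239_507 : 5.47858263 ≤ Real.log 239.507 ∧ Real.log 239.507 ≤ 5.47858266 :=
  log_enc 7 239.507 5.47858263 5.47858266 (by norm_num) (by norm_num [sum_range_succ])
    (by norm_num [sum_range_succ])

theorem lg_241_976 : 5.48883853 ≤ Real.log 241.976 ∧ Real.log 241.976 ≤ 5.48883856 :=
  log_enc 7 241.976 5.48883853 5.48883856 (by norm_num) (by norm_num [sum_range_succ])
    (by norm_num [sum_range_succ])

theorem lg_400 : 5.99146453 ≤ Real.log 400 ∧ Real.log 400 ≤ 5.99146456 :=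
  log_enc 8 400 5.99146453 5.99146456 (by norm_num) (by norm_num [sum_range_succ])
    (by norm_num [sum_range_succ])

theorem lg_82006_4 : 11.31455256 ≤ Real.log 82006.4 ∧ Real.log 82006.4 ≤ 11.31455259 :=
  log_enc 16 82006.4 11.31455256 11.31455259 (by norm_num) (by norm_num [sum_range_succ])
    (by norm_num [sum_range_succ])

theorem pv0 : pieceVal 160 0 63 0 (-592.98) 82006.4 (-771.16) 400 (169 / 16) 59.817 0.0037 ≤
    -37775.64 := by
  have l0 := lg_59_817
  have l1 := lg_219_817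
  have l2 := lg_160
  have l3 := lg_63
  have l4 := lg_82006_4
  have l5 := lg_400
  have l6 := lg_169o16
  have l7 := lg_16
  have l8 := lg_169
  unfold pieceVal aX aY hh
  norm_num at *
  linarith [l0.1, l0.2, l1.1, l1.2, l2.1, l2.2, l3.1, l3.2, l4.1, l4.2, l5.1, l5.2, l6.1, l6.2, l7.1, l7.2, l8.1, l8.2]

theorem cr0 : (0 ≤ ((-771.16 : ℝ) - (-592.98)) + (0 : ℕ) * (Real.log 400 - Real.log 82006.4) +
      (59.817 - (0 : ℕ)) * Real.log (16 * (169 / 16)) - gch (160 : ℕ) (59.817 - (0 : ℕ))) ∧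
    ((-771.16 : ℝ) - (-592.98)) + (0 : ℕ) * (Real.log 400 - Real.log 82006.4) +
      (59.817 - (0 : ℕ)) * Real.log (16 * (169 / 16)) - gch (160 : ℕ) (59.817 - (0 : ℕ)) ≤ 0.0037 ∧
    ((-771.16 : ℝ) - (-592.98)) + (0 : ℕ) * (Real.log 400 - Real.log 82006.4) +
      1 * Real.log (16 * (169 / 16)) ≤ 0.0037 := by
  have l0 := lg_59_817
  have l1 := lg_219_817
  have l2 := lg_160
  have l3 := lg_63
  have l4 := lg_82006_4
  have l5 := lg_400
  have l6 := lg_169o16
  have l7 := lg_16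
  have l8 := lg_169
  unfold gch
  norm_num at *
  refine ⟨?_, ?_, ?_⟩ <;>
  linarith [l0.1, l0.2, l1.1, l1.2, l2.1, l2.2, l3.1, l3.2, l4.1, l4.2, l5.1, l5.2, l6.1, l6.2, l7.1, l7.2, l8.1, l8.2]

theorem pv1 : pieceVal 160 63 69 2 (-592.98) 82006.4 (-775.78) 400 (169 / 16) 65.78 0.0024 ≤
    -3762.8 := by
  have l0 := lg_65_78
  have l1 := lg_63_78
  have l2 := lg_223_78
  have l3 := lg_63
  have l4 := lg_61
  have l5 := lg_221
  have l6 := lg_69
  have l7 := lg_67
  have l8 := lg_82006_4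
  have l9 := lg_400
  have l10 := lg_169o16
  have l11 := lg_16
  have l12 := lg_160
  have l13 := lg_169
  unfold pieceVal aX aY hh
  norm_num at *
  linarith [l0.1, l0.2, l1.1, l1.2, l2.1, l2.2, l3.1, l3.2, l4.1, l4.2, l5.1, l5.2, l6.1, l6.2, l7.1, l7.2, l8.1, l8.2, l9.1, l9.2, l10.1, l10.2, l11.1, l11.2, l12.1, l12.2, l13.1, l13.2]

theorem cr1 : (0 ≤ ((-775.78 : ℝ) - (-592.98)) + (2 : ℕ) * (Real.log 400 - Real.log 82006.4) +
      (65.78 - (2 : ℕ)) * Real.log (16 * (169 / 16)) - gch (160 : ℕ) (65.78 - (2 : ℕ))) ∧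
    ((-775.78 : ℝ) - (-592.98)) + (2 : ℕ) * (Real.log 400 - Real.log 82006.4) +
      (65.78 - (2 : ℕ)) * Real.log (16 * (169 / 16)) - gch (160 : ℕ) (65.78 - (2 : ℕ)) ≤ 0.0024 ∧
    ((-775.78 : ℝ) - (-592.98)) + (2 : ℕ) * (Real.log 400 - Real.log 82006.4) +
      1 * Real.log (16 * (169 / 16)) ≤ 0.0024 := by
  have l0 := lg_65_78
  have l1 := lg_63_78
  have l2 := lg_223_78
  have l3 := lg_63
  have l4 := lg_61
  have l5 := lg_221
  have l6 := lg_69
  have l7 := lg_67
  have l8 := lg_82006_4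
  have l9 := lg_400
  have l10 := lg_169o16
  have l11 := lg_16
  have l12 := lg_160
  have l13 := lg_169
  unfold gch
  norm_num at *
  refine ⟨?_, ?_, ?_⟩ <;>
  linarith [l0.1, l0.2, l1.1, l1.2, l2.1, l2.2, l3.1, l3.2, l4.1, l4.2, l5.1, l5.2, l6.1, l6.2, l7.1, l7.2, l8.1, l8.2, l9.1, l9.2, l10.1, l10.2, l11.1, l11.2, l12.1, l12.2, l13.1, l13.2]

theorem pv2 : pieceVal 160 69 76 5 (-592.98) 82006.4 (-778.66) 400 (169 / 16) 73.612 0.0024 ≤
    -4382.84 := by
  have l0 := lg_73_612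
  have l1 := lg_68_612
  have l2 := lg_228_612
  have l3 := lg_69
  have l4 := lg_64
  have l5 := lg_224
  have l6 := lg_76
  have l7 := lg_71
  have l8 := lg_82006_4
  have l9 := lg_400
  have l10 := lg_169o16
  have l11 := lg_16
  have l12 := lg_160
  have l13 := lg_169
  unfold pieceVal aX aY hh
  norm_num at *
  linarith [l0.1, l0.2, l1.1, l1.2, l2.1, l2.2, l3.1, l3.2, l4.1, l4.2, l5.1, l5.2, l6.1, l6.2, l7.1, l7.2, l8.1, l8.2, l9.1, l9.2, l10.1, l10.2, l11.1, l11.2, l12.1, l12.2, l13.1, l13.2]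

theorem cr2 : (0 ≤ ((-778.66 : ℝ) - (-592.98)) + (5 : ℕ) * (Real.log 400 - Real.log 82006.4) +
      (73.612 - (5 : ℕ)) * Real.log (16 * (169 / 16)) - gch (160 : ℕ) (73.612 - (5 : ℕ))) ∧
    ((-778.66 : ℝ) - (-592.98)) + (5 : ℕ) * (Real.log 400 - Real.log 82006.4) +
      (73.612 - (5 : ℕ)) * Real.log (16 * (169 / 16)) - gch (160 : ℕ) (73.612 - (5 : ℕ)) ≤ 0.0024 ∧
    ((-778.66 : ℝ) - (-592.98)) + (5 : ℕ) * (Real.log 400 - Real.log 82006.4) +
      1 * Real.log (16 * (169 / 16)) ≤ 0.0024 := by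
  have l0 := lg_73_612
  have l1 := lg_68_612
  have l2 := lg_228_612
  have l3 := lg_69
  have l4 := lg_64
  have l5 := lg_224
  have l6 := lg_76
  have l7 := lg_71
  have l8 := lg_82006_4
  have l9 := lg_400
  have l10 := lg_169o16
  have l11 := lg_16
  have l12 := lg_160
  have l13 := lg_169
  unfold gch
  norm_num at *
  refine ⟨?_, ?_, ?_⟩ <;>
  linarith [l0.1, l0.2, l1.1, l1.2, l2.1, l2.2, l3.1, l3.2, l4.1, l4.2, l5.1, l5.2, l6.1, l6.2, l7.1, l7.2, l8.1, l8.2, l9.1, l9.2, l10.1, l10.2, l11.1, l11.2, l12.1, l12.2, l13.1, l13.2]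

theorem pv3 : pieceVal 160 76 82 7 (-592.98) 82006.4 (-779.54) 400 (169 / 16) 78.537 0.0036 ≤
    -3757.7 := by
  have l0 := lg_78_537
  have l1 := lg_71_537
  have l2 := lg_231_537
  have l3 := lg_76
  have l4 := lg_69
  have l5 := lg_229
  have l6 := lg_82
  have l7 := lg_75
  have l8 := lg_82006_4
  have l9 := lg_400
  have l10 := lg_169o16
  have l11 := lg_16
  have l12 := lg_160
  have l13 := lg_169
  unfold pieceVal aX aY hh
  norm_num at *
  linarith [l0.1, l0.2, l1.1, l1.2, l2.1, l2.2, l3.1, l3.2, l4.1, l4.2, l5.1, l5.2, l6.1, l6.2, l7.1, l7.2, l8.1, l8.2, l9.1, l9.2, l10.1, l10.2, l11.1, l11.2, l12.1, l12.2, l13.1, l13.2]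

theorem cr3 : (0 ≤ ((-779.54 : ℝ) - (-592.98)) + (7 : ℕ) * (Real.log 400 - Real.log 82006.4) +
      (78.537 - (7 : ℕ)) * Real.log (16 * (169 / 16)) - gch (160 : ℕ) (78.537 - (7 : ℕ))) ∧
    ((-779.54 : ℝ) - (-592.98)) + (7 : ℕ) * (Real.log 400 - Real.log 82006.4) +
      (78.537 - (7 : ℕ)) * Real.log (16 * (169 / 16)) - gch (160 : ℕ) (78.537 - (7 : ℕ)) ≤ 0.0036 ∧
    ((-779.54 : ℝ) - (-592.98)) + (7 : ℕ) * (Real.log 400 - Real.log 82006.4) +
      1 * Real.log (16 * (169 / 16)) ≤ 0.0036 := by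
  have l0 := lg_78_537
  have l1 := lg_71_537
  have l2 := lg_231_537
  have l3 := lg_76
  have l4 := lg_69
  have l5 := lg_229
  have l6 := lg_82
  have l7 := lg_75
  have l8 := lg_82006_4
  have l9 := lg_400
  have l10 := lg_169o16
  have l11 := lg_16
  have l12 := lg_160
  have l13 := lg_169
  unfold gch
  norm_num at *
  refine ⟨?_, ?_, ?_⟩ <;>
  linarith [l0.1, l0.2, l1.1, l1.2, l2.1, l2.2, l3.1, l3.2, l4.1, l4.2, l5.1, l5.2, l6.1, l6.2, l7.1, l7.2, l8.1, l8.2, l9.1, l9.2, l10.1, l10.2, l11.1, l11.2, l12.1, l12.2, l13.1, l13.2]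

theorem pv4 : pieceVal 160 82 88 10 (-592.98) 82006.4 (-779.9) 400 (169 / 16) 85.645 0.0025 ≤
    -3758.39 := by
  have l0 := lg_85_645
  have l1 := lg_75_645
  have l2 := lg_235_645
  have l3 := lg_82
  have l4 := lg_72
  have l5 := lg_232
  have l6 := lg_88
  have l7 := lg_78
  have l8 := lg_82006_4
  have l9 := lg_400
  have l10 := lg_169o16
  have l11 := lg_16
  have l12 := lg_160
  have l13 := lg_169
  unfold pieceVal aX aY hh
  norm_num at *
  linarith [l0.1, l0.2, l1.1, l1.2, l2.1, l2.2, l3.1, l3.2, l4.1, l4.2, l5.1, l5.2, l6.1, l6.2, l7.1, l7.2, l8.1, l8.2, l9.1, l9.2, l10.1, l10.2, l11.1, l11.2, l12.1, l12.2, l13.1, l13.2]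

theorem cr4 : (0 ≤ ((-779.9 : ℝ) - (-592.98)) + (10 : ℕ) * (Real.log 400 - Real.log 82006.4) +
      (85.645 - (10 : ℕ)) * Real.log (16 * (169 / 16)) - gch (160 : ℕ) (85.645 - (10 : ℕ))) ∧
    ((-779.9 : ℝ) - (-592.98)) + (10 : ℕ) * (Real.log 400 - Real.log 82006.4) +
      (85.645 - (10 : ℕ)) * Real.log (16 * (169 / 16)) - gch (160 : ℕ) (85.645 - (10 : ℕ)) ≤ 0.0025 ∧
    ((-779.9 : ℝ) - (-592.98)) + (10 : ℕ) * (Real.log 400 - Real.log 82006.4) +
      1 * Real.log (16 * (169 / 16)) ≤ 0.0025 := by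
  have l0 := lg_85_645
  have l1 := lg_75_645
  have l2 := lg_235_645
  have l3 := lg_82
  have l4 := lg_72
  have l5 := lg_232
  have l6 := lg_88
  have l7 := lg_78
  have l8 := lg_82006_4
  have l9 := lg_400
  have l10 := lg_169o16
  have l11 := lg_16
  have l12 := lg_160
  have l13 := lg_169
  unfold gch
  norm_num at *
  refine ⟨?_, ?_, ?_⟩ <;>
  linarith [l0.1, l0.2, l1.1, l1.2, l2.1, l2.2, l3.1, l3.2, l4.1, l4.2, l5.1, l5.2, l6.1, l6.2, l7.1, l7.2, l8.1, l8.2, l9.1, l9.2, l10.1, l10.2, l11.1, l11.2, l12.1, l12.2, l13.1, l13.2]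

theorem pv5 : pieceVal 160 88 94 13 (-592.98) 82006.4 (-779.42) 400 (169 / 16) 92.507 0.0021 ≤
    -3757.12 := by
  have l0 := lg_92_507
  have l1 := lg_79_507
  have l2 := lg_239_507
  have l3 := lg_88
  have l4 := lg_75
  have l5 := lg_235
  have l6 := lg_94
  have l7 := lg_81
  have l8 := lg_82006_4
  have l9 := lg_400
  have l10 := lg_169o16
  have l11 := lg_16
  have l12 := lg_160
  have l13 := lg_169
  unfold pieceVal aX aY hh
  norm_num at *
  linarith [l0.1, l0.2, l1.1, l1.2, l2.1, l2.2, l3.1, l3.2, l4.1, l4.2, l5.1, l5.2, l6.1, l6.2, l7.1, l7.2, l8.1, l8.2, l9.1, l9.2, l10.1, l10.2, l11.1, l11.2, l12.1, l12.2, l13.1, l13.2]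

theorem cr5 : (0 ≤ ((-779.42 : ℝ) - (-592.98)) + (13 : ℕ) * (Real.log 400 - Real.log 82006.4) +
      (92.507 - (13 : ℕ)) * Real.log (16 * (169 / 16)) - gch (160 : ℕ) (92.507 - (13 : ℕ))) ∧
    ((-779.42 : ℝ) - (-592.98)) + (13 : ℕ) * (Real.log 400 - Real.log 82006.4) +
      (92.507 - (13 : ℕ)) * Real.log (16 * (169 / 16)) - gch (160 : ℕ) (92.507 - (13 : ℕ)) ≤ 0.0021 ∧
    ((-779.42 : ℝ) - (-592.98)) + (13 : ℕ) * (Real.log 400 - Real.log 82006.4) +
      1 * Real.log (16 * (169 / 16)) ≤ 0.0021 := by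
  have l0 := lg_92_507
  have l1 := lg_79_507
  have l2 := lg_239_507
  have l3 := lg_88
  have l4 := lg_75
  have l5 := lg_235
  have l6 := lg_94
  have l7 := lg_81
  have l8 := lg_82006_4
  have l9 := lg_400
  have l10 := lg_169o16
  have l11 := lg_16
  have l12 := lg_160
  have l13 := lg_169
  unfold gch
  norm_num at *
  refine ⟨?_, ?_, ?_⟩ <;>
  linarith [l0.1, l0.2, l1.1, l1.2, l2.1, l2.2, l3.1, l3.2, l4.1, l4.2, l5.1, l5.2, l6.1, l6.2, l7.1, l7.2, l8.1, l8.2, l9.1, l9.2, l10.1, l10.2, l11.1, l11.2, l12.1, l12.2, l13.1, l13.2]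

theorem pv6 : pieceVal 160 94 100 15 (-592.98) 82006.4 (-778.74) 400 (169 / 16) 96.976 0.0042 ≤
    -3764.23 := by
  have l0 := lg_96_976
  have l1 := lg_81_976
  have l2 := lg_241_976
  have l3 := lg_94
  have l4 := lg_79
  have l5 := lg_239
  have l6 := lg_100
  have l7 := lg_85
  have l8 := lg_82006_4
  have l9 := lg_400
  have l10 := lg_169o16
  have l11 := lg_16
  have l12 := lg_160
  have l13 := lg_169
  unfold pieceVal aX aY hh
  norm_num at *
  linarith [l0.1, l0.2, l1.1, l1.2, l2.1, l2.2, l3.1, l3.2, l4.1, l4.2, l5.1, l5.2, l6.1, l6.2, l7.1, l7.2, l8.1, l8.2, l9.1, l9.2, l10.1, l10.2, l11.1, l11.2, l12.1, l12.2, l13.1, l13.2]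

theorem cr6 : (0 ≤ ((-778.74 : ℝ) - (-592.98)) + (15 : ℕ) * (Real.log 400 - Real.log 82006.4) +
      (96.976 - (15 : ℕ)) * Real.log (16 * (169 / 16)) - gch (160 : ℕ) (96.976 - (15 : ℕ))) ∧
    ((-778.74 : ℝ) - (-592.98)) + (15 : ℕ) * (Real.log 400 - Real.log 82006.4) +
      (96.976 - (15 : ℕ)) * Real.log (16 * (169 / 16)) - gch (160 : ℕ) (96.976 - (15 : ℕ)) ≤ 0.0042 ∧
    ((-778.74 : ℝ) - (-592.98)) + (15 : ℕ) * (Real.log 400 - Real.log 82006.4) +
      1 * Real.log (16 * (169 / 16)) ≤ 0.0042 := by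
  have l0 := lg_96_976
  have l1 := lg_81_976
  have l2 := lg_241_976
  have l3 := lg_94
  have l4 := lg_79
  have l5 := lg_239
  have l6 := lg_100
  have l7 := lg_85
  have l8 := lg_82006_4
  have l9 := lg_400
  have l10 := lg_169o16
  have l11 := lg_16
  have l12 := lg_160
  have l13 := lg_169
  unfold gch
  norm_num at *
  refine ⟨?_, ?_, ?_⟩ <;>
  linarith [l0.1, l0.2, l1.1, l1.2, l2.1, l2.2, l3.1, l3.2, l4.1, l4.2, l5.1, l5.2, l6.1, l6.2, l7.1, l7.2, l8.1, l8.2, l9.1, l9.2, l10.1, l10.2, l11.1, l11.2, l12.1, l12.2, l13.1, l13.2]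

end Pool.Agent.Z3D
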