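import Mathlib
import Pool.Agent.Z3D.LogNum
import Pool.Agent.Z3D.AsideB
import Pool.Agent.Z3D.Dom

/-! The logarithm of the complete product of the rows, seven groups, parameter `n = 20 N`. -/

open Finset
open scoped Nat

namespace Pool.Agent.Z3D

open Pool.Agent.D23 (hn)

/-- node exponent (in units of `N`) of row `j` -/
def gB (N j : ℕ) : ℕ :=
  if j < 63 * N then 0 else if j < 69 * N then 2 else if j < 76 * N then 5 else
  if j < 82 * N then 7 else if j < 88 * N then 10 else if j < 94 * N then 13 else 15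

/-- node exponent of row `j` -/
def rrB (N j : ℕ) : ℕ := gB N j * N

/-- bound of the pole side of row `j` -/
noncomputable def AAB (N j : ℕ) : ℝ :=
  22533334 * (N : ℝ) ^ 3 * Real.exp (phB (gB N j) * (20 * N)) * (20 * N) ^ (2 * (gB N j * N)) *
    (169 / 16) ^ (j - gB N j * N) * ((j - gB N j * N)! : ℝ) ^ 2

theorem gB_mem (N j : ℕ) : gB N j ∈ ({0, 2, 5, 7, 10, 13, 15} : Finset ℕ) := by
  unfold gB
  split_ifs <;> decide

theorem rrB_le (N j : ℕ) : rrB N j ≤ j := by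
  unfold rrB gB
  split_ifs <;> omega

theorem rrB_le_n (N j : ℕ) : rrB N j ≤ 20 * N := by
  unfold rrB gB
  split_ifs <;> omega

theorem group0 (K0 : ℝ) (hK0 : 0 < K0) (D : ℕ) :
    ∃ C : ℝ, 0 ≤ C ∧ ∀ N e : ℕ, 1 ≤ N → e ≤ 63 * N → 63 * N ≤ e + 3 → ∀ f : ℕ → ℝ,
      (∀ j, 0 * N ≤ j → j < e → 0 ≤ f j) →
      (∀ j, 0 * N ≤ j → j < e → f j ≤ K0 * (N : ℝ) ^ D *
        (rowval 160 0 (-592.98) 82006.4 (-771.16) 400 (169 / 16) N (j - 0 * N) *
          ((j - 0 * N)! : ℝ) ^ 2)) →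
      ∏ j ∈ Ico (0 * N) e, f j ≤ (∏ j ∈ Ico (0 * N) e, (j ! : ℝ) ^ 2) *
        Real.exp (-37775.64 * (N : ℝ) ^ 2 + C * (N * Real.log ((N : ℝ) + 1))) := by
  obtain ⟨c1, c2, c3⟩ := cr0
  obtain ⟨C, hC, h⟩ := piece 160 0 63 0 3 (by norm_num) (by norm_num) (by norm_num)
    (-592.98) 82006.4 (-771.16) 400 (169 / 16) 59.817 0.0037 1 (by norm_num) (by norm_num) (by norm_num)
    (by norm_num) (by norm_num) (by norm_num) (by norm_num) (by norm_num) (by norm_num)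
    (fun _ => c1) (fun _ => c2) (fun _ => c3) K0 hK0 D
  refine ⟨C, hC, fun N e hN he1 he2 f hf0 hf => (h N e hN he1 he2 f hf0 hf).trans ?_⟩
  refine mul_le_mul_of_nonneg_left (Real.exp_le_exp.mpr ?_) (by positivity)
  have h2 := mul_le_mul_of_nonneg_right pv0 (sq_nonneg (N : ℝ))
  linarith

theorem group1 (K0 : ℝ) (hK0 : 0 < K0) (D : ℕ) :
    ∃ C : ℝ, 0 ≤ C ∧ ∀ N e : ℕ, 1 ≤ N → e ≤ 69 * N → 69 * N ≤ e + 3 → ∀ f : ℕ → ℝ,
      (∀ j, 63 * N ≤ j → j < e → 0 ≤ f j) →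
      (∀ j, 63 * N ≤ j → j < e → f j ≤ K0 * (N : ℝ) ^ D *
        (rowval 160 2 (-592.98) 82006.4 (-775.78) 400 (169 / 16) N (j - 2 * N) *
          ((j - 2 * N)! : ℝ) ^ 2)) →
      ∏ j ∈ Ico (63 * N) e, f j ≤ (∏ j ∈ Ico (63 * N) e, (j ! : ℝ) ^ 2) *
        Real.exp (-3762.8 * (N : ℝ) ^ 2 + C * (N * Real.log ((N : ℝ) + 1))) := by
  obtain ⟨c1, c2, c3⟩ := cr1
  obtain ⟨C, hC, h⟩ := piece 160 63 69 2 3 (by norm_num) (by norm_num) (by norm_num)
    (-592.98) 82006.4 (-775.78) 400 (169 / 16) 65.78 0.0024 1 (by norm_num) (by norm_num) (by norm_num)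
    (by norm_num) (by norm_num) (by norm_num) (by norm_num) (by norm_num) (by norm_num)
    (fun _ => c1) (fun _ => c2) (fun _ => c3) K0 hK0 D
  refine ⟨C, hC, fun N e hN he1 he2 f hf0 hf => (h N e hN he1 he2 f hf0 hf).trans ?_⟩
  refine mul_le_mul_of_nonneg_left (Real.exp_le_exp.mpr ?_) (by positivity)
  have h2 := mul_le_mul_of_nonneg_right pv1 (sq_nonneg (N : ℝ))
  linarith

theorem group2 (K0 : ℝ) (hK0 : 0 < K0) (D : ℕ) :
    ∃ C : ℝ, 0 ≤ C ∧ ∀ N e : ℕ, 1 ≤ N → e ≤ 76 * N → 76 * N ≤ e + 3 → ∀ f : ℕ → ℝ,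
      (∀ j, 69 * N ≤ j → j < e → 0 ≤ f j) →
      (∀ j, 69 * N ≤ j → j < e → f j ≤ K0 * (N : ℝ) ^ D *
        (rowval 160 5 (-592.98) 82006.4 (-778.66) 400 (169 / 16) N (j - 5 * N) *
          ((j - 5 * N)! : ℝ) ^ 2)) →
      ∏ j ∈ Ico (69 * N) e, f j ≤ (∏ j ∈ Ico (69 * N) e, (j ! : ℝ) ^ 2) *
        Real.exp (-4382.84 * (N : ℝ) ^ 2 + C * (N * Real.log ((N : ℝ) + 1))) := by
  obtain ⟨c1, c2, c3⟩ := cr2
  obtain ⟨C, hC, h⟩ := piece 160 69 76 5 3 (by norm_num) (by norm_num) (by norm_num)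
    (-592.98) 82006.4 (-778.66) 400 (169 / 16) 73.612 0.0024 1 (by norm_num) (by norm_num) (by norm_num)
    (by norm_num) (by norm_num) (by norm_num) (by norm_num) (by norm_num) (by norm_num)
    (fun _ => c1) (fun _ => c2) (fun _ => c3) K0 hK0 D
  refine ⟨C, hC, fun N e hN he1 he2 f hf0 hf => (h N e hN he1 he2 f hf0 hf).trans ?_⟩
  refine mul_le_mul_of_nonneg_left (Real.exp_le_exp.mpr ?_) (by positivity)
  have h2 := mul_le_mul_of_nonneg_right pv2 (sq_nonneg (N : ℝ))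
  linarith

theorem group3 (K0 : ℝ) (hK0 : 0 < K0) (D : ℕ) :
    ∃ C : ℝ, 0 ≤ C ∧ ∀ N e : ℕ, 1 ≤ N → e ≤ 82 * N → 82 * N ≤ e + 3 → ∀ f : ℕ → ℝ,
      (∀ j, 76 * N ≤ j → j < e → 0 ≤ f j) →
      (∀ j, 76 * N ≤ j → j < e → f j ≤ K0 * (N : ℝ) ^ D *
        (rowval 160 7 (-592.98) 82006.4 (-779.54) 400 (169 / 16) N (j - 7 * N) *
          ((j - 7 * N)! : ℝ) ^ 2)) →
      ∏ j ∈ Ico (76 * N) e, f j ≤ (∏ j ∈ Ico (76 * N) e, (j ! : ℝ) ^ 2) *
        Real.exp (-3757.7 * (N : ℝ) ^ 2 + C * (N * Real.log ((N : ℝ) + 1))) := by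
  obtain ⟨c1, c2, c3⟩ := cr3
  obtain ⟨C, hC, h⟩ := piece 160 76 82 7 3 (by norm_num) (by norm_num) (by norm_num)
    (-592.98) 82006.4 (-779.54) 400 (169 / 16) 78.537 0.0036 1 (by norm_num) (by norm_num) (by norm_num)
    (by norm_num) (by norm_num) (by norm_num) (by norm_num) (by norm_num) (by norm_num)
    (fun _ => c1) (fun _ => c2) (fun _ => c3) K0 hK0 D
  refine ⟨C, hC, fun N e hN he1 he2 f hf0 hf => (h N e hN he1 he2 f hf0 hf).trans ?_⟩
  refine mul_le_mul_of_nonneg_left (Real.exp_le_exp.mpr ?_) (by positivity)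
  have h2 := mul_le_mul_of_nonneg_right pv3 (sq_nonneg (N : ℝ))
  linarith

theorem group4 (K0 : ℝ) (hK0 : 0 < K0) (D : ℕ) :
    ∃ C : ℝ, 0 ≤ C ∧ ∀ N e : ℕ, 1 ≤ N → e ≤ 88 * N → 88 * N ≤ e + 3 → ∀ f : ℕ → ℝ,
      (∀ j, 82 * N ≤ j → j < e → 0 ≤ f j) →
      (∀ j, 82 * N ≤ j → j < e → f j ≤ K0 * (N : ℝ) ^ D *
        (rowval 160 10 (-592.98) 82006.4 (-779.9) 400 (169 / 16) N (j - 10 * N) *
          ((j - 10 * N)! : ℝ) ^ 2)) →
      ∏ j ∈ Ico (82 * N) e, f j ≤ (∏ j ∈ Ico (82 * N) e, (j ! : ℝ) ^ 2) *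
        Real.exp (-3758.39 * (N : ℝ) ^ 2 + C * (N * Real.log ((N : ℝ) + 1))) := by
  obtain ⟨c1, c2, c3⟩ := cr4
  obtain ⟨C, hC, h⟩ := piece 160 82 88 10 3 (by norm_num) (by norm_num) (by norm_num)
    (-592.98) 82006.4 (-779.9) 400 (169 / 16) 85.645 0.0025 1 (by norm_num) (by norm_num) (by norm_num)
    (by norm_num) (by norm_num) (by norm_num) (by norm_num) (by norm_num) (by norm_num)
    (fun _ => c1) (fun _ => c2) (fun _ => c3) K0 hK0 D
  refine ⟨C, hC, fun N e hN he1 he2 f hf0 hf => (h N e hN he1 he2 f hf0 hf).trans ?_⟩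
  refine mul_le_mul_of_nonneg_left (Real.exp_le_exp.mpr ?_) (by positivity)
  have h2 := mul_le_mul_of_nonneg_right pv4 (sq_nonneg (N : ℝ))
  linarith

theorem group5 (K0 : ℝ) (hK0 : 0 < K0) (D : ℕ) :
    ∃ C : ℝ, 0 ≤ C ∧ ∀ N e : ℕ, 1 ≤ N → e ≤ 94 * N → 94 * N ≤ e + 3 → ∀ f : ℕ → ℝ,
      (∀ j, 88 * N ≤ j → j < e → 0 ≤ f j) →
      (∀ j, 88 * N ≤ j → j < e → f j ≤ K0 * (N : ℝ) ^ D *
        (rowval 160 13 (-592.98) 82006.4 (-779.42) 400 (169 / 16) N (j - 13 * N) *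
          ((j - 13 * N)! : ℝ) ^ 2)) →
      ∏ j ∈ Ico (88 * N) e, f j ≤ (∏ j ∈ Ico (88 * N) e, (j ! : ℝ) ^ 2) *
        Real.exp (-3757.12 * (N : ℝ) ^ 2 + C * (N * Real.log ((N : ℝ) + 1))) := by
  obtain ⟨c1, c2, c3⟩ := cr5
  obtain ⟨C, hC, h⟩ := piece 160 88 94 13 3 (by norm_num) (by norm_num) (by norm_num)
    (-592.98) 82006.4 (-779.42) 400 (169 / 16) 92.507 0.0021 1 (by norm_num) (by norm_num) (by norm_num)
    (by norm_num) (by norm_num) (by norm_num) (by norm_num) (by norm_num) (by norm_num)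
    (fun _ => c1) (fun _ => c2) (fun _ => c3) K0 hK0 D
  refine ⟨C, hC, fun N e hN he1 he2 f hf0 hf => (h N e hN he1 he2 f hf0 hf).trans ?_⟩
  refine mul_le_mul_of_nonneg_left (Real.exp_le_exp.mpr ?_) (by positivity)
  have h2 := mul_le_mul_of_nonneg_right pv5 (sq_nonneg (N : ℝ))
  linarith

theorem group6 (K0 : ℝ) (hK0 : 0 < K0) (D : ℕ) :
    ∃ C : ℝ, 0 ≤ C ∧ ∀ N e : ℕ, 1 ≤ N → e ≤ 100 * N → 100 * N ≤ e + 3 → ∀ f : ℕ → ℝ,
      (∀ j, 94 * N ≤ j → j < e → 0 ≤ f j) →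
      (∀ j, 94 * N ≤ j → j < e → f j ≤ K0 * (N : ℝ) ^ D *
        (rowval 160 15 (-592.98) 82006.4 (-778.74) 400 (169 / 16) N (j - 15 * N) *
          ((j - 15 * N)! : ℝ) ^ 2)) →
      ∏ j ∈ Ico (94 * N) e, f j ≤ (∏ j ∈ Ico (94 * N) e, (j ! : ℝ) ^ 2) *
        Real.exp (-3764.23 * (N : ℝ) ^ 2 + C * (N * Real.log ((N : ℝ) + 1))) := by
  obtain ⟨c1, c2, c3⟩ := cr6
  obtain ⟨C, hC, h⟩ := piece 160 94 100 15 3 (by norm_num) (by norm_num) (by norm_num)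
    (-592.98) 82006.4 (-778.74) 400 (169 / 16) 96.976 0.0042 1 (by norm_num) (by norm_num) (by norm_num)
    (by norm_num) (by norm_num) (by norm_num) (by norm_num) (by norm_num) (by norm_num)
    (fun _ => c1) (fun _ => c2) (fun _ => c3) K0 hK0 D
  refine ⟨C, hC, fun N e hN he1 he2 f hf0 hf => (h N e hN he1 he2 f hf0 hf).trans ?_⟩
  refine mul_le_mul_of_nonneg_left (Real.exp_le_exp.mpr ?_) (by positivity)
  have h2 := mul_le_mul_of_nonneg_right pv6 (sq_nonneg (N : ℝ))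
  linarith

theorem hn_eq (m x : ℕ) : hn m x = (Real.pi * ((2 * m + 1)! : ℝ) / 4 ^ (m + 1)) *
    (((2 * m + 1 + x).choose x : ℝ) / 16 ^ x) * (x ! : ℝ) ^ 2 := by
  have h := Nat.add_choose_mul_factorial_mul_factorial (2 * m + 1) x
  have h1 : (((2 * m + 1 + x).choose x : ℕ) : ℝ) * ((2 * m + 1)! : ℝ) * (x ! : ℝ) =
      ((2 * m + 1 + x)! : ℝ) := by exact_mod_cast h
  unfold hn
  rw [← h1]
  field_simp

/-- one row -/
theorem row_le (N R x : ℕ) (hN : 1 ≤ N) (β ε phi K0 : ℝ) (D : ℕ) (hβ : 0 < β) (hK0 : 0 < K0)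
    (hβ2 : β * (Real.pi * ((160 * N + 1)! : ℝ) / 4 ^ (80 * N + 1)) ≤
      K0 * (N : ℝ) ^ D * Real.exp (-592.98 * N))
    (hε0 : 0 ≤ ε) (hε : ε ≤ Real.exp (-(1630 * N))) :
    β * (196 * ((20 * N : ℕ) : ℝ) ^ 2 * 1.046) ^ (R * N) * hn (4 * (20 * N)) x +
      ε * (22533334 * (N : ℝ) ^ 3 * Real.exp (phi * (20 * N)) * (20 * N) ^ (2 * (R * N)) *
        (169 / 16) ^ x * (x ! : ℝ) ^ 2) ≤
      (K0 + 22533334) * (N : ℝ) ^ (D + 3) *
        (rowval 160 R (-592.98) 82006.4 (20 * phi - 1630) 400 (169 / 16) N x * (x ! : ℝ) ^ 2) := by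
  have hN' : (1 : ℝ) ≤ N := by exact_mod_cast hN
  have hN0 : (0 : ℝ) < N := by linarith
  have e1 : 4 * (20 * N) = 80 * N := by omega
  have e2 : 2 * (80 * N) + 1 = 160 * N + 1 := by omega
  have e3 : (196 * ((20 * N : ℕ) : ℝ) ^ 2 * 1.046) = 82006.4 * (N : ℝ) ^ 2 := by
    push_cast
    ring
  have e4 : (20 * (N : ℝ)) ^ (2 * (R * N)) = (400 * (N : ℝ) ^ 2) ^ (R * N) := by
    rw [pow_mul]
    congr 1
    ring
  rw [e1, hn_eq, e2, e3, e4]
  set PX : ℝ := (82006.4 * (N : ℝ) ^ 2) ^ (R * N) * (((160 * N + 1 + x).choose x : ℝ) / 16 ^ x) *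
    (x ! : ℝ) ^ 2 with hPX
  set PY : ℝ := (400 * (N : ℝ) ^ 2) ^ (R * N) * (169 / 16) ^ x * (x ! : ℝ) ^ 2 with hPY
  have hPX0 : 0 ≤ PX := by positivity
  have hPY0 : 0 ≤ PY := by positivity
  have h1 : β * (82006.4 * (N : ℝ) ^ 2) ^ (R * N) *
      (Real.pi * ((160 * N + 1)! : ℝ) / 4 ^ (80 * N + 1) *
        (((160 * N + 1 + x).choose x : ℝ) / 16 ^ x) * (x ! : ℝ) ^ 2) =
      β * (Real.pi * ((160 * N + 1)! : ℝ) / 4 ^ (80 * N + 1)) * PX := by
    rw [hPX]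
    ring
  have h2 : ε * (22533334 * (N : ℝ) ^ 3 * Real.exp (phi * (20 * N)) *
      (400 * (N : ℝ) ^ 2) ^ (R * N) * (169 / 16) ^ x * (x ! : ℝ) ^ 2) =
      ε * Real.exp (phi * (20 * N)) * (22533334 * (N : ℝ) ^ 3) * PY := by
    rw [hPY]
    ring
  rw [h1, h2]
  have h3 := mul_le_mul_of_nonneg_right hβ2 hPX0
  have h4 : ε * Real.exp (phi * (20 * N)) ≤ Real.exp ((20 * phi - 1630) * N) := by
    calc ε * Real.exp (phi * (20 * N)) ≤ Real.exp (-(1630 * N)) * Real.exp (phi * (20 * N)) :=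
          mul_le_mul_of_nonneg_right hε (Real.exp_pos _).le
      _ = _ := by
        rw [← Real.exp_add]
        congr 1
        ring
  have h5 : ε * Real.exp (phi * (20 * N)) * (22533334 * (N : ℝ) ^ 3) * PY ≤
      Real.exp ((20 * phi - 1630) * N) * (22533334 * (N : ℝ) ^ 3) * PY := by
    gcongr
  have h6 : (N : ℝ) ^ D ≤ (N : ℝ) ^ (D + 3) := pow_le_pow_right₀ hN' (by omega)
  have h7 : (N : ℝ) ^ 3 ≤ (N : ℝ) ^ (D + 3) := pow_le_pow_right₀ hN' (by omega)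
  have h8 : K0 * (N : ℝ) ^ D ≤ (K0 + 22533334) * (N : ℝ) ^ (D + 3) := by
    have : K0 * (N : ℝ) ^ D ≤ K0 * (N : ℝ) ^ (D + 3) := by gcongr
    have h9 : (0 : ℝ) ≤ (N : ℝ) ^ (D + 3) := by positivity
    nlinarith
  have h9 : 22533334 * (N : ℝ) ^ 3 ≤ (K0 + 22533334) * (N : ℝ) ^ (D + 3) := by
    have h10 : (0 : ℝ) ≤ (N : ℝ) ^ (D + 3) := by positivity
    nlinarith
  have h10 : K0 * (N : ℝ) ^ D * Real.exp (-592.98 * N) * PX ≤
      (K0 + 22533334) * (N : ℝ) ^ (D + 3) * (Real.exp (-592.98 * N) * PX) := by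
    have := mul_le_mul_of_nonneg_right h8 (show 0 ≤ Real.exp (-592.98 * N) * PX by positivity)
    linarith
  have h11 : Real.exp ((20 * phi - 1630) * N) * (22533334 * (N : ℝ) ^ 3) * PY ≤
      (K0 + 22533334) * (N : ℝ) ^ (D + 3) * (Real.exp ((20 * phi - 1630) * N) * PY) := by
    have := mul_le_mul_of_nonneg_right h9
      (show 0 ≤ Real.exp ((20 * phi - 1630) * N) * PY by positivity)
    linarith
  have h12 : rowval 160 R (-592.98) 82006.4 (20 * phi - 1630) 400 (169 / 16) N x * (x ! : ℝ) ^ 2 =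
      Real.exp (-592.98 * N) * PX + Real.exp ((20 * phi - 1630) * N) * PY := by
    unfold rowval
    rw [hPX, hPY]
    ring
  rw [h12]
  linarith

set_option maxHeartbeats 4000000 in
/-- **Total of the rows.** -/
theorem rows_total (K0 : ℝ) (hK0 : 0 < K0) (D : ℕ) : ∃ C : ℝ, 0 ≤ C ∧ ∀ N M : ℕ, 1 ≤ N →
    M ≤ 100 * N → 100 * N ≤ M + 3 → ∀ β ε : ℝ, 0 < β →
    β * (Real.pi * ((160 * N + 1)! : ℝ) / 4 ^ (80 * N + 1)) ≤
      K0 * (N : ℝ) ^ D * Real.exp (-592.98 * N) →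
    0 ≤ ε → ε ≤ Real.exp (-(1630 * N)) →
    (M ! : ℝ) * ∏ j ∈ range M, (β * (196 * ((20 * N : ℕ) : ℝ) ^ 2 * 1.046) ^ (rrB N j) *
      hn (4 * (20 * N)) (j - rrB N j) + ε * AAB N j) ≤
      (∏ j ∈ range M, (j ! : ℝ) ^ 2) *
        Real.exp (-60958.72 * (N : ℝ) ^ 2 + C * (N * Real.log ((N : ℝ) + 1))) := by
  obtain ⟨C0, hC0, g0⟩ := group0 (K0 + 22533334) (by linarith) (D + 3)
  obtain ⟨C1, hC1, g1⟩ := group1 (K0 + 22533334) (by linarith) (D + 3)
  obtain ⟨C2, hC2, g2⟩ := group2 (K0 + 22533334) (by linarith) (D + 3)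
  obtain ⟨C3, hC3, g3⟩ := group3 (K0 + 22533334) (by linarith) (D + 3)
  obtain ⟨C4, hC4, g4⟩ := group4 (K0 + 22533334) (by linarith) (D + 3)
  obtain ⟨C5, hC5, g5⟩ := group5 (K0 + 22533334) (by linarith) (D + 3)
  obtain ⟨C6, hC6, g6⟩ := group6 (K0 + 22533334) (by linarith) (D + 3)
  refine ⟨C0 + C1 + C2 + C3 + C4 + C5 + C6 + 100 * (2 * Real.log 100 + 1), by
    have := Real.log_nonneg (show (1 : ℝ) ≤ 100 by norm_num)
    positivity, ?_⟩
  intro N M hN hM1 hM2 β ε hβ hβ2 hε0 hε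
  have hN' : (1 : ℝ) ≤ N := by exact_mod_cast hN
  have hN0 : (0 : ℝ) < N := by linarith
  set L : ℝ := Real.log ((N : ℝ) + 1) with hL
  have hLh : 1 / 2 ≤ L := log_half_le N hN
  set f : ℕ → ℝ := fun j => β * (196 * ((20 * N : ℕ) : ℝ) ^ 2 * 1.046) ^ (rrB N j) *
      hn (4 * (20 * N)) (j - rrB N j) + ε * AAB N j with hf
  have hf0 : ∀ j, 0 ≤ f j := by
    intro j
    have h1 := D23.hn_pos (4 * (20 * N)) (j - rrB N j)
    have h2 : 0 ≤ AAB N j := by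
      unfold AAB
      positivity
    rw [hf]
    positivity
  have key : ∀ (R : ℕ) (phi : ℝ), phB R = phi → ∀ j, gB N j = R →
      f j ≤ (K0 + 22533334) * (N : ℝ) ^ (D + 3) *
        (rowval 160 R (-592.98) 82006.4 (20 * phi - 1630) 400 (169 / 16) N (j - R * N) *
          ((j - R * N)! : ℝ) ^ 2) := by
    intro R phi hphi j hj
    have h1 := row_le N R (j - R * N) hN β ε phi K0 D hβ hK0 hβ2 hε0 hε
    rw [hf]
    simp only
    unfold AAB rrB
    rw [hj, hphi]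
    exact h1
  have p0 := g0 N (63 * N) hN le_rfl (by omega) f (fun j _ _ => hf0 j) (fun j h1 h2 => by
    have hg : gB N j = 0 := by
      unfold gB
      split_ifs <;> omega
    have h3 := key 0 42.942 (by unfold phB; norm_num) j hg
    have e : (20 * 42.942 - 1630 : ℝ) = -771.16 := by norm_num
    rw [e] at h3
    exact h3)
  have p1 := g1 N (69 * N) hN le_rfl (by omega) f (fun j _ _ => hf0 j) (fun j h1 h2 => by
    have hg : gB N j = 2 := by
      unfold gB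
      split_ifs <;> omega
    have h3 := key 2 42.711 (by unfold phB; norm_num) j hg
    have e : (20 * 42.711 - 1630 : ℝ) = -775.78 := by norm_num
    rw [e] at h3
    exact h3)
  have p2 := g2 N (76 * N) hN le_rfl (by omega) f (fun j _ _ => hf0 j) (fun j h1 h2 => by
    have hg : gB N j = 5 := by
      unfold gB
      split_ifs <;> omega
    have h3 := key 5 42.567 (by unfold phB; norm_num) j hg
    have e : (20 * 42.567 - 1630 : ℝ) = -778.66 := by norm_num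
    rw [e] at h3
    exact h3)
  have p3 := g3 N (82 * N) hN le_rfl (by omega) f (fun j _ _ => hf0 j) (fun j h1 h2 => by
    have hg : gB N j = 7 := by
      unfold gB
      split_ifs <;> omega
    have h3 := key 7 42.523 (by unfold phB; norm_num) j hg
    have e : (20 * 42.523 - 1630 : ℝ) = -779.54 := by norm_num
    rw [e] at h3
    exact h3)
  have p4 := g4 N (88 * N) hN le_rfl (by omega) f (fun j _ _ => hf0 j) (fun j h1 h2 => by
    have hg : gB N j = 10 := by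
      unfold gB
      split_ifs <;> omega
    have h3 := key 10 42.505 (by unfold phB; norm_num) j hg
    have e : (20 * 42.505 - 1630 : ℝ) = -779.9 := by norm_num
    rw [e] at h3
    exact h3)
  have p5 := g5 N (94 * N) hN le_rfl (by omega) f (fun j _ _ => hf0 j) (fun j h1 h2 => by
    have hg : gB N j = 13 := by
      unfold gB
      split_ifs <;> omega
    have h3 := key 13 42.529 (by unfold phB; norm_num) j hg
    have e : (20 * 42.529 - 1630 : ℝ) = -779.42 := by norm_num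
    rw [e] at h3
    exact h3)
  have p6 := g6 N M hN hM1 hM2 f (fun j _ _ => hf0 j) (fun j h1 h2 => by
    have hg : gB N j = 15 := by
      unfold gB
      split_ifs <;> omega
    have h3 := key 15 42.563 (by unfold phB; norm_num) j hg
    have e : (20 * 42.563 - 1630 : ℝ) = -778.74 := by norm_num
    rw [e] at h3
    exact h3)
  have hsplit : ∀ u : ℕ → ℝ, ∏ j ∈ range M, u j = (∏ j ∈ Ico (0 * N) (63 * N), u j) *
      (∏ j ∈ Ico (63 * N) (69 * N), u j) * (∏ j ∈ Ico (69 * N) (76 * N), u j) *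
      (∏ j ∈ Ico (76 * N) (82 * N), u j) * (∏ j ∈ Ico (82 * N) (88 * N), u j) *
      (∏ j ∈ Ico (88 * N) (94 * N), u j) * (∏ j ∈ Ico (94 * N) M, u j) := by
    intro u
    rw [prod_Ico_consecutive u (by omega) (by omega), prod_Ico_consecutive u (by omega) (by omega),
      prod_Ico_consecutive u (by omega) (by omega), prod_Ico_consecutive u (by omega) (by omega),
      prod_Ico_consecutive u (by omega) (by omega), prod_Ico_consecutive u (by omega) (by omega),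
      zero_mul, range_eq_Ico]
  have hpos : ∀ s : Finset ℕ, 0 ≤ ∏ j ∈ s, f j := fun s => prod_nonneg (fun j _ => hf0 j)
  have hfM : (M ! : ℝ) ≤ Real.exp (100 * (2 * Real.log 100 + 1) * (N * L)) := by
    have hMf : (0 : ℝ) < (M ! : ℝ) := by exact_mod_cast Nat.factorial_pos M
    rw [← Real.log_le_iff_le_exp hMf]
    have h1 := D23.log_fact_le_mul M
    have hM1' : (M : ℝ) ≤ 100 * N := by exact_mod_cast hM1
    have hM0 : (0 : ℝ) < M := by
      have : 0 < M := by omega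
      exact_mod_cast this
    have h2 : Real.log M ≤ (2 * Real.log 100 + 1) * L :=
      (Real.log_le_log hM0 hM1').trans (log_mul_le 100 (by norm_num) N hN)
    have h3 : 0 ≤ Real.log (M : ℝ) := Real.log_nonneg (by
      have : 1 ≤ M := by omega
      exact_mod_cast this)
    calc Real.log (M ! : ℝ) ≤ M * Real.log M := h1
      _ ≤ (100 * N) * ((2 * Real.log 100 + 1) * L) := mul_le_mul hM1' h2 h3 (by positivity)
      _ = _ := by ring
  have hmul := mul_le_mul (mul_le_mul (mul_le_mul (mul_le_mul (mul_le_mul (mul_le_mul p0 p1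
    (hpos _) (by positivity)) p2 (hpos _) (by positivity)) p3 (hpos _) (by positivity)) p4
    (hpos _) (by positivity)) p5 (hpos _) (by positivity)) p6 (hpos _) (by positivity)
  rw [← hsplit f] at hmul
  have hmul2 := mul_le_mul hfM hmul (hpos _) (by positivity)
  refine hmul2.trans (le_of_eq ?_)
  rw [hsplit (fun j => (j ! : ℝ) ^ 2)]
  have e5 : ∀ (P0 P1 P2 P3 P4 P5 P6 a0 a1 a2 a3 a4 a5 a6 a7 : ℝ),
      Real.exp a7 * (P0 * Real.exp a0 * (P1 * Real.exp a1) * (P2 * Real.exp a2) *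
        (P3 * Real.exp a3) * (P4 * Real.exp a4) * (P5 * Real.exp a5) * (P6 * Real.exp a6)) =
      P0 * P1 * P2 * P3 * P4 * P5 * P6 *
        Real.exp (a7 + a0 + a1 + a2 + a3 + a4 + a5 + a6) := by
    intro P0 P1 P2 P3 P4 P5 P6 a0 a1 a2 a3 a4 a5 a6 a7
    simp only [Real.exp_add]
    ring
  rw [e5]
  congr 2
  ring


end Pool.Agent.Z3D
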