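import Pool.Agent.Z3D.Hup
import Pool.Agent.Z3D.Exponent
import Pool.Agent.Z3D.Dom
import Pool.Agent.Z3D.AsideB
import Pool.Agent.Z3D.RowsLog
import Pool.Agent.Z3D.ArithI3

/-!
# Irrationality exponent of zeta(3), final assembly
-/

open Finset Polynomial Filter Topology
open scoped Nat

namespace Pool.Agent.Z3D

open Pool.Agent.Z3 (zeta3 Ker)
open Pool.Agent.Z23 (cA)
open Pool.Agent.D23 (Pm hn wt ln)

/-- the domination constant in the normalisation of `rows_total` -/
theorem beta_num (N : ℕ) (hN : 1 ≤ N) :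
    betaZ (20 * N) * (Real.pi * ((160 * N + 1)! : ℝ) / 4 ^ (80 * N + 1)) ≤
      (4800000000000 * Real.pi) * (N : ℝ) ^ 4 * Real.exp (-592.98 * N) := by
  have h := betaZ_fact (20 * N) (by omega) ⟨10 * N, by ring⟩
  have e1 : 8 * (20 * N) + 1 = 160 * N + 1 := by ring
  have e2 : 4 * (20 * N) = 80 * N := by ring
  rw [e1, e2] at h
  push_cast at h
  have e3 : Real.exp (-29.649 * (20 * (N : ℝ))) = Real.exp (-592.98 * N) := by
    congr 1
    ring
  rw [e3] at h
  have hpi := Real.pi_pos
  have h4 : (0 : ℝ) < 4 ^ (80 * N) := by positivity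
  calc betaZ (20 * N) * (Real.pi * ((160 * N + 1)! : ℝ) / 4 ^ (80 * N + 1))
      = (betaZ (20 * N) * ((160 * N + 1)! : ℝ)) * (Real.pi / (4 * 4 ^ (80 * N))) := by
        rw [pow_succ]
        ring
    _ ≤ (30000000 * (20 * (N : ℝ)) ^ 4 * Real.exp (-592.98 * N) * 4 ^ (80 * N)) *
          (Real.pi / (4 * 4 ^ (80 * N))) := by
        gcongr
    _ ≤ (4800000000000 * Real.pi) * (N : ℝ) ^ 4 * Real.exp (-592.98 * N) := by
        have e4 : (30000000 * (20 * (N : ℝ)) ^ 4 * Real.exp (-592.98 * N) * 4 ^ (80 * N)) *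
          (Real.pi / (4 * 4 ^ (80 * N))) =
          (1200000000000 * Real.pi) * (N : ℝ) ^ 4 * Real.exp (-592.98 * N) := by
          field_simp
          ring
        rw [e4]
        gcongr
        norm_num

/-- **The irrationality exponent of `ζ(3)` is at most `4.743`.** -/
theorem zeta3_exponent :
    ∀ᶠ q : ℕ in atTop, ∀ a : ℤ,
      1 / (q : ℝ) ^ (4.743 : ℝ) < |zeta3 - (a : ℝ) / (q : ℝ)| := by
  obtain ⟨C, hC, hrows⟩ := rows_total (4800000000000 * Real.pi) (by positivity) 4
  refine final_of (T := 1630) (D := 66.47) (G := 60958.72) (by norm_num) 20 (by norm_num) ?_ ?_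
    (by norm_num) (by norm_num)
  · intro e he
    have h := arith3 he
    filter_upwards [h] with n hn M h1 h2 a b h3
    have h4 := hn M h1 h2 a b h3
    have e1 : (6647 / 100 + e : ℝ) = 66.47 + e := by norm_num
    rw [e1] at h4
    exact h4
  · refine hup_of (H := 60958.72) (T := 1630) (c := C) 20 (by norm_num) rrB
      (fun N => betaZ (20 * N)) (fun N => 196 * ((20 * N : ℕ) : ℝ) ^ 2 * 1.046) AAB
      (fun N j => rrB_le N j)
      (fun N hN => betaZ_pos (20 * N) (by omega) ⟨10 * N, by ring⟩)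
      (fun N hN => by
        have : (1 : ℝ) ≤ N := by exact_mod_cast hN
        positivity)
      (fun N j => rrB_le_n N j) ?_ ?_ ?_
    · intro N hN k hk y
      exact dom_link (20 * N) (by omega) ⟨10 * N, by ring⟩ k hk y
    · intro N hN j _
      exact aside20 (gB N j) (gB_mem N j) N j hN
    · intro N M hN hM1 hM2 ε hε0 hε1
      have h := hrows N M hN (by omega) (by omega) (betaZ (20 * N)) ε
        (betaZ_pos (20 * N) (by omega) ⟨10 * N, by ring⟩) (beta_num N hN) hε0 hε1
      exact h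

end Pool.Agent.Z3D
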