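import Pool.Agent.Z3D.Hup
import Pool.Agent.Z3D.Exponent
import Pool.Agent.Z3D.Dom
import Pool.Agent.Z3D.AsideB
import Pool.Agent.Z3D.RowsLog
import Pool.Agent.Z3D.ArithI3

/-!
The irrationality exponent of zeta(3) by determinants.
-/

open Filter Topology Finset Polynomial
open scoped Nat

namespace Pool.Agent.Z3D

open Pool.Agent.Z3 (zeta3)

/-- upper bound of the determinants for good approximations -/
theorem upper : ∀ e : ℝ, 0 < e → ∀ᶠ N : ℕ in atTop, ∀ M : ℕ, 5 * (20 * N) ≤ M + 3 →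
    M ≤ 5 * (20 * N) → ∀ a b : ℤ, b ≠ 0 → |(a : ℝ) / b - zeta3| ≤ Real.exp (-(1630 * N)) →
    |(Dlt (20 * N) a b M : ℝ)| ≤ |(b : ℝ)| ^ M *
      Real.exp (-(60958.72 - e) * (N : ℝ) ^ 2) := by
  obtain ⟨C, _, hC⟩ := rows_total (Real.pi * (30000000 * 20 ^ 4)) (by positivity) 4
  refine hup_of (T := 1630) (c := C) 20 (by norm_num) rrB (fun N => betaZ (20 * N))
    (fun N => 196 * ((20 * N : ℕ) : ℝ) ^ 2 * 1.046) AAB rrB_le ?_ ?_ rrB_le_n ?_ ?_ ?_
  · intro N hN
    exact betaZ_pos _ (by omega) ⟨10 * N, by ring⟩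
  · intro N hN
    have : (0 : ℝ) < ((20 * N : ℕ) : ℝ) := by exact_mod_cast (by omega : 0 < 20 * N)
    positivity
  · intro N hN k hk y
    exact dom_link (20 * N) (by omega) ⟨10 * N, by ring⟩ k hk y
  · intro N hN j _
    exact aside20 (gB N j) (gB_mem N j) N j hN
  · intro N M hN hM1 hM2 ε hε0 hε
    have h1 := hC N M hN (by omega) (by omega) (betaZ (20 * N)) ε
      (betaZ_pos _ (by omega) ⟨10 * N, by ring⟩) ?_ hε0 hε
    · exact h1
    · have h2 := betaZ_fact (20 * N) (by omega) ⟨10 * N, by ring⟩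
      have e1 : 8 * (20 * N) + 1 = 160 * N + 1 := by ring
      have e2 : 4 * (20 * N) = 80 * N := by ring
      have e3 : Real.exp (-29.649 * ((20 * N : ℕ) : ℝ)) = Real.exp (-592.98 * N) := by
        congr 1
        push_cast
        ring
      rw [e1, e2, e3] at h2
      have hpi := Real.pi_pos
      have h4 : (0 : ℝ) < 4 ^ (80 * N) := by positivity
      rw [← mul_div_assoc, div_le_iff₀ (by positivity)]
      have h5 := mul_le_mul_of_nonneg_left h2 hpi.le
      push_cast at h5 ⊢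
      calc betaZ (20 * N) * (Real.pi * ((160 * N + 1)! : ℝ))
          = Real.pi * (betaZ (20 * N) * ((160 * N + 1)! : ℝ)) := by ring
        _ ≤ Real.pi * (30000000 * (20 * (N : ℝ)) ^ 4 * Real.exp (-592.98 * N) * 4 ^ (80 * N)) := h5
        _ ≤ Real.pi * (30000000 * 20 ^ 4) * (N : ℝ) ^ 4 * Real.exp (-592.98 * N) *
            4 ^ (80 * N + 1) := by
          rw [pow_succ (4 : ℝ) (80 * N)]
          have h6 : 0 ≤ Real.pi * (30000000 * 20 ^ 4) * (N : ℝ) ^ 4 * Real.exp (-592.98 * N) *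
            4 ^ (80 * N) := by positivity
          nlinarith

/-- the irrationality exponent of zeta(3) -/
theorem zeta3_exponent3 : ∀ᶠ q : ℕ in atTop, ∀ p : ℤ,
    1 / (q : ℝ) ^ (4.743 : ℝ) < |zeta3 - (p : ℝ) / (q : ℝ)| :=
  final_of (T := 1630) (D := 6647 / 100) (G := 60958.72) (by norm_num) 20 (by norm_num)
    (fun _ he => arith3 he) upper (by norm_num) (by norm_num)

end Pool.Agent.Z3D
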