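import Pool.Agent.Z3D.RowBound

/-!
# The archimedean input of the final assembly from the product of the row bounds
-/

open Finset Polynomial Filter Topology
open scoped Nat

namespace Pool.Agent.Z3D

open Pool.Agent.Z3 (zeta3 Ker)
open Pool.Agent.Z23 (cA)
open Pool.Agent.D23 (Pm hn wt ln)

/-- `C n log (n + 1)` is eventually below `e n ^ 2` -/
theorem small_log (C e : ℝ) (he : 0 < e) :
    ∀ᶠ n : ℕ in atTop, C * ((n : ℝ) * Real.log ((n : ℝ) + 1)) ≤ e * (n : ℝ) ^ 2 := by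
  have hc : 0 < e / (2 * (|C| + 1)) := by positivity
  have h1 := (Real.isLittleO_log_id_atTop.def hc)
  have h2 : Tendsto (fun n : ℕ => (n : ℝ) + 1) atTop atTop :=
    tendsto_atTop_add_const_right _ _ tendsto_natCast_atTop_atTop
  have h3 := h2.eventually h1
  filter_upwards [h3, eventually_ge_atTop 1] with n hn hn1
  have hn' : (1 : ℝ) ≤ n := by exact_mod_cast hn1
  have hl0 : 0 ≤ Real.log ((n : ℝ) + 1) := Real.log_nonneg (by linarith)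
  simp only [id, Real.norm_eq_abs] at hn
  rw [abs_of_nonneg hl0, abs_of_nonneg (by linarith : (0 : ℝ) ≤ (n : ℝ) + 1)] at hn
  have h5 : Real.log ((n : ℝ) + 1) ≤ e / (2 * (|C| + 1)) * (2 * n) :=
    hn.trans (by gcongr; linarith)
  have h6 : 0 ≤ (n : ℝ) * Real.log ((n : ℝ) + 1) := by positivity
  have h7 : C ≤ |C| + 1 := by linarith [le_abs_self C]
  calc C * ((n : ℝ) * Real.log ((n : ℝ) + 1)) ≤
        (|C| + 1) * ((n : ℝ) * Real.log ((n : ℝ) + 1)) := by gcongr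
    _ ≤ (|C| + 1) * ((n : ℝ) * (e / (2 * (|C| + 1)) * (2 * n))) := by gcongr
    _ = e * (n : ℝ) ^ 2 := by field_simp

/-- **hup.** Parameter `n = s N`; rows with nodes `-16 n` of multiplicity `r N j`. -/
theorem hup_of {H T c : ℝ} (s : ℕ) (hs : 1 ≤ s) (r : ℕ → ℕ → ℕ) (β R : ℕ → ℝ) (A : ℕ → ℕ → ℝ)
    (hr : ∀ N j, r N j ≤ j) (hβ : ∀ N, 1 ≤ N → 0 < β N) (hR : ∀ N, 1 ≤ N → 0 < R N)
    (hrn : ∀ N j, r N j ≤ s * N)
    (hdom : ∀ N, 1 ≤ N → ∀ k : ℕ, k ≤ s * N → ∀ y : ℝ,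
      ‖R2 (K1 (s * N)) (K2 (s * N)) (NN (s * N)) (ln (1 - ((2 * (s * N) : ℕ) : ℤ)) y)‖ * Ker y *
        ‖ln (1 - ((2 * (s * N) : ℕ) : ℤ)) y + ((16 * (s * N) : ℕ) : ℂ)‖ ^ (2 * k) ≤
        β N * R N ^ k * wt (4 * (s * N)) y)
    (hA : ∀ N, 1 ≤ N → ∀ j, j < 5 * (s * N) →
      ∑ k ∈ K1 (s * N), |((2 * cA (NN (s * N)) (K1 (s * N)) (K2 (s * N)) k : ℚ) : ℝ)| *
        ‖(Pm (4 * (s * N)) (1 / 2 - ((2 * (s * N) : ℕ) : ℝ)) (j - r N j) *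
          (X + C ((16 * (s * N) : ℕ) : ℂ)) ^ (r N j)).eval (-(k : ℂ))‖ ^ 2 ≤ A N j)
    (hrows : ∀ N M : ℕ, 1 ≤ N → M ≤ 5 * (s * N) → 5 * (s * N) ≤ M + 3 → ∀ ε : ℝ, 0 ≤ ε →
      ε ≤ Real.exp (-(T * N)) →
      (M ! : ℝ) * ∏ j ∈ range M,
        (β N * R N ^ (r N j) * hn (4 * (s * N)) (j - r N j) + ε * A N j) ≤
        (∏ j ∈ range M, (j ! : ℝ) ^ 2) *
          Real.exp (-H * (N : ℝ) ^ 2 + c * ((N : ℝ) * Real.log ((N : ℝ) + 1)))) :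
    ∀ e : ℝ, 0 < e → ∀ᶠ N : ℕ in atTop, ∀ M : ℕ, 5 * (s * N) ≤ M + 3 → M ≤ 5 * (s * N) →
      ∀ a b : ℤ, b ≠ 0 → |(a : ℝ) / b - zeta3| ≤ Real.exp (-(T * N)) →
      |(Dlt (s * N) a b M : ℝ)| ≤ |(b : ℝ)| ^ M * Real.exp (-(H - e) * (N : ℝ) ^ 2) := by
  intro e he
  filter_upwards [small_log c e he, eventually_ge_atTop 1] with N hN hN1 M hM1 hM2 a b hb hab
  have h1 := Dlt_le (s * N) M (Nat.mul_pos hs hN1) hM2 a b hb (4 * (s * N)) (r N) (hr N) (β N)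
    (fun y => by
      have h3 := hdom N hN1 0 (by omega) y
      rw [mul_zero, pow_zero, mul_one, pow_zero, mul_one] at h3
      exact h3) (fun j => β N * R N ^ (r N j))
    (fun j _ => mul_pos (hβ N hN1) (pow_pos (hR N hN1) _))
    (fun j _ y => hdom N hN1 (r N j) (hrn N j) y) (A N)
    (fun j hj => hA N hN1 j (by omega))
  have h2 := hrows N M hN1 hM2 hM1 |(a : ℝ) / b - zeta3| (abs_nonneg _) hab
  have hP : (0 : ℝ) < ∏ j ∈ range M, (j ! : ℝ) ^ 2 := prod_pos (fun j _ => by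
    have : (0 : ℝ) < (j ! : ℝ) := by exact_mod_cast j.factorial_pos
    positivity)
  have h3 : |((Dlt (s * N) a b M : ℚ) : ℝ)| * ∏ j ∈ range M, (j ! : ℝ) ^ 2 ≤
      |(b : ℝ)| ^ M * ((∏ j ∈ range M, (j ! : ℝ) ^ 2) *
          Real.exp (-H * (N : ℝ) ^ 2 + c * ((N : ℝ) * Real.log ((N : ℝ) + 1)))) :=
    h1.trans (mul_le_mul_of_nonneg_left h2 (by positivity))
  have h4 : |((Dlt (s * N) a b M : ℚ) : ℝ)| ≤
      |(b : ℝ)| ^ M * Real.exp (-H * (N : ℝ) ^ 2 + c * ((N : ℝ) * Real.log ((N : ℝ) + 1))) := by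
    have h5 : |((Dlt (s * N) a b M : ℚ) : ℝ)| * ∏ j ∈ range M, (j ! : ℝ) ^ 2 ≤
        (|(b : ℝ)| ^ M *
          Real.exp (-H * (N : ℝ) ^ 2 + c * ((N : ℝ) * Real.log ((N : ℝ) + 1)))) *
          ∏ j ∈ range M, (j ! : ℝ) ^ 2 := h3.trans (le_of_eq (by ring))
    exact le_of_mul_le_mul_right h5 hP
  refine h4.trans (mul_le_mul_of_nonneg_left (Real.exp_le_exp.mpr ?_) (by positivity))
  linarith

end Pool.Agent.Z3D
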