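import Pool.Agent.Z3D.Inst
import Pool.Agent.Z3D.DblR

/-!
# The refined p-adic rule for the family

Far poles are counted with multiplicity by `rho3`.
-/

open Finset Polynomial

namespace Pool.Agent.Z3D

open Pool.Agent.Z3.TermAux
open Pool.Agent.D23 (ppos pone)
open Pool.Agent.D23.Cell (icnt nrm)

/-- far poles of the class `s` (at least as many as there are), double ones counted twice -/
def rho3 (n p s : ℕ) : ℕ := icnt (6 * n + p) (20 * n) p s + icnt (6 * n + p) (19 * n) p s

/-- the refined cost of a class -/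
def cst3 (n p : ℕ) (lam : ℤ) (s : ℕ) : ℤ :=
  if icnt (8 * n) (20 * n) p s = 0 then 0
  else if icnt (8 * n) (20 * n) p s = 1 ∧ icnt (6 * n + p) (20 * n) p s = 0 ∧ -ee n p ≤ lam then 0
  else ccost (1 - ee n p - ph n p s - lam) -
    max (1 - ee n p - ph n p s - lam - 2 * (rho3 n p s : ℤ)) 0

theorem farN_le (n p s : ℕ) (hp : 0 < p) :
    farN (K1 n) (K2 n) p (6 * n) s ≤ rho3 n p s := by
  unfold farN rho3
  refine Nat.add_le_add ?_ ?_
  · unfold cnt D23.Cell.icnt farS
    refine card_le_card (fun k hk => ?_)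
    rw [mem_filter, mem_filter, mem_K1] at hk
    rw [mem_filter, mem_Ico]
    omega
  · unfold cnt D23.Cell.icnt farS
    refine card_le_card (fun k hk => ?_)
    rw [mem_filter, mem_filter, mem_K2] at hk
    rw [mem_filter, mem_Ico]
    omega

section
variable {p : ℕ} [hp : Fact p.Prime]

/-- **The refined rule.** -/
theorem dlt_lin3 (n M : ℕ) (hpn : 20 * n < p ^ 2) (hM : M ≤ 5 * n) (a b lam : ℤ) :
    padicNorm p (Dlt n a b M) ≤
      (p : ℚ) ^ (lam * M + ∑ s ∈ range p, cst3 n p lam s + nrm M p) := by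
  classical
  set T : Finset ℕ := (range p).filter (fun s => ¬ (icnt (8 * n) (20 * n) p s = 0) ∧
    ¬ (icnt (8 * n) (20 * n) p s = 1 ∧ icnt (6 * n + p) (20 * n) p s = 0 ∧ -ee n p ≤ lam))
    with hT
  have hcls : ∀ k ∈ K1 n, icnt (8 * n) (20 * n) p (k % p) ≠ 0 := by
    intro k hk h0
    have h1 := mem_K1.mp hk
    unfold D23.Cell.icnt at h0
    rw [card_eq_zero, filter_eq_empty_iff] at h0
    exact h0 (mem_Ico.mpr h1) rfl
  have hfar : ∀ k ∈ K1 n, icnt (6 * n + p) (20 * n) p (k % p) = 0 → k < 6 * n + p := by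
    intro k hk h0
    by_contra h2
    have h1 := mem_K1.mp hk
    unfold D23.Cell.icnt at h0
    rw [card_eq_zero, filter_eq_empty_iff] at h0
    exact h0 (mem_Ico.mpr ⟨by omega, h1.2⟩) rfl
  have h1 := det3 (p := p) (K1 n) (K2 n) (ZZ n) (kap n) (ee n p) (norm_kap n (by omega)).le
    (K2_sub n) (fun i hi => by have := mem_K1.mp hi; omega) (6 * n) T
    (fun t ht => mem_range.mp (mem_filter.mp ht).1) (fun s => -1 - ee n p - ph n p s) lam
    (fun k hk hkT => by
      have h2 := hcls k hk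
      have h3 : icnt (8 * n) (20 * n) p (k % p) = 1 ∧
          icnt (6 * n + p) (20 * n) p (k % p) = 0 ∧ -ee n p ≤ lam := by
        by_contra h4
        exact hkT (mem_filter.mpr ⟨mem_range.mpr (Nat.mod_lt _ hp.out.pos), h2, h4⟩)
      have h5 := hfar k hk h3.2.1
      have h6 := mem_K1.mp hk
      refine ⟨by have := hp.out.pos; omega, ?_, h3.2.2⟩
      exact h3.1)
    (fun k hk _ => by
      rw [phi2_eq])
    a b M
  have h8 : ∑ t ∈ T, (ccost (-1 - ee n p - ph n p t + 2 - lam) -
      max (-1 - ee n p - ph n p t + 2 - lam - 2 * (farN (K1 n) (K2 n) p (6 * n) t : ℤ)) 0) ≤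
      ∑ s ∈ range p, cst3 n p lam s := by
    rw [hT, sum_filter]
    refine sum_le_sum (fun s _ => ?_)
    unfold cst3
    by_cases c1 : icnt (8 * n) (20 * n) p s = 0
    · rw [if_pos c1, if_neg (by tauto)]
    · rw [if_neg c1]
      by_cases c2 : icnt (8 * n) (20 * n) p s = 1 ∧ icnt (6 * n + p) (20 * n) p s = 0 ∧
          -ee n p ≤ lam
      · rw [if_pos c2, if_neg (by tauto)]
      · rw [if_neg c2, if_pos (by tauto)]
        have e1 : -1 - ee n p - ph n p s + 2 - lam = 1 - ee n p - ph n p s - lam := by ring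
        rw [e1]
        have h9 : (farN (K1 n) (K2 n) p (6 * n) s : ℤ) ≤ rho3 n p s := by
          exact_mod_cast farN_le n p s hp.out.pos
        have h10 : max (1 - ee n p - ph n p s - lam - 2 * (rho3 n p s : ℤ)) 0 ≤
            max (1 - ee n p - ph n p s - lam - 2 * (farN (K1 n) (K2 n) p (6 * n) s : ℤ)) 0 :=
          max_le_max (by linarith) le_rfl
        linarith
  have h2 := h1.trans (zpow_le_zpow_right₀ (pone (p := p)).le (add_le_add le_rfl h8))
  refine (D23.padicNorm_norm_le p _ M (by omega) _ h2).trans (le_of_eq ?_)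
  congr 1
  unfold D23.Cell.nrm
  ring

end

end Pool.Agent.Z3D
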