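import Pool.Agent.D23.Key

/-!
Hankel determinants of a linear functional satisfying a discrete Pearson equation, in the case where
the recursion loses one degree `D0` (`D0 = -deg R - 1`): the loss is repaired by a second functional
`c` (the residue at infinity), which satisfies the same equation and is zero below `D0`.
-/

open Finset Polynomial

namespace Pool.Agent.Z3D

section Field
variable {F : Type*} [Field F]

/-- **Key lemma with one exceptional degree.** -/
theorem ortho_exc [CharZero F] (Λ c : F[X] →ₗ[F] F) (A B : F[X]) (hA : A.Monic) (hB : B.Monic) {K : ℕ}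
    (hAd : A.natDegree = K) (hBd : B.natDegree = K)
    (hpe : ∀ S : F[X], Λ (S.comp (X + 1) * A) = Λ (S * B))
    (hpc : ∀ S : F[X], c (S.comp (X + 1) * A) = c (S * B))
    (D0 : ℕ) (hAB : A.nextCoeff - B.nextCoeff = (K : F) - ((D0 : F) + 1))
    (hc0 : ∀ i, i < D0 → c (X ^ i) = 0) (hc1 : c (X ^ D0) ≠ 0) {M : ℕ}
    (Q : F[X]) (hQ : Q.Monic) (hQM : Q.natDegree + K ≤ M + 1)
    (ho : ∀ U : F[X], U.degree < M → Λ (Q * U) = 0) (T : F[X]) (hT : c (Q * T) = 0) :
    Λ (Q * T) = 0 := by
  set m := Q.natDegree with hm
  have hcl : ∀ U : F[X], U.degree < (D0 : WithBot ℕ) → c U = 0 := by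
    intro U hU
    have h := ortho_of_pow c 1 D0 (fun i hi => by rw [one_mul]; exact hc0 i hi) U hU
    rwa [one_mul] at h
  -- the induction on the degree
  have key : ∀ N : ℕ, ∀ T : F[X], T.degree < N → c (Q * T) = 0 → Λ (Q * T) = 0 := by
    intro N
    induction N with
    | zero =>
      intro T hT _
      exact ho T (hT.trans_le (by exact_mod_cast Nat.zero_le M))
    | succ N ih =>
      intro T hT hcT
      rcases Nat.lt_or_ge N M with h | h
      · exact ho T (hT.trans_le (by exact_mod_cast h))
      by_cases hex : m + N = D0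
      · -- the exceptional degree
        refine ih T ?_ hcT
        rw [degree_lt_iff_coeff_zero]
        intro k hk
        rcases Nat.lt_or_ge N k with h1 | h1
        · exact (degree_lt_iff_coeff_zero _ _).mp hT k h1
        have hkN : k = N := le_antisymm h1 hk
        subst hkN
        -- `Q T = coeff * X ^ D0 + lower`
        have hdT : T.natDegree ≤ k := by
          rw [natDegree_le_iff_coeff_eq_zero]
          intro j hj
          exact (degree_lt_iff_coeff_zero _ _).mp hT j hj
        have hlow : (Q * T - C (T.coeff k) * X ^ D0).degree < (D0 : WithBot ℕ) := by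
          rw [degree_lt_iff_coeff_zero]
          intro j hj
          rw [coeff_sub, coeff_C_mul, coeff_X_pow]
          rcases Nat.lt_or_ge D0 j with h2 | h2
          · rw [if_neg (by omega), mul_zero, sub_zero]
            refine coeff_eq_zero_of_natDegree_lt ?_
            refine (natDegree_mul_le).trans_lt ?_
            omega
          · have hj2 : j = D0 := le_antisymm h2 hj
            rw [hj2, if_pos rfl, mul_one, ← hex]
            have h3 := coeff_mul_add_eq_of_natDegree_le (f := Q) (g := T) (df := m) (dg := k)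
              (le_of_eq hm.symm) hdT
            rw [h3, hm, hQ.coeff_natDegree, one_mul, sub_self]
        have h3 := hcl _ hlow
        rw [map_sub, hcT, zero_sub, neg_eq_zero, ← smul_eq_C_mul, map_smul, smul_eq_mul] at h3
        rcases mul_eq_zero.mp h3 with h4 | h4
        · exact h4
        · exact absurd h4 hc1
      -- `u = N - (m + K - 1)`
      obtain ⟨u, hu⟩ : ∃ u, N + 1 = m + u + K := ⟨N + 1 - m - K, by omega⟩
      have hX1 : (X + 1 : F[X]) = X + C 1 := by rw [C_1]
      have hXm : (X - 1 : F[X]) = X + C (-1) := by rw [C_neg, C_1, sub_eq_add_neg]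
      set P1 : F[X] := (Q.comp (X + 1) * (X + 1) ^ u) * A with hP1
      set P2 : F[X] := (Q.comp (X - 1) * X ^ u) * B with hP2
      have hQ1 : (Q.comp (X + 1)).Monic := by
        rw [hX1]; exact hQ.comp_X_add_C 1
      have hQ2 : (Q.comp (X - 1)).Monic := by
        rw [hXm]; exact hQ.comp_X_add_C (-1)
      have hX1m : ((X + 1 : F[X]) ^ u).Monic := by
        rw [hX1]; exact (monic_X_add_C 1).pow u
      have hXum : ((X : F[X]) ^ u).Monic := monic_X_pow u
      have hm1 : P1.Monic := (hQ1.mul hX1m).mul hA
      have hm2 : P2.Monic := (hQ2.mul hXum).mul hB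
      have hd1 : P1.natDegree = N + 1 := by
        rw [hP1, (hQ1.mul hX1m).natDegree_mul hA, hQ1.natDegree_mul hX1m, hX1,
          (monic_X_add_C (1 : F)).natDegree_pow, natDegree_comp, natDegree_X_add_C, hAd]
        omega
      have hd2 : P2.natDegree = N + 1 := by
        rw [hP2, (hQ2.mul hXum).natDegree_mul hB, hQ2.natDegree_mul hXum, hXm,
          natDegree_X_pow, natDegree_comp, natDegree_X_add_C, hBd]
        omega
      have hn1 : P1.nextCoeff = Q.nextCoeff + m + u + A.nextCoeff := by
        rw [hP1, (hQ1.mul hX1m).nextCoeff_mul hA, hQ1.nextCoeff_mul hX1m, hX1,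
          (monic_X_add_C (1 : F)).nextCoeff_pow, nextCoeff_X_add_C, D23.nextCoeff_comp Q hQ]
        simp [hm]
      have hn2 : P2.nextCoeff = Q.nextCoeff - m + B.nextCoeff := by
        have hxu : ((X : F[X]) ^ u).nextCoeff = 0 := by
          have := (monic_X (R := F)).nextCoeff_pow u
          rw [this]
          have hx : (X : F[X]).nextCoeff = 0 := by
            have := nextCoeff_X_add_C (0 : F)
            rwa [C_0, add_zero] at this
          rw [hx, smul_zero]
        rw [hP2, (hQ2.mul hXum).nextCoeff_mul hB, hQ2.nextCoeff_mul hXum, hXm,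
          D23.nextCoeff_comp Q hQ, hxu]
        simp [hm]
        ring
      obtain ⟨hdeg, hco⟩ := D23.sub_monic P1 P2 hm1 hm2 hd1 hd2
      set δ : F := (P1 - P2).coeff N with hδ
      have hδ0 : δ ≠ 0 := by
        rw [hco, hn1, hn2]
        have e1 : Q.nextCoeff + m + u + A.nextCoeff - (Q.nextCoeff - m + B.nextCoeff) =
            ((m : F) + m + u + K) - ((D0 : F) + 1) := by
          linear_combination hAB
        rw [e1]
        have e2 : ((m : F) + m + u + K) = ((m + N + 1 : ℕ) : F) := by
          have : m + N + 1 = m + m + u + K := by omega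
          rw [this]
          push_cast
          ring
        rw [e2, sub_ne_zero]
        have : m + N + 1 ≠ D0 + 1 := by omega
        exact_mod_cast this
      -- the functionals vanish on `Q * (P1 - P2)`
      have h2 : (Q * Q.comp (X - 1) * X ^ u).comp (X + 1) * A = Q * P1 := by
        rw [mul_comp, mul_comp, comp_assoc, hP1]
        simp only [sub_comp, X_comp, one_comp, pow_comp, add_sub_cancel_right, comp_X]
        ring
      have h3 : Q * Q.comp (X - 1) * X ^ u * B = Q * P2 := by
        rw [hP2]; ring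
      have hz : Λ (Q * (P1 - P2)) = 0 := by
        have h1 := hpe (Q * Q.comp (X - 1) * X ^ u)
        rw [h2, h3] at h1
        rw [mul_sub, map_sub, h1, sub_self]
      have hzc : c (Q * (P1 - P2)) = 0 := by
        have h1 := hpc (Q * Q.comp (X - 1) * X ^ u)
        rw [h2, h3] at h1
        rw [mul_sub, map_sub, h1, sub_self]
      -- subtract
      set W : F[X] := T - C (T.coeff N / δ) * (P1 - P2) with hW
      have hWd : W.degree < (N : WithBot ℕ) := by
        rw [degree_lt_iff_coeff_zero]
        intro k hk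
        rw [hW, coeff_sub, coeff_C_mul]
        rcases Nat.lt_or_ge N k with h | h
        · have h4 : T.coeff k = 0 := (degree_lt_iff_coeff_zero _ _).mp hT k h
          have h5 : (P1 - P2).coeff k = 0 := (degree_lt_iff_coeff_zero _ _).mp hdeg k h
          rw [h4, h5]; simp
        · have hk2 : k = N := le_antisymm h hk
          subst hk2
          rw [← hδ, div_mul_cancel₀ _ hδ0, sub_self]
      have hTW : Q * T = Q * W + (T.coeff N / δ) • (Q * (P1 - P2)) := by
        rw [hW, smul_eq_C_mul]; ring
      have hcW : c (Q * W) = 0 := by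
        have h4 := hcT
        rw [hTW, map_add, map_smul, hzc, smul_zero, add_zero] at h4
        exact h4
      rw [hTW, map_add, map_smul, hz, smul_zero, add_zero]
      exact ih W hWd hcW
  exact key (T.natDegree + 1) T
    (degree_le_natDegree.trans_lt (by exact_mod_cast Nat.lt_succ_self _)) hT

/-- **One of `K - 1` consecutive Hankel determinants is nonzero**, exceptional version. -/
theorem window_exc [CharZero F] (Λ c : F[X] →ₗ[F] F) (A B : F[X]) (hA : A.Monic) (hB : B.Monic) {K : ℕ}
    (hAd : A.natDegree = K) (hBd : B.natDegree = K)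
    (hpe : ∀ S : F[X], Λ (S.comp (X + 1) * A) = Λ (S * B))
    (hpc : ∀ S : F[X], c (S.comp (X + 1) * A) = c (S * B))
    (D0 : ℕ) (hAB : A.nextCoeff - B.nextCoeff = (K : F) - ((D0 : F) + 1))
    (hc0 : ∀ i, i < D0 → c (X ^ i) = 0) (hc1 : c (X ^ D0) ≠ 0) (M : ℕ)
    (hpos : ∀ Q : F[X], Q.Monic → ∃ T : F[X], c (Q * T) = 0 ∧ Λ (Q * T) ≠ 0) :
    ∃ j, M + 1 < j + K ∧ j ≤ M ∧ (gram Λ (fun i => X ^ i) j).det ≠ 0 := by
  classical
  by_contra hcon
  push Not at hcon
  have hM : ∀ j, M + 1 < j + K → j ≤ M → ¬ ND Λ j := fun j h1 h2 h3 =>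
    det_ne_zero_of_ND Λ h3 (hcon j h1 h2)
  set r := Nat.findGreatest (ND Λ) M with hr
  have hND : ND Λ r := Nat.findGreatest_spec (P := ND Λ) (Nat.zero_le M) (ND_zero Λ)
  have hrM : r ≤ M := Nat.findGreatest_le M
  have hrK : r + K ≤ M + 1 := by
    by_contra h
    exact hM r (by omega) hrM hND
  obtain ⟨P, hP, hd, ho⟩ := long_ortho Λ hND
    (fun j h1 h2 => Nat.findGreatest_is_greatest h1 h2)
  rw [max_eq_right hrM] at ho
  have ho2 : ∀ U : F[X], U.degree < M → Λ (P * U) = 0 := ortho_of_pow Λ P M ho
  obtain ⟨T, hT1, hT2⟩ := hpos P hP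
  exact hT2 (ortho_exc Λ c A B hA hB hAd hBd hpe hpc D0 hAB hc0 hc1 P hP (by omega) ho2 T hT1)

/-! ### the residue at infinity -/

/-- coefficient of `1/t` at infinity of `P N / D` -/
noncomputable def cinf (N D : F[X]) : F[X] →ₗ[F] F where
  toFun P := ((P * N) %ₘ D).coeff (D.natDegree - 1)
  map_add' P Q := by rw [add_mul, add_modByMonic, coeff_add]
  map_smul' b P := by
    rw [RingHom.id_apply, smul_mul_assoc, smul_modByMonic, coeff_smul]

theorem cinf_apply (N D P : F[X]) :
    cinf N D P = ((P * N) %ₘ D).coeff (D.natDegree - 1) := rfl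

theorem cinf_den (N D : F[X]) (hD : D.Monic) (P : F[X]) : cinf N D (D * P) = 0 := by
  rw [cinf_apply, mul_assoc, (modByMonic_eq_zero_iff_dvd hD).mpr (Dvd.intro _ rfl), coeff_zero]

theorem cinf_low (N D : F[X]) (hD : D.Monic) (i : ℕ) (hi : i + N.natDegree + 1 < D.natDegree) :
    cinf N D (X ^ i) = 0 := by
  have h1 : (X ^ i * N).natDegree ≤ i + N.natDegree := by
    refine natDegree_mul_le.trans ?_
    rw [natDegree_X_pow]
  rw [cinf_apply, (modByMonic_eq_self_iff hD).mpr]
  · exact coeff_eq_zero_of_natDegree_lt (by omega)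
  · exact degree_lt_degree (by omega)

theorem cinf_top (N D : F[X]) (hD : D.Monic) (hN : N ≠ 0) (i : ℕ)
    (hi : i + N.natDegree + 1 = D.natDegree) : cinf N D (X ^ i) ≠ 0 := by
  have h1 : (X ^ i * N).natDegree ≤ i + N.natDegree := by
    refine natDegree_mul_le.trans ?_
    rw [natDegree_X_pow]
  rw [cinf_apply, (modByMonic_eq_self_iff hD).mpr]
  · have h2 : D.natDegree - 1 = N.natDegree + i := by omega
    rw [h2, mul_comm, coeff_mul_X_pow]
    exact leadingCoeff_ne_zero.mpr hN
  · exact degree_lt_degree (by omega)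

/-- Pearson equation for the residue at infinity -/
theorem cinf_pearson (N D A B : F[X]) (hD : D.Monic) (hD1 : 1 ≤ D.natDegree)
    (hsh : D.comp (X + 1) * A * N = N.comp (X + 1) * B.comp (X + 1) * D) (S : F[X]) :
    cinf N D (S.comp (X + 1) * A) = cinf N D (S * B) := by
  set d := D.natDegree with hd
  set Z := S * B * N with hZ
  set P0 := Z /ₘ D with hP0
  set U := Z %ₘ D with hU
  have hdiv : U + D * P0 = Z := modByMonic_add_div Z D
  have hX1 : (X + 1 : F[X]) = X + C 1 := by rw [C_1]
  have hD' : (D.comp (X + 1)).Monic := by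
    rw [hX1]; exact hD.comp_X_add_C 1
  have hDd : (D.comp (X + 1)).natDegree = d := by
    rw [hX1, natDegree_comp, natDegree_X_add_C, mul_one]
  have hDne : D ≠ 1 := by
    intro h
    rw [h, natDegree_one] at hd
    omega
  have hUd : U.natDegree < d := natDegree_modByMonic_lt Z hD hDne
  set V := S.comp (X + 1) * A * N - P0.comp (X + 1) * D with hV
  have hVe : D.comp (X + 1) * V = U.comp (X + 1) * D := by
    have h1 : D.comp (X + 1) * (S.comp (X + 1) * A * N) = Z.comp (X + 1) * D := by
      rw [hZ, mul_comp, mul_comp]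
      linear_combination (S.comp (X + 1)) * hsh
    rw [hV, mul_sub, h1, ← hdiv, add_comp, mul_comp]
    ring
  have hUc : (U.comp (X + 1)).natDegree < d := by
    rw [hX1, natDegree_comp, natDegree_X_add_C, mul_one]
    exact hUd
  have hVd : V.degree < D.degree := by
    rw [degree_eq_natDegree hD.ne_zero]
    by_cases hV0 : V = 0
    · rw [hV0, degree_zero]
      exact WithBot.bot_lt_coe _
    rw [← natDegree_lt_iff_degree_lt hV0]
    have h1 := congrArg natDegree hVe
    rw [natDegree_mul hD'.ne_zero hV0, hDd] at h1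
    have h2 : (U.comp (X + 1) * D).natDegree ≤ (U.comp (X + 1)).natDegree + d := natDegree_mul_le
    omega
  have hVm : (S.comp (X + 1) * A * N) %ₘ D = V := by
    have h1 : S.comp (X + 1) * A * N = V + D * P0.comp (X + 1) := by rw [hV]; ring
    have h2 := (div_modByMonic_unique (P0.comp (X + 1)) V hD ⟨h1.symm, hVd⟩).2
    exact h2
  rw [cinf_apply, cinf_apply, hVm, ← hZ, ← hU, ← hd]
  -- compare the coefficients of degree `2 d - 1`
  have hVn : V.natDegree ≤ d - 1 := by
    by_cases hV0 : V = 0
    · rw [hV0, natDegree_zero]; exact Nat.zero_le _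
    · have := (natDegree_lt_iff_degree_lt hV0).mpr (by
        rw [degree_eq_natDegree hD.ne_zero] at hVd
        exact hVd)
      omega
  have e1 := coeff_mul_add_eq_of_natDegree_le (f := D.comp (X + 1)) (g := V) (df := d)
    (dg := d - 1) (le_of_eq hDd) hVn
  have e2 := coeff_mul_add_eq_of_natDegree_le (f := D) (g := U.comp (X + 1)) (df := d)
    (dg := d - 1) (le_of_eq hd.symm) (by omega)
  have c1 : (D.comp (X + 1)).coeff d = 1 := by
    rw [← hDd]; exact hD'.coeff_natDegree
  have c2 : D.coeff d = 1 := hD.coeff_natDegree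
  rw [c1, one_mul] at e1
  rw [c2, one_mul] at e2
  rw [← e1, hVe, mul_comm, e2]
  -- the coefficient of degree `d - 1` of a shifted polynomial of degree at most `d - 1`
  have hUn : U.natDegree ≤ d - 1 := by omega
  rw [hX1, ← taylor_apply, taylor_coeff]
  have h2 : (hasseDeriv (d - 1) U).natDegree ≤ 0 := by
    refine (natDegree_hasseDeriv_le U (d - 1)).trans ?_
    omega
  rw [eq_C_of_natDegree_le_zero h2, eval_C, hasseDeriv_coeff, zero_add, Nat.choose_self,
    Nat.cast_one, one_mul]

end Field

end Pool.Agent.Z3D
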