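import Pool.Agent.Z3D.Dbl
import Pool.Agent.D23.ArchNode

/-!
# The determinants of `Lab` and the row bounds

`a qL - b pL = b ((qL zeta(3) - pL) + (a/b - zeta(3)) qL)`: the first part is a line integral, the
second one a finite sum of evaluations at the poles.
-/

open MeasureTheory Polynomial Finset

namespace Pool.Agent.Z3D

open Pool.Agent.Z3 (zeta3 Ker)
open Pool.Agent.Z23 (cA cB dK lK)
open Pool.Agent.D23 (ln Pm hn wt)

theorem abs_ratC (q : ℚ) : |(q : ℝ)| = ‖(q : ℂ)‖ := by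
  rw [← Real.norm_eq_abs, ← Complex.norm_real, Complex.ofReal_ratCast]

theorem abs_intC (q : ℤ) : |(q : ℝ)| = ‖(q : ℂ)‖ := by
  rw [← Real.norm_eq_abs, ← Complex.norm_real, Complex.ofReal_intCast]

theorem ln_eq (u : ℕ) (y : ℝ) :
    ln (1 - (u : ℤ)) y = (((1 / 2 - (u : ℝ) : ℝ)) : ℂ) + y * Complex.I := by
  unfold ln
  push_cast
  ring

theorem cA_pow (K1 K2 : Finset ℕ) (N : ℚ[X]) (n k : ℕ) :
    cA (X ^ n * N) K1 K2 k = cA N K1 K2 k * (-(k : ℚ)) ^ n := by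
  unfold cA
  split_ifs
  · rw [eval_mul, eval_pow, eval_X]
    ring
  · ring

theorem qL_pow (K1 K2 : Finset ℕ) (N : ℚ[X]) (n : ℕ) :
    qL K1 K2 N (X ^ n) = ∑ k ∈ K1, (2 * cA N K1 K2 k) * (-(k : ℚ)) ^ n := by
  rw [qL_apply, mul_sum]
  refine sum_congr rfl (fun k _ => ?_)
  rw [cA_pow]
  ring

theorem R2_meas (K1 K2 : Finset ℕ) (N : ℚ[X]) (m : ℤ) :
    Measurable (fun y : ℝ => R2 K1 K2 N (ln m y)) := by
  have hl : Continuous (fun y : ℝ => ln m y) := by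
    unfold ln
    fun_prop
  unfold R2
  refine Measurable.div ?_ ?_
  · have h : (fun y : ℝ => aeval (ln m y) N) =
        fun y : ℝ => (N.map (algebraMap ℚ ℂ)).eval (ln m y) := by
      funext y
      rw [aeval_def, eval_map]
    rw [h]
    exact ((N.map (algebraMap ℚ ℂ)).continuous.comp hl).measurable
  · refine Continuous.measurable ?_
    exact (continuous_finsetProd _ (fun i _ => hl.add continuous_const)).mul
      (continuous_finsetProd _ (fun i _ => hl.add continuous_const))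

theorem F_meas (K1 K2 : Finset ℕ) (N : ℚ[X]) (m : ℤ) :
    AEStronglyMeasurable (fun y : ℝ => R2 K1 K2 N (ln m y) * (Ker y : ℂ)) volume :=
  ((R2_meas K1 K2 N m).mul
    (Complex.continuous_ofReal.comp Z3.continuous_Ker).measurable).aestronglyMeasurable

/-- one entry -/
theorem Lab_entry (K1 K2 : Finset ℕ) (hK : K2 ⊆ K1) (u v : ℕ) (huv : u ≤ v)
    (hv : ∀ k ∈ K1, v ≤ k) (N : ℚ[X]) (n : ℕ) (hd : n + N.natDegree + 2 ≤ K1.card + K2.card)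
    (h2 : ∀ i, u ≤ i → i < v → (X + C (i : ℚ)) ^ 2 ∣ N) (a b : ℤ) (hb : b ≠ 0) :
    ((Lab K1 K2 v N a b (X ^ n) : ℚ) : ℂ) =
      (b : ℂ) * ((∫ y : ℝ, ((((1 / 2 - (u : ℝ) : ℝ)) : ℂ) + y * Complex.I) ^ n *
        (R2 K1 K2 N (ln (1 - (u : ℤ)) y) * (Ker y : ℂ))) +
        ((a : ℂ) / b - (zeta3 : ℂ)) *
          ∑ k ∈ K1, ((2 * cA N K1 K2 k : ℚ) : ℂ) * (-(k : ℂ)) ^ n) := by
  have hdeg : (X ^ n * N).natDegree + 2 ≤ K1.card + K2.card := by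
    have h3 : (X ^ n * N).natDegree ≤ n + N.natDegree :=
      natDegree_mul_le.trans (by rw [natDegree_X_pow])
    omega
  have h1 := form2_line K1 K2 hK u v huv hv N (X ^ n) hdeg h2
  simp only [map_pow, aeval_X] at h1
  have h3 : (∫ y : ℝ, ((((1 / 2 - (u : ℝ) : ℝ)) : ℂ) + y * Complex.I) ^ n *
        (R2 K1 K2 N (ln (1 - (u : ℤ)) y) * (Ker y : ℂ))) =
      ∫ y : ℝ, (ln (1 - (u : ℤ)) y) ^ n *
        (R2 K1 K2 N (ln (1 - (u : ℤ)) y) * (Ker y : ℂ)) := by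
    congr 1
    funext y
    rw [ln_eq]
  rw [h3, ← h1]
  have h4 : ((qL K1 K2 N (X ^ n) : ℚ) : ℂ) =
      ∑ k ∈ K1, ((2 * cA N K1 K2 k : ℚ) : ℂ) * (-(k : ℂ)) ^ n := by
    rw [qL_pow]
    push_cast
    rfl
  rw [← h4, Lab_apply]
  have hb' : (b : ℂ) ≠ 0 := by exact_mod_cast hb
  push_cast
  field_simp
  ring

/-- the determinant as `b ^ M` times a determinant of moments plus a finite sum -/
theorem det_Lab_eq (K1 K2 : Finset ℕ) (hK : K2 ⊆ K1) (u v : ℕ) (huv : u ≤ v)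
    (hv : ∀ k ∈ K1, v ≤ k) (N : ℚ[X]) (M : ℕ)
    (hd : 2 * M + N.natDegree ≤ K1.card + K2.card)
    (h2 : ∀ i, u ≤ i → i < v → (X + C (i : ℚ)) ^ 2 ∣ N) (a b : ℤ) (hb : b ≠ 0) :
    (((gram (Lab K1 K2 v N a b) (fun i => X ^ i) M).det : ℚ) : ℂ) =
      (b : ℂ) ^ M * (Matrix.of fun i j : Fin M =>
        (∫ y : ℝ, ((((1 / 2 - (u : ℝ) : ℝ)) : ℂ) + y * Complex.I) ^ ((i : ℕ) + (j : ℕ)) *
          (R2 K1 K2 N (ln (1 - (u : ℤ)) y) * (Ker y : ℂ))) +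
        ((a : ℂ) / b - (zeta3 : ℂ)) *
          ∑ k ∈ K1, ((2 * cA N K1 K2 k : ℚ) : ℂ) * (-(k : ℂ)) ^ ((i : ℕ) + (j : ℕ))).det := by
  have h1 : (((gram (Lab K1 K2 v N a b) (fun i => X ^ i) M).det : ℚ) : ℂ) =
      ((gram (Lab K1 K2 v N a b) (fun i => X ^ i) M).map (algebraMap ℚ ℂ)).det := by
    rw [← RingHom.mapMatrix_apply, ← RingHom.map_det]
    rfl
  rw [h1]
  have h3 : (b : ℂ) ^ M = (b : ℂ) ^ (Fintype.card (Fin M)) := by rw [Fintype.card_fin]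
  rw [h3, ← Matrix.det_smul]
  congr 1
  ext i j
  have hi := i.2
  have hj := j.2
  have h4 := Lab_entry K1 K2 hK u v huv hv N ((i : ℕ) + j) (by omega) h2 a b hb
  rw [Matrix.map_apply, Matrix.smul_apply, Matrix.of_apply, smul_eq_mul, ← h4]
  unfold gram
  simp only [Matrix.of_apply, ← pow_add]
  rfl

/-- **Row bound for the determinants of `Lab`.** -/
theorem det_Lab_le (K1 K2 : Finset ℕ) (hK : K2 ⊆ K1) (u v : ℕ) (huv : u ≤ v)
    (hv : ∀ k ∈ K1, v ≤ k) (N : ℚ[X]) (M : ℕ)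
    (hd : 2 * M + N.natDegree ≤ K1.card + K2.card)
    (h2 : ∀ i, u ≤ i → i < v → (X + C (i : ℚ)) ^ 2 ∣ N) (a b : ℤ) (hb : b ≠ 0)
    (m : ℕ) (Q : ℕ → ℂ[X]) (r : ℕ → ℕ) (hr : ∀ j, r j ≤ j) (hQm : ∀ j, (Q j).Monic)
    (hQd : ∀ j, (Q j).natDegree = r j) (B0 : ℝ)
    (hF0 : ∀ y : ℝ, ‖R2 K1 K2 N (ln (1 - (u : ℤ)) y)‖ * Ker y ≤ B0 * wt m y)
    (B : ℕ → ℝ) (hB : ∀ j < M, 0 < B j)
    (hF : ∀ j < M, ∀ y : ℝ, ‖R2 K1 K2 N (ln (1 - (u : ℤ)) y)‖ * Ker y *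
      ‖(Q j).eval (ln (1 - (u : ℤ)) y)‖ ^ 2 ≤ B j * wt m y)
    (A : ℕ → ℝ)
    (hA : ∀ j < M, ∑ k ∈ K1, |((2 * cA N K1 K2 k : ℚ) : ℝ)| *
      ‖(Pm m (1 / 2 - (u : ℝ)) (j - r j) * Q j).eval (-(k : ℂ))‖ ^ 2 ≤ A j) :
    |(((gram (Lab K1 K2 v N a b) (fun i => X ^ i) M).det : ℚ) : ℝ)| ≤
      |(b : ℝ)| ^ M * ((M.factorial : ℝ) *
        ∏ j ∈ range M, (B j * hn m (j - r j) + |(a : ℝ) / b - zeta3| * A j)) := by
  have hKn : ∀ y : ℝ, ‖(Ker y : ℂ)‖ = Ker y := by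
    intro y
    rw [Complex.norm_real, Real.norm_eq_abs, abs_of_nonneg]
    unfold Ker
    positivity
  have hε : ‖((a : ℂ) / b - (zeta3 : ℂ))‖ = |(a : ℝ) / b - zeta3| := by
    rw [← Real.norm_eq_abs, ← Complex.norm_real]
    push_cast
    rfl
  have h1 := Pool.Agent.D23.arch_det_node m M (1 / 2 - (u : ℝ))
    (fun y : ℝ => R2 K1 K2 N (ln (1 - (u : ℤ)) y) * (Ker y : ℂ)) (F_meas K1 K2 N _) B0
    (fun y => by
      rw [norm_mul, hKn]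
      exact hF0 y) Q r hr hQm hQd B hB
    (fun j hj y => by
      rw [norm_mul, hKn, ← ln_eq]
      exact hF j hj y) K1 (fun k => ((2 * cA N K1 K2 k : ℚ) : ℂ)) (fun k => -(k : ℂ))
    ((a : ℂ) / b - (zeta3 : ℂ)) A
    (fun j hj => by
      refine le_trans (le_of_eq ?_) (hA j hj)
      refine sum_congr rfl (fun k _ => ?_)
      rw [abs_ratC])
  rw [hε] at h1
  rw [abs_ratC, abs_intC, det_Lab_eq K1 K2 hK u v huv hv N M hd h2 a b hb, norm_mul, norm_pow]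
  exact mul_le_mul_of_nonneg_left h1 (by positivity)

end Pool.Agent.Z3D
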