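import Pool.Agent.Z3D.KeyE
import Pool.Agent.Z3D.Dbl
import Pool.Agent.D23.NonvanL

/-!
# Nonvanishing for rational functions with double poles

For integers `a`, `b` with `b ≠ 0` one of `r + 1` consecutive Gram determinants of
`Lab = a qL - b pL` is nonzero (`r` zero blocks, two nested pole blocks).
-/

open Finset Polynomial MeasureTheory

namespace Pool.Agent.Z3D

open Pool.Agent.Z3 (H Iint zeta3 Ker)
open Pool.Agent.Z23 (cA cB dK lK)
open Pool.Agent.D23 (HG HG_poly HG_inv numP blP blP_eval blP_monic blP_comp bl bl_shift bl_factor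
  Lf Lam Lam_apply Lf_mul_shift Lf_comp_add_one Lf_congr W1 hpos_W1_dvd erase_shift isOpen_half ln)

/-! ### the polynomials -/

section
variable {r : ℕ} (z1 z2 : Fin r → ℕ) (p1 p2 q1 q2 : ℕ)

/-- numerator over the complex numbers -/
noncomputable def NC (κ : ℂ) : ℂ[X] := C κ * ∏ b, blP (z1 b) (z2 b)

noncomputable def DC : ℂ[X] := blP p1 p2 * blP q1 q2

noncomputable def AC : ℂ[X] := (∏ b, (X + C (z2 b : ℂ))) * (X + C (p1 : ℂ)) * (X + C (q1 : ℂ))

noncomputable def BC : ℂ[X] :=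
  (∏ b, (X + C ((z1 b : ℂ) - 1))) * (X + C ((p2 : ℂ) - 1)) * (X + C ((q2 : ℂ) - 1))

theorem DC_monic : (DC p1 p2 q1 q2).Monic := (blP_monic _ _).mul (blP_monic _ _)

theorem blP_natDegree (a b : ℕ) : (blP a b).natDegree = b - a := by
  have h : ∀ i ∈ Ico a b, (X + C (i : ℂ)).natDegree = 1 := fun i _ => natDegree_X_add_C _
  unfold blP
  rw [natDegree_prod_of_monic _ _ (fun _ _ => monic_X_add_C _), sum_congr rfl h]
  simp

theorem DC_natDegree : (DC p1 p2 q1 q2).natDegree = (p2 - p1) + (q2 - q1) := by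
  unfold DC
  rw [(blP_monic _ _).natDegree_mul (blP_monic _ _), blP_natDegree, blP_natDegree]

theorem NC_natDegree (κ : ℂ) (hκ : κ ≠ 0) : (NC z1 z2 κ).natDegree = ∑ b, (z2 b - z1 b) := by
  unfold NC
  rw [natDegree_C_mul hκ, natDegree_prod_of_monic _ _ (fun b _ => blP_monic _ _)]
  exact sum_congr rfl (fun b _ => blP_natDegree _ _)

theorem prodX_monic (c : Fin r → ℂ) : (∏ b, (X + C (c b))).Monic :=
  monic_prod_of_monic _ _ (fun i _ => monic_X_add_C _)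

theorem prodX_natDegree (c : Fin r → ℂ) : (∏ b, (X + C (c b))).natDegree = r := by
  rw [natDegree_prod_of_monic _ _ (fun i _ => monic_X_add_C _)]
  simp

theorem prodX_next (c : Fin r → ℂ) : (∏ b, (X + C (c b))).nextCoeff = ∑ b, c b := by
  rw [Monic.nextCoeff_prod _ _ (fun i _ => monic_X_add_C _)]
  simp

theorem three_facts (c : Fin r → ℂ) (x y : ℂ) :
    ((∏ b, (X + C (c b))) * (X + C x) * (X + C y)).Monic ∧
    ((∏ b, (X + C (c b))) * (X + C x) * (X + C y)).natDegree = r + 2 ∧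
    ((∏ b, (X + C (c b))) * (X + C x) * (X + C y)).nextCoeff = ∑ b, c b + x + y := by
  have h1 := prodX_monic c
  have h2 := h1.mul (monic_X_add_C x)
  refine ⟨h2.mul (monic_X_add_C y), ?_, ?_⟩
  · rw [h2.natDegree_mul (monic_X_add_C y), h1.natDegree_mul (monic_X_add_C x), prodX_natDegree,
      natDegree_X_add_C, natDegree_X_add_C]
  · rw [h2.nextCoeff_mul (monic_X_add_C y), h1.nextCoeff_mul (monic_X_add_C x), prodX_next,
      nextCoeff_X_add_C, nextCoeff_X_add_C]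

theorem BC_comp : (BC z1 p2 q2).comp (X + 1) =
    (∏ b, (X + C (z1 b : ℂ))) * (X + C (p2 : ℂ)) * (X + C (q2 : ℂ)) := by
  have e : ∀ x : ℂ, (X + C (x - 1) : ℂ[X]).comp (X + 1) = X + C x := by
    intro x
    rw [add_comp, X_comp, C_comp, C_sub, C_1]
    ring
  unfold BC
  rw [mul_comp, mul_comp, e, e, Polynomial.prod_comp]
  congr 2
  exact prod_congr rfl (fun b _ => e _)

theorem NC_comp (κ : ℂ) (hz : ∀ b, z1 b ≤ z2 b) :
    (NC z1 z2 κ).comp (X + 1) * ∏ b, (X + C (z1 b : ℂ)) = NC z1 z2 κ * ∏ b, (X + C (z2 b : ℂ)) := by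
  unfold NC
  rw [mul_comp, C_comp, Polynomial.prod_comp, mul_assoc, mul_assoc, ← prod_mul_distrib, ← prod_mul_distrib]
  congr 1
  exact prod_congr rfl (fun b _ => blP_comp _ _ (hz b))

/-- the shift identity -/
theorem shift_id (κ : ℂ) (hz : ∀ b, z1 b ≤ z2 b) (hp : p1 ≤ p2) (hq : q1 ≤ q2) :
    (DC p1 p2 q1 q2).comp (X + 1) * AC z2 p1 q1 * NC z1 z2 κ =
      (NC z1 z2 κ).comp (X + 1) * (BC z1 p2 q2).comp (X + 1) * DC p1 p2 q1 q2 := by
  have h1 := blP_comp p1 p2 hp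
  have h2 := blP_comp q1 q2 hq
  have h3 := NC_comp z1 z2 κ hz
  rw [BC_comp]
  unfold DC AC
  rw [mul_comp]
  calc (blP p1 p2).comp (X + 1) * (blP q1 q2).comp (X + 1) *
        ((∏ b, (X + C (z2 b : ℂ))) * (X + C (p1 : ℂ)) * (X + C (q1 : ℂ))) * NC z1 z2 κ
      = ((blP p1 p2).comp (X + 1) * (X + C (p1 : ℂ))) * ((blP q1 q2).comp (X + 1) * (X + C (q1 : ℂ))) *
        (NC z1 z2 κ * ∏ b, (X + C (z2 b : ℂ))) := by ring
    _ = (blP p1 p2 * (X + C (p2 : ℂ))) * (blP q1 q2 * (X + C (q2 : ℂ))) *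
        ((NC z1 z2 κ).comp (X + 1) * ∏ b, (X + C (z1 b : ℂ))) := by rw [h1, h2, h3]
    _ = _ := by ring

/-! ### the coefficient functional -/

/-- complex version of `dK` -/
noncomputable def EC (K : Finset ℕ) (k : ℕ) : ℂ := ∏ i ∈ K.erase k, ((i : ℂ) - k)

theorem EC_ne (K : Finset ℕ) (k : ℕ) : EC K k ≠ 0 := D23.erase_ne_zero K k

theorem EC_cast (K : Finset ℕ) (k : ℕ) : ((dK K k : ℚ) : ℂ) = EC K k := by
  unfold dK EC
  push_cast
  rfl

/-- weight of the double pole at `-k` -/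
noncomputable def wC (N : ℂ[X]) (k : ℕ) : ℂ :=
  if k ∈ Ico q1 q2 then N.eval (-(k : ℂ)) / (EC (Ico p1 p2) k * EC (Ico q1 q2) k) else 0

/-- the coefficient functional -/
noncomputable def qC (N : ℂ[X]) : ℂ[X] →ₗ[ℂ] ℂ where
  toFun P := 2 * ∑ k ∈ Ico p1 p2, P.eval (-(k : ℂ)) * wC p1 p2 q1 q2 N k
  map_add' P Q := by
    rw [← mul_add, ← sum_add_distrib]
    congr 1
    exact sum_congr rfl (fun k _ => by rw [eval_add]; ring)
  map_smul' c P := by
    rw [RingHom.id_apply, smul_eq_mul, mul_left_comm, mul_sum _ _ c]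
    congr 1
    exact sum_congr rfl (fun k _ => by rw [eval_smul, smul_eq_mul]; ring)

theorem qC_apply (N P : ℂ[X]) : qC p1 p2 q1 q2 N P =
    2 * ∑ k ∈ Ico p1 p2, P.eval (-(k : ℂ)) * wC p1 p2 q1 q2 N k := rfl

theorem qC_den (N P : ℂ[X]) : qC p1 p2 q1 q2 N (DC p1 p2 q1 q2 * P) = 0 := by
  rw [qC_apply, sum_eq_zero, mul_zero]
  intro k hk
  rw [mem_Ico] at hk
  unfold DC
  rw [eval_mul, eval_mul, blP_eval, bl_factor p1 p2 k hk.1 hk.2, neg_add_cancel]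
  ring

theorem wC_step (κ : ℂ) (hz : ∀ b, z1 b ≤ z2 b) (h1 : p1 ≤ q1) (h2 : q2 ≤ p2) (k : ℕ) (hk : 1 ≤ k) :
    (AC z2 p1 q1).eval (-(k : ℂ)) * wC p1 p2 q1 q2 (NC z1 z2 κ) k =
      (BC z1 p2 q2).eval (-(k : ℂ) + 1) * wC p1 p2 q1 q2 (NC z1 z2 κ) (k - 1) := by
  obtain ⟨l, rfl⟩ : ∃ l, k = l + 1 := ⟨k - 1, by omega⟩
  rw [Nat.add_sub_cancel]
  have hA : (AC z2 p1 q1).eval (-((l + 1 : ℕ) : ℂ)) =
      (∏ b, ((z2 b : ℂ) - (l + 1))) * ((p1 : ℂ) - (l + 1)) * ((q1 : ℂ) - (l + 1)) := by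
    unfold AC
    rw [eval_mul, eval_mul, eval_prod]
    simp only [eval_add, eval_X, eval_C]
    push_cast
    congr 1
    · congr 1
      · exact prod_congr rfl (fun b _ => by ring)
      · ring
    · ring
  have hB : (BC z1 p2 q2).eval (-((l + 1 : ℕ) : ℂ) + 1) =
      (∏ b, ((z1 b : ℂ) - (l + 1))) * ((p2 : ℂ) - (l + 1)) * ((q2 : ℂ) - (l + 1)) := by
    unfold BC
    rw [eval_mul, eval_mul, eval_prod]
    simp only [eval_add, eval_X, eval_C]
    push_cast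
    congr 1
    · congr 1
      · exact prod_congr rfl (fun b _ => by ring)
      · ring
    · ring
  rw [hA, hB]
  rcases lt_trichotomy (l + 1) q1 with h | h | h
  · have e1 : wC p1 p2 q1 q2 (NC z1 z2 κ) (l + 1) = 0 := by
      unfold wC; rw [if_neg (by rw [mem_Ico]; omega)]
    have e2 : wC p1 p2 q1 q2 (NC z1 z2 κ) l = 0 := by
      unfold wC; rw [if_neg (by rw [mem_Ico]; omega)]
    rw [e1, e2, mul_zero, mul_zero]
  · have e2 : wC p1 p2 q1 q2 (NC z1 z2 κ) l = 0 := by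
      unfold wC; rw [if_neg (by rw [mem_Ico]; omega)]
    rw [e2, ← h]
    push_cast
    ring
  · rcases lt_trichotomy (l + 1) q2 with h' | h' | h'
    · have m1 : l + 1 ∈ Ico q1 q2 := by rw [mem_Ico]; omega
      have m2 : l ∈ Ico q1 q2 := by rw [mem_Ico]; omega
      unfold wC
      rw [if_pos m1, if_pos m2]
      have s1 := erase_shift p1 p2 l (by omega) (by omega)
      have s2 := erase_shift q1 q2 l (by omega) h'
      have s3 := congrArg (fun P : ℂ[X] => P.eval (-((l + 1 : ℕ) : ℂ))) (NC_comp z1 z2 κ hz)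
      simp only [eval_mul, eval_comp, eval_add, eval_X, eval_one, eval_prod, eval_C] at s3
      have e3 : -((l + 1 : ℕ) : ℂ) + 1 = -(l : ℂ) := by push_cast; ring
      rw [e3] at s3
      have e4 : ∏ b, (-((l + 1 : ℕ) : ℂ) + (z1 b : ℂ)) = ∏ b, ((z1 b : ℂ) - (l + 1)) :=
        prod_congr rfl (fun b _ => by push_cast; ring)
      have e5 : ∏ b, (-((l + 1 : ℕ) : ℂ) + (z2 b : ℂ)) = ∏ b, ((z2 b : ℂ) - (l + 1)) :=
        prod_congr rfl (fun b _ => by push_cast; ring)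
      rw [e4, e5] at s3
      change EC (Ico p1 p2) l * ((p1 : ℂ) - (l + 1)) =
        EC (Ico p1 p2) (l + 1) * ((p2 : ℂ) - (l + 1)) at s1
      change EC (Ico q1 q2) l * ((q1 : ℂ) - (l + 1)) =
        EC (Ico q1 q2) (l + 1) * ((q2 : ℂ) - (l + 1)) at s2
      have n1 := EC_ne (Ico p1 p2) l
      have n2 := EC_ne (Ico p1 p2) (l + 1)
      have n3 := EC_ne (Ico q1 q2) l
      have n4 := EC_ne (Ico q1 q2) (l + 1)
      set P2 := ∏ b, ((z2 b : ℂ) - (l + 1)) with hP2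
      set P1 := ∏ b, ((z1 b : ℂ) - (l + 1)) with hP1
      rw [mul_div_assoc', mul_div_assoc', div_eq_div_iff (mul_ne_zero n2 n4) (mul_ne_zero n1 n3)]
      calc P2 * ((p1 : ℂ) - (l + 1)) * ((q1 : ℂ) - (l + 1)) *
            (NC z1 z2 κ).eval (-((l + 1 : ℕ) : ℂ)) * (EC (Ico p1 p2) l * EC (Ico q1 q2) l)
          = ((NC z1 z2 κ).eval (-((l + 1 : ℕ) : ℂ)) * P2) *
            (EC (Ico p1 p2) l * ((p1 : ℂ) - (l + 1))) * (EC (Ico q1 q2) l * ((q1 : ℂ) - (l + 1))) := by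
            ring
        _ = ((NC z1 z2 κ).eval (-(l : ℂ)) * P1) *
            (EC (Ico p1 p2) (l + 1) * ((p2 : ℂ) - (l + 1))) *
            (EC (Ico q1 q2) (l + 1) * ((q2 : ℂ) - (l + 1))) := by rw [← s3, s1, s2]
        _ = _ := by ring
    · have e1 : wC p1 p2 q1 q2 (NC z1 z2 κ) (l + 1) = 0 := by
        unfold wC; rw [if_neg (by rw [mem_Ico]; omega)]
      rw [e1, ← h']
      push_cast
      ring
    · have e1 : wC p1 p2 q1 q2 (NC z1 z2 κ) (l + 1) = 0 := by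
        unfold wC; rw [if_neg (by rw [mem_Ico]; omega)]
      have e2 : wC p1 p2 q1 q2 (NC z1 z2 κ) l = 0 := by
        unfold wC; rw [if_neg (by rw [mem_Ico]; omega)]
      rw [e1, e2, mul_zero, mul_zero]

theorem qC_pearson (κ : ℂ) (hz : ∀ b, z1 b ≤ z2 b) (hp1 : 1 ≤ p1) (h1 : p1 ≤ q1) (h2 : q2 ≤ p2)
    (S : ℂ[X]) : qC p1 p2 q1 q2 (NC z1 z2 κ) (S.comp (X + 1) * AC z2 p1 q1) =
      qC p1 p2 q1 q2 (NC z1 z2 κ) (S * BC z1 p2 q2) := by
  set w := wC p1 p2 q1 q2 (NC z1 z2 κ) with hw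
  set T : ℕ → ℂ := fun k => S.eval (-(k : ℂ) + 1) * (BC z1 p2 q2).eval (-(k : ℂ) + 1) *
    w (k - 1) with hT
  have e1 : ∀ k ∈ Ico p1 p2, (S.comp (X + 1) * AC z2 p1 q1).eval (-(k : ℂ)) * w k -
      (S * BC z1 p2 q2).eval (-(k : ℂ)) * w k = T k - T (k + 1) := by
    intro k hk
    rw [mem_Ico] at hk
    have h := wC_step z1 z2 p1 p2 q1 q2 κ hz h1 h2 k (by omega)
    have e : -((k + 1 : ℕ) : ℂ) + 1 = -(k : ℂ) := by push_cast; ring
    simp only [hT]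
    rw [e, Nat.add_sub_cancel, eval_mul, eval_mul, eval_comp]
    simp only [eval_add, eval_X, eval_one]
    linear_combination (S.eval (-(k : ℂ) + 1)) * h
  rw [qC_apply, qC_apply, ← sub_eq_zero, ← mul_sub, ← sum_sub_distrib, sum_congr rfl e1]
  have h3 : ∀ M : ℕ, ∑ k ∈ range M, (T (p1 + k) - T (p1 + k + 1)) = T p1 - T (p1 + M) := by
    intro M
    induction M with
    | zero => simp
    | succ M ih =>
      rw [sum_range_succ, ih, show p1 + (M + 1) = p1 + M + 1 by ring]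
      ring
  rw [sum_Ico_eq_sum_range, h3]
  have h4 : T p1 = 0 := by
    simp only [hT]
    have : w (p1 - 1) = 0 := by
      rw [hw]; unfold wC
      rw [if_neg (by rw [mem_Ico]; omega)]
    rw [this, mul_zero]
  have h5 : T (p1 + (p2 - p1)) = 0 := by
    by_cases hpp : p1 ≤ p2
    · rw [show p1 + (p2 - p1) = p2 by omega]
      simp only [hT]
      by_cases hq : q2 = p2
      · have : (BC z1 p2 q2).eval (-(p2 : ℂ) + 1) = 0 := by
          unfold BC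
          simp only [eval_mul, eval_add, eval_X, eval_C]
          ring
        rw [this]
        ring
      · have : w (p2 - 1) = 0 := by
          rw [hw]; unfold wC
          rw [if_neg (by rw [mem_Ico]; omega)]
        rw [this, mul_zero]
    · rw [show p1 + (p2 - p1) = p1 by omega]
      exact h4
  rw [h4, h5, sub_zero, mul_zero]

end

/-! ### the functional -/

theorem NC_map {r : ℕ} (z1 z2 : Fin r → ℕ) (κ : ℚ) :
    (C κ * numP (fun b => Ico (z1 b) (z2 b))).map (algebraMap ℚ ℂ) = NC z1 z2 (κ : ℂ) := by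
  unfold numP NC blP
  rw [Polynomial.map_mul, map_C, Polynomial.map_prod]
  congr 1
  refine prod_congr rfl (fun b _ => ?_)
  rw [Polynomial.map_prod]
  refine prod_congr rfl (fun i _ => ?_)
  rw [Polynomial.map_add, map_X, map_C]
  simp

theorem R2_eq (p1 p2 q1 q2 : ℕ) (S : ℚ[X]) (t : ℂ) : R2 (Ico p1 p2) (Ico q1 q2) S t =
    (S.map (algebraMap ℚ ℂ)).eval t / (DC p1 p2 q1 q2).eval t := by
  unfold R2 DC
  rw [eval_mul, blP_eval, blP_eval, aeval_def, eval_map]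
  rfl

theorem qL_cast (p1 p2 q1 q2 : ℕ) (N P : ℚ[X]) :
    ((qL (Ico p1 p2) (Ico q1 q2) N P : ℚ) : ℂ) =
      qC p1 p2 q1 q2 (N.map (algebraMap ℚ ℂ)) (P.map (algebraMap ℚ ℂ)) := by
  rw [qL_apply, qC_apply]
  push_cast
  congr 1
  refine sum_congr rfl (fun k _ => ?_)
  have ev : ∀ S : ℚ[X], (((S.eval (-(k : ℚ)) : ℚ)) : ℂ) =
      (S.map (algebraMap ℚ ℂ)).eval (-(k : ℂ)) := by
    intro S
    rw [show (-(k : ℂ)) = algebraMap ℚ ℂ (-(k : ℚ)) by simp, eval_map_apply]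
    rfl
  unfold cA wC
  split_ifs
  · push_cast
    rw [ev, EC_cast, EC_cast, Polynomial.map_mul, eval_mul]
    ring
  · simp

/-- **Nonvanishing** for functions with double poles: one of `r + 1` consecutive determinants. -/
theorem nonvan_Lab {r : ℕ} (z1 z2 : Fin r → ℕ) (hz : ∀ b, z1 b ≤ z2 b) (p1 p2 q1 q2 : ℕ)
    (h11 : p1 ≤ q1) (h12 : q1 ≤ q2) (h22 : q2 ≤ p2) (κ : ℚ) (hκ : κ ≠ 0) (u v : ℕ) (huv : u < v)
    (hv : v ≤ p1)
    (h2 : ∀ i, u ≤ i → i < v →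
      (X + C (i : ℚ)) ^ 2 ∣ (C κ * numP (fun b => Ico (z1 b) (z2 b)) : ℚ[X]))
    (a b : ℤ) (hb : b ≠ 0) (M : ℕ)
    (hM : 2 * M + ∑ b, (z2 b - z1 b) ≤ (p2 - p1) + (q2 - q1)) :
    ∃ j, M + 1 < j + (r + 2) ∧ j ≤ M ∧
      (gram (Lab (Ico p1 p2) (Ico q1 q2) v (C κ * numP (fun b => Ico (z1 b) (z2 b))) a b)
        (fun i => (X : ℚ[X]) ^ i) j).det ≠ 0 := by
  rcases Nat.eq_zero_or_pos M with hM0 | hM0
  · subst hM0
    refine ⟨0, by omega, le_rfl, ?_⟩
    rw [Matrix.det_fin_zero]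
    exact one_ne_zero
  set Nq : ℚ[X] := C κ * numP (fun b => Ico (z1 b) (z2 b)) with hNq
  set K1 := Ico p1 p2 with hK1
  set K2 := Ico q1 q2 with hK2
  have hK : K2 ⊆ K1 := Ico_subset_Ico h11 h22
  have hκC : (κ : ℂ) ≠ 0 := by exact_mod_cast hκ
  have hNC : Nq.map (algebraMap ℚ ℂ) = NC z1 z2 (κ : ℂ) := NC_map z1 z2 κ
  have ha1 : ∀ k ∈ K1, p1 ≤ k := fun k hk => (mem_Ico.mp hk).1
  have ha2 : ∀ k ∈ K2, p1 ≤ k := fun k hk => h11.trans (mem_Ico.mp hk).1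
  have hv1 : ∀ k ∈ K1, v ≤ k := fun k hk => hv.trans (mem_Ico.mp hk).1
  have hup : (u : ℝ) + 1 ≤ p1 := by
    have : u + 1 ≤ p1 := by omega
    exact_mod_cast this
  -- the line
  set m : ℤ := -(u : ℤ) with hm
  set x0 : ℝ := -(p1 : ℝ) + 1 / 4 with hx0
  have hmx : x0 < (m : ℝ) - 1 / 2 := by
    rw [hm, hx0]
    push_cast
    linarith
  set R : ℂ → ℂ := R2 K1 K2 Nq with hR
  have hHG : HG x0 R := HG_R2 K1 K2 Nq p1 ha1 ha2 x0 (by rw [hx0]; linarith)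
  obtain ⟨Q0, hQ0⟩ := h2 u le_rfl huv
  have hHQ : HG x0 (R2 K1 K2 Q0) := HG_R2 K1 K2 Q0 p1 ha1 ha2 x0 (by rw [hx0]; linarith)
  have hRq : ∀ t : ℂ, x0 < t.re → R t = (t - (m : ℂ)) ^ (0 + 2) * R2 K1 K2 Q0 t := by
    intro t _
    rw [hR, hQ0, R2_mul, hm]
    simp
  set cb : ℕ → ℂ := fun _ => (b : ℂ) with hcb
  set L0 : ℂ[X] →ₗ[ℂ] ℂ := Lam cb 0 m x0 R hHG hmx with hL0
  set lam : ℂ := (a : ℂ) - (b : ℂ) * (zeta3 : ℂ) with hlam
  set Λ : ℂ[X] →ₗ[ℂ] ℂ := L0 + lam • qC p1 p2 q1 q2 (NC z1 z2 (κ : ℂ)) with hΛ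
  set A := AC z2 p1 q1 with hA
  set B := BC z1 p2 q2 with hB
  set D := DC p1 p2 q1 q2 with hD
  obtain ⟨mA, dA, nA⟩ := three_facts (fun b => (z2 b : ℂ)) (p1 : ℂ) (q1 : ℂ)
  obtain ⟨mB, dB, nB⟩ := three_facts (fun b => (z1 b : ℂ) - 1) ((p2 : ℂ) - 1) ((q2 : ℂ) - 1)
  have hshift := shift_id z1 z2 p1 p2 q1 q2 (κ : ℂ) hz (by omega) h12
  have hDne : ∀ t : ℂ, x0 < t.re → D.eval t ≠ 0 := by
    intro t ht
    rw [hD]
    unfold DC
    rw [eval_mul, blP_eval, blP_eval]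
    have h3 : -(p1 : ℝ) < t.re := by rw [hx0] at ht; linarith
    have h4 : -(q1 : ℝ) < t.re := by
      have : (p1 : ℝ) ≤ q1 := by exact_mod_cast h11
      linarith
    exact mul_ne_zero (D23.bl_ne_zero p1 p2 t h3) (D23.bl_ne_zero q1 q2 t h4)
  have hRe : ∀ t : ℂ, R t = (NC z1 z2 (κ : ℂ)).eval t / D.eval t := by
    intro t
    rw [hR, R2_eq, hNC]
  -- Pearson equation of the function
  have hrec : ∀ t : ℂ, x0 < t.re → R (t + 1) * B.eval (t + 1) = R t * A.eval t := by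
    intro t ht
    have h3 := congrArg (fun P : ℂ[X] => P.eval t) hshift
    simp only [eval_mul, eval_comp, eval_add, eval_X, eval_one] at h3
    have n1 := hDne t ht
    have n2 := hDne (t + 1) (by rw [Complex.add_re, Complex.one_re]; linarith)
    rw [hRe, hRe, div_mul_eq_mul_div, div_mul_eq_mul_div, div_eq_div_iff n2 n1]
    linear_combination -h3
  have hpeL : ∀ S : ℂ[X], L0 (S.comp (X + 1) * A) = L0 (S * B) := by
    intro S
    rw [hL0, Lam_apply, Lam_apply, ← Lf_mul_shift cb 0 m x0 R hHG hmx _ hHQ hRq (S * B),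
      ← Lf_comp_add_one]
    refine Lf_congr cb 0 (fun t ht => ?_) m hmx
    have h3 := hrec t ht
    simp only [eval_mul, eval_comp, eval_add, eval_X, eval_one]
    linear_combination (-(S.eval (t + 1))) * h3
  have hpe : ∀ S : ℂ[X], Λ (S.comp (X + 1) * A) = Λ (S * B) := by
    intro S
    rw [hΛ, LinearMap.add_apply, LinearMap.add_apply, LinearMap.smul_apply, LinearMap.smul_apply,
      hpeL S, qC_pearson z1 z2 p1 p2 q1 q2 (κ : ℂ) hz (by omega) h11 h22 S]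
  -- degrees
  have dD : D.natDegree = (p2 - p1) + (q2 - q1) := DC_natDegree p1 p2 q1 q2
  have dN : (NC z1 z2 (κ : ℂ)).natDegree = ∑ b, (z2 b - z1 b) := NC_natDegree z1 z2 _ hκC
  have mD : D.Monic := DC_monic p1 p2 q1 q2
  have hN0 : NC z1 z2 (κ : ℂ) ≠ 0 := by
    unfold NC
    exact mul_ne_zero (by rwa [Ne, C_eq_zero]) (prod_ne_zero_iff.mpr (fun b _ =>
      (blP_monic _ _).ne_zero))
  obtain ⟨D0, hD0⟩ : ∃ D0, D0 + 1 + ∑ b, (z2 b - z1 b) = (p2 - p1) + (q2 - q1) :=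
    ⟨(p2 - p1) + (q2 - q1) - ∑ b, (z2 b - z1 b) - 1, by omega⟩
  have hsumZ : ((∑ b, (z2 b - z1 b) : ℕ) : ℂ) = ∑ b, (z2 b : ℂ) - ∑ b, (z1 b : ℂ) := by
    push_cast
    rw [← sum_sub_distrib]
    exact sum_congr rfl (fun b _ => by rw [Nat.cast_sub (hz b)])
  have hD0C : (D0 : ℂ) + 1 + (∑ b, (z2 b : ℂ) - ∑ b, (z1 b : ℂ)) =
      ((p2 : ℂ) - p1) + ((q2 : ℂ) - q1) := by
    rw [← hsumZ, ← Nat.cast_sub (show p1 ≤ p2 by omega), ← Nat.cast_sub h12]
    exact_mod_cast hD0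
  have hAB : A.nextCoeff - B.nextCoeff = ((r + 2 : ℕ) : ℂ) - ((D0 : ℂ) + 1) := by
    have eA : A.nextCoeff = ∑ b, (z2 b : ℂ) + p1 + q1 := nA
    have eB : B.nextCoeff = ∑ b, ((z1 b : ℂ) - 1) + ((p2 : ℂ) - 1) + ((q2 : ℂ) - 1) := nB
    rw [eA, eB, sum_sub_distrib]
    simp only [sum_const, card_univ, Fintype.card_fin, nsmul_eq_mul, mul_one]
    push_cast
    linear_combination hD0C
  have hc0 : ∀ i, i < D0 → cinf (NC z1 z2 (κ : ℂ)) D (X ^ i) = 0 := by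
    intro i hi
    refine cinf_low _ _ mD i ?_
    rw [dN, dD]
    omega
  have hc1 : cinf (NC z1 z2 (κ : ℂ)) D (X ^ D0) ≠ 0 := by
    refine cinf_top _ _ mD hN0 D0 ?_
    rw [dN, dD]
    omega
  have hpc : ∀ S : ℂ[X], cinf (NC z1 z2 (κ : ℂ)) D (S.comp (X + 1) * A) =
      cinf (NC z1 z2 (κ : ℂ)) D (S * B) := by
    intro S
    refine cinf_pearson _ D A B mD ?_ hshift S
    rw [dD]
    omega
  -- positivity
  have hpos : ∀ Q : ℂ[X], Q.Monic → ∃ T : ℂ[X],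
      cinf (NC z1 z2 (κ : ℂ)) D (Q * T) = 0 ∧ Λ (Q * T) ≠ 0 := by
    intro Q hQ
    have hcast : ∀ y : ℝ, (((m : ℝ) - 1 / 2 : ℝ) : ℂ) + (y : ℂ) * Complex.I = ln m y := by
      intro y
      unfold ln
      push_cast
      ring
    have hbR : ((b : ℝ)) ≠ 0 := by exact_mod_cast hb
    obtain ⟨T, hT⟩ := hpos_W1_dvd ((m : ℝ) - 1 / 2) (b : ℝ) 0 (Or.inl hbR)
      (fun y => R (ln m y) * W1 (b : ℝ) 0 y) D (NC z1 z2 (κ : ℂ)) hN0 (fun y => by
        have h3 := hDne (ln m y) (by rw [D23.ln_re]; exact hmx)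
        rw [hcast, hRe]
        field_simp) L0 (fun P => by
        rw [hL0, Lam_apply]
        unfold Lf
        rw [sum_range_one, iteratedDeriv_zero, D23.Iint_eq, ← integral_const_mul]
        refine integral_congr_ae (Filter.Eventually.of_forall (fun y => ?_))
        simp only [hcb]
        rw [hcast]
        unfold W1
        push_cast
        ring) Q hQ.ne_zero
    refine ⟨D * T, ?_, ?_⟩
    · rw [mul_left_comm]
      exact cinf_den _ D mD _
    · rw [hΛ, LinearMap.add_apply, LinearMap.smul_apply]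
      have h3 : qC p1 p2 q1 q2 (NC z1 z2 (κ : ℂ)) (Q * (D * T)) = 0 := by
        rw [mul_left_comm]
        exact qC_den p1 p2 q1 q2 _ _
      rw [h3, smul_zero, add_zero]
      exact hT
  obtain ⟨j, hj1, hj2, hj3⟩ := window_exc Λ (cinf (NC z1 z2 (κ : ℂ)) D) A B mA mB dA dB hpe hpc D0
    hAB hc0 hc1 M hpos
  refine ⟨j, hj1, hj2, ?_⟩
  -- the rational determinant
  have hnd : Nq.natDegree = ∑ b, (z2 b - z1 b) := by
    rw [← dN, ← hNC, natDegree_map]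
  have hcard : K1.card + K2.card = (p2 - p1) + (q2 - q1) := by
    rw [hK1, hK2, Nat.card_Ico, Nat.card_Ico]
  have hent : ∀ P : ℚ[X], P.natDegree + 2 + Nq.natDegree ≤ K1.card + K2.card →
      ((Lab K1 K2 v Nq a b P : ℚ) : ℂ) = Λ (P.map (algebraMap ℚ ℂ)) := by
    intro P hP
    have hdeg : (P * Nq).natDegree + 2 ≤ K1.card + K2.card := by
      have := natDegree_mul_le (p := P) (q := Nq)
      omega
    have h3 := form2 K1 K2 hK v hv1 Nq P hdeg
    have h4 := Iint_move2 K1 K2 (P * Nq) p1 ha1 ha2 (u + 1) v (by omega) hv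
      (fun i h5 h6 => Dvd.dvd.mul_left (h2 i (by omega) h6) P)
    have e1 : (1 - ((u + 1 : ℕ) : ℤ)) = m := by rw [hm]; push_cast; ring
    rw [e1, h3] at h4
    have h5 : L0 (P.map (algebraMap ℚ ℂ)) = (b : ℂ) * Iint m (R2 K1 K2 (P * Nq)) := by
      rw [hL0, Lam_apply]
      unfold Lf
      rw [sum_range_one, iteratedDeriv_zero]
      simp only [hcb]
      congr 2
      funext t
      rw [R2_mul, aeval_def, eval_map]
    rw [hΛ, LinearMap.add_apply, LinearMap.smul_apply, h5, h4, smul_eq_mul, ← hNC, ← qL_cast,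
      Lab_apply, hlam]
    push_cast
    ring
  intro h0
  apply hj3
  have e : gram Λ (fun i => (X : ℂ[X]) ^ i) j =
      (gram (Lab K1 K2 v Nq a b) (fun i => (X : ℚ[X]) ^ i) j).map (algebraMap ℚ ℂ) := by
    ext i l
    rw [Matrix.map_apply]
    simp only [gram, Matrix.of_apply]
    have h6 := hent ((X : ℚ[X]) ^ (i : ℕ) * X ^ (l : ℕ)) (by
      rw [← pow_add, natDegree_X_pow, hnd, hcard]
      have := i.2
      have := l.2
      omega)
    have h7 : ((X : ℚ[X]) ^ (i : ℕ) * X ^ (l : ℕ)).map (algebraMap ℚ ℂ) =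
        X ^ (i : ℕ) * X ^ (l : ℕ) := by
      simp
    rw [h7] at h6
    rw [← h6]
    rfl
  rw [e, ← RingHom.mapMatrix_apply, ← RingHom.map_det, h0, map_zero]

end Pool.Agent.Z3D
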