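import Pool.Agent.Z3D.Fam
import Pool.Agent.Z3D.NonvanD

/-!
# Nonvanishing for the family

For all integers `a`, `b ≠ 0` and all `n ≥ 1` one of the determinants of size `5n-2, 5n-1, 5n` is not
zero.
-/

open Finset Polynomial Filter Topology

namespace Pool.Agent.Z3D

theorem ZZ_eq (n : ℕ) : ZZ n = fun b => Ico ((![0, n] : Fin 2 → ℕ) b) ((![7 * n, 6 * n] : Fin 2 → ℕ) b) := by
  unfold ZZ
  funext b
  fin_cases b
  · exact Finset.range_eq_Ico (7 * n)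
  · rfl

theorem sq_dvd_NN (n i : ℕ) (h1 : n ≤ i) (h2 : i < 6 * n) : (X + C (i : ℚ)) ^ 2 ∣ NN n := by
  unfold NN
  rw [numP_ZZ]
  refine Dvd.dvd.mul_left ?_ _
  rw [pow_two]
  refine mul_dvd_mul ?_ ?_
  · exact dvd_prod_of_mem (fun i : ℕ => (X + C (i : ℚ))) (mem_range.mpr (by omega))
  · exact dvd_prod_of_mem (fun i : ℕ => (X + C (i : ℚ))) (mem_Ico.mpr ⟨h1, h2⟩)

theorem nonvan_all (n : ℕ) (hn : 1 ≤ n) (a b : ℤ) (hb : b ≠ 0) :
    ∃ M : ℕ, 5 * n ≤ M + 2 ∧ M ≤ 5 * n ∧ Dlt n a b M ≠ 0 := by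
  have h := nonvan_Lab (r := 2) ![0, n] ![7 * n, 6 * n] (by
      intro b
      fin_cases b
      · simp
      · simp; omega) (8 * n) (20 * n) (9 * n) (19 * n) (by omega) (by omega) (by omega) (kap n)
    (kap_ne n) n (6 * n) (by omega) (by omega) (by
      rw [← ZZ_eq]
      exact fun i h1 h2 => sq_dvd_NN n i h1 h2) a b hb (5 * n) (by
      rw [Fin.sum_univ_two]
      simp
      omega)
  rw [← ZZ_eq] at h
  obtain ⟨j, h1, h2, h3⟩ := h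
  refine ⟨j, by omega, h2, ?_⟩
  unfold Dlt
  refine div_ne_zero h3 ?_
  rw [prod_ne_zero_iff]
  intro k _
  positivity

theorem nonvan : ∀ᶠ n : ℕ in atTop, ∀ a b : ℤ, b ≠ 0 →
    ∃ M : ℕ, 5 * n ≤ M + 3 ∧ M ≤ 5 * n ∧ Dlt n a b M ≠ 0 := by
  filter_upwards [eventually_ge_atTop 1] with n hn a b hb
  obtain ⟨M, h1, h2, h3⟩ := nonvan_all n hn a b hb
  exact ⟨M, by omega, h2, h3⟩

/-- the form used by the archimedean half -/
theorem nonvan_DD (n : ℕ) (hn : 1 ≤ n) (a b : ℤ) (hb : b ≠ 0) :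
    ∃ M : ℕ, 5 * n < M + 4 ∧ M ≤ 5 * n ∧ DD n a b M ≠ 0 := by
  obtain ⟨M, h1, h2, h3⟩ := nonvan_all n hn a b hb
  exact ⟨M, by omega, h2, h3⟩

end Pool.Agent.Z3D
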