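import Pool.Agent.Z3D.TCell

/-!
# Checked cells with the refined rule: exact far poles as nodes

The cost of a class with weight `w` (above the level) and `ρ` far poles is
`ccost w - max (w - 2 ρ) 0`.
-/

set_option autoImplicit false

open Finset

namespace Pool.Agent.Z3D.RCell

open Pool.Agent.D23.Cell (Box bc totn totp nrm nrm_le mul_near ccost_mono ccost_nonneg fchk
  fchk_sound zchk pchk allchk zall_sound pall_sound nf nf_cast icnt)
open Pool.Agent.Z3D.DCell (lchk lchk_sound bc_nonneg)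

/-- the cost of a class with weight `w` and `ρ` far poles -/
def cost3 (w ρ : ℤ) : ℤ := ccost w - max (w - 2 * ρ) 0

theorem ccost_succ (v : ℤ) (hv : 0 ≤ v) : ccost v + 1 ≤ ccost (v + 1) := by
  rcases hv.eq_or_lt with h | h
  · subst h
    unfold ccost
    norm_num
  · unfold ccost
    rw [if_neg (by linarith), if_neg (by linarith)]
    have h1 : (v + 1) ^ 2 + 4 ≤ (v + 1 + 1) ^ 2 := by nlinarith
    have h2 : ((v + 1) ^ 2 + 4 * 1) / 4 ≤ (v + 1 + 1) ^ 2 / 4 :=
      Int.ediv_le_ediv (by norm_num) (by linarith)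
    rw [Int.add_mul_ediv_left _ _ (by norm_num)] at h2
    exact h2

theorem cost3_succ (w ρ : ℤ) (hρ : 0 ≤ ρ) : cost3 w ρ ≤ cost3 (w + 1) ρ := by
  unfold cost3
  rcases le_or_gt 0 w with h | h
  · have := ccost_succ w h
    rcases le_total (w + 1 - 2 * ρ) 0 with h1 | h1
    · rw [max_eq_right h1, max_eq_right (by linarith)]
      linarith
    · rw [max_eq_left h1]
      have := le_max_left (w - 2 * ρ) 0
      linarith
  · have h1 : ccost w ≤ ccost (w + 1) := ccost_mono (by linarith)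
    rw [max_eq_right (by linarith), max_eq_right (by linarith)]
    linarith

theorem cost3_mono {w w' ρ ρ' : ℤ} (h : w ≤ w') (hρ : 0 ≤ ρ) (hr : ρ ≤ ρ') :
    cost3 w ρ ≤ cost3 w' ρ' := by
  have h1 : ∀ k : ℕ, cost3 w ρ ≤ cost3 (w + k) ρ := by
    intro k
    induction k with
    | zero => simp
    | succ k ih =>
      refine ih.trans ?_
      have := cost3_succ (w + k) ρ hρ
      push_cast
      rw [← add_assoc]
      exact this
  obtain ⟨k, hk⟩ := Int.eq_ofNat_of_zero_le (show 0 ≤ w' - w by linarith)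
  have h2 := h1 k
  rw [show w + (k : ℤ) = w' by rw [← hk]; ring] at h2
  refine h2.trans ?_
  unfold cost3
  have : max (w' - 2 * ρ') 0 ≤ max (w' - 2 * ρ) 0 := max_le_max (by linarith) le_rfl
  linarith

theorem cost3_nonneg (w ρ : ℤ) (hρ : 0 ≤ ρ) : 0 ≤ cost3 w ρ := by
  rcases le_total w 0 with h | h
  · unfold cost3
    rw [max_eq_right (by linarith), sub_zero]
    exact ccost_nonneg w
  · have h1 := cost3_mono (ρ := ρ) (ρ' := ρ) h hρ le_rfl
    have h2 : cost3 0 ρ = 0 := by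
      unfold cost3 ccost
      rw [if_pos le_rfl, max_eq_right (by linarith)]
      norm_num
    rw [h2] at h1
    exact h1

/-- parameters: zero blocks, pole blocks (the first one contains all the poles), blocks of the far
poles (with multiplicity), `κ = ∏ (kn n)! / ∏ (kd n)!`, `M` near `th n` -/
structure Par where
  zb : List ((ℕ × ℕ) × (ℕ × ℕ))
  pb : List ((ℕ × ℕ) × (ℕ × ℕ))
  ub : (ℕ × ℕ) × (ℕ × ℕ)
  fb : List ((ℕ × ℕ) × (ℕ × ℕ))
  kn : List ℕ
  kd : List ℕ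
  th : ℤ

/-- zeros minus poles in the class `s` -/
def Par.phi (Q : Par) (n p s : ℕ) : ℤ :=
  (Q.zb.map (bc n p s)).sum - (Q.pb.map (bc n p s)).sum

/-- far poles in the class `s` -/
def Par.rho (Q : Par) (n p s : ℕ) : ℤ := (Q.fb.map (bc n p s)).sum

/-- the valuation of `κ` -/
def Par.e0 (Q : Par) (n p : ℕ) : ℤ :=
  (Q.kn.map (fun k => ((k * n / p : ℕ) : ℤ))).sum - (Q.kd.map (fun k => ((k * n / p : ℕ) : ℤ))).sum

/-- the cost of the class `s` at the level `lam` -/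
def Par.cst (Q : Par) (n p : ℕ) (lam : ℤ) (s : ℕ) : ℤ :=
  if bc n p s Q.ub = 0 then 0
  else if bc n p s Q.ub = 1 ∧ Q.rho n p s = 0 ∧ -Q.e0 n p ≤ lam then 0
  else cost3 (1 - Q.e0 n p - Q.phi n p s - lam) (Q.rho n p s)

/-- an arc of classes with certificates -/
structure Arc where
  u : ℤ
  v : ℤ
  zc : List (ℤ × ℤ)
  pc : List (ℤ × ℤ)
  uc : ℤ × ℤ
  fc : List (ℤ × ℤ)

/-- check of the arcs from the lower end `(l1, l2)` on -/
def chk (Q : Par) (c : Box) : ℤ → ℤ → List Arc → Bool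
  | l1, l2, [] => decide (l1 = 0) && decide (l2 = 1)
  | l1, l2, a :: l => c.nn (a.u - l1) (a.v - l2) &&
      allchk (zchk c l1 l2 a.u a.v) Q.zb a.zc && allchk (pchk c l1 l2 a.u a.v) Q.pb a.pc &&
      pchk c l1 l2 a.u a.v Q.ub a.uc && allchk (pchk c l1 l2 a.u a.v) Q.fb a.fc &&
      chk Q c a.u a.v l

/-- lower bound for `phi` on the arc -/
def Arc.low (a : Arc) : ℤ := (a.zc.map Prod.snd).sum - (a.pc.map Prod.snd).sum

/-- upper bound for the number of far poles on the arc -/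
def Arc.rho (a : Arc) : ℤ := (a.fc.map Prod.snd).sum

/-- coefficient of `n` of the total -/
def tn (g : Arc → ℤ) : ℤ → List Arc → ℤ
  | _, [] => 0
  | l1, a :: l => (a.u - l1) * g a + tn g a.u l

/-- coefficient of `p` of the total -/
def tp (g : Arc → ℤ) : ℤ → List Arc → ℤ
  | _, [] => 0
  | l2, a :: l => (a.v - l2) * g a + tp g a.v l

/-- the cost of an arc -/
def Arc.g (e lam : ℤ) (a : Arc) : ℤ :=
  if a.uc.2 ≤ 0 then 0
  else if a.uc.2 ≤ 1 ∧ a.rho ≤ 0 ∧ -e ≤ lam then 0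
  else cost3 (1 - e - a.low - lam) a.rho

section
variable {Q : Par} {c : Box} {n p : ℕ}

theorem rho_nonneg (Q : Par) (n p s : ℕ) : 0 ≤ Q.rho n p s := by
  unfold Par.rho
  refine List.sum_nonneg fun x hx => ?_
  obtain ⟨b, _, rfl⟩ := List.mem_map.1 hx
  exact bc_nonneg n p s b

theorem pchk_sound (h : c.In n p) (hp : 0 < p) {l1 l2 u v : ℤ} {s : ℕ} (hs : s < p)
    (hlo : l1 * n + l2 * p ≤ s) (hup : (s : ℤ) < u * n + v * p) {b : (ℕ × ℕ) × (ℕ × ℕ)}
    {k : ℤ × ℤ} (hc : pchk c l1 l2 u v b k = true) : bc n p s b ≤ k.2 := by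
  have h1 := pall_sound h hp hs hlo hup [b] [k] (by simp [allchk, hc])
  simpa using h1

theorem chk_le (h : c.In n p) : ∀ (l : List Arc) (l1 l2 : ℤ), chk Q c l1 l2 l = true →
    l1 * n + l2 * p ≤ p
  | [], l1, l2, hc => by
    simp only [chk, Bool.and_eq_true, decide_eq_true_eq] at hc
    rw [hc.1, hc.2]
    simp
  | a :: l, l1, l2, hc => by
    simp only [chk, Bool.and_eq_true] at hc
    have h1 := Box.nn_sound h hc.1.1.1.1.1
    have h2 := chk_le h l a.u a.v hc.2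
    linarith

theorem cst_le {lam e : ℤ} (he : e ≤ Q.e0 n p) (a : Arc) (s : ℕ) (h1 : a.low ≤ Q.phi n p s)
    (h2 : bc n p s Q.ub ≤ a.uc.2) (h3 : Q.rho n p s ≤ a.rho) :
    Q.cst n p lam s ≤ a.g e lam := by
  have hnn := bc_nonneg n p s Q.ub
  have hr := rho_nonneg Q n p s
  have hg : 0 ≤ a.g e lam := by
    unfold Arc.g
    split_ifs
    · exact le_rfl
    · exact le_rfl
    · exact cost3_nonneg _ _ (hr.trans h3)
  unfold Par.cst
  split_ifs with h4 h5
  · exact hg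
  · exact hg
  · unfold Arc.g
    rw [if_neg (by omega), if_neg]
    · exact cost3_mono (by linarith) hr h3
    · rintro ⟨h6, h7, h8⟩
      exact h5 ⟨by omega, by omega, by linarith⟩

/-- **Sum over all classes.** -/
theorem sum_le_tot (h : c.In n p) (hp : 0 < p) {lam e : ℤ} (he : e ≤ Q.e0 n p) :
    ∀ (l : List Arc) (l1 l2 : ℤ), chk Q c l1 l2 l = true → 0 ≤ l1 * n + l2 * p →
      ∑ s ∈ Ico (l1 * n + l2 * p).toNat p, Q.cst n p lam s ≤
        tn (Arc.g e lam) l1 l * n + tp (Arc.g e lam) l2 l * p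
  | [], l1, l2, hc, _ => by
    simp only [chk, Bool.and_eq_true, decide_eq_true_eq] at hc
    rw [hc.1, hc.2]
    simp [tn, tp]
  | a :: l, l1, l2, hc, hnn => by
    simp only [chk, Bool.and_eq_true] at hc
    obtain ⟨⟨⟨⟨⟨hc1, hc2⟩, hc3⟩, hc4⟩, hc5⟩, hc7⟩ := hc
    have h1 := Box.nn_sound h hc1
    have hup : 0 ≤ a.u * (n : ℤ) + a.v * p := by linarith
    have hle := chk_le h l a.u a.v hc7
    have ih := sum_le_tot (lam := lam) h hp he l a.u a.v hc7 hup
    set x := (l1 * (n : ℤ) + l2 * p).toNat with hx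
    set y := (a.u * (n : ℤ) + a.v * p).toNat with hy
    have hxz : (x : ℤ) = l1 * (n : ℤ) + l2 * p := Int.toNat_of_nonneg hnn
    have hyz : (y : ℤ) = a.u * (n : ℤ) + a.v * p := Int.toNat_of_nonneg hup
    have hxy : x ≤ y := by
      have : (x : ℤ) ≤ y := by rw [hxz, hyz]; linarith
      exact_mod_cast this
    have hyp : y ≤ p := by
      have : (y : ℤ) ≤ p := by rw [hyz]; exact hle
      exact_mod_cast this
    rw [← sum_Ico_consecutive _ hxy hyp]
    have h2 : ∑ s ∈ Ico x y, Q.cst n p lam s ≤ ∑ _s ∈ Ico x y, a.g e lam := by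
      refine sum_le_sum fun s hs => ?_
      rw [mem_Ico] at hs
      have hs1 : l1 * (n : ℤ) + l2 * p ≤ s := by
        rw [← hxz]
        exact_mod_cast hs.1
      have hs2 : (s : ℤ) < a.u * (n : ℤ) + a.v * p := by
        rw [← hyz]
        exact_mod_cast hs.2
      have hsp : s < p := by omega
      have h3 := zall_sound h hp hsp hs1 hs2 Q.zb a.zc hc2
      have h4 := pall_sound h hp hsp hs1 hs2 Q.pb a.pc hc3
      have h5 := pall_sound h hp hsp hs1 hs2 Q.fb a.fc hc5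
      exact cst_le he a s (by unfold Arc.low Par.phi; linarith) (pchk_sound h hp hsp hs1 hs2 hc4)
        (by unfold Par.rho Arc.rho; exact h5)
    rw [sum_const, Nat.card_Ico, nsmul_eq_mul, Nat.cast_sub hxy, hxz, hyz] at h2
    simp only [tn, tp]
    linarith

end

/-- a cell with its data -/
structure Rec where
  c : Box
  lam : ℤ
  J : ℤ
  e0 : ℤ
  en : List ℤ
  ed : List ℤ
  arcs : List Arc
  al : ℤ
  be : ℤ

/-- **Check of a cell**; `|M - th n| ≤ d`, `G` is the allowed constant. -/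
def Rec.chk (Q : Par) (d G : ℤ) (r : Rec) : Bool :=
  decide (0 < r.c.a2 * r.c.b1 - r.c.a1 * r.c.b2) &&
  r.c.nn Q.th (-r.J) && r.c.po (-Q.th) (r.J + 1) &&
  lchk r.c Q.kn r.en && fchk r.c Q.kd r.ed && decide (r.e0 ≤ r.en.sum - r.ed.sum) &&
  RCell.chk Q r.c 0 0 r.arcs &&
  r.c.nn (r.al - ((r.lam + 2 * r.J) * Q.th + tn (Arc.g r.e0 r.lam) 0 r.arcs))
    (r.be - (tp (Arc.g r.e0 r.lam) 0 r.arcs - r.J * (r.J + 1))) &&
  decide (|r.lam + 2 * r.J| * d + 2 * d ≤ G)

/-- the item of a cell -/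
def Rec.ritem (r : Rec) : TCell.RItem := ⟨r.c, r.al, r.be⟩

/-- `Ok T`: the cost of the prime `p` is at most `T` -/
structure Costs (Q : Par) (n p M : ℕ) (Ok : ℤ → Prop) : Prop where
  mono : ∀ S T : ℤ, S ≤ T → Ok S → Ok T
  lin : ∀ lam : ℤ, Ok (lam * M + ∑ s ∈ range p, Q.cst n p lam s + nrm M p)

theorem Rec.sound {Q : Par} {d G : ℤ} {r : Rec} (hr : r.chk Q d G = true) {n p M : ℕ}
    {Ok : ℤ → Prop} (hT : Costs Q n p M Ok) (hd : 0 ≤ d) (hdp : d < p)
    (hM1 : (M : ℤ) ≤ Q.th * n + d) (hM2 : Q.th * n ≤ M + d)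
    (h1 : r.c.a1 * p ≤ r.c.b1 * n) (h2 : r.c.b2 * n < r.c.a2 * p) :
    Ok (r.al * n + r.be * p + G) := by
  have hp0 : 0 < p := by
    have : (0 : ℤ) < p := by linarith
    exact_mod_cast this
  simp only [Rec.chk, Bool.and_eq_true, decide_eq_true_eq] at hr
  obtain ⟨⟨⟨⟨⟨⟨⟨⟨hD, hJ1⟩, hJ2⟩, hen⟩, hed⟩, he⟩, hc⟩, hab⟩, hG⟩ := hr
  have hin : r.c.In n p := ⟨hD, h1, h2⟩
  have hab' := Box.nn_sound hin hab
  have he0 : r.e0 ≤ Q.e0 n p := by
    have h3 := lchk_sound hin hp0 Q.kn r.en hen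
    have h4 := fchk_sound hin hp0 Q.kd r.ed hed
    unfold Par.e0
    linarith
  have h5 := sum_le_tot (lam := r.lam) hin hp0 he0 r.arcs 0 0 hc (by simp)
  have h6 : ∑ s ∈ range p, Q.cst n p r.lam s ≤ tn (Arc.g r.e0 r.lam) 0 r.arcs * n +
      tp (Arc.g r.e0 r.lam) 0 r.arcs * p := by simpa using h5
  have h7 := Box.nn_sound hin hJ1
  have h8 := Box.po_sound hin hJ2
  have h9 : nrm M p ≤ 2 * r.J * M - r.J * (r.J + 1) * p + 2 * d :=
    nrm_le (by linarith) (by linarith) hd hdp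
  have h10 := mul_near (k := r.lam + 2 * r.J) hM1 hM2
  exact hT.mono _ _ (by linarith) (hT.lin r.lam)

end Pool.Agent.Z3D.RCell
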