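import Pool.Agent.Z3D.Nonvan
import Pool.Agent.Z3D.LinkA

/-!
# The determinant bound for the family

`Dlt_le`: any parameter `n`, any exponents `r j` of the node at `-16 n`.
`rows_link`: the same as a product of row bounds `|b| L j + |b zeta(3) - a| A j`.
-/

open Finset Polynomial MeasureTheory
open scoped Nat

namespace Pool.Agent.Z3D

open Pool.Agent.Z3 (zeta3 Ker)
open Pool.Agent.Z23 (cA)
open Pool.Agent.D23 (numP Pm hn hn_pos wt ln)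

/-- **Determinant bound for the family**, any node exponents. -/
theorem Dlt_le (n M : ℕ) (_h1n : 1 ≤ n) (hM : M ≤ 5 * n) (a b : ℤ) (hb : b ≠ 0) (m : ℕ)
    (r : ℕ → ℕ) (hr : ∀ j, r j ≤ j) (B0 : ℝ)
    (hF0 : ∀ y : ℝ, ‖R2 (K1 n) (K2 n) (NN n) (ln (1 - ((2 * n : ℕ) : ℤ)) y)‖ * Ker y ≤
      B0 * wt m y)
    (B : ℕ → ℝ) (hB : ∀ j < M, 0 < B j)
    (hF : ∀ j < M, ∀ y : ℝ, ‖R2 (K1 n) (K2 n) (NN n) (ln (1 - ((2 * n : ℕ) : ℤ)) y)‖ * Ker y *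
      ‖ln (1 - ((2 * n : ℕ) : ℤ)) y + ((16 * n : ℕ) : ℂ)‖ ^ (2 * r j) ≤ B j * wt m y)
    (A : ℕ → ℝ)
    (hA : ∀ j < M, ∑ k ∈ K1 n, |((2 * cA (NN n) (K1 n) (K2 n) k : ℚ) : ℝ)| *
      ‖(Pm m (1 / 2 - ((2 * n : ℕ) : ℝ)) (j - r j) *
        (X + C ((16 * n : ℕ) : ℂ)) ^ (r j)).eval (-(k : ℂ))‖ ^ 2 ≤ A j) :
    |((Dlt n a b M : ℚ) : ℝ)| * ∏ j ∈ range M, (j ! : ℝ) ^ 2 ≤
      |(b : ℝ)| ^ M * ((M ! : ℝ) *
        ∏ j ∈ range M, (B j * hn m (j - r j) + |(a : ℝ) / b - zeta3| * A j)) := by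
  have hdet := det_Lab_le (K1 n) (K2 n) (K2_sub n) (2 * n) (6 * n)
    (by omega) (fun k hk => by
      rw [mem_K1] at hk
      omega) (NN n) M (by
      rw [natDegree_NN, K1_card, K2_card]
      omega) (fun i hi1 hi2 => sq_dvd_NN n i (by omega) hi2) a b hb m
    (fun j => (X + C ((16 * n : ℕ) : ℂ)) ^ (r j)) r hr
    (fun j => (monic_X_add_C _).pow _)
    (fun j => by rw [natDegree_pow, natDegree_X_add_C, mul_one]) B0 hF0 B hB
    (fun j hj y => by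
      refine le_trans (le_of_eq ?_) (hF j hj y)
      rw [eval_pow, eval_add, eval_X, eval_C, norm_pow, ← pow_mul, mul_comm (r j) 2]) A hA
  have hP : (0 : ℝ) < ∏ j ∈ range M, (j ! : ℝ) ^ 2 := prod_pos (fun j _ => by
    have : (0 : ℝ) < (j ! : ℝ) := by exact_mod_cast j.factorial_pos
    positivity)
  have hDD : |((Dlt n a b M : ℚ) : ℝ)| =
      |(((gram (Lab (K1 n) (K2 n) (6 * n) (NN n) a b)
        (fun i => (X : ℚ[X]) ^ i) M).det : ℚ) : ℝ)| / ∏ j ∈ range M, (j ! : ℝ) ^ 2 := by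
    rw [← abs_of_pos hP, ← abs_div]
    unfold Dlt LL
    push_cast
    rfl
  rw [hDD, div_mul_cancel₀ _ hP.ne']
  exact hdet

/-- **Row products.** The same with the denominators inside the absolute values. -/
theorem rows_link (n M : ℕ) (h1n : 1 ≤ n) (hM : M ≤ 5 * n) (a b : ℤ) (hb : b ≠ 0) (m : ℕ)
    (r : ℕ → ℕ) (hr : ∀ j, r j ≤ j) (β R : ℝ) (hβ : 0 < β) (hR : 0 < R)
    (hdom : ∀ s : ℕ, s ≤ n → ∀ y : ℝ,
      ‖R2 (K1 n) (K2 n) (NN n) (ln (1 - ((2 * n : ℕ) : ℤ)) y)‖ * Ker y *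
        ‖ln (1 - ((2 * n : ℕ) : ℤ)) y + ((16 * n : ℕ) : ℂ)‖ ^ (2 * s) ≤ β * R ^ s * wt m y)
    (hrn : ∀ j < M, r j ≤ n) (A : ℕ → ℝ)
    (hA : ∀ j < M, ∑ k ∈ K1 n, |((2 * cA (NN n) (K1 n) (K2 n) k : ℚ) : ℝ)| *
      ‖(Pm m (1 / 2 - ((2 * n : ℕ) : ℝ)) (j - r j) *
        (X + C ((16 * n : ℕ) : ℂ)) ^ (r j)).eval (-(k : ℂ))‖ ^ 2 ≤ A j) :
    |((Dlt n a b M : ℚ) : ℝ)| * ∏ j ∈ range M, (j ! : ℝ) ^ 2 ≤
      (M ! : ℝ) * ∏ j ∈ range M,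
        (|(b : ℝ)| * (β * R ^ (r j) * hn m (j - r j)) + |(b : ℝ) * zeta3 - a| * A j) := by
  have hdet := Dlt_le n M h1n hM a b hb m r hr β
    (fun y => by
      have h3 := hdom 0 (by omega) y
      rw [mul_zero, pow_zero, mul_one, pow_zero, mul_one] at h3
      exact h3) (fun j => β * R ^ (r j)) (fun j _ => by positivity)
    (fun j hj y => hdom (r j) (hrn j hj) y) A hA
  refine hdet.trans (le_of_eq ?_)
  have hbR : (b : ℝ) ≠ 0 := by exact_mod_cast hb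
  have hb1 : |(b : ℝ)| * |(a : ℝ) / b - zeta3| = |(b : ℝ) * zeta3 - a| := by
    rw [← abs_mul, abs_sub_comm (b * zeta3)]
    congr 1
    field_simp
  have hprod : ∏ j ∈ range M,
        (|(b : ℝ)| * (β * R ^ (r j) * hn m (j - r j)) + |(b : ℝ) * zeta3 - a| * A j) =
      ∏ j ∈ range M, (|(b : ℝ)| *
        (β * R ^ (r j) * hn m (j - r j) + |(a : ℝ) / b - zeta3| * A j)) := by
    refine prod_congr rfl (fun j _ => ?_)
    rw [← hb1]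
    ring
  rw [hprod, prod_mul_distrib, prod_const, card_range]
  ring

end Pool.Agent.Z3D
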