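import Pool.Agent.Z3D.DCell

/-!
# Checked cells with two rules, and quadratic cells

Rule ALL: every class has the weight `1 - e0 - phi`. Rule FAR: for levels `lam ≥ -e0` only the
classes that meet the block `F.tb` count. A quadratic cell needs no arcs: it uses
`4 ccost v ≤ (v + 1) ^ 2` and the degree.
-/

set_option autoImplicit false

open Finset

namespace Pool.Agent.Z3D.TCell

open Pool.Agent.D23 (ival)
open Pool.Agent.D23.Cell (Box Arc Fam bc chk totn totp nrm nrm_le mul_near sum_range_le ccost_mono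
  ccost_nonneg fchk fchk_sound four_ccost_le)
open Pool.Agent.Z3D.DCell (lchk lchk_sound)

/-! ### Items -/

/-- an item with rational coefficients on a cell of `n / p` -/
structure RItem where
  c : Box
  al : ℚ
  be : ℚ

/-- the conditions of `psum` -/
def RItem.ok (r : RItem) : Bool :=
  decide (0 < r.c.a2 * r.c.b1 - r.c.a1 * r.c.b2) && decide (0 < r.c.a1) && decide (0 < r.c.b1) &&
  decide (0 < r.c.a2) && decide (0 < r.c.b2) &&
  decide (0 ≤ r.al * r.c.a1 + r.be * r.c.b1) && decide (0 ≤ r.al * r.c.a2 + r.be * r.c.b2)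

/-- the item -/
noncomputable def RItem.item (r : RItem) : ℝ × ℝ × ℝ × ℝ :=
  (r.al, r.be, (r.c.b2 : ℝ) / r.c.a2, (r.c.b1 : ℝ) / r.c.a1)

/-- the value of the item as a rational number -/
def RItem.qval (r : RItem) : ℚ :=
  r.al * ((r.c.b1 : ℚ) / r.c.a1 - (r.c.b2 : ℚ) / r.c.a2) +
    r.be * (((r.c.b1 : ℚ) / r.c.a1) ^ 2 - ((r.c.b2 : ℚ) / r.c.a2) ^ 2) / 2

theorem RItem.ival_item (r : RItem) : ival r.item = (r.qval : ℝ) := by
  unfold ival RItem.item RItem.qval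
  push_cast
  ring

theorem sum_ival (l : List RItem) :
    ((l.map RItem.item).map ival).sum = ((l.map RItem.qval).sum : ℚ) := by
  induction l with
  | nil => simp
  | cons r l ih =>
    simp only [List.map_cons, List.sum_cons]
    rw [ih, RItem.ival_item]
    push_cast
    ring

theorem RItem.item_ok {r : RItem} (hr : r.ok = true) :
    0 ≤ r.item.2.2.1 ∧ r.item.2.2.1 ≤ r.item.2.2.2 ∧ 0 ≤ r.item.1 + r.item.2.1 * r.item.2.2.1 ∧
      0 ≤ r.item.1 + r.item.2.1 * r.item.2.2.2 := by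
  simp only [RItem.ok, Bool.and_eq_true, decide_eq_true_eq] at hr
  obtain ⟨⟨⟨⟨⟨⟨hD, ha1⟩, hb1⟩, ha2⟩, hb2⟩, h1⟩, h2⟩ := hr
  have ha1' : (0 : ℝ) < r.c.a1 := by exact_mod_cast ha1
  have hb1' : (0 : ℝ) < r.c.b1 := by exact_mod_cast hb1
  have ha2' : (0 : ℝ) < r.c.a2 := by exact_mod_cast ha2
  have hb2' : (0 : ℝ) < r.c.b2 := by exact_mod_cast hb2
  have hD' : (0 : ℝ) < r.c.a2 * r.c.b1 - r.c.a1 * r.c.b2 := by exact_mod_cast hD
  have h1 : (0 : ℝ) ≤ r.al * r.c.a1 + r.be * r.c.b1 := by exact_mod_cast h1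
  have h2 : (0 : ℝ) ≤ r.al * r.c.a2 + r.be * r.c.b2 := by exact_mod_cast h2
  simp only [RItem.item]
  refine ⟨by positivity, ?_, ?_, ?_⟩
  · rw [div_le_div_iff₀ ha2' ha1']
    linarith
  · have e : (r.al : ℝ) + r.be * ((r.c.b2 : ℝ) / r.c.a2) =
      (r.al * r.c.a2 + r.be * r.c.b2) / r.c.a2 := by field_simp
    rw [e]
    positivity
  · have e : (r.al : ℝ) + r.be * ((r.c.b1 : ℝ) / r.c.a1) =
      (r.al * r.c.a1 + r.be * r.c.b1) / r.c.a1 := by field_simp
    rw [e]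
    positivity

/-- the form `al n + be p` is nonnegative on the cell -/
theorem RItem.nonneg {r : RItem} (hr : r.ok = true) {n p : ℕ} (h1 : r.c.a1 * p ≤ r.c.b1 * n)
    (h2 : r.c.b2 * n < r.c.a2 * p) : 0 ≤ r.al * n + r.be * p := by
  simp only [RItem.ok, Bool.and_eq_true, decide_eq_true_eq] at hr
  obtain ⟨⟨⟨⟨⟨⟨hD, ha1⟩, hb1⟩, ha2⟩, hb2⟩, h3⟩, h4⟩ := hr
  have hD' : (0 : ℚ) < r.c.a2 * r.c.b1 - r.c.a1 * r.c.b2 := by exact_mod_cast hD
  have h1' : (0 : ℚ) ≤ r.c.b1 * n - r.c.a1 * p := by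
    have : (r.c.a1 : ℚ) * p ≤ r.c.b1 * n := by exact_mod_cast h1
    linarith
  have h2' : (0 : ℚ) ≤ r.c.a2 * p - r.c.b2 * n := by
    have : (r.c.b2 : ℚ) * n < r.c.a2 * p := by exact_mod_cast h2
    linarith
  have e : ((r.c.a2 : ℚ) * r.c.b1 - r.c.a1 * r.c.b2) * (r.al * n + r.be * p) =
      (r.al * r.c.a1 + r.be * r.c.b1) * (r.c.a2 * p - r.c.b2 * n) +
        (r.al * r.c.a2 + r.be * r.c.b2) * (r.c.b1 * n - r.c.a1 * p) := by ring
  have h5 : 0 ≤ ((r.c.a2 : ℚ) * r.c.b1 - r.c.a1 * r.c.b2) * (r.al * n + r.be * p) := by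
    rw [e]
    exact add_nonneg (mul_nonneg h3 h2') (mul_nonneg h4 h1')
  exact nonneg_of_mul_nonneg_right h5 hD'

/-- consecutive cells: the upper end of each is the lower end of the next one -/
def link : ℤ → ℤ → List Box → Bool
  | _, _, [] => true
  | a, b, c :: l => decide (a * c.b1 = c.a1 * b) && decide (0 < c.b1) &&
      decide (0 < c.b2) && link c.a2 c.b2 l

/-- the upper end of the last cell -/
def lastEnd : ℤ → ℤ → List Box → ℤ × ℤ
  | a, b, [] => (a, b)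
  | _, _, c :: l => lastEnd c.a2 c.b2 l

/-- every `n / p` between the ends lies in one of the cells -/
theorem link_cover {n p : ℕ} : ∀ (l : List Box) (a b : ℤ), 0 < b → link a b l = true →
    a * p ≤ b * n → (lastEnd a b l).2 * n < (lastEnd a b l).1 * p →
    ∃ c ∈ l, c.a1 * p ≤ c.b1 * n ∧ c.b2 * n < c.a2 * p
  | [], a, b, _, _, h1, h2 => by
    simp only [lastEnd] at h2
    linarith
  | c :: l, a, b, hb, hc, h1, h2 => by
    simp only [link, Bool.and_eq_true, decide_eq_true_eq] at hc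
    obtain ⟨⟨⟨h3, h4⟩, h5⟩, h6⟩ := hc
    have h7 : c.a1 * p ≤ c.b1 * n := by
      have h8 : (c.a1 * b) * (p : ℤ) ≤ (c.b1 * b) * n := by
        rw [← h3]
        nlinarith
      have h9 : b * (c.a1 * p) ≤ b * (c.b1 * n) := by linarith
      exact le_of_mul_le_mul_left h9 hb
    by_cases h10 : c.b2 * n < c.a2 * (p : ℤ)
    · exact ⟨c, List.mem_cons_self, h7, h10⟩
    · push Not at h10
      obtain ⟨c', hc', h11⟩ := link_cover l c.a2 c.b2 h5 h6 h10 (by simpa [lastEnd] using h2)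
      exact ⟨c', List.mem_cons_of_mem _ hc', h11⟩

/-- from an integer bound to the form of the table -/
theorem RItem.out {r : RItem} (hr : r.ok = true) {n p : ℕ} {G : ℕ} {Ok : ℤ → Prop}
    (mono : ∀ S T : ℤ, S ≤ T → Ok S → Ok T) (T : ℤ) (hT : Ok T)
    (hle : (T : ℚ) ≤ r.al * n + r.be * p + G) (h1 : r.c.a1 * p ≤ r.c.b1 * n)
    (h2 : r.c.b2 * n < r.c.a2 * p) :
    ∃ e : ℕ, Ok e ∧ (e : ℝ) ≤ r.item.1 * n + r.item.2.1 * p + G ∧
      r.item.2.2.1 * n < (p : ℝ) ∧ (p : ℝ) ≤ r.item.2.2.2 * n := by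
  have h0 := RItem.nonneg hr h1 h2
  simp only [RItem.ok, Bool.and_eq_true, decide_eq_true_eq] at hr
  obtain ⟨⟨⟨⟨⟨⟨hD, ha1⟩, hb1⟩, ha2⟩, hb2⟩, h3⟩, h4⟩ := hr
  refine ⟨T.toNat, mono T _ (Int.self_le_toNat T) hT, ?_, ?_, ?_⟩
  · have h5 : ((T.toNat : ℕ) : ℚ) ≤ r.al * n + r.be * p + G := by
      rcases le_total 0 T with h | h
      · have h6 : ((T.toNat : ℤ) : ℚ) = (T : ℚ) := by rw [Int.toNat_of_nonneg h]
        have h7 : ((T.toNat : ℕ) : ℚ) = (T : ℚ) := by exact_mod_cast h6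
        rw [h7]
        exact hle
      · rw [Int.toNat_of_nonpos h]
        have : (0 : ℚ) ≤ G := Nat.cast_nonneg G
        push_cast
        linarith
    simp only [RItem.item]
    exact_mod_cast h5
  · have ha : (0 : ℝ) < r.c.a2 := by exact_mod_cast ha2
    have h8' : (r.c.b2 : ℝ) * n < r.c.a2 * p := by exact_mod_cast h2
    simp only [RItem.item]
    rw [div_mul_eq_mul_div, div_lt_iff₀ ha]
    linarith
  · have ha : (0 : ℝ) < r.c.a1 := by exact_mod_cast ha1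
    have h7' : (r.c.a1 : ℝ) * p ≤ r.c.b1 * n := by exact_mod_cast h1
    simp only [RItem.item]
    rw [div_mul_eq_mul_div, le_div_iff₀ ha]
    linarith

/-! ### Cells with arcs -/

/-- parameters of the family: blocks, `κ = ∏ (kn n)! / ∏ (kd n)!`, `M` near `th n`, degree
`-dg n` -/
structure Par where
  F : Fam
  kn : List ℕ
  kd : List ℕ
  th : ℤ
  dg : ℤ

/-- the valuation of `κ` -/
def Par.e0 (Q : Par) (n p : ℕ) : ℤ :=
  (Q.kn.map (fun k => ((k * n / p : ℕ) : ℤ))).sum - (Q.kd.map (fun k => ((k * n / p : ℕ) : ℤ))).sum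

/-- `Ok T`: the cost of the prime `p` is at most `T`; the two rules -/
structure Costs (Q : Par) (n p M : ℕ) (Ok : ℤ → Prop) : Prop where
  mono : ∀ S T : ℤ, S ≤ T → Ok S → Ok T
  all : ∀ lam : ℤ, Ok (lam * M + ∑ s ∈ range p, ccost (1 - Q.F.phi n p s - Q.e0 n p - lam) +
    nrm M p)
  far : ∀ lam : ℤ, -Q.e0 n p ≤ lam → Ok (lam * M +
    ∑ s ∈ range p with 0 < bc n p s Q.F.tb, ccost (1 - Q.F.phi n p s - Q.e0 n p - lam) + nrm M p)

/-- a cell with its data -/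
structure Rec where
  c : Box
  lam : ℤ
  far : Bool
  J : ℤ
  e0 : ℤ
  en : List ℤ
  ed : List ℤ
  arcs : List Arc
  al : ℤ
  be : ℤ

/-- the cost of an arc -/
def Rec.g (r : Rec) (a : Arc) : ℤ :=
  if r.far && a.t.isSome then 0 else ccost (1 - a.low - r.e0 - r.lam)

theorem Rec.g_nonneg (r : Rec) (a : Arc) : 0 ≤ r.g a := by
  unfold Rec.g
  split_ifs
  · exact le_rfl
  · exact ccost_nonneg _

/-- **Check of a cell**; `|M - th n| ≤ d`, `G` is the allowed constant. -/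
def Rec.chk (Q : Par) (d G : ℤ) (r : Rec) : Bool :=
  decide (0 < r.c.a2 * r.c.b1 - r.c.a1 * r.c.b2) &&
  r.c.nn Q.th (-r.J) && r.c.po (-Q.th) (r.J + 1) &&
  lchk r.c Q.kn r.en && fchk r.c Q.kd r.ed && decide (r.e0 ≤ r.en.sum - r.ed.sum) &&
  (!r.far || decide (-r.e0 ≤ r.lam)) &&
  Pool.Agent.D23.Cell.chk Q.F r.c 0 0 r.arcs &&
  r.c.nn (r.al - ((r.lam + 2 * r.J) * Q.th + totn r.g 0 r.arcs))
    (r.be - (totp r.g 0 r.arcs - r.J * (r.J + 1))) &&
  decide (|r.lam + 2 * r.J| * d + 2 * d ≤ G)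

/-- the item of a cell -/
def Rec.ritem (r : Rec) : RItem := ⟨r.c, r.al, r.be⟩

theorem Rec.sound {Q : Par} {d G : ℤ} {r : Rec} (hr : r.chk Q d G = true) {n p M : ℕ}
    {Ok : ℤ → Prop} (hT : Costs Q n p M Ok) (hd : 0 ≤ d) (hdp : d < p)
    (hM1 : (M : ℤ) ≤ Q.th * n + d) (hM2 : Q.th * n ≤ M + d)
    (h1 : r.c.a1 * p ≤ r.c.b1 * n) (h2 : r.c.b2 * n < r.c.a2 * p) :
    Ok (r.al * n + r.be * p + G) := by
  have hp0 : 0 < p := by
    have : (0 : ℤ) < p := by linarith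
    exact_mod_cast this
  simp only [Rec.chk, Bool.and_eq_true, decide_eq_true_eq] at hr
  obtain ⟨⟨⟨⟨⟨⟨⟨⟨⟨hD, hJ1⟩, hJ2⟩, hen⟩, hed⟩, he⟩, hfar⟩, hc⟩, hab⟩, hG⟩ := hr
  have hin : r.c.In n p := ⟨hD, h1, h2⟩
  have hab' := Box.nn_sound hin hab
  have he0 : r.e0 ≤ Q.e0 n p := by
    have h3 := lchk_sound hin hp0 Q.kn r.en hen
    have h4 := fchk_sound hin hp0 Q.kd r.ed hed
    unfold Par.e0
    linarith
  have h7 := Box.nn_sound hin hJ1
  have h8 := Box.po_sound hin hJ2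
  have h9 : nrm M p ≤ 2 * r.J * M - r.J * (r.J + 1) * p + 2 * d :=
    nrm_le (by linarith) (by linarith) hd hdp
  have h10 := mul_near (k := r.lam + 2 * r.J) hM1 hM2
  cases hf : r.far with
  | true =>
    rw [hf] at hfar
    simp only [Bool.not_true, Bool.false_or, decide_eq_true_eq] at hfar
    have h5 := hT.far r.lam (by linarith)
    have h6 : ∑ s ∈ range p with 0 < bc n p s Q.F.tb,
        ccost (1 - Q.F.phi n p s - Q.e0 n p - r.lam) ≤
        totn r.g 0 r.arcs * n + totp r.g 0 r.arcs * p := by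
      rw [sum_filter]
      refine sum_range_le hin hp0 (fun s => if 0 < bc n p s Q.F.tb then
        ccost (1 - Q.F.phi n p s - Q.e0 n p - r.lam) else 0) r.g (fun a s _ ha hb => ?_) r.arcs hc
      by_cases ht : a.t.isSome
      · obtain ⟨m, hm⟩ := Option.isSome_iff_exists.1 ht
        simp only [hb ⟨m, hm⟩, lt_irrefl, if_false]
        exact r.g_nonneg a
      · have hg : r.g a = ccost (1 - a.low - r.e0 - r.lam) := by
          unfold Rec.g
          rw [if_neg (by simp [ht])]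
        rw [hg]
        split_ifs with h3
        · exact ccost_mono (by linarith)
        · exact ccost_nonneg _
    exact hT.mono _ _ (by linarith) h5
  | false =>
    have h5 := hT.all r.lam
    have h6 : ∑ s ∈ range p, ccost (1 - Q.F.phi n p s - Q.e0 n p - r.lam) ≤
        totn r.g 0 r.arcs * n + totp r.g 0 r.arcs * p := by
      refine sum_range_le hin hp0 (fun s => ccost (1 - Q.F.phi n p s - Q.e0 n p - r.lam)) r.g
        (fun a s _ ha hb => ?_) r.arcs hc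
      unfold Rec.g
      rw [hf, if_neg (by simp)]
      exact ccost_mono (by linarith)
    exact hT.mono _ _ (by linarith) h5

/-! ### Quadratic cells -/

/-- **The quadratic bound**: weights in `[-1, 3]`, level `1 - 2 J`. -/
theorem quad_bound {p M : ℕ} {J d : ℤ} (w : ℕ → ℤ) (hw : ∀ s < p, -1 ≤ w s ∧ w s ≤ 3)
    (h1 : J * p ≤ M + d) (h2 : (M : ℤ) < (J + 1) * p + d) (hd : 0 ≤ d) (hdp : d < p) :
    4 * ((1 - 2 * J) * M + ∑ s ∈ range p, ccost (w s - (1 - 2 * J)) + nrm M p) ≤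
      4 * M + 8 * d + (3 - 4 * J) * p + (2 + 4 * J) * ∑ s ∈ range p, w s := by
  have h3 : 4 * ∑ s ∈ range p, ccost (w s - (1 - 2 * J)) ≤
      (2 + 4 * J) * ∑ s ∈ range p, w s + (3 + 4 * J ^ 2) * p := by
    rw [mul_sum, mul_sum]
    have h4 : ∑ s ∈ range p, 4 * ccost (w s - (1 - 2 * J)) ≤
        ∑ s ∈ range p, ((2 + 4 * J) * w s + (3 + 4 * J ^ 2)) := by
      refine sum_le_sum fun s hs => (four_ccost_le _).trans ?_
      obtain ⟨h5, h6⟩ := hw s (mem_range.1 hs)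
      nlinarith [mul_nonneg (show 0 ≤ w s + 1 by linarith) (show 0 ≤ 3 - w s by linarith)]
    refine h4.trans (le_of_eq ?_)
    rw [sum_add_distrib, sum_const, card_range, nsmul_eq_mul]
    ring
  have h5 : nrm M p ≤ 2 * J * M - J * (J + 1) * p + 2 * d := nrm_le h1 h2 hd hdp
  nlinarith

/-- a quadratic cell: `J = ⌊M / p⌋` and the floors -/
structure QRec where
  c : Box
  J : ℤ
  en : List ℤ
  ed : List ℤ

/-- lower bound for the valuation of `κ` -/
def QRec.e0 (r : QRec) : ℤ := r.en.sum - r.ed.sum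

/-- check of a quadratic cell -/
def QRec.chk (Q : Par) (r : QRec) : Bool :=
  decide (0 < r.c.a2 * r.c.b1 - r.c.a1 * r.c.b2) && decide (0 ≤ r.J) &&
  r.c.nn Q.th (-r.J) && r.c.po (-Q.th) (r.J + 1) &&
  lchk r.c Q.kn r.en && fchk r.c Q.kd r.ed

/-- the item of a quadratic cell -/
def QRec.ritem (Q : Par) (r : QRec) : RItem :=
  ⟨r.c, Q.th + (1 / 2 + r.J) * Q.dg, 5 / 4 - (1 / 2 + r.J) * r.e0⟩

theorem QRec.sound {Q : Par} {r : QRec} (hr : r.chk Q = true) {n p M : ℕ} {Ok : ℤ → Prop}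
    (hT : Costs Q n p M Ok) {d : ℤ} (hd : 0 ≤ d) (hdp : d < p)
    (hw : ∀ s < p, -1 ≤ 1 - Q.F.phi n p s - Q.e0 n p ∧ 1 - Q.F.phi n p s - Q.e0 n p ≤ 3)
    (hdeg : ∑ s ∈ range p, Q.F.phi n p s = -(Q.dg * n))
    (hM1 : (M : ℤ) ≤ Q.th * n) (hM2 : Q.th * n ≤ M + d)
    (h1 : r.c.a1 * p ≤ r.c.b1 * n) (h2 : r.c.b2 * n < r.c.a2 * p) :
    ∃ T : ℤ, Ok T ∧ (T : ℚ) ≤ (r.ritem Q).al * n + (r.ritem Q).be * p + 2 * d := by
  have hp0 : 0 < p := by
    have : (0 : ℤ) < p := by linarith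
    exact_mod_cast this
  simp only [QRec.chk, Bool.and_eq_true, decide_eq_true_eq] at hr
  obtain ⟨⟨⟨⟨⟨hD, hJ0⟩, hJ1⟩, hJ2⟩, hen⟩, hed⟩ := hr
  have hin : r.c.In n p := ⟨hD, h1, h2⟩
  have he0 : r.e0 ≤ Q.e0 n p := by
    have h3 := lchk_sound hin hp0 Q.kn r.en hen
    have h4 := fchk_sound hin hp0 Q.kd r.ed hed
    unfold Par.e0 QRec.e0
    linarith
  have h7 := Box.nn_sound hin hJ1
  have h8 := Box.po_sound hin hJ2
  refine ⟨_, hT.all (1 - 2 * r.J), ?_⟩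
  have h9 := quad_bound (M := M) (J := r.J) (d := d)
    (fun s => 1 - Q.F.phi n p s - Q.e0 n p) hw (by linarith) (by linarith) hd hdp
  have h10 : ∑ s ∈ range p, (1 - Q.F.phi n p s - Q.e0 n p) = p + Q.dg * n - p * Q.e0 n p := by
    rw [sum_sub_distrib, sum_sub_distrib, hdeg, sum_const, sum_const, card_range]
    simp only [nsmul_eq_mul, mul_one]
    ring
  rw [h10] at h9
  set T : ℤ := (1 - 2 * r.J) * M + ∑ s ∈ range p,
    ccost (1 - Q.F.phi n p s - Q.e0 n p - (1 - 2 * r.J)) + nrm M p with hTdef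
  have hp' : (0 : ℤ) ≤ p := Int.natCast_nonneg p
  have h11 : (2 + 4 * r.J) * (p * r.e0) ≤ (2 + 4 * r.J) * (p * Q.e0 n p) :=
    mul_le_mul_of_nonneg_left (mul_le_mul_of_nonneg_left he0 hp') (by linarith)
  have h12 : 4 * T ≤ 4 * (Q.th * n) + 8 * d + (3 - 4 * r.J) * p +
      (2 + 4 * r.J) * (p + Q.dg * n - p * r.e0) := by linarith
  have h13 : (4 * (T : ℚ)) ≤ 4 * (Q.th * n) + 8 * d + (3 - 4 * r.J) * p +
      (2 + 4 * r.J) * (p + Q.dg * n - p * r.e0) := by exact_mod_cast h12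
  simp only [QRec.ritem]
  linarith

end Pool.Agent.Z3D.TCell
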