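import Pool.Agent.Z3D.TCell

/-!
# The cells of the family `6 7 8 9 / 0 1 19 20`

Cells with arcs for `1 / 20 ≤ n / p < 4`, quadratic cells for `4 ≤ n / p < 100`.
-/

set_option autoImplicit false

namespace Pool.Agent.Z3D.TCell

/-- zero blocks `[0,7n)`, `[n,6n)`, pole blocks `[8n,20n)`, `[9n,19n)`, far poles `[6n+p,20n)` -/
def par : Par :=
  ⟨⟨[((0, 0), (7, 0)), ((1, 0), (6, 0))], [((8, 0), (20, 0)), ((9, 0), (19, 0))],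
    ((6, 1), (20, 0))⟩, [12, 10], [7, 5], 5, 10⟩

/-- cells -/
def recs0 : List Rec := [
  ⟨⟨1, 20, 1, 19⟩, 0, true, 0, 0, [0, 0], [0, 0],
    [⟨20, -1, [(0, 1), (1, 0)], [(1, 1), (1, 0)], some 2⟩,
     ⟨1, 0, [(0, 1), (1, 0)], [(1, 0), (1, 0)], some 1⟩,
     ⟨6, 0, [(0, 1), (0, 1)], [(1, 0), (1, 0)], some 1⟩,
     ⟨7, 0, [(0, 1), (0, 0)], [(1, 0), (1, 0)], some 1⟩,
     ⟨8, 0, [(0, 0), (0, 0)], [(1, 0), (1, 0)], some 1⟩,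
     ⟨9, 0, [(0, 0), (0, 0)], [(0, 1), (1, 0)], some 1⟩,
     ⟨19, 0, [(0, 0), (0, 0)], [(0, 1), (0, 1)], some 1⟩,
     ⟨0, 1, [(0, 0), (0, 0)], [(0, 1), (0, 0)], some 1⟩], 0, 0⟩,
  ⟨⟨1, 19, 1, 18⟩, 0, true, 0, 0, [0, 0], [0, 0],
    [⟨19, -1, [(0, 1), (1, 0)], [(1, 1), (1, 1)], some 2⟩,
     ⟨1, 0, [(0, 1), (1, 0)], [(1, 1), (1, 0)], some 2⟩,
     ⟨20, -1, [(0, 1), (0, 1)], [(1, 1), (1, 0)], some 2⟩,
     ⟨6, 0, [(0, 1), (0, 1)], [(1, 0), (1, 0)], some 1⟩,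
     ⟨7, 0, [(0, 1), (0, 0)], [(1, 0), (1, 0)], some 1⟩,
     ⟨8, 0, [(0, 0), (0, 0)], [(1, 0), (1, 0)], some 1⟩,
     ⟨9, 0, [(0, 0), (0, 0)], [(0, 1), (1, 0)], some 1⟩,
     ⟨0, 1, [(0, 0), (0, 0)], [(0, 1), (0, 1)], some 1⟩], 0, 0⟩,
  ⟨⟨1, 18, 1, 14⟩, 0, true, 0, 0, [0, 0], [0, 0],
    [⟨1, 0, [(0, 1), (1, 0)], [(1, 1), (1, 1)], some 2⟩,
     ⟨19, -1, [(0, 1), (0, 1)], [(1, 1), (1, 1)], some 2⟩,
     ⟨20, -1, [(0, 1), (0, 1)], [(1, 1), (1, 0)], some 2⟩,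
     ⟨6, 0, [(0, 1), (0, 1)], [(1, 0), (1, 0)], some 1⟩,
     ⟨7, 0, [(0, 1), (0, 0)], [(1, 0), (1, 0)], some 1⟩,
     ⟨8, 0, [(0, 0), (0, 0)], [(1, 0), (1, 0)], some 1⟩,
     ⟨9, 0, [(0, 0), (0, 0)], [(0, 1), (1, 0)], some 1⟩,
     ⟨0, 1, [(0, 0), (0, 0)], [(0, 1), (0, 1)], some 1⟩], 0, 0⟩,
  ⟨⟨1, 14, 1, 13⟩, 0, true, 0, 0, [0, 0], [0, 0],
    [⟨1, 0, [(0, 1), (1, 0)], [(1, 1), (1, 1)], some 2⟩,
     ⟨19, -1, [(0, 1), (0, 1)], [(1, 1), (1, 1)], some 2⟩,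
     ⟨6, 0, [(0, 1), (0, 1)], [(1, 1), (1, 0)], some 2⟩,
     ⟨20, -1, [(0, 1), (0, 0)], [(1, 1), (1, 0)], none⟩,
     ⟨7, 0, [(0, 1), (0, 0)], [(1, 0), (1, 0)], some 1⟩,
     ⟨8, 0, [(0, 0), (0, 0)], [(1, 0), (1, 0)], some 1⟩,
     ⟨9, 0, [(0, 0), (0, 0)], [(0, 1), (1, 0)], some 1⟩,
     ⟨0, 1, [(0, 0), (0, 0)], [(0, 1), (0, 1)], some 1⟩], 14, -1⟩,
  ⟨⟨1, 13, 1, 12⟩, 0, true, 0, 0, [0, 0], [0, 0],
    [⟨1, 0, [(0, 1), (1, 0)], [(1, 1), (1, 1)], some 2⟩,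
     ⟨6, 0, [(0, 1), (0, 1)], [(1, 1), (1, 1)], some 2⟩,
     ⟨19, -1, [(0, 1), (0, 0)], [(1, 1), (1, 1)], none⟩,
     ⟨7, 0, [(0, 1), (0, 0)], [(1, 1), (1, 0)], none⟩,
     ⟨20, -1, [(0, 0), (0, 0)], [(1, 1), (1, 0)], none⟩,
     ⟨8, 0, [(0, 0), (0, 0)], [(1, 0), (1, 0)], some 1⟩,
     ⟨9, 0, [(0, 0), (0, 0)], [(0, 1), (1, 0)], some 1⟩,
     ⟨0, 1, [(0, 0), (0, 0)], [(0, 1), (0, 1)], some 1⟩], 40, -3⟩,
  ⟨⟨1, 12, 6, 71⟩, -1, true, 0, 1, [1, 0], [0, 0],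
    [⟨1, 0, [(0, 1), (1, 0)], [(1, 1), (1, 1)], some 2⟩,
     ⟨6, 0, [(0, 1), (0, 1)], [(1, 1), (1, 1)], some 2⟩,
     ⟨7, 0, [(0, 1), (0, 0)], [(1, 1), (1, 1)], none⟩,
     ⟨19, -1, [(0, 0), (0, 0)], [(1, 1), (1, 1)], none⟩,
     ⟨8, 0, [(0, 0), (0, 0)], [(1, 1), (1, 0)], none⟩,
     ⟨20, -1, [(0, 0), (0, 0)], [(0, 2), (1, 0)], none⟩,
     ⟨9, 0, [(0, 0), (0, 0)], [(0, 1), (1, 0)], some 1⟩,
     ⟨0, 1, [(0, 0), (0, 0)], [(0, 1), (0, 1)], some 1⟩], 0, 0⟩,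
  ⟨⟨6, 71, 1, 11⟩, -1, true, 0, 1, [1, 0], [0, 0],
    [⟨1, 0, [(0, 1), (1, 0)], [(1, 1), (1, 1)], some 2⟩,
     ⟨6, 0, [(0, 1), (0, 1)], [(1, 1), (1, 1)], some 2⟩,
     ⟨7, 0, [(0, 1), (0, 0)], [(1, 1), (1, 1)], none⟩,
     ⟨19, -1, [(0, 0), (0, 0)], [(1, 1), (1, 1)], none⟩,
     ⟨8, 0, [(0, 0), (0, 0)], [(1, 1), (1, 0)], none⟩,
     ⟨20, -1, [(0, 0), (0, 0)], [(0, 2), (1, 0)], none⟩,
     ⟨9, 0, [(0, 0), (0, 0)], [(0, 1), (1, 0)], some 1⟩,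
     ⟨0, 1, [(0, 0), (0, 0)], [(0, 1), (0, 1)], some 1⟩], 71, -6⟩,
  ⟨⟨1, 11, 3, 31⟩, 0, true, 0, 1, [1, 0], [0, 0],
    [⟨1, 0, [(0, 1), (1, 0)], [(1, 1), (1, 1)], some 2⟩,
     ⟨6, 0, [(0, 1), (0, 1)], [(1, 1), (1, 1)], some 2⟩,
     ⟨7, 0, [(0, 1), (0, 0)], [(1, 1), (1, 1)], none⟩,
     ⟨8, 0, [(0, 0), (0, 0)], [(1, 1), (1, 1)], none⟩,
     ⟨19, -1, [(0, 0), (0, 0)], [(0, 2), (1, 1)], none⟩,
     ⟨9, 0, [(0, 0), (0, 0)], [(0, 2), (1, 0)], none⟩,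
     ⟨20, -1, [(0, 0), (0, 0)], [(0, 2), (0, 1)], none⟩,
     ⟨0, 1, [(0, 0), (0, 0)], [(0, 1), (0, 1)], some 1⟩], 71, -6⟩,
  ⟨⟨3, 31, 1, 10⟩, 1, true, 0, 1, [1, 0], [0, 0],
    [⟨1, 0, [(0, 1), (1, 0)], [(1, 1), (1, 1)], some 2⟩,
     ⟨6, 0, [(0, 1), (0, 1)], [(1, 1), (1, 1)], some 2⟩,
     ⟨7, 0, [(0, 1), (0, 0)], [(1, 1), (1, 1)], none⟩,
     ⟨8, 0, [(0, 0), (0, 0)], [(1, 1), (1, 1)], none⟩,
     ⟨19, -1, [(0, 0), (0, 0)], [(0, 2), (1, 1)], none⟩,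
     ⟨9, 0, [(0, 0), (0, 0)], [(0, 2), (1, 0)], none⟩,
     ⟨20, -1, [(0, 0), (0, 0)], [(0, 2), (0, 1)], none⟩,
     ⟨0, 1, [(0, 0), (0, 0)], [(0, 1), (0, 1)], some 1⟩], 40, -3⟩,
  ⟨⟨1, 10, 2, 19⟩, 0, true, 0, 2, [1, 1], [0, 0],
    [⟨20, -2, [(0, 1), (1, 0)], [(1, 2), (1, 1)], none⟩,
     ⟨1, 0, [(0, 1), (1, 0)], [(1, 1), (1, 1)], some 2⟩,
     ⟨6, 0, [(0, 1), (0, 1)], [(1, 1), (1, 1)], some 2⟩,
     ⟨7, 0, [(0, 1), (0, 0)], [(1, 1), (1, 1)], none⟩,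
     ⟨8, 0, [(0, 0), (0, 0)], [(1, 1), (1, 1)], none⟩,
     ⟨9, 0, [(0, 0), (0, 0)], [(0, 2), (1, 1)], none⟩,
     ⟨19, -1, [(0, 0), (0, 0)], [(0, 2), (0, 2)], none⟩,
     ⟨0, 1, [(0, 0), (0, 0)], [(0, 2), (0, 1)], none⟩], 25, -2⟩,
  ⟨⟨2, 19, 1, 9⟩, 0, true, 0, 2, [1, 1], [0, 0],
    [⟨19, -2, [(0, 1), (1, 0)], [(1, 2), (1, 2)], none⟩,
     ⟨1, 0, [(0, 1), (1, 0)], [(1, 2), (1, 1)], none⟩,
     ⟨20, -2, [(0, 1), (0, 1)], [(1, 2), (1, 1)], none⟩,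
     ⟨6, 0, [(0, 1), (0, 1)], [(1, 1), (1, 1)], some 2⟩,
     ⟨7, 0, [(0, 1), (0, 0)], [(1, 1), (1, 1)], none⟩,
     ⟨8, 0, [(0, 0), (0, 0)], [(1, 1), (1, 1)], none⟩,
     ⟨9, 0, [(0, 0), (0, 0)], [(0, 2), (1, 1)], none⟩,
     ⟨0, 1, [(0, 0), (0, 0)], [(0, 2), (0, 2)], none⟩], -13, 2⟩,
  ⟨⟨1, 9, 1, 8⟩, 0, true, 0, 2, [1, 1], [0, 0],
    [⟨9, -1, [(0, 1), (1, 0)], [(1, 2), (2, 1)], none⟩,
     ⟨1, 0, [(0, 1), (1, 0)], [(1, 2), (1, 2)], none⟩,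
     ⟨19, -2, [(0, 1), (0, 1)], [(1, 2), (1, 2)], none⟩,
     ⟨20, -2, [(0, 1), (0, 1)], [(1, 2), (1, 1)], none⟩,
     ⟨6, 0, [(0, 1), (0, 1)], [(1, 1), (1, 1)], some 2⟩,
     ⟨7, 0, [(0, 1), (0, 0)], [(1, 1), (1, 1)], none⟩,
     ⟨8, 0, [(0, 0), (0, 0)], [(1, 1), (1, 1)], none⟩,
     ⟨0, 1, [(0, 0), (0, 0)], [(0, 2), (1, 1)], none⟩], -4, 1⟩,
  ⟨⟨1, 8, 1, 7⟩, 0, true, 0, 2, [1, 1], [0, 0],
    [⟨8, -1, [(0, 1), (1, 0)], [(2, 1), (2, 1)], none⟩,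
     ⟨1, 0, [(0, 1), (1, 0)], [(1, 2), (2, 1)], none⟩,
     ⟨9, -1, [(0, 1), (0, 1)], [(1, 2), (2, 1)], none⟩,
     ⟨19, -2, [(0, 1), (0, 1)], [(1, 2), (1, 2)], none⟩,
     ⟨20, -2, [(0, 1), (0, 1)], [(1, 2), (1, 1)], none⟩,
     ⟨6, 0, [(0, 1), (0, 1)], [(1, 1), (1, 1)], some 2⟩,
     ⟨7, 0, [(0, 1), (0, 0)], [(1, 1), (1, 1)], none⟩,
     ⟨0, 1, [(0, 0), (0, 0)], [(1, 1), (1, 1)], none⟩], -4, 1⟩,
  ⟨⟨1, 7, 3, 20⟩, 1, true, 0, 1, [1, 1], [1, 0],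
    [⟨7, -1, [(0, 2), (1, 0)], [(2, 1), (2, 1)], none⟩,
     ⟨1, 0, [(0, 1), (1, 0)], [(2, 1), (2, 1)], none⟩,
     ⟨8, -1, [(0, 1), (0, 1)], [(2, 1), (2, 1)], none⟩,
     ⟨9, -1, [(0, 1), (0, 1)], [(1, 2), (2, 1)], none⟩,
     ⟨19, -2, [(0, 1), (0, 1)], [(1, 2), (1, 2)], none⟩,
     ⟨6, 0, [(0, 1), (0, 1)], [(1, 2), (1, 1)], none⟩,
     ⟨20, -2, [(0, 1), (0, 0)], [(1, 2), (1, 1)], none⟩,
     ⟨0, 1, [(0, 1), (0, 0)], [(1, 1), (1, 1)], none⟩], 29, -3⟩,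
  ⟨⟨3, 20, 2, 13⟩, 1, true, 0, 1, [1, 1], [1, 0],
    [⟨20, -3, [(0, 2), (1, 0)], [(2, 2), (2, 1)], none⟩,
     ⟨7, -1, [(0, 2), (1, 0)], [(2, 1), (2, 1)], none⟩,
     ⟨1, 0, [(0, 1), (1, 0)], [(2, 1), (2, 1)], none⟩,
     ⟨8, -1, [(0, 1), (0, 1)], [(2, 1), (2, 1)], none⟩,
     ⟨9, -1, [(0, 1), (0, 1)], [(1, 2), (2, 1)], none⟩,
     ⟨19, -2, [(0, 1), (0, 1)], [(1, 2), (1, 2)], none⟩,
     ⟨6, 0, [(0, 1), (0, 1)], [(1, 2), (1, 1)], none⟩,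
     ⟨0, 1, [(0, 1), (0, 0)], [(1, 2), (1, 1)], none⟩], 9, 0⟩,
  ⟨⟨2, 13, 3, 19⟩, 1, true, 0, 1, [1, 1], [1, 0],
    [⟨7, -1, [(0, 2), (1, 0)], [(2, 2), (2, 1)], none⟩,
     ⟨20, -3, [(0, 1), (1, 0)], [(2, 2), (2, 1)], none⟩,
     ⟨1, 0, [(0, 1), (1, 0)], [(2, 1), (2, 1)], none⟩,
     ⟨8, -1, [(0, 1), (0, 1)], [(2, 1), (2, 1)], none⟩,
     ⟨9, -1, [(0, 1), (0, 1)], [(1, 2), (2, 1)], none⟩,
     ⟨6, 0, [(0, 1), (0, 1)], [(1, 2), (1, 2)], none⟩,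
     ⟨19, -2, [(0, 1), (0, 0)], [(1, 2), (1, 2)], none⟩,
     ⟨0, 1, [(0, 1), (0, 0)], [(1, 2), (1, 1)], none⟩], 22, -2⟩,
  ⟨⟨3, 19, 1, 6⟩, 1, true, 0, 1, [1, 1], [1, 0],
    [⟨19, -3, [(0, 2), (1, 0)], [(2, 2), (2, 2)], none⟩,
     ⟨7, -1, [(0, 2), (1, 0)], [(2, 2), (2, 1)], none⟩,
     ⟨1, 0, [(0, 1), (1, 0)], [(2, 2), (2, 1)], none⟩,
     ⟨20, -3, [(0, 1), (0, 1)], [(2, 2), (2, 1)], none⟩,
     ⟨8, -1, [(0, 1), (0, 1)], [(2, 1), (2, 1)], none⟩,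
     ⟨9, -1, [(0, 1), (0, 1)], [(1, 2), (2, 1)], none⟩,
     ⟨6, 0, [(0, 1), (0, 1)], [(1, 2), (1, 2)], none⟩,
     ⟨0, 1, [(0, 1), (0, 0)], [(1, 2), (1, 2)], none⟩], 3, 1⟩,
  ⟨⟨1, 6, 2, 11⟩, 0, true, 0, 2, [2, 1], [1, 0],
    [⟨6, -1, [(0, 2), (1, 1)], [(2, 2), (2, 2)], none⟩,
     ⟨1, 0, [(0, 2), (1, 0)], [(2, 2), (2, 2)], none⟩,
     ⟨7, -1, [(0, 2), (0, 1)], [(2, 2), (2, 2)], none⟩,
     ⟨19, -3, [(0, 1), (0, 1)], [(2, 2), (2, 2)], none⟩,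
     ⟨8, -1, [(0, 1), (0, 1)], [(2, 2), (2, 1)], none⟩,
     ⟨20, -3, [(0, 1), (0, 1)], [(1, 3), (2, 1)], none⟩,
     ⟨9, -1, [(0, 1), (0, 1)], [(1, 2), (2, 1)], none⟩,
     ⟨0, 1, [(0, 1), (0, 1)], [(1, 2), (1, 2)], none⟩], 10, -1⟩,
  ⟨⟨2, 11, 1, 5⟩, 0, true, 0, 2, [2, 1], [1, 0],
    [⟨6, -1, [(0, 2), (1, 1)], [(2, 2), (2, 2)], none⟩,
     ⟨1, 0, [(0, 2), (1, 0)], [(2, 2), (2, 2)], none⟩,
     ⟨7, -1, [(0, 2), (0, 1)], [(2, 2), (2, 2)], none⟩,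
     ⟨8, -1, [(0, 1), (0, 1)], [(2, 2), (2, 2)], none⟩,
     ⟨19, -3, [(0, 1), (0, 1)], [(1, 3), (2, 2)], none⟩,
     ⟨9, -1, [(0, 1), (0, 1)], [(1, 3), (2, 1)], none⟩,
     ⟨20, -3, [(0, 1), (0, 1)], [(1, 3), (1, 2)], none⟩,
     ⟨0, 1, [(0, 1), (0, 1)], [(1, 2), (1, 2)], none⟩], 10, -1⟩,
  ⟨⟨1, 5, 4, 19⟩, 0, true, 1, 2, [2, 2], [1, 1],
    [⟨20, -4, [(0, 2), (1, 1)], [(2, 3), (2, 2)], none⟩,
     ⟨1, 0, [(0, 2), (1, 1)], [(2, 2), (2, 2)], none⟩,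
     ⟨6, -1, [(0, 2), (0, 2)], [(2, 2), (2, 2)], none⟩,
     ⟨7, -1, [(0, 2), (0, 1)], [(2, 2), (2, 2)], none⟩,
     ⟨8, -1, [(0, 1), (0, 1)], [(2, 2), (2, 2)], none⟩,
     ⟨9, -1, [(0, 1), (0, 1)], [(1, 3), (2, 2)], none⟩,
     ⟨19, -3, [(0, 1), (0, 1)], [(1, 3), (1, 3)], none⟩,
     ⟨0, 1, [(0, 1), (0, 1)], [(1, 3), (1, 2)], none⟩], 35, -6⟩,
  ⟨⟨4, 19, 3, 14⟩, 0, true, 1, 2, [2, 2], [1, 1],
    [⟨19, -4, [(0, 2), (1, 1)], [(2, 3), (2, 3)], none⟩,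
     ⟨1, 0, [(0, 2), (1, 1)], [(2, 3), (2, 2)], none⟩,
     ⟨20, -4, [(0, 2), (0, 2)], [(2, 3), (2, 2)], none⟩,
     ⟨6, -1, [(0, 2), (0, 2)], [(2, 2), (2, 2)], none⟩,
     ⟨7, -1, [(0, 2), (0, 1)], [(2, 2), (2, 2)], none⟩,
     ⟨8, -1, [(0, 1), (0, 1)], [(2, 2), (2, 2)], none⟩,
     ⟨9, -1, [(0, 1), (0, 1)], [(1, 3), (2, 2)], none⟩,
     ⟨0, 1, [(0, 1), (0, 1)], [(1, 3), (1, 3)], none⟩], -3, 2⟩,
  ⟨⟨3, 14, 2, 9⟩, 0, true, 1, 2, [2, 2], [1, 1],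
    [⟨19, -4, [(0, 2), (1, 1)], [(2, 3), (2, 3)], none⟩,
     ⟨1, 0, [(0, 2), (1, 1)], [(2, 3), (2, 2)], none⟩,
     ⟨6, -1, [(0, 2), (0, 2)], [(2, 3), (2, 2)], none⟩,
     ⟨20, -4, [(0, 2), (0, 1)], [(2, 3), (2, 2)], none⟩,
     ⟨7, -1, [(0, 2), (0, 1)], [(2, 2), (2, 2)], none⟩,
     ⟨8, -1, [(0, 1), (0, 1)], [(2, 2), (2, 2)], none⟩,
     ⟨9, -1, [(0, 1), (0, 1)], [(1, 3), (2, 2)], none⟩,
     ⟨0, 1, [(0, 1), (0, 1)], [(1, 3), (1, 3)], none⟩], 11, -1⟩,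
  ⟨⟨2, 9, 3, 13⟩, 0, true, 1, 2, [2, 2], [1, 1],
    [⟨9, -2, [(0, 2), (1, 1)], [(2, 3), (3, 2)], none⟩,
     ⟨1, 0, [(0, 2), (1, 1)], [(2, 3), (2, 3)], none⟩,
     ⟨19, -4, [(0, 2), (0, 2)], [(2, 3), (2, 3)], none⟩,
     ⟨6, -1, [(0, 2), (0, 2)], [(2, 3), (2, 2)], none⟩,
     ⟨20, -4, [(0, 2), (0, 1)], [(2, 3), (2, 2)], none⟩,
     ⟨7, -1, [(0, 2), (0, 1)], [(2, 2), (2, 2)], none⟩,
     ⟨8, -1, [(0, 1), (0, 1)], [(2, 2), (2, 2)], none⟩,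
     ⟨0, 1, [(0, 1), (0, 1)], [(1, 3), (2, 2)], none⟩], 20, -3⟩,
  ⟨⟨3, 13, 1, 4⟩, 0, true, 1, 2, [2, 2], [1, 1],
    [⟨9, -2, [(0, 2), (1, 1)], [(2, 3), (3, 2)], none⟩,
     ⟨1, 0, [(0, 2), (1, 1)], [(2, 3), (2, 3)], none⟩,
     ⟨6, -1, [(0, 2), (0, 2)], [(2, 3), (2, 3)], none⟩,
     ⟨19, -4, [(0, 2), (0, 1)], [(2, 3), (2, 3)], none⟩,
     ⟨7, -1, [(0, 2), (0, 1)], [(2, 3), (2, 2)], none⟩,
     ⟨20, -4, [(0, 1), (0, 1)], [(2, 3), (2, 2)], none⟩,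
     ⟨8, -1, [(0, 1), (0, 1)], [(2, 2), (2, 2)], none⟩,
     ⟨0, 1, [(0, 1), (0, 1)], [(1, 3), (2, 2)], none⟩], 20, -3⟩,
  ⟨⟨1, 4, 5, 19⟩, -1, true, 1, 3, [3, 2], [1, 1],
    [⟨8, -2, [(0, 2), (1, 1)], [(3, 3), (3, 2)], none⟩,
     ⟨20, -5, [(0, 2), (1, 1)], [(2, 4), (3, 2)], none⟩,
     ⟨1, 0, [(0, 2), (1, 1)], [(2, 3), (3, 2)], none⟩,
     ⟨9, -2, [(0, 2), (0, 2)], [(2, 3), (3, 2)], none⟩,
     ⟨6, -1, [(0, 2), (0, 2)], [(2, 3), (2, 3)], none⟩,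
     ⟨7, -1, [(0, 2), (0, 1)], [(2, 3), (2, 3)], none⟩,
     ⟨19, -4, [(0, 1), (0, 1)], [(2, 3), (2, 3)], none⟩,
     ⟨0, 1, [(0, 1), (0, 1)], [(2, 3), (2, 2)], none⟩], 27, -6⟩,
  ⟨⟨5, 19, 3, 11⟩, -1, true, 1, 3, [3, 2], [1, 1],
    [⟨19, -5, [(0, 2), (1, 1)], [(3, 3), (3, 3)], none⟩,
     ⟨8, -2, [(0, 2), (1, 1)], [(3, 3), (3, 2)], none⟩,
     ⟨1, 0, [(0, 2), (1, 1)], [(2, 4), (3, 2)], none⟩,
     ⟨20, -5, [(0, 2), (0, 2)], [(2, 4), (3, 2)], none⟩,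
     ⟨9, -2, [(0, 2), (0, 2)], [(2, 3), (3, 2)], none⟩,
     ⟨6, -1, [(0, 2), (0, 2)], [(2, 3), (2, 3)], none⟩,
     ⟨7, -1, [(0, 2), (0, 1)], [(2, 3), (2, 3)], none⟩,
     ⟨0, 1, [(0, 1), (0, 1)], [(2, 3), (2, 3)], none⟩], 8, -1⟩,
  ⟨⟨3, 11, 5, 18⟩, -1, true, 1, 3, [3, 2], [1, 1],
    [⟨8, -2, [(0, 2), (1, 1)], [(3, 3), (3, 3)], none⟩,
     ⟨19, -5, [(0, 2), (1, 1)], [(2, 4), (3, 3)], none⟩,
     ⟨1, 0, [(0, 2), (1, 1)], [(2, 4), (3, 2)], none⟩,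
     ⟨9, -2, [(0, 2), (0, 2)], [(2, 4), (3, 2)], none⟩,
     ⟨20, -5, [(0, 2), (0, 2)], [(2, 4), (2, 3)], none⟩,
     ⟨6, -1, [(0, 2), (0, 2)], [(2, 3), (2, 3)], none⟩,
     ⟨7, -1, [(0, 2), (0, 1)], [(2, 3), (2, 3)], none⟩,
     ⟨0, 1, [(0, 1), (0, 1)], [(2, 3), (2, 3)], none⟩], 19, -4⟩,
  ⟨⟨5, 18, 2, 7⟩, -1, true, 1, 3, [3, 2], [1, 1],
    [⟨8, -2, [(0, 2), (1, 1)], [(3, 3), (3, 3)], none⟩,
     ⟨1, 0, [(0, 2), (1, 1)], [(2, 4), (3, 3)], none⟩,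
     ⟨19, -5, [(0, 2), (0, 2)], [(2, 4), (3, 3)], none⟩,
     ⟨9, -2, [(0, 2), (0, 2)], [(2, 4), (3, 2)], none⟩,
     ⟨20, -5, [(0, 2), (0, 2)], [(2, 4), (2, 3)], none⟩,
     ⟨6, -1, [(0, 2), (0, 2)], [(2, 3), (2, 3)], none⟩,
     ⟨7, -1, [(0, 2), (0, 1)], [(2, 3), (2, 3)], none⟩,
     ⟨0, 1, [(0, 1), (0, 1)], [(2, 3), (2, 3)], none⟩], 1, 1⟩,
  ⟨⟨2, 7, 3, 10⟩, 0, true, 1, 2, [3, 2], [2, 1],
    [⟨7, -2, [(0, 3), (1, 1)], [(3, 3), (3, 3)], none⟩,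
     ⟨1, 0, [(0, 2), (1, 1)], [(3, 3), (3, 3)], none⟩,
     ⟨8, -2, [(0, 2), (0, 2)], [(3, 3), (3, 3)], none⟩,
     ⟨19, -5, [(0, 2), (0, 2)], [(2, 4), (3, 3)], none⟩,
     ⟨9, -2, [(0, 2), (0, 2)], [(2, 4), (3, 2)], none⟩,
     ⟨6, -1, [(0, 2), (0, 2)], [(2, 4), (2, 3)], none⟩,
     ⟨20, -5, [(0, 2), (0, 1)], [(2, 4), (2, 3)], none⟩,
     ⟨0, 1, [(0, 2), (0, 1)], [(2, 3), (2, 3)], none⟩], 34, -7⟩,
  ⟨⟨3, 10, 4, 13⟩, -1, true, 1, 3, [3, 3], [2, 1],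
    [⟨20, -6, [(0, 3), (1, 1)], [(3, 4), (3, 3)], none⟩,
     ⟨7, -2, [(0, 3), (1, 1)], [(3, 3), (3, 3)], none⟩,
     ⟨1, 0, [(0, 2), (1, 1)], [(3, 3), (3, 3)], none⟩,
     ⟨8, -2, [(0, 2), (0, 2)], [(3, 3), (3, 3)], none⟩,
     ⟨9, -2, [(0, 2), (0, 2)], [(2, 4), (3, 3)], none⟩,
     ⟨19, -5, [(0, 2), (0, 2)], [(2, 4), (2, 4)], none⟩,
     ⟨6, -1, [(0, 2), (0, 2)], [(2, 4), (2, 3)], none⟩,
     ⟨0, 1, [(0, 2), (0, 1)], [(2, 4), (2, 3)], none⟩], 19, -4⟩,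
  ⟨⟨4, 13, 6, 19⟩, -1, true, 1, 3, [3, 3], [2, 1],
    [⟨7, -2, [(0, 3), (1, 1)], [(3, 4), (3, 3)], none⟩,
     ⟨20, -6, [(0, 2), (1, 1)], [(3, 4), (3, 3)], none⟩,
     ⟨1, 0, [(0, 2), (1, 1)], [(3, 3), (3, 3)], none⟩,
     ⟨8, -2, [(0, 2), (0, 2)], [(3, 3), (3, 3)], none⟩,
     ⟨9, -2, [(0, 2), (0, 2)], [(2, 4), (3, 3)], none⟩,
     ⟨6, -1, [(0, 2), (0, 2)], [(2, 4), (2, 4)], none⟩,
     ⟨19, -5, [(0, 2), (0, 1)], [(2, 4), (2, 4)], none⟩,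
     ⟨0, 1, [(0, 2), (0, 1)], [(2, 4), (2, 3)], none⟩], 32, -8⟩,
  ⟨⟨6, 19, 1, 3⟩, -1, true, 1, 3, [3, 3], [2, 1],
    [⟨19, -6, [(0, 3), (1, 1)], [(3, 4), (3, 4)], none⟩,
     ⟨7, -2, [(0, 3), (1, 1)], [(3, 4), (3, 3)], none⟩,
     ⟨1, 0, [(0, 2), (1, 1)], [(3, 4), (3, 3)], none⟩,
     ⟨20, -6, [(0, 2), (0, 2)], [(3, 4), (3, 3)], none⟩,
     ⟨8, -2, [(0, 2), (0, 2)], [(3, 3), (3, 3)], none⟩,
     ⟨9, -2, [(0, 2), (0, 2)], [(2, 4), (3, 3)], none⟩,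
     ⟨6, -1, [(0, 2), (0, 2)], [(2, 4), (2, 4)], none⟩,
     ⟨0, 1, [(0, 2), (0, 1)], [(2, 4), (2, 4)], none⟩], 13, -2⟩,
  ⟨⟨1, 3, 7, 20⟩, -2, true, 1, 4, [4, 3], [2, 1],
    [⟨6, -2, [(0, 3), (1, 2)], [(3, 4), (4, 3)], none⟩,
     ⟨9, -3, [(0, 3), (1, 1)], [(3, 4), (4, 3)], none⟩,
     ⟨1, 0, [(0, 3), (1, 1)], [(3, 4), (3, 4)], none⟩,
     ⟨7, -2, [(0, 3), (0, 2)], [(3, 4), (3, 4)], none⟩,
     ⟨19, -6, [(0, 2), (0, 2)], [(3, 4), (3, 4)], none⟩,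
     ⟨8, -2, [(0, 2), (0, 2)], [(3, 4), (3, 3)], none⟩,
     ⟨20, -6, [(0, 2), (0, 2)], [(2, 5), (3, 3)], none⟩,
     ⟨0, 1, [(0, 2), (0, 2)], [(2, 4), (3, 3)], none⟩], 26, -8⟩,
  ⟨⟨7, 20, 5, 14⟩, -2, true, 1, 4, [4, 3], [2, 1],
    [⟨20, -7, [(0, 3), (1, 2)], [(3, 5), (4, 3)], none⟩,
     ⟨6, -2, [(0, 3), (1, 2)], [(3, 4), (4, 3)], none⟩,
     ⟨9, -3, [(0, 3), (1, 1)], [(3, 4), (4, 3)], none⟩,
     ⟨1, 0, [(0, 3), (1, 1)], [(3, 4), (3, 4)], none⟩,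
     ⟨7, -2, [(0, 3), (0, 2)], [(3, 4), (3, 4)], none⟩,
     ⟨19, -6, [(0, 2), (0, 2)], [(3, 4), (3, 4)], none⟩,
     ⟨8, -2, [(0, 2), (0, 2)], [(3, 4), (3, 3)], none⟩,
     ⟨0, 1, [(0, 2), (0, 2)], [(2, 5), (3, 3)], none⟩], 6, -1⟩,
  ⟨⟨5, 14, 4, 11⟩, -2, true, 1, 4, [4, 3], [2, 1],
    [⟨6, -2, [(0, 3), (1, 2)], [(3, 5), (4, 3)], none⟩,
     ⟨20, -7, [(0, 3), (1, 1)], [(3, 5), (4, 3)], none⟩,
     ⟨9, -3, [(0, 3), (1, 1)], [(3, 4), (4, 3)], none⟩,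
     ⟨1, 0, [(0, 3), (1, 1)], [(3, 4), (3, 4)], none⟩,
     ⟨7, -2, [(0, 3), (0, 2)], [(3, 4), (3, 4)], none⟩,
     ⟨19, -6, [(0, 2), (0, 2)], [(3, 4), (3, 4)], none⟩,
     ⟨8, -2, [(0, 2), (0, 2)], [(3, 4), (3, 3)], none⟩,
     ⟨0, 1, [(0, 2), (0, 2)], [(2, 5), (3, 3)], none⟩], 20, -6⟩,
  ⟨⟨4, 11, 7, 19⟩, -2, true, 1, 4, [4, 3], [2, 1],
    [⟨6, -2, [(0, 3), (1, 2)], [(3, 5), (4, 3)], none⟩,
     ⟨9, -3, [(0, 3), (1, 1)], [(3, 5), (4, 3)], none⟩,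
     ⟨20, -7, [(0, 3), (1, 1)], [(3, 5), (3, 4)], none⟩,
     ⟨1, 0, [(0, 3), (1, 1)], [(3, 4), (3, 4)], none⟩,
     ⟨7, -2, [(0, 3), (0, 2)], [(3, 4), (3, 4)], none⟩,
     ⟨8, -2, [(0, 2), (0, 2)], [(3, 4), (3, 4)], none⟩,
     ⟨19, -6, [(0, 2), (0, 2)], [(2, 5), (3, 4)], none⟩,
     ⟨0, 1, [(0, 2), (0, 2)], [(2, 5), (3, 3)], none⟩], 20, -6⟩,
  ⟨⟨7, 19, 3, 8⟩, -2, true, 1, 4, [4, 3], [2, 1],
    [⟨19, -7, [(0, 3), (1, 2)], [(3, 5), (4, 4)], none⟩,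
     ⟨6, -2, [(0, 3), (1, 2)], [(3, 5), (4, 3)], none⟩,
     ⟨9, -3, [(0, 3), (1, 1)], [(3, 5), (4, 3)], none⟩,
     ⟨1, 0, [(0, 3), (1, 1)], [(3, 5), (3, 4)], none⟩,
     ⟨20, -7, [(0, 3), (0, 2)], [(3, 5), (3, 4)], none⟩,
     ⟨7, -2, [(0, 3), (0, 2)], [(3, 4), (3, 4)], none⟩,
     ⟨8, -2, [(0, 2), (0, 2)], [(3, 4), (3, 4)], none⟩,
     ⟨0, 1, [(0, 2), (0, 2)], [(2, 5), (3, 4)], none⟩], 20, -6⟩,
  ⟨⟨3, 8, 5, 13⟩, -2, true, 1, 4, [4, 3], [2, 1],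
    [⟨8, -3, [(0, 3), (1, 2)], [(4, 4), (4, 4)], none⟩,
     ⟨19, -7, [(0, 3), (1, 2)], [(3, 5), (4, 4)], none⟩,
     ⟨6, -2, [(0, 3), (1, 2)], [(3, 5), (4, 3)], none⟩,
     ⟨1, 0, [(0, 3), (1, 1)], [(3, 5), (4, 3)], none⟩,
     ⟨9, -3, [(0, 3), (0, 2)], [(3, 5), (4, 3)], none⟩,
     ⟨20, -7, [(0, 3), (0, 2)], [(3, 5), (3, 4)], none⟩,
     ⟨7, -2, [(0, 3), (0, 2)], [(3, 4), (3, 4)], none⟩,
     ⟨0, 1, [(0, 2), (0, 2)], [(3, 4), (3, 4)], none⟩], 20, -6⟩,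
  ⟨⟨5, 13, 7, 18⟩, -2, true, 1, 4, [4, 3], [2, 1],
    [⟨8, -3, [(0, 3), (1, 2)], [(4, 4), (4, 4)], none⟩,
     ⟨6, -2, [(0, 3), (1, 2)], [(3, 5), (4, 4)], none⟩,
     ⟨19, -7, [(0, 3), (1, 1)], [(3, 5), (4, 4)], none⟩,
     ⟨1, 0, [(0, 3), (1, 1)], [(3, 5), (4, 3)], none⟩,
     ⟨9, -3, [(0, 3), (0, 2)], [(3, 5), (4, 3)], none⟩,
     ⟨7, -2, [(0, 3), (0, 2)], [(3, 5), (3, 4)], none⟩,
     ⟨20, -7, [(0, 2), (0, 2)], [(3, 5), (3, 4)], none⟩,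
     ⟨0, 1, [(0, 2), (0, 2)], [(3, 4), (3, 4)], none⟩], 20, -6⟩,
  ⟨⟨7, 18, 2, 5⟩, -2, true, 1, 4, [4, 3], [2, 1],
    [⟨8, -3, [(0, 3), (1, 2)], [(4, 4), (4, 4)], none⟩,
     ⟨6, -2, [(0, 3), (1, 2)], [(3, 5), (4, 4)], none⟩,
     ⟨1, 0, [(0, 3), (1, 1)], [(3, 5), (4, 4)], none⟩,
     ⟨19, -7, [(0, 3), (0, 2)], [(3, 5), (4, 4)], none⟩,
     ⟨9, -3, [(0, 3), (0, 2)], [(3, 5), (4, 3)], none⟩,
     ⟨7, -2, [(0, 3), (0, 2)], [(3, 5), (3, 4)], none⟩,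
     ⟨20, -7, [(0, 2), (0, 2)], [(3, 5), (3, 4)], none⟩,
     ⟨0, 1, [(0, 2), (0, 2)], [(3, 4), (3, 4)], none⟩], 20, -6⟩,
  ⟨⟨2, 5, 5, 12⟩, -2, true, 2, 4, [4, 4], [2, 2],
    [⟨20, -8, [(0, 3), (1, 2)], [(4, 5), (4, 4)], none⟩,
     ⟨8, -3, [(0, 3), (1, 2)], [(4, 4), (4, 4)], none⟩,
     ⟨1, 0, [(0, 3), (1, 2)], [(3, 5), (4, 4)], none⟩,
     ⟨6, -2, [(0, 3), (0, 3)], [(3, 5), (4, 4)], none⟩,
     ⟨9, -3, [(0, 3), (0, 2)], [(3, 5), (4, 4)], none⟩,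
     ⟨19, -7, [(0, 3), (0, 2)], [(3, 5), (3, 5)], none⟩,
     ⟨7, -2, [(0, 3), (0, 2)], [(3, 5), (3, 4)], none⟩,
     ⟨0, 1, [(0, 2), (0, 2)], [(3, 5), (3, 4)], none⟩], 30, -10⟩,
  ⟨⟨5, 12, 8, 19⟩, -3, true, 2, 5, [5, 4], [2, 2],
    [⟨8, -3, [(0, 3), (1, 2)], [(4, 5), (4, 4)], none⟩,
     ⟨20, -8, [(0, 3), (1, 2)], [(3, 6), (4, 4)], none⟩,
     ⟨1, 0, [(0, 3), (1, 2)], [(3, 5), (4, 4)], none⟩,
     ⟨6, -2, [(0, 3), (0, 3)], [(3, 5), (4, 4)], none⟩,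
     ⟨9, -3, [(0, 3), (0, 2)], [(3, 5), (4, 4)], none⟩,
     ⟨7, -2, [(0, 3), (0, 2)], [(3, 5), (3, 5)], none⟩,
     ⟨19, -7, [(0, 2), (0, 2)], [(3, 5), (3, 5)], none⟩,
     ⟨0, 1, [(0, 2), (0, 2)], [(3, 5), (3, 4)], none⟩], 37, -15⟩,
  ⟨⟨8, 19, 3, 7⟩, -3, true, 2, 5, [5, 4], [2, 2],
    [⟨19, -8, [(0, 3), (1, 2)], [(4, 5), (4, 5)], none⟩,
     ⟨8, -3, [(0, 3), (1, 2)], [(4, 5), (4, 4)], none⟩,
     ⟨1, 0, [(0, 3), (1, 2)], [(3, 6), (4, 4)], none⟩,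
     ⟨20, -8, [(0, 3), (0, 3)], [(3, 6), (4, 4)], none⟩,
     ⟨6, -2, [(0, 3), (0, 3)], [(3, 5), (4, 4)], none⟩,
     ⟨9, -3, [(0, 3), (0, 2)], [(3, 5), (4, 4)], none⟩,
     ⟨7, -2, [(0, 3), (0, 2)], [(3, 5), (3, 5)], none⟩,
     ⟨0, 1, [(0, 2), (0, 2)], [(3, 5), (3, 5)], none⟩], 18, -7⟩,
  ⟨⟨3, 7, 4, 9⟩, -2, true, 2, 4, [5, 4], [3, 2],
    [⟨7, -3, [(0, 4), (1, 2)], [(4, 5), (4, 5)], none⟩,
     ⟨19, -8, [(0, 3), (1, 2)], [(4, 5), (4, 5)], none⟩,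
     ⟨1, 0, [(0, 3), (1, 2)], [(4, 5), (4, 4)], none⟩,
     ⟨8, -3, [(0, 3), (0, 3)], [(4, 5), (4, 4)], none⟩,
     ⟨6, -2, [(0, 3), (0, 3)], [(3, 6), (4, 4)], none⟩,
     ⟨20, -8, [(0, 3), (0, 2)], [(3, 6), (4, 4)], none⟩,
     ⟨9, -3, [(0, 3), (0, 2)], [(3, 5), (4, 4)], none⟩,
     ⟨0, 1, [(0, 3), (0, 2)], [(3, 5), (3, 5)], none⟩], 30, -10⟩,
  ⟨⟨4, 9, 9, 20⟩, -2, true, 2, 4, [5, 4], [3, 2],
    [⟨9, -4, [(0, 4), (1, 2)], [(4, 5), (5, 4)], none⟩,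
     ⟨7, -3, [(0, 4), (1, 2)], [(4, 5), (4, 5)], none⟩,
     ⟨1, 0, [(0, 3), (1, 2)], [(4, 5), (4, 5)], none⟩,
     ⟨19, -8, [(0, 3), (0, 3)], [(4, 5), (4, 5)], none⟩,
     ⟨8, -3, [(0, 3), (0, 3)], [(4, 5), (4, 4)], none⟩,
     ⟨6, -2, [(0, 3), (0, 3)], [(3, 6), (4, 4)], none⟩,
     ⟨20, -8, [(0, 3), (0, 2)], [(3, 6), (4, 4)], none⟩,
     ⟨0, 1, [(0, 3), (0, 2)], [(3, 5), (4, 4)], none⟩], 30, -10⟩,
  ⟨⟨9, 20, 5, 11⟩, -2, true, 2, 4, [5, 4], [3, 2],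
    [⟨20, -9, [(0, 4), (1, 2)], [(4, 6), (5, 4)], none⟩,
     ⟨9, -4, [(0, 4), (1, 2)], [(4, 5), (5, 4)], none⟩,
     ⟨7, -3, [(0, 4), (1, 2)], [(4, 5), (4, 5)], none⟩,
     ⟨1, 0, [(0, 3), (1, 2)], [(4, 5), (4, 5)], none⟩,
     ⟨19, -8, [(0, 3), (0, 3)], [(4, 5), (4, 5)], none⟩,
     ⟨8, -3, [(0, 3), (0, 3)], [(4, 5), (4, 4)], none⟩,
     ⟨6, -2, [(0, 3), (0, 3)], [(3, 6), (4, 4)], none⟩,
     ⟨0, 1, [(0, 3), (0, 2)], [(3, 6), (4, 4)], none⟩], 30, -10⟩,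
  ⟨⟨5, 11, 6, 13⟩, -2, true, 2, 4, [5, 4], [3, 2],
    [⟨9, -4, [(0, 4), (1, 2)], [(4, 6), (5, 4)], none⟩,
     ⟨20, -9, [(0, 4), (1, 2)], [(4, 6), (4, 5)], none⟩,
     ⟨7, -3, [(0, 4), (1, 2)], [(4, 5), (4, 5)], none⟩,
     ⟨1, 0, [(0, 3), (1, 2)], [(4, 5), (4, 5)], none⟩,
     ⟨8, -3, [(0, 3), (0, 3)], [(4, 5), (4, 5)], none⟩,
     ⟨19, -8, [(0, 3), (0, 3)], [(3, 6), (4, 5)], none⟩,
     ⟨6, -2, [(0, 3), (0, 3)], [(3, 6), (4, 4)], none⟩,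
     ⟨0, 1, [(0, 3), (0, 2)], [(3, 6), (4, 4)], none⟩], 30, -10⟩,
  ⟨⟨6, 13, 9, 19⟩, -2, true, 2, 4, [5, 4], [3, 2],
    [⟨9, -4, [(0, 4), (1, 2)], [(4, 6), (5, 4)], none⟩,
     ⟨7, -3, [(0, 4), (1, 2)], [(4, 6), (4, 5)], none⟩,
     ⟨20, -9, [(0, 3), (1, 2)], [(4, 6), (4, 5)], none⟩,
     ⟨1, 0, [(0, 3), (1, 2)], [(4, 5), (4, 5)], none⟩,
     ⟨8, -3, [(0, 3), (0, 3)], [(4, 5), (4, 5)], none⟩,
     ⟨6, -2, [(0, 3), (0, 3)], [(3, 6), (4, 5)], none⟩,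
     ⟨19, -8, [(0, 3), (0, 2)], [(3, 6), (4, 5)], none⟩,
     ⟨0, 1, [(0, 3), (0, 2)], [(3, 6), (4, 4)], none⟩], 56, -22⟩,
  ⟨⟨9, 19, 1, 2⟩, -2, true, 2, 4, [5, 4], [3, 2],
    [⟨19, -9, [(0, 4), (1, 2)], [(4, 6), (5, 5)], none⟩,
     ⟨9, -4, [(0, 4), (1, 2)], [(4, 6), (5, 4)], none⟩,
     ⟨7, -3, [(0, 4), (1, 2)], [(4, 6), (4, 5)], none⟩,
     ⟨1, 0, [(0, 3), (1, 2)], [(4, 6), (4, 5)], none⟩,
     ⟨20, -9, [(0, 3), (0, 3)], [(4, 6), (4, 5)], none⟩,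
     ⟨8, -3, [(0, 3), (0, 3)], [(4, 5), (4, 5)], none⟩,
     ⟨6, -2, [(0, 3), (0, 3)], [(3, 6), (4, 5)], none⟩,
     ⟨0, 1, [(0, 3), (0, 2)], [(3, 6), (4, 5)], none⟩], 18, -4⟩,
  ⟨⟨1, 2, 10, 19⟩, -4, true, 2, 6, [6, 5], [3, 2],
    [⟨6, -3, [(0, 4), (1, 3)], [(5, 6), (5, 5)], none⟩,
     ⟨8, -4, [(0, 4), (1, 2)], [(5, 6), (5, 5)], none⟩,
     ⟨20, -10, [(0, 4), (1, 2)], [(4, 7), (5, 5)], none⟩,
     ⟨1, 0, [(0, 4), (1, 2)], [(4, 6), (5, 5)], none⟩,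
     ⟨7, -3, [(0, 4), (0, 3)], [(4, 6), (5, 5)], none⟩,
     ⟨9, -4, [(0, 3), (0, 3)], [(4, 6), (5, 5)], none⟩,
     ⟨19, -9, [(0, 3), (0, 3)], [(4, 6), (4, 6)], none⟩,
     ⟨0, 1, [(0, 3), (0, 3)], [(4, 6), (4, 5)], none⟩], 42, -21⟩]

theorem recs0_chk : recs0.all (fun r => r.chk par 3 1000) = true := by decide +kernel

/-- cells -/
def recs1 : List Rec := [
  ⟨⟨10, 19, 7, 13⟩, -4, true, 2, 6, [6, 5], [3, 2],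
    [⟨19, -10, [(0, 4), (1, 3)], [(5, 6), (5, 6)], none⟩,
     ⟨6, -3, [(0, 4), (1, 3)], [(5, 6), (5, 5)], none⟩,
     ⟨8, -4, [(0, 4), (1, 2)], [(5, 6), (5, 5)], none⟩,
     ⟨1, 0, [(0, 4), (1, 2)], [(4, 7), (5, 5)], none⟩,
     ⟨20, -10, [(0, 4), (0, 3)], [(4, 7), (5, 5)], none⟩,
     ⟨7, -3, [(0, 4), (0, 3)], [(4, 6), (5, 5)], none⟩,
     ⟨9, -4, [(0, 3), (0, 3)], [(4, 6), (5, 5)], none⟩,
     ⟨0, 1, [(0, 3), (0, 3)], [(4, 6), (4, 6)], none⟩], 4, -1⟩,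
  ⟨⟨7, 13, 6, 11⟩, -4, true, 2, 6, [6, 5], [3, 2],
    [⟨6, -3, [(0, 4), (1, 3)], [(5, 6), (5, 6)], none⟩,
     ⟨19, -10, [(0, 4), (1, 2)], [(5, 6), (5, 6)], none⟩,
     ⟨8, -4, [(0, 4), (1, 2)], [(5, 6), (5, 5)], none⟩,
     ⟨1, 0, [(0, 4), (1, 2)], [(4, 7), (5, 5)], none⟩,
     ⟨7, -3, [(0, 4), (0, 3)], [(4, 7), (5, 5)], none⟩,
     ⟨20, -10, [(0, 3), (0, 3)], [(4, 7), (5, 5)], none⟩,
     ⟨9, -4, [(0, 3), (0, 3)], [(4, 6), (5, 5)], none⟩,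
     ⟨0, 1, [(0, 3), (0, 3)], [(4, 6), (4, 6)], none⟩], 30, -15⟩,
  ⟨⟨6, 11, 11, 20⟩, -4, true, 2, 6, [6, 5], [3, 2],
    [⟨6, -3, [(0, 4), (1, 3)], [(5, 6), (5, 6)], none⟩,
     ⟨8, -4, [(0, 4), (1, 2)], [(5, 6), (5, 6)], none⟩,
     ⟨19, -10, [(0, 4), (1, 2)], [(4, 7), (5, 6)], none⟩,
     ⟨1, 0, [(0, 4), (1, 2)], [(4, 7), (5, 5)], none⟩,
     ⟨7, -3, [(0, 4), (0, 3)], [(4, 7), (5, 5)], none⟩,
     ⟨9, -4, [(0, 3), (0, 3)], [(4, 7), (5, 5)], none⟩,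
     ⟨20, -10, [(0, 3), (0, 3)], [(4, 7), (4, 6)], none⟩,
     ⟨0, 1, [(0, 3), (0, 3)], [(4, 6), (4, 6)], none⟩], 30, -15⟩,
  ⟨⟨11, 20, 5, 9⟩, -4, true, 2, 6, [6, 5], [3, 2],
    [⟨20, -11, [(0, 4), (1, 3)], [(5, 7), (5, 6)], none⟩,
     ⟨6, -3, [(0, 4), (1, 3)], [(5, 6), (5, 6)], none⟩,
     ⟨8, -4, [(0, 4), (1, 2)], [(5, 6), (5, 6)], none⟩,
     ⟨19, -10, [(0, 4), (1, 2)], [(4, 7), (5, 6)], none⟩,
     ⟨1, 0, [(0, 4), (1, 2)], [(4, 7), (5, 5)], none⟩,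
     ⟨7, -3, [(0, 4), (0, 3)], [(4, 7), (5, 5)], none⟩,
     ⟨9, -4, [(0, 3), (0, 3)], [(4, 7), (5, 5)], none⟩,
     ⟨0, 1, [(0, 3), (0, 3)], [(4, 7), (4, 6)], none⟩], 30, -15⟩,
  ⟨⟨5, 9, 4, 7⟩, -4, true, 2, 6, [6, 5], [3, 2],
    [⟨9, -5, [(0, 4), (1, 3)], [(5, 7), (6, 5)], none⟩,
     ⟨20, -11, [(0, 4), (1, 3)], [(5, 7), (5, 6)], none⟩,
     ⟨6, -3, [(0, 4), (1, 3)], [(5, 6), (5, 6)], none⟩,
     ⟨8, -4, [(0, 4), (1, 2)], [(5, 6), (5, 6)], none⟩,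
     ⟨1, 0, [(0, 4), (1, 2)], [(4, 7), (5, 6)], none⟩,
     ⟨19, -10, [(0, 4), (0, 3)], [(4, 7), (5, 6)], none⟩,
     ⟨7, -3, [(0, 4), (0, 3)], [(4, 7), (5, 5)], none⟩,
     ⟨0, 1, [(0, 3), (0, 3)], [(4, 7), (5, 5)], none⟩], 30, -15⟩,
  ⟨⟨4, 7, 11, 19⟩, -3, true, 2, 5, [6, 5], [4, 2],
    [⟨7, -4, [(0, 5), (1, 3)], [(5, 7), (6, 5)], none⟩,
     ⟨9, -5, [(0, 4), (1, 3)], [(5, 7), (6, 5)], none⟩,
     ⟨6, -3, [(0, 4), (1, 3)], [(5, 7), (5, 6)], none⟩,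
     ⟨20, -11, [(0, 4), (1, 2)], [(5, 7), (5, 6)], none⟩,
     ⟨1, 0, [(0, 4), (1, 2)], [(5, 6), (5, 6)], none⟩,
     ⟨8, -4, [(0, 4), (0, 3)], [(5, 6), (5, 6)], none⟩,
     ⟨19, -10, [(0, 4), (0, 3)], [(4, 7), (5, 6)], none⟩,
     ⟨0, 1, [(0, 4), (0, 3)], [(4, 7), (5, 5)], none⟩], 42, -19⟩,
  ⟨⟨11, 19, 7, 12⟩, -3, true, 2, 5, [6, 5], [4, 2],
    [⟨19, -11, [(0, 5), (1, 3)], [(5, 7), (6, 6)], none⟩,
     ⟨7, -4, [(0, 5), (1, 3)], [(5, 7), (6, 5)], none⟩,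
     ⟨9, -5, [(0, 4), (1, 3)], [(5, 7), (6, 5)], none⟩,
     ⟨6, -3, [(0, 4), (1, 3)], [(5, 7), (5, 6)], none⟩,
     ⟨1, 0, [(0, 4), (1, 2)], [(5, 7), (5, 6)], none⟩,
     ⟨20, -11, [(0, 4), (0, 3)], [(5, 7), (5, 6)], none⟩,
     ⟨8, -4, [(0, 4), (0, 3)], [(5, 6), (5, 6)], none⟩,
     ⟨0, 1, [(0, 4), (0, 3)], [(4, 7), (5, 6)], none⟩], 23, -8⟩,
  ⟨⟨7, 12, 3, 5⟩, -4, true, 2, 6, [7, 5], [4, 2],
    [⟨7, -4, [(0, 5), (1, 3)], [(5, 7), (6, 6)], none⟩,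
     ⟨19, -11, [(0, 4), (1, 3)], [(5, 7), (6, 6)], none⟩,
     ⟨9, -5, [(0, 4), (1, 3)], [(5, 7), (6, 5)], none⟩,
     ⟨6, -3, [(0, 4), (1, 3)], [(5, 7), (5, 6)], none⟩,
     ⟨1, 0, [(0, 4), (1, 2)], [(5, 7), (5, 6)], none⟩,
     ⟨8, -4, [(0, 4), (0, 3)], [(5, 7), (5, 6)], none⟩,
     ⟨20, -11, [(0, 4), (0, 3)], [(4, 8), (5, 6)], none⟩,
     ⟨0, 1, [(0, 4), (0, 3)], [(4, 7), (5, 6)], none⟩], 30, -15⟩,
  ⟨⟨3, 5, 11, 18⟩, -4, true, 3, 6, [7, 6], [4, 3],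
    [⟨20, -12, [(0, 5), (1, 3)], [(5, 8), (6, 6)], none⟩,
     ⟨7, -4, [(0, 5), (1, 3)], [(5, 7), (6, 6)], none⟩,
     ⟨9, -5, [(0, 4), (1, 3)], [(5, 7), (6, 6)], none⟩,
     ⟨19, -11, [(0, 4), (1, 3)], [(5, 7), (5, 7)], none⟩,
     ⟨1, 0, [(0, 4), (1, 3)], [(5, 7), (5, 6)], none⟩,
     ⟨6, -3, [(0, 4), (0, 4)], [(5, 7), (5, 6)], none⟩,
     ⟨8, -4, [(0, 4), (0, 3)], [(5, 7), (5, 6)], none⟩,
     ⟨0, 1, [(0, 4), (0, 3)], [(4, 8), (5, 6)], none⟩], 40, -21⟩,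
  ⟨⟨11, 18, 8, 13⟩, -4, true, 3, 6, [7, 6], [4, 3],
    [⟨20, -12, [(0, 5), (1, 3)], [(5, 8), (6, 6)], none⟩,
     ⟨7, -4, [(0, 5), (1, 3)], [(5, 7), (6, 6)], none⟩,
     ⟨9, -5, [(0, 4), (1, 3)], [(5, 7), (6, 6)], none⟩,
     ⟨1, 0, [(0, 4), (1, 3)], [(5, 7), (5, 7)], none⟩,
     ⟨19, -11, [(0, 4), (0, 4)], [(5, 7), (5, 7)], none⟩,
     ⟨6, -3, [(0, 4), (0, 4)], [(5, 7), (5, 6)], none⟩,
     ⟨8, -4, [(0, 4), (0, 3)], [(5, 7), (5, 6)], none⟩,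
     ⟨0, 1, [(0, 4), (0, 3)], [(4, 8), (5, 6)], none⟩], 40, -21⟩,
  ⟨⟨8, 13, 5, 8⟩, -4, true, 3, 6, [7, 6], [4, 3],
    [⟨7, -4, [(0, 5), (1, 3)], [(5, 8), (6, 6)], none⟩,
     ⟨20, -12, [(0, 4), (1, 3)], [(5, 8), (6, 6)], none⟩,
     ⟨9, -5, [(0, 4), (1, 3)], [(5, 7), (6, 6)], none⟩,
     ⟨1, 0, [(0, 4), (1, 3)], [(5, 7), (5, 7)], none⟩,
     ⟨6, -3, [(0, 4), (0, 4)], [(5, 7), (5, 7)], none⟩,
     ⟨19, -11, [(0, 4), (0, 3)], [(5, 7), (5, 7)], none⟩,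
     ⟨8, -4, [(0, 4), (0, 3)], [(5, 7), (5, 6)], none⟩,
     ⟨0, 1, [(0, 4), (0, 3)], [(4, 8), (5, 6)], none⟩], 40, -21⟩,
  ⟨⟨5, 8, 12, 19⟩, -4, true, 3, 6, [7, 6], [4, 3],
    [⟨8, -5, [(0, 5), (1, 3)], [(6, 7), (6, 6)], none⟩,
     ⟨7, -4, [(0, 5), (1, 3)], [(5, 8), (6, 6)], none⟩,
     ⟨20, -12, [(0, 4), (1, 3)], [(5, 8), (6, 6)], none⟩,
     ⟨1, 0, [(0, 4), (1, 3)], [(5, 7), (6, 6)], none⟩,
     ⟨9, -5, [(0, 4), (0, 4)], [(5, 7), (6, 6)], none⟩,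
     ⟨6, -3, [(0, 4), (0, 4)], [(5, 7), (5, 7)], none⟩,
     ⟨19, -11, [(0, 4), (0, 3)], [(5, 7), (5, 7)], none⟩,
     ⟨0, 1, [(0, 4), (0, 3)], [(5, 7), (5, 6)], none⟩], 40, -21⟩,
  ⟨⟨12, 19, 7, 11⟩, -4, true, 3, 6, [7, 6], [4, 3],
    [⟨19, -12, [(0, 5), (1, 3)], [(6, 7), (6, 7)], none⟩,
     ⟨8, -5, [(0, 5), (1, 3)], [(6, 7), (6, 6)], none⟩,
     ⟨7, -4, [(0, 5), (1, 3)], [(5, 8), (6, 6)], none⟩,
     ⟨1, 0, [(0, 4), (1, 3)], [(5, 8), (6, 6)], none⟩,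
     ⟨20, -12, [(0, 4), (0, 4)], [(5, 8), (6, 6)], none⟩,
     ⟨9, -5, [(0, 4), (0, 4)], [(5, 7), (6, 6)], none⟩,
     ⟨6, -3, [(0, 4), (0, 4)], [(5, 7), (5, 7)], none⟩,
     ⟨0, 1, [(0, 4), (0, 3)], [(5, 7), (5, 7)], none⟩], 40, -21⟩,
  ⟨⟨7, 11, 9, 14⟩, -4, true, 3, 6, [7, 6], [4, 3],
    [⟨8, -5, [(0, 5), (1, 3)], [(6, 7), (6, 7)], none⟩,
     ⟨19, -12, [(0, 5), (1, 3)], [(5, 8), (6, 7)], none⟩,
     ⟨7, -4, [(0, 5), (1, 3)], [(5, 8), (6, 6)], none⟩,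
     ⟨1, 0, [(0, 4), (1, 3)], [(5, 8), (6, 6)], none⟩,
     ⟨9, -5, [(0, 4), (0, 4)], [(5, 8), (6, 6)], none⟩,
     ⟨20, -12, [(0, 4), (0, 4)], [(5, 8), (5, 7)], none⟩,
     ⟨6, -3, [(0, 4), (0, 4)], [(5, 7), (5, 7)], none⟩,
     ⟨0, 1, [(0, 4), (0, 3)], [(5, 7), (5, 7)], none⟩], 40, -21⟩,
  ⟨⟨9, 14, 13, 20⟩, -4, true, 3, 6, [7, 6], [4, 3],
    [⟨8, -5, [(0, 5), (1, 3)], [(6, 7), (6, 7)], none⟩,
     ⟨19, -12, [(0, 5), (1, 3)], [(5, 8), (6, 7)], none⟩,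
     ⟨7, -4, [(0, 5), (1, 3)], [(5, 8), (6, 6)], none⟩,
     ⟨1, 0, [(0, 4), (1, 3)], [(5, 8), (6, 6)], none⟩,
     ⟨9, -5, [(0, 4), (0, 4)], [(5, 8), (6, 6)], none⟩,
     ⟨6, -3, [(0, 4), (0, 4)], [(5, 8), (5, 7)], none⟩,
     ⟨20, -12, [(0, 4), (0, 3)], [(5, 8), (5, 7)], none⟩,
     ⟨0, 1, [(0, 4), (0, 3)], [(5, 7), (5, 7)], none⟩], 54, -30⟩,
  ⟨⟨13, 20, 2, 3⟩, -4, true, 3, 6, [7, 6], [4, 3],
    [⟨20, -13, [(0, 5), (1, 3)], [(6, 8), (6, 7)], none⟩,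
     ⟨8, -5, [(0, 5), (1, 3)], [(6, 7), (6, 7)], none⟩,
     ⟨19, -12, [(0, 5), (1, 3)], [(5, 8), (6, 7)], none⟩,
     ⟨7, -4, [(0, 5), (1, 3)], [(5, 8), (6, 6)], none⟩,
     ⟨1, 0, [(0, 4), (1, 3)], [(5, 8), (6, 6)], none⟩,
     ⟨9, -5, [(0, 4), (0, 4)], [(5, 8), (6, 6)], none⟩,
     ⟨6, -3, [(0, 4), (0, 4)], [(5, 8), (5, 7)], none⟩,
     ⟨0, 1, [(0, 4), (0, 3)], [(5, 8), (5, 7)], none⟩], 34, -17⟩,
  ⟨⟨2, 3, 13, 19⟩, -5, true, 3, 7, [8, 6], [4, 3],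
    [⟨6, -4, [(0, 5), (1, 4)], [(6, 8), (7, 6)], none⟩,
     ⟨9, -6, [(0, 5), (1, 3)], [(6, 8), (7, 6)], none⟩,
     ⟨8, -5, [(0, 5), (1, 3)], [(6, 8), (6, 7)], none⟩,
     ⟨20, -13, [(0, 5), (1, 3)], [(5, 9), (6, 7)], none⟩,
     ⟨1, 0, [(0, 5), (1, 3)], [(5, 8), (6, 7)], none⟩,
     ⟨7, -4, [(0, 5), (0, 4)], [(5, 8), (6, 7)], none⟩,
     ⟨19, -12, [(0, 4), (0, 4)], [(5, 8), (6, 7)], none⟩,
     ⟨0, 1, [(0, 4), (0, 4)], [(5, 8), (6, 6)], none⟩], 47, -29⟩,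
  ⟨⟨13, 19, 9, 13⟩, -5, true, 3, 7, [8, 6], [4, 3],
    [⟨19, -13, [(0, 5), (1, 4)], [(6, 8), (7, 7)], none⟩,
     ⟨6, -4, [(0, 5), (1, 4)], [(6, 8), (7, 6)], none⟩,
     ⟨9, -6, [(0, 5), (1, 3)], [(6, 8), (7, 6)], none⟩,
     ⟨8, -5, [(0, 5), (1, 3)], [(6, 8), (6, 7)], none⟩,
     ⟨1, 0, [(0, 5), (1, 3)], [(5, 9), (6, 7)], none⟩,
     ⟨20, -13, [(0, 5), (0, 4)], [(5, 9), (6, 7)], none⟩,
     ⟨7, -4, [(0, 5), (0, 4)], [(5, 8), (6, 7)], none⟩,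
     ⟨0, 1, [(0, 4), (0, 4)], [(5, 8), (6, 7)], none⟩], 28, -16⟩,
  ⟨⟨9, 13, 7, 10⟩, -5, true, 3, 7, [8, 6], [4, 3],
    [⟨6, -4, [(0, 5), (1, 4)], [(6, 8), (7, 7)], none⟩,
     ⟨19, -13, [(0, 5), (1, 3)], [(6, 8), (7, 7)], none⟩,
     ⟨9, -6, [(0, 5), (1, 3)], [(6, 8), (7, 6)], none⟩,
     ⟨8, -5, [(0, 5), (1, 3)], [(6, 8), (6, 7)], none⟩,
     ⟨1, 0, [(0, 5), (1, 3)], [(5, 9), (6, 7)], none⟩,
     ⟨7, -4, [(0, 5), (0, 4)], [(5, 9), (6, 7)], none⟩,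
     ⟨20, -13, [(0, 4), (0, 4)], [(5, 9), (6, 7)], none⟩,
     ⟨0, 1, [(0, 4), (0, 4)], [(5, 8), (6, 7)], none⟩], 41, -25⟩,
  ⟨⟨7, 10, 5, 7⟩, -6, true, 3, 8, [8, 7], [4, 3],
    [⟨20, -14, [(0, 5), (1, 4)], [(6, 9), (7, 7)], none⟩,
     ⟨6, -4, [(0, 5), (1, 4)], [(6, 8), (7, 7)], none⟩,
     ⟨9, -6, [(0, 5), (1, 3)], [(6, 8), (7, 7)], none⟩,
     ⟨19, -13, [(0, 5), (1, 3)], [(6, 8), (6, 8)], none⟩,
     ⟨8, -5, [(0, 5), (1, 3)], [(6, 8), (6, 7)], none⟩,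
     ⟨1, 0, [(0, 5), (1, 3)], [(5, 9), (6, 7)], none⟩,
     ⟨7, -4, [(0, 5), (0, 4)], [(5, 9), (6, 7)], none⟩,
     ⟨0, 1, [(0, 4), (0, 4)], [(5, 9), (6, 7)], none⟩], 26, -18⟩,
  ⟨⟨5, 7, 13, 18⟩, -5, true, 3, 7, [8, 7], [5, 3],
    [⟨7, -5, [(0, 6), (1, 4)], [(6, 9), (7, 7)], none⟩,
     ⟨6, -4, [(0, 5), (1, 4)], [(6, 9), (7, 7)], none⟩,
     ⟨20, -14, [(0, 5), (1, 3)], [(6, 9), (7, 7)], none⟩,
     ⟨9, -6, [(0, 5), (1, 3)], [(6, 8), (7, 7)], none⟩,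
     ⟨19, -13, [(0, 5), (1, 3)], [(6, 8), (6, 8)], none⟩,
     ⟨1, 0, [(0, 5), (1, 3)], [(6, 8), (6, 7)], none⟩,
     ⟨8, -5, [(0, 5), (0, 4)], [(6, 8), (6, 7)], none⟩,
     ⟨0, 1, [(0, 5), (0, 4)], [(5, 9), (6, 7)], none⟩], 59, -38⟩,
  ⟨⟨13, 18, 8, 11⟩, -5, true, 3, 7, [8, 7], [5, 3],
    [⟨7, -5, [(0, 6), (1, 4)], [(6, 9), (7, 7)], none⟩,
     ⟨6, -4, [(0, 5), (1, 4)], [(6, 9), (7, 7)], none⟩,
     ⟨20, -14, [(0, 5), (1, 3)], [(6, 9), (7, 7)], none⟩,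
     ⟨9, -6, [(0, 5), (1, 3)], [(6, 8), (7, 7)], none⟩,
     ⟨1, 0, [(0, 5), (1, 3)], [(6, 8), (6, 8)], none⟩,
     ⟨19, -13, [(0, 5), (0, 4)], [(6, 8), (6, 8)], none⟩,
     ⟨8, -5, [(0, 5), (0, 4)], [(6, 8), (6, 7)], none⟩,
     ⟨0, 1, [(0, 5), (0, 4)], [(5, 9), (6, 7)], none⟩], 41, -25⟩,
  ⟨⟨8, 11, 14, 19⟩, -5, true, 3, 7, [8, 7], [5, 3],
    [⟨7, -5, [(0, 6), (1, 4)], [(6, 9), (7, 7)], none⟩,
     ⟨6, -4, [(0, 5), (1, 4)], [(6, 9), (7, 7)], none⟩,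
     ⟨9, -6, [(0, 5), (1, 3)], [(6, 9), (7, 7)], none⟩,
     ⟨20, -14, [(0, 5), (1, 3)], [(6, 9), (6, 8)], none⟩,
     ⟨1, 0, [(0, 5), (1, 3)], [(6, 8), (6, 8)], none⟩,
     ⟨8, -5, [(0, 5), (0, 4)], [(6, 8), (6, 8)], none⟩,
     ⟨19, -13, [(0, 5), (0, 4)], [(5, 9), (6, 8)], none⟩,
     ⟨0, 1, [(0, 5), (0, 4)], [(5, 9), (6, 7)], none⟩], 52, -33⟩,
  ⟨⟨14, 19, 3, 4⟩, -5, true, 3, 7, [8, 7], [5, 3],
    [⟨19, -14, [(0, 6), (1, 4)], [(6, 9), (7, 8)], none⟩,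
     ⟨7, -5, [(0, 6), (1, 4)], [(6, 9), (7, 7)], none⟩,
     ⟨6, -4, [(0, 5), (1, 4)], [(6, 9), (7, 7)], none⟩,
     ⟨9, -6, [(0, 5), (1, 3)], [(6, 9), (7, 7)], none⟩,
     ⟨1, 0, [(0, 5), (1, 3)], [(6, 9), (6, 8)], none⟩,
     ⟨20, -14, [(0, 5), (0, 4)], [(6, 9), (6, 8)], none⟩,
     ⟨8, -5, [(0, 5), (0, 4)], [(6, 8), (6, 8)], none⟩,
     ⟨0, 1, [(0, 5), (0, 4)], [(5, 9), (6, 8)], none⟩], 33, -19⟩,
  ⟨⟨3, 4, 10, 13⟩, -6, true, 3, 8, [9, 7], [5, 3],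
    [⟨8, -6, [(0, 6), (1, 4)], [(7, 9), (7, 8)], none⟩,
     ⟨20, -15, [(0, 6), (1, 4)], [(6, 10), (7, 8)], none⟩,
     ⟨7, -5, [(0, 6), (1, 4)], [(6, 9), (7, 8)], none⟩,
     ⟨19, -14, [(0, 5), (1, 4)], [(6, 9), (7, 8)], none⟩,
     ⟨6, -4, [(0, 5), (1, 4)], [(6, 9), (7, 7)], none⟩,
     ⟨1, 0, [(0, 5), (1, 3)], [(6, 9), (7, 7)], none⟩,
     ⟨9, -6, [(0, 5), (0, 4)], [(6, 9), (7, 7)], none⟩,
     ⟨0, 1, [(0, 5), (0, 4)], [(6, 9), (6, 8)], none⟩], 40, -28⟩,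
  ⟨⟨10, 13, 7, 9⟩, -6, true, 3, 8, [9, 7], [5, 3],
    [⟨8, -6, [(0, 6), (1, 4)], [(7, 9), (7, 8)], none⟩,
     ⟨7, -5, [(0, 6), (1, 4)], [(6, 10), (7, 8)], none⟩,
     ⟨20, -15, [(0, 5), (1, 4)], [(6, 10), (7, 8)], none⟩,
     ⟨6, -4, [(0, 5), (1, 4)], [(6, 9), (7, 8)], none⟩,
     ⟨19, -14, [(0, 5), (1, 3)], [(6, 9), (7, 8)], none⟩,
     ⟨1, 0, [(0, 5), (1, 3)], [(6, 9), (7, 7)], none⟩,
     ⟨9, -6, [(0, 5), (0, 4)], [(6, 9), (7, 7)], none⟩,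
     ⟨0, 1, [(0, 5), (0, 4)], [(6, 9), (6, 8)], none⟩], 40, -28⟩,
  ⟨⟨7, 9, 11, 14⟩, -6, true, 3, 8, [9, 7], [5, 3],
    [⟨9, -7, [(0, 6), (1, 4)], [(7, 9), (8, 7)], none⟩,
     ⟨8, -6, [(0, 6), (1, 4)], [(7, 9), (7, 8)], none⟩,
     ⟨7, -5, [(0, 6), (1, 4)], [(6, 10), (7, 8)], none⟩,
     ⟨20, -15, [(0, 5), (1, 4)], [(6, 10), (7, 8)], none⟩,
     ⟨6, -4, [(0, 5), (1, 4)], [(6, 9), (7, 8)], none⟩,
     ⟨1, 0, [(0, 5), (1, 3)], [(6, 9), (7, 8)], none⟩,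
     ⟨19, -14, [(0, 5), (0, 4)], [(6, 9), (7, 8)], none⟩,
     ⟨0, 1, [(0, 5), (0, 4)], [(6, 9), (7, 7)], none⟩], 49, -35⟩,
  ⟨⟨11, 14, 15, 19⟩, -6, true, 3, 8, [9, 7], [5, 3],
    [⟨9, -7, [(0, 6), (1, 4)], [(7, 9), (8, 7)], none⟩,
     ⟨8, -6, [(0, 6), (1, 4)], [(7, 9), (7, 8)], none⟩,
     ⟨7, -5, [(0, 6), (1, 4)], [(6, 10), (7, 8)], none⟩,
     ⟨6, -4, [(0, 5), (1, 4)], [(6, 10), (7, 8)], none⟩,
     ⟨20, -15, [(0, 5), (1, 3)], [(6, 10), (7, 8)], none⟩,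
     ⟨1, 0, [(0, 5), (1, 3)], [(6, 9), (7, 8)], none⟩,
     ⟨19, -14, [(0, 5), (0, 4)], [(6, 9), (7, 8)], none⟩,
     ⟨0, 1, [(0, 5), (0, 4)], [(6, 9), (7, 7)], none⟩], 63, -46⟩,
  ⟨⟨15, 19, 4, 5⟩, -6, true, 3, 8, [9, 7], [5, 3],
    [⟨19, -15, [(0, 6), (1, 4)], [(7, 9), (8, 8)], none⟩,
     ⟨9, -7, [(0, 6), (1, 4)], [(7, 9), (8, 7)], none⟩,
     ⟨8, -6, [(0, 6), (1, 4)], [(7, 9), (7, 8)], none⟩,
     ⟨7, -5, [(0, 6), (1, 4)], [(6, 10), (7, 8)], none⟩,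
     ⟨6, -4, [(0, 5), (1, 4)], [(6, 10), (7, 8)], none⟩,
     ⟨1, 0, [(0, 5), (1, 3)], [(6, 10), (7, 8)], none⟩,
     ⟨20, -15, [(0, 5), (0, 4)], [(6, 10), (7, 8)], none⟩,
     ⟨0, 1, [(0, 5), (0, 4)], [(6, 9), (7, 8)], none⟩], 25, -16⟩,
  ⟨⟨4, 5, 9, 11⟩, -6, true, 4, 8, [9, 8], [5, 4],
    [⟨20, -16, [(0, 6), (1, 4)], [(7, 10), (8, 8)], none⟩,
     ⟨9, -7, [(0, 6), (1, 4)], [(7, 9), (8, 8)], none⟩,
     ⟨19, -15, [(0, 6), (1, 4)], [(7, 9), (7, 9)], none⟩,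
     ⟨8, -6, [(0, 6), (1, 4)], [(7, 9), (7, 8)], none⟩,
     ⟨7, -5, [(0, 6), (1, 4)], [(6, 10), (7, 8)], none⟩,
     ⟨1, 0, [(0, 5), (1, 4)], [(6, 10), (7, 8)], none⟩,
     ⟨6, -4, [(0, 5), (0, 5)], [(6, 10), (7, 8)], none⟩,
     ⟨0, 1, [(0, 5), (0, 4)], [(6, 10), (7, 8)], none⟩], 50, -36⟩,
  ⟨⟨9, 11, 5, 6⟩, -6, true, 4, 8, [9, 8], [5, 4],
    [⟨9, -7, [(0, 6), (1, 4)], [(7, 10), (8, 8)], none⟩,
     ⟨20, -16, [(0, 6), (1, 4)], [(7, 10), (7, 9)], none⟩,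
     ⟨8, -6, [(0, 6), (1, 4)], [(7, 9), (7, 9)], none⟩,
     ⟨19, -15, [(0, 6), (1, 4)], [(6, 10), (7, 9)], none⟩,
     ⟨7, -5, [(0, 6), (1, 4)], [(6, 10), (7, 8)], none⟩,
     ⟨1, 0, [(0, 5), (1, 4)], [(6, 10), (7, 8)], none⟩,
     ⟨6, -4, [(0, 5), (0, 5)], [(6, 10), (7, 8)], none⟩,
     ⟨0, 1, [(0, 5), (0, 4)], [(6, 10), (7, 8)], none⟩], 50, -36⟩,
  ⟨⟨5, 6, 16, 19⟩, -7, true, 4, 9, [10, 8], [5, 4],
    [⟨6, -5, [(0, 6), (1, 5)], [(7, 10), (8, 8)], none⟩,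
     ⟨9, -7, [(0, 6), (1, 4)], [(7, 10), (8, 8)], none⟩,
     ⟨8, -6, [(0, 6), (1, 4)], [(7, 10), (7, 9)], none⟩,
     ⟨20, -16, [(0, 6), (1, 4)], [(6, 11), (7, 9)], none⟩,
     ⟨1, 0, [(0, 6), (1, 4)], [(6, 10), (7, 9)], none⟩,
     ⟨7, -5, [(0, 6), (0, 5)], [(6, 10), (7, 9)], none⟩,
     ⟨19, -15, [(0, 5), (0, 5)], [(6, 10), (7, 9)], none⟩,
     ⟨0, 1, [(0, 5), (0, 5)], [(6, 10), (7, 8)], none⟩], 57, -46⟩,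
  ⟨⟨16, 19, 11, 13⟩, -7, true, 4, 9, [10, 8], [5, 4],
    [⟨19, -16, [(0, 6), (1, 5)], [(7, 10), (8, 9)], none⟩,
     ⟨6, -5, [(0, 6), (1, 5)], [(7, 10), (8, 8)], none⟩,
     ⟨9, -7, [(0, 6), (1, 4)], [(7, 10), (8, 8)], none⟩,
     ⟨8, -6, [(0, 6), (1, 4)], [(7, 10), (7, 9)], none⟩,
     ⟨1, 0, [(0, 6), (1, 4)], [(6, 11), (7, 9)], none⟩,
     ⟨20, -16, [(0, 6), (0, 5)], [(6, 11), (7, 9)], none⟩,
     ⟨7, -5, [(0, 6), (0, 5)], [(6, 10), (7, 9)], none⟩,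
     ⟨0, 1, [(0, 5), (0, 5)], [(6, 10), (7, 9)], none⟩], 38, -30⟩,
  ⟨⟨11, 13, 17, 20⟩, -7, true, 4, 9, [10, 8], [5, 4],
    [⟨6, -5, [(0, 6), (1, 5)], [(7, 10), (8, 9)], none⟩,
     ⟨19, -16, [(0, 6), (1, 4)], [(7, 10), (8, 9)], none⟩,
     ⟨9, -7, [(0, 6), (1, 4)], [(7, 10), (8, 8)], none⟩,
     ⟨8, -6, [(0, 6), (1, 4)], [(7, 10), (7, 9)], none⟩,
     ⟨1, 0, [(0, 6), (1, 4)], [(6, 11), (7, 9)], none⟩,
     ⟨7, -5, [(0, 6), (0, 5)], [(6, 11), (7, 9)], none⟩,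
     ⟨20, -16, [(0, 5), (0, 5)], [(6, 11), (7, 9)], none⟩,
     ⟨0, 1, [(0, 5), (0, 5)], [(6, 10), (7, 9)], none⟩], 51, -41⟩,
  ⟨⟨17, 20, 6, 7⟩, -7, true, 4, 9, [10, 8], [5, 4],
    [⟨20, -17, [(0, 6), (1, 5)], [(7, 11), (8, 9)], none⟩,
     ⟨6, -5, [(0, 6), (1, 5)], [(7, 10), (8, 9)], none⟩,
     ⟨19, -16, [(0, 6), (1, 4)], [(7, 10), (8, 9)], none⟩,
     ⟨9, -7, [(0, 6), (1, 4)], [(7, 10), (8, 8)], none⟩,
     ⟨8, -6, [(0, 6), (1, 4)], [(7, 10), (7, 9)], none⟩,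
     ⟨1, 0, [(0, 6), (1, 4)], [(6, 11), (7, 9)], none⟩,
     ⟨7, -5, [(0, 6), (0, 5)], [(6, 11), (7, 9)], none⟩,
     ⟨0, 1, [(0, 5), (0, 5)], [(6, 11), (7, 9)], none⟩], 31, -24⟩,
  ⟨⟨6, 7, 7, 8⟩, -6, true, 4, 8, [10, 8], [6, 4],
    [⟨7, -6, [(0, 7), (1, 5)], [(7, 11), (8, 9)], none⟩,
     ⟨6, -5, [(0, 6), (1, 5)], [(7, 11), (8, 9)], none⟩,
     ⟨20, -17, [(0, 6), (1, 4)], [(7, 11), (8, 9)], none⟩,
     ⟨19, -16, [(0, 6), (1, 4)], [(7, 10), (8, 9)], none⟩,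
     ⟨9, -7, [(0, 6), (1, 4)], [(7, 10), (8, 8)], none⟩,
     ⟨1, 0, [(0, 6), (1, 4)], [(7, 10), (7, 9)], none⟩,
     ⟨8, -6, [(0, 6), (0, 5)], [(7, 10), (7, 9)], none⟩,
     ⟨0, 1, [(0, 6), (0, 5)], [(6, 11), (7, 9)], none⟩], 64, -48⟩,
  ⟨⟨7, 8, 8, 9⟩, -6, true, 4, 8, [10, 8], [6, 4],
    [⟨8, -7, [(0, 7), (1, 5)], [(8, 10), (8, 9)], none⟩,
     ⟨7, -6, [(0, 7), (1, 5)], [(7, 11), (8, 9)], none⟩,
     ⟨6, -5, [(0, 6), (1, 5)], [(7, 11), (8, 9)], none⟩,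
     ⟨20, -17, [(0, 6), (1, 4)], [(7, 11), (8, 9)], none⟩,
     ⟨19, -16, [(0, 6), (1, 4)], [(7, 10), (8, 9)], none⟩,
     ⟨1, 0, [(0, 6), (1, 4)], [(7, 10), (8, 8)], none⟩,
     ⟨9, -7, [(0, 6), (0, 5)], [(7, 10), (8, 8)], none⟩,
     ⟨0, 1, [(0, 6), (0, 5)], [(7, 10), (7, 9)], none⟩], 64, -48⟩,
  ⟨⟨8, 9, 17, 19⟩, -6, true, 4, 8, [10, 8], [6, 4],
    [⟨9, -8, [(0, 7), (1, 5)], [(8, 10), (9, 8)], none⟩,
     ⟨8, -7, [(0, 7), (1, 5)], [(8, 10), (8, 9)], none⟩,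
     ⟨7, -6, [(0, 7), (1, 5)], [(7, 11), (8, 9)], none⟩,
     ⟨6, -5, [(0, 6), (1, 5)], [(7, 11), (8, 9)], none⟩,
     ⟨20, -17, [(0, 6), (1, 4)], [(7, 11), (8, 9)], none⟩,
     ⟨1, 0, [(0, 6), (1, 4)], [(7, 10), (8, 9)], none⟩,
     ⟨19, -16, [(0, 6), (0, 5)], [(7, 10), (8, 9)], none⟩,
     ⟨0, 1, [(0, 6), (0, 5)], [(7, 10), (8, 8)], none⟩], 73, -56⟩,
  ⟨⟨17, 19, 9, 10⟩, -6, true, 4, 8, [10, 8], [6, 4],
    [⟨19, -17, [(0, 7), (1, 5)], [(8, 10), (9, 9)], none⟩,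
     ⟨9, -8, [(0, 7), (1, 5)], [(8, 10), (9, 8)], none⟩,
     ⟨8, -7, [(0, 7), (1, 5)], [(8, 10), (8, 9)], none⟩,
     ⟨7, -6, [(0, 7), (1, 5)], [(7, 11), (8, 9)], none⟩,
     ⟨6, -5, [(0, 6), (1, 5)], [(7, 11), (8, 9)], none⟩,
     ⟨1, 0, [(0, 6), (1, 4)], [(7, 11), (8, 9)], none⟩,
     ⟨20, -17, [(0, 6), (0, 5)], [(7, 11), (8, 9)], none⟩,
     ⟨0, 1, [(0, 6), (0, 5)], [(7, 10), (8, 9)], none⟩], 35, -22⟩,
  ⟨⟨9, 10, 10, 11⟩, -7, true, 4, 9, [10, 9], [6, 4],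
    [⟨20, -18, [(0, 7), (1, 5)], [(8, 11), (9, 9)], none⟩,
     ⟨9, -8, [(0, 7), (1, 5)], [(8, 10), (9, 9)], none⟩,
     ⟨19, -17, [(0, 7), (1, 5)], [(8, 10), (8, 10)], none⟩,
     ⟨8, -7, [(0, 7), (1, 5)], [(8, 10), (8, 9)], none⟩,
     ⟨7, -6, [(0, 7), (1, 5)], [(7, 11), (8, 9)], none⟩,
     ⟨6, -5, [(0, 6), (1, 5)], [(7, 11), (8, 9)], none⟩,
     ⟨1, 0, [(0, 6), (1, 4)], [(7, 11), (8, 9)], none⟩,
     ⟨0, 1, [(0, 6), (0, 5)], [(7, 11), (8, 9)], none⟩], 40, -31⟩,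
  ⟨⟨10, 11, 11, 12⟩, -7, true, 4, 9, [10, 9], [6, 4],
    [⟨9, -8, [(0, 7), (1, 5)], [(8, 11), (9, 9)], none⟩,
     ⟨20, -18, [(0, 7), (1, 5)], [(8, 11), (8, 10)], none⟩,
     ⟨8, -7, [(0, 7), (1, 5)], [(8, 10), (8, 10)], none⟩,
     ⟨19, -17, [(0, 7), (1, 5)], [(7, 11), (8, 10)], none⟩,
     ⟨7, -6, [(0, 7), (1, 5)], [(7, 11), (8, 9)], none⟩,
     ⟨6, -5, [(0, 6), (1, 5)], [(7, 11), (8, 9)], none⟩,
     ⟨1, 0, [(0, 6), (1, 4)], [(7, 11), (8, 9)], none⟩,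
     ⟨0, 1, [(0, 6), (0, 5)], [(7, 11), (8, 9)], none⟩], 40, -31⟩,
  ⟨⟨11, 12, 12, 13⟩, -8, true, 4, 10, [11, 9], [6, 4],
    [⟨9, -8, [(0, 7), (1, 5)], [(8, 11), (9, 9)], none⟩,
     ⟨8, -7, [(0, 7), (1, 5)], [(8, 11), (8, 10)], none⟩,
     ⟨20, -18, [(0, 7), (1, 5)], [(7, 12), (8, 10)], none⟩,
     ⟨7, -6, [(0, 7), (1, 5)], [(7, 11), (8, 10)], none⟩,
     ⟨19, -17, [(0, 6), (1, 5)], [(7, 11), (8, 10)], none⟩,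
     ⟨6, -5, [(0, 6), (1, 5)], [(7, 11), (8, 9)], none⟩,
     ⟨1, 0, [(0, 6), (1, 4)], [(7, 11), (8, 9)], none⟩,
     ⟨0, 1, [(0, 6), (0, 5)], [(7, 11), (8, 9)], none⟩], 59, -53⟩,
  ⟨⟨12, 13, 13, 14⟩, -8, true, 4, 10, [11, 9], [6, 4],
    [⟨9, -8, [(0, 7), (1, 5)], [(8, 11), (9, 9)], none⟩,
     ⟨8, -7, [(0, 7), (1, 5)], [(8, 11), (8, 10)], none⟩,
     ⟨7, -6, [(0, 7), (1, 5)], [(7, 12), (8, 10)], none⟩,
     ⟨20, -18, [(0, 6), (1, 5)], [(7, 12), (8, 10)], none⟩,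
     ⟨6, -5, [(0, 6), (1, 5)], [(7, 11), (8, 10)], none⟩,
     ⟨19, -17, [(0, 6), (1, 4)], [(7, 11), (8, 10)], none⟩,
     ⟨1, 0, [(0, 6), (1, 4)], [(7, 11), (8, 9)], none⟩,
     ⟨0, 1, [(0, 6), (0, 5)], [(7, 11), (8, 9)], none⟩], 59, -53⟩,
  ⟨⟨13, 14, 17, 18⟩, -8, true, 4, 10, [11, 9], [6, 4],
    [⟨9, -8, [(0, 7), (1, 5)], [(8, 11), (9, 9)], none⟩,
     ⟨8, -7, [(0, 7), (1, 5)], [(8, 11), (8, 10)], none⟩,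
     ⟨7, -6, [(0, 7), (1, 5)], [(7, 12), (8, 10)], none⟩,
     ⟨6, -5, [(0, 6), (1, 5)], [(7, 12), (8, 10)], none⟩,
     ⟨20, -18, [(0, 6), (1, 4)], [(7, 12), (8, 10)], none⟩,
     ⟨19, -17, [(0, 6), (1, 4)], [(7, 11), (8, 10)], none⟩,
     ⟨1, 0, [(0, 6), (1, 4)], [(7, 11), (8, 9)], none⟩,
     ⟨0, 1, [(0, 6), (0, 5)], [(7, 11), (8, 9)], none⟩], 73, -66⟩,
  ⟨⟨17, 18, 18, 19⟩, -8, true, 4, 10, [11, 9], [6, 4],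
    [⟨9, -8, [(0, 7), (1, 5)], [(8, 11), (9, 9)], none⟩,
     ⟨8, -7, [(0, 7), (1, 5)], [(8, 11), (8, 10)], none⟩,
     ⟨7, -6, [(0, 7), (1, 5)], [(7, 12), (8, 10)], none⟩,
     ⟨6, -5, [(0, 6), (1, 5)], [(7, 12), (8, 10)], none⟩,
     ⟨20, -18, [(0, 6), (1, 4)], [(7, 12), (8, 10)], none⟩,
     ⟨1, 0, [(0, 6), (1, 4)], [(7, 11), (8, 10)], none⟩,
     ⟨19, -17, [(0, 6), (0, 5)], [(7, 11), (8, 10)], none⟩,
     ⟨0, 1, [(0, 6), (0, 5)], [(7, 11), (8, 9)], none⟩], 73, -66⟩,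
  ⟨⟨18, 19, 19, 20⟩, -8, true, 4, 10, [11, 9], [6, 4],
    [⟨19, -18, [(0, 7), (1, 5)], [(8, 11), (9, 10)], none⟩,
     ⟨9, -8, [(0, 7), (1, 5)], [(8, 11), (9, 9)], none⟩,
     ⟨8, -7, [(0, 7), (1, 5)], [(8, 11), (8, 10)], none⟩,
     ⟨7, -6, [(0, 7), (1, 5)], [(7, 12), (8, 10)], none⟩,
     ⟨6, -5, [(0, 6), (1, 5)], [(7, 12), (8, 10)], none⟩,
     ⟨1, 0, [(0, 6), (1, 4)], [(7, 12), (8, 10)], none⟩,
     ⟨20, -18, [(0, 6), (0, 5)], [(7, 12), (8, 10)], none⟩,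
     ⟨0, 1, [(0, 6), (0, 5)], [(7, 11), (8, 10)], none⟩], 35, -30⟩,
  ⟨⟨19, 20, 1, 1⟩, -8, true, 4, 10, [11, 9], [6, 4],
    [⟨20, -19, [(0, 7), (1, 5)], [(8, 12), (9, 10)], none⟩,
     ⟨19, -18, [(0, 7), (1, 5)], [(8, 11), (9, 10)], none⟩,
     ⟨9, -8, [(0, 7), (1, 5)], [(8, 11), (9, 9)], none⟩,
     ⟨8, -7, [(0, 7), (1, 5)], [(8, 11), (8, 10)], none⟩,
     ⟨7, -6, [(0, 7), (1, 5)], [(7, 12), (8, 10)], none⟩,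
     ⟨6, -5, [(0, 6), (1, 5)], [(7, 12), (8, 10)], none⟩,
     ⟨1, 0, [(0, 6), (1, 4)], [(7, 12), (8, 10)], none⟩,
     ⟨0, 1, [(0, 6), (0, 5)], [(7, 12), (8, 10)], none⟩], 35, -30⟩,
  ⟨⟨1, 1, 21, 20⟩, -8, true, 5, 10, [12, 10], [7, 5],
    [⟨1, -1, [(0, 8), (2, 5)], [(9, 12), (10, 10)], none⟩,
     ⟨6, -6, [(0, 8), (1, 6)], [(9, 12), (10, 10)], none⟩,
     ⟨7, -7, [(0, 8), (1, 5)], [(9, 12), (10, 10)], none⟩,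
     ⟨8, -8, [(0, 7), (1, 5)], [(9, 12), (10, 10)], none⟩,
     ⟨9, -9, [(0, 7), (1, 5)], [(8, 13), (10, 10)], none⟩,
     ⟨19, -19, [(0, 7), (1, 5)], [(8, 13), (9, 11)], none⟩,
     ⟨20, -20, [(0, 7), (1, 5)], [(8, 13), (9, 10)], none⟩,
     ⟨0, 1, [(0, 7), (1, 5)], [(8, 12), (9, 10)], none⟩], 75, -70⟩,
  ⟨⟨21, 20, 20, 19⟩, -8, true, 5, 10, [12, 10], [7, 5],
    [⟨20, -21, [(0, 8), (2, 5)], [(9, 13), (10, 10)], none⟩,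
     ⟨1, -1, [(0, 8), (2, 5)], [(9, 12), (10, 10)], none⟩,
     ⟨6, -6, [(0, 8), (1, 6)], [(9, 12), (10, 10)], none⟩,
     ⟨7, -7, [(0, 8), (1, 5)], [(9, 12), (10, 10)], none⟩,
     ⟨8, -8, [(0, 7), (1, 5)], [(9, 12), (10, 10)], none⟩,
     ⟨9, -9, [(0, 7), (1, 5)], [(8, 13), (10, 10)], none⟩,
     ⟨19, -19, [(0, 7), (1, 5)], [(8, 13), (9, 11)], none⟩,
     ⟨0, 1, [(0, 7), (1, 5)], [(8, 13), (9, 10)], none⟩], 75, -70⟩,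
  ⟨⟨20, 19, 19, 18⟩, -8, true, 5, 10, [12, 10], [7, 5],
    [⟨19, -20, [(0, 8), (2, 5)], [(9, 13), (10, 11)], none⟩,
     ⟨1, -1, [(0, 8), (2, 5)], [(9, 13), (10, 10)], none⟩,
     ⟨20, -21, [(0, 8), (1, 6)], [(9, 13), (10, 10)], none⟩,
     ⟨6, -6, [(0, 8), (1, 6)], [(9, 12), (10, 10)], none⟩,
     ⟨7, -7, [(0, 8), (1, 5)], [(9, 12), (10, 10)], none⟩,
     ⟨8, -8, [(0, 7), (1, 5)], [(9, 12), (10, 10)], none⟩,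
     ⟨9, -9, [(0, 7), (1, 5)], [(8, 13), (10, 10)], none⟩,
     ⟨0, 1, [(0, 7), (1, 5)], [(8, 13), (9, 11)], none⟩], 37, -30⟩]

theorem recs1_chk : recs1.all (fun r => r.chk par 3 1000) = true := by decide +kernel

/-- cells -/
def recs2 : List Rec := [
  ⟨⟨19, 18, 15, 14⟩, -8, true, 5, 10, [12, 10], [7, 5],
    [⟨1, -1, [(0, 8), (2, 5)], [(9, 13), (10, 11)], none⟩,
     ⟨19, -20, [(0, 8), (1, 6)], [(9, 13), (10, 11)], none⟩,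
     ⟨20, -21, [(0, 8), (1, 6)], [(9, 13), (10, 10)], none⟩,
     ⟨6, -6, [(0, 8), (1, 6)], [(9, 12), (10, 10)], none⟩,
     ⟨7, -7, [(0, 8), (1, 5)], [(9, 12), (10, 10)], none⟩,
     ⟨8, -8, [(0, 7), (1, 5)], [(9, 12), (10, 10)], none⟩,
     ⟨9, -9, [(0, 7), (1, 5)], [(8, 13), (10, 10)], none⟩,
     ⟨0, 1, [(0, 7), (1, 5)], [(8, 13), (9, 11)], none⟩], 37, -30⟩,
  ⟨⟨15, 14, 14, 13⟩, -8, true, 5, 10, [12, 10], [7, 5],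
    [⟨1, -1, [(0, 8), (2, 5)], [(9, 13), (10, 11)], none⟩,
     ⟨19, -20, [(0, 8), (1, 6)], [(9, 13), (10, 11)], none⟩,
     ⟨6, -6, [(0, 8), (1, 6)], [(9, 13), (10, 10)], none⟩,
     ⟨20, -21, [(0, 8), (1, 5)], [(9, 13), (10, 10)], none⟩,
     ⟨7, -7, [(0, 8), (1, 5)], [(9, 12), (10, 10)], none⟩,
     ⟨8, -8, [(0, 7), (1, 5)], [(9, 12), (10, 10)], none⟩,
     ⟨9, -9, [(0, 7), (1, 5)], [(8, 13), (10, 10)], none⟩,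
     ⟨0, 1, [(0, 7), (1, 5)], [(8, 13), (9, 11)], none⟩], 51, -45⟩,
  ⟨⟨14, 13, 13, 12⟩, -8, true, 5, 10, [12, 10], [7, 5],
    [⟨1, -1, [(0, 8), (2, 5)], [(9, 13), (10, 11)], none⟩,
     ⟨6, -6, [(0, 8), (1, 6)], [(9, 13), (10, 11)], none⟩,
     ⟨19, -20, [(0, 8), (1, 5)], [(9, 13), (10, 11)], none⟩,
     ⟨7, -7, [(0, 8), (1, 5)], [(9, 13), (10, 10)], none⟩,
     ⟨20, -21, [(0, 7), (1, 5)], [(9, 13), (10, 10)], none⟩,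
     ⟨8, -8, [(0, 7), (1, 5)], [(9, 12), (10, 10)], none⟩,
     ⟨9, -9, [(0, 7), (1, 5)], [(8, 13), (10, 10)], none⟩,
     ⟨0, 1, [(0, 7), (1, 5)], [(8, 13), (9, 11)], none⟩], 51, -45⟩,
  ⟨⟨13, 12, 12, 11⟩, -9, true, 5, 11, [13, 10], [7, 5],
    [⟨1, -1, [(0, 8), (2, 5)], [(9, 13), (10, 11)], none⟩,
     ⟨6, -6, [(0, 8), (1, 6)], [(9, 13), (10, 11)], none⟩,
     ⟨7, -7, [(0, 8), (1, 5)], [(9, 13), (10, 11)], none⟩,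
     ⟨19, -20, [(0, 7), (1, 5)], [(9, 13), (10, 11)], none⟩,
     ⟨8, -8, [(0, 7), (1, 5)], [(9, 13), (10, 10)], none⟩,
     ⟨20, -21, [(0, 7), (1, 5)], [(8, 14), (10, 10)], none⟩,
     ⟨9, -9, [(0, 7), (1, 5)], [(8, 13), (10, 10)], none⟩,
     ⟨0, 1, [(0, 7), (1, 5)], [(8, 13), (9, 11)], none⟩], 70, -71⟩,
  ⟨⟨12, 11, 11, 10⟩, -9, true, 5, 11, [13, 10], [7, 5],
    [⟨1, -1, [(0, 8), (2, 5)], [(9, 13), (10, 11)], none⟩,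
     ⟨6, -6, [(0, 8), (1, 6)], [(9, 13), (10, 11)], none⟩,
     ⟨7, -7, [(0, 8), (1, 5)], [(9, 13), (10, 11)], none⟩,
     ⟨8, -8, [(0, 7), (1, 5)], [(9, 13), (10, 11)], none⟩,
     ⟨19, -20, [(0, 7), (1, 5)], [(8, 14), (10, 11)], none⟩,
     ⟨9, -9, [(0, 7), (1, 5)], [(8, 14), (10, 10)], none⟩,
     ⟨20, -21, [(0, 7), (1, 5)], [(8, 14), (9, 11)], none⟩,
     ⟨0, 1, [(0, 7), (1, 5)], [(8, 13), (9, 11)], none⟩], 70, -71⟩,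
  ⟨⟨11, 10, 21, 19⟩, -10, true, 5, 12, [13, 11], [7, 5],
    [⟨20, -22, [(0, 8), (2, 5)], [(9, 14), (10, 11)], none⟩,
     ⟨1, -1, [(0, 8), (2, 5)], [(9, 13), (10, 11)], none⟩,
     ⟨6, -6, [(0, 8), (1, 6)], [(9, 13), (10, 11)], none⟩,
     ⟨7, -7, [(0, 8), (1, 5)], [(9, 13), (10, 11)], none⟩,
     ⟨8, -8, [(0, 7), (1, 5)], [(9, 13), (10, 11)], none⟩,
     ⟨9, -9, [(0, 7), (1, 5)], [(8, 14), (10, 11)], none⟩,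
     ⟨19, -20, [(0, 7), (1, 5)], [(8, 14), (9, 12)], none⟩,
     ⟨0, 1, [(0, 7), (1, 5)], [(8, 14), (9, 11)], none⟩], 75, -82⟩,
  ⟨⟨21, 19, 10, 9⟩, -10, true, 5, 12, [13, 11], [7, 5],
    [⟨19, -21, [(0, 8), (2, 5)], [(9, 14), (10, 12)], none⟩,
     ⟨1, -1, [(0, 8), (2, 5)], [(9, 14), (10, 11)], none⟩,
     ⟨20, -22, [(0, 8), (1, 6)], [(9, 14), (10, 11)], none⟩,
     ⟨6, -6, [(0, 8), (1, 6)], [(9, 13), (10, 11)], none⟩,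
     ⟨7, -7, [(0, 8), (1, 5)], [(9, 13), (10, 11)], none⟩,
     ⟨8, -8, [(0, 7), (1, 5)], [(9, 13), (10, 11)], none⟩,
     ⟨9, -9, [(0, 7), (1, 5)], [(8, 14), (10, 11)], none⟩,
     ⟨0, 1, [(0, 7), (1, 5)], [(8, 14), (9, 12)], none⟩], 37, -40⟩,
  ⟨⟨10, 9, 9, 8⟩, -10, true, 5, 12, [13, 11], [7, 5],
    [⟨9, -10, [(0, 8), (2, 5)], [(9, 14), (11, 11)], none⟩,
     ⟨1, -1, [(0, 8), (2, 5)], [(9, 14), (10, 12)], none⟩,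
     ⟨19, -21, [(0, 8), (1, 6)], [(9, 14), (10, 12)], none⟩,
     ⟨20, -22, [(0, 8), (1, 6)], [(9, 14), (10, 11)], none⟩,
     ⟨6, -6, [(0, 8), (1, 6)], [(9, 13), (10, 11)], none⟩,
     ⟨7, -7, [(0, 8), (1, 5)], [(9, 13), (10, 11)], none⟩,
     ⟨8, -8, [(0, 7), (1, 5)], [(9, 13), (10, 11)], none⟩,
     ⟨0, 1, [(0, 7), (1, 5)], [(8, 14), (10, 11)], none⟩], 46, -50⟩,
  ⟨⟨9, 8, 8, 7⟩, -10, true, 5, 12, [13, 11], [7, 5],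
    [⟨8, -9, [(0, 8), (2, 5)], [(10, 13), (11, 11)], none⟩,
     ⟨1, -1, [(0, 8), (2, 5)], [(9, 14), (11, 11)], none⟩,
     ⟨9, -10, [(0, 8), (1, 6)], [(9, 14), (11, 11)], none⟩,
     ⟨19, -21, [(0, 8), (1, 6)], [(9, 14), (10, 12)], none⟩,
     ⟨20, -22, [(0, 8), (1, 6)], [(9, 14), (10, 11)], none⟩,
     ⟨6, -6, [(0, 8), (1, 6)], [(9, 13), (10, 11)], none⟩,
     ⟨7, -7, [(0, 8), (1, 5)], [(9, 13), (10, 11)], none⟩,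
     ⟨0, 1, [(0, 7), (1, 5)], [(9, 13), (10, 11)], none⟩], 46, -50⟩,
  ⟨⟨8, 7, 23, 20⟩, -9, true, 5, 11, [13, 11], [8, 5],
    [⟨7, -8, [(0, 9), (2, 5)], [(10, 13), (11, 11)], none⟩,
     ⟨1, -1, [(0, 8), (2, 5)], [(10, 13), (11, 11)], none⟩,
     ⟨8, -9, [(0, 8), (1, 6)], [(10, 13), (11, 11)], none⟩,
     ⟨9, -10, [(0, 8), (1, 6)], [(9, 14), (11, 11)], none⟩,
     ⟨19, -21, [(0, 8), (1, 6)], [(9, 14), (10, 12)], none⟩,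
     ⟨6, -6, [(0, 8), (1, 6)], [(9, 14), (10, 11)], none⟩,
     ⟨20, -22, [(0, 8), (1, 5)], [(9, 14), (10, 11)], none⟩,
     ⟨0, 1, [(0, 8), (1, 5)], [(9, 13), (10, 11)], none⟩], 79, -82⟩,
  ⟨⟨23, 20, 15, 13⟩, -9, true, 5, 11, [13, 11], [8, 5],
    [⟨20, -23, [(0, 9), (2, 5)], [(10, 14), (11, 11)], none⟩,
     ⟨7, -8, [(0, 9), (2, 5)], [(10, 13), (11, 11)], none⟩,
     ⟨1, -1, [(0, 8), (2, 5)], [(10, 13), (11, 11)], none⟩,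
     ⟨8, -9, [(0, 8), (1, 6)], [(10, 13), (11, 11)], none⟩,
     ⟨9, -10, [(0, 8), (1, 6)], [(9, 14), (11, 11)], none⟩,
     ⟨19, -21, [(0, 8), (1, 6)], [(9, 14), (10, 12)], none⟩,
     ⟨6, -6, [(0, 8), (1, 6)], [(9, 14), (10, 11)], none⟩,
     ⟨0, 1, [(0, 8), (1, 5)], [(9, 14), (10, 11)], none⟩], 59, -59⟩,
  ⟨⟨15, 13, 22, 19⟩, -9, true, 5, 11, [13, 11], [8, 5],
    [⟨7, -8, [(0, 9), (2, 5)], [(10, 14), (11, 11)], none⟩,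
     ⟨20, -23, [(0, 8), (2, 5)], [(10, 14), (11, 11)], none⟩,
     ⟨1, -1, [(0, 8), (2, 5)], [(10, 13), (11, 11)], none⟩,
     ⟨8, -9, [(0, 8), (1, 6)], [(10, 13), (11, 11)], none⟩,
     ⟨9, -10, [(0, 8), (1, 6)], [(9, 14), (11, 11)], none⟩,
     ⟨6, -6, [(0, 8), (1, 6)], [(9, 14), (10, 12)], none⟩,
     ⟨19, -21, [(0, 8), (1, 5)], [(9, 14), (10, 12)], none⟩,
     ⟨0, 1, [(0, 8), (1, 5)], [(9, 14), (10, 11)], none⟩], 72, -74⟩,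
  ⟨⟨22, 19, 7, 6⟩, -9, true, 5, 11, [13, 11], [8, 5],
    [⟨19, -22, [(0, 9), (2, 5)], [(10, 14), (11, 12)], none⟩,
     ⟨7, -8, [(0, 9), (2, 5)], [(10, 14), (11, 11)], none⟩,
     ⟨1, -1, [(0, 8), (2, 5)], [(10, 14), (11, 11)], none⟩,
     ⟨20, -23, [(0, 8), (1, 6)], [(10, 14), (11, 11)], none⟩,
     ⟨8, -9, [(0, 8), (1, 6)], [(10, 13), (11, 11)], none⟩,
     ⟨9, -10, [(0, 8), (1, 6)], [(9, 14), (11, 11)], none⟩,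
     ⟨6, -6, [(0, 8), (1, 6)], [(9, 14), (10, 12)], none⟩,
     ⟨0, 1, [(0, 8), (1, 5)], [(9, 14), (10, 12)], none⟩], 53, -52⟩,
  ⟨⟨7, 6, 13, 11⟩, -10, true, 5, 12, [14, 11], [8, 5],
    [⟨6, -7, [(0, 9), (2, 6)], [(10, 14), (11, 12)], none⟩,
     ⟨1, -1, [(0, 9), (2, 5)], [(10, 14), (11, 12)], none⟩,
     ⟨7, -8, [(0, 9), (1, 6)], [(10, 14), (11, 12)], none⟩,
     ⟨19, -22, [(0, 8), (1, 6)], [(10, 14), (11, 12)], none⟩,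
     ⟨8, -9, [(0, 8), (1, 6)], [(10, 14), (11, 11)], none⟩,
     ⟨20, -23, [(0, 8), (1, 6)], [(9, 15), (11, 11)], none⟩,
     ⟨9, -10, [(0, 8), (1, 6)], [(9, 14), (11, 11)], none⟩,
     ⟨0, 1, [(0, 8), (1, 6)], [(9, 14), (10, 12)], none⟩], 60, -66⟩,
  ⟨⟨13, 11, 6, 5⟩, -10, true, 5, 12, [14, 11], [8, 5],
    [⟨6, -7, [(0, 9), (2, 6)], [(10, 14), (11, 12)], none⟩,
     ⟨1, -1, [(0, 9), (2, 5)], [(10, 14), (11, 12)], none⟩,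
     ⟨7, -8, [(0, 9), (1, 6)], [(10, 14), (11, 12)], none⟩,
     ⟨8, -9, [(0, 8), (1, 6)], [(10, 14), (11, 12)], none⟩,
     ⟨19, -22, [(0, 8), (1, 6)], [(9, 15), (11, 12)], none⟩,
     ⟨9, -10, [(0, 8), (1, 6)], [(9, 15), (11, 11)], none⟩,
     ⟨20, -23, [(0, 8), (1, 6)], [(9, 15), (10, 12)], none⟩,
     ⟨0, 1, [(0, 8), (1, 6)], [(9, 14), (10, 12)], none⟩], 60, -66⟩,
  ⟨⟨6, 5, 23, 19⟩, -10, true, 6, 12, [14, 12], [8, 6],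
    [⟨20, -24, [(0, 9), (2, 6)], [(10, 15), (11, 12)], none⟩,
     ⟨1, -1, [(0, 9), (2, 6)], [(10, 14), (11, 12)], none⟩,
     ⟨6, -7, [(0, 9), (1, 7)], [(10, 14), (11, 12)], none⟩,
     ⟨7, -8, [(0, 9), (1, 6)], [(10, 14), (11, 12)], none⟩,
     ⟨8, -9, [(0, 8), (1, 6)], [(10, 14), (11, 12)], none⟩,
     ⟨9, -10, [(0, 8), (1, 6)], [(9, 15), (11, 12)], none⟩,
     ⟨19, -22, [(0, 8), (1, 6)], [(9, 15), (10, 13)], none⟩,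
     ⟨0, 1, [(0, 8), (1, 6)], [(9, 15), (10, 12)], none⟩], 85, -96⟩,
  ⟨⟨23, 19, 17, 14⟩, -10, true, 6, 12, [14, 12], [8, 6],
    [⟨19, -23, [(0, 9), (2, 6)], [(10, 15), (11, 13)], none⟩,
     ⟨1, -1, [(0, 9), (2, 6)], [(10, 15), (11, 12)], none⟩,
     ⟨20, -24, [(0, 9), (1, 7)], [(10, 15), (11, 12)], none⟩,
     ⟨6, -7, [(0, 9), (1, 7)], [(10, 14), (11, 12)], none⟩,
     ⟨7, -8, [(0, 9), (1, 6)], [(10, 14), (11, 12)], none⟩,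
     ⟨8, -9, [(0, 8), (1, 6)], [(10, 14), (11, 12)], none⟩,
     ⟨9, -10, [(0, 8), (1, 6)], [(9, 15), (11, 12)], none⟩,
     ⟨0, 1, [(0, 8), (1, 6)], [(9, 15), (10, 13)], none⟩], 47, -50⟩,
  ⟨⟨17, 14, 11, 9⟩, -10, true, 6, 12, [14, 12], [8, 6],
    [⟨19, -23, [(0, 9), (2, 6)], [(10, 15), (11, 13)], none⟩,
     ⟨1, -1, [(0, 9), (2, 6)], [(10, 15), (11, 12)], none⟩,
     ⟨6, -7, [(0, 9), (1, 7)], [(10, 15), (11, 12)], none⟩,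
     ⟨20, -24, [(0, 9), (1, 6)], [(10, 15), (11, 12)], none⟩,
     ⟨7, -8, [(0, 9), (1, 6)], [(10, 14), (11, 12)], none⟩,
     ⟨8, -9, [(0, 8), (1, 6)], [(10, 14), (11, 12)], none⟩,
     ⟨9, -10, [(0, 8), (1, 6)], [(9, 15), (11, 12)], none⟩,
     ⟨0, 1, [(0, 8), (1, 6)], [(9, 15), (10, 13)], none⟩], 61, -67⟩,
  ⟨⟨11, 9, 16, 13⟩, -10, true, 6, 12, [14, 12], [8, 6],
    [⟨9, -11, [(0, 9), (2, 6)], [(10, 15), (12, 12)], none⟩,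
     ⟨1, -1, [(0, 9), (2, 6)], [(10, 15), (11, 13)], none⟩,
     ⟨19, -23, [(0, 9), (1, 7)], [(10, 15), (11, 13)], none⟩,
     ⟨6, -7, [(0, 9), (1, 7)], [(10, 15), (11, 12)], none⟩,
     ⟨20, -24, [(0, 9), (1, 6)], [(10, 15), (11, 12)], none⟩,
     ⟨7, -8, [(0, 9), (1, 6)], [(10, 14), (11, 12)], none⟩,
     ⟨8, -9, [(0, 8), (1, 6)], [(10, 14), (11, 12)], none⟩,
     ⟨0, 1, [(0, 8), (1, 6)], [(9, 15), (11, 12)], none⟩], 70, -78⟩,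
  ⟨⟨16, 13, 5, 4⟩, -10, true, 6, 12, [14, 12], [8, 6],
    [⟨9, -11, [(0, 9), (2, 6)], [(10, 15), (12, 12)], none⟩,
     ⟨1, -1, [(0, 9), (2, 6)], [(10, 15), (11, 13)], none⟩,
     ⟨6, -7, [(0, 9), (1, 7)], [(10, 15), (11, 13)], none⟩,
     ⟨19, -23, [(0, 9), (1, 6)], [(10, 15), (11, 13)], none⟩,
     ⟨7, -8, [(0, 9), (1, 6)], [(10, 15), (11, 12)], none⟩,
     ⟨20, -24, [(0, 8), (1, 6)], [(10, 15), (11, 12)], none⟩,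
     ⟨8, -9, [(0, 8), (1, 6)], [(10, 14), (11, 12)], none⟩,
     ⟨0, 1, [(0, 8), (1, 6)], [(9, 15), (11, 12)], none⟩], 70, -78⟩,
  ⟨⟨5, 4, 24, 19⟩, -11, true, 6, 13, [15, 12], [8, 6],
    [⟨8, -10, [(0, 9), (2, 6)], [(11, 15), (12, 12)], none⟩,
     ⟨20, -25, [(0, 9), (2, 6)], [(10, 16), (12, 12)], none⟩,
     ⟨1, -1, [(0, 9), (2, 6)], [(10, 15), (12, 12)], none⟩,
     ⟨9, -11, [(0, 9), (1, 7)], [(10, 15), (12, 12)], none⟩,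
     ⟨6, -7, [(0, 9), (1, 7)], [(10, 15), (11, 13)], none⟩,
     ⟨7, -8, [(0, 9), (1, 6)], [(10, 15), (11, 13)], none⟩,
     ⟨19, -23, [(0, 8), (1, 6)], [(10, 15), (11, 13)], none⟩,
     ⟨0, 1, [(0, 8), (1, 6)], [(10, 15), (11, 12)], none⟩], 77, -93⟩,
  ⟨⟨24, 19, 14, 11⟩, -11, true, 6, 13, [15, 12], [8, 6],
    [⟨19, -24, [(0, 9), (2, 6)], [(11, 15), (12, 13)], none⟩,
     ⟨8, -10, [(0, 9), (2, 6)], [(11, 15), (12, 12)], none⟩,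
     ⟨1, -1, [(0, 9), (2, 6)], [(10, 16), (12, 12)], none⟩,
     ⟨20, -25, [(0, 9), (1, 7)], [(10, 16), (12, 12)], none⟩,
     ⟨9, -11, [(0, 9), (1, 7)], [(10, 15), (12, 12)], none⟩,
     ⟨6, -7, [(0, 9), (1, 7)], [(10, 15), (11, 13)], none⟩,
     ⟨7, -8, [(0, 9), (1, 6)], [(10, 15), (11, 13)], none⟩,
     ⟨0, 1, [(0, 8), (1, 6)], [(10, 15), (11, 13)], none⟩], 58, -69⟩,
  ⟨⟨14, 11, 23, 18⟩, -11, true, 6, 13, [15, 12], [8, 6],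
    [⟨8, -10, [(0, 9), (2, 6)], [(11, 15), (12, 13)], none⟩,
     ⟨19, -24, [(0, 9), (2, 6)], [(10, 16), (12, 13)], none⟩,
     ⟨1, -1, [(0, 9), (2, 6)], [(10, 16), (12, 12)], none⟩,
     ⟨9, -11, [(0, 9), (1, 7)], [(10, 16), (12, 12)], none⟩,
     ⟨20, -25, [(0, 9), (1, 7)], [(10, 16), (11, 13)], none⟩,
     ⟨6, -7, [(0, 9), (1, 7)], [(10, 15), (11, 13)], none⟩,
     ⟨7, -8, [(0, 9), (1, 6)], [(10, 15), (11, 13)], none⟩,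
     ⟨0, 1, [(0, 8), (1, 6)], [(10, 15), (11, 13)], none⟩], 69, -83⟩,
  ⟨⟨23, 18, 9, 7⟩, -11, true, 6, 13, [15, 12], [8, 6],
    [⟨8, -10, [(0, 9), (2, 6)], [(11, 15), (12, 13)], none⟩,
     ⟨1, -1, [(0, 9), (2, 6)], [(10, 16), (12, 13)], none⟩,
     ⟨19, -24, [(0, 9), (1, 7)], [(10, 16), (12, 13)], none⟩,
     ⟨9, -11, [(0, 9), (1, 7)], [(10, 16), (12, 12)], none⟩,
     ⟨20, -25, [(0, 9), (1, 7)], [(10, 16), (11, 13)], none⟩,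
     ⟨6, -7, [(0, 9), (1, 7)], [(10, 15), (11, 13)], none⟩,
     ⟨7, -8, [(0, 9), (1, 6)], [(10, 15), (11, 13)], none⟩,
     ⟨0, 1, [(0, 8), (1, 6)], [(10, 15), (11, 13)], none⟩], 51, -60⟩,
  ⟨⟨9, 7, 13, 10⟩, -10, true, 6, 12, [15, 12], [9, 6],
    [⟨7, -9, [(0, 10), (2, 6)], [(11, 15), (12, 13)], none⟩,
     ⟨1, -1, [(0, 9), (2, 6)], [(11, 15), (12, 13)], none⟩,
     ⟨8, -10, [(0, 9), (1, 7)], [(11, 15), (12, 13)], none⟩,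
     ⟨19, -24, [(0, 9), (1, 7)], [(10, 16), (12, 13)], none⟩,
     ⟨9, -11, [(0, 9), (1, 7)], [(10, 16), (12, 12)], none⟩,
     ⟨6, -7, [(0, 9), (1, 7)], [(10, 16), (11, 13)], none⟩,
     ⟨20, -25, [(0, 9), (1, 6)], [(10, 16), (11, 13)], none⟩,
     ⟨0, 1, [(0, 9), (1, 6)], [(10, 15), (11, 13)], none⟩], 84, -96⟩,
  ⟨⟨13, 10, 17, 13⟩, -11, true, 6, 13, [15, 13], [9, 6],
    [⟨20, -26, [(0, 10), (2, 6)], [(11, 16), (12, 13)], none⟩,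
     ⟨7, -9, [(0, 10), (2, 6)], [(11, 15), (12, 13)], none⟩,
     ⟨1, -1, [(0, 9), (2, 6)], [(11, 15), (12, 13)], none⟩,
     ⟨8, -10, [(0, 9), (1, 7)], [(11, 15), (12, 13)], none⟩,
     ⟨9, -11, [(0, 9), (1, 7)], [(10, 16), (12, 13)], none⟩,
     ⟨19, -24, [(0, 9), (1, 7)], [(10, 16), (11, 14)], none⟩,
     ⟨6, -7, [(0, 9), (1, 7)], [(10, 16), (11, 13)], none⟩,
     ⟨0, 1, [(0, 9), (1, 6)], [(10, 16), (11, 13)], none⟩], 69, -83⟩,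
  ⟨⟨17, 13, 25, 19⟩, -11, true, 6, 13, [15, 13], [9, 6],
    [⟨7, -9, [(0, 10), (2, 6)], [(11, 16), (12, 13)], none⟩,
     ⟨20, -26, [(0, 9), (2, 6)], [(11, 16), (12, 13)], none⟩,
     ⟨1, -1, [(0, 9), (2, 6)], [(11, 15), (12, 13)], none⟩,
     ⟨8, -10, [(0, 9), (1, 7)], [(11, 15), (12, 13)], none⟩,
     ⟨9, -11, [(0, 9), (1, 7)], [(10, 16), (12, 13)], none⟩,
     ⟨6, -7, [(0, 9), (1, 7)], [(10, 16), (11, 14)], none⟩,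
     ⟨19, -24, [(0, 9), (1, 6)], [(10, 16), (11, 14)], none⟩,
     ⟨0, 1, [(0, 9), (1, 6)], [(10, 16), (11, 13)], none⟩], 82, -100⟩,
  ⟨⟨25, 19, 4, 3⟩, -11, true, 6, 13, [15, 13], [9, 6],
    [⟨19, -25, [(0, 10), (2, 6)], [(11, 16), (12, 14)], none⟩,
     ⟨7, -9, [(0, 10), (2, 6)], [(11, 16), (12, 13)], none⟩,
     ⟨1, -1, [(0, 9), (2, 6)], [(11, 16), (12, 13)], none⟩,
     ⟨20, -26, [(0, 9), (1, 7)], [(11, 16), (12, 13)], none⟩,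
     ⟨8, -10, [(0, 9), (1, 7)], [(11, 15), (12, 13)], none⟩,
     ⟨9, -11, [(0, 9), (1, 7)], [(10, 16), (12, 13)], none⟩,
     ⟨6, -7, [(0, 9), (1, 7)], [(10, 16), (11, 14)], none⟩,
     ⟨0, 1, [(0, 9), (1, 6)], [(10, 16), (11, 14)], none⟩], 63, -75⟩,
  ⟨⟨4, 3, 27, 20⟩, -12, true, 6, 14, [16, 13], [9, 6],
    [⟨6, -8, [(0, 10), (2, 7)], [(11, 16), (13, 13)], none⟩,
     ⟨9, -12, [(0, 10), (2, 6)], [(11, 16), (13, 13)], none⟩,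
     ⟨1, -1, [(0, 10), (2, 6)], [(11, 16), (12, 14)], none⟩,
     ⟨7, -9, [(0, 10), (1, 7)], [(11, 16), (12, 14)], none⟩,
     ⟨19, -25, [(0, 9), (1, 7)], [(11, 16), (12, 14)], none⟩,
     ⟨8, -10, [(0, 9), (1, 7)], [(11, 16), (12, 13)], none⟩,
     ⟨20, -26, [(0, 9), (1, 7)], [(10, 17), (12, 13)], none⟩,
     ⟨0, 1, [(0, 9), (1, 7)], [(10, 16), (12, 13)], none⟩], 76, -99⟩,
  ⟨⟨27, 20, 19, 14⟩, -12, true, 6, 14, [16, 13], [9, 6],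
    [⟨20, -27, [(0, 10), (2, 7)], [(11, 17), (13, 13)], none⟩,
     ⟨6, -8, [(0, 10), (2, 7)], [(11, 16), (13, 13)], none⟩,
     ⟨9, -12, [(0, 10), (2, 6)], [(11, 16), (13, 13)], none⟩,
     ⟨1, -1, [(0, 10), (2, 6)], [(11, 16), (12, 14)], none⟩,
     ⟨7, -9, [(0, 10), (1, 7)], [(11, 16), (12, 14)], none⟩,
     ⟨19, -25, [(0, 9), (1, 7)], [(11, 16), (12, 14)], none⟩,
     ⟨8, -10, [(0, 9), (1, 7)], [(11, 16), (12, 13)], none⟩,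
     ⟨0, 1, [(0, 9), (1, 7)], [(10, 17), (12, 13)], none⟩], 56, -72⟩,
  ⟨⟨19, 14, 15, 11⟩, -12, true, 6, 14, [16, 13], [9, 6],
    [⟨6, -8, [(0, 10), (2, 7)], [(11, 17), (13, 13)], none⟩,
     ⟨20, -27, [(0, 10), (2, 6)], [(11, 17), (13, 13)], none⟩,
     ⟨9, -12, [(0, 10), (2, 6)], [(11, 16), (13, 13)], none⟩,
     ⟨1, -1, [(0, 10), (2, 6)], [(11, 16), (12, 14)], none⟩,
     ⟨7, -9, [(0, 10), (1, 7)], [(11, 16), (12, 14)], none⟩,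
     ⟨19, -25, [(0, 9), (1, 7)], [(11, 16), (12, 14)], none⟩,
     ⟨8, -10, [(0, 9), (1, 7)], [(11, 16), (12, 13)], none⟩,
     ⟨0, 1, [(0, 9), (1, 7)], [(10, 17), (12, 13)], none⟩], 70, -91⟩,
  ⟨⟨15, 11, 26, 19⟩, -12, true, 6, 14, [16, 13], [9, 6],
    [⟨6, -8, [(0, 10), (2, 7)], [(11, 17), (13, 13)], none⟩,
     ⟨9, -12, [(0, 10), (2, 6)], [(11, 17), (13, 13)], none⟩,
     ⟨20, -27, [(0, 10), (2, 6)], [(11, 17), (12, 14)], none⟩,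
     ⟨1, -1, [(0, 10), (2, 6)], [(11, 16), (12, 14)], none⟩,
     ⟨7, -9, [(0, 10), (1, 7)], [(11, 16), (12, 14)], none⟩,
     ⟨8, -10, [(0, 9), (1, 7)], [(11, 16), (12, 14)], none⟩,
     ⟨19, -25, [(0, 9), (1, 7)], [(10, 17), (12, 14)], none⟩,
     ⟨0, 1, [(0, 9), (1, 7)], [(10, 17), (12, 13)], none⟩], 70, -91⟩,
  ⟨⟨26, 19, 11, 8⟩, -12, true, 6, 14, [16, 13], [9, 6],
    [⟨19, -26, [(0, 10), (2, 7)], [(11, 17), (13, 14)], none⟩,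
     ⟨6, -8, [(0, 10), (2, 7)], [(11, 17), (13, 13)], none⟩,
     ⟨9, -12, [(0, 10), (2, 6)], [(11, 17), (13, 13)], none⟩,
     ⟨1, -1, [(0, 10), (2, 6)], [(11, 17), (12, 14)], none⟩,
     ⟨20, -27, [(0, 10), (1, 7)], [(11, 17), (12, 14)], none⟩,
     ⟨7, -9, [(0, 10), (1, 7)], [(11, 16), (12, 14)], none⟩,
     ⟨8, -10, [(0, 9), (1, 7)], [(11, 16), (12, 14)], none⟩,
     ⟨0, 1, [(0, 9), (1, 7)], [(10, 17), (12, 14)], none⟩], 70, -91⟩,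
  ⟨⟨11, 8, 18, 13⟩, -12, true, 6, 14, [16, 13], [9, 6],
    [⟨8, -11, [(0, 10), (2, 7)], [(12, 16), (13, 14)], none⟩,
     ⟨19, -26, [(0, 10), (2, 7)], [(11, 17), (13, 14)], none⟩,
     ⟨6, -8, [(0, 10), (2, 7)], [(11, 17), (13, 13)], none⟩,
     ⟨1, -1, [(0, 10), (2, 6)], [(11, 17), (13, 13)], none⟩,
     ⟨9, -12, [(0, 10), (1, 7)], [(11, 17), (13, 13)], none⟩,
     ⟨20, -27, [(0, 10), (1, 7)], [(11, 17), (12, 14)], none⟩,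
     ⟨7, -9, [(0, 10), (1, 7)], [(11, 16), (12, 14)], none⟩,
     ⟨0, 1, [(0, 9), (1, 7)], [(11, 16), (12, 14)], none⟩], 70, -91⟩,
  ⟨⟨18, 13, 25, 18⟩, -12, true, 6, 14, [16, 13], [9, 6],
    [⟨8, -11, [(0, 10), (2, 7)], [(12, 16), (13, 14)], none⟩,
     ⟨6, -8, [(0, 10), (2, 7)], [(11, 17), (13, 14)], none⟩,
     ⟨19, -26, [(0, 10), (2, 6)], [(11, 17), (13, 14)], none⟩,
     ⟨1, -1, [(0, 10), (2, 6)], [(11, 17), (13, 13)], none⟩,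
     ⟨9, -12, [(0, 10), (1, 7)], [(11, 17), (13, 13)], none⟩,
     ⟨7, -9, [(0, 10), (1, 7)], [(11, 17), (12, 14)], none⟩,
     ⟨20, -27, [(0, 9), (1, 7)], [(11, 17), (12, 14)], none⟩,
     ⟨0, 1, [(0, 9), (1, 7)], [(11, 16), (12, 14)], none⟩], 70, -91⟩,
  ⟨⟨25, 18, 7, 5⟩, -12, true, 6, 14, [16, 13], [9, 6],
    [⟨8, -11, [(0, 10), (2, 7)], [(12, 16), (13, 14)], none⟩,
     ⟨6, -8, [(0, 10), (2, 7)], [(11, 17), (13, 14)], none⟩,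
     ⟨1, -1, [(0, 10), (2, 6)], [(11, 17), (13, 14)], none⟩,
     ⟨19, -26, [(0, 10), (1, 7)], [(11, 17), (13, 14)], none⟩,
     ⟨9, -12, [(0, 10), (1, 7)], [(11, 17), (13, 13)], none⟩,
     ⟨7, -9, [(0, 10), (1, 7)], [(11, 17), (12, 14)], none⟩,
     ⟨20, -27, [(0, 9), (1, 7)], [(11, 17), (12, 14)], none⟩,
     ⟨0, 1, [(0, 9), (1, 7)], [(11, 16), (12, 14)], none⟩], 70, -91⟩,
  ⟨⟨7, 5, 17, 12⟩, -12, true, 7, 14, [16, 14], [9, 7],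
    [⟨20, -28, [(0, 10), (2, 7)], [(12, 17), (13, 14)], none⟩,
     ⟨8, -11, [(0, 10), (2, 7)], [(12, 16), (13, 14)], none⟩,
     ⟨1, -1, [(0, 10), (2, 7)], [(11, 17), (13, 14)], none⟩,
     ⟨6, -8, [(0, 10), (1, 8)], [(11, 17), (13, 14)], none⟩,
     ⟨9, -12, [(0, 10), (1, 7)], [(11, 17), (13, 14)], none⟩,
     ⟨19, -26, [(0, 10), (1, 7)], [(11, 17), (12, 15)], none⟩,
     ⟨7, -9, [(0, 10), (1, 7)], [(11, 17), (12, 14)], none⟩,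
     ⟨0, 1, [(0, 9), (1, 7)], [(11, 17), (12, 14)], none⟩], 80, -105⟩,
  ⟨⟨17, 12, 27, 19⟩, -13, true, 7, 15, [17, 14], [9, 7],
    [⟨8, -11, [(0, 10), (2, 7)], [(12, 17), (13, 14)], none⟩,
     ⟨20, -28, [(0, 10), (2, 7)], [(11, 18), (13, 14)], none⟩,
     ⟨1, -1, [(0, 10), (2, 7)], [(11, 17), (13, 14)], none⟩,
     ⟨6, -8, [(0, 10), (1, 8)], [(11, 17), (13, 14)], none⟩,
     ⟨9, -12, [(0, 10), (1, 7)], [(11, 17), (13, 14)], none⟩,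
     ⟨7, -9, [(0, 10), (1, 7)], [(11, 17), (12, 15)], none⟩,
     ⟨19, -26, [(0, 9), (1, 7)], [(11, 17), (12, 15)], none⟩,
     ⟨0, 1, [(0, 9), (1, 7)], [(11, 17), (12, 14)], none⟩], 87, -122⟩,
  ⟨⟨27, 19, 10, 7⟩, -13, true, 7, 15, [17, 14], [9, 7],
    [⟨19, -27, [(0, 10), (2, 7)], [(12, 17), (13, 15)], none⟩,
     ⟨8, -11, [(0, 10), (2, 7)], [(12, 17), (13, 14)], none⟩,
     ⟨1, -1, [(0, 10), (2, 7)], [(11, 18), (13, 14)], none⟩,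
     ⟨20, -28, [(0, 10), (1, 8)], [(11, 18), (13, 14)], none⟩,
     ⟨6, -8, [(0, 10), (1, 8)], [(11, 17), (13, 14)], none⟩,
     ⟨9, -12, [(0, 10), (1, 7)], [(11, 17), (13, 14)], none⟩,
     ⟨7, -9, [(0, 10), (1, 7)], [(11, 17), (12, 15)], none⟩,
     ⟨0, 1, [(0, 9), (1, 7)], [(11, 17), (12, 15)], none⟩], 68, -95⟩,
  ⟨⟨10, 7, 13, 9⟩, -12, true, 7, 14, [17, 14], [10, 7],
    [⟨7, -10, [(0, 11), (2, 7)], [(12, 17), (13, 15)], none⟩,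
     ⟨19, -27, [(0, 10), (2, 7)], [(12, 17), (13, 15)], none⟩,
     ⟨1, -1, [(0, 10), (2, 7)], [(12, 17), (13, 14)], none⟩,
     ⟨8, -11, [(0, 10), (1, 8)], [(12, 17), (13, 14)], none⟩,
     ⟨6, -8, [(0, 10), (1, 8)], [(11, 18), (13, 14)], none⟩,
     ⟨20, -28, [(0, 10), (1, 7)], [(11, 18), (13, 14)], none⟩,
     ⟨9, -12, [(0, 10), (1, 7)], [(11, 17), (13, 14)], none⟩,
     ⟨0, 1, [(0, 10), (1, 7)], [(11, 17), (12, 15)], none⟩], 80, -105⟩,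
  ⟨⟨13, 9, 29, 20⟩, -12, true, 7, 14, [17, 14], [10, 7],
    [⟨9, -13, [(0, 11), (2, 7)], [(12, 17), (14, 14)], none⟩,
     ⟨7, -10, [(0, 11), (2, 7)], [(12, 17), (13, 15)], none⟩,
     ⟨1, -1, [(0, 10), (2, 7)], [(12, 17), (13, 15)], none⟩,
     ⟨19, -27, [(0, 10), (1, 8)], [(12, 17), (13, 15)], none⟩,
     ⟨8, -11, [(0, 10), (1, 8)], [(12, 17), (13, 14)], none⟩,
     ⟨6, -8, [(0, 10), (1, 8)], [(11, 18), (13, 14)], none⟩,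
     ⟨20, -28, [(0, 10), (1, 7)], [(11, 18), (13, 14)], none⟩,
     ⟨0, 1, [(0, 10), (1, 7)], [(11, 17), (13, 14)], none⟩], 80, -105⟩,
  ⟨⟨29, 20, 16, 11⟩, -12, true, 7, 14, [17, 14], [10, 7],
    [⟨20, -29, [(0, 11), (2, 7)], [(12, 18), (14, 14)], none⟩,
     ⟨9, -13, [(0, 11), (2, 7)], [(12, 17), (14, 14)], none⟩,
     ⟨7, -10, [(0, 11), (2, 7)], [(12, 17), (13, 15)], none⟩,
     ⟨1, -1, [(0, 10), (2, 7)], [(12, 17), (13, 15)], none⟩,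
     ⟨19, -27, [(0, 10), (1, 8)], [(12, 17), (13, 15)], none⟩,
     ⟨8, -11, [(0, 10), (1, 8)], [(12, 17), (13, 14)], none⟩,
     ⟨6, -8, [(0, 10), (1, 8)], [(11, 18), (13, 14)], none⟩,
     ⟨0, 1, [(0, 10), (1, 7)], [(11, 18), (13, 14)], none⟩], 80, -105⟩,
  ⟨⟨16, 11, 19, 13⟩, -12, true, 7, 14, [17, 14], [10, 7],
    [⟨9, -13, [(0, 11), (2, 7)], [(12, 18), (14, 14)], none⟩,
     ⟨20, -29, [(0, 11), (2, 7)], [(12, 18), (13, 15)], none⟩,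
     ⟨7, -10, [(0, 11), (2, 7)], [(12, 17), (13, 15)], none⟩,
     ⟨1, -1, [(0, 10), (2, 7)], [(12, 17), (13, 15)], none⟩,
     ⟨8, -11, [(0, 10), (1, 8)], [(12, 17), (13, 15)], none⟩,
     ⟨19, -27, [(0, 10), (1, 8)], [(11, 18), (13, 15)], none⟩,
     ⟨6, -8, [(0, 10), (1, 8)], [(11, 18), (13, 14)], none⟩,
     ⟨0, 1, [(0, 10), (1, 7)], [(11, 18), (13, 14)], none⟩], 80, -105⟩,
  ⟨⟨19, 13, 28, 19⟩, -12, true, 7, 14, [17, 14], [10, 7],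
    [⟨9, -13, [(0, 11), (2, 7)], [(12, 18), (14, 14)], none⟩,
     ⟨7, -10, [(0, 11), (2, 7)], [(12, 18), (13, 15)], none⟩,
     ⟨20, -29, [(0, 10), (2, 7)], [(12, 18), (13, 15)], none⟩,
     ⟨1, -1, [(0, 10), (2, 7)], [(12, 17), (13, 15)], none⟩,
     ⟨8, -11, [(0, 10), (1, 8)], [(12, 17), (13, 15)], none⟩,
     ⟨6, -8, [(0, 10), (1, 8)], [(11, 18), (13, 15)], none⟩,
     ⟨19, -27, [(0, 10), (1, 7)], [(11, 18), (13, 15)], none⟩,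
     ⟨0, 1, [(0, 10), (1, 7)], [(11, 18), (13, 14)], none⟩], 106, -143⟩,
  ⟨⟨28, 19, 3, 2⟩, -12, true, 7, 14, [17, 14], [10, 7],
    [⟨19, -28, [(0, 11), (2, 7)], [(12, 18), (14, 15)], none⟩,
     ⟨9, -13, [(0, 11), (2, 7)], [(12, 18), (14, 14)], none⟩,
     ⟨7, -10, [(0, 11), (2, 7)], [(12, 18), (13, 15)], none⟩,
     ⟨1, -1, [(0, 10), (2, 7)], [(12, 18), (13, 15)], none⟩,
     ⟨20, -29, [(0, 10), (1, 8)], [(12, 18), (13, 15)], none⟩,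
     ⟨8, -11, [(0, 10), (1, 8)], [(12, 17), (13, 15)], none⟩,
     ⟨6, -8, [(0, 10), (1, 8)], [(11, 18), (13, 15)], none⟩,
     ⟨0, 1, [(0, 10), (1, 7)], [(11, 18), (13, 15)], none⟩], 68, -87⟩,
  ⟨⟨3, 2, 29, 19⟩, -14, true, 7, 16, [18, 15], [10, 7],
    [⟨6, -9, [(0, 11), (2, 8)], [(13, 18), (14, 15)], none⟩,
     ⟨8, -12, [(0, 11), (2, 7)], [(13, 18), (14, 15)], none⟩,
     ⟨20, -30, [(0, 11), (2, 7)], [(12, 19), (14, 15)], none⟩,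
     ⟨1, -1, [(0, 11), (2, 7)], [(12, 18), (14, 15)], none⟩,
     ⟨7, -10, [(0, 11), (1, 8)], [(12, 18), (14, 15)], none⟩,
     ⟨9, -13, [(0, 10), (1, 8)], [(12, 18), (14, 15)], none⟩,
     ⟨19, -28, [(0, 10), (1, 8)], [(12, 18), (13, 16)], none⟩,
     ⟨0, 1, [(0, 10), (1, 8)], [(12, 18), (13, 15)], none⟩], 92, -138⟩,
  ⟨⟨29, 19, 20, 13⟩, -14, true, 7, 16, [18, 15], [10, 7],
    [⟨19, -29, [(0, 11), (2, 8)], [(13, 18), (14, 16)], none⟩,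
     ⟨6, -9, [(0, 11), (2, 8)], [(13, 18), (14, 15)], none⟩,
     ⟨8, -12, [(0, 11), (2, 7)], [(13, 18), (14, 15)], none⟩,
     ⟨1, -1, [(0, 11), (2, 7)], [(12, 19), (14, 15)], none⟩,
     ⟨20, -30, [(0, 11), (1, 8)], [(12, 19), (14, 15)], none⟩,
     ⟨7, -10, [(0, 11), (1, 8)], [(12, 18), (14, 15)], none⟩,
     ⟨9, -13, [(0, 10), (1, 8)], [(12, 18), (14, 15)], none⟩,
     ⟨0, 1, [(0, 10), (1, 8)], [(12, 18), (13, 16)], none⟩], 54, -80⟩,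
  ⟨⟨20, 13, 17, 11⟩, -14, true, 7, 16, [18, 15], [10, 7],
    [⟨6, -9, [(0, 11), (2, 8)], [(13, 18), (14, 16)], none⟩,
     ⟨19, -29, [(0, 11), (2, 7)], [(13, 18), (14, 16)], none⟩,
     ⟨8, -12, [(0, 11), (2, 7)], [(13, 18), (14, 15)], none⟩,
     ⟨1, -1, [(0, 11), (2, 7)], [(12, 19), (14, 15)], none⟩,
     ⟨7, -10, [(0, 11), (1, 8)], [(12, 19), (14, 15)], none⟩,
     ⟨20, -30, [(0, 10), (1, 8)], [(12, 19), (14, 15)], none⟩,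
     ⟨9, -13, [(0, 10), (1, 8)], [(12, 18), (14, 15)], none⟩,
     ⟨0, 1, [(0, 10), (1, 8)], [(12, 18), (13, 16)], none⟩], 80, -120⟩,
  ⟨⟨17, 11, 31, 20⟩, -14, true, 7, 16, [18, 15], [10, 7],
    [⟨6, -9, [(0, 11), (2, 8)], [(13, 18), (14, 16)], none⟩,
     ⟨8, -12, [(0, 11), (2, 7)], [(13, 18), (14, 16)], none⟩,
     ⟨19, -29, [(0, 11), (2, 7)], [(12, 19), (14, 16)], none⟩,
     ⟨1, -1, [(0, 11), (2, 7)], [(12, 19), (14, 15)], none⟩,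
     ⟨7, -10, [(0, 11), (1, 8)], [(12, 19), (14, 15)], none⟩,
     ⟨9, -13, [(0, 10), (1, 8)], [(12, 19), (14, 15)], none⟩,
     ⟨20, -30, [(0, 10), (1, 8)], [(12, 19), (13, 16)], none⟩,
     ⟨0, 1, [(0, 10), (1, 8)], [(12, 18), (13, 16)], none⟩], 80, -120⟩,
  ⟨⟨31, 20, 14, 9⟩, -14, true, 7, 16, [18, 15], [10, 7],
    [⟨20, -31, [(0, 11), (2, 8)], [(13, 19), (14, 16)], none⟩,
     ⟨6, -9, [(0, 11), (2, 8)], [(13, 18), (14, 16)], none⟩,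
     ⟨8, -12, [(0, 11), (2, 7)], [(13, 18), (14, 16)], none⟩,
     ⟨19, -29, [(0, 11), (2, 7)], [(12, 19), (14, 16)], none⟩,
     ⟨1, -1, [(0, 11), (2, 7)], [(12, 19), (14, 15)], none⟩,
     ⟨7, -10, [(0, 11), (1, 8)], [(12, 19), (14, 15)], none⟩,
     ⟨9, -13, [(0, 10), (1, 8)], [(12, 19), (14, 15)], none⟩,
     ⟨0, 1, [(0, 10), (1, 8)], [(12, 19), (13, 16)], none⟩], 80, -120⟩]

theorem recs2_chk : recs2.all (fun r => r.chk par 3 1000) = true := by decide +kernel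

/-- cells -/
def recs3 : List Rec := [
  ⟨⟨14, 9, 11, 7⟩, -14, true, 7, 16, [18, 15], [10, 7],
    [⟨9, -14, [(0, 11), (2, 8)], [(13, 19), (15, 15)], none⟩,
     ⟨20, -31, [(0, 11), (2, 8)], [(13, 19), (14, 16)], none⟩,
     ⟨6, -9, [(0, 11), (2, 8)], [(13, 18), (14, 16)], none⟩,
     ⟨8, -12, [(0, 11), (2, 7)], [(13, 18), (14, 16)], none⟩,
     ⟨1, -1, [(0, 11), (2, 7)], [(12, 19), (14, 16)], none⟩,
     ⟨19, -29, [(0, 11), (1, 8)], [(12, 19), (14, 16)], none⟩,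
     ⟨7, -10, [(0, 11), (1, 8)], [(12, 19), (14, 15)], none⟩,
     ⟨0, 1, [(0, 10), (1, 8)], [(12, 19), (14, 15)], none⟩], 80, -120⟩,
  ⟨⟨11, 7, 30, 19⟩, -13, true, 7, 15, [18, 15], [11, 7],
    [⟨7, -11, [(0, 12), (2, 8)], [(13, 19), (15, 15)], none⟩,
     ⟨9, -14, [(0, 11), (2, 8)], [(13, 19), (15, 15)], none⟩,
     ⟨6, -9, [(0, 11), (2, 8)], [(13, 19), (14, 16)], none⟩,
     ⟨20, -31, [(0, 11), (2, 7)], [(13, 19), (14, 16)], none⟩,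
     ⟨1, -1, [(0, 11), (2, 7)], [(13, 18), (14, 16)], none⟩,
     ⟨8, -12, [(0, 11), (1, 8)], [(13, 18), (14, 16)], none⟩,
     ⟨19, -29, [(0, 11), (1, 8)], [(12, 19), (14, 16)], none⟩,
     ⟨0, 1, [(0, 11), (1, 8)], [(12, 19), (14, 15)], none⟩], 92, -131⟩,
  ⟨⟨30, 19, 19, 12⟩, -13, true, 7, 15, [18, 15], [11, 7],
    [⟨19, -30, [(0, 12), (2, 8)], [(13, 19), (15, 16)], none⟩,
     ⟨7, -11, [(0, 12), (2, 8)], [(13, 19), (15, 15)], none⟩,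
     ⟨9, -14, [(0, 11), (2, 8)], [(13, 19), (15, 15)], none⟩,
     ⟨6, -9, [(0, 11), (2, 8)], [(13, 19), (14, 16)], none⟩,
     ⟨1, -1, [(0, 11), (2, 7)], [(13, 19), (14, 16)], none⟩,
     ⟨20, -31, [(0, 11), (1, 8)], [(13, 19), (14, 16)], none⟩,
     ⟨8, -12, [(0, 11), (1, 8)], [(13, 18), (14, 16)], none⟩,
     ⟨0, 1, [(0, 11), (1, 8)], [(12, 19), (14, 16)], none⟩], 73, -101⟩,
  ⟨⟨19, 12, 8, 5⟩, -14, true, 7, 16, [19, 15], [11, 7],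
    [⟨7, -11, [(0, 12), (2, 8)], [(13, 19), (15, 16)], none⟩,
     ⟨19, -30, [(0, 11), (2, 8)], [(13, 19), (15, 16)], none⟩,
     ⟨9, -14, [(0, 11), (2, 8)], [(13, 19), (15, 15)], none⟩,
     ⟨6, -9, [(0, 11), (2, 8)], [(13, 19), (14, 16)], none⟩,
     ⟨1, -1, [(0, 11), (2, 7)], [(13, 19), (14, 16)], none⟩,
     ⟨8, -12, [(0, 11), (1, 8)], [(13, 19), (14, 16)], none⟩,
     ⟨20, -31, [(0, 11), (1, 8)], [(12, 20), (14, 16)], none⟩,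
     ⟨0, 1, [(0, 11), (1, 8)], [(12, 19), (14, 16)], none⟩], 80, -120⟩,
  ⟨⟨8, 5, 29, 18⟩, -14, true, 8, 16, [19, 16], [11, 8],
    [⟨20, -32, [(0, 12), (2, 8)], [(13, 20), (15, 16)], none⟩,
     ⟨7, -11, [(0, 12), (2, 8)], [(13, 19), (15, 16)], none⟩,
     ⟨9, -14, [(0, 11), (2, 8)], [(13, 19), (15, 16)], none⟩,
     ⟨19, -30, [(0, 11), (2, 8)], [(13, 19), (14, 17)], none⟩,
     ⟨1, -1, [(0, 11), (2, 8)], [(13, 19), (14, 16)], none⟩,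
     ⟨6, -9, [(0, 11), (1, 9)], [(13, 19), (14, 16)], none⟩,
     ⟨8, -12, [(0, 11), (1, 8)], [(13, 19), (14, 16)], none⟩,
     ⟨0, 1, [(0, 11), (1, 8)], [(12, 20), (14, 16)], none⟩], 90, -136⟩,
  ⟨⟨29, 18, 21, 13⟩, -14, true, 8, 16, [19, 16], [11, 8],
    [⟨20, -32, [(0, 12), (2, 8)], [(13, 20), (15, 16)], none⟩,
     ⟨7, -11, [(0, 12), (2, 8)], [(13, 19), (15, 16)], none⟩,
     ⟨9, -14, [(0, 11), (2, 8)], [(13, 19), (15, 16)], none⟩,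
     ⟨1, -1, [(0, 11), (2, 8)], [(13, 19), (14, 17)], none⟩,
     ⟨19, -30, [(0, 11), (1, 9)], [(13, 19), (14, 17)], none⟩,
     ⟨6, -9, [(0, 11), (1, 9)], [(13, 19), (14, 16)], none⟩,
     ⟨8, -12, [(0, 11), (1, 8)], [(13, 19), (14, 16)], none⟩,
     ⟨0, 1, [(0, 11), (1, 8)], [(12, 20), (14, 16)], none⟩], 90, -136⟩,
  ⟨⟨21, 13, 13, 8⟩, -14, true, 8, 16, [19, 16], [11, 8],
    [⟨7, -11, [(0, 12), (2, 8)], [(13, 20), (15, 16)], none⟩,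
     ⟨20, -32, [(0, 11), (2, 8)], [(13, 20), (15, 16)], none⟩,
     ⟨9, -14, [(0, 11), (2, 8)], [(13, 19), (15, 16)], none⟩,
     ⟨1, -1, [(0, 11), (2, 8)], [(13, 19), (14, 17)], none⟩,
     ⟨6, -9, [(0, 11), (1, 9)], [(13, 19), (14, 17)], none⟩,
     ⟨19, -30, [(0, 11), (1, 8)], [(13, 19), (14, 17)], none⟩,
     ⟨8, -12, [(0, 11), (1, 8)], [(13, 19), (14, 16)], none⟩,
     ⟨0, 1, [(0, 11), (1, 8)], [(12, 20), (14, 16)], none⟩], 90, -136⟩,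
  ⟨⟨13, 8, 31, 19⟩, -14, true, 8, 16, [19, 16], [11, 8],
    [⟨8, -13, [(0, 12), (2, 8)], [(14, 19), (15, 16)], none⟩,
     ⟨7, -11, [(0, 12), (2, 8)], [(13, 20), (15, 16)], none⟩,
     ⟨20, -32, [(0, 11), (2, 8)], [(13, 20), (15, 16)], none⟩,
     ⟨1, -1, [(0, 11), (2, 8)], [(13, 19), (15, 16)], none⟩,
     ⟨9, -14, [(0, 11), (1, 9)], [(13, 19), (15, 16)], none⟩,
     ⟨6, -9, [(0, 11), (1, 9)], [(13, 19), (14, 17)], none⟩,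
     ⟨19, -30, [(0, 11), (1, 8)], [(13, 19), (14, 17)], none⟩,
     ⟨0, 1, [(0, 11), (1, 8)], [(13, 19), (14, 16)], none⟩], 90, -136⟩,
  ⟨⟨31, 19, 18, 11⟩, -14, true, 8, 16, [19, 16], [11, 8],
    [⟨19, -31, [(0, 12), (2, 8)], [(14, 19), (15, 17)], none⟩,
     ⟨8, -13, [(0, 12), (2, 8)], [(14, 19), (15, 16)], none⟩,
     ⟨7, -11, [(0, 12), (2, 8)], [(13, 20), (15, 16)], none⟩,
     ⟨1, -1, [(0, 11), (2, 8)], [(13, 20), (15, 16)], none⟩,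
     ⟨20, -32, [(0, 11), (1, 9)], [(13, 20), (15, 16)], none⟩,
     ⟨9, -14, [(0, 11), (1, 9)], [(13, 19), (15, 16)], none⟩,
     ⟨6, -9, [(0, 11), (1, 9)], [(13, 19), (14, 17)], none⟩,
     ⟨0, 1, [(0, 11), (1, 8)], [(13, 19), (14, 17)], none⟩], 90, -136⟩,
  ⟨⟨18, 11, 23, 14⟩, -14, true, 8, 16, [19, 16], [11, 8],
    [⟨8, -13, [(0, 12), (2, 8)], [(14, 19), (15, 17)], none⟩,
     ⟨19, -31, [(0, 12), (2, 8)], [(13, 20), (15, 17)], none⟩,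
     ⟨7, -11, [(0, 12), (2, 8)], [(13, 20), (15, 16)], none⟩,
     ⟨1, -1, [(0, 11), (2, 8)], [(13, 20), (15, 16)], none⟩,
     ⟨9, -14, [(0, 11), (1, 9)], [(13, 20), (15, 16)], none⟩,
     ⟨20, -32, [(0, 11), (1, 9)], [(13, 20), (14, 17)], none⟩,
     ⟨6, -9, [(0, 11), (1, 9)], [(13, 19), (14, 17)], none⟩,
     ⟨0, 1, [(0, 11), (1, 8)], [(13, 19), (14, 17)], none⟩], 90, -136⟩,
  ⟨⟨23, 14, 33, 20⟩, -14, true, 8, 16, [19, 16], [11, 8],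
    [⟨8, -13, [(0, 12), (2, 8)], [(14, 19), (15, 17)], none⟩,
     ⟨19, -31, [(0, 12), (2, 8)], [(13, 20), (15, 17)], none⟩,
     ⟨7, -11, [(0, 12), (2, 8)], [(13, 20), (15, 16)], none⟩,
     ⟨1, -1, [(0, 11), (2, 8)], [(13, 20), (15, 16)], none⟩,
     ⟨9, -14, [(0, 11), (1, 9)], [(13, 20), (15, 16)], none⟩,
     ⟨6, -9, [(0, 11), (1, 9)], [(13, 20), (14, 17)], none⟩,
     ⟨20, -32, [(0, 11), (1, 8)], [(13, 20), (14, 17)], none⟩,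
     ⟨0, 1, [(0, 11), (1, 8)], [(13, 19), (14, 17)], none⟩], 104, -159⟩,
  ⟨⟨33, 20, 5, 3⟩, -14, true, 8, 16, [19, 16], [11, 8],
    [⟨20, -33, [(0, 12), (2, 8)], [(14, 20), (15, 17)], none⟩,
     ⟨8, -13, [(0, 12), (2, 8)], [(14, 19), (15, 17)], none⟩,
     ⟨19, -31, [(0, 12), (2, 8)], [(13, 20), (15, 17)], none⟩,
     ⟨7, -11, [(0, 12), (2, 8)], [(13, 20), (15, 16)], none⟩,
     ⟨1, -1, [(0, 11), (2, 8)], [(13, 20), (15, 16)], none⟩,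
     ⟨9, -14, [(0, 11), (1, 9)], [(13, 20), (15, 16)], none⟩,
     ⟨6, -9, [(0, 11), (1, 9)], [(13, 20), (14, 17)], none⟩,
     ⟨0, 1, [(0, 11), (1, 8)], [(13, 20), (14, 17)], none⟩], 84, -126⟩,
  ⟨⟨5, 3, 32, 19⟩, -15, true, 8, 17, [20, 16], [11, 8],
    [⟨6, -10, [(0, 12), (2, 9)], [(14, 20), (16, 16)], none⟩,
     ⟨9, -15, [(0, 12), (2, 8)], [(14, 20), (16, 16)], none⟩,
     ⟨8, -13, [(0, 12), (2, 8)], [(14, 20), (15, 17)], none⟩,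
     ⟨20, -33, [(0, 12), (2, 8)], [(13, 21), (15, 17)], none⟩,
     ⟨1, -1, [(0, 12), (2, 8)], [(13, 20), (15, 17)], none⟩,
     ⟨7, -11, [(0, 12), (1, 9)], [(13, 20), (15, 17)], none⟩,
     ⟨19, -31, [(0, 11), (1, 9)], [(13, 20), (15, 17)], none⟩,
     ⟨0, 1, [(0, 11), (1, 9)], [(13, 20), (15, 16)], none⟩], 97, -156⟩,
  ⟨⟨32, 19, 22, 13⟩, -15, true, 8, 17, [20, 16], [11, 8],
    [⟨19, -32, [(0, 12), (2, 9)], [(14, 20), (16, 17)], none⟩,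
     ⟨6, -10, [(0, 12), (2, 9)], [(14, 20), (16, 16)], none⟩,
     ⟨9, -15, [(0, 12), (2, 8)], [(14, 20), (16, 16)], none⟩,
     ⟨8, -13, [(0, 12), (2, 8)], [(14, 20), (15, 17)], none⟩,
     ⟨1, -1, [(0, 12), (2, 8)], [(13, 21), (15, 17)], none⟩,
     ⟨20, -33, [(0, 12), (1, 9)], [(13, 21), (15, 17)], none⟩,
     ⟨7, -11, [(0, 12), (1, 9)], [(13, 20), (15, 17)], none⟩,
     ⟨0, 1, [(0, 11), (1, 9)], [(13, 20), (15, 17)], none⟩], 78, -124⟩,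
  ⟨⟨22, 13, 17, 10⟩, -15, true, 8, 17, [20, 16], [11, 8],
    [⟨6, -10, [(0, 12), (2, 9)], [(14, 20), (16, 17)], none⟩,
     ⟨19, -32, [(0, 12), (2, 8)], [(14, 20), (16, 17)], none⟩,
     ⟨9, -15, [(0, 12), (2, 8)], [(14, 20), (16, 16)], none⟩,
     ⟨8, -13, [(0, 12), (2, 8)], [(14, 20), (15, 17)], none⟩,
     ⟨1, -1, [(0, 12), (2, 8)], [(13, 21), (15, 17)], none⟩,
     ⟨7, -11, [(0, 12), (1, 9)], [(13, 21), (15, 17)], none⟩,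
     ⟨20, -33, [(0, 11), (1, 9)], [(13, 21), (15, 17)], none⟩,
     ⟨0, 1, [(0, 11), (1, 9)], [(13, 20), (15, 17)], none⟩], 91, -146⟩,
  ⟨⟨17, 10, 12, 7⟩, -16, true, 8, 18, [20, 17], [11, 8],
    [⟨20, -34, [(0, 12), (2, 9)], [(14, 21), (16, 17)], none⟩,
     ⟨6, -10, [(0, 12), (2, 9)], [(14, 20), (16, 17)], none⟩,
     ⟨9, -15, [(0, 12), (2, 8)], [(14, 20), (16, 17)], none⟩,
     ⟨19, -32, [(0, 12), (2, 8)], [(14, 20), (15, 18)], none⟩,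
     ⟨8, -13, [(0, 12), (2, 8)], [(14, 20), (15, 17)], none⟩,
     ⟨1, -1, [(0, 12), (2, 8)], [(13, 21), (15, 17)], none⟩,
     ⟨7, -11, [(0, 12), (1, 9)], [(13, 21), (15, 17)], none⟩,
     ⟨0, 1, [(0, 11), (1, 9)], [(13, 21), (15, 17)], none⟩], 76, -129⟩,
  ⟨⟨12, 7, 31, 18⟩, -15, true, 8, 17, [20, 17], [12, 8],
    [⟨7, -12, [(0, 13), (2, 9)], [(14, 21), (16, 17)], none⟩,
     ⟨6, -10, [(0, 12), (2, 9)], [(14, 21), (16, 17)], none⟩,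
     ⟨20, -34, [(0, 12), (2, 8)], [(14, 21), (16, 17)], none⟩,
     ⟨9, -15, [(0, 12), (2, 8)], [(14, 20), (16, 17)], none⟩,
     ⟨19, -32, [(0, 12), (2, 8)], [(14, 20), (15, 18)], none⟩,
     ⟨1, -1, [(0, 12), (2, 8)], [(14, 20), (15, 17)], none⟩,
     ⟨8, -13, [(0, 12), (1, 9)], [(14, 20), (15, 17)], none⟩,
     ⟨0, 1, [(0, 12), (1, 9)], [(13, 21), (15, 17)], none⟩], 109, -177⟩,
  ⟨⟨31, 18, 19, 11⟩, -15, true, 8, 17, [20, 17], [12, 8],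
    [⟨7, -12, [(0, 13), (2, 9)], [(14, 21), (16, 17)], none⟩,
     ⟨6, -10, [(0, 12), (2, 9)], [(14, 21), (16, 17)], none⟩,
     ⟨20, -34, [(0, 12), (2, 8)], [(14, 21), (16, 17)], none⟩,
     ⟨9, -15, [(0, 12), (2, 8)], [(14, 20), (16, 17)], none⟩,
     ⟨1, -1, [(0, 12), (2, 8)], [(14, 20), (15, 18)], none⟩,
     ⟨19, -32, [(0, 12), (1, 9)], [(14, 20), (15, 18)], none⟩,
     ⟨8, -13, [(0, 12), (1, 9)], [(14, 20), (15, 17)], none⟩,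
     ⟨0, 1, [(0, 12), (1, 9)], [(13, 21), (15, 17)], none⟩], 91, -146⟩,
  ⟨⟨19, 11, 33, 19⟩, -15, true, 8, 17, [20, 17], [12, 8],
    [⟨7, -12, [(0, 13), (2, 9)], [(14, 21), (16, 17)], none⟩,
     ⟨6, -10, [(0, 12), (2, 9)], [(14, 21), (16, 17)], none⟩,
     ⟨9, -15, [(0, 12), (2, 8)], [(14, 21), (16, 17)], none⟩,
     ⟨20, -34, [(0, 12), (2, 8)], [(14, 21), (15, 18)], none⟩,
     ⟨1, -1, [(0, 12), (2, 8)], [(14, 20), (15, 18)], none⟩,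
     ⟨8, -13, [(0, 12), (1, 9)], [(14, 20), (15, 18)], none⟩,
     ⟨19, -32, [(0, 12), (1, 9)], [(13, 21), (15, 18)], none⟩,
     ⟨0, 1, [(0, 12), (1, 9)], [(13, 21), (15, 17)], none⟩], 102, -165⟩,
  ⟨⟨33, 19, 7, 4⟩, -15, true, 8, 17, [20, 17], [12, 8],
    [⟨19, -33, [(0, 13), (2, 9)], [(14, 21), (16, 18)], none⟩,
     ⟨7, -12, [(0, 13), (2, 9)], [(14, 21), (16, 17)], none⟩,
     ⟨6, -10, [(0, 12), (2, 9)], [(14, 21), (16, 17)], none⟩,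
     ⟨9, -15, [(0, 12), (2, 8)], [(14, 21), (16, 17)], none⟩,
     ⟨1, -1, [(0, 12), (2, 8)], [(14, 21), (15, 18)], none⟩,
     ⟨20, -34, [(0, 12), (1, 9)], [(14, 21), (15, 18)], none⟩,
     ⟨8, -13, [(0, 12), (1, 9)], [(14, 20), (15, 18)], none⟩,
     ⟨0, 1, [(0, 12), (1, 9)], [(13, 21), (15, 18)], none⟩], 83, -132⟩,
  ⟨⟨7, 4, 23, 13⟩, -16, true, 8, 18, [21, 17], [12, 8],
    [⟨8, -14, [(0, 13), (2, 9)], [(15, 21), (16, 18)], none⟩,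
     ⟨20, -35, [(0, 13), (2, 9)], [(14, 22), (16, 18)], none⟩,
     ⟨7, -12, [(0, 13), (2, 9)], [(14, 21), (16, 18)], none⟩,
     ⟨19, -33, [(0, 12), (2, 9)], [(14, 21), (16, 18)], none⟩,
     ⟨6, -10, [(0, 12), (2, 9)], [(14, 21), (16, 17)], none⟩,
     ⟨1, -1, [(0, 12), (2, 8)], [(14, 21), (16, 17)], none⟩,
     ⟨9, -15, [(0, 12), (1, 9)], [(14, 21), (16, 17)], none⟩,
     ⟨0, 1, [(0, 12), (1, 9)], [(14, 21), (15, 18)], none⟩], 90, -153⟩,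
  ⟨⟨23, 13, 16, 9⟩, -16, true, 8, 18, [21, 17], [12, 8],
    [⟨8, -14, [(0, 13), (2, 9)], [(15, 21), (16, 18)], none⟩,
     ⟨7, -12, [(0, 13), (2, 9)], [(14, 22), (16, 18)], none⟩,
     ⟨20, -35, [(0, 12), (2, 9)], [(14, 22), (16, 18)], none⟩,
     ⟨6, -10, [(0, 12), (2, 9)], [(14, 21), (16, 18)], none⟩,
     ⟨19, -33, [(0, 12), (2, 8)], [(14, 21), (16, 18)], none⟩,
     ⟨1, -1, [(0, 12), (2, 8)], [(14, 21), (16, 17)], none⟩,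
     ⟨9, -15, [(0, 12), (1, 9)], [(14, 21), (16, 17)], none⟩,
     ⟨0, 1, [(0, 12), (1, 9)], [(14, 21), (15, 18)], none⟩], 90, -153⟩,
  ⟨⟨16, 9, 25, 14⟩, -16, true, 8, 18, [21, 17], [12, 8],
    [⟨9, -16, [(0, 13), (2, 9)], [(15, 21), (17, 17)], none⟩,
     ⟨8, -14, [(0, 13), (2, 9)], [(15, 21), (16, 18)], none⟩,
     ⟨7, -12, [(0, 13), (2, 9)], [(14, 22), (16, 18)], none⟩,
     ⟨20, -35, [(0, 12), (2, 9)], [(14, 22), (16, 18)], none⟩,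
     ⟨6, -10, [(0, 12), (2, 9)], [(14, 21), (16, 18)], none⟩,
     ⟨1, -1, [(0, 12), (2, 8)], [(14, 21), (16, 18)], none⟩,
     ⟨19, -33, [(0, 12), (1, 9)], [(14, 21), (16, 18)], none⟩,
     ⟨0, 1, [(0, 12), (1, 9)], [(14, 21), (16, 17)], none⟩], 99, -169⟩,
  ⟨⟨25, 14, 34, 19⟩, -16, true, 8, 18, [21, 17], [12, 8],
    [⟨9, -16, [(0, 13), (2, 9)], [(15, 21), (17, 17)], none⟩,
     ⟨8, -14, [(0, 13), (2, 9)], [(15, 21), (16, 18)], none⟩,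
     ⟨7, -12, [(0, 13), (2, 9)], [(14, 22), (16, 18)], none⟩,
     ⟨6, -10, [(0, 12), (2, 9)], [(14, 22), (16, 18)], none⟩,
     ⟨20, -35, [(0, 12), (2, 8)], [(14, 22), (16, 18)], none⟩,
     ⟨1, -1, [(0, 12), (2, 8)], [(14, 21), (16, 18)], none⟩,
     ⟨19, -33, [(0, 12), (1, 9)], [(14, 21), (16, 18)], none⟩,
     ⟨0, 1, [(0, 12), (1, 9)], [(14, 21), (16, 17)], none⟩], 113, -194⟩,
  ⟨⟨34, 19, 9, 5⟩, -16, true, 8, 18, [21, 17], [12, 8],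
    [⟨19, -34, [(0, 13), (2, 9)], [(15, 21), (17, 18)], none⟩,
     ⟨9, -16, [(0, 13), (2, 9)], [(15, 21), (17, 17)], none⟩,
     ⟨8, -14, [(0, 13), (2, 9)], [(15, 21), (16, 18)], none⟩,
     ⟨7, -12, [(0, 13), (2, 9)], [(14, 22), (16, 18)], none⟩,
     ⟨6, -10, [(0, 12), (2, 9)], [(14, 22), (16, 18)], none⟩,
     ⟨1, -1, [(0, 12), (2, 8)], [(14, 22), (16, 18)], none⟩,
     ⟨20, -35, [(0, 12), (1, 9)], [(14, 22), (16, 18)], none⟩,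
     ⟨0, 1, [(0, 12), (1, 9)], [(14, 21), (16, 18)], none⟩], 75, -126⟩,
  ⟨⟨9, 5, 20, 11⟩, -16, true, 9, 18, [21, 18], [12, 9],
    [⟨20, -36, [(0, 13), (2, 9)], [(15, 22), (17, 18)], none⟩,
     ⟨9, -16, [(0, 13), (2, 9)], [(15, 21), (17, 18)], none⟩,
     ⟨19, -34, [(0, 13), (2, 9)], [(15, 21), (16, 19)], none⟩,
     ⟨8, -14, [(0, 13), (2, 9)], [(15, 21), (16, 18)], none⟩,
     ⟨7, -12, [(0, 13), (2, 9)], [(14, 22), (16, 18)], none⟩,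
     ⟨1, -1, [(0, 12), (2, 9)], [(14, 22), (16, 18)], none⟩,
     ⟨6, -10, [(0, 12), (1, 10)], [(14, 22), (16, 18)], none⟩,
     ⟨0, 1, [(0, 12), (1, 9)], [(14, 22), (16, 18)], none⟩], 100, -171⟩,
  ⟨⟨20, 11, 11, 6⟩, -16, true, 9, 18, [21, 18], [12, 9],
    [⟨9, -16, [(0, 13), (2, 9)], [(15, 22), (17, 18)], none⟩,
     ⟨20, -36, [(0, 13), (2, 9)], [(15, 22), (16, 19)], none⟩,
     ⟨8, -14, [(0, 13), (2, 9)], [(15, 21), (16, 19)], none⟩,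
     ⟨19, -34, [(0, 13), (2, 9)], [(14, 22), (16, 19)], none⟩,
     ⟨7, -12, [(0, 13), (2, 9)], [(14, 22), (16, 18)], none⟩,
     ⟨1, -1, [(0, 12), (2, 9)], [(14, 22), (16, 18)], none⟩,
     ⟨6, -10, [(0, 12), (1, 10)], [(14, 22), (16, 18)], none⟩,
     ⟨0, 1, [(0, 12), (1, 9)], [(14, 22), (16, 18)], none⟩], 100, -171⟩,
  ⟨⟨11, 6, 35, 19⟩, -17, true, 9, 19, [22, 18], [12, 9],
    [⟨6, -11, [(0, 13), (2, 10)], [(15, 22), (17, 18)], none⟩,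
     ⟨9, -16, [(0, 13), (2, 9)], [(15, 22), (17, 18)], none⟩,
     ⟨8, -14, [(0, 13), (2, 9)], [(15, 22), (16, 19)], none⟩,
     ⟨20, -36, [(0, 13), (2, 9)], [(14, 23), (16, 19)], none⟩,
     ⟨1, -1, [(0, 13), (2, 9)], [(14, 22), (16, 19)], none⟩,
     ⟨7, -12, [(0, 13), (1, 10)], [(14, 22), (16, 19)], none⟩,
     ⟨19, -34, [(0, 12), (1, 10)], [(14, 22), (16, 19)], none⟩,
     ⟨0, 1, [(0, 12), (1, 10)], [(14, 22), (16, 18)], none⟩], 107, -193⟩,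
  ⟨⟨35, 19, 24, 13⟩, -17, true, 9, 19, [22, 18], [12, 9],
    [⟨19, -35, [(0, 13), (2, 10)], [(15, 22), (17, 19)], none⟩,
     ⟨6, -11, [(0, 13), (2, 10)], [(15, 22), (17, 18)], none⟩,
     ⟨9, -16, [(0, 13), (2, 9)], [(15, 22), (17, 18)], none⟩,
     ⟨8, -14, [(0, 13), (2, 9)], [(15, 22), (16, 19)], none⟩,
     ⟨1, -1, [(0, 13), (2, 9)], [(14, 23), (16, 19)], none⟩,
     ⟨20, -36, [(0, 13), (1, 10)], [(14, 23), (16, 19)], none⟩,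
     ⟨7, -12, [(0, 13), (1, 10)], [(14, 22), (16, 19)], none⟩,
     ⟨0, 1, [(0, 12), (1, 10)], [(14, 22), (16, 19)], none⟩], 88, -158⟩,
  ⟨⟨24, 13, 37, 20⟩, -17, true, 9, 19, [22, 18], [12, 9],
    [⟨6, -11, [(0, 13), (2, 10)], [(15, 22), (17, 19)], none⟩,
     ⟨19, -35, [(0, 13), (2, 9)], [(15, 22), (17, 19)], none⟩,
     ⟨9, -16, [(0, 13), (2, 9)], [(15, 22), (17, 18)], none⟩,
     ⟨8, -14, [(0, 13), (2, 9)], [(15, 22), (16, 19)], none⟩,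
     ⟨1, -1, [(0, 13), (2, 9)], [(14, 23), (16, 19)], none⟩,
     ⟨7, -12, [(0, 13), (1, 10)], [(14, 23), (16, 19)], none⟩,
     ⟨20, -36, [(0, 12), (1, 10)], [(14, 23), (16, 19)], none⟩,
     ⟨0, 1, [(0, 12), (1, 10)], [(14, 22), (16, 19)], none⟩], 101, -182⟩,
  ⟨⟨37, 20, 13, 7⟩, -17, true, 9, 19, [22, 18], [12, 9],
    [⟨20, -37, [(0, 13), (2, 10)], [(15, 23), (17, 19)], none⟩,
     ⟨6, -11, [(0, 13), (2, 10)], [(15, 22), (17, 19)], none⟩,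
     ⟨19, -35, [(0, 13), (2, 9)], [(15, 22), (17, 19)], none⟩,
     ⟨9, -16, [(0, 13), (2, 9)], [(15, 22), (17, 18)], none⟩,
     ⟨8, -14, [(0, 13), (2, 9)], [(15, 22), (16, 19)], none⟩,
     ⟨1, -1, [(0, 13), (2, 9)], [(14, 23), (16, 19)], none⟩,
     ⟨7, -12, [(0, 13), (1, 10)], [(14, 23), (16, 19)], none⟩,
     ⟨0, 1, [(0, 12), (1, 10)], [(14, 23), (16, 19)], none⟩], 81, -145⟩,
  ⟨⟨13, 7, 15, 8⟩, -16, true, 9, 18, [22, 18], [13, 9],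
    [⟨7, -13, [(0, 14), (2, 10)], [(15, 23), (17, 19)], none⟩,
     ⟨6, -11, [(0, 13), (2, 10)], [(15, 23), (17, 19)], none⟩,
     ⟨20, -37, [(0, 13), (2, 9)], [(15, 23), (17, 19)], none⟩,
     ⟨19, -35, [(0, 13), (2, 9)], [(15, 22), (17, 19)], none⟩,
     ⟨9, -16, [(0, 13), (2, 9)], [(15, 22), (17, 18)], none⟩,
     ⟨1, -1, [(0, 13), (2, 9)], [(15, 22), (16, 19)], none⟩,
     ⟨8, -14, [(0, 13), (1, 10)], [(15, 22), (16, 19)], none⟩,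
     ⟨0, 1, [(0, 13), (1, 10)], [(14, 23), (16, 19)], none⟩], 114, -197⟩,
  ⟨⟨15, 8, 17, 9⟩, -16, true, 9, 18, [22, 18], [13, 9],
    [⟨8, -15, [(0, 14), (2, 10)], [(16, 22), (17, 19)], none⟩,
     ⟨7, -13, [(0, 14), (2, 10)], [(15, 23), (17, 19)], none⟩,
     ⟨6, -11, [(0, 13), (2, 10)], [(15, 23), (17, 19)], none⟩,
     ⟨20, -37, [(0, 13), (2, 9)], [(15, 23), (17, 19)], none⟩,
     ⟨19, -35, [(0, 13), (2, 9)], [(15, 22), (17, 19)], none⟩,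
     ⟨1, -1, [(0, 13), (2, 9)], [(15, 22), (17, 18)], none⟩,
     ⟨9, -16, [(0, 13), (1, 10)], [(15, 22), (17, 18)], none⟩,
     ⟨0, 1, [(0, 13), (1, 10)], [(15, 22), (16, 19)], none⟩], 114, -197⟩,
  ⟨⟨17, 9, 36, 19⟩, -16, true, 9, 18, [22, 18], [13, 9],
    [⟨9, -17, [(0, 14), (2, 10)], [(16, 22), (18, 18)], none⟩,
     ⟨8, -15, [(0, 14), (2, 10)], [(16, 22), (17, 19)], none⟩,
     ⟨7, -13, [(0, 14), (2, 10)], [(15, 23), (17, 19)], none⟩,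
     ⟨6, -11, [(0, 13), (2, 10)], [(15, 23), (17, 19)], none⟩,
     ⟨20, -37, [(0, 13), (2, 9)], [(15, 23), (17, 19)], none⟩,
     ⟨1, -1, [(0, 13), (2, 9)], [(15, 22), (17, 19)], none⟩,
     ⟨19, -35, [(0, 13), (1, 10)], [(15, 22), (17, 19)], none⟩,
     ⟨0, 1, [(0, 13), (1, 10)], [(15, 22), (17, 18)], none⟩], 123, -214⟩,
  ⟨⟨36, 19, 19, 10⟩, -16, true, 9, 18, [22, 18], [13, 9],
    [⟨19, -36, [(0, 14), (2, 10)], [(16, 22), (18, 19)], none⟩,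
     ⟨9, -17, [(0, 14), (2, 10)], [(16, 22), (18, 18)], none⟩,
     ⟨8, -15, [(0, 14), (2, 10)], [(16, 22), (17, 19)], none⟩,
     ⟨7, -13, [(0, 14), (2, 10)], [(15, 23), (17, 19)], none⟩,
     ⟨6, -11, [(0, 13), (2, 10)], [(15, 23), (17, 19)], none⟩,
     ⟨1, -1, [(0, 13), (2, 9)], [(15, 23), (17, 19)], none⟩,
     ⟨20, -37, [(0, 13), (1, 10)], [(15, 23), (17, 19)], none⟩,
     ⟨0, 1, [(0, 13), (1, 10)], [(15, 22), (17, 19)], none⟩], 85, -142⟩,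
  ⟨⟨19, 10, 21, 11⟩, -17, true, 9, 19, [22, 19], [13, 9],
    [⟨20, -38, [(0, 14), (2, 10)], [(16, 23), (18, 19)], none⟩,
     ⟨9, -17, [(0, 14), (2, 10)], [(16, 22), (18, 19)], none⟩,
     ⟨19, -36, [(0, 14), (2, 10)], [(16, 22), (17, 20)], none⟩,
     ⟨8, -15, [(0, 14), (2, 10)], [(16, 22), (17, 19)], none⟩,
     ⟨7, -13, [(0, 14), (2, 10)], [(15, 23), (17, 19)], none⟩,
     ⟨6, -11, [(0, 13), (2, 10)], [(15, 23), (17, 19)], none⟩,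
     ⟨1, -1, [(0, 13), (2, 9)], [(15, 23), (17, 19)], none⟩,
     ⟨0, 1, [(0, 13), (1, 10)], [(15, 23), (17, 19)], none⟩], 90, -161⟩,
  ⟨⟨21, 11, 23, 12⟩, -17, true, 9, 19, [22, 19], [13, 9],
    [⟨9, -17, [(0, 14), (2, 10)], [(16, 23), (18, 19)], none⟩,
     ⟨20, -38, [(0, 14), (2, 10)], [(16, 23), (17, 20)], none⟩,
     ⟨8, -15, [(0, 14), (2, 10)], [(16, 22), (17, 20)], none⟩,
     ⟨19, -36, [(0, 14), (2, 10)], [(15, 23), (17, 20)], none⟩,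
     ⟨7, -13, [(0, 14), (2, 10)], [(15, 23), (17, 19)], none⟩,
     ⟨6, -11, [(0, 13), (2, 10)], [(15, 23), (17, 19)], none⟩,
     ⟨1, -1, [(0, 13), (2, 9)], [(15, 23), (17, 19)], none⟩,
     ⟨0, 1, [(0, 13), (1, 10)], [(15, 23), (17, 19)], none⟩], 90, -161⟩,
  ⟨⟨23, 12, 25, 13⟩, -18, true, 9, 20, [23, 19], [13, 9],
    [⟨9, -17, [(0, 14), (2, 10)], [(16, 23), (18, 19)], none⟩,
     ⟨8, -15, [(0, 14), (2, 10)], [(16, 23), (17, 20)], none⟩,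
     ⟨20, -38, [(0, 14), (2, 10)], [(15, 24), (17, 20)], none⟩,
     ⟨7, -13, [(0, 14), (2, 10)], [(15, 23), (17, 20)], none⟩,
     ⟨19, -36, [(0, 13), (2, 10)], [(15, 23), (17, 20)], none⟩,
     ⟨6, -11, [(0, 13), (2, 10)], [(15, 23), (17, 19)], none⟩,
     ⟨1, -1, [(0, 13), (2, 9)], [(15, 23), (17, 19)], none⟩,
     ⟨0, 1, [(0, 13), (1, 10)], [(15, 23), (17, 19)], none⟩], 109, -207⟩,
  ⟨⟨25, 13, 27, 14⟩, -18, true, 9, 20, [23, 19], [13, 9],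
    [⟨9, -17, [(0, 14), (2, 10)], [(16, 23), (18, 19)], none⟩,
     ⟨8, -15, [(0, 14), (2, 10)], [(16, 23), (17, 20)], none⟩,
     ⟨7, -13, [(0, 14), (2, 10)], [(15, 24), (17, 20)], none⟩,
     ⟨20, -38, [(0, 13), (2, 10)], [(15, 24), (17, 20)], none⟩,
     ⟨6, -11, [(0, 13), (2, 10)], [(15, 23), (17, 20)], none⟩,
     ⟨19, -36, [(0, 13), (2, 9)], [(15, 23), (17, 20)], none⟩,
     ⟨1, -1, [(0, 13), (2, 9)], [(15, 23), (17, 19)], none⟩,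
     ⟨0, 1, [(0, 13), (1, 10)], [(15, 23), (17, 19)], none⟩], 109, -207⟩,
  ⟨⟨27, 14, 35, 18⟩, -18, true, 9, 20, [23, 19], [13, 9],
    [⟨9, -17, [(0, 14), (2, 10)], [(16, 23), (18, 19)], none⟩,
     ⟨8, -15, [(0, 14), (2, 10)], [(16, 23), (17, 20)], none⟩,
     ⟨7, -13, [(0, 14), (2, 10)], [(15, 24), (17, 20)], none⟩,
     ⟨6, -11, [(0, 13), (2, 10)], [(15, 24), (17, 20)], none⟩,
     ⟨20, -38, [(0, 13), (2, 9)], [(15, 24), (17, 20)], none⟩,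
     ⟨19, -36, [(0, 13), (2, 9)], [(15, 23), (17, 20)], none⟩,
     ⟨1, -1, [(0, 13), (2, 9)], [(15, 23), (17, 19)], none⟩,
     ⟨0, 1, [(0, 13), (1, 10)], [(15, 23), (17, 19)], none⟩], 123, -234⟩,
  ⟨⟨35, 18, 37, 19⟩, -18, true, 9, 20, [23, 19], [13, 9],
    [⟨9, -17, [(0, 14), (2, 10)], [(16, 23), (18, 19)], none⟩,
     ⟨8, -15, [(0, 14), (2, 10)], [(16, 23), (17, 20)], none⟩,
     ⟨7, -13, [(0, 14), (2, 10)], [(15, 24), (17, 20)], none⟩,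
     ⟨6, -11, [(0, 13), (2, 10)], [(15, 24), (17, 20)], none⟩,
     ⟨20, -38, [(0, 13), (2, 9)], [(15, 24), (17, 20)], none⟩,
     ⟨1, -1, [(0, 13), (2, 9)], [(15, 23), (17, 20)], none⟩,
     ⟨19, -36, [(0, 13), (1, 10)], [(15, 23), (17, 20)], none⟩,
     ⟨0, 1, [(0, 13), (1, 10)], [(15, 23), (17, 19)], none⟩], 123, -234⟩,
  ⟨⟨37, 19, 39, 20⟩, -18, true, 9, 20, [23, 19], [13, 9],
    [⟨19, -37, [(0, 14), (2, 10)], [(16, 23), (18, 20)], none⟩,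
     ⟨9, -17, [(0, 14), (2, 10)], [(16, 23), (18, 19)], none⟩,
     ⟨8, -15, [(0, 14), (2, 10)], [(16, 23), (17, 20)], none⟩,
     ⟨7, -13, [(0, 14), (2, 10)], [(15, 24), (17, 20)], none⟩,
     ⟨6, -11, [(0, 13), (2, 10)], [(15, 24), (17, 20)], none⟩,
     ⟨1, -1, [(0, 13), (2, 9)], [(15, 24), (17, 20)], none⟩,
     ⟨20, -38, [(0, 13), (1, 10)], [(15, 24), (17, 20)], none⟩,
     ⟨0, 1, [(0, 13), (1, 10)], [(15, 23), (17, 20)], none⟩], 85, -160⟩,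
  ⟨⟨39, 20, 2, 1⟩, -18, true, 9, 20, [23, 19], [13, 9],
    [⟨20, -39, [(0, 14), (2, 10)], [(16, 24), (18, 20)], none⟩,
     ⟨19, -37, [(0, 14), (2, 10)], [(16, 23), (18, 20)], none⟩,
     ⟨9, -17, [(0, 14), (2, 10)], [(16, 23), (18, 19)], none⟩,
     ⟨8, -15, [(0, 14), (2, 10)], [(16, 23), (17, 20)], none⟩,
     ⟨7, -13, [(0, 14), (2, 10)], [(15, 24), (17, 20)], none⟩,
     ⟨6, -11, [(0, 13), (2, 10)], [(15, 24), (17, 20)], none⟩,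
     ⟨1, -1, [(0, 13), (2, 9)], [(15, 24), (17, 20)], none⟩,
     ⟨0, 1, [(0, 13), (1, 10)], [(15, 24), (17, 20)], none⟩], 85, -160⟩,
  ⟨⟨2, 1, 41, 20⟩, -18, true, 10, 20, [24, 20], [14, 10],
    [⟨1, -2, [(0, 15), (3, 10)], [(17, 24), (19, 20)], none⟩,
     ⟨6, -12, [(0, 15), (2, 11)], [(17, 24), (19, 20)], none⟩,
     ⟨7, -14, [(0, 15), (2, 10)], [(17, 24), (19, 20)], none⟩,
     ⟨8, -16, [(0, 14), (2, 10)], [(17, 24), (19, 20)], none⟩,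
     ⟨9, -18, [(0, 14), (2, 10)], [(16, 25), (19, 20)], none⟩,
     ⟨19, -38, [(0, 14), (2, 10)], [(16, 25), (18, 21)], none⟩,
     ⟨20, -40, [(0, 14), (2, 10)], [(16, 25), (18, 20)], none⟩,
     ⟨0, 1, [(0, 14), (2, 10)], [(16, 24), (18, 20)], none⟩], 125, -240⟩,
  ⟨⟨41, 20, 39, 19⟩, -18, true, 10, 20, [24, 20], [14, 10],
    [⟨20, -41, [(0, 15), (3, 10)], [(17, 25), (19, 20)], none⟩,
     ⟨1, -2, [(0, 15), (3, 10)], [(17, 24), (19, 20)], none⟩,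
     ⟨6, -12, [(0, 15), (2, 11)], [(17, 24), (19, 20)], none⟩,
     ⟨7, -14, [(0, 15), (2, 10)], [(17, 24), (19, 20)], none⟩,
     ⟨8, -16, [(0, 14), (2, 10)], [(17, 24), (19, 20)], none⟩,
     ⟨9, -18, [(0, 14), (2, 10)], [(16, 25), (19, 20)], none⟩,
     ⟨19, -38, [(0, 14), (2, 10)], [(16, 25), (18, 21)], none⟩,
     ⟨0, 1, [(0, 14), (2, 10)], [(16, 25), (18, 20)], none⟩], 125, -240⟩,
  ⟨⟨39, 19, 37, 18⟩, -18, true, 10, 20, [24, 20], [14, 10],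
    [⟨19, -39, [(0, 15), (3, 10)], [(17, 25), (19, 21)], none⟩,
     ⟨1, -2, [(0, 15), (3, 10)], [(17, 25), (19, 20)], none⟩,
     ⟨20, -41, [(0, 15), (2, 11)], [(17, 25), (19, 20)], none⟩,
     ⟨6, -12, [(0, 15), (2, 11)], [(17, 24), (19, 20)], none⟩,
     ⟨7, -14, [(0, 15), (2, 10)], [(17, 24), (19, 20)], none⟩,
     ⟨8, -16, [(0, 14), (2, 10)], [(17, 24), (19, 20)], none⟩,
     ⟨9, -18, [(0, 14), (2, 10)], [(16, 25), (19, 20)], none⟩,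
     ⟨0, 1, [(0, 14), (2, 10)], [(16, 25), (18, 21)], none⟩], 87, -162⟩,
  ⟨⟨37, 18, 29, 14⟩, -18, true, 10, 20, [24, 20], [14, 10],
    [⟨1, -2, [(0, 15), (3, 10)], [(17, 25), (19, 21)], none⟩,
     ⟨19, -39, [(0, 15), (2, 11)], [(17, 25), (19, 21)], none⟩,
     ⟨20, -41, [(0, 15), (2, 11)], [(17, 25), (19, 20)], none⟩,
     ⟨6, -12, [(0, 15), (2, 11)], [(17, 24), (19, 20)], none⟩,
     ⟨7, -14, [(0, 15), (2, 10)], [(17, 24), (19, 20)], none⟩,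
     ⟨8, -16, [(0, 14), (2, 10)], [(17, 24), (19, 20)], none⟩,
     ⟨9, -18, [(0, 14), (2, 10)], [(16, 25), (19, 20)], none⟩,
     ⟨0, 1, [(0, 14), (2, 10)], [(16, 25), (18, 21)], none⟩], 87, -162⟩,
  ⟨⟨29, 14, 27, 13⟩, -18, true, 10, 20, [24, 20], [14, 10],
    [⟨1, -2, [(0, 15), (3, 10)], [(17, 25), (19, 21)], none⟩,
     ⟨19, -39, [(0, 15), (2, 11)], [(17, 25), (19, 21)], none⟩,
     ⟨6, -12, [(0, 15), (2, 11)], [(17, 25), (19, 20)], none⟩,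
     ⟨20, -41, [(0, 15), (2, 10)], [(17, 25), (19, 20)], none⟩,
     ⟨7, -14, [(0, 15), (2, 10)], [(17, 24), (19, 20)], none⟩,
     ⟨8, -16, [(0, 14), (2, 10)], [(17, 24), (19, 20)], none⟩,
     ⟨9, -18, [(0, 14), (2, 10)], [(16, 25), (19, 20)], none⟩,
     ⟨0, 1, [(0, 14), (2, 10)], [(16, 25), (18, 21)], none⟩], 101, -191⟩,
  ⟨⟨27, 13, 25, 12⟩, -18, true, 10, 20, [24, 20], [14, 10],
    [⟨1, -2, [(0, 15), (3, 10)], [(17, 25), (19, 21)], none⟩,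
     ⟨6, -12, [(0, 15), (2, 11)], [(17, 25), (19, 21)], none⟩,
     ⟨19, -39, [(0, 15), (2, 10)], [(17, 25), (19, 21)], none⟩,
     ⟨7, -14, [(0, 15), (2, 10)], [(17, 25), (19, 20)], none⟩,
     ⟨20, -41, [(0, 14), (2, 10)], [(17, 25), (19, 20)], none⟩,
     ⟨8, -16, [(0, 14), (2, 10)], [(17, 24), (19, 20)], none⟩,
     ⟨9, -18, [(0, 14), (2, 10)], [(16, 25), (19, 20)], none⟩,
     ⟨0, 1, [(0, 14), (2, 10)], [(16, 25), (18, 21)], none⟩], 101, -191⟩,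
  ⟨⟨25, 12, 23, 11⟩, -19, true, 10, 21, [25, 20], [14, 10],
    [⟨1, -2, [(0, 15), (3, 10)], [(17, 25), (19, 21)], none⟩,
     ⟨6, -12, [(0, 15), (2, 11)], [(17, 25), (19, 21)], none⟩,
     ⟨7, -14, [(0, 15), (2, 10)], [(17, 25), (19, 21)], none⟩,
     ⟨19, -39, [(0, 14), (2, 10)], [(17, 25), (19, 21)], none⟩,
     ⟨8, -16, [(0, 14), (2, 10)], [(17, 25), (19, 20)], none⟩,
     ⟨20, -41, [(0, 14), (2, 10)], [(16, 26), (19, 20)], none⟩,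
     ⟨9, -18, [(0, 14), (2, 10)], [(16, 25), (19, 20)], none⟩,
     ⟨0, 1, [(0, 14), (2, 10)], [(16, 25), (18, 21)], none⟩], 120, -241⟩]

theorem recs3_chk : recs3.all (fun r => r.chk par 3 1000) = true := by decide +kernel

/-- cells -/
def recs4 : List Rec := [
  ⟨⟨23, 11, 21, 10⟩, -19, true, 10, 21, [25, 20], [14, 10],
    [⟨1, -2, [(0, 15), (3, 10)], [(17, 25), (19, 21)], none⟩,
     ⟨6, -12, [(0, 15), (2, 11)], [(17, 25), (19, 21)], none⟩,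
     ⟨7, -14, [(0, 15), (2, 10)], [(17, 25), (19, 21)], none⟩,
     ⟨8, -16, [(0, 14), (2, 10)], [(17, 25), (19, 21)], none⟩,
     ⟨19, -39, [(0, 14), (2, 10)], [(16, 26), (19, 21)], none⟩,
     ⟨9, -18, [(0, 14), (2, 10)], [(16, 26), (19, 20)], none⟩,
     ⟨20, -41, [(0, 14), (2, 10)], [(16, 26), (18, 21)], none⟩,
     ⟨0, 1, [(0, 14), (2, 10)], [(16, 25), (18, 21)], none⟩], 120, -241⟩,
  ⟨⟨21, 10, 40, 19⟩, -20, true, 10, 22, [25, 21], [14, 10],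
    [⟨20, -42, [(0, 15), (3, 10)], [(17, 26), (19, 21)], none⟩,
     ⟨1, -2, [(0, 15), (3, 10)], [(17, 25), (19, 21)], none⟩,
     ⟨6, -12, [(0, 15), (2, 11)], [(17, 25), (19, 21)], none⟩,
     ⟨7, -14, [(0, 15), (2, 10)], [(17, 25), (19, 21)], none⟩,
     ⟨8, -16, [(0, 14), (2, 10)], [(17, 25), (19, 21)], none⟩,
     ⟨9, -18, [(0, 14), (2, 10)], [(16, 26), (19, 21)], none⟩,
     ⟨19, -39, [(0, 14), (2, 10)], [(16, 26), (18, 22)], none⟩,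
     ⟨0, 1, [(0, 14), (2, 10)], [(16, 26), (18, 21)], none⟩], 125, -262⟩,
  ⟨⟨40, 19, 19, 9⟩, -20, true, 10, 22, [25, 21], [14, 10],
    [⟨19, -40, [(0, 15), (3, 10)], [(17, 26), (19, 22)], none⟩,
     ⟨1, -2, [(0, 15), (3, 10)], [(17, 26), (19, 21)], none⟩,
     ⟨20, -42, [(0, 15), (2, 11)], [(17, 26), (19, 21)], none⟩,
     ⟨6, -12, [(0, 15), (2, 11)], [(17, 25), (19, 21)], none⟩,
     ⟨7, -14, [(0, 15), (2, 10)], [(17, 25), (19, 21)], none⟩,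
     ⟨8, -16, [(0, 14), (2, 10)], [(17, 25), (19, 21)], none⟩,
     ⟨9, -18, [(0, 14), (2, 10)], [(16, 26), (19, 21)], none⟩,
     ⟨0, 1, [(0, 14), (2, 10)], [(16, 26), (18, 22)], none⟩], 87, -182⟩,
  ⟨⟨19, 9, 17, 8⟩, -20, true, 10, 22, [25, 21], [14, 10],
    [⟨9, -19, [(0, 15), (3, 10)], [(17, 26), (20, 21)], none⟩,
     ⟨1, -2, [(0, 15), (3, 10)], [(17, 26), (19, 22)], none⟩,
     ⟨19, -40, [(0, 15), (2, 11)], [(17, 26), (19, 22)], none⟩,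
     ⟨20, -42, [(0, 15), (2, 11)], [(17, 26), (19, 21)], none⟩,
     ⟨6, -12, [(0, 15), (2, 11)], [(17, 25), (19, 21)], none⟩,
     ⟨7, -14, [(0, 15), (2, 10)], [(17, 25), (19, 21)], none⟩,
     ⟨8, -16, [(0, 14), (2, 10)], [(17, 25), (19, 21)], none⟩,
     ⟨0, 1, [(0, 14), (2, 10)], [(16, 26), (19, 21)], none⟩], 96, -201⟩,
  ⟨⟨17, 8, 15, 7⟩, -20, true, 10, 22, [25, 21], [14, 10],
    [⟨8, -17, [(0, 15), (3, 10)], [(18, 25), (20, 21)], none⟩,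
     ⟨1, -2, [(0, 15), (3, 10)], [(17, 26), (20, 21)], none⟩,
     ⟨9, -19, [(0, 15), (2, 11)], [(17, 26), (20, 21)], none⟩,
     ⟨19, -40, [(0, 15), (2, 11)], [(17, 26), (19, 22)], none⟩,
     ⟨20, -42, [(0, 15), (2, 11)], [(17, 26), (19, 21)], none⟩,
     ⟨6, -12, [(0, 15), (2, 11)], [(17, 25), (19, 21)], none⟩,
     ⟨7, -14, [(0, 15), (2, 10)], [(17, 25), (19, 21)], none⟩,
     ⟨0, 1, [(0, 14), (2, 10)], [(17, 25), (19, 21)], none⟩], 96, -201⟩,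
  ⟨⟨15, 7, 43, 20⟩, -19, true, 10, 21, [25, 21], [15, 10],
    [⟨7, -15, [(0, 16), (3, 10)], [(18, 25), (20, 21)], none⟩,
     ⟨1, -2, [(0, 15), (3, 10)], [(18, 25), (20, 21)], none⟩,
     ⟨8, -17, [(0, 15), (2, 11)], [(18, 25), (20, 21)], none⟩,
     ⟨9, -19, [(0, 15), (2, 11)], [(17, 26), (20, 21)], none⟩,
     ⟨19, -40, [(0, 15), (2, 11)], [(17, 26), (19, 22)], none⟩,
     ⟨6, -12, [(0, 15), (2, 11)], [(17, 26), (19, 21)], none⟩,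
     ⟨20, -42, [(0, 15), (2, 10)], [(17, 26), (19, 21)], none⟩,
     ⟨0, 1, [(0, 15), (2, 10)], [(17, 25), (19, 21)], none⟩], 129, -261⟩,
  ⟨⟨43, 20, 28, 13⟩, -19, true, 10, 21, [25, 21], [15, 10],
    [⟨20, -43, [(0, 16), (3, 10)], [(18, 26), (20, 21)], none⟩,
     ⟨7, -15, [(0, 16), (3, 10)], [(18, 25), (20, 21)], none⟩,
     ⟨1, -2, [(0, 15), (3, 10)], [(18, 25), (20, 21)], none⟩,
     ⟨8, -17, [(0, 15), (2, 11)], [(18, 25), (20, 21)], none⟩,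
     ⟨9, -19, [(0, 15), (2, 11)], [(17, 26), (20, 21)], none⟩,
     ⟨19, -40, [(0, 15), (2, 11)], [(17, 26), (19, 22)], none⟩,
     ⟨6, -12, [(0, 15), (2, 11)], [(17, 26), (19, 21)], none⟩,
     ⟨0, 1, [(0, 15), (2, 10)], [(17, 26), (19, 21)], none⟩], 109, -218⟩,
  ⟨⟨28, 13, 41, 19⟩, -19, true, 10, 21, [25, 21], [15, 10],
    [⟨7, -15, [(0, 16), (3, 10)], [(18, 26), (20, 21)], none⟩,
     ⟨20, -43, [(0, 15), (3, 10)], [(18, 26), (20, 21)], none⟩,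
     ⟨1, -2, [(0, 15), (3, 10)], [(18, 25), (20, 21)], none⟩,
     ⟨8, -17, [(0, 15), (2, 11)], [(18, 25), (20, 21)], none⟩,
     ⟨9, -19, [(0, 15), (2, 11)], [(17, 26), (20, 21)], none⟩,
     ⟨6, -12, [(0, 15), (2, 11)], [(17, 26), (19, 22)], none⟩,
     ⟨19, -40, [(0, 15), (2, 10)], [(17, 26), (19, 22)], none⟩,
     ⟨0, 1, [(0, 15), (2, 10)], [(17, 26), (19, 21)], none⟩], 122, -246⟩,
  ⟨⟨41, 19, 13, 6⟩, -19, true, 10, 21, [25, 21], [15, 10],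
    [⟨19, -41, [(0, 16), (3, 10)], [(18, 26), (20, 22)], none⟩,
     ⟨7, -15, [(0, 16), (3, 10)], [(18, 26), (20, 21)], none⟩,
     ⟨1, -2, [(0, 15), (3, 10)], [(18, 26), (20, 21)], none⟩,
     ⟨20, -43, [(0, 15), (2, 11)], [(18, 26), (20, 21)], none⟩,
     ⟨8, -17, [(0, 15), (2, 11)], [(18, 25), (20, 21)], none⟩,
     ⟨9, -19, [(0, 15), (2, 11)], [(17, 26), (20, 21)], none⟩,
     ⟨6, -12, [(0, 15), (2, 11)], [(17, 26), (19, 22)], none⟩,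
     ⟨0, 1, [(0, 15), (2, 10)], [(17, 26), (19, 22)], none⟩], 103, -205⟩,
  ⟨⟨13, 6, 24, 11⟩, -20, true, 10, 22, [26, 21], [15, 10],
    [⟨6, -13, [(0, 16), (3, 11)], [(18, 26), (20, 22)], none⟩,
     ⟨1, -2, [(0, 16), (3, 10)], [(18, 26), (20, 22)], none⟩,
     ⟨7, -15, [(0, 16), (2, 11)], [(18, 26), (20, 22)], none⟩,
     ⟨19, -41, [(0, 15), (2, 11)], [(18, 26), (20, 22)], none⟩,
     ⟨8, -17, [(0, 15), (2, 11)], [(18, 26), (20, 21)], none⟩,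
     ⟨20, -43, [(0, 15), (2, 11)], [(17, 27), (20, 21)], none⟩,
     ⟨9, -19, [(0, 15), (2, 11)], [(17, 26), (20, 21)], none⟩,
     ⟨0, 1, [(0, 15), (2, 11)], [(17, 26), (19, 22)], none⟩], 110, -231⟩,
  ⟨⟨24, 11, 11, 5⟩, -20, true, 10, 22, [26, 21], [15, 10],
    [⟨6, -13, [(0, 16), (3, 11)], [(18, 26), (20, 22)], none⟩,
     ⟨1, -2, [(0, 16), (3, 10)], [(18, 26), (20, 22)], none⟩,
     ⟨7, -15, [(0, 16), (2, 11)], [(18, 26), (20, 22)], none⟩,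
     ⟨8, -17, [(0, 15), (2, 11)], [(18, 26), (20, 22)], none⟩,
     ⟨19, -41, [(0, 15), (2, 11)], [(17, 27), (20, 22)], none⟩,
     ⟨9, -19, [(0, 15), (2, 11)], [(17, 27), (20, 21)], none⟩,
     ⟨20, -43, [(0, 15), (2, 11)], [(17, 27), (19, 22)], none⟩,
     ⟨0, 1, [(0, 15), (2, 11)], [(17, 26), (19, 22)], none⟩], 110, -231⟩,
  ⟨⟨11, 5, 42, 19⟩, -20, true, 11, 22, [26, 22], [15, 11],
    [⟨20, -44, [(0, 16), (3, 11)], [(18, 27), (20, 22)], none⟩,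
     ⟨1, -2, [(0, 16), (3, 11)], [(18, 26), (20, 22)], none⟩,
     ⟨6, -13, [(0, 16), (2, 12)], [(18, 26), (20, 22)], none⟩,
     ⟨7, -15, [(0, 16), (2, 11)], [(18, 26), (20, 22)], none⟩,
     ⟨8, -17, [(0, 15), (2, 11)], [(18, 26), (20, 22)], none⟩,
     ⟨9, -19, [(0, 15), (2, 11)], [(17, 27), (20, 22)], none⟩,
     ⟨19, -41, [(0, 15), (2, 11)], [(17, 27), (19, 23)], none⟩,
     ⟨0, 1, [(0, 15), (2, 11)], [(17, 27), (19, 22)], none⟩], 135, -286⟩,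
  ⟨⟨42, 19, 31, 14⟩, -20, true, 11, 22, [26, 22], [15, 11],
    [⟨19, -42, [(0, 16), (3, 11)], [(18, 27), (20, 23)], none⟩,
     ⟨1, -2, [(0, 16), (3, 11)], [(18, 27), (20, 22)], none⟩,
     ⟨20, -44, [(0, 16), (2, 12)], [(18, 27), (20, 22)], none⟩,
     ⟨6, -13, [(0, 16), (2, 12)], [(18, 26), (20, 22)], none⟩,
     ⟨7, -15, [(0, 16), (2, 11)], [(18, 26), (20, 22)], none⟩,
     ⟨8, -17, [(0, 15), (2, 11)], [(18, 26), (20, 22)], none⟩,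
     ⟨9, -19, [(0, 15), (2, 11)], [(17, 27), (20, 22)], none⟩,
     ⟨0, 1, [(0, 15), (2, 11)], [(17, 27), (19, 23)], none⟩], 97, -202⟩,
  ⟨⟨31, 14, 20, 9⟩, -20, true, 11, 22, [26, 22], [15, 11],
    [⟨19, -42, [(0, 16), (3, 11)], [(18, 27), (20, 23)], none⟩,
     ⟨1, -2, [(0, 16), (3, 11)], [(18, 27), (20, 22)], none⟩,
     ⟨6, -13, [(0, 16), (2, 12)], [(18, 27), (20, 22)], none⟩,
     ⟨20, -44, [(0, 16), (2, 11)], [(18, 27), (20, 22)], none⟩,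
     ⟨7, -15, [(0, 16), (2, 11)], [(18, 26), (20, 22)], none⟩,
     ⟨8, -17, [(0, 15), (2, 11)], [(18, 26), (20, 22)], none⟩,
     ⟨9, -19, [(0, 15), (2, 11)], [(17, 27), (20, 22)], none⟩,
     ⟨0, 1, [(0, 15), (2, 11)], [(17, 27), (19, 23)], none⟩], 111, -233⟩,
  ⟨⟨20, 9, 29, 13⟩, -20, true, 11, 22, [26, 22], [15, 11],
    [⟨9, -20, [(0, 16), (3, 11)], [(18, 27), (21, 22)], none⟩,
     ⟨1, -2, [(0, 16), (3, 11)], [(18, 27), (20, 23)], none⟩,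
     ⟨19, -42, [(0, 16), (2, 12)], [(18, 27), (20, 23)], none⟩,
     ⟨6, -13, [(0, 16), (2, 12)], [(18, 27), (20, 22)], none⟩,
     ⟨20, -44, [(0, 16), (2, 11)], [(18, 27), (20, 22)], none⟩,
     ⟨7, -15, [(0, 16), (2, 11)], [(18, 26), (20, 22)], none⟩,
     ⟨8, -17, [(0, 15), (2, 11)], [(18, 26), (20, 22)], none⟩,
     ⟨0, 1, [(0, 15), (2, 11)], [(17, 27), (20, 22)], none⟩], 120, -253⟩,
  ⟨⟨29, 13, 9, 4⟩, -20, true, 11, 22, [26, 22], [15, 11],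
    [⟨9, -20, [(0, 16), (3, 11)], [(18, 27), (21, 22)], none⟩,
     ⟨1, -2, [(0, 16), (3, 11)], [(18, 27), (20, 23)], none⟩,
     ⟨6, -13, [(0, 16), (2, 12)], [(18, 27), (20, 23)], none⟩,
     ⟨19, -42, [(0, 16), (2, 11)], [(18, 27), (20, 23)], none⟩,
     ⟨7, -15, [(0, 16), (2, 11)], [(18, 27), (20, 22)], none⟩,
     ⟨20, -44, [(0, 15), (2, 11)], [(18, 27), (20, 22)], none⟩,
     ⟨8, -17, [(0, 15), (2, 11)], [(18, 26), (20, 22)], none⟩,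
     ⟨0, 1, [(0, 15), (2, 11)], [(17, 27), (20, 22)], none⟩], 120, -253⟩,
  ⟨⟨9, 4, 43, 19⟩, -21, true, 11, 23, [27, 22], [15, 11],
    [⟨8, -18, [(0, 16), (3, 11)], [(19, 27), (21, 22)], none⟩,
     ⟨20, -45, [(0, 16), (3, 11)], [(18, 28), (21, 22)], none⟩,
     ⟨1, -2, [(0, 16), (3, 11)], [(18, 27), (21, 22)], none⟩,
     ⟨9, -20, [(0, 16), (2, 12)], [(18, 27), (21, 22)], none⟩,
     ⟨6, -13, [(0, 16), (2, 12)], [(18, 27), (20, 23)], none⟩,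
     ⟨7, -15, [(0, 16), (2, 11)], [(18, 27), (20, 23)], none⟩,
     ⟨19, -42, [(0, 15), (2, 11)], [(18, 27), (20, 23)], none⟩,
     ⟨0, 1, [(0, 15), (2, 11)], [(18, 27), (20, 22)], none⟩], 127, -280⟩,
  ⟨⟨43, 19, 25, 11⟩, -21, true, 11, 23, [27, 22], [15, 11],
    [⟨19, -43, [(0, 16), (3, 11)], [(19, 27), (21, 23)], none⟩,
     ⟨8, -18, [(0, 16), (3, 11)], [(19, 27), (21, 22)], none⟩,
     ⟨1, -2, [(0, 16), (3, 11)], [(18, 28), (21, 22)], none⟩,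
     ⟨20, -45, [(0, 16), (2, 12)], [(18, 28), (21, 22)], none⟩,
     ⟨9, -20, [(0, 16), (2, 12)], [(18, 27), (21, 22)], none⟩,
     ⟨6, -13, [(0, 16), (2, 12)], [(18, 27), (20, 23)], none⟩,
     ⟨7, -15, [(0, 16), (2, 11)], [(18, 27), (20, 23)], none⟩,
     ⟨0, 1, [(0, 15), (2, 11)], [(18, 27), (20, 23)], none⟩], 108, -237⟩,
  ⟨⟨25, 11, 41, 18⟩, -21, true, 11, 23, [27, 22], [15, 11],
    [⟨8, -18, [(0, 16), (3, 11)], [(19, 27), (21, 23)], none⟩,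
     ⟨19, -43, [(0, 16), (3, 11)], [(18, 28), (21, 23)], none⟩,
     ⟨1, -2, [(0, 16), (3, 11)], [(18, 28), (21, 22)], none⟩,
     ⟨9, -20, [(0, 16), (2, 12)], [(18, 28), (21, 22)], none⟩,
     ⟨20, -45, [(0, 16), (2, 12)], [(18, 28), (20, 23)], none⟩,
     ⟨6, -13, [(0, 16), (2, 12)], [(18, 27), (20, 23)], none⟩,
     ⟨7, -15, [(0, 16), (2, 11)], [(18, 27), (20, 23)], none⟩,
     ⟨0, 1, [(0, 15), (2, 11)], [(18, 27), (20, 23)], none⟩], 119, -262⟩,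
  ⟨⟨41, 18, 16, 7⟩, -21, true, 11, 23, [27, 22], [15, 11],
    [⟨8, -18, [(0, 16), (3, 11)], [(19, 27), (21, 23)], none⟩,
     ⟨1, -2, [(0, 16), (3, 11)], [(18, 28), (21, 23)], none⟩,
     ⟨19, -43, [(0, 16), (2, 12)], [(18, 28), (21, 23)], none⟩,
     ⟨9, -20, [(0, 16), (2, 12)], [(18, 28), (21, 22)], none⟩,
     ⟨20, -45, [(0, 16), (2, 12)], [(18, 28), (20, 23)], none⟩,
     ⟨6, -13, [(0, 16), (2, 12)], [(18, 27), (20, 23)], none⟩,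
     ⟨7, -15, [(0, 16), (2, 11)], [(18, 27), (20, 23)], none⟩,
     ⟨0, 1, [(0, 15), (2, 11)], [(18, 27), (20, 23)], none⟩], 101, -221⟩,
  ⟨⟨16, 7, 23, 10⟩, -20, true, 11, 22, [27, 22], [16, 11],
    [⟨7, -16, [(0, 17), (3, 11)], [(19, 27), (21, 23)], none⟩,
     ⟨1, -2, [(0, 16), (3, 11)], [(19, 27), (21, 23)], none⟩,
     ⟨8, -18, [(0, 16), (2, 12)], [(19, 27), (21, 23)], none⟩,
     ⟨19, -43, [(0, 16), (2, 12)], [(18, 28), (21, 23)], none⟩,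
     ⟨9, -20, [(0, 16), (2, 12)], [(18, 28), (21, 22)], none⟩,
     ⟨6, -13, [(0, 16), (2, 12)], [(18, 28), (20, 23)], none⟩,
     ⟨20, -45, [(0, 16), (2, 11)], [(18, 28), (20, 23)], none⟩,
     ⟨0, 1, [(0, 16), (2, 11)], [(18, 27), (20, 23)], none⟩], 134, -285⟩,
  ⟨⟨23, 10, 30, 13⟩, -21, true, 11, 23, [27, 23], [16, 11],
    [⟨20, -46, [(0, 17), (3, 11)], [(19, 28), (21, 23)], none⟩,
     ⟨7, -16, [(0, 17), (3, 11)], [(19, 27), (21, 23)], none⟩,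
     ⟨1, -2, [(0, 16), (3, 11)], [(19, 27), (21, 23)], none⟩,
     ⟨8, -18, [(0, 16), (2, 12)], [(19, 27), (21, 23)], none⟩,
     ⟨9, -20, [(0, 16), (2, 12)], [(18, 28), (21, 23)], none⟩,
     ⟨19, -43, [(0, 16), (2, 12)], [(18, 28), (20, 24)], none⟩,
     ⟨6, -13, [(0, 16), (2, 12)], [(18, 28), (20, 23)], none⟩,
     ⟨0, 1, [(0, 16), (2, 11)], [(18, 28), (20, 23)], none⟩], 119, -262⟩,
  ⟨⟨30, 13, 44, 19⟩, -21, true, 11, 23, [27, 23], [16, 11],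
    [⟨7, -16, [(0, 17), (3, 11)], [(19, 28), (21, 23)], none⟩,
     ⟨20, -46, [(0, 16), (3, 11)], [(19, 28), (21, 23)], none⟩,
     ⟨1, -2, [(0, 16), (3, 11)], [(19, 27), (21, 23)], none⟩,
     ⟨8, -18, [(0, 16), (2, 12)], [(19, 27), (21, 23)], none⟩,
     ⟨9, -20, [(0, 16), (2, 12)], [(18, 28), (21, 23)], none⟩,
     ⟨6, -13, [(0, 16), (2, 12)], [(18, 28), (20, 24)], none⟩,
     ⟨19, -43, [(0, 16), (2, 11)], [(18, 28), (20, 24)], none⟩,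
     ⟨0, 1, [(0, 16), (2, 11)], [(18, 28), (20, 23)], none⟩], 132, -292⟩,
  ⟨⟨44, 19, 7, 3⟩, -21, true, 11, 23, [27, 23], [16, 11],
    [⟨19, -44, [(0, 17), (3, 11)], [(19, 28), (21, 24)], none⟩,
     ⟨7, -16, [(0, 17), (3, 11)], [(19, 28), (21, 23)], none⟩,
     ⟨1, -2, [(0, 16), (3, 11)], [(19, 28), (21, 23)], none⟩,
     ⟨20, -46, [(0, 16), (2, 12)], [(19, 28), (21, 23)], none⟩,
     ⟨8, -18, [(0, 16), (2, 12)], [(19, 27), (21, 23)], none⟩,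
     ⟨9, -20, [(0, 16), (2, 12)], [(18, 28), (21, 23)], none⟩,
     ⟨6, -13, [(0, 16), (2, 12)], [(18, 28), (20, 24)], none⟩,
     ⟨0, 1, [(0, 16), (2, 11)], [(18, 28), (20, 24)], none⟩], 113, -248⟩,
  ⟨⟨7, 3, 47, 20⟩, -22, true, 11, 24, [28, 23], [16, 11],
    [⟨6, -14, [(0, 17), (3, 12)], [(19, 28), (22, 23)], none⟩,
     ⟨9, -21, [(0, 17), (3, 11)], [(19, 28), (22, 23)], none⟩,
     ⟨1, -2, [(0, 17), (3, 11)], [(19, 28), (21, 24)], none⟩,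
     ⟨7, -16, [(0, 17), (2, 12)], [(19, 28), (21, 24)], none⟩,
     ⟨19, -44, [(0, 16), (2, 12)], [(19, 28), (21, 24)], none⟩,
     ⟨8, -18, [(0, 16), (2, 12)], [(19, 28), (21, 23)], none⟩,
     ⟨20, -46, [(0, 16), (2, 12)], [(18, 29), (21, 23)], none⟩,
     ⟨0, 1, [(0, 16), (2, 12)], [(18, 28), (21, 23)], none⟩], 126, -290⟩,
  ⟨⟨47, 20, 33, 14⟩, -22, true, 11, 24, [28, 23], [16, 11],
    [⟨20, -47, [(0, 17), (3, 12)], [(19, 29), (22, 23)], none⟩,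
     ⟨6, -14, [(0, 17), (3, 12)], [(19, 28), (22, 23)], none⟩,
     ⟨9, -21, [(0, 17), (3, 11)], [(19, 28), (22, 23)], none⟩,
     ⟨1, -2, [(0, 17), (3, 11)], [(19, 28), (21, 24)], none⟩,
     ⟨7, -16, [(0, 17), (2, 12)], [(19, 28), (21, 24)], none⟩,
     ⟨19, -44, [(0, 16), (2, 12)], [(19, 28), (21, 24)], none⟩,
     ⟨8, -18, [(0, 16), (2, 12)], [(19, 28), (21, 23)], none⟩,
     ⟨0, 1, [(0, 16), (2, 12)], [(18, 29), (21, 23)], none⟩], 106, -243⟩,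
  ⟨⟨33, 14, 26, 11⟩, -22, true, 11, 24, [28, 23], [16, 11],
    [⟨6, -14, [(0, 17), (3, 12)], [(19, 29), (22, 23)], none⟩,
     ⟨20, -47, [(0, 17), (3, 11)], [(19, 29), (22, 23)], none⟩,
     ⟨9, -21, [(0, 17), (3, 11)], [(19, 28), (22, 23)], none⟩,
     ⟨1, -2, [(0, 17), (3, 11)], [(19, 28), (21, 24)], none⟩,
     ⟨7, -16, [(0, 17), (2, 12)], [(19, 28), (21, 24)], none⟩,
     ⟨19, -44, [(0, 16), (2, 12)], [(19, 28), (21, 24)], none⟩,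
     ⟨8, -18, [(0, 16), (2, 12)], [(19, 28), (21, 23)], none⟩,
     ⟨0, 1, [(0, 16), (2, 12)], [(18, 29), (21, 23)], none⟩], 120, -276⟩,
  ⟨⟨26, 11, 45, 19⟩, -22, true, 11, 24, [28, 23], [16, 11],
    [⟨6, -14, [(0, 17), (3, 12)], [(19, 29), (22, 23)], none⟩,
     ⟨9, -21, [(0, 17), (3, 11)], [(19, 29), (22, 23)], none⟩,
     ⟨20, -47, [(0, 17), (3, 11)], [(19, 29), (21, 24)], none⟩,
     ⟨1, -2, [(0, 17), (3, 11)], [(19, 28), (21, 24)], none⟩,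
     ⟨7, -16, [(0, 17), (2, 12)], [(19, 28), (21, 24)], none⟩,
     ⟨8, -18, [(0, 16), (2, 12)], [(19, 28), (21, 24)], none⟩,
     ⟨19, -44, [(0, 16), (2, 12)], [(18, 29), (21, 24)], none⟩,
     ⟨0, 1, [(0, 16), (2, 12)], [(18, 29), (21, 23)], none⟩], 120, -276⟩,
  ⟨⟨45, 19, 19, 8⟩, -22, true, 11, 24, [28, 23], [16, 11],
    [⟨19, -45, [(0, 17), (3, 12)], [(19, 29), (22, 24)], none⟩,
     ⟨6, -14, [(0, 17), (3, 12)], [(19, 29), (22, 23)], none⟩,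
     ⟨9, -21, [(0, 17), (3, 11)], [(19, 29), (22, 23)], none⟩,
     ⟨1, -2, [(0, 17), (3, 11)], [(19, 29), (21, 24)], none⟩,
     ⟨20, -47, [(0, 17), (2, 12)], [(19, 29), (21, 24)], none⟩,
     ⟨7, -16, [(0, 17), (2, 12)], [(19, 28), (21, 24)], none⟩,
     ⟨8, -18, [(0, 16), (2, 12)], [(19, 28), (21, 24)], none⟩,
     ⟨0, 1, [(0, 16), (2, 12)], [(18, 29), (21, 24)], none⟩], 120, -276⟩,
  ⟨⟨19, 8, 31, 13⟩, -22, true, 11, 24, [28, 23], [16, 11],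
    [⟨8, -19, [(0, 17), (3, 12)], [(20, 28), (22, 24)], none⟩,
     ⟨19, -45, [(0, 17), (3, 12)], [(19, 29), (22, 24)], none⟩,
     ⟨6, -14, [(0, 17), (3, 12)], [(19, 29), (22, 23)], none⟩,
     ⟨1, -2, [(0, 17), (3, 11)], [(19, 29), (22, 23)], none⟩,
     ⟨9, -21, [(0, 17), (2, 12)], [(19, 29), (22, 23)], none⟩,
     ⟨20, -47, [(0, 17), (2, 12)], [(19, 29), (21, 24)], none⟩,
     ⟨7, -16, [(0, 17), (2, 12)], [(19, 28), (21, 24)], none⟩,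
     ⟨0, 1, [(0, 16), (2, 12)], [(19, 28), (21, 24)], none⟩], 120, -276⟩,
  ⟨⟨31, 13, 43, 18⟩, -22, true, 11, 24, [28, 23], [16, 11],
    [⟨8, -19, [(0, 17), (3, 12)], [(20, 28), (22, 24)], none⟩,
     ⟨6, -14, [(0, 17), (3, 12)], [(19, 29), (22, 24)], none⟩,
     ⟨19, -45, [(0, 17), (3, 11)], [(19, 29), (22, 24)], none⟩,
     ⟨1, -2, [(0, 17), (3, 11)], [(19, 29), (22, 23)], none⟩,
     ⟨9, -21, [(0, 17), (2, 12)], [(19, 29), (22, 23)], none⟩,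
     ⟨7, -16, [(0, 17), (2, 12)], [(19, 29), (21, 24)], none⟩,
     ⟨20, -47, [(0, 16), (2, 12)], [(19, 29), (21, 24)], none⟩,
     ⟨0, 1, [(0, 16), (2, 12)], [(19, 28), (21, 24)], none⟩], 120, -276⟩,
  ⟨⟨43, 18, 12, 5⟩, -22, true, 11, 24, [28, 23], [16, 11],
    [⟨8, -19, [(0, 17), (3, 12)], [(20, 28), (22, 24)], none⟩,
     ⟨6, -14, [(0, 17), (3, 12)], [(19, 29), (22, 24)], none⟩,
     ⟨1, -2, [(0, 17), (3, 11)], [(19, 29), (22, 24)], none⟩,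
     ⟨19, -45, [(0, 17), (2, 12)], [(19, 29), (22, 24)], none⟩,
     ⟨9, -21, [(0, 17), (2, 12)], [(19, 29), (22, 23)], none⟩,
     ⟨7, -16, [(0, 17), (2, 12)], [(19, 29), (21, 24)], none⟩,
     ⟨20, -47, [(0, 16), (2, 12)], [(19, 29), (21, 24)], none⟩,
     ⟨0, 1, [(0, 16), (2, 12)], [(19, 28), (21, 24)], none⟩], 120, -276⟩,
  ⟨⟨12, 5, 29, 12⟩, -22, true, 12, 24, [28, 24], [16, 12],
    [⟨20, -48, [(0, 17), (3, 12)], [(20, 29), (22, 24)], none⟩,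
     ⟨8, -19, [(0, 17), (3, 12)], [(20, 28), (22, 24)], none⟩,
     ⟨1, -2, [(0, 17), (3, 12)], [(19, 29), (22, 24)], none⟩,
     ⟨6, -14, [(0, 17), (2, 13)], [(19, 29), (22, 24)], none⟩,
     ⟨9, -21, [(0, 17), (2, 12)], [(19, 29), (22, 24)], none⟩,
     ⟨19, -45, [(0, 17), (2, 12)], [(19, 29), (21, 25)], none⟩,
     ⟨7, -16, [(0, 17), (2, 12)], [(19, 29), (21, 24)], none⟩,
     ⟨0, 1, [(0, 16), (2, 12)], [(19, 29), (21, 24)], none⟩], 130, -300⟩,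
  ⟨⟨29, 12, 46, 19⟩, -23, true, 12, 25, [29, 24], [16, 12],
    [⟨8, -19, [(0, 17), (3, 12)], [(20, 29), (22, 24)], none⟩,
     ⟨20, -48, [(0, 17), (3, 12)], [(19, 30), (22, 24)], none⟩,
     ⟨1, -2, [(0, 17), (3, 12)], [(19, 29), (22, 24)], none⟩,
     ⟨6, -14, [(0, 17), (2, 13)], [(19, 29), (22, 24)], none⟩,
     ⟨9, -21, [(0, 17), (2, 12)], [(19, 29), (22, 24)], none⟩,
     ⟨7, -16, [(0, 17), (2, 12)], [(19, 29), (21, 25)], none⟩,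
     ⟨19, -45, [(0, 16), (2, 12)], [(19, 29), (21, 25)], none⟩,
     ⟨0, 1, [(0, 16), (2, 12)], [(19, 29), (21, 24)], none⟩], 137, -329⟩,
  ⟨⟨46, 19, 17, 7⟩, -23, true, 12, 25, [29, 24], [16, 12],
    [⟨19, -46, [(0, 17), (3, 12)], [(20, 29), (22, 25)], none⟩,
     ⟨8, -19, [(0, 17), (3, 12)], [(20, 29), (22, 24)], none⟩,
     ⟨1, -2, [(0, 17), (3, 12)], [(19, 30), (22, 24)], none⟩,
     ⟨20, -48, [(0, 17), (2, 13)], [(19, 30), (22, 24)], none⟩,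
     ⟨6, -14, [(0, 17), (2, 13)], [(19, 29), (22, 24)], none⟩,
     ⟨9, -21, [(0, 17), (2, 12)], [(19, 29), (22, 24)], none⟩,
     ⟨7, -16, [(0, 17), (2, 12)], [(19, 29), (21, 25)], none⟩,
     ⟨0, 1, [(0, 16), (2, 12)], [(19, 29), (21, 25)], none⟩], 118, -283⟩,
  ⟨⟨17, 7, 22, 9⟩, -22, true, 12, 24, [29, 24], [17, 12],
    [⟨7, -17, [(0, 18), (3, 12)], [(20, 29), (22, 25)], none⟩,
     ⟨19, -46, [(0, 17), (3, 12)], [(20, 29), (22, 25)], none⟩,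
     ⟨1, -2, [(0, 17), (3, 12)], [(20, 29), (22, 24)], none⟩,
     ⟨8, -19, [(0, 17), (2, 13)], [(20, 29), (22, 24)], none⟩,
     ⟨6, -14, [(0, 17), (2, 13)], [(19, 30), (22, 24)], none⟩,
     ⟨20, -48, [(0, 17), (2, 12)], [(19, 30), (22, 24)], none⟩,
     ⟨9, -21, [(0, 17), (2, 12)], [(19, 29), (22, 24)], none⟩,
     ⟨0, 1, [(0, 17), (2, 12)], [(19, 29), (21, 25)], none⟩], 130, -300⟩,
  ⟨⟨22, 9, 49, 20⟩, -22, true, 12, 24, [29, 24], [17, 12],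
    [⟨9, -22, [(0, 18), (3, 12)], [(20, 29), (23, 24)], none⟩,
     ⟨7, -17, [(0, 18), (3, 12)], [(20, 29), (22, 25)], none⟩,
     ⟨1, -2, [(0, 17), (3, 12)], [(20, 29), (22, 25)], none⟩,
     ⟨19, -46, [(0, 17), (2, 13)], [(20, 29), (22, 25)], none⟩,
     ⟨8, -19, [(0, 17), (2, 13)], [(20, 29), (22, 24)], none⟩,
     ⟨6, -14, [(0, 17), (2, 13)], [(19, 30), (22, 24)], none⟩,
     ⟨20, -48, [(0, 17), (2, 12)], [(19, 30), (22, 24)], none⟩,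
     ⟨0, 1, [(0, 17), (2, 12)], [(19, 29), (22, 24)], none⟩], 130, -300⟩,
  ⟨⟨49, 20, 27, 11⟩, -22, true, 12, 24, [29, 24], [17, 12],
    [⟨20, -49, [(0, 18), (3, 12)], [(20, 30), (23, 24)], none⟩,
     ⟨9, -22, [(0, 18), (3, 12)], [(20, 29), (23, 24)], none⟩,
     ⟨7, -17, [(0, 18), (3, 12)], [(20, 29), (22, 25)], none⟩,
     ⟨1, -2, [(0, 17), (3, 12)], [(20, 29), (22, 25)], none⟩,
     ⟨19, -46, [(0, 17), (2, 13)], [(20, 29), (22, 25)], none⟩,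
     ⟨8, -19, [(0, 17), (2, 13)], [(20, 29), (22, 24)], none⟩,
     ⟨6, -14, [(0, 17), (2, 13)], [(19, 30), (22, 24)], none⟩,
     ⟨0, 1, [(0, 17), (2, 12)], [(19, 30), (22, 24)], none⟩], 130, -300⟩,
  ⟨⟨27, 11, 32, 13⟩, -22, true, 12, 24, [29, 24], [17, 12],
    [⟨9, -22, [(0, 18), (3, 12)], [(20, 30), (23, 24)], none⟩,
     ⟨20, -49, [(0, 18), (3, 12)], [(20, 30), (22, 25)], none⟩,
     ⟨7, -17, [(0, 18), (3, 12)], [(20, 29), (22, 25)], none⟩,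
     ⟨1, -2, [(0, 17), (3, 12)], [(20, 29), (22, 25)], none⟩,
     ⟨8, -19, [(0, 17), (2, 13)], [(20, 29), (22, 25)], none⟩,
     ⟨19, -46, [(0, 17), (2, 13)], [(19, 30), (22, 25)], none⟩,
     ⟨6, -14, [(0, 17), (2, 13)], [(19, 30), (22, 24)], none⟩,
     ⟨0, 1, [(0, 17), (2, 12)], [(19, 30), (22, 24)], none⟩], 130, -300⟩,
  ⟨⟨32, 13, 47, 19⟩, -22, true, 12, 24, [29, 24], [17, 12],
    [⟨9, -22, [(0, 18), (3, 12)], [(20, 30), (23, 24)], none⟩,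
     ⟨7, -17, [(0, 18), (3, 12)], [(20, 30), (22, 25)], none⟩,
     ⟨20, -49, [(0, 17), (3, 12)], [(20, 30), (22, 25)], none⟩,
     ⟨1, -2, [(0, 17), (3, 12)], [(20, 29), (22, 25)], none⟩,
     ⟨8, -19, [(0, 17), (2, 13)], [(20, 29), (22, 25)], none⟩,
     ⟨6, -14, [(0, 17), (2, 13)], [(19, 30), (22, 25)], none⟩,
     ⟨19, -46, [(0, 17), (2, 12)], [(19, 30), (22, 25)], none⟩,
     ⟨0, 1, [(0, 17), (2, 12)], [(19, 30), (22, 24)], none⟩], 156, -364⟩,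
  ⟨⟨47, 19, 5, 2⟩, -22, true, 12, 24, [29, 24], [17, 12],
    [⟨19, -47, [(0, 18), (3, 12)], [(20, 30), (23, 25)], none⟩,
     ⟨9, -22, [(0, 18), (3, 12)], [(20, 30), (23, 24)], none⟩,
     ⟨7, -17, [(0, 18), (3, 12)], [(20, 30), (22, 25)], none⟩,
     ⟨1, -2, [(0, 17), (3, 12)], [(20, 30), (22, 25)], none⟩,
     ⟨20, -49, [(0, 17), (2, 13)], [(20, 30), (22, 25)], none⟩,
     ⟨8, -19, [(0, 17), (2, 13)], [(20, 29), (22, 25)], none⟩,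
     ⟨6, -14, [(0, 17), (2, 13)], [(19, 30), (22, 25)], none⟩,
     ⟨0, 1, [(0, 17), (2, 12)], [(19, 30), (22, 25)], none⟩], 118, -270⟩,
  ⟨⟨5, 2, 48, 19⟩, -24, true, 12, 26, [30, 25], [17, 12],
    [⟨6, -15, [(0, 18), (3, 13)], [(21, 30), (23, 25)], none⟩,
     ⟨8, -20, [(0, 18), (3, 12)], [(21, 30), (23, 25)], none⟩,
     ⟨20, -50, [(0, 18), (3, 12)], [(20, 31), (23, 25)], none⟩,
     ⟨1, -2, [(0, 18), (3, 12)], [(20, 30), (23, 25)], none⟩,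
     ⟨7, -17, [(0, 18), (2, 13)], [(20, 30), (23, 25)], none⟩,
     ⟨9, -22, [(0, 17), (2, 13)], [(20, 30), (23, 25)], none⟩,
     ⟨19, -47, [(0, 17), (2, 13)], [(20, 30), (22, 26)], none⟩,
     ⟨0, 1, [(0, 17), (2, 13)], [(20, 30), (22, 25)], none⟩], 142, -355⟩,
  ⟨⟨48, 19, 33, 13⟩, -24, true, 12, 26, [30, 25], [17, 12],
    [⟨19, -48, [(0, 18), (3, 13)], [(21, 30), (23, 26)], none⟩,
     ⟨6, -15, [(0, 18), (3, 13)], [(21, 30), (23, 25)], none⟩,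
     ⟨8, -20, [(0, 18), (3, 12)], [(21, 30), (23, 25)], none⟩,
     ⟨1, -2, [(0, 18), (3, 12)], [(20, 31), (23, 25)], none⟩,
     ⟨20, -50, [(0, 18), (2, 13)], [(20, 31), (23, 25)], none⟩,
     ⟨7, -17, [(0, 18), (2, 13)], [(20, 30), (23, 25)], none⟩,
     ⟨9, -22, [(0, 17), (2, 13)], [(20, 30), (23, 25)], none⟩,
     ⟨0, 1, [(0, 17), (2, 13)], [(20, 30), (22, 26)], none⟩], 104, -259⟩,
  ⟨⟨33, 13, 28, 11⟩, -24, true, 12, 26, [30, 25], [17, 12],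
    [⟨6, -15, [(0, 18), (3, 13)], [(21, 30), (23, 26)], none⟩,
     ⟨19, -48, [(0, 18), (3, 12)], [(21, 30), (23, 26)], none⟩,
     ⟨8, -20, [(0, 18), (3, 12)], [(21, 30), (23, 25)], none⟩,
     ⟨1, -2, [(0, 18), (3, 12)], [(20, 31), (23, 25)], none⟩,
     ⟨7, -17, [(0, 18), (2, 13)], [(20, 31), (23, 25)], none⟩,
     ⟨20, -50, [(0, 17), (2, 13)], [(20, 31), (23, 25)], none⟩,
     ⟨9, -22, [(0, 17), (2, 13)], [(20, 30), (23, 25)], none⟩,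
     ⟨0, 1, [(0, 17), (2, 13)], [(20, 30), (22, 26)], none⟩], 130, -325⟩,
  ⟨⟨28, 11, 51, 20⟩, -24, true, 12, 26, [30, 25], [17, 12],
    [⟨6, -15, [(0, 18), (3, 13)], [(21, 30), (23, 26)], none⟩,
     ⟨8, -20, [(0, 18), (3, 12)], [(21, 30), (23, 26)], none⟩,
     ⟨19, -48, [(0, 18), (3, 12)], [(20, 31), (23, 26)], none⟩,
     ⟨1, -2, [(0, 18), (3, 12)], [(20, 31), (23, 25)], none⟩,
     ⟨7, -17, [(0, 18), (2, 13)], [(20, 31), (23, 25)], none⟩,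
     ⟨9, -22, [(0, 17), (2, 13)], [(20, 31), (23, 25)], none⟩,
     ⟨20, -50, [(0, 17), (2, 13)], [(20, 31), (22, 26)], none⟩,
     ⟨0, 1, [(0, 17), (2, 13)], [(20, 30), (22, 26)], none⟩], 130, -325⟩,
  ⟨⟨51, 20, 23, 9⟩, -24, true, 12, 26, [30, 25], [17, 12],
    [⟨20, -51, [(0, 18), (3, 13)], [(21, 31), (23, 26)], none⟩,
     ⟨6, -15, [(0, 18), (3, 13)], [(21, 30), (23, 26)], none⟩,
     ⟨8, -20, [(0, 18), (3, 12)], [(21, 30), (23, 26)], none⟩,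
     ⟨19, -48, [(0, 18), (3, 12)], [(20, 31), (23, 26)], none⟩,
     ⟨1, -2, [(0, 18), (3, 12)], [(20, 31), (23, 25)], none⟩,
     ⟨7, -17, [(0, 18), (2, 13)], [(20, 31), (23, 25)], none⟩,
     ⟨9, -22, [(0, 17), (2, 13)], [(20, 31), (23, 25)], none⟩,
     ⟨0, 1, [(0, 17), (2, 13)], [(20, 31), (22, 26)], none⟩], 130, -325⟩,
  ⟨⟨23, 9, 18, 7⟩, -24, true, 12, 26, [30, 25], [17, 12],
    [⟨9, -23, [(0, 18), (3, 13)], [(21, 31), (24, 25)], none⟩,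
     ⟨20, -51, [(0, 18), (3, 13)], [(21, 31), (23, 26)], none⟩,
     ⟨6, -15, [(0, 18), (3, 13)], [(21, 30), (23, 26)], none⟩,
     ⟨8, -20, [(0, 18), (3, 12)], [(21, 30), (23, 26)], none⟩,
     ⟨1, -2, [(0, 18), (3, 12)], [(20, 31), (23, 26)], none⟩,
     ⟨19, -48, [(0, 18), (2, 13)], [(20, 31), (23, 26)], none⟩,
     ⟨7, -17, [(0, 18), (2, 13)], [(20, 31), (23, 25)], none⟩,
     ⟨0, 1, [(0, 17), (2, 13)], [(20, 31), (23, 25)], none⟩], 130, -325⟩,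
  ⟨⟨18, 7, 49, 19⟩, -23, true, 12, 25, [30, 25], [18, 12],
    [⟨7, -18, [(0, 19), (3, 13)], [(21, 31), (24, 25)], none⟩,
     ⟨9, -23, [(0, 18), (3, 13)], [(21, 31), (24, 25)], none⟩,
     ⟨6, -15, [(0, 18), (3, 13)], [(21, 31), (23, 26)], none⟩,
     ⟨20, -51, [(0, 18), (3, 12)], [(21, 31), (23, 26)], none⟩,
     ⟨1, -2, [(0, 18), (3, 12)], [(21, 30), (23, 26)], none⟩,
     ⟨8, -20, [(0, 18), (2, 13)], [(21, 30), (23, 26)], none⟩,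
     ⟨19, -48, [(0, 18), (2, 13)], [(20, 31), (23, 26)], none⟩,
     ⟨0, 1, [(0, 18), (2, 13)], [(20, 31), (23, 25)], none⟩], 142, -343⟩,
  ⟨⟨49, 19, 31, 12⟩, -23, true, 12, 25, [30, 25], [18, 12],
    [⟨19, -49, [(0, 19), (3, 13)], [(21, 31), (24, 26)], none⟩,
     ⟨7, -18, [(0, 19), (3, 13)], [(21, 31), (24, 25)], none⟩,
     ⟨9, -23, [(0, 18), (3, 13)], [(21, 31), (24, 25)], none⟩,
     ⟨6, -15, [(0, 18), (3, 13)], [(21, 31), (23, 26)], none⟩,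
     ⟨1, -2, [(0, 18), (3, 12)], [(21, 31), (23, 26)], none⟩,
     ⟨20, -51, [(0, 18), (2, 13)], [(21, 31), (23, 26)], none⟩,
     ⟨8, -20, [(0, 18), (2, 13)], [(21, 30), (23, 26)], none⟩,
     ⟨0, 1, [(0, 18), (2, 13)], [(20, 31), (23, 26)], none⟩], 123, -294⟩,
  ⟨⟨31, 12, 13, 5⟩, -24, true, 12, 26, [31, 25], [18, 12],
    [⟨7, -18, [(0, 19), (3, 13)], [(21, 31), (24, 26)], none⟩,
     ⟨19, -49, [(0, 18), (3, 13)], [(21, 31), (24, 26)], none⟩,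
     ⟨9, -23, [(0, 18), (3, 13)], [(21, 31), (24, 25)], none⟩,
     ⟨6, -15, [(0, 18), (3, 13)], [(21, 31), (23, 26)], none⟩,
     ⟨1, -2, [(0, 18), (3, 12)], [(21, 31), (23, 26)], none⟩,
     ⟨8, -20, [(0, 18), (2, 13)], [(21, 31), (23, 26)], none⟩,
     ⟨20, -51, [(0, 18), (2, 13)], [(20, 32), (23, 26)], none⟩,
     ⟨0, 1, [(0, 18), (2, 13)], [(20, 31), (23, 26)], none⟩], 130, -325⟩]

theorem recs4_chk : recs4.all (fun r => r.chk par 3 1000) = true := by decide +kernel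

/-- cells -/
def recs5 : List Rec := [
  ⟨⟨13, 5, 47, 18⟩, -24, true, 13, 26, [31, 26], [18, 13],
    [⟨20, -52, [(0, 19), (3, 13)], [(21, 32), (24, 26)], none⟩,
     ⟨7, -18, [(0, 19), (3, 13)], [(21, 31), (24, 26)], none⟩,
     ⟨9, -23, [(0, 18), (3, 13)], [(21, 31), (24, 26)], none⟩,
     ⟨19, -49, [(0, 18), (3, 13)], [(21, 31), (23, 27)], none⟩,
     ⟨1, -2, [(0, 18), (3, 13)], [(21, 31), (23, 26)], none⟩,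
     ⟨6, -15, [(0, 18), (2, 14)], [(21, 31), (23, 26)], none⟩,
     ⟨8, -20, [(0, 18), (2, 13)], [(21, 31), (23, 26)], none⟩,
     ⟨0, 1, [(0, 18), (2, 13)], [(20, 32), (23, 26)], none⟩], 140, -351⟩,
  ⟨⟨47, 18, 34, 13⟩, -24, true, 13, 26, [31, 26], [18, 13],
    [⟨20, -52, [(0, 19), (3, 13)], [(21, 32), (24, 26)], none⟩,
     ⟨7, -18, [(0, 19), (3, 13)], [(21, 31), (24, 26)], none⟩,
     ⟨9, -23, [(0, 18), (3, 13)], [(21, 31), (24, 26)], none⟩,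
     ⟨1, -2, [(0, 18), (3, 13)], [(21, 31), (23, 27)], none⟩,
     ⟨19, -49, [(0, 18), (2, 14)], [(21, 31), (23, 27)], none⟩,
     ⟨6, -15, [(0, 18), (2, 14)], [(21, 31), (23, 26)], none⟩,
     ⟨8, -20, [(0, 18), (2, 13)], [(21, 31), (23, 26)], none⟩,
     ⟨0, 1, [(0, 18), (2, 13)], [(20, 32), (23, 26)], none⟩], 140, -351⟩,
  ⟨⟨34, 13, 21, 8⟩, -24, true, 13, 26, [31, 26], [18, 13],
    [⟨7, -18, [(0, 19), (3, 13)], [(21, 32), (24, 26)], none⟩,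
     ⟨20, -52, [(0, 18), (3, 13)], [(21, 32), (24, 26)], none⟩,
     ⟨9, -23, [(0, 18), (3, 13)], [(21, 31), (24, 26)], none⟩,
     ⟨1, -2, [(0, 18), (3, 13)], [(21, 31), (23, 27)], none⟩,
     ⟨6, -15, [(0, 18), (2, 14)], [(21, 31), (23, 27)], none⟩,
     ⟨19, -49, [(0, 18), (2, 13)], [(21, 31), (23, 27)], none⟩,
     ⟨8, -20, [(0, 18), (2, 13)], [(21, 31), (23, 26)], none⟩,
     ⟨0, 1, [(0, 18), (2, 13)], [(20, 32), (23, 26)], none⟩], 140, -351⟩,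
  ⟨⟨21, 8, 50, 19⟩, -24, true, 13, 26, [31, 26], [18, 13],
    [⟨8, -21, [(0, 19), (3, 13)], [(22, 31), (24, 26)], none⟩,
     ⟨7, -18, [(0, 19), (3, 13)], [(21, 32), (24, 26)], none⟩,
     ⟨20, -52, [(0, 18), (3, 13)], [(21, 32), (24, 26)], none⟩,
     ⟨1, -2, [(0, 18), (3, 13)], [(21, 31), (24, 26)], none⟩,
     ⟨9, -23, [(0, 18), (2, 14)], [(21, 31), (24, 26)], none⟩,
     ⟨6, -15, [(0, 18), (2, 14)], [(21, 31), (23, 27)], none⟩,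
     ⟨19, -49, [(0, 18), (2, 13)], [(21, 31), (23, 27)], none⟩,
     ⟨0, 1, [(0, 18), (2, 13)], [(21, 31), (23, 26)], none⟩], 140, -351⟩,
  ⟨⟨50, 19, 29, 11⟩, -24, true, 13, 26, [31, 26], [18, 13],
    [⟨19, -50, [(0, 19), (3, 13)], [(22, 31), (24, 27)], none⟩,
     ⟨8, -21, [(0, 19), (3, 13)], [(22, 31), (24, 26)], none⟩,
     ⟨7, -18, [(0, 19), (3, 13)], [(21, 32), (24, 26)], none⟩,
     ⟨1, -2, [(0, 18), (3, 13)], [(21, 32), (24, 26)], none⟩,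
     ⟨20, -52, [(0, 18), (2, 14)], [(21, 32), (24, 26)], none⟩,
     ⟨9, -23, [(0, 18), (2, 14)], [(21, 31), (24, 26)], none⟩,
     ⟨6, -15, [(0, 18), (2, 14)], [(21, 31), (23, 27)], none⟩,
     ⟨0, 1, [(0, 18), (2, 13)], [(21, 31), (23, 27)], none⟩], 140, -351⟩,
  ⟨⟨29, 11, 37, 14⟩, -24, true, 13, 26, [31, 26], [18, 13],
    [⟨8, -21, [(0, 19), (3, 13)], [(22, 31), (24, 27)], none⟩,
     ⟨19, -50, [(0, 19), (3, 13)], [(21, 32), (24, 27)], none⟩,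
     ⟨7, -18, [(0, 19), (3, 13)], [(21, 32), (24, 26)], none⟩,
     ⟨1, -2, [(0, 18), (3, 13)], [(21, 32), (24, 26)], none⟩,
     ⟨9, -23, [(0, 18), (2, 14)], [(21, 32), (24, 26)], none⟩,
     ⟨20, -52, [(0, 18), (2, 14)], [(21, 32), (23, 27)], none⟩,
     ⟨6, -15, [(0, 18), (2, 14)], [(21, 31), (23, 27)], none⟩,
     ⟨0, 1, [(0, 18), (2, 13)], [(21, 31), (23, 27)], none⟩], 140, -351⟩,
  ⟨⟨37, 14, 53, 20⟩, -24, true, 13, 26, [31, 26], [18, 13],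
    [⟨8, -21, [(0, 19), (3, 13)], [(22, 31), (24, 27)], none⟩,
     ⟨19, -50, [(0, 19), (3, 13)], [(21, 32), (24, 27)], none⟩,
     ⟨7, -18, [(0, 19), (3, 13)], [(21, 32), (24, 26)], none⟩,
     ⟨1, -2, [(0, 18), (3, 13)], [(21, 32), (24, 26)], none⟩,
     ⟨9, -23, [(0, 18), (2, 14)], [(21, 32), (24, 26)], none⟩,
     ⟨6, -15, [(0, 18), (2, 14)], [(21, 32), (23, 27)], none⟩,
     ⟨20, -52, [(0, 18), (2, 13)], [(21, 32), (23, 27)], none⟩,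
     ⟨0, 1, [(0, 18), (2, 13)], [(21, 31), (23, 27)], none⟩], 154, -388⟩,
  ⟨⟨53, 20, 8, 3⟩, -24, true, 13, 26, [31, 26], [18, 13],
    [⟨20, -53, [(0, 19), (3, 13)], [(22, 32), (24, 27)], none⟩,
     ⟨8, -21, [(0, 19), (3, 13)], [(22, 31), (24, 27)], none⟩,
     ⟨19, -50, [(0, 19), (3, 13)], [(21, 32), (24, 27)], none⟩,
     ⟨7, -18, [(0, 19), (3, 13)], [(21, 32), (24, 26)], none⟩,
     ⟨1, -2, [(0, 18), (3, 13)], [(21, 32), (24, 26)], none⟩,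
     ⟨9, -23, [(0, 18), (2, 14)], [(21, 32), (24, 26)], none⟩,
     ⟨6, -15, [(0, 18), (2, 14)], [(21, 32), (23, 27)], none⟩,
     ⟨0, 1, [(0, 18), (2, 13)], [(21, 32), (23, 27)], none⟩], 134, -335⟩,
  ⟨⟨8, 3, 51, 19⟩, -25, true, 13, 27, [32, 26], [18, 13],
    [⟨6, -16, [(0, 19), (3, 14)], [(22, 32), (25, 26)], none⟩,
     ⟨9, -24, [(0, 19), (3, 13)], [(22, 32), (25, 26)], none⟩,
     ⟨8, -21, [(0, 19), (3, 13)], [(22, 32), (24, 27)], none⟩,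
     ⟨20, -53, [(0, 19), (3, 13)], [(21, 33), (24, 27)], none⟩,
     ⟨1, -2, [(0, 19), (3, 13)], [(21, 32), (24, 27)], none⟩,
     ⟨7, -18, [(0, 19), (2, 14)], [(21, 32), (24, 27)], none⟩,
     ⟨19, -50, [(0, 18), (2, 14)], [(21, 32), (24, 27)], none⟩,
     ⟨0, 1, [(0, 18), (2, 14)], [(21, 32), (24, 26)], none⟩], 147, -383⟩,
  ⟨⟨51, 19, 35, 13⟩, -25, true, 13, 27, [32, 26], [18, 13],
    [⟨19, -51, [(0, 19), (3, 14)], [(22, 32), (25, 27)], none⟩,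
     ⟨6, -16, [(0, 19), (3, 14)], [(22, 32), (25, 26)], none⟩,
     ⟨9, -24, [(0, 19), (3, 13)], [(22, 32), (25, 26)], none⟩,
     ⟨8, -21, [(0, 19), (3, 13)], [(22, 32), (24, 27)], none⟩,
     ⟨1, -2, [(0, 19), (3, 13)], [(21, 33), (24, 27)], none⟩,
     ⟨20, -53, [(0, 19), (2, 14)], [(21, 33), (24, 27)], none⟩,
     ⟨7, -18, [(0, 19), (2, 14)], [(21, 32), (24, 27)], none⟩,
     ⟨0, 1, [(0, 18), (2, 14)], [(21, 32), (24, 27)], none⟩], 128, -332⟩,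
  ⟨⟨35, 13, 27, 10⟩, -25, true, 13, 27, [32, 26], [18, 13],
    [⟨6, -16, [(0, 19), (3, 14)], [(22, 32), (25, 27)], none⟩,
     ⟨19, -51, [(0, 19), (3, 13)], [(22, 32), (25, 27)], none⟩,
     ⟨9, -24, [(0, 19), (3, 13)], [(22, 32), (25, 26)], none⟩,
     ⟨8, -21, [(0, 19), (3, 13)], [(22, 32), (24, 27)], none⟩,
     ⟨1, -2, [(0, 19), (3, 13)], [(21, 33), (24, 27)], none⟩,
     ⟨7, -18, [(0, 19), (2, 14)], [(21, 33), (24, 27)], none⟩,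
     ⟨20, -53, [(0, 18), (2, 14)], [(21, 33), (24, 27)], none⟩,
     ⟨0, 1, [(0, 18), (2, 14)], [(21, 32), (24, 27)], none⟩], 141, -367⟩,
  ⟨⟨27, 10, 19, 7⟩, -26, true, 13, 28, [32, 27], [18, 13],
    [⟨20, -54, [(0, 19), (3, 14)], [(22, 33), (25, 27)], none⟩,
     ⟨6, -16, [(0, 19), (3, 14)], [(22, 32), (25, 27)], none⟩,
     ⟨9, -24, [(0, 19), (3, 13)], [(22, 32), (25, 27)], none⟩,
     ⟨19, -51, [(0, 19), (3, 13)], [(22, 32), (24, 28)], none⟩,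
     ⟨8, -21, [(0, 19), (3, 13)], [(22, 32), (24, 27)], none⟩,
     ⟨1, -2, [(0, 19), (3, 13)], [(21, 33), (24, 27)], none⟩,
     ⟨7, -18, [(0, 19), (2, 14)], [(21, 33), (24, 27)], none⟩,
     ⟨0, 1, [(0, 18), (2, 14)], [(21, 33), (24, 27)], none⟩], 126, -340⟩,
  ⟨⟨19, 7, 49, 18⟩, -25, true, 13, 27, [32, 27], [19, 13],
    [⟨7, -19, [(0, 20), (3, 14)], [(22, 33), (25, 27)], none⟩,
     ⟨6, -16, [(0, 19), (3, 14)], [(22, 33), (25, 27)], none⟩,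
     ⟨20, -54, [(0, 19), (3, 13)], [(22, 33), (25, 27)], none⟩,
     ⟨9, -24, [(0, 19), (3, 13)], [(22, 32), (25, 27)], none⟩,
     ⟨19, -51, [(0, 19), (3, 13)], [(22, 32), (24, 28)], none⟩,
     ⟨1, -2, [(0, 19), (3, 13)], [(22, 32), (24, 27)], none⟩,
     ⟨8, -21, [(0, 19), (2, 14)], [(22, 32), (24, 27)], none⟩,
     ⟨0, 1, [(0, 19), (2, 14)], [(21, 33), (24, 27)], none⟩], 159, -416⟩,
  ⟨⟨49, 18, 30, 11⟩, -25, true, 13, 27, [32, 27], [19, 13],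
    [⟨7, -19, [(0, 20), (3, 14)], [(22, 33), (25, 27)], none⟩,
     ⟨6, -16, [(0, 19), (3, 14)], [(22, 33), (25, 27)], none⟩,
     ⟨20, -54, [(0, 19), (3, 13)], [(22, 33), (25, 27)], none⟩,
     ⟨9, -24, [(0, 19), (3, 13)], [(22, 32), (25, 27)], none⟩,
     ⟨1, -2, [(0, 19), (3, 13)], [(22, 32), (24, 28)], none⟩,
     ⟨19, -51, [(0, 19), (2, 14)], [(22, 32), (24, 28)], none⟩,
     ⟨8, -21, [(0, 19), (2, 14)], [(22, 32), (24, 27)], none⟩,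
     ⟨0, 1, [(0, 19), (2, 14)], [(21, 33), (24, 27)], none⟩], 141, -367⟩,
  ⟨⟨30, 11, 52, 19⟩, -25, true, 13, 27, [32, 27], [19, 13],
    [⟨7, -19, [(0, 20), (3, 14)], [(22, 33), (25, 27)], none⟩,
     ⟨6, -16, [(0, 19), (3, 14)], [(22, 33), (25, 27)], none⟩,
     ⟨9, -24, [(0, 19), (3, 13)], [(22, 33), (25, 27)], none⟩,
     ⟨20, -54, [(0, 19), (3, 13)], [(22, 33), (24, 28)], none⟩,
     ⟨1, -2, [(0, 19), (3, 13)], [(22, 32), (24, 28)], none⟩,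
     ⟨8, -21, [(0, 19), (2, 14)], [(22, 32), (24, 28)], none⟩,
     ⟨19, -51, [(0, 19), (2, 14)], [(21, 33), (24, 28)], none⟩,
     ⟨0, 1, [(0, 19), (2, 14)], [(21, 33), (24, 27)], none⟩], 152, -397⟩,
  ⟨⟨52, 19, 11, 4⟩, -25, true, 13, 27, [32, 27], [19, 13],
    [⟨19, -52, [(0, 20), (3, 14)], [(22, 33), (25, 28)], none⟩,
     ⟨7, -19, [(0, 20), (3, 14)], [(22, 33), (25, 27)], none⟩,
     ⟨6, -16, [(0, 19), (3, 14)], [(22, 33), (25, 27)], none⟩,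
     ⟨9, -24, [(0, 19), (3, 13)], [(22, 33), (25, 27)], none⟩,
     ⟨1, -2, [(0, 19), (3, 13)], [(22, 33), (24, 28)], none⟩,
     ⟨20, -54, [(0, 19), (2, 14)], [(22, 33), (24, 28)], none⟩,
     ⟨8, -21, [(0, 19), (2, 14)], [(22, 32), (24, 28)], none⟩,
     ⟨0, 1, [(0, 19), (2, 14)], [(21, 33), (24, 28)], none⟩], 133, -345⟩,
  ⟨⟨11, 4, 36, 13⟩, -26, true, 13, 28, [33, 27], [19, 13],
    [⟨8, -22, [(0, 20), (3, 14)], [(23, 33), (25, 28)], none⟩,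
     ⟨20, -55, [(0, 20), (3, 14)], [(22, 34), (25, 28)], none⟩,
     ⟨7, -19, [(0, 20), (3, 14)], [(22, 33), (25, 28)], none⟩,
     ⟨19, -52, [(0, 19), (3, 14)], [(22, 33), (25, 28)], none⟩,
     ⟨6, -16, [(0, 19), (3, 14)], [(22, 33), (25, 27)], none⟩,
     ⟨1, -2, [(0, 19), (3, 13)], [(22, 33), (25, 27)], none⟩,
     ⟨9, -24, [(0, 19), (2, 14)], [(22, 33), (25, 27)], none⟩,
     ⟨0, 1, [(0, 19), (2, 14)], [(22, 33), (24, 28)], none⟩], 140, -378⟩,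
  ⟨⟨36, 13, 25, 9⟩, -26, true, 13, 28, [33, 27], [19, 13],
    [⟨8, -22, [(0, 20), (3, 14)], [(23, 33), (25, 28)], none⟩,
     ⟨7, -19, [(0, 20), (3, 14)], [(22, 34), (25, 28)], none⟩,
     ⟨20, -55, [(0, 19), (3, 14)], [(22, 34), (25, 28)], none⟩,
     ⟨6, -16, [(0, 19), (3, 14)], [(22, 33), (25, 28)], none⟩,
     ⟨19, -52, [(0, 19), (3, 13)], [(22, 33), (25, 28)], none⟩,
     ⟨1, -2, [(0, 19), (3, 13)], [(22, 33), (25, 27)], none⟩,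
     ⟨9, -24, [(0, 19), (2, 14)], [(22, 33), (25, 27)], none⟩,
     ⟨0, 1, [(0, 19), (2, 14)], [(22, 33), (24, 28)], none⟩], 140, -378⟩,
  ⟨⟨25, 9, 39, 14⟩, -26, true, 13, 28, [33, 27], [19, 13],
    [⟨9, -25, [(0, 20), (3, 14)], [(23, 33), (26, 27)], none⟩,
     ⟨8, -22, [(0, 20), (3, 14)], [(23, 33), (25, 28)], none⟩,
     ⟨7, -19, [(0, 20), (3, 14)], [(22, 34), (25, 28)], none⟩,
     ⟨20, -55, [(0, 19), (3, 14)], [(22, 34), (25, 28)], none⟩,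
     ⟨6, -16, [(0, 19), (3, 14)], [(22, 33), (25, 28)], none⟩,
     ⟨1, -2, [(0, 19), (3, 13)], [(22, 33), (25, 28)], none⟩,
     ⟨19, -52, [(0, 19), (2, 14)], [(22, 33), (25, 28)], none⟩,
     ⟨0, 1, [(0, 19), (2, 14)], [(22, 33), (25, 27)], none⟩], 149, -403⟩,
  ⟨⟨39, 14, 53, 19⟩, -26, true, 13, 28, [33, 27], [19, 13],
    [⟨9, -25, [(0, 20), (3, 14)], [(23, 33), (26, 27)], none⟩,
     ⟨8, -22, [(0, 20), (3, 14)], [(23, 33), (25, 28)], none⟩,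
     ⟨7, -19, [(0, 20), (3, 14)], [(22, 34), (25, 28)], none⟩,
     ⟨6, -16, [(0, 19), (3, 14)], [(22, 34), (25, 28)], none⟩,
     ⟨20, -55, [(0, 19), (3, 13)], [(22, 34), (25, 28)], none⟩,
     ⟨1, -2, [(0, 19), (3, 13)], [(22, 33), (25, 28)], none⟩,
     ⟨19, -52, [(0, 19), (2, 14)], [(22, 33), (25, 28)], none⟩,
     ⟨0, 1, [(0, 19), (2, 14)], [(22, 33), (25, 27)], none⟩], 163, -442⟩,
  ⟨⟨53, 19, 14, 5⟩, -26, true, 13, 28, [33, 27], [19, 13],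
    [⟨19, -53, [(0, 20), (3, 14)], [(23, 33), (26, 28)], none⟩,
     ⟨9, -25, [(0, 20), (3, 14)], [(23, 33), (26, 27)], none⟩,
     ⟨8, -22, [(0, 20), (3, 14)], [(23, 33), (25, 28)], none⟩,
     ⟨7, -19, [(0, 20), (3, 14)], [(22, 34), (25, 28)], none⟩,
     ⟨6, -16, [(0, 19), (3, 14)], [(22, 34), (25, 28)], none⟩,
     ⟨1, -2, [(0, 19), (3, 13)], [(22, 34), (25, 28)], none⟩,
     ⟨20, -55, [(0, 19), (2, 14)], [(22, 34), (25, 28)], none⟩,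
     ⟨0, 1, [(0, 19), (2, 14)], [(22, 33), (25, 28)], none⟩], 125, -336⟩,
  ⟨⟨14, 5, 31, 11⟩, -26, true, 14, 28, [33, 28], [19, 14],
    [⟨20, -56, [(0, 20), (3, 14)], [(23, 34), (26, 28)], none⟩,
     ⟨9, -25, [(0, 20), (3, 14)], [(23, 33), (26, 28)], none⟩,
     ⟨19, -53, [(0, 20), (3, 14)], [(23, 33), (25, 29)], none⟩,
     ⟨8, -22, [(0, 20), (3, 14)], [(23, 33), (25, 28)], none⟩,
     ⟨7, -19, [(0, 20), (3, 14)], [(22, 34), (25, 28)], none⟩,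
     ⟨1, -2, [(0, 19), (3, 14)], [(22, 34), (25, 28)], none⟩,
     ⟨6, -16, [(0, 19), (2, 15)], [(22, 34), (25, 28)], none⟩,
     ⟨0, 1, [(0, 19), (2, 14)], [(22, 34), (25, 28)], none⟩], 150, -406⟩,
  ⟨⟨31, 11, 17, 6⟩, -26, true, 14, 28, [33, 28], [19, 14],
    [⟨9, -25, [(0, 20), (3, 14)], [(23, 34), (26, 28)], none⟩,
     ⟨20, -56, [(0, 20), (3, 14)], [(23, 34), (25, 29)], none⟩,
     ⟨8, -22, [(0, 20), (3, 14)], [(23, 33), (25, 29)], none⟩,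
     ⟨19, -53, [(0, 20), (3, 14)], [(22, 34), (25, 29)], none⟩,
     ⟨7, -19, [(0, 20), (3, 14)], [(22, 34), (25, 28)], none⟩,
     ⟨1, -2, [(0, 19), (3, 14)], [(22, 34), (25, 28)], none⟩,
     ⟨6, -16, [(0, 19), (2, 15)], [(22, 34), (25, 28)], none⟩,
     ⟨0, 1, [(0, 19), (2, 14)], [(22, 34), (25, 28)], none⟩], 150, -406⟩,
  ⟨⟨17, 6, 54, 19⟩, -27, true, 14, 29, [34, 28], [19, 14],
    [⟨6, -17, [(0, 20), (3, 15)], [(23, 34), (26, 28)], none⟩,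
     ⟨9, -25, [(0, 20), (3, 14)], [(23, 34), (26, 28)], none⟩,
     ⟨8, -22, [(0, 20), (3, 14)], [(23, 34), (25, 29)], none⟩,
     ⟨20, -56, [(0, 20), (3, 14)], [(22, 35), (25, 29)], none⟩,
     ⟨1, -2, [(0, 20), (3, 14)], [(22, 34), (25, 29)], none⟩,
     ⟨7, -19, [(0, 20), (2, 15)], [(22, 34), (25, 29)], none⟩,
     ⟨19, -53, [(0, 19), (2, 15)], [(22, 34), (25, 29)], none⟩,
     ⟨0, 1, [(0, 19), (2, 15)], [(22, 34), (25, 28)], none⟩], 157, -440⟩,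
  ⟨⟨54, 19, 37, 13⟩, -27, true, 14, 29, [34, 28], [19, 14],
    [⟨19, -54, [(0, 20), (3, 15)], [(23, 34), (26, 29)], none⟩,
     ⟨6, -17, [(0, 20), (3, 15)], [(23, 34), (26, 28)], none⟩,
     ⟨9, -25, [(0, 20), (3, 14)], [(23, 34), (26, 28)], none⟩,
     ⟨8, -22, [(0, 20), (3, 14)], [(23, 34), (25, 29)], none⟩,
     ⟨1, -2, [(0, 20), (3, 14)], [(22, 35), (25, 29)], none⟩,
     ⟨20, -56, [(0, 20), (2, 15)], [(22, 35), (25, 29)], none⟩,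
     ⟨7, -19, [(0, 20), (2, 15)], [(22, 34), (25, 29)], none⟩,
     ⟨0, 1, [(0, 19), (2, 15)], [(22, 34), (25, 29)], none⟩], 138, -386⟩,
  ⟨⟨37, 13, 57, 20⟩, -27, true, 14, 29, [34, 28], [19, 14],
    [⟨6, -17, [(0, 20), (3, 15)], [(23, 34), (26, 29)], none⟩,
     ⟨19, -54, [(0, 20), (3, 14)], [(23, 34), (26, 29)], none⟩,
     ⟨9, -25, [(0, 20), (3, 14)], [(23, 34), (26, 28)], none⟩,
     ⟨8, -22, [(0, 20), (3, 14)], [(23, 34), (25, 29)], none⟩,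
     ⟨1, -2, [(0, 20), (3, 14)], [(22, 35), (25, 29)], none⟩,
     ⟨7, -19, [(0, 20), (2, 15)], [(22, 35), (25, 29)], none⟩,
     ⟨20, -56, [(0, 19), (2, 15)], [(22, 35), (25, 29)], none⟩,
     ⟨0, 1, [(0, 19), (2, 15)], [(22, 34), (25, 29)], none⟩], 151, -423⟩,
  ⟨⟨57, 20, 20, 7⟩, -27, true, 14, 29, [34, 28], [19, 14],
    [⟨20, -57, [(0, 20), (3, 15)], [(23, 35), (26, 29)], none⟩,
     ⟨6, -17, [(0, 20), (3, 15)], [(23, 34), (26, 29)], none⟩,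
     ⟨19, -54, [(0, 20), (3, 14)], [(23, 34), (26, 29)], none⟩,
     ⟨9, -25, [(0, 20), (3, 14)], [(23, 34), (26, 28)], none⟩,
     ⟨8, -22, [(0, 20), (3, 14)], [(23, 34), (25, 29)], none⟩,
     ⟨1, -2, [(0, 20), (3, 14)], [(22, 35), (25, 29)], none⟩,
     ⟨7, -19, [(0, 20), (2, 15)], [(22, 35), (25, 29)], none⟩,
     ⟨0, 1, [(0, 19), (2, 15)], [(22, 35), (25, 29)], none⟩], 131, -366⟩,
  ⟨⟨20, 7, 23, 8⟩, -26, true, 14, 28, [34, 28], [20, 14],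
    [⟨7, -20, [(0, 21), (3, 15)], [(23, 35), (26, 29)], none⟩,
     ⟨6, -17, [(0, 20), (3, 15)], [(23, 35), (26, 29)], none⟩,
     ⟨20, -57, [(0, 20), (3, 14)], [(23, 35), (26, 29)], none⟩,
     ⟨19, -54, [(0, 20), (3, 14)], [(23, 34), (26, 29)], none⟩,
     ⟨9, -25, [(0, 20), (3, 14)], [(23, 34), (26, 28)], none⟩,
     ⟨1, -2, [(0, 20), (3, 14)], [(23, 34), (25, 29)], none⟩,
     ⟨8, -22, [(0, 20), (2, 15)], [(23, 34), (25, 29)], none⟩,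
     ⟨0, 1, [(0, 20), (2, 15)], [(22, 35), (25, 29)], none⟩], 164, -446⟩,
  ⟨⟨23, 8, 26, 9⟩, -26, true, 14, 28, [34, 28], [20, 14],
    [⟨8, -23, [(0, 21), (3, 15)], [(24, 34), (26, 29)], none⟩,
     ⟨7, -20, [(0, 21), (3, 15)], [(23, 35), (26, 29)], none⟩,
     ⟨6, -17, [(0, 20), (3, 15)], [(23, 35), (26, 29)], none⟩,
     ⟨20, -57, [(0, 20), (3, 14)], [(23, 35), (26, 29)], none⟩,
     ⟨19, -54, [(0, 20), (3, 14)], [(23, 34), (26, 29)], none⟩,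
     ⟨1, -2, [(0, 20), (3, 14)], [(23, 34), (26, 28)], none⟩,
     ⟨9, -25, [(0, 20), (2, 15)], [(23, 34), (26, 28)], none⟩,
     ⟨0, 1, [(0, 20), (2, 15)], [(23, 34), (25, 29)], none⟩], 164, -446⟩,
  ⟨⟨26, 9, 55, 19⟩, -26, true, 14, 28, [34, 28], [20, 14],
    [⟨9, -26, [(0, 21), (3, 15)], [(24, 34), (27, 28)], none⟩,
     ⟨8, -23, [(0, 21), (3, 15)], [(24, 34), (26, 29)], none⟩,
     ⟨7, -20, [(0, 21), (3, 15)], [(23, 35), (26, 29)], none⟩,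
     ⟨6, -17, [(0, 20), (3, 15)], [(23, 35), (26, 29)], none⟩,
     ⟨20, -57, [(0, 20), (3, 14)], [(23, 35), (26, 29)], none⟩,
     ⟨1, -2, [(0, 20), (3, 14)], [(23, 34), (26, 29)], none⟩,
     ⟨19, -54, [(0, 20), (2, 15)], [(23, 34), (26, 29)], none⟩,
     ⟨0, 1, [(0, 20), (2, 15)], [(23, 34), (26, 28)], none⟩], 173, -472⟩,
  ⟨⟨55, 19, 29, 10⟩, -26, true, 14, 28, [34, 28], [20, 14],
    [⟨19, -55, [(0, 21), (3, 15)], [(24, 34), (27, 29)], none⟩,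
     ⟨9, -26, [(0, 21), (3, 15)], [(24, 34), (27, 28)], none⟩,
     ⟨8, -23, [(0, 21), (3, 15)], [(24, 34), (26, 29)], none⟩,
     ⟨7, -20, [(0, 21), (3, 15)], [(23, 35), (26, 29)], none⟩,
     ⟨6, -17, [(0, 20), (3, 15)], [(23, 35), (26, 29)], none⟩,
     ⟨1, -2, [(0, 20), (3, 14)], [(23, 35), (26, 29)], none⟩,
     ⟨20, -57, [(0, 20), (2, 15)], [(23, 35), (26, 29)], none⟩,
     ⟨0, 1, [(0, 20), (2, 15)], [(23, 34), (26, 29)], none⟩], 135, -362⟩,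
  ⟨⟨29, 10, 32, 11⟩, -27, true, 14, 29, [34, 29], [20, 14],
    [⟨20, -58, [(0, 21), (3, 15)], [(24, 35), (27, 29)], none⟩,
     ⟨9, -26, [(0, 21), (3, 15)], [(24, 34), (27, 29)], none⟩,
     ⟨19, -55, [(0, 21), (3, 15)], [(24, 34), (26, 30)], none⟩,
     ⟨8, -23, [(0, 21), (3, 15)], [(24, 34), (26, 29)], none⟩,
     ⟨7, -20, [(0, 21), (3, 15)], [(23, 35), (26, 29)], none⟩,
     ⟨6, -17, [(0, 20), (3, 15)], [(23, 35), (26, 29)], none⟩,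
     ⟨1, -2, [(0, 20), (3, 14)], [(23, 35), (26, 29)], none⟩,
     ⟨0, 1, [(0, 20), (2, 15)], [(23, 35), (26, 29)], none⟩], 140, -391⟩,
  ⟨⟨32, 11, 35, 12⟩, -27, true, 14, 29, [34, 29], [20, 14],
    [⟨9, -26, [(0, 21), (3, 15)], [(24, 35), (27, 29)], none⟩,
     ⟨20, -58, [(0, 21), (3, 15)], [(24, 35), (26, 30)], none⟩,
     ⟨8, -23, [(0, 21), (3, 15)], [(24, 34), (26, 30)], none⟩,
     ⟨19, -55, [(0, 21), (3, 15)], [(23, 35), (26, 30)], none⟩,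
     ⟨7, -20, [(0, 21), (3, 15)], [(23, 35), (26, 29)], none⟩,
     ⟨6, -17, [(0, 20), (3, 15)], [(23, 35), (26, 29)], none⟩,
     ⟨1, -2, [(0, 20), (3, 14)], [(23, 35), (26, 29)], none⟩,
     ⟨0, 1, [(0, 20), (2, 15)], [(23, 35), (26, 29)], none⟩], 140, -391⟩,
  ⟨⟨35, 12, 38, 13⟩, -28, true, 14, 30, [35, 29], [20, 14],
    [⟨9, -26, [(0, 21), (3, 15)], [(24, 35), (27, 29)], none⟩,
     ⟨8, -23, [(0, 21), (3, 15)], [(24, 35), (26, 30)], none⟩,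
     ⟨20, -58, [(0, 21), (3, 15)], [(23, 36), (26, 30)], none⟩,
     ⟨7, -20, [(0, 21), (3, 15)], [(23, 35), (26, 30)], none⟩,
     ⟨19, -55, [(0, 20), (3, 15)], [(23, 35), (26, 30)], none⟩,
     ⟨6, -17, [(0, 20), (3, 15)], [(23, 35), (26, 29)], none⟩,
     ⟨1, -2, [(0, 20), (3, 14)], [(23, 35), (26, 29)], none⟩,
     ⟨0, 1, [(0, 20), (2, 15)], [(23, 35), (26, 29)], none⟩], 159, -461⟩,
  ⟨⟨38, 13, 41, 14⟩, -28, true, 14, 30, [35, 29], [20, 14],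
    [⟨9, -26, [(0, 21), (3, 15)], [(24, 35), (27, 29)], none⟩,
     ⟨8, -23, [(0, 21), (3, 15)], [(24, 35), (26, 30)], none⟩,
     ⟨7, -20, [(0, 21), (3, 15)], [(23, 36), (26, 30)], none⟩,
     ⟨20, -58, [(0, 20), (3, 15)], [(23, 36), (26, 30)], none⟩,
     ⟨6, -17, [(0, 20), (3, 15)], [(23, 35), (26, 30)], none⟩,
     ⟨19, -55, [(0, 20), (3, 14)], [(23, 35), (26, 30)], none⟩,
     ⟨1, -2, [(0, 20), (3, 14)], [(23, 35), (26, 29)], none⟩,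
     ⟨0, 1, [(0, 20), (2, 15)], [(23, 35), (26, 29)], none⟩], 159, -461⟩,
  ⟨⟨41, 14, 53, 18⟩, -28, true, 14, 30, [35, 29], [20, 14],
    [⟨9, -26, [(0, 21), (3, 15)], [(24, 35), (27, 29)], none⟩,
     ⟨8, -23, [(0, 21), (3, 15)], [(24, 35), (26, 30)], none⟩,
     ⟨7, -20, [(0, 21), (3, 15)], [(23, 36), (26, 30)], none⟩,
     ⟨6, -17, [(0, 20), (3, 15)], [(23, 36), (26, 30)], none⟩,
     ⟨20, -58, [(0, 20), (3, 14)], [(23, 36), (26, 30)], none⟩,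
     ⟨19, -55, [(0, 20), (3, 14)], [(23, 35), (26, 30)], none⟩,
     ⟨1, -2, [(0, 20), (3, 14)], [(23, 35), (26, 29)], none⟩,
     ⟨0, 1, [(0, 20), (2, 15)], [(23, 35), (26, 29)], none⟩], 173, -502⟩,
  ⟨⟨53, 18, 56, 19⟩, -28, true, 14, 30, [35, 29], [20, 14],
    [⟨9, -26, [(0, 21), (3, 15)], [(24, 35), (27, 29)], none⟩,
     ⟨8, -23, [(0, 21), (3, 15)], [(24, 35), (26, 30)], none⟩,
     ⟨7, -20, [(0, 21), (3, 15)], [(23, 36), (26, 30)], none⟩,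
     ⟨6, -17, [(0, 20), (3, 15)], [(23, 36), (26, 30)], none⟩,
     ⟨20, -58, [(0, 20), (3, 14)], [(23, 36), (26, 30)], none⟩,
     ⟨1, -2, [(0, 20), (3, 14)], [(23, 35), (26, 30)], none⟩,
     ⟨19, -55, [(0, 20), (2, 15)], [(23, 35), (26, 30)], none⟩,
     ⟨0, 1, [(0, 20), (2, 15)], [(23, 35), (26, 29)], none⟩], 173, -502⟩,
  ⟨⟨56, 19, 59, 20⟩, -28, true, 14, 30, [35, 29], [20, 14],
    [⟨19, -56, [(0, 21), (3, 15)], [(24, 35), (27, 30)], none⟩,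
     ⟨9, -26, [(0, 21), (3, 15)], [(24, 35), (27, 29)], none⟩,
     ⟨8, -23, [(0, 21), (3, 15)], [(24, 35), (26, 30)], none⟩,
     ⟨7, -20, [(0, 21), (3, 15)], [(23, 36), (26, 30)], none⟩,
     ⟨6, -17, [(0, 20), (3, 15)], [(23, 36), (26, 30)], none⟩,
     ⟨1, -2, [(0, 20), (3, 14)], [(23, 36), (26, 30)], none⟩,
     ⟨20, -58, [(0, 20), (2, 15)], [(23, 36), (26, 30)], none⟩,
     ⟨0, 1, [(0, 20), (2, 15)], [(23, 35), (26, 30)], none⟩], 135, -390⟩,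
  ⟨⟨59, 20, 3, 1⟩, -28, true, 14, 30, [35, 29], [20, 14],
    [⟨20, -59, [(0, 21), (3, 15)], [(24, 36), (27, 30)], none⟩,
     ⟨19, -56, [(0, 21), (3, 15)], [(24, 35), (27, 30)], none⟩,
     ⟨9, -26, [(0, 21), (3, 15)], [(24, 35), (27, 29)], none⟩,
     ⟨8, -23, [(0, 21), (3, 15)], [(24, 35), (26, 30)], none⟩,
     ⟨7, -20, [(0, 21), (3, 15)], [(23, 36), (26, 30)], none⟩,
     ⟨6, -17, [(0, 20), (3, 15)], [(23, 36), (26, 30)], none⟩,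
     ⟨1, -2, [(0, 20), (3, 14)], [(23, 36), (26, 30)], none⟩,
     ⟨0, 1, [(0, 20), (2, 15)], [(23, 36), (26, 30)], none⟩], 135, -390⟩,
  ⟨⟨3, 1, 61, 20⟩, -28, true, 15, 30, [36, 30], [21, 15],
    [⟨1, -3, [(0, 22), (4, 15)], [(25, 36), (28, 30)], none⟩,
     ⟨6, -18, [(0, 22), (3, 16)], [(25, 36), (28, 30)], none⟩,
     ⟨7, -21, [(0, 22), (3, 15)], [(25, 36), (28, 30)], none⟩,
     ⟨8, -24, [(0, 21), (3, 15)], [(25, 36), (28, 30)], none⟩,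
     ⟨9, -27, [(0, 21), (3, 15)], [(24, 37), (28, 30)], none⟩,
     ⟨19, -57, [(0, 21), (3, 15)], [(24, 37), (27, 31)], none⟩,
     ⟨20, -60, [(0, 21), (3, 15)], [(24, 37), (27, 30)], none⟩,
     ⟨0, 1, [(0, 21), (3, 15)], [(24, 36), (27, 30)], none⟩], 175, -510⟩,
  ⟨⟨61, 20, 58, 19⟩, -28, true, 15, 30, [36, 30], [21, 15],
    [⟨20, -61, [(0, 22), (4, 15)], [(25, 37), (28, 30)], none⟩,
     ⟨1, -3, [(0, 22), (4, 15)], [(25, 36), (28, 30)], none⟩,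
     ⟨6, -18, [(0, 22), (3, 16)], [(25, 36), (28, 30)], none⟩,
     ⟨7, -21, [(0, 22), (3, 15)], [(25, 36), (28, 30)], none⟩,
     ⟨8, -24, [(0, 21), (3, 15)], [(25, 36), (28, 30)], none⟩,
     ⟨9, -27, [(0, 21), (3, 15)], [(24, 37), (28, 30)], none⟩,
     ⟨19, -57, [(0, 21), (3, 15)], [(24, 37), (27, 31)], none⟩,
     ⟨0, 1, [(0, 21), (3, 15)], [(24, 37), (27, 30)], none⟩], 175, -510⟩,
  ⟨⟨58, 19, 55, 18⟩, -28, true, 15, 30, [36, 30], [21, 15],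
    [⟨19, -58, [(0, 22), (4, 15)], [(25, 37), (28, 31)], none⟩,
     ⟨1, -3, [(0, 22), (4, 15)], [(25, 37), (28, 30)], none⟩,
     ⟨20, -61, [(0, 22), (3, 16)], [(25, 37), (28, 30)], none⟩,
     ⟨6, -18, [(0, 22), (3, 16)], [(25, 36), (28, 30)], none⟩,
     ⟨7, -21, [(0, 22), (3, 15)], [(25, 36), (28, 30)], none⟩,
     ⟨8, -24, [(0, 21), (3, 15)], [(25, 36), (28, 30)], none⟩,
     ⟨9, -27, [(0, 21), (3, 15)], [(24, 37), (28, 30)], none⟩,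
     ⟨0, 1, [(0, 21), (3, 15)], [(24, 37), (27, 31)], none⟩], 137, -394⟩,
  ⟨⟨55, 18, 43, 14⟩, -28, true, 15, 30, [36, 30], [21, 15],
    [⟨1, -3, [(0, 22), (4, 15)], [(25, 37), (28, 31)], none⟩,
     ⟨19, -58, [(0, 22), (3, 16)], [(25, 37), (28, 31)], none⟩,
     ⟨20, -61, [(0, 22), (3, 16)], [(25, 37), (28, 30)], none⟩,
     ⟨6, -18, [(0, 22), (3, 16)], [(25, 36), (28, 30)], none⟩,
     ⟨7, -21, [(0, 22), (3, 15)], [(25, 36), (28, 30)], none⟩,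
     ⟨8, -24, [(0, 21), (3, 15)], [(25, 36), (28, 30)], none⟩,
     ⟨9, -27, [(0, 21), (3, 15)], [(24, 37), (28, 30)], none⟩,
     ⟨0, 1, [(0, 21), (3, 15)], [(24, 37), (27, 31)], none⟩], 137, -394⟩,
  ⟨⟨43, 14, 40, 13⟩, -28, true, 15, 30, [36, 30], [21, 15],
    [⟨1, -3, [(0, 22), (4, 15)], [(25, 37), (28, 31)], none⟩,
     ⟨19, -58, [(0, 22), (3, 16)], [(25, 37), (28, 31)], none⟩,
     ⟨6, -18, [(0, 22), (3, 16)], [(25, 37), (28, 30)], none⟩,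
     ⟨20, -61, [(0, 22), (3, 15)], [(25, 37), (28, 30)], none⟩,
     ⟨7, -21, [(0, 22), (3, 15)], [(25, 36), (28, 30)], none⟩,
     ⟨8, -24, [(0, 21), (3, 15)], [(25, 36), (28, 30)], none⟩,
     ⟨9, -27, [(0, 21), (3, 15)], [(24, 37), (28, 30)], none⟩,
     ⟨0, 1, [(0, 21), (3, 15)], [(24, 37), (27, 31)], none⟩], 151, -437⟩,
  ⟨⟨40, 13, 37, 12⟩, -28, true, 15, 30, [36, 30], [21, 15],
    [⟨1, -3, [(0, 22), (4, 15)], [(25, 37), (28, 31)], none⟩,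
     ⟨6, -18, [(0, 22), (3, 16)], [(25, 37), (28, 31)], none⟩,
     ⟨19, -58, [(0, 22), (3, 15)], [(25, 37), (28, 31)], none⟩,
     ⟨7, -21, [(0, 22), (3, 15)], [(25, 37), (28, 30)], none⟩,
     ⟨20, -61, [(0, 21), (3, 15)], [(25, 37), (28, 30)], none⟩,
     ⟨8, -24, [(0, 21), (3, 15)], [(25, 36), (28, 30)], none⟩,
     ⟨9, -27, [(0, 21), (3, 15)], [(24, 37), (28, 30)], none⟩,
     ⟨0, 1, [(0, 21), (3, 15)], [(24, 37), (27, 31)], none⟩], 151, -437⟩,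
  ⟨⟨37, 12, 34, 11⟩, -29, true, 15, 31, [37, 30], [21, 15],
    [⟨1, -3, [(0, 22), (4, 15)], [(25, 37), (28, 31)], none⟩,
     ⟨6, -18, [(0, 22), (3, 16)], [(25, 37), (28, 31)], none⟩,
     ⟨7, -21, [(0, 22), (3, 15)], [(25, 37), (28, 31)], none⟩,
     ⟨19, -58, [(0, 21), (3, 15)], [(25, 37), (28, 31)], none⟩,
     ⟨8, -24, [(0, 21), (3, 15)], [(25, 37), (28, 30)], none⟩,
     ⟨20, -61, [(0, 21), (3, 15)], [(24, 38), (28, 30)], none⟩,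
     ⟨9, -27, [(0, 21), (3, 15)], [(24, 37), (28, 30)], none⟩,
     ⟨0, 1, [(0, 21), (3, 15)], [(24, 37), (27, 31)], none⟩], 170, -511⟩,
  ⟨⟨34, 11, 31, 10⟩, -29, true, 15, 31, [37, 30], [21, 15],
    [⟨1, -3, [(0, 22), (4, 15)], [(25, 37), (28, 31)], none⟩,
     ⟨6, -18, [(0, 22), (3, 16)], [(25, 37), (28, 31)], none⟩,
     ⟨7, -21, [(0, 22), (3, 15)], [(25, 37), (28, 31)], none⟩,
     ⟨8, -24, [(0, 21), (3, 15)], [(25, 37), (28, 31)], none⟩,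
     ⟨19, -58, [(0, 21), (3, 15)], [(24, 38), (28, 31)], none⟩,
     ⟨9, -27, [(0, 21), (3, 15)], [(24, 38), (28, 30)], none⟩,
     ⟨20, -61, [(0, 21), (3, 15)], [(24, 38), (27, 31)], none⟩,
     ⟨0, 1, [(0, 21), (3, 15)], [(24, 37), (27, 31)], none⟩], 170, -511⟩,
  ⟨⟨31, 10, 59, 19⟩, -30, true, 15, 32, [37, 31], [21, 15],
    [⟨20, -62, [(0, 22), (4, 15)], [(25, 38), (28, 31)], none⟩,
     ⟨1, -3, [(0, 22), (4, 15)], [(25, 37), (28, 31)], none⟩,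
     ⟨6, -18, [(0, 22), (3, 16)], [(25, 37), (28, 31)], none⟩,
     ⟨7, -21, [(0, 22), (3, 15)], [(25, 37), (28, 31)], none⟩,
     ⟨8, -24, [(0, 21), (3, 15)], [(25, 37), (28, 31)], none⟩,
     ⟨9, -27, [(0, 21), (3, 15)], [(24, 38), (28, 31)], none⟩,
     ⟨19, -58, [(0, 21), (3, 15)], [(24, 38), (27, 32)], none⟩,
     ⟨0, 1, [(0, 21), (3, 15)], [(24, 38), (27, 31)], none⟩], 175, -542⟩,
  ⟨⟨59, 19, 28, 9⟩, -30, true, 15, 32, [37, 31], [21, 15],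
    [⟨19, -59, [(0, 22), (4, 15)], [(25, 38), (28, 32)], none⟩,
     ⟨1, -3, [(0, 22), (4, 15)], [(25, 38), (28, 31)], none⟩,
     ⟨20, -62, [(0, 22), (3, 16)], [(25, 38), (28, 31)], none⟩,
     ⟨6, -18, [(0, 22), (3, 16)], [(25, 37), (28, 31)], none⟩,
     ⟨7, -21, [(0, 22), (3, 15)], [(25, 37), (28, 31)], none⟩,
     ⟨8, -24, [(0, 21), (3, 15)], [(25, 37), (28, 31)], none⟩,
     ⟨9, -27, [(0, 21), (3, 15)], [(24, 38), (28, 31)], none⟩,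
     ⟨0, 1, [(0, 21), (3, 15)], [(24, 38), (27, 32)], none⟩], 137, -424⟩,
  ⟨⟨28, 9, 25, 8⟩, -30, true, 15, 32, [37, 31], [21, 15],
    [⟨9, -28, [(0, 22), (4, 15)], [(25, 38), (29, 31)], none⟩,
     ⟨1, -3, [(0, 22), (4, 15)], [(25, 38), (28, 32)], none⟩,
     ⟨19, -59, [(0, 22), (3, 16)], [(25, 38), (28, 32)], none⟩,
     ⟨20, -62, [(0, 22), (3, 16)], [(25, 38), (28, 31)], none⟩,
     ⟨6, -18, [(0, 22), (3, 16)], [(25, 37), (28, 31)], none⟩,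
     ⟨7, -21, [(0, 22), (3, 15)], [(25, 37), (28, 31)], none⟩,
     ⟨8, -24, [(0, 21), (3, 15)], [(25, 37), (28, 31)], none⟩,
     ⟨0, 1, [(0, 21), (3, 15)], [(24, 38), (28, 31)], none⟩], 146, -452⟩]

theorem recs5_chk : recs5.all (fun r => r.chk par 3 1000) = true := by decide +kernel

/-- cells -/
def recs6 : List Rec := [
  ⟨⟨25, 8, 22, 7⟩, -30, true, 15, 32, [37, 31], [21, 15],
    [⟨8, -25, [(0, 22), (4, 15)], [(26, 37), (29, 31)], none⟩,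
     ⟨1, -3, [(0, 22), (4, 15)], [(25, 38), (29, 31)], none⟩,
     ⟨9, -28, [(0, 22), (3, 16)], [(25, 38), (29, 31)], none⟩,
     ⟨19, -59, [(0, 22), (3, 16)], [(25, 38), (28, 32)], none⟩,
     ⟨20, -62, [(0, 22), (3, 16)], [(25, 38), (28, 31)], none⟩,
     ⟨6, -18, [(0, 22), (3, 16)], [(25, 37), (28, 31)], none⟩,
     ⟨7, -21, [(0, 22), (3, 15)], [(25, 37), (28, 31)], none⟩,
     ⟨0, 1, [(0, 21), (3, 15)], [(25, 37), (28, 31)], none⟩], 146, -452⟩,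
  ⟨⟨22, 7, 63, 20⟩, -29, true, 15, 31, [37, 31], [22, 15],
    [⟨7, -22, [(0, 23), (4, 15)], [(26, 37), (29, 31)], none⟩,
     ⟨1, -3, [(0, 22), (4, 15)], [(26, 37), (29, 31)], none⟩,
     ⟨8, -25, [(0, 22), (3, 16)], [(26, 37), (29, 31)], none⟩,
     ⟨9, -28, [(0, 22), (3, 16)], [(25, 38), (29, 31)], none⟩,
     ⟨19, -59, [(0, 22), (3, 16)], [(25, 38), (28, 32)], none⟩,
     ⟨6, -18, [(0, 22), (3, 16)], [(25, 38), (28, 31)], none⟩,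
     ⟨20, -62, [(0, 22), (3, 15)], [(25, 38), (28, 31)], none⟩,
     ⟨0, 1, [(0, 22), (3, 15)], [(25, 37), (28, 31)], none⟩], 179, -540⟩,
  ⟨⟨63, 20, 41, 13⟩, -29, true, 15, 31, [37, 31], [22, 15],
    [⟨20, -63, [(0, 23), (4, 15)], [(26, 38), (29, 31)], none⟩,
     ⟨7, -22, [(0, 23), (4, 15)], [(26, 37), (29, 31)], none⟩,
     ⟨1, -3, [(0, 22), (4, 15)], [(26, 37), (29, 31)], none⟩,
     ⟨8, -25, [(0, 22), (3, 16)], [(26, 37), (29, 31)], none⟩,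
     ⟨9, -28, [(0, 22), (3, 16)], [(25, 38), (29, 31)], none⟩,
     ⟨19, -59, [(0, 22), (3, 16)], [(25, 38), (28, 32)], none⟩,
     ⟨6, -18, [(0, 22), (3, 16)], [(25, 38), (28, 31)], none⟩,
     ⟨0, 1, [(0, 22), (3, 15)], [(25, 38), (28, 31)], none⟩], 159, -477⟩,
  ⟨⟨41, 13, 60, 19⟩, -29, true, 15, 31, [37, 31], [22, 15],
    [⟨7, -22, [(0, 23), (4, 15)], [(26, 38), (29, 31)], none⟩,
     ⟨20, -63, [(0, 22), (4, 15)], [(26, 38), (29, 31)], none⟩,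
     ⟨1, -3, [(0, 22), (4, 15)], [(26, 37), (29, 31)], none⟩,
     ⟨8, -25, [(0, 22), (3, 16)], [(26, 37), (29, 31)], none⟩,
     ⟨9, -28, [(0, 22), (3, 16)], [(25, 38), (29, 31)], none⟩,
     ⟨6, -18, [(0, 22), (3, 16)], [(25, 38), (28, 32)], none⟩,
     ⟨19, -59, [(0, 22), (3, 15)], [(25, 38), (28, 32)], none⟩,
     ⟨0, 1, [(0, 22), (3, 15)], [(25, 38), (28, 31)], none⟩], 172, -518⟩,
  ⟨⟨60, 19, 19, 6⟩, -29, true, 15, 31, [37, 31], [22, 15],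
    [⟨19, -60, [(0, 23), (4, 15)], [(26, 38), (29, 32)], none⟩,
     ⟨7, -22, [(0, 23), (4, 15)], [(26, 38), (29, 31)], none⟩,
     ⟨1, -3, [(0, 22), (4, 15)], [(26, 38), (29, 31)], none⟩,
     ⟨20, -63, [(0, 22), (3, 16)], [(26, 38), (29, 31)], none⟩,
     ⟨8, -25, [(0, 22), (3, 16)], [(26, 37), (29, 31)], none⟩,
     ⟨9, -28, [(0, 22), (3, 16)], [(25, 38), (29, 31)], none⟩,
     ⟨6, -18, [(0, 22), (3, 16)], [(25, 38), (28, 32)], none⟩,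
     ⟨0, 1, [(0, 22), (3, 15)], [(25, 38), (28, 32)], none⟩], 153, -458⟩,
  ⟨⟨19, 6, 35, 11⟩, -30, true, 15, 32, [38, 31], [22, 15],
    [⟨6, -19, [(0, 23), (4, 16)], [(26, 38), (29, 32)], none⟩,
     ⟨1, -3, [(0, 23), (4, 15)], [(26, 38), (29, 32)], none⟩,
     ⟨7, -22, [(0, 23), (3, 16)], [(26, 38), (29, 32)], none⟩,
     ⟨19, -60, [(0, 22), (3, 16)], [(26, 38), (29, 32)], none⟩,
     ⟨8, -25, [(0, 22), (3, 16)], [(26, 38), (29, 31)], none⟩,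
     ⟨20, -63, [(0, 22), (3, 16)], [(25, 39), (29, 31)], none⟩,
     ⟨9, -28, [(0, 22), (3, 16)], [(25, 38), (29, 31)], none⟩,
     ⟨0, 1, [(0, 22), (3, 16)], [(25, 38), (28, 32)], none⟩], 160, -496⟩,
  ⟨⟨35, 11, 16, 5⟩, -30, true, 15, 32, [38, 31], [22, 15],
    [⟨6, -19, [(0, 23), (4, 16)], [(26, 38), (29, 32)], none⟩,
     ⟨1, -3, [(0, 23), (4, 15)], [(26, 38), (29, 32)], none⟩,
     ⟨7, -22, [(0, 23), (3, 16)], [(26, 38), (29, 32)], none⟩,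
     ⟨8, -25, [(0, 22), (3, 16)], [(26, 38), (29, 32)], none⟩,
     ⟨19, -60, [(0, 22), (3, 16)], [(25, 39), (29, 32)], none⟩,
     ⟨9, -28, [(0, 22), (3, 16)], [(25, 39), (29, 31)], none⟩,
     ⟨20, -63, [(0, 22), (3, 16)], [(25, 39), (28, 32)], none⟩,
     ⟨0, 1, [(0, 22), (3, 16)], [(25, 38), (28, 32)], none⟩], 160, -496⟩,
  ⟨⟨16, 5, 61, 19⟩, -30, true, 16, 32, [38, 32], [22, 16],
    [⟨20, -64, [(0, 23), (4, 16)], [(26, 39), (29, 32)], none⟩,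
     ⟨1, -3, [(0, 23), (4, 16)], [(26, 38), (29, 32)], none⟩,
     ⟨6, -19, [(0, 23), (3, 17)], [(26, 38), (29, 32)], none⟩,
     ⟨7, -22, [(0, 23), (3, 16)], [(26, 38), (29, 32)], none⟩,
     ⟨8, -25, [(0, 22), (3, 16)], [(26, 38), (29, 32)], none⟩,
     ⟨9, -28, [(0, 22), (3, 16)], [(25, 39), (29, 32)], none⟩,
     ⟨19, -60, [(0, 22), (3, 16)], [(25, 39), (28, 33)], none⟩,
     ⟨0, 1, [(0, 22), (3, 16)], [(25, 39), (28, 32)], none⟩], 185, -576⟩,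
  ⟨⟨61, 19, 45, 14⟩, -30, true, 16, 32, [38, 32], [22, 16],
    [⟨19, -61, [(0, 23), (4, 16)], [(26, 39), (29, 33)], none⟩,
     ⟨1, -3, [(0, 23), (4, 16)], [(26, 39), (29, 32)], none⟩,
     ⟨20, -64, [(0, 23), (3, 17)], [(26, 39), (29, 32)], none⟩,
     ⟨6, -19, [(0, 23), (3, 17)], [(26, 38), (29, 32)], none⟩,
     ⟨7, -22, [(0, 23), (3, 16)], [(26, 38), (29, 32)], none⟩,
     ⟨8, -25, [(0, 22), (3, 16)], [(26, 38), (29, 32)], none⟩,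
     ⟨9, -28, [(0, 22), (3, 16)], [(25, 39), (29, 32)], none⟩,
     ⟨0, 1, [(0, 22), (3, 16)], [(25, 39), (28, 33)], none⟩], 147, -454⟩,
  ⟨⟨45, 14, 29, 9⟩, -30, true, 16, 32, [38, 32], [22, 16],
    [⟨19, -61, [(0, 23), (4, 16)], [(26, 39), (29, 33)], none⟩,
     ⟨1, -3, [(0, 23), (4, 16)], [(26, 39), (29, 32)], none⟩,
     ⟨6, -19, [(0, 23), (3, 17)], [(26, 39), (29, 32)], none⟩,
     ⟨20, -64, [(0, 23), (3, 16)], [(26, 39), (29, 32)], none⟩,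
     ⟨7, -22, [(0, 23), (3, 16)], [(26, 38), (29, 32)], none⟩,
     ⟨8, -25, [(0, 22), (3, 16)], [(26, 38), (29, 32)], none⟩,
     ⟨9, -28, [(0, 22), (3, 16)], [(25, 39), (29, 32)], none⟩,
     ⟨0, 1, [(0, 22), (3, 16)], [(25, 39), (28, 33)], none⟩], 161, -499⟩,
  ⟨⟨29, 9, 42, 13⟩, -30, true, 16, 32, [38, 32], [22, 16],
    [⟨9, -29, [(0, 23), (4, 16)], [(26, 39), (30, 32)], none⟩,
     ⟨1, -3, [(0, 23), (4, 16)], [(26, 39), (29, 33)], none⟩,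
     ⟨19, -61, [(0, 23), (3, 17)], [(26, 39), (29, 33)], none⟩,
     ⟨6, -19, [(0, 23), (3, 17)], [(26, 39), (29, 32)], none⟩,
     ⟨20, -64, [(0, 23), (3, 16)], [(26, 39), (29, 32)], none⟩,
     ⟨7, -22, [(0, 23), (3, 16)], [(26, 38), (29, 32)], none⟩,
     ⟨8, -25, [(0, 22), (3, 16)], [(26, 38), (29, 32)], none⟩,
     ⟨0, 1, [(0, 22), (3, 16)], [(25, 39), (29, 32)], none⟩], 170, -528⟩,
  ⟨⟨42, 13, 13, 4⟩, -30, true, 16, 32, [38, 32], [22, 16],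
    [⟨9, -29, [(0, 23), (4, 16)], [(26, 39), (30, 32)], none⟩,
     ⟨1, -3, [(0, 23), (4, 16)], [(26, 39), (29, 33)], none⟩,
     ⟨6, -19, [(0, 23), (3, 17)], [(26, 39), (29, 33)], none⟩,
     ⟨19, -61, [(0, 23), (3, 16)], [(26, 39), (29, 33)], none⟩,
     ⟨7, -22, [(0, 23), (3, 16)], [(26, 39), (29, 32)], none⟩,
     ⟨20, -64, [(0, 22), (3, 16)], [(26, 39), (29, 32)], none⟩,
     ⟨8, -25, [(0, 22), (3, 16)], [(26, 38), (29, 32)], none⟩,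
     ⟨0, 1, [(0, 22), (3, 16)], [(25, 39), (29, 32)], none⟩], 170, -528⟩,
  ⟨⟨13, 4, 62, 19⟩, -31, true, 16, 33, [39, 32], [22, 16],
    [⟨8, -26, [(0, 23), (4, 16)], [(27, 39), (30, 32)], none⟩,
     ⟨20, -65, [(0, 23), (4, 16)], [(26, 40), (30, 32)], none⟩,
     ⟨1, -3, [(0, 23), (4, 16)], [(26, 39), (30, 32)], none⟩,
     ⟨9, -29, [(0, 23), (3, 17)], [(26, 39), (30, 32)], none⟩,
     ⟨6, -19, [(0, 23), (3, 17)], [(26, 39), (29, 33)], none⟩,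
     ⟨7, -22, [(0, 23), (3, 16)], [(26, 39), (29, 33)], none⟩,
     ⟨19, -61, [(0, 22), (3, 16)], [(26, 39), (29, 33)], none⟩,
     ⟨0, 1, [(0, 22), (3, 16)], [(26, 39), (29, 32)], none⟩], 177, -567⟩,
  ⟨⟨62, 19, 36, 11⟩, -31, true, 16, 33, [39, 32], [22, 16],
    [⟨19, -62, [(0, 23), (4, 16)], [(27, 39), (30, 33)], none⟩,
     ⟨8, -26, [(0, 23), (4, 16)], [(27, 39), (30, 32)], none⟩,
     ⟨1, -3, [(0, 23), (4, 16)], [(26, 40), (30, 32)], none⟩,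
     ⟨20, -65, [(0, 23), (3, 17)], [(26, 40), (30, 32)], none⟩,
     ⟨9, -29, [(0, 23), (3, 17)], [(26, 39), (30, 32)], none⟩,
     ⟨6, -19, [(0, 23), (3, 17)], [(26, 39), (29, 33)], none⟩,
     ⟨7, -22, [(0, 23), (3, 16)], [(26, 39), (29, 33)], none⟩,
     ⟨0, 1, [(0, 22), (3, 16)], [(26, 39), (29, 33)], none⟩], 158, -505⟩,
  ⟨⟨36, 11, 59, 18⟩, -31, true, 16, 33, [39, 32], [22, 16],
    [⟨8, -26, [(0, 23), (4, 16)], [(27, 39), (30, 33)], none⟩,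
     ⟨19, -62, [(0, 23), (4, 16)], [(26, 40), (30, 33)], none⟩,
     ⟨1, -3, [(0, 23), (4, 16)], [(26, 40), (30, 32)], none⟩,
     ⟨9, -29, [(0, 23), (3, 17)], [(26, 40), (30, 32)], none⟩,
     ⟨20, -65, [(0, 23), (3, 17)], [(26, 40), (29, 33)], none⟩,
     ⟨6, -19, [(0, 23), (3, 17)], [(26, 39), (29, 33)], none⟩,
     ⟨7, -22, [(0, 23), (3, 16)], [(26, 39), (29, 33)], none⟩,
     ⟨0, 1, [(0, 22), (3, 16)], [(26, 39), (29, 33)], none⟩], 169, -541⟩,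
  ⟨⟨59, 18, 23, 7⟩, -31, true, 16, 33, [39, 32], [22, 16],
    [⟨8, -26, [(0, 23), (4, 16)], [(27, 39), (30, 33)], none⟩,
     ⟨1, -3, [(0, 23), (4, 16)], [(26, 40), (30, 33)], none⟩,
     ⟨19, -62, [(0, 23), (3, 17)], [(26, 40), (30, 33)], none⟩,
     ⟨9, -29, [(0, 23), (3, 17)], [(26, 40), (30, 32)], none⟩,
     ⟨20, -65, [(0, 23), (3, 17)], [(26, 40), (29, 33)], none⟩,
     ⟨6, -19, [(0, 23), (3, 17)], [(26, 39), (29, 33)], none⟩,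
     ⟨7, -22, [(0, 23), (3, 16)], [(26, 39), (29, 33)], none⟩,
     ⟨0, 1, [(0, 22), (3, 16)], [(26, 39), (29, 33)], none⟩], 151, -482⟩,
  ⟨⟨23, 7, 33, 10⟩, -30, true, 16, 32, [39, 32], [23, 16],
    [⟨7, -23, [(0, 24), (4, 16)], [(27, 39), (30, 33)], none⟩,
     ⟨1, -3, [(0, 23), (4, 16)], [(27, 39), (30, 33)], none⟩,
     ⟨8, -26, [(0, 23), (3, 17)], [(27, 39), (30, 33)], none⟩,
     ⟨19, -62, [(0, 23), (3, 17)], [(26, 40), (30, 33)], none⟩,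
     ⟨9, -29, [(0, 23), (3, 17)], [(26, 40), (30, 32)], none⟩,
     ⟨6, -19, [(0, 23), (3, 17)], [(26, 40), (29, 33)], none⟩,
     ⟨20, -65, [(0, 23), (3, 16)], [(26, 40), (29, 33)], none⟩,
     ⟨0, 1, [(0, 23), (3, 16)], [(26, 39), (29, 33)], none⟩], 184, -574⟩,
  ⟨⟨33, 10, 43, 13⟩, -31, true, 16, 33, [39, 33], [23, 16],
    [⟨20, -66, [(0, 24), (4, 16)], [(27, 40), (30, 33)], none⟩,
     ⟨7, -23, [(0, 24), (4, 16)], [(27, 39), (30, 33)], none⟩,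
     ⟨1, -3, [(0, 23), (4, 16)], [(27, 39), (30, 33)], none⟩,
     ⟨8, -26, [(0, 23), (3, 17)], [(27, 39), (30, 33)], none⟩,
     ⟨9, -29, [(0, 23), (3, 17)], [(26, 40), (30, 33)], none⟩,
     ⟨19, -62, [(0, 23), (3, 17)], [(26, 40), (29, 34)], none⟩,
     ⟨6, -19, [(0, 23), (3, 17)], [(26, 40), (29, 33)], none⟩,
     ⟨0, 1, [(0, 23), (3, 16)], [(26, 40), (29, 33)], none⟩], 169, -541⟩,
  ⟨⟨43, 13, 63, 19⟩, -31, true, 16, 33, [39, 33], [23, 16],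
    [⟨7, -23, [(0, 24), (4, 16)], [(27, 40), (30, 33)], none⟩,
     ⟨20, -66, [(0, 23), (4, 16)], [(27, 40), (30, 33)], none⟩,
     ⟨1, -3, [(0, 23), (4, 16)], [(27, 39), (30, 33)], none⟩,
     ⟨8, -26, [(0, 23), (3, 17)], [(27, 39), (30, 33)], none⟩,
     ⟨9, -29, [(0, 23), (3, 17)], [(26, 40), (30, 33)], none⟩,
     ⟨6, -19, [(0, 23), (3, 17)], [(26, 40), (29, 34)], none⟩,
     ⟨19, -62, [(0, 23), (3, 16)], [(26, 40), (29, 34)], none⟩,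
     ⟨0, 1, [(0, 23), (3, 16)], [(26, 40), (29, 33)], none⟩], 182, -584⟩,
  ⟨⟨63, 19, 10, 3⟩, -31, true, 16, 33, [39, 33], [23, 16],
    [⟨19, -63, [(0, 24), (4, 16)], [(27, 40), (30, 34)], none⟩,
     ⟨7, -23, [(0, 24), (4, 16)], [(27, 40), (30, 33)], none⟩,
     ⟨1, -3, [(0, 23), (4, 16)], [(27, 40), (30, 33)], none⟩,
     ⟨20, -66, [(0, 23), (3, 17)], [(27, 40), (30, 33)], none⟩,
     ⟨8, -26, [(0, 23), (3, 17)], [(27, 39), (30, 33)], none⟩,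
     ⟨9, -29, [(0, 23), (3, 17)], [(26, 40), (30, 33)], none⟩,
     ⟨6, -19, [(0, 23), (3, 17)], [(26, 40), (29, 34)], none⟩,
     ⟨0, 1, [(0, 23), (3, 16)], [(26, 40), (29, 34)], none⟩], 163, -521⟩,
  ⟨⟨10, 3, 67, 20⟩, -32, true, 16, 34, [40, 33], [23, 16],
    [⟨6, -20, [(0, 24), (4, 17)], [(27, 40), (31, 33)], none⟩,
     ⟨9, -30, [(0, 24), (4, 16)], [(27, 40), (31, 33)], none⟩,
     ⟨1, -3, [(0, 24), (4, 16)], [(27, 40), (30, 34)], none⟩,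
     ⟨7, -23, [(0, 24), (3, 17)], [(27, 40), (30, 34)], none⟩,
     ⟨19, -63, [(0, 23), (3, 17)], [(27, 40), (30, 34)], none⟩,
     ⟨8, -26, [(0, 23), (3, 17)], [(27, 40), (30, 33)], none⟩,
     ⟨20, -66, [(0, 23), (3, 17)], [(26, 41), (30, 33)], none⟩,
     ⟨0, 1, [(0, 23), (3, 17)], [(26, 40), (30, 33)], none⟩], 176, -581⟩,
  ⟨⟨67, 20, 47, 14⟩, -32, true, 16, 34, [40, 33], [23, 16],
    [⟨20, -67, [(0, 24), (4, 17)], [(27, 41), (31, 33)], none⟩,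
     ⟨6, -20, [(0, 24), (4, 17)], [(27, 40), (31, 33)], none⟩,
     ⟨9, -30, [(0, 24), (4, 16)], [(27, 40), (31, 33)], none⟩,
     ⟨1, -3, [(0, 24), (4, 16)], [(27, 40), (30, 34)], none⟩,
     ⟨7, -23, [(0, 24), (3, 17)], [(27, 40), (30, 34)], none⟩,
     ⟨19, -63, [(0, 23), (3, 17)], [(27, 40), (30, 34)], none⟩,
     ⟨8, -26, [(0, 23), (3, 17)], [(27, 40), (30, 33)], none⟩,
     ⟨0, 1, [(0, 23), (3, 17)], [(26, 41), (30, 33)], none⟩], 156, -514⟩,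
  ⟨⟨47, 14, 37, 11⟩, -32, true, 16, 34, [40, 33], [23, 16],
    [⟨6, -20, [(0, 24), (4, 17)], [(27, 41), (31, 33)], none⟩,
     ⟨20, -67, [(0, 24), (4, 16)], [(27, 41), (31, 33)], none⟩,
     ⟨9, -30, [(0, 24), (4, 16)], [(27, 40), (31, 33)], none⟩,
     ⟨1, -3, [(0, 24), (4, 16)], [(27, 40), (30, 34)], none⟩,
     ⟨7, -23, [(0, 24), (3, 17)], [(27, 40), (30, 34)], none⟩,
     ⟨19, -63, [(0, 23), (3, 17)], [(27, 40), (30, 34)], none⟩,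
     ⟨8, -26, [(0, 23), (3, 17)], [(27, 40), (30, 33)], none⟩,
     ⟨0, 1, [(0, 23), (3, 17)], [(26, 41), (30, 33)], none⟩], 170, -561⟩,
  ⟨⟨37, 11, 64, 19⟩, -32, true, 16, 34, [40, 33], [23, 16],
    [⟨6, -20, [(0, 24), (4, 17)], [(27, 41), (31, 33)], none⟩,
     ⟨9, -30, [(0, 24), (4, 16)], [(27, 41), (31, 33)], none⟩,
     ⟨20, -67, [(0, 24), (4, 16)], [(27, 41), (30, 34)], none⟩,
     ⟨1, -3, [(0, 24), (4, 16)], [(27, 40), (30, 34)], none⟩,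
     ⟨7, -23, [(0, 24), (3, 17)], [(27, 40), (30, 34)], none⟩,
     ⟨8, -26, [(0, 23), (3, 17)], [(27, 40), (30, 34)], none⟩,
     ⟨19, -63, [(0, 23), (3, 17)], [(26, 41), (30, 34)], none⟩,
     ⟨0, 1, [(0, 23), (3, 17)], [(26, 41), (30, 33)], none⟩], 170, -561⟩,
  ⟨⟨64, 19, 27, 8⟩, -32, true, 16, 34, [40, 33], [23, 16],
    [⟨19, -64, [(0, 24), (4, 17)], [(27, 41), (31, 34)], none⟩,
     ⟨6, -20, [(0, 24), (4, 17)], [(27, 41), (31, 33)], none⟩,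
     ⟨9, -30, [(0, 24), (4, 16)], [(27, 41), (31, 33)], none⟩,
     ⟨1, -3, [(0, 24), (4, 16)], [(27, 41), (30, 34)], none⟩,
     ⟨20, -67, [(0, 24), (3, 17)], [(27, 41), (30, 34)], none⟩,
     ⟨7, -23, [(0, 24), (3, 17)], [(27, 40), (30, 34)], none⟩,
     ⟨8, -26, [(0, 23), (3, 17)], [(27, 40), (30, 34)], none⟩,
     ⟨0, 1, [(0, 23), (3, 17)], [(26, 41), (30, 34)], none⟩], 170, -561⟩,
  ⟨⟨27, 8, 44, 13⟩, -32, true, 16, 34, [40, 33], [23, 16],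
    [⟨8, -27, [(0, 24), (4, 17)], [(28, 40), (31, 34)], none⟩,
     ⟨19, -64, [(0, 24), (4, 17)], [(27, 41), (31, 34)], none⟩,
     ⟨6, -20, [(0, 24), (4, 17)], [(27, 41), (31, 33)], none⟩,
     ⟨1, -3, [(0, 24), (4, 16)], [(27, 41), (31, 33)], none⟩,
     ⟨9, -30, [(0, 24), (3, 17)], [(27, 41), (31, 33)], none⟩,
     ⟨20, -67, [(0, 24), (3, 17)], [(27, 41), (30, 34)], none⟩,
     ⟨7, -23, [(0, 24), (3, 17)], [(27, 40), (30, 34)], none⟩,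
     ⟨0, 1, [(0, 23), (3, 17)], [(27, 40), (30, 34)], none⟩], 170, -561⟩,
  ⟨⟨44, 13, 61, 18⟩, -32, true, 16, 34, [40, 33], [23, 16],
    [⟨8, -27, [(0, 24), (4, 17)], [(28, 40), (31, 34)], none⟩,
     ⟨6, -20, [(0, 24), (4, 17)], [(27, 41), (31, 34)], none⟩,
     ⟨19, -64, [(0, 24), (4, 16)], [(27, 41), (31, 34)], none⟩,
     ⟨1, -3, [(0, 24), (4, 16)], [(27, 41), (31, 33)], none⟩,
     ⟨9, -30, [(0, 24), (3, 17)], [(27, 41), (31, 33)], none⟩,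
     ⟨7, -23, [(0, 24), (3, 17)], [(27, 41), (30, 34)], none⟩,
     ⟨20, -67, [(0, 23), (3, 17)], [(27, 41), (30, 34)], none⟩,
     ⟨0, 1, [(0, 23), (3, 17)], [(27, 40), (30, 34)], none⟩], 170, -561⟩,
  ⟨⟨61, 18, 17, 5⟩, -32, true, 16, 34, [40, 33], [23, 16],
    [⟨8, -27, [(0, 24), (4, 17)], [(28, 40), (31, 34)], none⟩,
     ⟨6, -20, [(0, 24), (4, 17)], [(27, 41), (31, 34)], none⟩,
     ⟨1, -3, [(0, 24), (4, 16)], [(27, 41), (31, 34)], none⟩,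
     ⟨19, -64, [(0, 24), (3, 17)], [(27, 41), (31, 34)], none⟩,
     ⟨9, -30, [(0, 24), (3, 17)], [(27, 41), (31, 33)], none⟩,
     ⟨7, -23, [(0, 24), (3, 17)], [(27, 41), (30, 34)], none⟩,
     ⟨20, -67, [(0, 23), (3, 17)], [(27, 41), (30, 34)], none⟩,
     ⟨0, 1, [(0, 23), (3, 17)], [(27, 40), (30, 34)], none⟩], 170, -561⟩,
  ⟨⟨17, 5, 41, 12⟩, -32, true, 17, 34, [40, 34], [23, 17],
    [⟨20, -68, [(0, 24), (4, 17)], [(28, 41), (31, 34)], none⟩,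
     ⟨8, -27, [(0, 24), (4, 17)], [(28, 40), (31, 34)], none⟩,
     ⟨1, -3, [(0, 24), (4, 17)], [(27, 41), (31, 34)], none⟩,
     ⟨6, -20, [(0, 24), (3, 18)], [(27, 41), (31, 34)], none⟩,
     ⟨9, -30, [(0, 24), (3, 17)], [(27, 41), (31, 34)], none⟩,
     ⟨19, -64, [(0, 24), (3, 17)], [(27, 41), (30, 35)], none⟩,
     ⟨7, -23, [(0, 24), (3, 17)], [(27, 41), (30, 34)], none⟩,
     ⟨0, 1, [(0, 23), (3, 17)], [(27, 41), (30, 34)], none⟩], 180, -595⟩,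
  ⟨⟨41, 12, 65, 19⟩, -33, true, 17, 35, [41, 34], [23, 17],
    [⟨8, -27, [(0, 24), (4, 17)], [(28, 41), (31, 34)], none⟩,
     ⟨20, -68, [(0, 24), (4, 17)], [(27, 42), (31, 34)], none⟩,
     ⟨1, -3, [(0, 24), (4, 17)], [(27, 41), (31, 34)], none⟩,
     ⟨6, -20, [(0, 24), (3, 18)], [(27, 41), (31, 34)], none⟩,
     ⟨9, -30, [(0, 24), (3, 17)], [(27, 41), (31, 34)], none⟩,
     ⟨7, -23, [(0, 24), (3, 17)], [(27, 41), (30, 35)], none⟩,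
     ⟨19, -64, [(0, 23), (3, 17)], [(27, 41), (30, 35)], none⟩,
     ⟨0, 1, [(0, 23), (3, 17)], [(27, 41), (30, 34)], none⟩], 187, -636⟩,
  ⟨⟨65, 19, 24, 7⟩, -33, true, 17, 35, [41, 34], [23, 17],
    [⟨19, -65, [(0, 24), (4, 17)], [(28, 41), (31, 35)], none⟩,
     ⟨8, -27, [(0, 24), (4, 17)], [(28, 41), (31, 34)], none⟩,
     ⟨1, -3, [(0, 24), (4, 17)], [(27, 42), (31, 34)], none⟩,
     ⟨20, -68, [(0, 24), (3, 18)], [(27, 42), (31, 34)], none⟩,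
     ⟨6, -20, [(0, 24), (3, 18)], [(27, 41), (31, 34)], none⟩,
     ⟨9, -30, [(0, 24), (3, 17)], [(27, 41), (31, 34)], none⟩,
     ⟨7, -23, [(0, 24), (3, 17)], [(27, 41), (30, 35)], none⟩,
     ⟨0, 1, [(0, 23), (3, 17)], [(27, 41), (30, 35)], none⟩], 168, -571⟩,
  ⟨⟨24, 7, 31, 9⟩, -32, true, 17, 34, [41, 34], [24, 17],
    [⟨7, -24, [(0, 25), (4, 17)], [(28, 41), (31, 35)], none⟩,
     ⟨19, -65, [(0, 24), (4, 17)], [(28, 41), (31, 35)], none⟩,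
     ⟨1, -3, [(0, 24), (4, 17)], [(28, 41), (31, 34)], none⟩,
     ⟨8, -27, [(0, 24), (3, 18)], [(28, 41), (31, 34)], none⟩,
     ⟨6, -20, [(0, 24), (3, 18)], [(27, 42), (31, 34)], none⟩,
     ⟨20, -68, [(0, 24), (3, 17)], [(27, 42), (31, 34)], none⟩,
     ⟨9, -30, [(0, 24), (3, 17)], [(27, 41), (31, 34)], none⟩,
     ⟨0, 1, [(0, 24), (3, 17)], [(27, 41), (30, 35)], none⟩], 180, -595⟩,
  ⟨⟨31, 9, 69, 20⟩, -32, true, 17, 34, [41, 34], [24, 17],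
    [⟨9, -31, [(0, 25), (4, 17)], [(28, 41), (32, 34)], none⟩,
     ⟨7, -24, [(0, 25), (4, 17)], [(28, 41), (31, 35)], none⟩,
     ⟨1, -3, [(0, 24), (4, 17)], [(28, 41), (31, 35)], none⟩,
     ⟨19, -65, [(0, 24), (3, 18)], [(28, 41), (31, 35)], none⟩,
     ⟨8, -27, [(0, 24), (3, 18)], [(28, 41), (31, 34)], none⟩,
     ⟨6, -20, [(0, 24), (3, 18)], [(27, 42), (31, 34)], none⟩,
     ⟨20, -68, [(0, 24), (3, 17)], [(27, 42), (31, 34)], none⟩,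
     ⟨0, 1, [(0, 24), (3, 17)], [(27, 41), (31, 34)], none⟩], 180, -595⟩,
  ⟨⟨69, 20, 38, 11⟩, -32, true, 17, 34, [41, 34], [24, 17],
    [⟨20, -69, [(0, 25), (4, 17)], [(28, 42), (32, 34)], none⟩,
     ⟨9, -31, [(0, 25), (4, 17)], [(28, 41), (32, 34)], none⟩,
     ⟨7, -24, [(0, 25), (4, 17)], [(28, 41), (31, 35)], none⟩,
     ⟨1, -3, [(0, 24), (4, 17)], [(28, 41), (31, 35)], none⟩,
     ⟨19, -65, [(0, 24), (3, 18)], [(28, 41), (31, 35)], none⟩,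
     ⟨8, -27, [(0, 24), (3, 18)], [(28, 41), (31, 34)], none⟩,
     ⟨6, -20, [(0, 24), (3, 18)], [(27, 42), (31, 34)], none⟩,
     ⟨0, 1, [(0, 24), (3, 17)], [(27, 42), (31, 34)], none⟩], 180, -595⟩,
  ⟨⟨38, 11, 45, 13⟩, -32, true, 17, 34, [41, 34], [24, 17],
    [⟨9, -31, [(0, 25), (4, 17)], [(28, 42), (32, 34)], none⟩,
     ⟨20, -69, [(0, 25), (4, 17)], [(28, 42), (31, 35)], none⟩,
     ⟨7, -24, [(0, 25), (4, 17)], [(28, 41), (31, 35)], none⟩,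
     ⟨1, -3, [(0, 24), (4, 17)], [(28, 41), (31, 35)], none⟩,
     ⟨8, -27, [(0, 24), (3, 18)], [(28, 41), (31, 35)], none⟩,
     ⟨19, -65, [(0, 24), (3, 18)], [(27, 42), (31, 35)], none⟩,
     ⟨6, -20, [(0, 24), (3, 18)], [(27, 42), (31, 34)], none⟩,
     ⟨0, 1, [(0, 24), (3, 17)], [(27, 42), (31, 34)], none⟩], 180, -595⟩,
  ⟨⟨45, 13, 66, 19⟩, -32, true, 17, 34, [41, 34], [24, 17],
    [⟨9, -31, [(0, 25), (4, 17)], [(28, 42), (32, 34)], none⟩,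
     ⟨7, -24, [(0, 25), (4, 17)], [(28, 42), (31, 35)], none⟩,
     ⟨20, -69, [(0, 24), (4, 17)], [(28, 42), (31, 35)], none⟩,
     ⟨1, -3, [(0, 24), (4, 17)], [(28, 41), (31, 35)], none⟩,
     ⟨8, -27, [(0, 24), (3, 18)], [(28, 41), (31, 35)], none⟩,
     ⟨6, -20, [(0, 24), (3, 18)], [(27, 42), (31, 35)], none⟩,
     ⟨19, -65, [(0, 24), (3, 17)], [(27, 42), (31, 35)], none⟩,
     ⟨0, 1, [(0, 24), (3, 17)], [(27, 42), (31, 34)], none⟩], 206, -685⟩,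
  ⟨⟨66, 19, 7, 2⟩, -32, true, 17, 34, [41, 34], [24, 17],
    [⟨19, -66, [(0, 25), (4, 17)], [(28, 42), (32, 35)], none⟩,
     ⟨9, -31, [(0, 25), (4, 17)], [(28, 42), (32, 34)], none⟩,
     ⟨7, -24, [(0, 25), (4, 17)], [(28, 42), (31, 35)], none⟩,
     ⟨1, -3, [(0, 24), (4, 17)], [(28, 42), (31, 35)], none⟩,
     ⟨20, -69, [(0, 24), (3, 18)], [(28, 42), (31, 35)], none⟩,
     ⟨8, -27, [(0, 24), (3, 18)], [(28, 41), (31, 35)], none⟩,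
     ⟨6, -20, [(0, 24), (3, 18)], [(27, 42), (31, 35)], none⟩,
     ⟨0, 1, [(0, 24), (3, 17)], [(27, 42), (31, 35)], none⟩], 168, -553⟩,
  ⟨⟨7, 2, 67, 19⟩, -34, true, 17, 36, [42, 35], [24, 17],
    [⟨6, -21, [(0, 25), (4, 18)], [(29, 42), (32, 35)], none⟩,
     ⟨8, -28, [(0, 25), (4, 17)], [(29, 42), (32, 35)], none⟩,
     ⟨20, -70, [(0, 25), (4, 17)], [(28, 43), (32, 35)], none⟩,
     ⟨1, -3, [(0, 25), (4, 17)], [(28, 42), (32, 35)], none⟩,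
     ⟨7, -24, [(0, 25), (3, 18)], [(28, 42), (32, 35)], none⟩,
     ⟨9, -31, [(0, 24), (3, 18)], [(28, 42), (32, 35)], none⟩,
     ⟨19, -66, [(0, 24), (3, 18)], [(28, 42), (31, 36)], none⟩,
     ⟨0, 1, [(0, 24), (3, 18)], [(28, 42), (31, 35)], none⟩], 192, -672⟩,
  ⟨⟨67, 19, 46, 13⟩, -34, true, 17, 36, [42, 35], [24, 17],
    [⟨19, -67, [(0, 25), (4, 18)], [(29, 42), (32, 36)], none⟩,
     ⟨6, -21, [(0, 25), (4, 18)], [(29, 42), (32, 35)], none⟩,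
     ⟨8, -28, [(0, 25), (4, 17)], [(29, 42), (32, 35)], none⟩,
     ⟨1, -3, [(0, 25), (4, 17)], [(28, 43), (32, 35)], none⟩,
     ⟨20, -70, [(0, 25), (3, 18)], [(28, 43), (32, 35)], none⟩,
     ⟨7, -24, [(0, 25), (3, 18)], [(28, 42), (32, 35)], none⟩,
     ⟨9, -31, [(0, 24), (3, 18)], [(28, 42), (32, 35)], none⟩,
     ⟨0, 1, [(0, 24), (3, 18)], [(28, 42), (31, 36)], none⟩], 154, -538⟩,
  ⟨⟨46, 13, 39, 11⟩, -34, true, 17, 36, [42, 35], [24, 17],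
    [⟨6, -21, [(0, 25), (4, 18)], [(29, 42), (32, 36)], none⟩,
     ⟨19, -67, [(0, 25), (4, 17)], [(29, 42), (32, 36)], none⟩,
     ⟨8, -28, [(0, 25), (4, 17)], [(29, 42), (32, 35)], none⟩,
     ⟨1, -3, [(0, 25), (4, 17)], [(28, 43), (32, 35)], none⟩,
     ⟨7, -24, [(0, 25), (3, 18)], [(28, 43), (32, 35)], none⟩,
     ⟨20, -70, [(0, 24), (3, 18)], [(28, 43), (32, 35)], none⟩,
     ⟨9, -31, [(0, 24), (3, 18)], [(28, 42), (32, 35)], none⟩,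
     ⟨0, 1, [(0, 24), (3, 18)], [(28, 42), (31, 36)], none⟩], 180, -630⟩,
  ⟨⟨39, 11, 71, 20⟩, -34, true, 17, 36, [42, 35], [24, 17],
    [⟨6, -21, [(0, 25), (4, 18)], [(29, 42), (32, 36)], none⟩,
     ⟨8, -28, [(0, 25), (4, 17)], [(29, 42), (32, 36)], none⟩,
     ⟨19, -67, [(0, 25), (4, 17)], [(28, 43), (32, 36)], none⟩,
     ⟨1, -3, [(0, 25), (4, 17)], [(28, 43), (32, 35)], none⟩,
     ⟨7, -24, [(0, 25), (3, 18)], [(28, 43), (32, 35)], none⟩,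
     ⟨9, -31, [(0, 24), (3, 18)], [(28, 43), (32, 35)], none⟩,
     ⟨20, -70, [(0, 24), (3, 18)], [(28, 43), (31, 36)], none⟩,
     ⟨0, 1, [(0, 24), (3, 18)], [(28, 42), (31, 36)], none⟩], 180, -630⟩,
  ⟨⟨71, 20, 32, 9⟩, -34, true, 17, 36, [42, 35], [24, 17],
    [⟨20, -71, [(0, 25), (4, 18)], [(29, 43), (32, 36)], none⟩,
     ⟨6, -21, [(0, 25), (4, 18)], [(29, 42), (32, 36)], none⟩,
     ⟨8, -28, [(0, 25), (4, 17)], [(29, 42), (32, 36)], none⟩,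
     ⟨19, -67, [(0, 25), (4, 17)], [(28, 43), (32, 36)], none⟩,
     ⟨1, -3, [(0, 25), (4, 17)], [(28, 43), (32, 35)], none⟩,
     ⟨7, -24, [(0, 25), (3, 18)], [(28, 43), (32, 35)], none⟩,
     ⟨9, -31, [(0, 24), (3, 18)], [(28, 43), (32, 35)], none⟩,
     ⟨0, 1, [(0, 24), (3, 18)], [(28, 43), (31, 36)], none⟩], 180, -630⟩,
  ⟨⟨32, 9, 25, 7⟩, -34, true, 17, 36, [42, 35], [24, 17],
    [⟨9, -32, [(0, 25), (4, 18)], [(29, 43), (33, 35)], none⟩,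
     ⟨20, -71, [(0, 25), (4, 18)], [(29, 43), (32, 36)], none⟩,
     ⟨6, -21, [(0, 25), (4, 18)], [(29, 42), (32, 36)], none⟩,
     ⟨8, -28, [(0, 25), (4, 17)], [(29, 42), (32, 36)], none⟩,
     ⟨1, -3, [(0, 25), (4, 17)], [(28, 43), (32, 36)], none⟩,
     ⟨19, -67, [(0, 25), (3, 18)], [(28, 43), (32, 36)], none⟩,
     ⟨7, -24, [(0, 25), (3, 18)], [(28, 43), (32, 35)], none⟩,
     ⟨0, 1, [(0, 24), (3, 18)], [(28, 43), (32, 35)], none⟩], 180, -630⟩,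
  ⟨⟨25, 7, 68, 19⟩, -33, true, 17, 35, [42, 35], [25, 17],
    [⟨7, -25, [(0, 26), (4, 18)], [(29, 43), (33, 35)], none⟩,
     ⟨9, -32, [(0, 25), (4, 18)], [(29, 43), (33, 35)], none⟩,
     ⟨6, -21, [(0, 25), (4, 18)], [(29, 43), (32, 36)], none⟩,
     ⟨20, -71, [(0, 25), (4, 17)], [(29, 43), (32, 36)], none⟩,
     ⟨1, -3, [(0, 25), (4, 17)], [(29, 42), (32, 36)], none⟩,
     ⟨8, -28, [(0, 25), (3, 18)], [(29, 42), (32, 36)], none⟩,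
     ⟨19, -67, [(0, 25), (3, 18)], [(28, 43), (32, 36)], none⟩,
     ⟨0, 1, [(0, 25), (3, 18)], [(28, 43), (32, 35)], none⟩], 192, -655⟩,
  ⟨⟨68, 19, 43, 12⟩, -33, true, 17, 35, [42, 35], [25, 17],
    [⟨19, -68, [(0, 26), (4, 18)], [(29, 43), (33, 36)], none⟩,
     ⟨7, -25, [(0, 26), (4, 18)], [(29, 43), (33, 35)], none⟩,
     ⟨9, -32, [(0, 25), (4, 18)], [(29, 43), (33, 35)], none⟩,
     ⟨6, -21, [(0, 25), (4, 18)], [(29, 43), (32, 36)], none⟩,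
     ⟨1, -3, [(0, 25), (4, 17)], [(29, 43), (32, 36)], none⟩,
     ⟨20, -71, [(0, 25), (3, 18)], [(29, 43), (32, 36)], none⟩,
     ⟨8, -28, [(0, 25), (3, 18)], [(29, 42), (32, 36)], none⟩,
     ⟨0, 1, [(0, 25), (3, 18)], [(28, 43), (32, 36)], none⟩], 173, -587⟩,
  ⟨⟨43, 12, 18, 5⟩, -34, true, 17, 36, [43, 35], [25, 17],
    [⟨7, -25, [(0, 26), (4, 18)], [(29, 43), (33, 36)], none⟩,
     ⟨19, -68, [(0, 25), (4, 18)], [(29, 43), (33, 36)], none⟩,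
     ⟨9, -32, [(0, 25), (4, 18)], [(29, 43), (33, 35)], none⟩,
     ⟨6, -21, [(0, 25), (4, 18)], [(29, 43), (32, 36)], none⟩,
     ⟨1, -3, [(0, 25), (4, 17)], [(29, 43), (32, 36)], none⟩,
     ⟨8, -28, [(0, 25), (3, 18)], [(29, 43), (32, 36)], none⟩,
     ⟨20, -71, [(0, 25), (3, 18)], [(28, 44), (32, 36)], none⟩,
     ⟨0, 1, [(0, 25), (3, 18)], [(28, 43), (32, 36)], none⟩], 180, -630⟩,
  ⟨⟨18, 5, 65, 18⟩, -34, true, 18, 36, [43, 36], [25, 18],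
    [⟨20, -72, [(0, 26), (4, 18)], [(29, 44), (33, 36)], none⟩,
     ⟨7, -25, [(0, 26), (4, 18)], [(29, 43), (33, 36)], none⟩,
     ⟨9, -32, [(0, 25), (4, 18)], [(29, 43), (33, 36)], none⟩,
     ⟨19, -68, [(0, 25), (4, 18)], [(29, 43), (32, 37)], none⟩,
     ⟨1, -3, [(0, 25), (4, 18)], [(29, 43), (32, 36)], none⟩,
     ⟨6, -21, [(0, 25), (3, 19)], [(29, 43), (32, 36)], none⟩,
     ⟨8, -28, [(0, 25), (3, 18)], [(29, 43), (32, 36)], none⟩,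
     ⟨0, 1, [(0, 25), (3, 18)], [(28, 44), (32, 36)], none⟩], 190, -666⟩,
  ⟨⟨65, 18, 47, 13⟩, -34, true, 18, 36, [43, 36], [25, 18],
    [⟨20, -72, [(0, 26), (4, 18)], [(29, 44), (33, 36)], none⟩,
     ⟨7, -25, [(0, 26), (4, 18)], [(29, 43), (33, 36)], none⟩,
     ⟨9, -32, [(0, 25), (4, 18)], [(29, 43), (33, 36)], none⟩,
     ⟨1, -3, [(0, 25), (4, 18)], [(29, 43), (32, 37)], none⟩,
     ⟨19, -68, [(0, 25), (3, 19)], [(29, 43), (32, 37)], none⟩,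
     ⟨6, -21, [(0, 25), (3, 19)], [(29, 43), (32, 36)], none⟩,
     ⟨8, -28, [(0, 25), (3, 18)], [(29, 43), (32, 36)], none⟩,
     ⟨0, 1, [(0, 25), (3, 18)], [(28, 44), (32, 36)], none⟩], 190, -666⟩,
  ⟨⟨47, 13, 29, 8⟩, -34, true, 18, 36, [43, 36], [25, 18],
    [⟨7, -25, [(0, 26), (4, 18)], [(29, 44), (33, 36)], none⟩,
     ⟨20, -72, [(0, 25), (4, 18)], [(29, 44), (33, 36)], none⟩,
     ⟨9, -32, [(0, 25), (4, 18)], [(29, 43), (33, 36)], none⟩,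
     ⟨1, -3, [(0, 25), (4, 18)], [(29, 43), (32, 37)], none⟩,
     ⟨6, -21, [(0, 25), (3, 19)], [(29, 43), (32, 37)], none⟩,
     ⟨19, -68, [(0, 25), (3, 18)], [(29, 43), (32, 37)], none⟩,
     ⟨8, -28, [(0, 25), (3, 18)], [(29, 43), (32, 36)], none⟩,
     ⟨0, 1, [(0, 25), (3, 18)], [(28, 44), (32, 36)], none⟩], 190, -666⟩,
  ⟨⟨29, 8, 69, 19⟩, -34, true, 18, 36, [43, 36], [25, 18],
    [⟨8, -29, [(0, 26), (4, 18)], [(30, 43), (33, 36)], none⟩,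
     ⟨7, -25, [(0, 26), (4, 18)], [(29, 44), (33, 36)], none⟩,
     ⟨20, -72, [(0, 25), (4, 18)], [(29, 44), (33, 36)], none⟩,
     ⟨1, -3, [(0, 25), (4, 18)], [(29, 43), (33, 36)], none⟩,
     ⟨9, -32, [(0, 25), (3, 19)], [(29, 43), (33, 36)], none⟩,
     ⟨6, -21, [(0, 25), (3, 19)], [(29, 43), (32, 37)], none⟩,
     ⟨19, -68, [(0, 25), (3, 18)], [(29, 43), (32, 37)], none⟩,
     ⟨0, 1, [(0, 25), (3, 18)], [(29, 43), (32, 36)], none⟩], 190, -666⟩]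

theorem recs6_chk : recs6.all (fun r => r.chk par 3 1000) = true := by decide +kernel

/-- cells -/
def recs7 : List Rec := [
  ⟨⟨69, 19, 40, 11⟩, -34, true, 18, 36, [43, 36], [25, 18],
    [⟨19, -69, [(0, 26), (4, 18)], [(30, 43), (33, 37)], none⟩,
     ⟨8, -29, [(0, 26), (4, 18)], [(30, 43), (33, 36)], none⟩,
     ⟨7, -25, [(0, 26), (4, 18)], [(29, 44), (33, 36)], none⟩,
     ⟨1, -3, [(0, 25), (4, 18)], [(29, 44), (33, 36)], none⟩,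
     ⟨20, -72, [(0, 25), (3, 19)], [(29, 44), (33, 36)], none⟩,
     ⟨9, -32, [(0, 25), (3, 19)], [(29, 43), (33, 36)], none⟩,
     ⟨6, -21, [(0, 25), (3, 19)], [(29, 43), (32, 37)], none⟩,
     ⟨0, 1, [(0, 25), (3, 18)], [(29, 43), (32, 37)], none⟩], 190, -666⟩,
  ⟨⟨40, 11, 51, 14⟩, -34, true, 18, 36, [43, 36], [25, 18],
    [⟨8, -29, [(0, 26), (4, 18)], [(30, 43), (33, 37)], none⟩,
     ⟨19, -69, [(0, 26), (4, 18)], [(29, 44), (33, 37)], none⟩,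
     ⟨7, -25, [(0, 26), (4, 18)], [(29, 44), (33, 36)], none⟩,
     ⟨1, -3, [(0, 25), (4, 18)], [(29, 44), (33, 36)], none⟩,
     ⟨9, -32, [(0, 25), (3, 19)], [(29, 44), (33, 36)], none⟩,
     ⟨20, -72, [(0, 25), (3, 19)], [(29, 44), (32, 37)], none⟩,
     ⟨6, -21, [(0, 25), (3, 19)], [(29, 43), (32, 37)], none⟩,
     ⟨0, 1, [(0, 25), (3, 18)], [(29, 43), (32, 37)], none⟩], 190, -666⟩,
  ⟨⟨51, 14, 73, 20⟩, -34, true, 18, 36, [43, 36], [25, 18],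
    [⟨8, -29, [(0, 26), (4, 18)], [(30, 43), (33, 37)], none⟩,
     ⟨19, -69, [(0, 26), (4, 18)], [(29, 44), (33, 37)], none⟩,
     ⟨7, -25, [(0, 26), (4, 18)], [(29, 44), (33, 36)], none⟩,
     ⟨1, -3, [(0, 25), (4, 18)], [(29, 44), (33, 36)], none⟩,
     ⟨9, -32, [(0, 25), (3, 19)], [(29, 44), (33, 36)], none⟩,
     ⟨6, -21, [(0, 25), (3, 19)], [(29, 44), (32, 37)], none⟩,
     ⟨20, -72, [(0, 25), (3, 18)], [(29, 44), (32, 37)], none⟩,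
     ⟨0, 1, [(0, 25), (3, 18)], [(29, 43), (32, 37)], none⟩], 204, -717⟩,
  ⟨⟨73, 20, 11, 3⟩, -34, true, 18, 36, [43, 36], [25, 18],
    [⟨20, -73, [(0, 26), (4, 18)], [(30, 44), (33, 37)], none⟩,
     ⟨8, -29, [(0, 26), (4, 18)], [(30, 43), (33, 37)], none⟩,
     ⟨19, -69, [(0, 26), (4, 18)], [(29, 44), (33, 37)], none⟩,
     ⟨7, -25, [(0, 26), (4, 18)], [(29, 44), (33, 36)], none⟩,
     ⟨1, -3, [(0, 25), (4, 18)], [(29, 44), (33, 36)], none⟩,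
     ⟨9, -32, [(0, 25), (3, 19)], [(29, 44), (33, 36)], none⟩,
     ⟨6, -21, [(0, 25), (3, 19)], [(29, 44), (32, 37)], none⟩,
     ⟨0, 1, [(0, 25), (3, 18)], [(29, 44), (32, 37)], none⟩], 184, -644⟩,
  ⟨⟨11, 3, 70, 19⟩, -35, true, 18, 37, [44, 36], [25, 18],
    [⟨6, -22, [(0, 26), (4, 19)], [(30, 44), (34, 36)], none⟩,
     ⟨9, -33, [(0, 26), (4, 18)], [(30, 44), (34, 36)], none⟩,
     ⟨8, -29, [(0, 26), (4, 18)], [(30, 44), (33, 37)], none⟩,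
     ⟨20, -73, [(0, 26), (4, 18)], [(29, 45), (33, 37)], none⟩,
     ⟨1, -3, [(0, 26), (4, 18)], [(29, 44), (33, 37)], none⟩,
     ⟨7, -25, [(0, 26), (3, 19)], [(29, 44), (33, 37)], none⟩,
     ⟨19, -69, [(0, 25), (3, 19)], [(29, 44), (33, 37)], none⟩,
     ⟨0, 1, [(0, 25), (3, 19)], [(29, 44), (33, 36)], none⟩], 197, -710⟩,
  ⟨⟨70, 19, 48, 13⟩, -35, true, 18, 37, [44, 36], [25, 18],
    [⟨19, -70, [(0, 26), (4, 19)], [(30, 44), (34, 37)], none⟩,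
     ⟨6, -22, [(0, 26), (4, 19)], [(30, 44), (34, 36)], none⟩,
     ⟨9, -33, [(0, 26), (4, 18)], [(30, 44), (34, 36)], none⟩,
     ⟨8, -29, [(0, 26), (4, 18)], [(30, 44), (33, 37)], none⟩,
     ⟨1, -3, [(0, 26), (4, 18)], [(29, 45), (33, 37)], none⟩,
     ⟨20, -73, [(0, 26), (3, 19)], [(29, 45), (33, 37)], none⟩,
     ⟨7, -25, [(0, 26), (3, 19)], [(29, 44), (33, 37)], none⟩,
     ⟨0, 1, [(0, 25), (3, 19)], [(29, 44), (33, 37)], none⟩], 178, -640⟩,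
  ⟨⟨48, 13, 37, 10⟩, -35, true, 18, 37, [44, 36], [25, 18],
    [⟨6, -22, [(0, 26), (4, 19)], [(30, 44), (34, 37)], none⟩,
     ⟨19, -70, [(0, 26), (4, 18)], [(30, 44), (34, 37)], none⟩,
     ⟨9, -33, [(0, 26), (4, 18)], [(30, 44), (34, 36)], none⟩,
     ⟨8, -29, [(0, 26), (4, 18)], [(30, 44), (33, 37)], none⟩,
     ⟨1, -3, [(0, 26), (4, 18)], [(29, 45), (33, 37)], none⟩,
     ⟨7, -25, [(0, 26), (3, 19)], [(29, 45), (33, 37)], none⟩,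
     ⟨20, -73, [(0, 25), (3, 19)], [(29, 45), (33, 37)], none⟩,
     ⟨0, 1, [(0, 25), (3, 19)], [(29, 44), (33, 37)], none⟩], 191, -688⟩,
  ⟨⟨37, 10, 26, 7⟩, -36, true, 18, 38, [44, 37], [25, 18],
    [⟨20, -74, [(0, 26), (4, 19)], [(30, 45), (34, 37)], none⟩,
     ⟨6, -22, [(0, 26), (4, 19)], [(30, 44), (34, 37)], none⟩,
     ⟨9, -33, [(0, 26), (4, 18)], [(30, 44), (34, 37)], none⟩,
     ⟨19, -70, [(0, 26), (4, 18)], [(30, 44), (33, 38)], none⟩,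
     ⟨8, -29, [(0, 26), (4, 18)], [(30, 44), (33, 37)], none⟩,
     ⟨1, -3, [(0, 26), (4, 18)], [(29, 45), (33, 37)], none⟩,
     ⟨7, -25, [(0, 26), (3, 19)], [(29, 45), (33, 37)], none⟩,
     ⟨0, 1, [(0, 25), (3, 19)], [(29, 45), (33, 37)], none⟩], 176, -651⟩,
  ⟨⟨26, 7, 67, 18⟩, -35, true, 18, 37, [44, 37], [26, 18],
    [⟨7, -26, [(0, 27), (4, 19)], [(30, 45), (34, 37)], none⟩,
     ⟨6, -22, [(0, 26), (4, 19)], [(30, 45), (34, 37)], none⟩,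
     ⟨20, -74, [(0, 26), (4, 18)], [(30, 45), (34, 37)], none⟩,
     ⟨9, -33, [(0, 26), (4, 18)], [(30, 44), (34, 37)], none⟩,
     ⟨19, -70, [(0, 26), (4, 18)], [(30, 44), (33, 38)], none⟩,
     ⟨1, -3, [(0, 26), (4, 18)], [(30, 44), (33, 37)], none⟩,
     ⟨8, -29, [(0, 26), (3, 19)], [(30, 44), (33, 37)], none⟩,
     ⟨0, 1, [(0, 26), (3, 19)], [(29, 45), (33, 37)], none⟩], 209, -755⟩,
  ⟨⟨67, 18, 41, 11⟩, -35, true, 18, 37, [44, 37], [26, 18],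
    [⟨7, -26, [(0, 27), (4, 19)], [(30, 45), (34, 37)], none⟩,
     ⟨6, -22, [(0, 26), (4, 19)], [(30, 45), (34, 37)], none⟩,
     ⟨20, -74, [(0, 26), (4, 18)], [(30, 45), (34, 37)], none⟩,
     ⟨9, -33, [(0, 26), (4, 18)], [(30, 44), (34, 37)], none⟩,
     ⟨1, -3, [(0, 26), (4, 18)], [(30, 44), (33, 38)], none⟩,
     ⟨19, -70, [(0, 26), (3, 19)], [(30, 44), (33, 38)], none⟩,
     ⟨8, -29, [(0, 26), (3, 19)], [(30, 44), (33, 37)], none⟩,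
     ⟨0, 1, [(0, 26), (3, 19)], [(29, 45), (33, 37)], none⟩], 191, -688⟩,
  ⟨⟨41, 11, 71, 19⟩, -35, true, 18, 37, [44, 37], [26, 18],
    [⟨7, -26, [(0, 27), (4, 19)], [(30, 45), (34, 37)], none⟩,
     ⟨6, -22, [(0, 26), (4, 19)], [(30, 45), (34, 37)], none⟩,
     ⟨9, -33, [(0, 26), (4, 18)], [(30, 45), (34, 37)], none⟩,
     ⟨20, -74, [(0, 26), (4, 18)], [(30, 45), (33, 38)], none⟩,
     ⟨1, -3, [(0, 26), (4, 18)], [(30, 44), (33, 38)], none⟩,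
     ⟨8, -29, [(0, 26), (3, 19)], [(30, 44), (33, 38)], none⟩,
     ⟨19, -70, [(0, 26), (3, 19)], [(29, 45), (33, 38)], none⟩,
     ⟨0, 1, [(0, 26), (3, 19)], [(29, 45), (33, 37)], none⟩], 202, -729⟩,
  ⟨⟨71, 19, 15, 4⟩, -35, true, 18, 37, [44, 37], [26, 18],
    [⟨19, -71, [(0, 27), (4, 19)], [(30, 45), (34, 38)], none⟩,
     ⟨7, -26, [(0, 27), (4, 19)], [(30, 45), (34, 37)], none⟩,
     ⟨6, -22, [(0, 26), (4, 19)], [(30, 45), (34, 37)], none⟩,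
     ⟨9, -33, [(0, 26), (4, 18)], [(30, 45), (34, 37)], none⟩,
     ⟨1, -3, [(0, 26), (4, 18)], [(30, 45), (33, 38)], none⟩,
     ⟨20, -74, [(0, 26), (3, 19)], [(30, 45), (33, 38)], none⟩,
     ⟨8, -29, [(0, 26), (3, 19)], [(30, 44), (33, 38)], none⟩,
     ⟨0, 1, [(0, 26), (3, 19)], [(29, 45), (33, 38)], none⟩], 183, -658⟩,
  ⟨⟨15, 4, 49, 13⟩, -36, true, 18, 38, [45, 37], [26, 18],
    [⟨8, -30, [(0, 27), (4, 19)], [(31, 45), (34, 38)], none⟩,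
     ⟨20, -75, [(0, 27), (4, 19)], [(30, 46), (34, 38)], none⟩,
     ⟨7, -26, [(0, 27), (4, 19)], [(30, 45), (34, 38)], none⟩,
     ⟨19, -71, [(0, 26), (4, 19)], [(30, 45), (34, 38)], none⟩,
     ⟨6, -22, [(0, 26), (4, 19)], [(30, 45), (34, 37)], none⟩,
     ⟨1, -3, [(0, 26), (4, 18)], [(30, 45), (34, 37)], none⟩,
     ⟨9, -33, [(0, 26), (3, 19)], [(30, 45), (34, 37)], none⟩,
     ⟨0, 1, [(0, 26), (3, 19)], [(30, 45), (33, 38)], none⟩], 190, -703⟩,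
  ⟨⟨49, 13, 34, 9⟩, -36, true, 18, 38, [45, 37], [26, 18],
    [⟨8, -30, [(0, 27), (4, 19)], [(31, 45), (34, 38)], none⟩,
     ⟨7, -26, [(0, 27), (4, 19)], [(30, 46), (34, 38)], none⟩,
     ⟨20, -75, [(0, 26), (4, 19)], [(30, 46), (34, 38)], none⟩,
     ⟨6, -22, [(0, 26), (4, 19)], [(30, 45), (34, 38)], none⟩,
     ⟨19, -71, [(0, 26), (4, 18)], [(30, 45), (34, 38)], none⟩,
     ⟨1, -3, [(0, 26), (4, 18)], [(30, 45), (34, 37)], none⟩,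
     ⟨9, -33, [(0, 26), (3, 19)], [(30, 45), (34, 37)], none⟩,
     ⟨0, 1, [(0, 26), (3, 19)], [(30, 45), (33, 38)], none⟩], 190, -703⟩,
  ⟨⟨34, 9, 53, 14⟩, -36, true, 18, 38, [45, 37], [26, 18],
    [⟨9, -34, [(0, 27), (4, 19)], [(31, 45), (35, 37)], none⟩,
     ⟨8, -30, [(0, 27), (4, 19)], [(31, 45), (34, 38)], none⟩,
     ⟨7, -26, [(0, 27), (4, 19)], [(30, 46), (34, 38)], none⟩,
     ⟨20, -75, [(0, 26), (4, 19)], [(30, 46), (34, 38)], none⟩,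
     ⟨6, -22, [(0, 26), (4, 19)], [(30, 45), (34, 38)], none⟩,
     ⟨1, -3, [(0, 26), (4, 18)], [(30, 45), (34, 38)], none⟩,
     ⟨19, -71, [(0, 26), (3, 19)], [(30, 45), (34, 38)], none⟩,
     ⟨0, 1, [(0, 26), (3, 19)], [(30, 45), (34, 37)], none⟩], 199, -737⟩,
  ⟨⟨53, 14, 72, 19⟩, -36, true, 18, 38, [45, 37], [26, 18],
    [⟨9, -34, [(0, 27), (4, 19)], [(31, 45), (35, 37)], none⟩,
     ⟨8, -30, [(0, 27), (4, 19)], [(31, 45), (34, 38)], none⟩,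
     ⟨7, -26, [(0, 27), (4, 19)], [(30, 46), (34, 38)], none⟩,
     ⟨6, -22, [(0, 26), (4, 19)], [(30, 46), (34, 38)], none⟩,
     ⟨20, -75, [(0, 26), (4, 18)], [(30, 46), (34, 38)], none⟩,
     ⟨1, -3, [(0, 26), (4, 18)], [(30, 45), (34, 38)], none⟩,
     ⟨19, -71, [(0, 26), (3, 19)], [(30, 45), (34, 38)], none⟩,
     ⟨0, 1, [(0, 26), (3, 19)], [(30, 45), (34, 37)], none⟩], 213, -790⟩,
  ⟨⟨72, 19, 19, 5⟩, -36, true, 18, 38, [45, 37], [26, 18],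
    [⟨19, -72, [(0, 27), (4, 19)], [(31, 45), (35, 38)], none⟩,
     ⟨9, -34, [(0, 27), (4, 19)], [(31, 45), (35, 37)], none⟩,
     ⟨8, -30, [(0, 27), (4, 19)], [(31, 45), (34, 38)], none⟩,
     ⟨7, -26, [(0, 27), (4, 19)], [(30, 46), (34, 38)], none⟩,
     ⟨6, -22, [(0, 26), (4, 19)], [(30, 46), (34, 38)], none⟩,
     ⟨1, -3, [(0, 26), (4, 18)], [(30, 46), (34, 38)], none⟩,
     ⟨20, -75, [(0, 26), (3, 19)], [(30, 46), (34, 38)], none⟩,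
     ⟨0, 1, [(0, 26), (3, 19)], [(30, 45), (34, 38)], none⟩], 175, -646⟩,
  ⟨⟨19, 5, 42, 11⟩, -36, true, 19, 38, [45, 38], [26, 19],
    [⟨20, -76, [(0, 27), (4, 19)], [(31, 46), (35, 38)], none⟩,
     ⟨9, -34, [(0, 27), (4, 19)], [(31, 45), (35, 38)], none⟩,
     ⟨19, -72, [(0, 27), (4, 19)], [(31, 45), (34, 39)], none⟩,
     ⟨8, -30, [(0, 27), (4, 19)], [(31, 45), (34, 38)], none⟩,
     ⟨7, -26, [(0, 27), (4, 19)], [(30, 46), (34, 38)], none⟩,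
     ⟨1, -3, [(0, 26), (4, 19)], [(30, 46), (34, 38)], none⟩,
     ⟨6, -22, [(0, 26), (3, 20)], [(30, 46), (34, 38)], none⟩,
     ⟨0, 1, [(0, 26), (3, 19)], [(30, 46), (34, 38)], none⟩], 200, -741⟩,
  ⟨⟨42, 11, 23, 6⟩, -36, true, 19, 38, [45, 38], [26, 19],
    [⟨9, -34, [(0, 27), (4, 19)], [(31, 46), (35, 38)], none⟩,
     ⟨20, -76, [(0, 27), (4, 19)], [(31, 46), (34, 39)], none⟩,
     ⟨8, -30, [(0, 27), (4, 19)], [(31, 45), (34, 39)], none⟩,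
     ⟨19, -72, [(0, 27), (4, 19)], [(30, 46), (34, 39)], none⟩,
     ⟨7, -26, [(0, 27), (4, 19)], [(30, 46), (34, 38)], none⟩,
     ⟨1, -3, [(0, 26), (4, 19)], [(30, 46), (34, 38)], none⟩,
     ⟨6, -22, [(0, 26), (3, 20)], [(30, 46), (34, 38)], none⟩,
     ⟨0, 1, [(0, 26), (3, 19)], [(30, 46), (34, 38)], none⟩], 200, -741⟩,
  ⟨⟨23, 6, 73, 19⟩, -37, true, 19, 39, [46, 38], [26, 19],
    [⟨6, -23, [(0, 27), (4, 20)], [(31, 46), (35, 38)], none⟩,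
     ⟨9, -34, [(0, 27), (4, 19)], [(31, 46), (35, 38)], none⟩,
     ⟨8, -30, [(0, 27), (4, 19)], [(31, 46), (34, 39)], none⟩,
     ⟨20, -76, [(0, 27), (4, 19)], [(30, 47), (34, 39)], none⟩,
     ⟨1, -3, [(0, 27), (4, 19)], [(30, 46), (34, 39)], none⟩,
     ⟨7, -26, [(0, 27), (3, 20)], [(30, 46), (34, 39)], none⟩,
     ⟨19, -72, [(0, 26), (3, 20)], [(30, 46), (34, 39)], none⟩,
     ⟨0, 1, [(0, 26), (3, 20)], [(30, 46), (34, 38)], none⟩], 207, -787⟩,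
  ⟨⟨73, 19, 50, 13⟩, -37, true, 19, 39, [46, 38], [26, 19],
    [⟨19, -73, [(0, 27), (4, 20)], [(31, 46), (35, 39)], none⟩,
     ⟨6, -23, [(0, 27), (4, 20)], [(31, 46), (35, 38)], none⟩,
     ⟨9, -34, [(0, 27), (4, 19)], [(31, 46), (35, 38)], none⟩,
     ⟨8, -30, [(0, 27), (4, 19)], [(31, 46), (34, 39)], none⟩,
     ⟨1, -3, [(0, 27), (4, 19)], [(30, 47), (34, 39)], none⟩,
     ⟨20, -76, [(0, 27), (3, 20)], [(30, 47), (34, 39)], none⟩,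
     ⟨7, -26, [(0, 27), (3, 20)], [(30, 46), (34, 39)], none⟩,
     ⟨0, 1, [(0, 26), (3, 20)], [(30, 46), (34, 39)], none⟩], 188, -714⟩,
  ⟨⟨50, 13, 77, 20⟩, -37, true, 19, 39, [46, 38], [26, 19],
    [⟨6, -23, [(0, 27), (4, 20)], [(31, 46), (35, 39)], none⟩,
     ⟨19, -73, [(0, 27), (4, 19)], [(31, 46), (35, 39)], none⟩,
     ⟨9, -34, [(0, 27), (4, 19)], [(31, 46), (35, 38)], none⟩,
     ⟨8, -30, [(0, 27), (4, 19)], [(31, 46), (34, 39)], none⟩,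
     ⟨1, -3, [(0, 27), (4, 19)], [(30, 47), (34, 39)], none⟩,
     ⟨7, -26, [(0, 27), (3, 20)], [(30, 47), (34, 39)], none⟩,
     ⟨20, -76, [(0, 26), (3, 20)], [(30, 47), (34, 39)], none⟩,
     ⟨0, 1, [(0, 26), (3, 20)], [(30, 46), (34, 39)], none⟩], 201, -764⟩,
  ⟨⟨77, 20, 27, 7⟩, -37, true, 19, 39, [46, 38], [26, 19],
    [⟨20, -77, [(0, 27), (4, 20)], [(31, 47), (35, 39)], none⟩,
     ⟨6, -23, [(0, 27), (4, 20)], [(31, 46), (35, 39)], none⟩,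
     ⟨19, -73, [(0, 27), (4, 19)], [(31, 46), (35, 39)], none⟩,
     ⟨9, -34, [(0, 27), (4, 19)], [(31, 46), (35, 38)], none⟩,
     ⟨8, -30, [(0, 27), (4, 19)], [(31, 46), (34, 39)], none⟩,
     ⟨1, -3, [(0, 27), (4, 19)], [(30, 47), (34, 39)], none⟩,
     ⟨7, -26, [(0, 27), (3, 20)], [(30, 47), (34, 39)], none⟩,
     ⟨0, 1, [(0, 26), (3, 20)], [(30, 47), (34, 39)], none⟩], 181, -687⟩,
  ⟨⟨27, 7, 31, 8⟩, -36, true, 19, 38, [46, 38], [27, 19],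
    [⟨7, -27, [(0, 28), (4, 20)], [(31, 47), (35, 39)], none⟩,
     ⟨6, -23, [(0, 27), (4, 20)], [(31, 47), (35, 39)], none⟩,
     ⟨20, -77, [(0, 27), (4, 19)], [(31, 47), (35, 39)], none⟩,
     ⟨19, -73, [(0, 27), (4, 19)], [(31, 46), (35, 39)], none⟩,
     ⟨9, -34, [(0, 27), (4, 19)], [(31, 46), (35, 38)], none⟩,
     ⟨1, -3, [(0, 27), (4, 19)], [(31, 46), (34, 39)], none⟩,
     ⟨8, -30, [(0, 27), (3, 20)], [(31, 46), (34, 39)], none⟩,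
     ⟨0, 1, [(0, 27), (3, 20)], [(30, 47), (34, 39)], none⟩], 214, -795⟩,
  ⟨⟨31, 8, 35, 9⟩, -36, true, 19, 38, [46, 38], [27, 19],
    [⟨8, -31, [(0, 28), (4, 20)], [(32, 46), (35, 39)], none⟩,
     ⟨7, -27, [(0, 28), (4, 20)], [(31, 47), (35, 39)], none⟩,
     ⟨6, -23, [(0, 27), (4, 20)], [(31, 47), (35, 39)], none⟩,
     ⟨20, -77, [(0, 27), (4, 19)], [(31, 47), (35, 39)], none⟩,
     ⟨19, -73, [(0, 27), (4, 19)], [(31, 46), (35, 39)], none⟩,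
     ⟨1, -3, [(0, 27), (4, 19)], [(31, 46), (35, 38)], none⟩,
     ⟨9, -34, [(0, 27), (3, 20)], [(31, 46), (35, 38)], none⟩,
     ⟨0, 1, [(0, 27), (3, 20)], [(31, 46), (34, 39)], none⟩], 214, -795⟩,
  ⟨⟨35, 9, 74, 19⟩, -36, true, 19, 38, [46, 38], [27, 19],
    [⟨9, -35, [(0, 28), (4, 20)], [(32, 46), (36, 38)], none⟩,
     ⟨8, -31, [(0, 28), (4, 20)], [(32, 46), (35, 39)], none⟩,
     ⟨7, -27, [(0, 28), (4, 20)], [(31, 47), (35, 39)], none⟩,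
     ⟨6, -23, [(0, 27), (4, 20)], [(31, 47), (35, 39)], none⟩,
     ⟨20, -77, [(0, 27), (4, 19)], [(31, 47), (35, 39)], none⟩,
     ⟨1, -3, [(0, 27), (4, 19)], [(31, 46), (35, 39)], none⟩,
     ⟨19, -73, [(0, 27), (3, 20)], [(31, 46), (35, 39)], none⟩,
     ⟨0, 1, [(0, 27), (3, 20)], [(31, 46), (35, 38)], none⟩], 223, -830⟩,
  ⟨⟨74, 19, 39, 10⟩, -36, true, 19, 38, [46, 38], [27, 19],
    [⟨19, -74, [(0, 28), (4, 20)], [(32, 46), (36, 39)], none⟩,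
     ⟨9, -35, [(0, 28), (4, 20)], [(32, 46), (36, 38)], none⟩,
     ⟨8, -31, [(0, 28), (4, 20)], [(32, 46), (35, 39)], none⟩,
     ⟨7, -27, [(0, 28), (4, 20)], [(31, 47), (35, 39)], none⟩,
     ⟨6, -23, [(0, 27), (4, 20)], [(31, 47), (35, 39)], none⟩,
     ⟨1, -3, [(0, 27), (4, 19)], [(31, 47), (35, 39)], none⟩,
     ⟨20, -77, [(0, 27), (3, 20)], [(31, 47), (35, 39)], none⟩,
     ⟨0, 1, [(0, 27), (3, 20)], [(31, 46), (35, 39)], none⟩], 185, -682⟩,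
  ⟨⟨39, 10, 43, 11⟩, -37, true, 19, 39, [46, 39], [27, 19],
    [⟨20, -78, [(0, 28), (4, 20)], [(32, 47), (36, 39)], none⟩,
     ⟨9, -35, [(0, 28), (4, 20)], [(32, 46), (36, 39)], none⟩,
     ⟨19, -74, [(0, 28), (4, 20)], [(32, 46), (35, 40)], none⟩,
     ⟨8, -31, [(0, 28), (4, 20)], [(32, 46), (35, 39)], none⟩,
     ⟨7, -27, [(0, 28), (4, 20)], [(31, 47), (35, 39)], none⟩,
     ⟨6, -23, [(0, 27), (4, 20)], [(31, 47), (35, 39)], none⟩,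
     ⟨1, -3, [(0, 27), (4, 19)], [(31, 47), (35, 39)], none⟩,
     ⟨0, 1, [(0, 27), (3, 20)], [(31, 47), (35, 39)], none⟩], 190, -721⟩,
  ⟨⟨43, 11, 47, 12⟩, -37, true, 19, 39, [46, 39], [27, 19],
    [⟨9, -35, [(0, 28), (4, 20)], [(32, 47), (36, 39)], none⟩,
     ⟨20, -78, [(0, 28), (4, 20)], [(32, 47), (35, 40)], none⟩,
     ⟨8, -31, [(0, 28), (4, 20)], [(32, 46), (35, 40)], none⟩,
     ⟨19, -74, [(0, 28), (4, 20)], [(31, 47), (35, 40)], none⟩,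
     ⟨7, -27, [(0, 28), (4, 20)], [(31, 47), (35, 39)], none⟩,
     ⟨6, -23, [(0, 27), (4, 20)], [(31, 47), (35, 39)], none⟩,
     ⟨1, -3, [(0, 27), (4, 19)], [(31, 47), (35, 39)], none⟩,
     ⟨0, 1, [(0, 27), (3, 20)], [(31, 47), (35, 39)], none⟩], 190, -721⟩,
  ⟨⟨47, 12, 51, 13⟩, -38, true, 19, 40, [47, 39], [27, 19],
    [⟨9, -35, [(0, 28), (4, 20)], [(32, 47), (36, 39)], none⟩,
     ⟨8, -31, [(0, 28), (4, 20)], [(32, 47), (35, 40)], none⟩,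
     ⟨20, -78, [(0, 28), (4, 20)], [(31, 48), (35, 40)], none⟩,
     ⟨7, -27, [(0, 28), (4, 20)], [(31, 47), (35, 40)], none⟩,
     ⟨19, -74, [(0, 27), (4, 20)], [(31, 47), (35, 40)], none⟩,
     ⟨6, -23, [(0, 27), (4, 20)], [(31, 47), (35, 39)], none⟩,
     ⟨1, -3, [(0, 27), (4, 19)], [(31, 47), (35, 39)], none⟩,
     ⟨0, 1, [(0, 27), (3, 20)], [(31, 47), (35, 39)], none⟩], 209, -815⟩,
  ⟨⟨51, 13, 55, 14⟩, -38, true, 19, 40, [47, 39], [27, 19],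
    [⟨9, -35, [(0, 28), (4, 20)], [(32, 47), (36, 39)], none⟩,
     ⟨8, -31, [(0, 28), (4, 20)], [(32, 47), (35, 40)], none⟩,
     ⟨7, -27, [(0, 28), (4, 20)], [(31, 48), (35, 40)], none⟩,
     ⟨20, -78, [(0, 27), (4, 20)], [(31, 48), (35, 40)], none⟩,
     ⟨6, -23, [(0, 27), (4, 20)], [(31, 47), (35, 40)], none⟩,
     ⟨19, -74, [(0, 27), (4, 19)], [(31, 47), (35, 40)], none⟩,
     ⟨1, -3, [(0, 27), (4, 19)], [(31, 47), (35, 39)], none⟩,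
     ⟨0, 1, [(0, 27), (3, 20)], [(31, 47), (35, 39)], none⟩], 209, -815⟩,
  ⟨⟨55, 14, 71, 18⟩, -38, true, 19, 40, [47, 39], [27, 19],
    [⟨9, -35, [(0, 28), (4, 20)], [(32, 47), (36, 39)], none⟩,
     ⟨8, -31, [(0, 28), (4, 20)], [(32, 47), (35, 40)], none⟩,
     ⟨7, -27, [(0, 28), (4, 20)], [(31, 48), (35, 40)], none⟩,
     ⟨6, -23, [(0, 27), (4, 20)], [(31, 48), (35, 40)], none⟩,
     ⟨20, -78, [(0, 27), (4, 19)], [(31, 48), (35, 40)], none⟩,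
     ⟨19, -74, [(0, 27), (4, 19)], [(31, 47), (35, 40)], none⟩,
     ⟨1, -3, [(0, 27), (4, 19)], [(31, 47), (35, 39)], none⟩,
     ⟨0, 1, [(0, 27), (3, 20)], [(31, 47), (35, 39)], none⟩], 223, -870⟩,
  ⟨⟨71, 18, 75, 19⟩, -38, true, 19, 40, [47, 39], [27, 19],
    [⟨9, -35, [(0, 28), (4, 20)], [(32, 47), (36, 39)], none⟩,
     ⟨8, -31, [(0, 28), (4, 20)], [(32, 47), (35, 40)], none⟩,
     ⟨7, -27, [(0, 28), (4, 20)], [(31, 48), (35, 40)], none⟩,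
     ⟨6, -23, [(0, 27), (4, 20)], [(31, 48), (35, 40)], none⟩,
     ⟨20, -78, [(0, 27), (4, 19)], [(31, 48), (35, 40)], none⟩,
     ⟨1, -3, [(0, 27), (4, 19)], [(31, 47), (35, 40)], none⟩,
     ⟨19, -74, [(0, 27), (3, 20)], [(31, 47), (35, 40)], none⟩,
     ⟨0, 1, [(0, 27), (3, 20)], [(31, 47), (35, 39)], none⟩], 223, -870⟩,
  ⟨⟨75, 19, 79, 20⟩, -38, true, 19, 40, [47, 39], [27, 19],
    [⟨19, -75, [(0, 28), (4, 20)], [(32, 47), (36, 40)], none⟩,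
     ⟨9, -35, [(0, 28), (4, 20)], [(32, 47), (36, 39)], none⟩,
     ⟨8, -31, [(0, 28), (4, 20)], [(32, 47), (35, 40)], none⟩,
     ⟨7, -27, [(0, 28), (4, 20)], [(31, 48), (35, 40)], none⟩,
     ⟨6, -23, [(0, 27), (4, 20)], [(31, 48), (35, 40)], none⟩,
     ⟨1, -3, [(0, 27), (4, 19)], [(31, 48), (35, 40)], none⟩,
     ⟨20, -78, [(0, 27), (3, 20)], [(31, 48), (35, 40)], none⟩,
     ⟨0, 1, [(0, 27), (3, 20)], [(31, 47), (35, 40)], none⟩], 185, -720⟩,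
  ⟨⟨79, 20, 4, 1⟩, -38, true, 19, 40, [47, 39], [27, 19],
    [⟨20, -79, [(0, 28), (4, 20)], [(32, 48), (36, 40)], none⟩,
     ⟨19, -75, [(0, 28), (4, 20)], [(32, 47), (36, 40)], none⟩,
     ⟨9, -35, [(0, 28), (4, 20)], [(32, 47), (36, 39)], none⟩,
     ⟨8, -31, [(0, 28), (4, 20)], [(32, 47), (35, 40)], none⟩,
     ⟨7, -27, [(0, 28), (4, 20)], [(31, 48), (35, 40)], none⟩,
     ⟨6, -23, [(0, 27), (4, 20)], [(31, 48), (35, 40)], none⟩,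
     ⟨1, -3, [(0, 27), (4, 19)], [(31, 48), (35, 40)], none⟩,
     ⟨0, 1, [(0, 27), (3, 20)], [(31, 48), (35, 40)], none⟩], 185, -720⟩]

theorem recs7_chk : recs7.all (fun r => r.chk par 3 1000) = true := by decide +kernel

/-- all the cells with arcs -/
def recs : List Rec := recs0 ++ recs1 ++ recs2 ++ recs3 ++ recs4 ++ recs5 ++ recs6 ++ recs7

theorem recs_chk : recs.all (fun r => r.chk par 3 1000) = true := by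
  simp only [recs, List.all_append, Bool.and_eq_true]
  exact ⟨⟨⟨⟨⟨⟨⟨recs0_chk, recs1_chk⟩, recs2_chk⟩, recs3_chk⟩, recs4_chk⟩, recs5_chk⟩, recs6_chk⟩, recs7_chk⟩

theorem recs_ok : (recs.map Rec.ritem).all RItem.ok = true := by decide +kernel

theorem recs_link : link 1 20 (recs.map Rec.c) = true := by decide +kernel

theorem recs_end : lastEnd 1 20 (recs.map Rec.c) = (4, 1) := by decide +kernel

theorem recs_sum : ((recs.map Rec.ritem).map RItem.qval).sum ≤ 66184/1000 := by decide +kernel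

/-- one period of quadratic cells -/
def base : List QRec := [
  ⟨⟨0, 1, 1, 12⟩, 0, [0, 0], [0, 0]⟩,
  ⟨⟨1, 12, 1, 10⟩, 0, [1, 0], [0, 0]⟩,
  ⟨⟨1, 10, 1, 7⟩, 0, [1, 1], [0, 0]⟩,
  ⟨⟨1, 7, 1, 6⟩, 0, [1, 1], [1, 0]⟩,
  ⟨⟨1, 6, 1, 5⟩, 0, [2, 1], [1, 0]⟩,
  ⟨⟨1, 5, 1, 4⟩, 1, [2, 2], [1, 1]⟩,
  ⟨⟨1, 4, 2, 7⟩, 1, [3, 2], [1, 1]⟩,
  ⟨⟨2, 7, 3, 10⟩, 1, [3, 2], [2, 1]⟩,
  ⟨⟨3, 10, 1, 3⟩, 1, [3, 3], [2, 1]⟩,
  ⟨⟨1, 3, 2, 5⟩, 1, [4, 3], [2, 1]⟩,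
  ⟨⟨2, 5, 5, 12⟩, 2, [4, 4], [2, 2]⟩,
  ⟨⟨5, 12, 3, 7⟩, 2, [5, 4], [2, 2]⟩,
  ⟨⟨3, 7, 1, 2⟩, 2, [5, 4], [3, 2]⟩,
  ⟨⟨1, 2, 4, 7⟩, 2, [6, 5], [3, 2]⟩,
  ⟨⟨4, 7, 7, 12⟩, 2, [6, 5], [4, 2]⟩,
  ⟨⟨7, 12, 3, 5⟩, 2, [7, 5], [4, 2]⟩,
  ⟨⟨3, 5, 2, 3⟩, 3, [7, 6], [4, 3]⟩,
  ⟨⟨2, 3, 7, 10⟩, 3, [8, 6], [4, 3]⟩,
  ⟨⟨7, 10, 5, 7⟩, 3, [8, 7], [4, 3]⟩,
  ⟨⟨5, 7, 3, 4⟩, 3, [8, 7], [5, 3]⟩,
  ⟨⟨3, 4, 4, 5⟩, 3, [9, 7], [5, 3]⟩,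
  ⟨⟨4, 5, 5, 6⟩, 4, [9, 8], [5, 4]⟩,
  ⟨⟨5, 6, 6, 7⟩, 4, [10, 8], [5, 4]⟩,
  ⟨⟨6, 7, 9, 10⟩, 4, [10, 8], [6, 4]⟩,
  ⟨⟨9, 10, 11, 12⟩, 4, [10, 9], [6, 4]⟩,
  ⟨⟨11, 12, 1, 1⟩, 4, [11, 9], [6, 4]⟩]

/-- the cell shifted by `k` periods -/
def shift (k : ℤ) (r : QRec) : QRec :=
  ⟨⟨r.c.a1 + k * r.c.b1, r.c.b1, r.c.a2 + k * r.c.b2, r.c.b2⟩, r.J + 5 * k,
    [r.en.headI + 12 * k, r.en.tail.headI + 10 * k],
    [r.ed.headI + 7 * k, r.ed.tail.headI + 5 * k]⟩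

/-- the quadratic cells -/
def quads : List QRec := (List.range 96).flatMap (fun k : ℕ => base.map (shift (k + 4)))

theorem quads_chk : quads.all (fun r => r.chk par) = true := by decide +kernel

theorem quads_ok : (quads.map (QRec.ritem par)).all RItem.ok = true := by decide +kernel

theorem quads_link : link 4 1 (quads.map QRec.c) = true := by decide +kernel

theorem quads_end : lastEnd 4 1 (quads.map QRec.c) = (100, 1) := by decide +kernel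

/-- upper bounds for the values of the periods, times `10 ^ 7` -/
def qb : List ℕ := [2660395, 1753792, 1243009, 926953, 717820, 572276, 466917, 388198, 327836, 280536, 242783,
  212170, 187003, 166064, 148454, 133505, 120705, 109662, 100068, 91680, 84304, 77784,
  71992, 66824, 62193, 58027, 54267, 50860, 47764, 44943, 42365, 40002, 37831, 35833, 33989,
  32283, 30703, 29236, 27872, 26601, 25415, 24306, 23269, 22297, 21384, 20526, 19719, 18959,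
  18241, 17564, 16924, 16318, 15744, 15200, 14683, 14192, 13726, 13282, 12860, 12457, 12073,
  11706, 11356, 11021, 10701, 10395, 10102, 9820, 9551, 9292, 9044, 8806, 8576, 8356, 8144,
  7940, 7744, 7555, 7372, 7197, 7027, 6863, 6705, 6553, 6405, 6263, 6125, 5991, 5862, 5737,
  5616, 5499, 5386, 5276, 5169, 5065]

/-- the value of a period -/
def per (k : ℕ) : ℚ := ((base.map (shift (k + 4))).map (fun r => (r.ritem par).qval)).sum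

theorem per_le : (List.range 96).all (fun k => decide (per k ≤ (qb.getD k 0 : ℚ) / 10000000)) =
    true := by decide +kernel

theorem qb_sum : ((List.range 96).map (fun k => (qb.getD k 0 : ℚ) / 10000000)).sum ≤ 12445/10000 := by
  decide +kernel

theorem sum_le_of (l : List ℕ) (f g : ℕ → ℚ) (h : ∀ k ∈ l, f k ≤ g k) :
    (l.map f).sum ≤ (l.map g).sum := by
  induction l with
  | nil => simp
  | cons k l ih =>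
    simp only [List.map_cons, List.sum_cons]
    exact add_le_add (h k List.mem_cons_self) (ih fun j hj => h j (List.mem_cons_of_mem _ hj))

theorem sum_flat (l : List ℕ) : (((l.flatMap (fun k : ℕ => base.map (shift (k + 4)))).map
    (QRec.ritem par)).map RItem.qval).sum = (l.map per).sum := by
  induction l with
  | nil => simp
  | cons k l ih =>
    rw [List.flatMap_cons, List.map_append, List.map_append, List.sum_append, ih, List.map_cons,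
      List.sum_cons]
    congr 1

theorem quads_sum : ((quads.map (QRec.ritem par)).map RItem.qval).sum ≤ 12445/10000 := by
  unfold quads
  rw [sum_flat]
  refine (sum_le_of _ per (fun k => (qb.getD k 0 : ℚ) / 10000000) fun k hk => ?_).trans qb_sum
  exact of_decide_eq_true (List.all_eq_true.1 per_le k hk)

end Pool.Agent.Z3D.TCell
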