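import Pool.Agent.Z3D.TData
import Pool.Agent.Z3D.Inst

/-!
# The table: from the rules for the primes to a list of items
-/

set_option autoImplicit false

open Finset

namespace Pool.Agent.Z3D

open Pool.Agent.D23.Cell (nrm bc tail_bound)

/-- items `(α, β, lo, hi)`: the cost of a prime `lo n < p ≤ hi n` is at most `α n + β p + O(1)` -/
noncomputable def items : List (ℝ × ℝ × ℝ × ℝ) :=
  (10, 5 / 4, 0, 1 / 100) :: (TCell.recs.map TCell.Rec.ritem ++
    TCell.quads.map (TCell.QRec.ritem TCell.par)).map TCell.RItem.item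

theorem ritems_ok : ∀ r ∈ TCell.recs.map TCell.Rec.ritem ++
    TCell.quads.map (TCell.QRec.ritem TCell.par), r.ok = true := by
  intro r hr
  rcases List.mem_append.1 hr with h | h
  · exact List.all_eq_true.1 TCell.recs_ok r h
  · exact List.all_eq_true.1 TCell.quads_ok r h

theorem items_ok : ∀ x ∈ items, 0 ≤ x.2.2.1 ∧ x.2.2.1 ≤ x.2.2.2 ∧ 0 ≤ x.1 + x.2.1 * x.2.2.1 ∧
    0 ≤ x.1 + x.2.1 * x.2.2.2 := by
  intro x hx
  unfold items at hx
  rcases List.mem_cons.1 hx with h | h
  · subst h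
    norm_num
  · obtain ⟨r, hr, rfl⟩ := List.mem_map.1 h
    exact TCell.RItem.item_ok (ritems_ok r hr)

/-- the value of the table -/
theorem items_sum : (items.map D23.ival).sum ≤ 6753 / 100 := by
  unfold items
  rw [List.map_cons, List.sum_cons, TCell.sum_ival, List.map_append, List.sum_append]
  have h1 : (((TCell.recs.map TCell.Rec.ritem).map TCell.RItem.qval).sum +
      ((TCell.quads.map (TCell.QRec.ritem TCell.par)).map TCell.RItem.qval).sum : ℚ) ≤
      66184 / 1000 + 12445 / 10000 := add_le_add TCell.recs_sum TCell.quads_sum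
  have h2 : ((((TCell.recs.map TCell.Rec.ritem).map TCell.RItem.qval).sum +
      ((TCell.quads.map (TCell.QRec.ritem TCell.par)).map TCell.RItem.qval).sum : ℚ) : ℝ) ≤
      ((66184 / 1000 + 12445 / 10000 : ℚ) : ℝ) := Rat.cast_le.mpr h1
  have h3 : ((66184 / 1000 + 12445 / 10000 : ℚ) : ℝ) = 66184 / 1000 + 12445 / 10000 := by
    norm_num
  have h4 : D23.ival ((10 : ℝ), (5 / 4 : ℝ), (0 : ℝ), (1 / 100 : ℝ)) = 8005 / 80000 := by
    unfold D23.ival
    norm_num
  rw [h4]
  rw [h3] at h2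
  linarith

theorem e0_eq (n p : ℕ) : TCell.par.e0 n p = ee n p := by
  unfold TCell.Par.e0 TCell.par ee
  simp only [List.map_cons, List.map_nil, List.sum_cons, List.sum_nil]
  ring

theorem phi_eq (n p s : ℕ) : TCell.par.F.phi n p s = ph n p s := by
  unfold D23.Cell.Fam.phi TCell.par bc D23.Cell.nf ph
  simp only [List.map_cons, List.map_nil, List.sum_cons, List.sum_nil, zero_mul, add_zero, one_mul]
  ring

theorem far_iff (n p s : ℕ) : 0 < bc n p s TCell.par.F.tb ↔ far n p s := by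
  unfold far bc TCell.par D23.Cell.nf
  simp only [zero_mul, add_zero, one_mul]
  exact_mod_cast Iff.rfl

/-- the rules in the form of the cells -/
theorem costs_of (n p M : ℕ) (Ok : ℤ → Prop) (mono : ∀ S T : ℤ, S ≤ T → Ok S → Ok T)
    (hall : ∀ lam : ℤ, Ok (lam * M + ∑ s ∈ range p, ccost (1 - ph n p s - ee n p - lam) + nrm M p))
    (hfar : ∀ lam : ℤ, -ee n p ≤ lam → Ok (lam * M +
      ∑ s ∈ range p with far n p s, ccost (1 - ph n p s - ee n p - lam) + nrm M p)) :
    TCell.Costs TCell.par n p M Ok := by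
  refine ⟨mono, fun lam => ?_, fun lam hlam => ?_⟩
  · simp only [phi_eq, e0_eq]
    exact hall lam
  · rw [e0_eq] at hlam
    have h1 : (range p).filter (fun s => 0 < bc n p s TCell.par.F.tb) =
        (range p).filter (fun s => far n p s) := filter_congr fun s _ => far_iff n p s
    rw [h1]
    simp only [phi_eq, e0_eq]
    exact hfar lam hlam

/-- **The table**, from the two rules. -/
theorem table_core (n p M : ℕ) [Fact p.Prime] (hp : 20 * n < p ^ 2) (hn : 1 ≤ n)
    (hM1 : 5 * n ≤ M + 3) (hM : M ≤ 5 * n) (D : ℚ)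
    (hall : ∀ lam : ℤ, padicNorm p D ≤ (p : ℚ) ^ (lam * M +
      ∑ s ∈ range p, ccost (1 - ph n p s - ee n p - lam) + nrm M p))
    (hfar : ∀ lam : ℤ, -ee n p ≤ lam → padicNorm p D ≤ (p : ℚ) ^ (lam * M +
      ∑ s ∈ range p with far n p s, ccost (1 - ph n p s - ee n p - lam) + nrm M p))
    (hp20 : p ≤ 20 * n) :
    ∃ x ∈ items, ∃ e : ℕ, padicNorm p D ≤ (p : ℚ) ^ e ∧
      (e : ℝ) ≤ x.1 * n + x.2.1 * p + 1000 ∧ x.2.2.1 * n < (p : ℝ) ∧ (p : ℝ) ≤ x.2.2.2 * n := by
  have hp3 : 3 < p := by nlinarith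
  have hp0 : 0 < p := by omega
  have hp1 : (1 : ℚ) ≤ p := by exact_mod_cast hp0
  have mono : ∀ S T : ℤ, S ≤ T → padicNorm p D ≤ (p : ℚ) ^ S → padicNorm p D ≤ (p : ℚ) ^ T :=
    fun S T hST h => h.trans (zpow_le_zpow_right₀ hp1 hST)
  have hT : TCell.Costs TCell.par n p M (fun T => padicNorm p D ≤ (p : ℚ) ^ T) :=
    costs_of n p M _ mono hall hfar
  have hd3 : ((3 : ℕ) : ℤ) < (p : ℤ) := by exact_mod_cast hp3
  have hth : TCell.par.th = 5 := rfl
  have hM1' : (M : ℤ) ≤ TCell.par.th * n := by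
    rw [hth]
    exact_mod_cast hM
  have hM2' : TCell.par.th * n ≤ (M : ℤ) + 3 := by
    rw [hth]
    exact_mod_cast hM1
  have hout : ∀ r ∈ TCell.recs.map TCell.Rec.ritem ++
      TCell.quads.map (TCell.QRec.ritem TCell.par), r.c.a1 * p ≤ r.c.b1 * n →
      r.c.b2 * n < r.c.a2 * p → (∃ T : ℤ, padicNorm p D ≤ (p : ℚ) ^ T ∧
        (T : ℚ) ≤ r.al * n + r.be * p + (1000 : ℕ)) →
      ∃ x ∈ items, ∃ e : ℕ, padicNorm p D ≤ (p : ℚ) ^ e ∧
        (e : ℝ) ≤ x.1 * n + x.2.1 * p + 1000 ∧ x.2.2.1 * n < (p : ℝ) ∧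
        (p : ℝ) ≤ x.2.2.2 * n := by
    intro r hr h1 h2 ⟨T, hT1, hT2⟩
    obtain ⟨e, he1, he2, he3, he4⟩ := TCell.RItem.out (G := 1000)
      (Ok := fun T => padicNorm p D ≤ (p : ℚ) ^ T) (ritems_ok r hr) mono T hT1 hT2 h1 h2
    refine ⟨r.item, ?_, e, ?_, ?_, he3, he4⟩
    · unfold items
      exact List.mem_cons_of_mem _ (List.mem_map_of_mem hr)
    · rw [zpow_natCast] at he1
      exact he1
    · exact_mod_cast he2
  by_cases h100 : 100 * p ≤ n
  · -- the tail
    have hw : ∀ s < p, -1 ≤ 1 - ph n p s - ee n p ∧ 1 - ph n p s - ee n p ≤ 3 := by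
      intro s hs
      obtain ⟨h1, h2⟩ := ph_ee_bounds n p s hs
      constructor <;> linarith
    have hA : ∑ s ∈ range p, (1 - ph n p s - ee n p) ≤ 2 * (p : ℤ) := by
      rw [sum_sub_distrib, sum_sub_distrib, sum_ph n p hp0, sum_const, sum_const, card_range]
      simp only [nsmul_eq_mul, mul_one]
      have h1 := (ee_bounds n p hp0).1
      have h2 : (10 * n : ℤ) < ((10 * n / p : ℕ) + 1) * p := by
        have := Nat.lt_mul_div_succ (10 * n) hp0
        rw [mul_comm p] at this
        exact_mod_cast this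
      have h3 : ((10 * n / p : ℕ) : ℤ) * p ≤ ee n p * p :=
        mul_le_mul_of_nonneg_right h1 (Int.natCast_nonneg p)
      linarith
    have h1 := tail_bound (M := M) (fun s => 1 - ph n p s - ee n p) hw (a := 2) le_rfl hA
    have h2 := hall (2 - 2 * ((M / p : ℕ) : ℤ))
    set T : ℤ := (2 - 2 * ((M / p : ℕ) : ℤ)) * M + ∑ s ∈ range p,
      ccost (1 - ph n p s - ee n p - (2 - 2 * ((M / p : ℕ) : ℤ))) + nrm M p with hTdef
    have h3 : 4 * T ≤ 8 * M + 5 * p := by linarith
    refine ⟨(10, 5 / 4, 0, 1 / 100), by unfold items; exact List.mem_cons_self, T.toNat, ?_, ?_,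
      ?_, ?_⟩
    · have h4 := mono T T.toNat (Int.self_le_toNat T) h2
      rw [zpow_natCast] at h4
      exact h4
    · have h5 : ((T.toNat : ℕ) : ℤ) ≤ max T 0 := by
        rw [Int.toNat_eq_max]
      have h6 : 4 * ((T.toNat : ℕ) : ℤ) ≤ 8 * M + 5 * p := by
        have : 4 * max T 0 ≤ 8 * (M : ℤ) + 5 * p := by
          rcases le_total T 0 with h | h
          · rw [max_eq_right h]
            positivity
          · rw [max_eq_left h]
            exact h3
        linarith
      have h7 : 4 * ((T.toNat : ℕ) : ℝ) ≤ 8 * M + 5 * p := by exact_mod_cast h6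
      have h8 : (M : ℝ) ≤ 5 * n := by exact_mod_cast hM
      simp only
      linarith
    · simp only [zero_mul]
      exact_mod_cast hp0
    · have : (100 : ℝ) * p ≤ n := by exact_mod_cast h100
      simp only
      linarith
  push Not at h100
  by_cases h4 : 4 * p ≤ n
  · -- quadratic cells
    obtain ⟨c, hc, h7, h8⟩ := TCell.link_cover (n := n) (p := p) (TCell.quads.map TCell.QRec.c)
      4 1 (by norm_num) TCell.quads_link (by exact_mod_cast (by omega : 4 * p ≤ 1 * n)) (by
        rw [TCell.quads_end]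
        have : (1 : ℤ) * n < 100 * p := by exact_mod_cast (by omega : 1 * n < 100 * p)
        exact this)
    obtain ⟨r, hr, rfl⟩ := List.mem_map.1 hc
    have hchk := List.all_eq_true.1 TCell.quads_chk r hr
    refine hout (r.ritem TCell.par) (List.mem_append_right _ (List.mem_map_of_mem hr)) h7 h8 ?_
    obtain ⟨T, hT1, hT2⟩ := TCell.QRec.sound hchk hT (d := 3) (by norm_num) hd3 (by
        intro s hs
        rw [phi_eq, e0_eq]
        obtain ⟨h1, h2⟩ := ph_ee_bounds n p s hs
        constructor <;> linarith) (by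
        simp only [phi_eq]
        exact sum_ph n p hp0) hM1' hM2' h7 h8
    refine ⟨T, hT1, hT2.trans ?_⟩
    push_cast
    linarith
  · -- cells with arcs
    push Not at h4
    obtain ⟨c, hc, h7, h8⟩ := TCell.link_cover (n := n) (p := p) (TCell.recs.map TCell.Rec.c)
      1 20 (by norm_num) TCell.recs_link (by exact_mod_cast (by omega : 1 * p ≤ 20 * n)) (by
        rw [TCell.recs_end]
        have : (1 : ℤ) * n < 4 * p := by exact_mod_cast (by omega : 1 * n < 4 * p)
        exact this)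
    obtain ⟨r, hr, rfl⟩ := List.mem_map.1 hc
    have hchk := List.all_eq_true.1 TCell.recs_chk r hr
    refine hout r.ritem (List.mem_append_left _ (List.mem_map_of_mem hr)) h7 h8 ?_
    refine ⟨r.al * n + r.be * p + 1000, TCell.Rec.sound hchk hT (by norm_num) hd3
      (by linarith) (by linarith) h7 h8, ?_⟩
    unfold TCell.Rec.ritem
    push_cast
    exact le_rfl

/-- a class without far poles contains at most one pole -/
theorem icnt_le_one (n p s : ℕ) (h : D23.Cell.icnt (6 * n + p) (20 * n) p s = 0) :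
    D23.Cell.icnt (8 * n) (20 * n) p s ≤ 1 := by
  unfold D23.Cell.icnt at h ⊢
  rw [card_eq_zero, filter_eq_empty_iff] at h
  rw [card_le_one]
  intro i hi j hj
  rw [mem_filter, mem_Ico] at hi hj
  have h1 : i < 6 * n + p := by
    by_contra hcon
    exact h (mem_Ico.mpr ⟨by omega, hi.1.2⟩) hi.2
  have h2 : j < 6 * n + p := by
    by_contra hcon
    exact h (mem_Ico.mpr ⟨by omega, hj.1.2⟩) hj.2
  have h3 : i % p = j % p := by rw [hi.2, hj.2]
  rcases le_total i j with h4 | h4
  · have h5 : p ∣ j - i := (Nat.modEq_iff_dvd' h4).mp h3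
    rcases Nat.eq_zero_or_pos (j - i) with h6 | h6
    · omega
    · have := Nat.le_of_dvd h6 h5
      omega
  · have h5 : p ∣ i - j := (Nat.modEq_iff_dvd' h4).mp h3.symm
    rcases Nat.eq_zero_or_pos (i - j) with h6 | h6
    · omega
    · have := Nat.le_of_dvd h6 h5
      omega

/-- only the far classes count for levels at least `-ee` -/
theorem cst_far (n p : ℕ) (lam : ℤ) (hlam : -ee n p ≤ lam) (s : ℕ) :
    cst n p lam s ≤ if far n p s then ccost (1 - ph n p s - ee n p - lam) else 0 := by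
  by_cases h1 : D23.Cell.icnt (6 * n + p) (20 * n) p s = 0
  · have h2 := icnt_le_one n p s h1
    have h3 : ¬ far n p s := by
      unfold far
      omega
    rw [if_neg h3]
    unfold cst
    split_ifs with h4 h5
    · exact le_rfl
    · exact le_rfl
    · exact absurd ⟨by omega, hlam⟩ h5
  · have h3 : far n p s := by
      unfold far
      omega
    rw [if_pos h3]
    unfold cst
    rw [if_neg h1]
    split_ifs with h4
    · exact D23.Cell.ccost_nonneg _
    · exact D23.Cell.ccost_mono (by linarith)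

/-- rule FAR -/
theorem det_far (n M p : ℕ) [Fact p.Prime] (hpn : 20 * n < p ^ 2) (hM : M ≤ 5 * n) (a b lam : ℤ)
    (hlam : -ee n p ≤ lam) :
    padicNorm p (Dlt n a b M) ≤ (p : ℚ) ^ (lam * M +
      ∑ s ∈ range p with far n p s, ccost (1 - ph n p s - ee n p - lam) + nrm M p) := by
  refine (dlt_lin n M hpn hM a b lam).trans (zpow_le_zpow_right₀ (D23.pone (p := p)).le ?_)
  have h2 : ∑ s ∈ range p, cst n p lam s ≤
      ∑ s ∈ range p with far n p s, ccost (1 - ph n p s - ee n p - lam) := by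
    rw [sum_filter]
    exact sum_le_sum fun s _ => cst_far n p lam hlam s
  linarith

/-- **The table of the family.** -/
theorem table (n p M : ℕ) [Fact p.Prime] (hn : 1 ≤ n) (hp : 20 * n < p ^ 2)
    (hM1 : 5 * n ≤ M + 3) (hM : M ≤ 5 * n) (a b : ℤ) (hp20 : p ≤ 20 * n) :
    ∃ x ∈ items, ∃ e : ℕ, padicNorm p (Dlt n a b M) ≤ (p : ℚ) ^ e ∧
      (e : ℝ) ≤ x.1 * n + x.2.1 * p + 1000 ∧ x.2.2.1 * n < (p : ℝ) ∧ (p : ℝ) ≤ x.2.2.2 * n :=
  table_core n p M hp hn hM1 hM (Dlt n a b M) (fun lam => det_all n M hn hp hM a b lam)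
    (fun lam hlam => det_far n M p hp hM a b lam hlam) hp20

end Pool.Agent.Z3D
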