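import Pool.Agent.Z3D.Table
import Pool.Agent.Z3D.RCell
import Pool.Agent.Z3D.DblR

/-!
# The table with the refined rule in the cells `1 / 12 ≤ n / p < 1 / 10`
-/

set_option autoImplicit false

open Finset Polynomial

namespace Pool.Agent.Z3D

open Pool.Agent.Z3.TermAux
open Pool.Agent.D23 (ppos pone)
open Pool.Agent.D23.Cell (nrm bc tail_bound icnt nf)

/-- the parameters of the refined rule -/
def par3 : RCell.Par :=
  ⟨[((0, 0), (7, 0)), ((1, 0), (6, 0))], [((8, 0), (20, 0)), ((9, 0), (19, 0))],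
    ((8, 0), (20, 0)), [((6, 1), (20, 0)), ((6, 1), (19, 0))], [12, 10], [7, 5], 5⟩

/-- the cells with the refined rule -/
def recs3 : List RCell.Rec := [
  ⟨⟨1, 12, 5, 59⟩, -1, 0, 1, [1, 0], [0, 0],
    [⟨1, 0, [(0, 1), (1, 0)], [(1, 1), (1, 1)], (1, 1), [(2, 0), (2, 0)]⟩,
     ⟨6, 0, [(0, 1), (0, 1)], [(1, 1), (1, 1)], (1, 1), [(2, 0), (2, 0)]⟩,
     ⟨7, 0, [(0, 1), (0, 0)], [(1, 1), (1, 1)], (1, 1), [(1, 1), (1, 1)]⟩,
     ⟨19, -1, [(0, 0), (0, 0)], [(1, 1), (1, 1)], (1, 1), [(1, 1), (1, 1)]⟩,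
     ⟨8, 0, [(0, 0), (0, 0)], [(1, 1), (1, 0)], (1, 1), [(1, 1), (1, 0)]⟩,
     ⟨20, -1, [(0, 0), (0, 0)], [(0, 2), (1, 0)], (0, 2), [(1, 1), (1, 0)]⟩,
     ⟨9, 0, [(0, 0), (0, 0)], [(0, 1), (1, 0)], (0, 1), [(1, 0), (1, 0)]⟩,
     ⟨0, 1, [(0, 0), (0, 0)], [(0, 1), (0, 1)], (0, 1), [(1, 0), (1, 0)]⟩], 0, 0⟩,
  ⟨⟨5, 59, 1, 11⟩, -1, 0, 1, [1, 0], [0, 0],
    [⟨1, 0, [(0, 1), (1, 0)], [(1, 1), (1, 1)], (1, 1), [(2, 0), (2, 0)]⟩,
     ⟨6, 0, [(0, 1), (0, 1)], [(1, 1), (1, 1)], (1, 1), [(2, 0), (2, 0)]⟩,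
     ⟨7, 0, [(0, 1), (0, 0)], [(1, 1), (1, 1)], (1, 1), [(1, 1), (1, 1)]⟩,
     ⟨19, -1, [(0, 0), (0, 0)], [(1, 1), (1, 1)], (1, 1), [(1, 1), (1, 1)]⟩,
     ⟨8, 0, [(0, 0), (0, 0)], [(1, 1), (1, 0)], (1, 1), [(1, 1), (1, 0)]⟩,
     ⟨20, -1, [(0, 0), (0, 0)], [(0, 2), (1, 0)], (0, 2), [(1, 1), (1, 0)]⟩,
     ⟨9, 0, [(0, 0), (0, 0)], [(0, 1), (1, 0)], (0, 1), [(1, 0), (1, 0)]⟩,
     ⟨0, 1, [(0, 0), (0, 0)], [(0, 1), (0, 1)], (0, 1), [(1, 0), (1, 0)]⟩], 59, -5⟩,
  ⟨⟨1, 11, 2, 21⟩, -1, 0, 1, [1, 0], [0, 0],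
    [⟨1, 0, [(0, 1), (1, 0)], [(1, 1), (1, 1)], (1, 1), [(2, 0), (2, 0)]⟩,
     ⟨6, 0, [(0, 1), (0, 1)], [(1, 1), (1, 1)], (1, 1), [(2, 0), (2, 0)]⟩,
     ⟨7, 0, [(0, 1), (0, 0)], [(1, 1), (1, 1)], (1, 1), [(1, 1), (1, 1)]⟩,
     ⟨8, 0, [(0, 0), (0, 0)], [(1, 1), (1, 1)], (1, 1), [(1, 1), (1, 1)]⟩,
     ⟨19, -1, [(0, 0), (0, 0)], [(0, 2), (1, 1)], (0, 2), [(1, 1), (1, 1)]⟩,
     ⟨9, 0, [(0, 0), (0, 0)], [(0, 2), (1, 0)], (0, 2), [(1, 1), (1, 0)]⟩,
     ⟨20, -1, [(0, 0), (0, 0)], [(0, 2), (0, 1)], (0, 2), [(1, 1), (1, 0)]⟩,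
     ⟨0, 1, [(0, 0), (0, 0)], [(0, 1), (0, 1)], (0, 1), [(1, 0), (1, 0)]⟩], 81, -7⟩,
  ⟨⟨2, 21, 1, 10⟩, 0, 0, 1, [1, 0], [0, 0],
    [⟨1, 0, [(0, 1), (1, 0)], [(1, 1), (1, 1)], (1, 1), [(2, 0), (2, 0)]⟩,
     ⟨6, 0, [(0, 1), (0, 1)], [(1, 1), (1, 1)], (1, 1), [(2, 0), (2, 0)]⟩,
     ⟨7, 0, [(0, 1), (0, 0)], [(1, 1), (1, 1)], (1, 1), [(1, 1), (1, 1)]⟩,
     ⟨8, 0, [(0, 0), (0, 0)], [(1, 1), (1, 1)], (1, 1), [(1, 1), (1, 1)]⟩,
     ⟨19, -1, [(0, 0), (0, 0)], [(0, 2), (1, 1)], (0, 2), [(1, 1), (1, 1)]⟩,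
     ⟨9, 0, [(0, 0), (0, 0)], [(0, 2), (1, 0)], (0, 2), [(1, 1), (1, 0)]⟩,
     ⟨20, -1, [(0, 0), (0, 0)], [(0, 2), (0, 1)], (0, 2), [(1, 1), (1, 0)]⟩,
     ⟨0, 1, [(0, 0), (0, 0)], [(0, 1), (0, 1)], (0, 1), [(1, 0), (1, 0)]⟩], 60, -5⟩]

theorem recs3_chk : recs3.all (fun r => r.chk par3 3 1000) = true := by decide +kernel

theorem recs3_ok : (recs3.map RCell.Rec.ritem).all TCell.RItem.ok = true := by decide +kernel

theorem recs3_link : TCell.link 1 12 (recs3.map RCell.Rec.c) = true := by decide +kernel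

theorem recs3_end : TCell.lastEnd 1 12 (recs3.map RCell.Rec.c) = (1, 10) := by decide +kernel

theorem recs3_sum : ((recs3.map RCell.Rec.ritem).map TCell.RItem.qval).sum ≤ 177 / 20 := by
  decide +kernel

/-- the cells below `1 / 12` -/
def recsA : List TCell.Rec := TCell.recs.take 5

/-- the cells above `1 / 10` -/
def recsB : List TCell.Rec := TCell.recs.drop 9

theorem recsA_link : TCell.link 1 20 (recsA.map TCell.Rec.c) = true := by decide +kernel

theorem recsA_end : TCell.lastEnd 1 20 (recsA.map TCell.Rec.c) = (1, 12) := by decide +kernel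

theorem recsB_link : TCell.link 1 10 (recsB.map TCell.Rec.c) = true := by decide +kernel

theorem recsB_end : TCell.lastEnd 1 10 (recsB.map TCell.Rec.c) = (4, 1) := by decide +kernel

theorem recsA_sum : ((recsA.map TCell.Rec.ritem).map TCell.RItem.qval).sum ≤ 3000 / 1000 := by
  decide +kernel

theorem recsB_sum : ((recsB.map TCell.Rec.ritem).map TCell.RItem.qval).sum ≤ 53268 / 1000 := by
  decide +kernel

/-- the items with rational coefficients -/
def ritems3 : List TCell.RItem := recs3.map RCell.Rec.ritem ++ (recsA.map TCell.Rec.ritem ++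
  (recsB.map TCell.Rec.ritem ++ TCell.quads.map (TCell.QRec.ritem TCell.par)))

/-- items `(α, β, lo, hi)`: the cost of a prime `lo n < p ≤ hi n` is at most `α n + β p + O(1)` -/
noncomputable def items3 : List (ℝ × ℝ × ℝ × ℝ) :=
  (10, 5 / 4, 0, 1 / 100) :: ritems3.map TCell.RItem.item

theorem ritems3_ok : ∀ r ∈ ritems3, r.ok = true := by
  intro r hr
  unfold ritems3 at hr
  rcases List.mem_append.1 hr with h | h
  · exact List.all_eq_true.1 recs3_ok r h
  rcases List.mem_append.1 h with h | h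
  · obtain ⟨q, hq, rfl⟩ := List.mem_map.1 h
    exact List.all_eq_true.1 TCell.recs_ok _ (List.mem_map_of_mem (List.mem_of_mem_take hq))
  rcases List.mem_append.1 h with h | h
  · obtain ⟨q, hq, rfl⟩ := List.mem_map.1 h
    exact List.all_eq_true.1 TCell.recs_ok _ (List.mem_map_of_mem (List.mem_of_mem_drop hq))
  · exact List.all_eq_true.1 TCell.quads_ok r h

theorem items3_ok : ∀ x ∈ items3, 0 ≤ x.2.2.1 ∧ x.2.2.1 ≤ x.2.2.2 ∧
    0 ≤ x.1 + x.2.1 * x.2.2.1 ∧ 0 ≤ x.1 + x.2.1 * x.2.2.2 := by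
  intro x hx
  unfold items3 at hx
  rcases List.mem_cons.1 hx with h | h
  · subst h
    norm_num
  · obtain ⟨r, hr, rfl⟩ := List.mem_map.1 h
    exact TCell.RItem.item_ok (ritems3_ok r hr)

/-- the value of the table -/
theorem items3_sum : (items3.map D23.ival).sum ≤ 6647 / 100 := by
  unfold items3
  rw [List.map_cons, List.sum_cons, TCell.sum_ival]
  unfold ritems3
  rw [List.map_append, List.map_append, List.map_append, List.sum_append, List.sum_append,
    List.sum_append]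
  have h1 : (((recs3.map RCell.Rec.ritem).map TCell.RItem.qval).sum +
      (((recsA.map TCell.Rec.ritem).map TCell.RItem.qval).sum +
      (((recsB.map TCell.Rec.ritem).map TCell.RItem.qval).sum +
      ((TCell.quads.map (TCell.QRec.ritem TCell.par)).map TCell.RItem.qval).sum)) : ℚ) ≤
      177 / 20 + (3000 / 1000 + (53268 / 1000 + 12445 / 10000)) :=
    add_le_add recs3_sum (add_le_add recsA_sum (add_le_add recsB_sum TCell.quads_sum))
  have h2 := (Rat.cast_le (K := ℝ)).mpr h1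
  have h3 : ((177 / 20 + (3000 / 1000 + (53268 / 1000 + 12445 / 10000)) : ℚ) : ℝ) =
      177 / 20 + (3000 / 1000 + (53268 / 1000 + 12445 / 10000)) := by
    norm_num
  have h4 : D23.ival ((10 : ℝ), (5 / 4 : ℝ), (0 : ℝ), (1 / 100 : ℝ)) = 8005 / 80000 := by
    unfold D23.ival
    norm_num
  rw [h4]
  rw [h3] at h2
  linarith

/-! ### The instance of the refined rule -/

theorem par3_e0 (n p : ℕ) : par3.e0 n p = ee n p := by
  unfold RCell.Par.e0 par3 ee
  simp only [List.map_cons, List.map_nil, List.sum_cons, List.sum_nil]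
  ring

theorem par3_phi (n p s : ℕ) : par3.phi n p s = ph n p s := by
  unfold RCell.Par.phi par3 bc nf ph
  simp only [List.map_cons, List.map_nil, List.sum_cons, List.sum_nil, zero_mul, add_zero, one_mul]
  ring

theorem par3_ub (n p s : ℕ) : bc n p s par3.ub = (icnt (8 * n) (20 * n) p s : ℤ) := by
  unfold par3 bc nf
  simp only [zero_mul, add_zero]

theorem par3_rho (n p s : ℕ) : par3.rho n p s =
    (icnt (6 * n + p) (20 * n) p s : ℤ) + (icnt (6 * n + p) (19 * n) p s : ℤ) := by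
  unfold RCell.Par.rho par3 bc nf
  simp only [List.map_cons, List.map_nil, List.sum_cons, List.sum_nil, zero_mul, add_zero, one_mul]

section
variable {p : ℕ} [hp : Fact p.Prime]

omit hp in
theorem farN_le_rho (n t : ℕ) : (farN (K1 n) (K2 n) p (6 * n) t : ℤ) ≤ par3.rho n p t := by
  rw [par3_rho]
  unfold farN farS cnt D23.Cell.icnt
  push_cast
  refine add_le_add ?_ ?_
  · refine Int.ofNat_le.mpr (card_le_card fun k hk => ?_)
    rw [mem_filter, mem_filter, mem_K1] at hk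
    rw [mem_filter, mem_Ico]
    exact ⟨⟨by omega, hk.1.1.2⟩, hk.2⟩
  · refine Int.ofNat_le.mpr (card_le_card fun k hk => ?_)
    rw [mem_filter, mem_filter, mem_K2] at hk
    rw [mem_filter, mem_Ico]
    exact ⟨⟨by omega, hk.1.1.2⟩, hk.2⟩

/-- **The refined bound of the family.** -/
theorem dlt_lin_par3 (n M : ℕ) (hpn : 20 * n < p ^ 2) (hM : M ≤ 5 * n) (a b lam : ℤ) :
    padicNorm p (Dlt n a b M) ≤
      (p : ℚ) ^ (lam * M + ∑ s ∈ range p, par3.cst n p lam s + nrm M p) := by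
  classical
  set T : Finset ℕ := (range p).filter (fun s => ¬ (bc n p s par3.ub = 0) ∧
    ¬ (bc n p s par3.ub = 1 ∧ par3.rho n p s = 0 ∧ -par3.e0 n p ≤ lam)) with hT
  have hcls : ∀ k ∈ K1 n, bc n p (k % p) par3.ub ≠ 0 := by
    intro k hk h0
    have h1 := mem_K1.mp hk
    rw [par3_ub] at h0
    have h0' : icnt (8 * n) (20 * n) p (k % p) = 0 := by exact_mod_cast h0
    unfold D23.Cell.icnt at h0'
    rw [card_eq_zero, filter_eq_empty_iff] at h0'
    exact h0' (mem_Ico.mpr h1) rfl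
  have hfar : ∀ k ∈ K1 n, par3.rho n p (k % p) = 0 → k < 6 * n + p := by
    intro k hk h0
    by_contra h2
    have h1 := mem_K1.mp hk
    rw [par3_rho] at h0
    have h0' : icnt (6 * n + p) (20 * n) p (k % p) = 0 := by omega
    unfold D23.Cell.icnt at h0'
    rw [card_eq_zero, filter_eq_empty_iff] at h0'
    exact h0' (mem_Ico.mpr ⟨by omega, h1.2⟩) rfl
  have h1 := det3 (p := p) (K1 n) (K2 n) (ZZ n) (kap n) (ee n p) (norm_kap n (by omega)).le
    (K2_sub n) (fun i hi => by have := mem_K1.mp hi; omega) (6 * n) T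
    (fun t ht => mem_range.mp (mem_filter.mp ht).1) (fun s => -1 - ee n p - ph n p s) lam
    (fun k hk hkT => by
      have h2 := hcls k hk
      have h3 : bc n p (k % p) par3.ub = 1 ∧ par3.rho n p (k % p) = 0 ∧
          -par3.e0 n p ≤ lam := by
        by_contra h4
        exact hkT (mem_filter.mpr ⟨mem_range.mpr (Nat.mod_lt _ hp.out.pos), h2, h4⟩)
      have h5 := hfar k hk h3.2.1
      have h6 := mem_K1.mp hk
      have h7 := h3.2.2
      have h8 := h3.1
      rw [par3_e0] at h7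
      rw [par3_ub] at h8
      refine ⟨by have := hp.out.pos; omega, ?_, h7⟩
      have h9 : icnt (8 * n) (20 * n) p (k % p) = 1 := by exact_mod_cast h8
      exact h9)
    (fun k hk _ => by
      rw [phi2_eq])
    a b M
  have h8 : ∑ t ∈ T, (ccost (-1 - ee n p - ph n p t + 2 - lam) -
      max (-1 - ee n p - ph n p t + 2 - lam - 2 * farN (K1 n) (K2 n) p (6 * n) t) 0) ≤
      ∑ s ∈ range p, par3.cst n p lam s := by
    rw [hT, sum_filter]
    refine sum_le_sum (fun s _ => ?_)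
    have hr := RCell.rho_nonneg par3 n p s
    split_ifs with c1
    · unfold RCell.Par.cst
      rw [if_neg c1.1, if_neg c1.2, par3_e0, par3_phi]
      have h9 := farN_le_rho (p := p) n s
      have h10 : RCell.cost3 (-1 - ee n p - ph n p s + 2 - lam)
          (farN (K1 n) (K2 n) p (6 * n) s : ℤ) ≤
          RCell.cost3 (1 - ee n p - ph n p s - lam) (par3.rho n p s) :=
        RCell.cost3_mono (by linarith) (Int.natCast_nonneg _) h9
      exact h10
    · unfold RCell.Par.cst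
      split_ifs
      · exact le_rfl
      · exact le_rfl
      · exact RCell.cost3_nonneg _ _ hr
  refine (D23.padicNorm_norm_le p _ M (by omega) _ h1).trans
    (zpow_le_zpow_right₀ (pone (p := p)).le ?_)
  unfold D23.Cell.nrm
  linarith

end

/-- **The table of the family, refined.** -/
theorem table3 (n p M : ℕ) [Fact p.Prime] (hn : 1 ≤ n) (hp : 20 * n < p ^ 2)
    (hM1 : 5 * n ≤ M + 3) (hM : M ≤ 5 * n) (a b : ℤ) (hp20 : p ≤ 20 * n) :
    ∃ x ∈ items3, ∃ e : ℕ, padicNorm p (Dlt n a b M) ≤ (p : ℚ) ^ e ∧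
      (e : ℝ) ≤ x.1 * n + x.2.1 * p + 1000 ∧ x.2.2.1 * n < (p : ℝ) ∧ (p : ℝ) ≤ x.2.2.2 * n := by
  have hp3 : 3 < p := by nlinarith
  have hp0 : 0 < p := by omega
  have hp1 : (1 : ℚ) ≤ p := by exact_mod_cast hp0
  set D : ℚ := Dlt n a b M with hD
  have hall : ∀ lam : ℤ, padicNorm p D ≤ (p : ℚ) ^ (lam * M +
      ∑ s ∈ range p, ccost (1 - ph n p s - ee n p - lam) + nrm M p) :=
    fun lam => det_all n M hn hp hM a b lam
  have mono : ∀ S T : ℤ, S ≤ T → padicNorm p D ≤ (p : ℚ) ^ S → padicNorm p D ≤ (p : ℚ) ^ T :=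
    fun S T hST h => h.trans (zpow_le_zpow_right₀ hp1 hST)
  have hT : TCell.Costs TCell.par n p M (fun T => padicNorm p D ≤ (p : ℚ) ^ T) :=
    costs_of n p M _ mono hall (fun lam hlam => det_far n M p hp hM a b lam hlam)
  have hT3 : RCell.Costs par3 n p M (fun T => padicNorm p D ≤ (p : ℚ) ^ T) :=
    ⟨mono, fun lam => dlt_lin_par3 n M hp hM a b lam⟩
  have hd3 : ((3 : ℕ) : ℤ) < (p : ℤ) := by exact_mod_cast hp3
  have hth : TCell.par.th = 5 := rfl
  have hth3 : par3.th = 5 := rfl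
  have hM0 : (M : ℤ) ≤ 5 * n := by exact_mod_cast hM
  have hM2 : 5 * n ≤ (M : ℤ) + 3 := by exact_mod_cast hM1
  have hout : ∀ r ∈ ritems3, r.c.a1 * p ≤ r.c.b1 * n →
      r.c.b2 * n < r.c.a2 * p → (∃ T : ℤ, padicNorm p D ≤ (p : ℚ) ^ T ∧
        (T : ℚ) ≤ r.al * n + r.be * p + (1000 : ℕ)) →
      ∃ x ∈ items3, ∃ e : ℕ, padicNorm p D ≤ (p : ℚ) ^ e ∧
        (e : ℝ) ≤ x.1 * n + x.2.1 * p + 1000 ∧ x.2.2.1 * n < (p : ℝ) ∧
        (p : ℝ) ≤ x.2.2.2 * n := by
    intro r hr h1 h2 ⟨T, hT1, hT2⟩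
    obtain ⟨e, he1, he2, he3, he4⟩ := TCell.RItem.out (G := 1000)
      (Ok := fun T => padicNorm p D ≤ (p : ℚ) ^ T) (ritems3_ok r hr) mono T hT1 hT2 h1 h2
    refine ⟨r.item, ?_, e, ?_, ?_, he3, he4⟩
    · unfold items3
      exact List.mem_cons_of_mem _ (List.mem_map_of_mem hr)
    · rw [zpow_natCast] at he1
      exact he1
    · exact_mod_cast he2
  by_cases h100 : 100 * p ≤ n
  · -- the tail
    have hw : ∀ s < p, -1 ≤ 1 - ph n p s - ee n p ∧ 1 - ph n p s - ee n p ≤ 3 := by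
      intro s hs
      obtain ⟨h1, h2⟩ := ph_ee_bounds n p s hs
      constructor <;> linarith
    have hA : ∑ s ∈ range p, (1 - ph n p s - ee n p) ≤ 2 * (p : ℤ) := by
      rw [sum_sub_distrib, sum_sub_distrib, sum_ph n p hp0, sum_const, sum_const, card_range]
      simp only [nsmul_eq_mul, mul_one]
      have h1 := (ee_bounds n p hp0).1
      have h2 : (10 * n : ℤ) < ((10 * n / p : ℕ) + 1) * p := by
        have := Nat.lt_mul_div_succ (10 * n) hp0
        rw [mul_comm p] at this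
        exact_mod_cast this
      have h3 : ((10 * n / p : ℕ) : ℤ) * p ≤ ee n p * p :=
        mul_le_mul_of_nonneg_right h1 (Int.natCast_nonneg p)
      linarith
    have h1 := tail_bound (M := M) (fun s => 1 - ph n p s - ee n p) hw (a := 2) le_rfl hA
    have h2 := hall (2 - 2 * ((M / p : ℕ) : ℤ))
    set T : ℤ := (2 - 2 * ((M / p : ℕ) : ℤ)) * M + ∑ s ∈ range p,
      ccost (1 - ph n p s - ee n p - (2 - 2 * ((M / p : ℕ) : ℤ))) + nrm M p with hTdef
    have h3 : 4 * T ≤ 8 * M + 5 * p := by linarith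
    refine ⟨(10, 5 / 4, 0, 1 / 100), by unfold items3; exact List.mem_cons_self, T.toNat, ?_, ?_,
      ?_, ?_⟩
    · have h4 := mono T T.toNat (Int.self_le_toNat T) h2
      rw [zpow_natCast] at h4
      exact h4
    · have h6 : 4 * ((T.toNat : ℕ) : ℤ) ≤ 8 * M + 5 * p := by
        rw [Int.toNat_eq_max]
        rcases le_total T 0 with h | h
        · rw [max_eq_right h]
          positivity
        · rw [max_eq_left h]
          exact h3
      have h7 : 4 * ((T.toNat : ℕ) : ℝ) ≤ 8 * M + 5 * p := by exact_mod_cast h6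
      have h8 : (M : ℝ) ≤ 5 * n := by exact_mod_cast hM
      simp only
      linarith
    · simp only [zero_mul]
      exact_mod_cast hp0
    · have : (100 : ℝ) * p ≤ n := by exact_mod_cast h100
      simp only
      linarith
  push Not at h100
  by_cases h4 : 4 * p ≤ n
  · -- quadratic cells
    obtain ⟨c, hc, h7, h8⟩ := TCell.link_cover (n := n) (p := p) (TCell.quads.map TCell.QRec.c)
      4 1 (by norm_num) TCell.quads_link (by exact_mod_cast (by omega : 4 * p ≤ 1 * n)) (by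
        rw [TCell.quads_end]
        have : (1 : ℤ) * n < 100 * p := by exact_mod_cast (by omega : 1 * n < 100 * p)
        exact this)
    obtain ⟨r, hr, rfl⟩ := List.mem_map.1 hc
    have hchk := List.all_eq_true.1 TCell.quads_chk r hr
    refine hout (r.ritem TCell.par) ?_ h7 h8 ?_
    · unfold ritems3
      exact List.mem_append_right _ (List.mem_append_right _ (List.mem_append_right _
        (List.mem_map_of_mem hr)))
    obtain ⟨T, hT1, hT2⟩ := TCell.QRec.sound hchk hT (d := 3) (by norm_num) hd3 (by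
        intro s hs
        rw [phi_eq, e0_eq]
        obtain ⟨h1, h2⟩ := ph_ee_bounds n p s hs
        constructor <;> linarith) (by
        simp only [phi_eq]
        exact sum_ph n p hp0) (by rw [hth]; exact hM0) (by rw [hth]; exact hM2) h7 h8
    refine ⟨T, hT1, hT2.trans ?_⟩
    push_cast
    linarith
  push Not at h4
  by_cases h10 : p ≤ 10 * n
  · -- cells above `1 / 10`
    obtain ⟨c, hc, h7, h8⟩ := TCell.link_cover (n := n) (p := p) (recsB.map TCell.Rec.c)
      1 10 (by norm_num) recsB_link (by exact_mod_cast (by omega : 1 * p ≤ 10 * n)) (by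
        rw [recsB_end]
        have : (1 : ℤ) * n < 4 * p := by exact_mod_cast (by omega : 1 * n < 4 * p)
        exact this)
    obtain ⟨r, hr, rfl⟩ := List.mem_map.1 hc
    have hchk := List.all_eq_true.1 TCell.recs_chk r (List.mem_of_mem_drop hr)
    refine hout r.ritem ?_ h7 h8 ?_
    · unfold ritems3
      exact List.mem_append_right _ (List.mem_append_right _ (List.mem_append_left _
        (List.mem_map_of_mem hr)))
    refine ⟨r.al * n + r.be * p + 1000, TCell.Rec.sound hchk hT (by norm_num) hd3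
      (by rw [hth]; linarith) (by rw [hth]; linarith) h7 h8, ?_⟩
    unfold TCell.Rec.ritem
    push_cast
    exact le_rfl
  push Not at h10
  by_cases h12 : p ≤ 12 * n
  · -- the refined cells
    obtain ⟨c, hc, h7, h8⟩ := TCell.link_cover (n := n) (p := p) (recs3.map RCell.Rec.c)
      1 12 (by norm_num) recs3_link (by exact_mod_cast (by omega : 1 * p ≤ 12 * n)) (by
        rw [recs3_end]
        have : (10 : ℤ) * n < 1 * p := by exact_mod_cast (by omega : 10 * n < 1 * p)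
        exact this)
    obtain ⟨r, hr, rfl⟩ := List.mem_map.1 hc
    have hchk := List.all_eq_true.1 recs3_chk r hr
    refine hout r.ritem ?_ h7 h8 ?_
    · unfold ritems3
      exact List.mem_append_left _ (List.mem_map_of_mem hr)
    refine ⟨r.al * n + r.be * p + 1000, RCell.Rec.sound hchk hT3 (by norm_num) hd3
      (by rw [hth3]; linarith) (by rw [hth3]; linarith) h7 h8, ?_⟩
    unfold RCell.Rec.ritem
    push_cast
    exact le_rfl
  · -- cells below `1 / 12`
    push Not at h12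
    obtain ⟨c, hc, h7, h8⟩ := TCell.link_cover (n := n) (p := p) (recsA.map TCell.Rec.c)
      1 20 (by norm_num) recsA_link (by exact_mod_cast (by omega : 1 * p ≤ 20 * n)) (by
        rw [recsA_end]
        have : (12 : ℤ) * n < 1 * p := by exact_mod_cast (by omega : 12 * n < 1 * p)
        exact this)
    obtain ⟨r, hr, rfl⟩ := List.mem_map.1 hc
    have hchk := List.all_eq_true.1 TCell.recs_chk r (List.mem_of_mem_take hr)
    refine hout r.ritem ?_ h7 h8 ?_
    · unfold ritems3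
      exact List.mem_append_right _ (List.mem_append_left _ (List.mem_map_of_mem hr))
    refine ⟨r.al * n + r.be * p + 1000, TCell.Rec.sound hchk hT (by norm_num) hd3
      (by rw [hth]; linarith) (by rw [hth]; linarith) h7 h8, ?_⟩
    unfold TCell.Rec.ritem
    push_cast
    exact le_rfl

end Pool.Agent.Z3D
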