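import Pool.Agent.Z3D.Table3

/-!
# The negative cell `59 / 5 < p / n ≤ 12`

There the normalised determinants are divisible by a power of `p`. The cost is nonnegative on all
the other cells.
-/

set_option autoImplicit false

open Finset

namespace Pool.Agent.Z3D

/-- the negative items -/
noncomputable def nitems : List (ℝ × ℝ × ℝ × ℝ) := [(59, -5, 59 / 5, 12)]

theorem nitems_ok : ∀ x ∈ nitems, 0 ≤ x.2.2.1 ∧ x.2.2.1 ≤ x.2.2.2 := by
  intro x hx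
  unfold nitems at hx
  rw [List.mem_singleton] at hx
  subst hx
  norm_num

theorem nitems_sorted : nitems.Pairwise (fun x y => x.2.2.2 ≤ y.2.2.1) := by
  unfold nitems
  exact List.pairwise_singleton _ _

theorem nitems_sum : (nitems.map D23.ival).sum ≤ -(1 / 10) := by
  unfold nitems D23.ival
  norm_num

/-- the negative cell with its certificates -/
def nrec : RCell.Rec :=
  ⟨⟨1, 12, 5, 59⟩, -1, 0, 1, [1, 0], [0, 0],
    [⟨1, 0, [(0, 1), (1, 0)], [(1, 1), (1, 1)], (1, 1), [(2, 0), (2, 0)]⟩,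
     ⟨6, 0, [(0, 1), (0, 1)], [(1, 1), (1, 1)], (1, 1), [(2, 0), (2, 0)]⟩,
     ⟨7, 0, [(0, 1), (0, 0)], [(1, 1), (1, 1)], (1, 1), [(1, 1), (1, 1)]⟩,
     ⟨19, -1, [(0, 0), (0, 0)], [(1, 1), (1, 1)], (1, 1), [(1, 1), (1, 1)]⟩,
     ⟨8, 0, [(0, 0), (0, 0)], [(1, 1), (1, 0)], (1, 1), [(1, 1), (1, 0)]⟩,
     ⟨20, -1, [(0, 0), (0, 0)], [(0, 2), (1, 0)], (0, 2), [(1, 1), (1, 0)]⟩,
     ⟨9, 0, [(0, 0), (0, 0)], [(0, 1), (1, 0)], (0, 1), [(1, 0), (1, 0)]⟩,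
     ⟨0, 1, [(0, 0), (0, 0)], [(0, 1), (0, 1)], (0, 1), [(1, 0), (1, 0)]⟩], 59, -5⟩

theorem nrec_chk : nrec.chk par3 3 1000 = true := by decide +kernel

/-- **The bound on the negative cell.** -/
theorem table_neg (n p M : ℕ) [Fact p.Prime] (_hn : 1 ≤ n) (hp : 20 * n < p ^ 2)
    (hM1 : 5 * n ≤ M + 3) (hM : M ≤ 5 * n) (a b : ℤ) (x : ℝ × ℝ × ℝ × ℝ) (hx : x ∈ nitems)
    (hlo : x.2.2.1 * n < (p : ℝ)) (hhi : (p : ℝ) ≤ x.2.2.2 * n) :
    ∃ e : ℤ, padicNorm p (Dlt n a b M) ≤ (p : ℚ) ^ e ∧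
      (e : ℝ) ≤ x.1 * n + x.2.1 * p + 1000 := by
  have hp3 : 3 < p := by nlinarith
  have hp1 : (1 : ℚ) ≤ p := by exact_mod_cast (by omega : 1 ≤ p)
  unfold nitems at hx
  rw [List.mem_singleton] at hx
  subst hx
  simp only at hlo hhi ⊢
  have hT3 : RCell.Costs par3 n p M (fun T => padicNorm p (Dlt n a b M) ≤ (p : ℚ) ^ T) :=
    ⟨fun S T hST h => h.trans (zpow_le_zpow_right₀ hp1 hST),
      fun lam => dlt_lin_par3 n M hp hM a b lam⟩
  have hth3 : par3.th = 5 := rfl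
  have hM0 : (M : ℤ) ≤ 5 * n := by exact_mod_cast hM
  have hM2 : 5 * n ≤ (M : ℤ) + 3 := by exact_mod_cast hM1
  have h7 : (nrec.c.a1 : ℤ) * p ≤ nrec.c.b1 * n := by
    have h : (p : ℝ) ≤ 12 * n := hhi
    have h' : (p : ℤ) ≤ 12 * n := by exact_mod_cast h
    change (1 : ℤ) * p ≤ 12 * n
    linarith
  have h8 : (nrec.c.b2 : ℤ) * n < nrec.c.a2 * p := by
    have h : (59 : ℝ) * n < 5 * p := by linarith
    have h' : (59 : ℤ) * n < 5 * p := by exact_mod_cast h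
    exact h'
  have h9 := RCell.Rec.sound (d := 3) (G := 1000) nrec_chk hT3 (by norm_num)
    (by exact_mod_cast hp3) (by rw [hth3]; linarith) (by rw [hth3]; linarith) h7 h8
  refine ⟨_, h9, ?_⟩
  change (((59 : ℤ) * n + (-5) * p + 1000 : ℤ) : ℝ) ≤ _
  push_cast
  exact le_rfl

end Pool.Agent.Z3D
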